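import Pool.Agent.Lib_helper5.FormDefs

/-!
# Formations: basic lemmas
-/

set_option maxHeartbeats 400000

namespace Pool.Agent.Lib_helper5.Form

open Function

theorem exists_lift {P Q R : Type} [Group P] [Group Q] [Group R] (f : P →* Q)
    (hf : Surjective f) (g : P →* R) (h : ∀ x, f x = 1 → g x = 1) :
    ∃ g' : Q →* R, ∀ x, g' (f x) = g x := by
  refine ⟨f.liftOfRightInverse (Function.surjInv hf) (Function.rightInverse_surjInv hf)
    ⟨g, fun x hx => h x hx⟩, fun x => ?_⟩
  exact f.liftOfRightInverse_comp_apply _ _ ⟨g, fun x hx => h x hx⟩ x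

/-- `f : N → G` injective with normal image -/
def NormalEmb {N G : Type} [Group N] [Group G] (f : N →* G) : Prop :=
  Injective f ∧ ∀ g x, ∃ y, f y = g * f x * g⁻¹

theorem normalEmb_range {N G : Type} [Group N] [Group G] {f : N →* G} (h : NormalEmb f) :
    f.range.Normal := by
  constructor
  rintro _ ⟨x, rfl⟩ g
  obtain ⟨y, hy⟩ := h.2 g x
  exact ⟨y, hy⟩

namespace Formation

variable (F : Formation)

theorem mem_of_family {ι : Type} {G : Type} {K : ι → Type} [Group G] [∀ i, Group (K i)] [Finite G]
    (f : ∀ i, G →* K i) (hf : ∀ i, Surjective (f i)) (hinj : ∀ x, (∀ i, f i x = 1) → x = 1)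
    (hK : ∀ i, F.mem (K i)) : F.mem G := by
  rw [F.mem_iff_res_eq_bot, eq_bot_iff]
  intro x hx
  exact hinj x (fun i => F.res_le_ker (f i) (hf i) (hK i) hx)

variable {F} in
theorem NormallyHereditary.mem_of_emb (hF : F.NormallyHereditary) {N G : Type} [Group N] [Group G]
    (f : N →* G) (hf : NormalEmb f) (h : F.mem G) : F.mem N := by
  have h1 := hF G f.range (normalEmb_range hf) h
  exact F.mem_of_equiv (MonoidHom.ofInjective hf.1).symm h1

theorem map_res_equiv {G H : Type} [Group G] [Group H] [Finite G] (e : G ≃* H) :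
    (F.res G).map e.toMonoidHom = F.res H := F.map_res _ e.surjective

instance res_characteristic (G : Type) [Group G] [Finite G] : (F.res G).Characteristic := by
  rw [Subgroup.characteristic_iff_map_eq]
  intro φ
  exact F.map_res φ.toMonoidHom φ.surjective

variable {F} in
/-- The residual of a normal subgroup is contained in the residual. -/
theorem NormallyHereditary.res_le_comap (hF : F.NormallyHereditary) {G : Type} [Group G] [Finite G]
    (N : Subgroup G) [hN : N.Normal] : F.res N ≤ (F.res G).comap N.subtype := by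
  let f : N →* G ⧸ F.res G := (QuotientGroup.mk' (F.res G)).comp N.subtype
  have h1 : f.range.Normal := by
    have : f.range = N.map (QuotientGroup.mk' (F.res G)) := by
      rw [MonoidHom.range_comp, Subgroup.range_subtype]
    rw [this]
    exact hN.map _ (QuotientGroup.mk'_surjective _)
  have h2 : F.mem f.range := hF _ _ h1 (F.mem_quotient_res G)
  have h3 := F.res_le_ker f.rangeRestrict f.rangeRestrict_surjective h2
  intro x hx
  have h4 := h3 hx
  rw [MonoidHom.ker_rangeRestrict] at h4
  exact (QuotientGroup.eq_one_iff (N := F.res G) (x : G)).mp h4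

theorem NormallyHereditary.comp {A B : Formation} (hA : A.NormallyHereditary)
    (hB : B.NormallyHereditary) : (A.comp B).NormallyHereditary := by
  intro G _ N hN hG
  obtain ⟨_, hG2⟩ := hG
  refine ⟨inferInstance, ?_⟩
  have h1 := hB.res_le_comap N
  let f : B.res N →* B.res G :=
    (N.subtype.comp (B.res N).subtype).codRestrict (B.res G) (fun x => h1 x.2)
  refine hA.mem_of_emb f ⟨?_, ?_⟩ hG2
  · intro x y hxy
    have := congrArg (fun z : B.res G => (z : G)) hxy
    apply Subtype.ext
    apply Subtype.ext
    exact this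
  · intro g x
    have h2 : ((B.res N).map N.subtype).Normal := inferInstance
    have h3 : ((x : N) : G) ∈ (B.res N).map N.subtype := ⟨x, x.2, rfl⟩
    obtain ⟨y, hy, hy'⟩ := h2.conj_mem _ h3 g
    refine ⟨⟨y, hy⟩, ?_⟩
    apply Subtype.ext
    exact hy'

theorem normallyHereditary_one : (1 : Formation).NormallyHereditary := by
  intro G _ N _ hG
  rw [one_def, mem_triv] at hG ⊢
  infer_instance

theorem NormallyHereditary.mul {A B : Formation} (hA : A.NormallyHereditary)
    (hB : B.NormallyHereditary) : (A * B).NormallyHereditary := hA.comp hB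

variable {F} in
/-- Residuals of direct products, for normally hereditary formations. -/
theorem NormallyHereditary.res_prod (hF : F.NormallyHereditary) {G H : Type} [Group G] [Group H]
    [Finite G] [Finite H] : F.res (G × H) = (F.res G).prod (F.res H) := by
  apply le_antisymm
  · intro x hx
    rw [Subgroup.mem_prod]
    constructor
    · rw [← F.map_res (MonoidHom.fst G H) Prod.fst_surjective]
      exact ⟨x, hx, rfl⟩
    · rw [← F.map_res (MonoidHom.snd G H) Prod.snd_surjective]
      exact ⟨x, hx, rfl⟩
  · have hG : F.res G ≤ (F.res (G × H)).comap (MonoidHom.inl G H) := by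
      let f : G →* (G × H) ⧸ F.res (G × H) :=
        (QuotientGroup.mk' (F.res (G × H))).comp (MonoidHom.inl G H)
      have h1 : f.range.Normal := by
        rw [MonoidHom.range_comp]
        refine Subgroup.Normal.map ?_ _ (QuotientGroup.mk'_surjective _)
        constructor
        rintro _ ⟨x, rfl⟩ g
        refine ⟨g.1 * x * g.1⁻¹, ?_⟩
        ext <;> simp
      have h2 : F.mem f.range := hF _ _ h1 (F.mem_quotient_res _)
      have h3 := F.res_le_ker f.rangeRestrict f.rangeRestrict_surjective h2
      intro x hx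
      have h4 := h3 hx
      rw [MonoidHom.ker_rangeRestrict] at h4
      exact (QuotientGroup.eq_one_iff (N := F.res (G × H)) _).mp h4
    have hH : F.res H ≤ (F.res (G × H)).comap (MonoidHom.inr G H) := by
      let f : H →* (G × H) ⧸ F.res (G × H) :=
        (QuotientGroup.mk' (F.res (G × H))).comp (MonoidHom.inr G H)
      have h1 : f.range.Normal := by
        rw [MonoidHom.range_comp]
        refine Subgroup.Normal.map ?_ _ (QuotientGroup.mk'_surjective _)
        constructor
        rintro _ ⟨x, rfl⟩ g
        refine ⟨g.2 * x * g.2⁻¹, ?_⟩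
        ext <;> simp
      have h2 : F.mem f.range := hF _ _ h1 (F.mem_quotient_res _)
      have h3 := F.res_le_ker f.rangeRestrict f.rangeRestrict_surjective h2
      intro x hx
      have h4 := h3 hx
      rw [MonoidHom.ker_rangeRestrict] at h4
      exact (QuotientGroup.eq_one_iff (N := F.res (G × H)) _).mp h4
    intro x hx
    rw [Subgroup.mem_prod] at hx
    have : x = MonoidHom.inl G H x.1 * MonoidHom.inr G H x.2 := by ext <;> simp
    rw [this]
    exact Subgroup.mul_mem _ (hG hx.1) (hH hx.2)

/-- A class of finite groups closed under quotients, normal subgroups and extensions is a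
formation. -/
def ofExt (mem : ∀ (G : Type) [Group G], Prop)
    (h1 : ∀ {G : Type} [Group G], mem G → Finite G)
    (h2 : ∃ (G : Type) (_ : Group G), mem G)
    (h3 : ∀ {G H : Type} [Group G] [Group H] (f : G →* H), Surjective f → mem G → mem H)
    (h4 : ∀ {N G : Type} [Group N] [Group G] (f : N →* G), NormalEmb f → mem G → mem N)
    (h5 : ∀ {G Q : Type} [Group G] [Group Q] [Finite G] (f : G →* Q), Surjective f →
      mem f.ker → mem Q → mem G) :
    Formation :=
  ofSubdirect mem h1 h2 h3 (by
    intro G H K _ _ _ _ f g hf hg hfg hH hK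
    refine h5 f hf ?_ hH
    refine h4 (g.comp f.ker.subtype) ⟨?_, ?_⟩ hK
    · rw [injective_iff_map_eq_one]
      intro x hx
      apply Subtype.ext
      exact hfg x x.2 hx
    · intro k x
      obtain ⟨y, rfl⟩ := hg k
      refine ⟨⟨y * x * y⁻¹, ?_⟩, ?_⟩
      · have h := x.2
        rw [MonoidHom.mem_ker] at h ⊢
        simp [h]
      · simp)

end Formation

/-- `N` is non-supplemented in `H` by proper normal subgroups. -/
def NonSup {H : Type} [Group H] (N : Subgroup H) : Prop :=
  ∀ T : Subgroup H, T.Normal → T ⊔ N = ⊤ → T = ⊤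

theorem exists_nonSup {H : Type} [Group H] [Finite H] (N : Subgroup H) [hN : N.Normal] :
    ∃ T C : Subgroup H, T.Normal ∧ C.Normal ∧ C ⊓ N = T ∧ C ⊔ N = ⊤ ∧ NonSup T := by
  let 𝒮 : Set (Subgroup H) := {T | ∃ C : Subgroup H, C.Normal ∧ C ⊓ N = T ∧ C ⊔ N = ⊤}
  have h0 : N ∈ 𝒮 := ⟨⊤, inferInstance, by simp, by simp⟩
  obtain ⟨T, hT⟩ := (Set.toFinite 𝒮).exists_minimal ⟨_, h0⟩
  obtain ⟨C, hC, hCN, hCN'⟩ := hT.1
  refine ⟨T, C, ?_, hC, hCN, hCN', ?_⟩
  · rw [← hCN]
    exact Subgroup.normal_inf_normal C N
  · intro T₁ hT₁ hsup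
    have hTC : T ≤ C := by rw [← hCN]; exact inf_le_left
    have hTN : T ≤ N := by rw [← hCN]; exact inf_le_right
    have h1 : T₁ ⊓ T ∈ 𝒮 := by
      refine ⟨T₁ ⊓ C, Subgroup.normal_inf_normal T₁ C, ?_, ?_⟩
      · rw [inf_assoc, hCN]
      · have h2 : C ≤ (T₁ ⊓ C) ⊔ N := by
          intro c hc
          have h3 : c ∈ T₁ ⊔ T := by rw [hsup]; trivial
          rw [Subgroup.mem_sup_of_normal_left] at h3
          obtain ⟨t₁, ht₁, t, ht, rfl⟩ := h3
          have h4 : t₁ ∈ C := by
            have := C.mul_mem hc (C.inv_mem (hTC ht))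
            simpa using this
          exact Subgroup.mul_mem _ (Subgroup.mem_sup_left ⟨ht₁, h4⟩)
            (Subgroup.mem_sup_right (hTN ht))
        rw [eq_top_iff, ← hCN']
        exact sup_le h2 le_sup_right
    have h2 : T ≤ T₁ ⊓ T := hT.2 h1 inf_le_right
    have h3 : T ≤ T₁ := h2.trans inf_le_left
    rw [sup_eq_left.mpr h3] at hsup
    exact hsup

end Pool.Agent.Lib_helper5.Form
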