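import Pool.Agent.Lib_helper5.FormBasic

/-!
# Coinduced groups
-/

set_option maxHeartbeats 400000

namespace Pool.Agent.Lib_helper5.Form

open Function

/-- The group `(K → H) ⋊ G` where `G` acts on `K` by left translations through `κ`. -/
@[ext] structure Wr {G K : Type} [Group G] [Group K] (κ : G →* K) (H : Type) where
  f : K → H
  x : G

namespace Wr

variable {G K H : Type} [Group G] [Group K] [Group H] {κ : G →* K}

instance : Mul (Wr κ H) := ⟨fun a b => ⟨fun k => a.f k * b.f ((κ a.x)⁻¹ * k), a.x * b.x⟩⟩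
instance : One (Wr κ H) := ⟨⟨fun _ => 1, 1⟩⟩
instance : Inv (Wr κ H) := ⟨fun a => ⟨fun k => (a.f (κ a.x * k))⁻¹, a.x⁻¹⟩⟩

@[simp] theorem mul_f (a b : Wr κ H) (k : K) : (a * b).f k = a.f k * b.f ((κ a.x)⁻¹ * k) := rfl
@[simp] theorem mul_x (a b : Wr κ H) : (a * b).x = a.x * b.x := rfl
@[simp] theorem one_f (k : K) : (1 : Wr κ H).f k = 1 := rfl
@[simp] theorem one_x : (1 : Wr κ H).x = 1 := rfl
@[simp] theorem inv_f (a : Wr κ H) (k : K) : (a⁻¹).f k = (a.f (κ a.x * k))⁻¹ := rfl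
@[simp] theorem inv_x (a : Wr κ H) : (a⁻¹).x = a.x⁻¹ := rfl

instance : Group (Wr κ H) := Group.ofLeftAxioms
  (fun a b c => by
    apply Wr.ext
    · funext k
      simp [mul_assoc]
    · simp [mul_assoc])
  (fun a => by
    apply Wr.ext
    · funext k
      simp
    · simp)
  (fun a => by
    apply Wr.ext
    · funext k
      simp
    · simp)

instance [Finite G] [Finite K] [Finite H] : Finite (Wr κ H) :=
  Finite.of_injective (fun a => ((a.f, a.x) : (K → H) × G)) (by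
    intro a b hab
    simp only [Prod.mk.injEq] at hab
    exact Wr.ext hab.1 hab.2)

end Wr

/-- Data for coinduction. -/
structure CD (G K H Q : Type) [Group G] [Group K] [Group H] [Group Q] where
  κ : G →* K
  t : K → G
  ht : ∀ k, κ (t k) = k
  q : H →* Q
  hq : Surjective q
  M : Subgroup G
  hM : ∀ x, x ∈ M ↔ κ x = 1
  g : M →* Q

namespace CD

variable {G K H Q : Type} [Group G] [Group K] [Group H] [Group Q] (D : CD G K H Q)

theorem aux_mem (x : G) (k : K) : (D.t k)⁻¹ * x * D.t ((D.κ x)⁻¹ * k) ∈ D.M := by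
  rw [D.hM]
  simp [D.ht]

/-- The coinduced group. -/
def Γ : Subgroup (Wr D.κ H) where
  carrier := {w | ∀ k, ∃ m : D.M, (m : G) = (D.t k)⁻¹ * w.x * D.t ((D.κ w.x)⁻¹ * k) ∧
    D.q (w.f k) = D.g m}
  mul_mem' := by
    intro a b ha hb k
    obtain ⟨m, hm, hm'⟩ := ha k
    obtain ⟨n, hn, hn'⟩ := hb ((D.κ a.x)⁻¹ * k)
    refine ⟨m * n, ?_, ?_⟩
    · rw [Subgroup.coe_mul, hm, hn]
      simp [mul_assoc]
    · rw [Wr.mul_f, map_mul, hm', hn', map_mul]
  one_mem' := by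
    intro k
    refine ⟨1, ?_, ?_⟩
    · simp
    · simp
  inv_mem' := by
    intro a ha k
    obtain ⟨m, hm, hm'⟩ := ha (D.κ a.x * k)
    refine ⟨m⁻¹, ?_, ?_⟩
    · rw [Subgroup.coe_inv, hm]
      simp [mul_assoc]
    · rw [Wr.inv_f, map_inv, hm', map_inv]

theorem mem_Γ (w : Wr D.κ H) : w ∈ D.Γ ↔ ∀ k,
    D.q (w.f k) = D.g ⟨(D.t k)⁻¹ * w.x * D.t ((D.κ w.x)⁻¹ * k), D.aux_mem w.x k⟩ := by
  constructor
  · intro h k
    obtain ⟨m, hm, hm'⟩ := h k
    rw [hm']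
    congr 1
    exact Subtype.ext hm
  · intro h k
    exact ⟨_, rfl, h k⟩

/-- The projection to the group `G`. -/
def p : D.Γ →* G where
  toFun w := w.1.x
  map_one' := rfl
  map_mul' _ _ := rfl

theorem p_apply (w : D.Γ) : D.p w = w.1.x := rfl

theorem q_f (w : D.Γ) (k : K) : D.q (w.1.f k) =
    D.g ⟨(D.t k)⁻¹ * D.p w * D.t ((D.κ (D.p w))⁻¹ * k), D.aux_mem (D.p w) k⟩ :=
  (D.mem_Γ w.1).mp w.2 k

theorem exists_f (x : G) (k₀ : K) (h : H)
    (hh : D.q h = D.g ⟨(D.t k₀)⁻¹ * x * D.t ((D.κ x)⁻¹ * k₀), D.aux_mem x k₀⟩) :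
    ∃ w : D.Γ, D.p w = x ∧ w.1.f k₀ = h := by
  classical
  refine ⟨⟨⟨fun k => if k = k₀ then h else surjInv D.hq (D.g ⟨_, D.aux_mem x k⟩), x⟩, ?_⟩, rfl, ?_⟩
  · rw [D.mem_Γ]
    intro k
    by_cases hk : k = k₀
    · subst hk
      simpa using hh
    · simp only [hk, if_false]
      exact surjInv_eq D.hq _
  · simp

theorem p_surjective : Surjective D.p := by
  intro x
  obtain ⟨w, hw, _⟩ := D.exists_f x 1 (surjInv D.hq (D.g ⟨_, D.aux_mem x 1⟩)) (surjInv_eq D.hq _)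
  exact ⟨w, hw⟩

/-- evaluation at `k`, on a subgroup mapped to `M` -/
def ev (R : Subgroup D.Γ) (hR : ∀ w ∈ R, D.p w ∈ D.M) (k : K) : R →* H where
  toFun w := w.1.1.f k
  map_one' := rfl
  map_mul' := by
    intro a b
    have h : D.κ (D.p a) = 1 := (D.hM _).mp (hR a a.2)
    have h' : D.κ (a : D.Γ).1.x = 1 := h
    simp [h']

theorem ev_apply (R : Subgroup D.Γ) (hR : ∀ w ∈ R, D.p w ∈ D.M) (k : K) (w : R) :
    D.ev R hR k w = w.1.1.f k := rfl

theorem conj_mem {x : G} (hx : x ∈ D.M) (y : G) : y⁻¹ * x * y ∈ D.M := by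
  rw [D.hM] at hx ⊢
  simp [hx]

theorem q_ev (R : Subgroup D.Γ) (hR : ∀ w ∈ R, D.p w ∈ D.M) (k : K) (w : R) :
    D.q (D.ev R hR k w) = D.g ⟨(D.t k)⁻¹ * D.p w * D.t k, D.conj_mem (hR w w.2) _⟩ := by
  rw [ev_apply, D.q_f]
  congr 1
  apply Subtype.ext
  have h : D.κ (D.p w) = 1 := (D.hM _).mp (hR w w.2)
  simp [h]

theorem ev_normalEmb_aux (hg : Surjective D.g) (R : Subgroup D.Γ) (hRn : R.Normal)
    (hR : ∀ w ∈ R, D.p w ∈ D.M) (k : K) (h : H) (w : R) :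
    ∃ w' : R, D.ev R hR k w' = h * D.ev R hR k w * h⁻¹ := by
  obtain ⟨m, hm⟩ := hg (D.q h)
  have hκ : D.κ (D.t k * m * (D.t k)⁻¹) = 1 := by
    have : D.κ m = 1 := (D.hM _).mp m.2
    simp [this]
  obtain ⟨γ, hγ, hγ'⟩ := D.exists_f (D.t k * m * (D.t k)⁻¹) k h (by
    rw [← hm]
    congr 1
    apply Subtype.ext
    simp only [hκ]
    simp [mul_assoc])
  refine ⟨⟨γ * w * γ⁻¹, hRn.conj_mem _ w.2 γ⟩, ?_⟩
  have h1 : D.κ γ.1.x = 1 := by
    rw [← D.p_apply, hγ, hκ]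
  have h2 : D.κ w.1.1.x = 1 := (D.hM _).mp (hR w w.2)
  simp only [ev_apply]
  have h3 : (γ * w * γ⁻¹ : D.Γ).1 = γ.1 * w.1.1 * (γ.1)⁻¹ := rfl
  rw [h3]
  simp [h1, h2, hγ']

theorem ev_range_normal (hg : Surjective D.g) (R : Subgroup D.Γ) (hRn : R.Normal)
    (hR : ∀ w ∈ R, D.p w ∈ D.M) (k : K) : (D.ev R hR k).range.Normal := by
  constructor
  rintro _ ⟨x, rfl⟩ h
  obtain ⟨y, hy⟩ := D.ev_normalEmb_aux hg R hRn hR k h x
  exact ⟨y, hy⟩

theorem ev_surjective (hg : Surjective D.g) (hns : NonSup D.q.ker) (R : Subgroup D.Γ)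
    (hRn : R.Normal) (hR : ∀ w ∈ R, D.p w ∈ D.M) (hRM : D.M ≤ R.map D.p) (k : K) :
    Surjective (D.ev R hR k) := by
  rw [← MonoidHom.range_eq_top]
  apply hns _ (D.ev_range_normal hg R hRn hR k)
  rw [eq_top_iff]
  intro h _
  obtain ⟨m, hm⟩ := hg (D.q h)
  have h1 : D.t k * m * (D.t k)⁻¹ ∈ D.M := by
    have := D.conj_mem m.2 (D.t k)⁻¹
    simpa using this
  obtain ⟨w, hw, hw'⟩ := hRM h1
  have h2 : D.q (D.ev R hR k ⟨w, hw⟩) = D.q h := by
    rw [D.q_ev, ← hm]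
    congr 1
    apply Subtype.ext
    simp only [hw']
    simp [mul_assoc]
  have h3 : h = D.ev R hR k ⟨w, hw⟩ * ((D.ev R hR k ⟨w, hw⟩)⁻¹ * h) := by simp
  rw [h3]
  refine Subgroup.mul_mem _ (Subgroup.mem_sup_left ⟨_, rfl⟩) (Subgroup.mem_sup_right ?_)
  rw [MonoidHom.mem_ker, map_mul, map_inv, h2, inv_mul_cancel]

theorem ev_inj (hcore : ∀ m : D.M, (∀ x : G, D.g ⟨x⁻¹ * m * x, D.conj_mem m.2 x⟩ = 1) → m = 1)
    (R : Subgroup D.Γ) (hR : ∀ w ∈ R, D.p w ∈ D.M) (w : R) (hw : ∀ k, D.ev R hR k w = 1) :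
    w = 1 := by
  have h1 : (⟨D.p w, hR w w.2⟩ : D.M) = 1 := by
    apply hcore
    intro x
    have h2 : D.g ⟨(D.t (D.κ x))⁻¹ * D.p w * D.t (D.κ x), D.conj_mem (hR w w.2) _⟩ = 1 := by
      rw [← D.q_ev R hR (D.κ x) w, hw, map_one]
    have h3 : (D.t (D.κ x))⁻¹ * x ∈ D.M := by
      rw [D.hM]; simp [D.ht]
    have h4 : (⟨x⁻¹ * D.p w * x, D.conj_mem (hR w w.2) x⟩ : D.M) =
        (⟨(D.t (D.κ x))⁻¹ * x, h3⟩ : D.M)⁻¹ *
          ⟨(D.t (D.κ x))⁻¹ * D.p w * D.t (D.κ x), D.conj_mem (hR w w.2) _⟩ *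
            ⟨(D.t (D.κ x))⁻¹ * x, h3⟩ := by
      apply Subtype.ext
      simp [mul_assoc]
    rw [h4, map_mul, map_mul, h2, map_inv]
    simp
  have h5 : D.p w = 1 := congrArg Subtype.val h1
  apply Subtype.ext
  apply Subtype.ext
  apply Wr.ext
  · funext k
    exact hw k
  · exact h5

end CD

/-- A normalised section of a quotient map. -/
theorem exists_section {G K : Type} [Group G] [Group K] (κ : G →* K) (hκ : Surjective κ) :
    ∃ t : K → G, (∀ k, κ (t k) = k) ∧ t 1 = 1 := by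
  classical
  refine ⟨fun k => if k = 1 then 1 else surjInv hκ k, ?_, by simp⟩
  intro k
  by_cases hk : k = 1
  · simp [hk]
  · simp only [hk, if_false]
    exact surjInv_eq hκ k

/-- **Coinduction theorem.**  Given `M ⊴ G`, `g : M → Q` surjective and `q : H → Q` surjective
with non-supplemented kernel, there is a group `Γ` and a surjection `p : Γ → G` and a
homomorphism `e` from `p⁻¹(M)` to `H` lifting `g` such that every normal subgroup of `Γ` whose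
image is `M` is mapped onto `H`. -/
theorem exists_coinduced {G H Q : Type} [Group G] [Finite G] [Group H] [Finite H] [Group Q]
    (M : Subgroup G) [M.Normal] (g : M →* Q) (hg : Surjective g) (q : H →* Q) (hq : Surjective q)
    (hns : NonSup q.ker) :
    ∃ (Γ : Type) (_ : Group Γ) (_ : Finite Γ) (p : Γ →* G), Surjective p ∧
      ∃ e : M.comap p →* H, (∀ w : M.comap p, q (e w) = g ⟨p w, w.2⟩) ∧
        ∀ (R : Subgroup Γ) (_ : R.Normal) (hR : R ≤ M.comap p), R.map p = M →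
          ∀ h : H, ∃ w : Γ, ∃ hw : w ∈ R, e ⟨w, hR hw⟩ = h := by
  obtain ⟨t, ht, ht1⟩ := exists_section (QuotientGroup.mk' M) (QuotientGroup.mk'_surjective M)
  let D : CD G (G ⧸ M) H Q :=
    { κ := QuotientGroup.mk' M
      t := t
      ht := ht
      q := q
      hq := hq
      M := M
      hM := fun x => (QuotientGroup.eq_one_iff (N := M) x).symm
      g := g }
  refine ⟨D.Γ, inferInstance, inferInstance, D.p, D.p_surjective,
    D.ev (M.comap D.p) (fun w hw => hw) 1, ?_, ?_⟩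
  · intro w
    have h1 := D.q_ev (M.comap D.p) (fun w hw => hw) 1 w
    refine h1.trans ?_
    change g _ = g _
    congr 1
    apply Subtype.ext
    change (t 1)⁻¹ * _ * t 1 = _
    simp [ht1]
  · intro R hRn hR hRM h
    obtain ⟨w, hw⟩ := D.ev_surjective hg hns R hRn (fun w hw => hR hw) hRM.ge 1 h
    exact ⟨w.1, w.2, hw⟩

end Pool.Agent.Lib_helper5.Form
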