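import Pool.Agent.Lib_helper5.FormReal

/-!
# Groups `Z` such that the formation `A` absorbs extensions of its members by `Z`
-/

set_option maxHeartbeats 400000

namespace Pool.Agent.Lib_helper5.Form

open Function

/-- Every extension of a member of `A` by `Z` is a member of `A`. -/
def DS (A : Formation) (Z : Type) [Group Z] : Prop :=
  Finite Z ∧ ∀ (H : Type) [Group H] [Finite H] (φ : H →* Z), Surjective φ → A.mem φ.ker → A.mem H

theorem DS.quot {A : Formation} {Z Z' : Type} [Group Z] [Group Z'] (π : Z →* Z')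
    (hπ : Surjective π) (h : DS A Z) : DS A Z' := by
  obtain ⟨hZ, h⟩ := h
  refine ⟨Finite.of_surjective π hπ, ?_⟩
  intro H _ _ φ hφ hker
  let P : Subgroup (H × Z) := (φ.comp (MonoidHom.fst H Z)).eqLocus (π.comp (MonoidHom.snd H Z))
  have hP : ∀ x : H × Z, x ∈ P ↔ φ x.1 = π x.2 := fun x => Iff.rfl
  let a : P →* H := (MonoidHom.fst H Z).comp P.subtype
  let b : P →* Z := (MonoidHom.snd H Z).comp P.subtype
  have ha : Surjective a := by
    intro x
    obtain ⟨z, hz⟩ := hπ (φ x)
    exact ⟨⟨(x, z), hz.symm⟩, rfl⟩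
  have hb : Surjective b := by
    intro z
    obtain ⟨x, hx⟩ := hφ (π z)
    exact ⟨⟨(x, z), hx⟩, rfl⟩
  refine A.mem_of_surjective a ha (h P b hb ?_)
  let c : φ.ker →* b.ker :=
    { toFun := fun x => ⟨⟨((x : H), 1), by
        rw [hP]
        have : φ x = 1 := x.2
        simp [this]⟩, rfl⟩
      map_one' := rfl
      map_mul' := by
        intro x y
        apply Subtype.ext
        apply Subtype.ext
        ext <;> simp }
  refine A.mem_of_surjective c ?_ hker
  rintro ⟨⟨⟨x, z⟩, hxz⟩, hz⟩
  have hz' : z = 1 := hz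
  subst hz'
  rw [hP] at hxz
  exact ⟨⟨x, by simpa using hxz⟩, rfl⟩

theorem CD.ev_full_surjective {G K H Q : Type} [Group G] [Group K] [Group H] [Group Q]
    (D : CD G K H Q) (hg : Surjective D.g) (k : K) :
    Surjective (D.ev (D.M.comap D.p) (fun _ hw => hw) k) := by
  intro h
  obtain ⟨m, hm⟩ := hg (D.q h)
  have h1 : D.t k * m * (D.t k)⁻¹ ∈ D.M := by
    have := D.conj_mem m.2 (D.t k)⁻¹
    simpa using this
  have hκ : D.κ (D.t k * m * (D.t k)⁻¹) = 1 := (D.hM _).mp h1
  obtain ⟨w, hw, hw'⟩ := D.exists_f (D.t k * m * (D.t k)⁻¹) k h (by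
    rw [← hm]
    congr 1
    apply Subtype.ext
    simp only [hκ]
    simp [mul_assoc])
  exact ⟨⟨w, by rw [Subgroup.mem_comap, hw]; exact h1⟩, hw'⟩

theorem DS.normal {A : Formation} (hA : A.NormallyHereditary) {N Z : Type} [Group N] [Group Z]
    (f : N →* Z) (hf : NormalEmb f) (h : DS A Z) : DS A N := by
  obtain ⟨hZ, h⟩ := h
  have hNfin : Finite N := Finite.of_injective f hf.1
  refine ⟨hNfin, ?_⟩
  intro H _ _ φ hφ hker
  have hn : f.range.Normal := normalEmb_range hf
  obtain ⟨t, ht, ht1⟩ :=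
    exists_section (QuotientGroup.mk' f.range) (QuotientGroup.mk'_surjective f.range)
  let D : CD Z (Z ⧸ f.range) H N :=
    { κ := QuotientGroup.mk' f.range
      t := t
      ht := ht
      q := φ
      hq := hφ
      M := f.range
      hM := fun x => (QuotientGroup.eq_one_iff (N := f.range) x).symm
      g := (MonoidHom.ofInjective hf.1).symm.toMonoidHom }
  have hg : Surjective D.g := (MonoidHom.ofInjective hf.1).symm.surjective
  have h1 : A.mem D.p.ker := by
    have hpk : ∀ w : D.Γ, D.p w = 1 → ∀ k, φ (w.1.f k) = 1 := by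
      intro w hw k
      have h2 := D.q_f w k
      change φ (w.1.f k) = _ at h2
      rw [h2]
      have h3 : (⟨(D.t k)⁻¹ * D.p w * D.t ((D.κ (D.p w))⁻¹ * k), D.aux_mem (D.p w) k⟩ : D.M)
          = 1 := by
        apply Subtype.ext
        simp [hw]
      rw [h3, map_one]
    let c : ∀ k : Z ⧸ f.range, D.p.ker →* φ.ker := fun k =>
      { toFun := fun w => ⟨w.1.1.f k, hpk w.1 w.2 k⟩
        map_one' := rfl
        map_mul' := by
          intro a b
          apply Subtype.ext
          have h2 : a.1.1.x = 1 := a.2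
          change (a.1.1 * b.1.1).f k = a.1.1.f k * b.1.1.f k
          simp [h2] }
    refine A.mem_of_family c ?_ ?_ (fun _ => hker)
    · rintro k ⟨y, hy⟩
      obtain ⟨w, hw, hw'⟩ := D.exists_f 1 k y (by
        have h3 : (⟨(D.t k)⁻¹ * 1 * D.t ((D.κ 1)⁻¹ * k), D.aux_mem 1 k⟩ : D.M) = 1 := by
          apply Subtype.ext
          simp
        rw [h3, map_one]
        exact hy)
      exact ⟨⟨w, hw⟩, Subtype.ext hw'⟩
    · rintro ⟨w, hw⟩ hw'
      apply Subtype.ext
      apply Subtype.ext
      apply Wr.ext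
      · funext k
        exact congrArg Subtype.val (hw' k)
      · exact hw
  have h2 : A.mem D.Γ := h D.Γ D.p D.p_surjective h1
  have h3 : (D.M.comap D.p).Normal := by
    have : D.M.Normal := hn
    exact Subgroup.Normal.comap this D.p
  have h4 : A.mem (D.M.comap D.p) := hA _ _ h3 h2
  exact A.mem_of_surjective _ (D.ev_full_surjective hg 1) h4

theorem DS.ext {A : Formation} {G Q : Type} [Group G] [Group Q] [Finite G] (f : G →* Q)
    (h1 : DS A f.ker) (hf : Surjective f) (h2 : DS A Q) : DS A G := by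
  refine ⟨inferInstance, ?_⟩
  intro H _ _ φ hφ hker
  refine h2.2 H (f.comp φ) (hf.comp hφ) ?_
  let r : (f.comp φ).ker →* f.ker := (φ.comp (f.comp φ).ker.subtype).codRestrict f.ker
    (fun x => x.2)
  refine h1.2 _ r ?_ ?_
  · rintro ⟨y, hy⟩
    obtain ⟨x, rfl⟩ := hφ y
    exact ⟨⟨x, hy⟩, rfl⟩
  · let m : φ.ker →* r.ker :=
      { toFun := fun x => ⟨⟨x, by
          rw [MonoidHom.mem_ker, MonoidHom.comp_apply]
          have : φ x = 1 := x.2
          rw [this, map_one]⟩, Subtype.ext x.2⟩
        map_one' := rfl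
        map_mul' := fun _ _ => rfl }
    refine A.mem_of_surjective m ?_ hker
    rintro ⟨⟨x, hx⟩, hx'⟩
    exact ⟨⟨x, congrArg Subtype.val hx'⟩, rfl⟩

/-- The formation of all absorbed groups. -/
def dsForm (A : Formation) (hA : A.NormallyHereditary) : Formation :=
  Formation.ofExt (fun G _ => DS A G) (fun h => h.1)
    ⟨Unit, inferInstance, inferInstance, fun H _ _ φ _ h => by
      refine A.mem_of_surjective φ.ker.subtype ?_ h
      intro x
      exact ⟨⟨x, Subsingleton.elim _ _⟩, rfl⟩⟩
    (fun f hf h => h.quot f hf) (fun f hf h => h.normal hA f hf)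
    (fun f hf h1 h2 => h1.ext f hf h2)

theorem eq_mul_dsForm (A : Formation) (hA : A.NormallyHereditary) : A = A * dsForm A hA := by
  apply Formation.ext'
  intro G _
  constructor
  · intro h
    have := A.finite_of_mem h
    exact ⟨inferInstance, hA _ _ inferInstance h⟩
  · rintro ⟨hG, h⟩
    have h1 : DS A (G ⧸ (dsForm A hA).res G) := (dsForm A hA).mem_quotient_res G
    refine h1.2 G (QuotientGroup.mk' _) (QuotientGroup.mk'_surjective _) ?_
    rw [QuotientGroup.ker_mk']
    exact h

/-- An indecomposable normally hereditary formation absorbs only the trivial group. -/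
theorem subsingleton_of_DS {A : Formation} (hA : A.NormallyHereditary) (hA' : A.Indecomposable)
    {Z : Type} [Group Z] (h : DS A Z) : Subsingleton Z := by
  rcases hA'.2 _ _ (eq_mul_dsForm A hA) with h1 | h1
  · exact absurd h1 hA'.1
  · have h2 : (dsForm A hA).mem Z := h
    rw [h1] at h2
    exact h2

end Pool.Agent.Lib_helper5.Form
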