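import Pool.Agent.Lib_helper5.FormTopsB

/-!
# The decomposition
-/

set_option maxHeartbeats 400000

namespace Pool.Agent.Lib_helper5.Form

open Function Formation

section Val

variable {K H : Type} [Group K] [Group H]

theorem range_eq_of_over {H' : Type} [Group H'] {π : H →* K} {π' : H' →* K} (c : H →* H')
    (hc : Surjective c) (h : ∀ x, π' (c x) = π x) : π'.range = π.range := by
  ext k
  constructor
  · rintro ⟨a, rfl⟩
    obtain ⟨b, rfl⟩ := hc a
    exact ⟨b, (h b).symm⟩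
  · rintro ⟨b, rfl⟩
    exact ⟨c b, h b⟩

theorem fullLift_comp {H' : Type} [Group H'] {π : H →* K} {π' : H' →* K} (c : H →* H')
    (hc : Surjective c) (h : ∀ x, π' (c x) = π x) :
    FullLift π' (CoInd.p π) (fun l => c (CoInd.ev π l)) := by
  have hr := range_eq_of_over c hc h
  have hf := CoInd.full π
  refine ⟨⟨?_, ?_⟩, hf.surj, ?_⟩
  · intro a b ha hb
    rw [hr] at ha hb
    rw [hf.mul a b ha hb, map_mul]
  · intro a ha
    rw [hr] at ha
    rw [h, hf.lift a ha]
  · intro a ha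
    obtain ⟨b, rfl⟩ := hc a
    rw [h] at ha
    obtain ⟨l, hl1, hl2, hl3⟩ := hf.ind b ha
    refine ⟨l, hl1, by rw [hl2], ?_⟩
    intro x hx
    rw [hr] at hx
    rw [hl3 x hx, map_one]

theorem val_subdirect (A : Formation) [Finite K] [Finite H] {H₁ H₂ : Type} [Group H₁] [Group H₂]
    {π : H →* K} {π₁ : H₁ →* K} {π₂ : H₂ →* K} (c₁ : H →* H₁) (c₂ : H →* H₂)
    (hc₁ : Surjective c₁) (hc₂ : Surjective c₂) (h₁ : ∀ x, π₁ (c₁ x) = π x)
    (h₂ : ∀ x, π₂ (c₂ x) = π x) (hinj : ∀ x, c₁ x = 1 → c₂ x = 1 → x = 1)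
    (hv₁ : Val A π₁) (hv₂ : Val A π₂) : Val A π := by
  have hf₁ := fullLift_comp c₁ hc₁ h₁
  have hf₂ := fullLift_comp c₂ hc₂ h₂
  obtain ⟨Ψ₁, ha₁, hb₁⟩ := exists_up hf₁.toIsLift hf₁.surj
  obtain ⟨Ψ₂, ha₂, hb₂⟩ := exists_up hf₂.toIsLift hf₂.surj
  refine A.mem_of_subdirect Ψ₁ Ψ₂ (up_surjective hf₁ Ψ₁ ha₁ hb₁) (up_surjective hf₂ Ψ₂ ha₂ hb₂)
    ?_ hv₁ hv₂
  intro l hl₁ hl₂
  rw [up_eq_one hf₁.toIsLift hf₁.surj Ψ₁ ha₁ hb₁] at hl₁
  rw [up_eq_one hf₂.toIsLift hf₂.surj Ψ₂ ha₂ hb₂] at hl₂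
  exact CoInd.eq_one π hl₁.1 (fun x => hinj _ (hl₁.2 x) (hl₂.2 x))

theorem val_of_injective (A : Formation) {π : H →* K} (hπ : ∀ x, π x = 1 → x = 1)
    (hK : A.mem K) : Val A π := by
  have hf := CoInd.full π
  have hinj : Injective (CoInd.p π) := by
    rw [injective_iff_map_eq_one]
    intro l hl
    refine CoInd.eq_one π hl (fun x => hπ _ ?_)
    have h1 : CoInd.p π (x⁻¹ * l * x) = 1 := by simp [hl]
    have h2 := hf.lift (x⁻¹ * l * x) (by rw [h1]; exact Subgroup.one_mem _)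
    rw [h2, h1]
  exact A.mem_of_equiv (MulEquiv.ofBijective (CoInd.p π) ⟨hinj, hf.surj⟩).symm hK

end Val

/-- the position used in the definition of the cofactor -/
def tau (D : Formation) (C₀ T : Type) [Group C₀] [Group T] : T →* (T ⧸ D.res T) × C₀ :=
  (QuotientGroup.mk' (D.res T)).prod 1

section Cofactor

variable (A C D : Formation) (hD : D.IsRes C) (C₀ : Type) [Group C₀]

/-- the pullback of `tau` along the map induced by a surjection -/
theorem tau_pullback [Finite C₀] {T T' : Type} [Group T] [Group T'] [Finite T] (f : T →* T')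
    (hf : Surjective f) (hK : A.mem ((T ⧸ D.res T) × C₀)) :
    ∃ (T'' : Type) (_ : Group T'') (π'' : T'' →* (T ⧸ D.res T) × C₀) (c : T →* T''),
      Surjective c ∧ (∀ t, π'' (c t) = tau D C₀ T t) ∧
      (∀ t, c t = 1 → f t = 1) ∧ (Val A (tau D C₀ T') ↔ Val A π'') := by
  have hT' : Finite T' := Finite.of_surjective f hf
  have hle : D.res T ≤ (D.res T').comap f := by
    rw [← Subgroup.map_le_iff_le_comap, D.map_res f hf]
  let fb : T ⧸ D.res T →* T' ⧸ D.res T' := QuotientGroup.map _ _ f hle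
  let g : (T ⧸ D.res T) × C₀ →* (T' ⧸ D.res T') × C₀ := fb.prodMap (MonoidHom.id C₀)
  have hg : Surjective g := by
    rintro ⟨a, b⟩
    obtain ⟨a, rfl⟩ := QuotientGroup.mk_surjective a
    obtain ⟨t, rfl⟩ := hf a
    exact ⟨(QuotientGroup.mk t, b), rfl⟩
  let P : Subgroup (T' × ((T ⧸ D.res T) × C₀)) :=
    { carrier := {z | tau D C₀ T' z.1 = g z.2}
      mul_mem' := by
        intro a b ha hb
        change tau D C₀ T' (a.1 * b.1) = g (a.2 * b.2)
        rw [map_mul, map_mul, ← show tau D C₀ T' a.1 = g a.2 from ha,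
          ← show tau D C₀ T' b.1 = g b.2 from hb]
      one_mem' := by
        change tau D C₀ T' 1 = g 1
        rw [map_one, map_one]
      inv_mem' := by
        intro a ha
        change tau D C₀ T' a.1⁻¹ = g a.2⁻¹
        rw [map_inv, map_inv, ← show tau D C₀ T' a.1 = g a.2 from ha] }
  have hP : ∀ z, z ∈ P ↔ tau D C₀ T' z.1 = g z.2 := fun z => Iff.rfl
  let c : T →* P := (f.prod (tau D C₀ T)).codRestrict P (by
    intro t
    rw [hP]
    rfl)
  have hc : Surjective c := by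
    rintro ⟨⟨t', ⟨i, c₀⟩⟩, hz⟩
    rw [hP] at hz
    obtain ⟨t, rfl⟩ := QuotientGroup.mk_surjective i
    have h1 : (QuotientGroup.mk t' : T' ⧸ D.res T') = QuotientGroup.mk (f t) :=
      congrArg Prod.fst hz
    have h2 : (1 : C₀) = c₀ := congrArg Prod.snd hz
    have h3 : (f t)⁻¹ * t' ∈ D.res T' := QuotientGroup.eq.mp h1.symm
    rw [← D.map_res f hf] at h3
    obtain ⟨d, hd, hd'⟩ := h3
    refine ⟨t * d, ?_⟩
    apply Subtype.ext
    refine Prod.ext ?_ (Prod.ext ?_ h2)
    · change f (t * d) = t'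
      rw [map_mul, hd']
      simp
    · change (QuotientGroup.mk (t * d) : T ⧸ D.res T) = QuotientGroup.mk t
      rw [eq_comm, QuotientGroup.eq]
      simpa using hd
  refine ⟨P, inferInstance, (MonoidHom.snd _ _).comp P.subtype, c, hc, fun t => rfl, ?_, ?_⟩
  · intro t ht
    exact congrArg (fun z : P => z.1.1) ht
  · refine val_pullback A g hg ((MonoidHom.fst _ _).comp P.subtype) (fun a => a.2) ?_ ?_ hK
    · intro a h1 h2
      apply Subtype.ext
      exact Prod.ext h1 h2
    · intro a k hak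
      exact ⟨⟨(a, k), hak⟩, rfl, rfl⟩

include hD in
theorem mem_of_NN {S : Type} [Group S] (hS : C.NN S) : D.mem S :=
  (hD S).mpr ⟨hS.1, fun g hg => ⟨S, inferInstance, MonoidHom.id S, hS, surjective_id, hg⟩⟩

include hD in
theorem res_subdirect {T H₁ H₂ : Type} [Group T] [Finite T] [Group H₁] [Group H₂] (f : T →* H₁)
    (g : T →* H₂) (hf : Surjective f) (hg : Surjective g)
    (hfg : ∀ x, f x = 1 → g x = 1 → x = 1) (t : T) (h₁ : f t ∈ D.res H₁) (h₂ : g t ∈ D.res H₂) :
    t ∈ D.res T := by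
  by_contra hcon
  have h3 : (QuotientGroup.mk t : T ⧸ D.res T) ≠ 1 := fun h =>
    hcon ((QuotientGroup.eq_one_iff t).mp h)
  obtain ⟨S, _, θ, hS, hθ, hθt⟩ := ((hD _).mp (D.mem_quotient_res T)).2 _ h3
  have hSs := hS.2.1
  let θ' : T →* S := θ.comp (QuotientGroup.mk' _)
  have hθ' : Surjective θ' := hθ.comp (QuotientGroup.mk'_surjective _)
  have key : ∀ {H : Type} [Group H] (f : T →* H) (hf : Surjective f), f t ∈ D.res H →
      ∃ a, f a = 1 ∧ θ' a ≠ 1 := by
    intro H _ f hf hft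
    by_contra hcon'
    push Not at hcon'
    obtain ⟨θ'', hθ''⟩ := exists_lift f hf θ' hcon'
    have h4 : Surjective θ'' := by
      intro s
      obtain ⟨x, rfl⟩ := hθ' s
      exact ⟨f x, hθ'' x⟩
    have h5 := D.res_le_ker θ'' h4 (mem_of_NN C D hD hS) hft
    rw [MonoidHom.mem_ker, hθ''] at h5
    exact hθt h5
  obtain ⟨a, ha, ha'⟩ := key f hf h₁
  obtain ⟨b, hb, hb'⟩ := key g hg h₂
  -- the images of the two kernels commute
  have hcomm : ∀ x y, f x = 1 → g y = 1 → x * y = y * x := by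
    intro x y hx hy
    have h6 : x * y * (y * x)⁻¹ = 1 := by
      apply hfg
      · simp [hx]
      · simp [hy]
    exact mul_inv_eq_one.mp h6
  have hN1 : (f.ker.map θ').Normal := Subgroup.Normal.map inferInstance θ' hθ'
  have hN2 : (g.ker.map θ').Normal := Subgroup.Normal.map inferInstance θ' hθ'
  have h7 : f.ker.map θ' = ⊤ := by
    rcases hN1.eq_bot_or_eq_top with h | h
    · exfalso
      have : θ' a ∈ f.ker.map θ' := ⟨a, ha, rfl⟩
      rw [h] at this
      exact ha' this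
    · exact h
  have h8 : g.ker.map θ' = ⊤ := by
    rcases hN2.eq_bot_or_eq_top with h | h
    · exfalso
      have : θ' b ∈ g.ker.map θ' := ⟨b, hb, rfl⟩
      rw [h] at this
      exact hb' this
    · exact h
  obtain ⟨u, v, huv⟩ := hS.2.2.1
  have hu : u ∈ f.ker.map θ' := by rw [h7]; trivial
  have hv : v ∈ g.ker.map θ' := by rw [h8]; trivial
  obtain ⟨x, hx, rfl⟩ := hu
  obtain ⟨y, hy, rfl⟩ := hv
  apply huv
  rw [← map_mul, ← map_mul, hcomm x y hx hy]

/-- the cofactor -/
def cofactor (hC₀ : A.mem C₀) : Formation :=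
  Formation.ofSubdirect (fun T _ => Finite T ∧ Val A (tau D C₀ T)) (fun h => h.1)
    (by
      refine ⟨Unit, inferInstance, inferInstance, ?_⟩
      have := A.finite_of_mem hC₀
      refine val_of_injective A (fun x _ => Subsingleton.elim _ _) ?_
      have h1 : Surjective ((1 : C₀ →* Unit ⧸ D.res Unit).prod (MonoidHom.id C₀)) := by
        rintro ⟨a, b⟩
        obtain ⟨a, rfl⟩ := QuotientGroup.mk_surjective a
        exact ⟨b, Prod.ext (congrArg QuotientGroup.mk (Subsingleton.elim 1 a)) rfl⟩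
      exact A.mem_of_surjective _ h1 hC₀)
    (by
      intro T T' _ _ f hf ⟨hT, hv⟩
      have := hT
      have := A.finite_of_mem hC₀
      refine ⟨Finite.of_surjective f hf, ?_⟩
      obtain ⟨T'', _, π'', c, hc, h1, h2, h3⟩ := tau_pullback A D C₀ f hf (mem_of_val A hv)
      rw [h3]
      exact val_of_surjective A c hc h1 hv)
    (by
      intro T H₁ H₂ _ _ _ hT f g hf hg hfg ⟨hH₁, hv₁⟩ ⟨hH₂, hv₂⟩
      have := A.finite_of_mem hC₀
      refine ⟨hT, ?_⟩
      have hK : A.mem ((T ⧸ D.res T) × C₀) := by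
        have hI : ∀ {H : Type} [Group H], Val A (tau D C₀ H) → A.mem (H ⧸ D.res H) := by
          intro H _ hv
          exact A.mem_of_surjective (MonoidHom.fst _ _) Prod.fst_surjective (mem_of_val A hv)
        have hle : ∀ {H : Type} [Group H] (f : T →* H) (_ : Surjective f),
            D.res T ≤ (D.res H).comap f := by
          intro H _ f hf
          rw [← Subgroup.map_le_iff_le_comap, D.map_res f hf]
        have hs : ∀ {H : Type} [Group H] (f : T →* H) (hf : Surjective f),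
            Surjective (QuotientGroup.map _ _ f (hle f hf)) := by
          intro H _ f hf a
          obtain ⟨a, rfl⟩ := QuotientGroup.mk_surjective a
          obtain ⟨t, rfl⟩ := hf a
          exact ⟨QuotientGroup.mk t, rfl⟩
        have h1 : A.mem (T ⧸ D.res T) := by
          refine A.mem_of_subdirect (QuotientGroup.map _ _ f (hle f hf))
            (QuotientGroup.map _ _ g (hle g hg)) (hs f hf) (hs g hg) ?_ (hI hv₁) (hI hv₂)
          intro a ha hb
          obtain ⟨t, rfl⟩ := QuotientGroup.mk_surjective a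
          have h3 : f t ∈ D.res H₁ := (QuotientGroup.eq_one_iff (N := D.res H₁) (f t)).mp ha
          have h4 : g t ∈ D.res H₂ := (QuotientGroup.eq_one_iff (N := D.res H₂) (g t)).mp hb
          exact (QuotientGroup.eq_one_iff t).mpr (res_subdirect C D hD f g hf hg hfg t h3 h4)
        exact A.mem_of_subdirect (MonoidHom.fst _ _) (MonoidHom.snd _ _) Prod.fst_surjective
          Prod.snd_surjective (fun x h h' => Prod.ext h h') h1 hC₀
      obtain ⟨T₁, _, π₁, c₁, hc₁, h1, h1', h1''⟩ := tau_pullback A D C₀ f hf hK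
      obtain ⟨T₂, _, π₂, c₂, hc₂, h2, h2', h2''⟩ := tau_pullback A D C₀ g hg hK
      exact val_subdirect A c₁ c₂ hc₁ hc₂ h1 h2
        (fun x hx hx' => hfg x (h1' x hx) (h2' x hx')) (h1''.mp hv₁) (h2''.mp hv₂))

end Cofactor

end Pool.Agent.Lib_helper5.Form
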