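import Pool.Agent.Lib_helper5.FormDecomp

/-!
# The decomposition, part 2
-/

set_option maxHeartbeats 400000

namespace Pool.Agent.Lib_helper5.Form

open Function Formation

section Retract

variable {C D : Formation} (hD : D.IsRes C) {G : Type} [Group G] [Finite G]

include hD in
/-- The retraction of `G` onto the `NN`-top of the residual. -/
theorem exists_r (hun : ∀ (S : Type) [Group S], C.NN S → ∀ θ : C.res G →* S, Surjective θ →
      ∃ θ' : G →* S, ∀ u : C.res G, θ' u = θ u) :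
    ∃ r : G →* (C.res G) ⧸ D.res (C.res G), ∀ q : C.res G, r q = QuotientGroup.mk q := by
  set Q := C.res G with hQ
  have hchar : (D.res Q).Characteristic := inferInstance
  have hN : ((D.res Q).map Q.subtype).Normal := inferInstance
  let L := G ⧸ (D.res Q).map Q.subtype
  let m : G →* L := QuotientGroup.mk' _
  have hm : ∀ g, m g = 1 ↔ g ∈ (D.res Q).map Q.subtype := fun g => QuotientGroup.eq_one_iff g
  have hQn : (Q.map m).Normal := Subgroup.Normal.map inferInstance m (QuotientGroup.mk'_surjective _)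
  obtain ⟨r₀, hr₀⟩ := exists_retract C (Q.map m) (by
    rintro _ ⟨q, hq, rfl⟩ hne
    have h1 : (QuotientGroup.mk (⟨q, hq⟩ : Q) : Q ⧸ D.res Q) ≠ 1 := by
      intro h
      apply hne
      rw [hm]
      exact ⟨⟨q, hq⟩, (QuotientGroup.eq_one_iff _).mp h, rfl⟩
    obtain ⟨S, _, θ, hS, hθ, hθq⟩ := ((hD _).mp (D.mem_quotient_res Q)).2 _ h1
    obtain ⟨θ', hθ'⟩ := hun S hS (θ.comp (QuotientGroup.mk' _))
      (hθ.comp (QuotientGroup.mk'_surjective _))
    refine ⟨S, inferInstance, QuotientGroup.lift _ θ' ?_, hS, ?_, ?_⟩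
    · rintro _ ⟨d, hd, rfl⟩
      have h2 := hθ' d
      rw [MonoidHom.mem_ker]
      rw [Subgroup.coe_subtype, h2, MonoidHom.comp_apply, QuotientGroup.mk'_apply,
        (QuotientGroup.eq_one_iff d).mpr hd, map_one]
    · intro s
      obtain ⟨a, rfl⟩ := hθ s
      obtain ⟨a, rfl⟩ := QuotientGroup.mk_surjective a
      exact ⟨m a, hθ' a⟩
    · intro h
      apply hθq
      have h2 := hθ' ⟨q, hq⟩
      rw [← show θ' q = _ from h]
      exact h2.symm)
  let f : Q →* Q.map m := m.subgroupMap Q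
  have hf : Surjective f := m.subgroupMap_surjective Q
  obtain ⟨g', hg'⟩ := Form.exists_lift f hf (QuotientGroup.mk' (D.res Q)) (by
    intro q hq
    have h1 : m q = 1 := congrArg Subtype.val hq
    rw [hm] at h1
    obtain ⟨d, hd, hd'⟩ := h1
    have h2 : d = q := Subtype.ext hd'
    rw [← h2]
    exact (QuotientGroup.eq_one_iff d).mpr hd)
  refine ⟨(g'.comp r₀).comp m, ?_⟩
  intro q
  have h1 : r₀ (m q) = f q := hr₀ (f q)
  change g' (r₀ (m q)) = _
  rw [h1, hg']
  rfl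

end Retract

section Compare

variable (A D : Formation) {G Lm Z C₀ : Type} [Group G] [Finite G] [Group Lm] [Group Z] [Group C₀]
  (Q : Subgroup G) (m : G →* Lm) (g : Z →* Lm) (M : Subgroup Z)

/-- the pullback group over a subgroup `M` -/
def pbM : Subgroup (G × Z) where
  carrier := {t | m t.1 = g t.2 ∧ t.2 ∈ M}
  mul_mem' := by
    rintro a b ⟨ha, ha'⟩ ⟨hb, hb'⟩
    refine ⟨?_, M.mul_mem ha' hb'⟩
    rw [Prod.fst_mul, Prod.snd_mul, map_mul, map_mul, ha, hb]
  one_mem' := ⟨by simp, M.one_mem⟩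
  inv_mem' := by
    rintro a ⟨ha, ha'⟩
    refine ⟨?_, M.inv_mem ha'⟩
    rw [Prod.fst_inv, Prod.snd_inv, map_inv, map_inv, ha]

theorem mem_pbM (t : G × Z) : t ∈ pbM m g M ↔ m t.1 = g t.2 ∧ t.2 ∈ M := Iff.rfl

/-- its projection -/
def pbπ : pbM m g M →* Z := (MonoidHom.snd G Z).comp (pbM m g M).subtype

theorem compare [Finite Z] [Nontrivial C₀] [M.Normal] (hA : A.mem Z) (hC₀ : A.mem C₀)
    (hs : A.StarProp C₀) (hs' : A.StarProp (Z ⧸ M)) (hMt : M ≠ ⊤)
    (hm : ∀ a, m a = 1 ↔ a ∈ (D.res Q).map Q.subtype) (hg : Surjective g)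
    (hgM : ∀ z ∈ M, ∃ q ∈ Q, g z = m q)
    (rb : Lm →* Q ⧸ D.res Q) (hrb : ∀ q : Q, rb (m q) = QuotientGroup.mk q) :
    Val A (pbπ m g M) ↔ Val A (tau D C₀ Q) := by
  have hK : A.mem (Z × C₀) := A.mem_of_subdirect (MonoidHom.fst _ _) (MonoidHom.snd _ _)
    Prod.fst_surjective Prod.snd_surjective (fun x h h' => Prod.ext h h') hA hC₀
  have hfC := A.finite_of_mem hC₀
  have hrbs : Surjective rb := by
    intro x
    obtain ⟨q, rfl⟩ := QuotientGroup.mk_surjective x
    exact ⟨_, hrb q⟩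
  -- left hand side
  let π₁ : pbM m g M × C₀ →* Z × C₀ := (pbπ m g M).prodMap (MonoidHom.id C₀)
  have h1 : Val A (pbπ m g M) ↔ Val A π₁ := by
    refine val_pullback A (MonoidHom.fst Z C₀) Prod.fst_surjective (MonoidHom.fst _ _)
      (fun a => rfl) ?_ ?_ hK
    · intro a ha hb
      have h0 : (π₁ a).2 = (1 : Z × C₀).2 := congrArg Prod.snd hb
      exact Prod.ext ha h0
    · intro a k hak
      exact ⟨(a, k.2), rfl, Prod.ext hak rfl⟩
  have hns₁ : ¬ Surjective π₁ := by
    intro hsurj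
    apply hMt
    rw [eq_top_iff]
    intro z _
    obtain ⟨a, ha⟩ := hsurj (z, 1)
    have h2 : a.1.1.2 = z := congrArg Prod.fst ha
    rw [← h2]
    exact a.1.2.2
  have h2 := hs (Z × C₀) _ hK (MonoidHom.snd Z C₀) Prod.snd_surjective π₁ hns₁
  let σ : pbM m g M →* Z × C₀ := (pbπ m g M).prod 1
  have h3 : Val A σ ↔ Val A (π₁.comp ((MonoidHom.snd Z C₀).comp π₁).ker.subtype) := by
    let c : pbM m g M →* ((MonoidHom.snd Z C₀).comp π₁).ker :=
      ((MonoidHom.id (pbM m g M)).prod 1).codRestrict _ (fun a => rfl)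
    refine val_congr A c ⟨?_, ?_⟩ (fun a => rfl)
    · intro a b hab
      exact congrArg (fun t : ((MonoidHom.snd Z C₀).comp π₁).ker => t.1.1) hab
    · rintro ⟨⟨a, b⟩, hb⟩
      have hb' : b = 1 := hb
      subst hb'
      exact ⟨a, rfl⟩
  -- right hand side
  let Qst : Subgroup (Q × Z) :=
    { carrier := {t | (QuotientGroup.mk t.1 : Q ⧸ D.res Q) = rb (g t.2)}
      mul_mem' := by
        intro a b ha hb
        change (QuotientGroup.mk (a.1 * b.1) : Q ⧸ D.res Q) = rb (g (a.2 * b.2))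
        rw [map_mul, map_mul, QuotientGroup.mk_mul, ← show _ = rb (g a.2) from ha,
          ← show _ = rb (g b.2) from hb]
      one_mem' := by
        change (QuotientGroup.mk 1 : Q ⧸ D.res Q) = rb (g 1)
        rw [map_one, map_one]
        rfl
      inv_mem' := by
        intro a ha
        change (QuotientGroup.mk a.1⁻¹ : Q ⧸ D.res Q) = rb (g a.2⁻¹)
        rw [map_inv, map_inv, QuotientGroup.mk_inv, ← show _ = rb (g a.2) from ha] }
  have hQst : ∀ t, t ∈ Qst ↔ (QuotientGroup.mk t.1 : Q ⧸ D.res Q) = rb (g t.2) :=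
    fun t => Iff.rfl
  let π₂ : Qst →* Z × C₀ := ((MonoidHom.snd Q Z).comp Qst.subtype).prod 1
  have h4 : Val A (tau D C₀ Q) ↔ Val A π₂ := by
    refine val_pullback A ((rb.comp g).prodMap (MonoidHom.id C₀))
      ((hrbs.comp hg).prodMap surjective_id) ((MonoidHom.fst Q Z).comp Qst.subtype) ?_ ?_ ?_ hK
    · intro a
      exact Prod.ext a.2 rfl
    · intro a ha hb
      apply Subtype.ext
      exact Prod.ext ha (congrArg Prod.fst hb)
    · rintro a ⟨z, c₀⟩ hak
      have h5 : (1 : C₀) = c₀ := congrArg Prod.snd hak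
      exact ⟨⟨(a, z), congrArg Prod.fst hak⟩, rfl, Prod.ext rfl h5⟩
  have hns₂ : ¬ Surjective π₂ := by
    intro hsurj
    obtain ⟨c, hc⟩ := exists_ne (1 : C₀)
    obtain ⟨a, ha⟩ := hsurj (1, c)
    exact hc (congrArg Prod.snd ha).symm
  have h5 := hs' (Z × C₀) _ hK ((QuotientGroup.mk' M).comp (MonoidHom.fst Z C₀))
    ((QuotientGroup.mk'_surjective M).comp Prod.fst_surjective) π₂ hns₂
  have hmemQ : ∀ t : pbM m g M, t.1.1 ∈ Q := by
    rintro ⟨⟨a, z⟩, h, hz⟩
    obtain ⟨q, hq, hq'⟩ := hgM z hz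
    have h6 : m (a * q⁻¹) = 1 := by
      rw [map_mul, map_inv, ← hq', ← show m a = g z from h, mul_inv_cancel]
    rw [hm] at h6
    obtain ⟨d, _, hd⟩ := h6
    have h7 : a * q⁻¹ ∈ Q := by
      rw [← hd]
      exact d.2
    simpa using Q.mul_mem h7 hq
  have h6 : Val A σ ↔
      Val A (π₂.comp (((QuotientGroup.mk' M).comp (MonoidHom.fst Z C₀)).comp π₂).ker.subtype) := by
    let c₁ : pbM m g M →* Q × Z :=
      (((MonoidHom.fst G Z).comp (pbM m g M).subtype).codRestrict Q hmemQ).prod (pbπ m g M)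
    let c₂ : pbM m g M →* Qst := c₁.codRestrict Qst (by
      intro t
      rw [hQst]
      change (QuotientGroup.mk (⟨t.1.1, hmemQ t⟩ : Q) : Q ⧸ D.res Q) = rb (g t.1.2)
      rw [← show m t.1.1 = g t.1.2 from t.2.1]
      exact (hrb ⟨t.1.1, hmemQ t⟩).symm)
    let c₃ : pbM m g M →* (((QuotientGroup.mk' M).comp (MonoidHom.fst Z C₀)).comp π₂).ker :=
      c₂.codRestrict _ (by
        intro t
        exact (QuotientGroup.eq_one_iff (N := M) t.1.2).mpr t.2.2)
    refine val_congr A c₃ ⟨?_, ?_⟩ (fun a => rfl)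
    · intro a b hab
      have h7 : (a : G × Z).1 = (b : G × Z).1 := congrArg
        (fun t : (((QuotientGroup.mk' M).comp (MonoidHom.fst Z C₀)).comp π₂).ker =>
          ((t : Qst) : Q × Z).1.1) hab
      have h8 : (a : G × Z).2 = (b : G × Z).2 := congrArg
        (fun t : (((QuotientGroup.mk' M).comp (MonoidHom.fst Z C₀)).comp π₂).ker =>
          ((t : Qst) : Q × Z).2) hab
      exact Subtype.ext (Prod.ext h7 h8)
    · rintro ⟨⟨⟨t, z⟩, ht⟩, hz⟩
      have hz' : z ∈ M := (QuotientGroup.eq_one_iff (N := M) z).mp hz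
      obtain ⟨q, hq, hq'⟩ := hgM z hz'
      have h7 : (QuotientGroup.mk t : Q ⧸ D.res Q) = QuotientGroup.mk ⟨q, hq⟩ := by
        rw [← hrb ⟨q, hq⟩, ← hq']
        exact ht
      have h8 : m t = g z := by
        rw [hq']
        have h9 : (⟨q, hq⟩ : Q)⁻¹ * t ∈ D.res Q := QuotientGroup.eq.mp h7.symm
        have h10 : m (q⁻¹ * t) = 1 := by
          rw [hm]
          exact ⟨_, h9, rfl⟩
        rw [map_mul, map_inv, inv_mul_eq_one] at h10
        exact h10.symm
      exact ⟨⟨((t : G), z), h8, hz'⟩, rfl⟩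
  rw [h1, h2, ← h3, h6, ← h5, ← h4]

end Compare

end Pool.Agent.Lib_helper5.Form
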