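import Pool.Agent.Lib_helper5.FormDecomp2

/-!
# The decomposition, part 3
-/

set_option maxHeartbeats 400000

namespace Pool.Agent.Lib_helper5.Form

open Function Formation

theorem center_trivial {S : Type} [Group S] [IsSimpleGroup S] (hS : ∃ a b : S, a * b ≠ b * a)
    (s : S) (hs : ∀ t, s * t = t * s) : s = 1 := by
  rcases (inferInstance : (Subgroup.center S).Normal).eq_bot_or_eq_top with h | h
  · have h1 : s ∈ Subgroup.center S := Subgroup.mem_center_iff.mpr (fun t => (hs t).symm)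
    rw [h] at h1
    exact h1
  · exfalso
    obtain ⟨a, b, hab⟩ := hS
    have h1 : b ∈ Subgroup.center S := by rw [h]; trivial
    exact hab (Subgroup.mem_center_iff.mp h1 a)

section Main

variable {𝒳 𝒴 : MarkSys} {A₁ A₂ C₁ C₂ D : Formation}

/-- no simple top of the kernel of the surjective position is lost -/
theorem hna_aux (hPC : IsPair 𝒳 𝒴 C₁ C₂)
    (hC₁ : ∀ (G : Type) [Group G], C₁.mem G → C₁.StarProp G)
    (hC₂ : ∀ (G : Type) [Group G], C₂.mem G → C₂.StarProp G) (hD : D.IsRes C₁)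
    {G Lm : Type} [Group G] [Finite G] [Group Lm]
    (m : G →* Lm) (hm : ∀ a, m a = 1 ↔ a ∈ (D.res (C₁.res G)).map (C₁.res G).subtype)
    (O : Obj 𝒳 𝒴) (hI : O.Inc) (g : O.Z₁ →* Lm) (hg : Surjective g)
    (hπ : Surjective (pbπ m g (⊤ : Subgroup O.Z₁)))
    (y : 𝒳.Mk (CoInd (O.Z₁.subtype.comp (pbπ m g (⊤ : Subgroup O.Z₁)))))
    (hy : 𝒳.Cov (CoInd.p _) y O.x) {S : Type} [Group S] [IsSimpleGroup S]
    (hS : ∃ a b : S, a * b ≠ b * a) (θ : pbM m g (⊤ : Subgroup O.Z₁) →* S)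
    (hθ : Surjective θ) (hz : ∀ z ∈ 𝒳.Z y, θ (CoInd.ev _ z) = 1)
    (a : pbM m g (⊤ : Subgroup O.Z₁)) (ha : pbπ m g (⊤ : Subgroup O.Z₁) a = 1) : θ a = 1 := by
  by_contra hne
  have hPhi : C₁.Phi S := lossy hPC hC₁ hC₂ O hI _ hπ y hy hS θ hθ hz ⟨a, ha, hne⟩
  have hfS : Finite S := Finite.of_surjective θ hθ
  set Q := C₁.res G with hQ
  have hchar : (D.res Q).Characteristic := inferInstance
  have hNn : ((D.res Q).map Q.subtype).Normal := inferInstance
  set N := (D.res Q).map Q.subtype with hN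
  have hNQ : N ≤ Q := by
    rintro _ ⟨d, _, rfl⟩
    exact d.2
  -- the embedding of `N` as the kernel
  let i : N →* pbM m g (⊤ : Subgroup O.Z₁) :=
    ((N.subtype).prod 1).codRestrict _ (by
      intro n
      refine ⟨?_, trivial⟩
      change m (n : G) = g 1
      rw [map_one, (hm _).mpr n.2])
  have hi : ∀ b : pbM m g (⊤ : Subgroup O.Z₁), pbπ m g (⊤ : Subgroup O.Z₁) b = 1 →
      ∃ n, i n = b := by
    rintro ⟨⟨b, z⟩, hb, hb'⟩ hbz
    have hbz' : z = 1 := hbz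
    subst hbz'
    have h1 : m b = 1 := by
      have h2 : m b = g 1 := hb
      rw [h2, map_one]
    exact ⟨⟨b, (hm b).mp h1⟩, rfl⟩
  let θ₀ : N →* S := θ.comp i
  have hθ₀ : Surjective θ₀ := by
    have h1 : ((pbπ m g (⊤ : Subgroup O.Z₁)).ker.map θ).Normal :=
      Subgroup.Normal.map inferInstance θ hθ
    rcases h1.eq_bot_or_eq_top with h2 | h2
    · exfalso
      have h3 : θ a ∈ (pbπ m g (⊤ : Subgroup O.Z₁)).ker.map θ := ⟨a, ha, rfl⟩
      rw [h2] at h3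
      exact hne h3
    · intro s
      have h3 : s ∈ (pbπ m g (⊤ : Subgroup O.Z₁)).ker.map θ := by rw [h2]; trivial
      obtain ⟨b, hb, rfl⟩ := h3
      obtain ⟨n, rfl⟩ := hi b hb
      exact ⟨n, rfl⟩
  obtain ⟨θ', hθ'⟩ := exists_ext N θ₀ hθ₀ (center_trivial hS) (by
    intro b
    obtain ⟨z, hz⟩ := hg (m b)
    refine ⟨θ ⟨(b, z), hz.symm, trivial⟩, ?_⟩
    intro u
    change θ (i _) = θ _ * θ (i u) * (θ _)⁻¹
    rw [← map_inv, ← map_mul, ← map_mul]
    congr 1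
    apply Subtype.ext
    refine Prod.ext rfl ?_
    change (1 : O.Z₁) = z * 1 * z⁻¹
    simp)
  have hθ's : Surjective θ' := by
    intro s
    obtain ⟨n, rfl⟩ := hθ₀ s
    exact ⟨n, hθ' n⟩
  obtain ⟨s, hs⟩ := exists_ne (1 : S)
  obtain ⟨n, hn⟩ := hθ₀ s
  by_cases hSC : C₁.mem S
  · have h1 : C₁.res G ≤ θ'.ker := C₁.res_le_ker θ' hθ's hSC
    have h2 : θ' n = 1 := h1 (hNQ n.2)
    rw [hθ' n, hn] at h2
    exact hs h2
  · have hNN : C₁.NN S := ⟨hfS, inferInstance, hS, hSC, hPhi⟩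
    have hDS : D.mem S := mem_of_NN C₁ D hD hNN
    have h1 : D.res Q ≤ (θ'.comp Q.subtype).ker := by
      refine D.res_le_ker _ ?_ hDS
      intro t
      obtain ⟨k, rfl⟩ := hθ₀ t
      exact ⟨⟨k, hNQ k.2⟩, hθ' k⟩
    obtain ⟨d, hd, hd'⟩ := n.2
    have h2 : θ' (d : G) = 1 := h1 hd
    have h3 : (d : G) = n := hd'
    rw [h3, hθ' n, hn] at h2
    exact hs h2

theorem mem_iff_cofactor (hP : IsPair 𝒳 𝒴 A₁ A₂) (hPC : IsPair 𝒳 𝒴 C₁ C₂)
    (hCA : ∀ (G : Type) [Group G], C₁.mem G → A₁.mem G ∧ A₁.StarProp G)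
    (hC₁ : ∀ (G : Type) [Group G], C₁.mem G → C₁.StarProp G)
    (hC₂ : ∀ (G : Type) [Group G], C₂.mem G → C₂.StarProp G)
    (hD : D.IsRes C₁) (hex : ∃ O : Obj 𝒳 𝒴, O.Inc) {C₀ : Type} [Group C₀] [Nontrivial C₀]
    (hC₀ : C₁.mem C₀) (G : Type) [Group G] [Finite G] :
    A₁.mem G ↔ Val A₁ (tau D C₀ (C₁.res G)) := by
  set Q := C₁.res G with hQ
  have hex_r : ∃ r : G →* Q ⧸ D.res Q, ∀ q : Q, r q = QuotientGroup.mk q :=
    exists_r (G := G) hD (fun S _ hS θ hθ => unmoved hPC hC₁ hex hS θ hθ)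
  obtain ⟨r, hr⟩ := hex_r
  have hchar : (D.res Q).Characteristic := inferInstance
  have hNn : ((D.res Q).map Q.subtype).Normal := inferInstance
  let m : G →* G ⧸ (D.res Q).map Q.subtype := QuotientGroup.mk' _
  have hms : Surjective m := QuotientGroup.mk'_surjective _
  have hm : ∀ a, m a = 1 ↔ a ∈ (D.res Q).map Q.subtype := fun a => QuotientGroup.eq_one_iff a
  let rb : G ⧸ (D.res Q).map Q.subtype →* Q ⧸ D.res Q := QuotientGroup.lift _ r (by
    rintro _ ⟨d, hd, rfl⟩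
    rw [MonoidHom.mem_ker, Subgroup.coe_subtype, hr]
    exact (QuotientGroup.eq_one_iff d).mpr hd)
  have hrb : ∀ q : Q, rb (m q) = QuotientGroup.mk q := hr
  have hrbs : Surjective rb := by
    intro x
    obtain ⟨q, rfl⟩ := QuotientGroup.mk_surjective x
    exact ⟨_, hrb q⟩
  have key : A₁.mem (G ⧸ (D.res Q).map Q.subtype) →
      (A₁.mem G ↔ Val A₁ (tau D C₀ (C₁.res G))) := by
    intro hΛ
    obtain ⟨O₀, hI₀, hm₀, _⟩ := exists_inc_mem hP hex
    have hK : A₁.mem (O₀.Z₁ × (G ⧸ (D.res Q).map Q.subtype)) :=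
      A₁.mem_of_subdirect (MonoidHom.fst _ _) (MonoidHom.snd _ _)
        Prod.fst_surjective Prod.snd_surjective (fun x h h' => Prod.ext h h') hm₀ hΛ
    obtain ⟨O, f, hc, hgood, hZ, h, hh, _⟩ := exists_nice hP O₀ hI₀ hm₀ hK (MonoidHom.fst _ _)
      Prod.fst_surjective (n := Nat.card G) Nat.card_pos.ne'
    have hI : O.Inc := hI₀.cover hc
    let g : O.Z₁ →* G ⧸ (D.res Q).map Q.subtype := (MonoidHom.snd _ _).comp h
    have hg : Surjective g := Prod.snd_surjective.comp hh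
    have hπ : Surjective (pbπ m g (⊤ : Subgroup O.Z₁)) := by
      intro z
      obtain ⟨a, ha⟩ := hms (g z)
      exact ⟨⟨(a, z), ha, trivial⟩, rfl⟩
    have h1 : A₁.mem G ↔ A₁.mem (pbM m g (⊤ : Subgroup O.Z₁)) := by
      have hfst : Surjective ((MonoidHom.fst G O.Z₁).comp (pbM m g ⊤).subtype) := by
        intro a
        obtain ⟨z, hz⟩ := hg (m a)
        exact ⟨⟨(a, z), hz.symm, trivial⟩, rfl⟩
      constructor
      · intro hG
        exact A₁.mem_of_subdirect _ _ hfst hπ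
          (fun x h h' => Subtype.ext (Prod.ext h h')) hG hZ
      · intro hG
        exact A₁.mem_of_surjective _ hfst hG
    have h2 := val_surjective A₁ hπ
    have hG' : O.GoodAt (Nat.card (pbπ m g (⊤ : Subgroup O.Z₁)).ker) := by
      intro q hq hdvd
      refine hgood q hq (hdvd.trans ?_)
      refine Subgroup.card_dvd_of_injective (((MonoidHom.fst G O.Z₁).comp
        (pbM m g ⊤).subtype).comp (pbπ m g (⊤ : Subgroup O.Z₁)).ker.subtype) ?_
      rintro ⟨a, ha⟩ ⟨b, hb⟩ hab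
      apply Subtype.ext
      apply Subtype.ext
      exact Prod.ext hab ((show (a : G × O.Z₁).2 = 1 from ha).trans
        (show (b : G × O.Z₁).2 = 1 from hb).symm)
    have h3 := move_one hP O hI (pbπ m g (⊤ : Subgroup O.Z₁)) hG'
      (fun _ y hy S _ _ hS θ hθ hz a ha =>
        hna_aux hPC hC₁ hC₂ hD m hm O hI g hg hπ y hy hS θ hθ hz a ha)
    -- the star property
    have hMle : (C₁.res O.Z₁).map O.Z₁.subtype ≤ O.Z₂ := hPC.res_le_Z₂ O hI.dom
    have hMt : C₁.res O.Z₁ ≠ ⊤ := by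
      intro htop
      apply hI.1
      intro z hz
      apply hMle
      rw [htop]
      exact ⟨⟨z, hz⟩, trivial, rfl⟩
    have hQm := hCA (O.Z₁ ⧸ C₁.res O.Z₁) (C₁.mem_quotient_res _)
    set P := O.Z₂.comap (O.Z₁.subtype.comp (pbπ m g (⊤ : Subgroup O.Z₁))) with hPdef
    let πD : P →* O.Z₁ := (pbπ m g (⊤ : Subgroup O.Z₁)).comp P.subtype
    have hns : ¬ Surjective πD := by
      intro hsurj
      apply hI.1
      intro z hz
      obtain ⟨a, ha⟩ := hsurj ⟨z, hz⟩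
      have h4 : ((πD a : O.Z₁) : O.J) ∈ O.Z₂ := a.2
      rw [ha] at h4
      exact h4
    have h4 := hQm.2 O.Z₁ P hZ (QuotientGroup.mk' _) (QuotientGroup.mk'_surjective _) πD hns
    have h5 : Val A₁ (pbπ m g (C₁.res O.Z₁)) ↔
        Val A₁ (πD.comp ((QuotientGroup.mk' (C₁.res O.Z₁)).comp πD).ker.subtype) := by
      let c₁ : pbM m g (C₁.res O.Z₁) →* pbM m g (⊤ : Subgroup O.Z₁) :=
        Subgroup.inclusion (fun t ht => ⟨ht.1, trivial⟩)
      let c₂ : pbM m g (C₁.res O.Z₁) →* P := c₁.codRestrict P (by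
        intro t
        exact hMle ⟨t.1.2, t.2.2, rfl⟩)
      let c₃ : pbM m g (C₁.res O.Z₁) →* ((QuotientGroup.mk' (C₁.res O.Z₁)).comp πD).ker :=
        c₂.codRestrict _ (by
          intro t
          exact (QuotientGroup.eq_one_iff (N := C₁.res O.Z₁) t.1.2).mpr t.2.2)
      refine val_congr A₁ c₃ ⟨?_, ?_⟩ (fun a => rfl)
      · intro a b hab
        have h6 := congrArg (fun t : ((QuotientGroup.mk' (C₁.res O.Z₁)).comp πD).ker =>
          (((t : P) : pbM m g (⊤ : Subgroup O.Z₁)) : G × O.Z₁)) hab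
        exact Subtype.ext h6
      · rintro ⟨⟨⟨t, ht, _⟩, ht'⟩, ht''⟩
        exact ⟨⟨t, ht, (QuotientGroup.eq_one_iff (N := C₁.res O.Z₁) t.2).mp ht''⟩, rfl⟩
    have h6 := compare A₁ D Q m g (C₁.res O.Z₁) hZ (hCA C₀ hC₀).1 (hCA C₀ hC₀).2 hQm.2 hMt hm hg
      (by
        intro z hz
        have h7 : g z ∈ (C₁.res O.Z₁).map g := ⟨z, hz, rfl⟩
        rw [C₁.map_res g hg, ← C₁.map_res m hms] at h7
        obtain ⟨q, hq, hq'⟩ := h7
        exact ⟨q, hq, hq'.symm⟩) rb hrb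
    rw [h1, ← h2, h3, ← h6, h5]
    exact h4
  have hΛ : Val A₁ (tau D C₀ (C₁.res G)) → A₁.mem (G ⧸ (D.res Q).map Q.subtype) := by
    intro hv
    have hNQ : (D.res Q).map Q.subtype ≤ Q := by
      rintro _ ⟨d, _, rfl⟩
      exact d.2
    have h1 : A₁.mem (Q ⧸ D.res Q) :=
      A₁.mem_of_surjective (MonoidHom.fst _ _) Prod.fst_surjective (mem_of_val A₁ hv)
    have h2 : A₁.mem (G ⧸ Q) := (hCA _ (C₁.mem_quotient_res G)).1
    refine A₁.mem_of_subdirect (QuotientGroup.map _ Q (MonoidHom.id G) hNQ) rb ?_ hrbs ?_ h2 h1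
    · intro x
      obtain ⟨a, rfl⟩ := QuotientGroup.mk_surjective x
      exact ⟨QuotientGroup.mk a, rfl⟩
    · intro x hx hx'
      obtain ⟨a, rfl⟩ := QuotientGroup.mk_surjective x
      have h3 : a ∈ Q := (QuotientGroup.eq_one_iff (N := Q) a).mp hx
      have h4 : rb (m a) = QuotientGroup.mk ⟨a, h3⟩ := hrb ⟨a, h3⟩
      rw [show rb (m a) = 1 from hx'] at h4
      have h5 : (⟨a, h3⟩ : Q) ∈ D.res Q := (QuotientGroup.eq_one_iff _).mp h4.symm
      exact (QuotientGroup.eq_one_iff a).mpr ⟨_, h5, rfl⟩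
  exact ⟨fun h => (key (A₁.mem_quotient _ h)).mp h, fun h => (key (hΛ h)).mpr h⟩

end Main

end Pool.Agent.Lib_helper5.Form
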