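import Pool.Agent.Lib_helper5.FormDecomp3

/-!
# The decomposition, part 4: the main theorem for pairs of marking systems
-/

set_option maxHeartbeats 400000

namespace Pool.Agent.Lib_helper5.Form

open Function Formation

theorem exists_simple_quot_of (G : Type) [Group G] [Finite G] [Nontrivial G] :
    ∃ (S : Type) (_ : Group S) (_ : IsSimpleGroup S) (f : G →* S), Surjective f := by
  let 𝒩 : Set (Subgroup G) := {N | N.Normal ∧ N ≠ ⊤}
  have hbot : (⊥ : Subgroup G) ∈ 𝒩 := ⟨inferInstance, bot_ne_top⟩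
  obtain ⟨N, hN⟩ := (Set.toFinite 𝒩).exists_maximal ⟨_, hbot⟩
  have hNn : N.Normal := hN.1.1
  have hnt : Nontrivial (G ⧸ N) := by
    obtain ⟨g, hg⟩ : ∃ g, g ∉ N := by
      by_contra hcon
      push Not at hcon
      exact hN.1.2 (eq_top_iff.mpr (fun g _ => hcon g))
    exact ⟨⟨QuotientGroup.mk g, 1, fun h => hg ((QuotientGroup.eq_one_iff g).mp h)⟩⟩
  refine ⟨G ⧸ N, inferInstance, ⟨fun H hH => ?_⟩, QuotientGroup.mk' N,
    QuotientGroup.mk'_surjective N⟩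
  by_cases htop : H.comap (QuotientGroup.mk' N) = ⊤
  · right
    rw [eq_top_iff]
    intro x _
    obtain ⟨g, rfl⟩ := QuotientGroup.mk_surjective x
    have : g ∈ H.comap (QuotientGroup.mk' N) := by rw [htop]; trivial
    exact this
  · left
    have h1 : N ≤ H.comap (QuotientGroup.mk' N) := by
      intro n hn
      rw [Subgroup.mem_comap, QuotientGroup.mk'_apply, (QuotientGroup.eq_one_iff n).mpr hn]
      exact H.one_mem
    have h2 := hN.2 ⟨hH.comap _, htop⟩ h1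
    rw [eq_bot_iff]
    intro x hx
    obtain ⟨g, rfl⟩ := QuotientGroup.mk_surjective x
    exact (QuotientGroup.eq_one_iff g).mpr (h2 hx)

section Main

variable {𝒳 𝒴 : MarkSys} {A₁ A₂ C₁ C₂ D : Formation}

theorem exists_C0 (hPC : IsPair 𝒳 𝒴 C₁ C₂) (hex : ∃ O : Obj 𝒳 𝒴, O.Inc) :
    ∃ (C₀ : Type) (_ : Group C₀), Nontrivial C₀ ∧ C₁.mem C₀ := by
  obtain ⟨O, hI⟩ := hex
  obtain ⟨O', f, hc, hker, _⟩ := O.exists_quot O.Z₂
  have h1 : Subsingleton O'.Z₂ := by
    refine ⟨?_⟩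
    have key : ∀ z : O'.Z₂, z = 1 := by
      rintro ⟨z, hz⟩
      obtain ⟨t, ht, rfl⟩ := 𝒴.exists_mem_Z_of_cov hc.2 hz
      apply Subtype.ext
      exact (hker t).mpr ht
    intro a b
    rw [key a, key b]
  have h2 : C₂.mem O'.Z₂ := C₂.mem_of_subsingleton _
  have h3 : C₁.mem O'.Z₁ := (hPC O' (Obj.Dom.quot hc hI.dom)).mpr h2
  obtain ⟨z, hz, hz'⟩ := hI.exists₁
  refine ⟨O'.Z₁, inferInstance, ⟨⟨f z, 𝒳.mem_Z_of_cov hc.1 hz⟩, 1, ?_⟩, h3⟩
  intro h
  exact hz' ((hker z).mp (congrArg Subtype.val h))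

theorem Phi.congr {C : Formation} {S S' : Type} [Group S] [Group S'] (c : S →* S')
    (hc : Bijective c) (h : C.Phi S') : C.Phi S := by
  obtain ⟨K, _, hK, hK', hv⟩ := h
  exact ⟨K, inferInstance, hK, hK', (val_congr C c hc (fun x => rfl)).mpr hv⟩

theorem phi_of_mem (hPC : IsPair 𝒳 𝒴 C₁ C₂)
    (hC₁ : ∀ (G : Type) [Group G], C₁.mem G → C₁.StarProp G)
    (hC₂ : ∀ (G : Type) [Group G], C₂.mem G → C₂.StarProp G)
    (hex : ∃ O : Obj 𝒳 𝒴, O.Inc) {S : Type} [Group S] [IsSimpleGroup S] (hS : C₁.mem S) :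
    C₁.Phi S := by
  have hfS := C₁.finite_of_mem hS
  obtain ⟨O₀, hI₀, hm₀, _⟩ := exists_inc_mem hPC hex
  obtain ⟨O, f, hc, hgood, hZ, _⟩ := exists_nice hPC O₀ hI₀ hm₀ hm₀ (MonoidHom.id _)
    surjective_id (n := Nat.card S) Nat.card_pos.ne'
  have hI : O.Inc := hI₀.cover hc
  let π : O.Z₁ × S →* O.Z₁ := MonoidHom.fst _ _
  have hπ : Surjective π := Prod.fst_surjective
  have hmem : C₁.mem (O.Z₁ × S) := C₁.mem_of_subdirect (MonoidHom.fst _ _) (MonoidHom.snd _ _)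
    Prod.fst_surjective Prod.snd_surjective (fun x h h' => Prod.ext h h') hZ hS
  have hv : Val C₁ π := (val_surjective C₁ hπ).mpr hmem
  by_cases hna : ∀ y : 𝒳.Mk (CoInd (O.Z₁.subtype.comp π)), 𝒳.Cov (CoInd.p _) y O.x →
      ∀ (S : Type) [Group S] [IsSimpleGroup S], (∃ a b : S, a * b ≠ b * a) →
      ∀ θ : O.Z₁ × _ →* S, Surjective θ →
      (∀ z ∈ 𝒳.Z y, θ (CoInd.ev _ z) = 1) → ∀ h, π h = 1 → θ h = 1
  · have hG' : O.GoodAt (Nat.card π.ker) := by
      intro q hq hdvd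
      refine hgood q hq (hdvd.trans ?_)
      refine Subgroup.card_dvd_of_injective ((MonoidHom.snd O.Z₁ S).comp π.ker.subtype) ?_
      rintro ⟨a, ha⟩ ⟨b, hb⟩ hab
      apply Subtype.ext
      exact Prod.ext ((show a.1 = 1 from ha).trans (show b.1 = 1 from hb).symm) hab
    have h1 := (move_one hPC O hI π hG' (fun _ => hna)).mp hv
    set P := O.Z₂.comap (O.Z₁.subtype.comp π) with hPdef
    have hns : ¬ Surjective (π.comp P.subtype) := by
      intro hsurj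
      apply hI.1
      intro z hz
      obtain ⟨a, ha⟩ := hsurj ⟨z, hz⟩
      have h4 : ((π (a : O.Z₁ × S) : O.Z₁) : O.J) ∈ O.Z₂ := a.2
      rw [show π (a : O.Z₁ × S) = ⟨z, hz⟩ from ha] at h4
      exact h4
    have h2 := (hC₁ O.Z₁ hZ O.Z₁ P hZ (MonoidHom.id _) surjective_id _ hns).mp h1
    have hnt : Nontrivial O.Z₁ := hI.nontrivial₁
    refine ⟨O.Z₁, inferInstance, hnt, hZ, ?_⟩
    let c₁ : S →* P := (MonoidHom.inr O.Z₁ S).codRestrict P (fun s => O.Z₂.one_mem)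
    let c₂ : S →* ((MonoidHom.id O.Z₁).comp (π.comp P.subtype)).ker :=
      c₁.codRestrict _ (fun s => rfl)
    refine (val_congr C₁ c₂ ⟨?_, ?_⟩ (fun a => rfl)).mpr h2
    · intro a b hab
      exact congrArg (fun t : ((MonoidHom.id O.Z₁).comp (π.comp P.subtype)).ker =>
        ((t : P) : O.Z₁ × S).2) hab
    · rintro ⟨⟨⟨a, s⟩, ht⟩, ht'⟩
      have ha : a = 1 := ht'
      subst ha
      exact ⟨s, rfl⟩
  · push Not at hna
    obtain ⟨y, hy, S', _, _, hS', θ, hθ, hz, a, ha, ha'⟩ := hna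
    have hPhi := lossy hPC hC₁ hC₂ O hI π hπ y hy hS' θ hθ hz ⟨a, ha, ha'⟩
    refine Phi.congr (θ.comp (MonoidHom.inr O.Z₁ S)) ⟨?_, ?_⟩ hPhi
    · rw [← MonoidHom.ker_eq_bot_iff]
      rcases (inferInstance : (θ.comp (MonoidHom.inr O.Z₁ S)).ker.Normal).eq_bot_or_eq_top
        with h1 | h1
      · exact h1
      · exfalso
        apply ha'
        have h2 : a.2 ∈ (θ.comp (MonoidHom.inr O.Z₁ S)).ker := by rw [h1]; trivial
        have h3 : a = MonoidHom.inr O.Z₁ S a.2 := Prod.ext ha rfl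
        rw [h3]
        exact h2
    · have h1 : (π.ker.map θ).Normal := Subgroup.Normal.map inferInstance θ hθ
      rcases h1.eq_bot_or_eq_top with h2 | h2
      · exfalso
        have h3 : θ a ∈ π.ker.map θ := ⟨a, ha, rfl⟩
        rw [h2] at h3
        exact ha' h3
      · intro s
        have h3 : s ∈ π.ker.map θ := by rw [h2]; trivial
        obtain ⟨b, hb, rfl⟩ := h3
        refine ⟨b.2, ?_⟩
        have h4 : b = MonoidHom.inr O.Z₁ S b.2 := Prod.ext hb rfl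
        rw [MonoidHom.comp_apply, ← h4]

theorem not_indecomposable_proof (hex : ∃ O : Obj 𝒳 𝒴, O.Inc) (hP : IsPair 𝒳 𝒴 A₁ A₂) :
    ¬ A₁.Indecomposable := by
  intro hInd
  obtain ⟨C₁, C₂, hPC, hleast⟩ := exists_least 𝒳 𝒴
  obtain ⟨B₁, hB₁⟩ := exists_star A₁
  obtain ⟨B₂, hB₂⟩ := exists_star A₂
  obtain ⟨E₁, hE₁⟩ := exists_star C₁
  obtain ⟨E₂, hE₂⟩ := exists_star C₂
  have hCA : ∀ (G : Type) [Group G], C₁.mem G → A₁.mem G ∧ A₁.StarProp G := fun G _ h =>
    (hB₁ G).mp ((hleast B₁ B₂ (isPair_star hP hB₁ hB₂)).1 G h)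
  have hC₁ : ∀ (G : Type) [Group G], C₁.mem G → C₁.StarProp G := fun G _ h =>
    ((hE₁ G).mp ((hleast E₁ E₂ (isPair_star hPC hE₁ hE₂)).1 G h)).2
  have hC₂ : ∀ (G : Type) [Group G], C₂.mem G → C₂.StarProp G := fun G _ h =>
    ((hE₂ G).mp ((hleast E₁ E₂ (isPair_star hPC hE₁ hE₂)).2 G h)).2
  obtain ⟨D, hD⟩ := exists_isRes C₁
  obtain ⟨C₀, _, hC₀n, hC₀⟩ := exists_C0 hPC hex
  have hfC₀ := C₁.finite_of_mem hC₀
  have heq : A₁ = cofactor A₁ C₁ D hD C₀ (hCA C₀ hC₀).1 * C₁ := by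
    apply Formation.ext'
    intro G _
    constructor
    · intro h
      have := A₁.finite_of_mem h
      exact ⟨inferInstance, inferInstance,
        (mem_iff_cofactor hP hPC hCA hC₁ hC₂ hD hex hC₀ G).mp h⟩
    · rintro ⟨hG, _, h⟩
      exact (mem_iff_cofactor hP hPC hCA hC₁ hC₂ hD hex hC₀ G).mpr h
  rcases hInd.2 _ _ heq with h1 | h1
  · -- the cofactor is not trivial
    obtain ⟨S, _, hSs, f, hf⟩ := exists_simple_quot_of C₀
    have hS : C₁.mem S := C₁.mem_of_surjective f hf hC₀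
    have hfS := C₁.finite_of_mem hS
    have hv : Val C₁ (1 : S →* C₀) :=
      Phi.val hC₁ (phi_of_mem hPC hC₁ hC₂ hex hS) hC₀
    have hv' : Val A₁ (1 : S →* C₀) := (hCA _ hv).1
    have hres : D.res S = ⊤ := by
      rcases (inferInstance : (D.res S).Normal).eq_bot_or_eq_top with h2 | h2
      · exfalso
        have h3 : D.mem S := D.mem_iff_res_eq_bot.mpr h2
        obtain ⟨g, hg⟩ := exists_ne (1 : S)
        obtain ⟨S', _, θ, hS', hθ, _⟩ := ((hD S).mp h3).2 g hg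
        exact hS'.2.2.2.1 (C₁.mem_of_surjective θ hθ hS)
      · exact h2
    have hsub : Subsingleton (S ⧸ D.res S) := by
      rw [hres]
      exact QuotientGroup.subsingleton_quotient_top
    have hK : A₁.mem ((S ⧸ D.res S) × C₀) :=
      A₁.mem_of_subdirect (MonoidHom.fst _ _) (MonoidHom.snd _ _) Prod.fst_surjective
        Prod.snd_surjective (fun x h h' => Prod.ext h h') (A₁.mem_of_subsingleton _)
        (hCA C₀ hC₀).1
    have hτ : Val A₁ (tau D C₀ S) := by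
      have hpb : Val A₁ (1 : S →* C₀) ↔ Val A₁ (tau D C₀ S) := by
        refine val_pullback (π := (1 : S →* C₀)) (π' := tau D C₀ S) A₁
          (MonoidHom.snd (S ⧸ D.res S) C₀) Prod.snd_surjective (MonoidHom.id S)
          (fun a => rfl) (fun a h _ => h) ?_ hK
        rintro a ⟨k, c⟩ hak
        exact ⟨a, rfl, Prod.ext (Subsingleton.elim _ _) hak⟩
      exact hpb.mp hv'
    have h2 : (cofactor A₁ C₁ D hD C₀ (hCA C₀ hC₀).1).mem S := ⟨hfS, hτ⟩
    rw [h1] at h2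
    have h3 : Subsingleton S := h2
    exact not_subsingleton S h3
  · -- `C₁` is not trivial
    have h2 : C₁.mem C₀ := hC₀
    rw [h1] at h2
    have h3 : Subsingleton C₀ := h2
    exact not_subsingleton C₀ h3

end Main

end Pool.Agent.Lib_helper5.Form
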