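import Mathlib

/-!
# Formations of finite groups: definitions, residuals, products
-/

set_option maxHeartbeats 400000

namespace Pool.Agent.Lib_helper5.Form

open Function

/-- A formation of finite groups: a nonempty class of finite groups closed under homomorphic
images (hence under isomorphism) and such that `G ⧸ M`, `G ⧸ N` in the class imply that
`G ⧸ (M ⊓ N)` is in the class. -/
structure Formation where
  /-- membership predicate -/
  mem : ∀ (G : Type) [Group G], Prop
  finite_of_mem : ∀ {G : Type} [Group G], mem G → Finite G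
  exists_mem : ∃ (G : Type) (_ : Group G), mem G
  mem_of_surjective : ∀ {G H : Type} [Group G] [Group H] (f : G →* H),
    Surjective f → mem G → mem H
  mem_inf : ∀ {G : Type} [Group G] [Finite G] (M N : Subgroup G) [M.Normal] [N.Normal],
    mem (G ⧸ M) → mem (G ⧸ N) → mem (G ⧸ (M ⊓ N))

namespace Formation

theorem ext' {A B : Formation} (h : ∀ (G : Type) [Group G], A.mem G ↔ B.mem G) : A = B := by
  cases A with
  | mk a _ _ _ _ =>
    cases B with
    | mk b _ _ _ _ =>
      have : a = b := by
        funext G inst
        exact propext (h G)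
      subst this
      rfl

variable (F : Formation)

theorem mem_of_equiv {G H : Type} [Group G] [Group H] (e : G ≃* H) (h : F.mem G) : F.mem H :=
  F.mem_of_surjective e.toMonoidHom e.surjective h

theorem mem_quotient {G : Type} [Group G] (N : Subgroup G) [N.Normal] (h : F.mem G) :
    F.mem (G ⧸ N) :=
  F.mem_of_surjective (QuotientGroup.mk' N) (QuotientGroup.mk'_surjective N) h

theorem mem_of_subsingleton (G : Type) [Group G] [Subsingleton G] : F.mem G := by
  obtain ⟨G₀, inst, h⟩ := F.exists_mem
  exact F.mem_of_surjective (1 : G₀ →* G) (fun x => ⟨1, Subsingleton.elim _ _⟩) h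

/-- If `G` surjects on `H` and `K` with trivial common kernel then `G` is in the formation. -/
theorem mem_of_subdirect {G H K : Type} [Group G] [Group H] [Group K] (f : G →* H) (g : G →* K)
    (hf : Surjective f) (hg : Surjective g) (hfg : ∀ x, f x = 1 → g x = 1 → x = 1)
    (hH : F.mem H) (hK : F.mem K) : F.mem G := by
  have := F.finite_of_mem hH
  have := F.finite_of_mem hK
  have : Finite G := by
    refine Finite.of_injective (fun x => (f x, g x)) ?_
    intro x y hxy
    simp only [Prod.mk.injEq] at hxy
    have : x * y⁻¹ = 1 := hfg _ (by simp [hxy.1]) (by simp [hxy.2])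
    exact mul_inv_eq_one.mp this
  have h1 : F.mem (G ⧸ f.ker) :=
    F.mem_of_equiv (QuotientGroup.quotientKerEquivOfSurjective f hf).symm hH
  have h2 : F.mem (G ⧸ g.ker) :=
    F.mem_of_equiv (QuotientGroup.quotientKerEquivOfSurjective g hg).symm hK
  have h3 := F.mem_inf f.ker g.ker h1 h2
  refine F.mem_of_surjective
    (QuotientGroup.lift (f.ker ⊓ g.ker) (MonoidHom.id G) ?_) ?_ h3
  · intro x hx
    exact hfg x hx.1 hx.2
  · intro x
    exact ⟨QuotientGroup.mk x, rfl⟩

/-- Constructor of formations from the homomorphism version of subdirect closure. -/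
def ofSubdirect (mem : ∀ (G : Type) [Group G], Prop)
    (h1 : ∀ {G : Type} [Group G], mem G → Finite G)
    (h2 : ∃ (G : Type) (_ : Group G), mem G)
    (h3 : ∀ {G H : Type} [Group G] [Group H] (f : G →* H), Surjective f → mem G → mem H)
    (h4 : ∀ {G H K : Type} [Group G] [Group H] [Group K] [Finite G] (f : G →* H) (g : G →* K),
      Surjective f → Surjective g → (∀ x, f x = 1 → g x = 1 → x = 1) → mem H → mem K → mem G) :
    Formation where
  mem := mem
  finite_of_mem := h1
  exists_mem := h2
  mem_of_surjective := h3
  mem_inf := by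
    intro G _ _ M N _ _ hM hN
    refine h4 (QuotientGroup.map (M ⊓ N) M (MonoidHom.id G) inf_le_left)
      (QuotientGroup.map (M ⊓ N) N (MonoidHom.id G) inf_le_right) ?_ ?_ ?_ hM hN
    · intro x
      induction x using QuotientGroup.induction_on with
      | H x => exact ⟨QuotientGroup.mk x, rfl⟩
    · intro x
      induction x using QuotientGroup.induction_on with
      | H x => exact ⟨QuotientGroup.mk x, rfl⟩
    · intro x
      induction x using QuotientGroup.induction_on with
      | H x =>
        intro hx1 hx2
        have h1' : x ∈ M := (QuotientGroup.eq_one_iff (N := M) x).mp hx1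
        have h2' : x ∈ N := (QuotientGroup.eq_one_iff (N := N) x).mp hx2
        exact (QuotientGroup.eq_one_iff x).mpr ⟨h1', h2'⟩

/-- The `F`-residual of a group: the intersection of all normal subgroups with quotient in `F`. -/
def res (G : Type) [Group G] : Subgroup G :=
  sInf {N : Subgroup G | ∃ _ : N.Normal, F.mem (G ⧸ N)}

instance res_normal (G : Type) [Group G] : (F.res G).Normal := by
  constructor
  intro n hn g
  unfold res at hn ⊢
  rw [Subgroup.mem_sInf] at hn ⊢
  intro N hN
  have h1 := hn N hN
  obtain ⟨hN1, _⟩ := hN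
  exact hN1.conj_mem n h1 g

theorem res_le {G : Type} [Group G] (N : Subgroup G) [hN : N.Normal] (h : F.mem (G ⧸ N)) :
    F.res G ≤ N :=
  sInf_le ⟨hN, h⟩

theorem res_le_ker {G H : Type} [Group G] [Group H] (f : G →* H) (hf : Surjective f)
    (h : F.mem H) : F.res G ≤ f.ker :=
  F.res_le f.ker (F.mem_of_equiv (QuotientGroup.quotientKerEquivOfSurjective f hf).symm h)

theorem mem_quotient_res (G : Type) [Group G] [Finite G] : F.mem (G ⧸ F.res G) := by
  let 𝒩 : Set (Subgroup G) := {N : Subgroup G | ∃ _ : N.Normal, F.mem (G ⧸ N)}
  have htop : (⊤ : Subgroup G) ∈ 𝒩 := by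
    refine ⟨inferInstance, ?_⟩
    have : Subsingleton (G ⧸ (⊤ : Subgroup G)) := QuotientGroup.subsingleton_quotient_top
    exact F.mem_of_subsingleton _
  obtain ⟨N, hN⟩ := (Set.toFinite 𝒩).exists_minimal ⟨_, htop⟩
  have hle : ∀ M ∈ 𝒩, N ≤ M := by
    intro M hM
    obtain ⟨hN1, hN2⟩ := hN.1
    obtain ⟨hM1, hM2⟩ := hM
    have h1 : N ⊓ M ∈ 𝒩 := ⟨Subgroup.normal_inf_normal N M, F.mem_inf N M hN2 hM2⟩
    exact (hN.2 h1 inf_le_left).trans inf_le_right
  have heq : F.res G = N := le_antisymm (sInf_le hN.1) (le_sInf hle)
  obtain ⟨hN1, hN2⟩ := hN.1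
  exact F.mem_of_equiv (QuotientGroup.quotientMulEquivOfEq heq.symm) hN2

theorem mem_quotient_iff {G : Type} [Group G] [Finite G] (N : Subgroup G) [N.Normal] :
    F.mem (G ⧸ N) ↔ F.res G ≤ N := by
  refine ⟨F.res_le N, fun h => ?_⟩
  refine F.mem_of_surjective (QuotientGroup.map (F.res G) N (MonoidHom.id G) h) ?_
    (F.mem_quotient_res G)
  intro x
  induction x using QuotientGroup.induction_on with
  | H x => exact ⟨QuotientGroup.mk x, rfl⟩

theorem mem_iff_res_le_ker {G H : Type} [Group G] [Group H] [Finite G] (f : G →* H)
    (hf : Surjective f) : F.mem H ↔ F.res G ≤ f.ker := by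
  rw [← F.mem_quotient_iff]
  exact ⟨F.mem_of_equiv (QuotientGroup.quotientKerEquivOfSurjective f hf).symm,
    F.mem_of_equiv (QuotientGroup.quotientKerEquivOfSurjective f hf)⟩

theorem mem_iff_res_eq_bot {G : Type} [Group G] [Finite G] : F.mem G ↔ F.res G = ⊥ := by
  rw [F.mem_iff_res_le_ker (MonoidHom.id G) surjective_id, MonoidHom.ker_id, le_bot_iff]

/-- Residuals are mapped onto residuals by surjective homomorphisms. -/
theorem map_res {G H : Type} [Group G] [Group H] [Finite G] (f : G →* H) (hf : Surjective f) :
    (F.res G).map f = F.res H := by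
  have : Finite H := Finite.of_surjective f hf
  have : ((F.res G).map f).Normal := Subgroup.Normal.map inferInstance f hf
  apply le_antisymm
  · rw [Subgroup.map_le_iff_le_comap]
    have h1 : F.mem (H ⧸ F.res H) := F.mem_quotient_res H
    have h2 := F.res_le_ker ((QuotientGroup.mk' (F.res H)).comp f)
      ((QuotientGroup.mk'_surjective _).comp hf) h1
    intro x hx
    have h3 : QuotientGroup.mk' (F.res H) (f x) = 1 := h2 hx
    exact (QuotientGroup.eq_one_iff (N := F.res H) (f x)).mp h3
  · rw [← F.mem_quotient_iff]
    refine F.mem_of_surjective (QuotientGroup.map (F.res G) ((F.res G).map f) f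
      (Subgroup.le_comap_map f _)) ?_ (F.mem_quotient_res G)
    intro x
    induction x using QuotientGroup.induction_on with
    | H x =>
      obtain ⟨y, rfl⟩ := hf x
      exact ⟨QuotientGroup.mk y, rfl⟩

/-- restriction of a homomorphism to subgroups -/
theorem exists_restrict {G H : Type} [Group G] [Group H] (f : G →* H) (M : Subgroup G)
    (N : Subgroup H) (h : M.map f = N) :
    ∃ φ : M →* N, Surjective φ ∧ ∀ x, ((φ x : N) : H) = f x := by
  subst h
  exact ⟨f.subgroupMap M, f.subgroupMap_surjective M, fun x => rfl⟩

/-- The product of formations: all finite groups `G` whose `B`-residual lies in `A`. -/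
def comp (A B : Formation) : Formation :=
  ofSubdirect (fun G _ => Finite G ∧ A.mem (B.res G))
    (fun h => h.1)
    (by
      refine ⟨Unit, inferInstance, inferInstance, ?_⟩
      exact A.mem_of_subsingleton _)
    (by
      intro G H _ _ f hf ⟨hG, h⟩
      refine ⟨Finite.of_surjective f hf, ?_⟩
      obtain ⟨φ, hφ, _⟩ := exists_restrict f (B.res G) (B.res H) (B.map_res f hf)
      exact A.mem_of_surjective φ hφ h)
    (by
      intro G H K _ _ _ hG f g hf hg hfg ⟨_, hH⟩ ⟨_, hK⟩
      refine ⟨hG, ?_⟩
      obtain ⟨φ, hφ, hφ'⟩ := exists_restrict f (B.res G) (B.res H) (B.map_res f hf)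
      obtain ⟨ψ, hψ, hψ'⟩ := exists_restrict g (B.res G) (B.res K) (B.map_res g hg)
      refine A.mem_of_subdirect φ ψ hφ hψ ?_ hH hK
      intro x hx1 hx2
      apply Subtype.ext
      apply hfg
      · rw [← hφ' x, hx1]; rfl
      · rw [← hψ' x, hx2]; rfl)

/-- The formation consisting of the trivial groups only. -/
def triv : Formation :=
  ofSubdirect (fun G _ => Subsingleton G)
    (fun h => by have := h; infer_instance)
    ⟨Unit, inferInstance, inferInstance⟩
    (by
      intro G H _ _ f hf h
      have := h
      exact hf.subsingleton)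
    (by
      intro G H K _ _ _ _ f g hf hg hfg hH hK
      have := hH
      have := hK
      refine ⟨fun x y => ?_⟩
      have h1 : ∀ z : G, z = 1 := fun z =>
        hfg z (Subsingleton.elim _ _) (Subsingleton.elim _ _)
      rw [h1 x, h1 y])

theorem mem_comp {A B : Formation} {G : Type} [Group G] :
    (A.comp B).mem G ↔ Finite G ∧ A.mem (B.res G) := Iff.rfl

theorem mem_comp_of_finite {A B : Formation} {G : Type} [Group G] [Finite G] :
    (A.comp B).mem G ↔ A.mem (B.res G) :=
  ⟨fun h => h.2, fun h => ⟨inferInstance, h⟩⟩

theorem mem_triv {G : Type} [Group G] : triv.mem G ↔ Subsingleton G := Iff.rfl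

theorem triv_res {G : Type} [Group G] [Finite G] : triv.res G = ⊤ := by
  have h := triv.mem_quotient_res G
  rw [mem_triv] at h
  exact QuotientGroup.subgroup_eq_top_of_subsingleton _ h

theorem comp_triv (A : Formation) : A.comp triv = A := by
  apply ext'
  intro G _
  constructor
  · rintro ⟨hG, h⟩
    have := hG
    rw [triv_res] at h
    exact A.mem_of_equiv Subgroup.topEquiv h
  · intro h
    have := A.finite_of_mem h
    refine ⟨inferInstance, ?_⟩
    rw [triv_res]
    exact A.mem_of_equiv Subgroup.topEquiv.symm h

theorem triv_comp (A : Formation) : triv.comp A = A := by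
  apply ext'
  intro G _
  constructor
  · rintro ⟨hG, h⟩
    have := hG
    rw [A.mem_iff_res_eq_bot]
    have h' : Subsingleton (A.res G) := h
    exact Subgroup.eq_bot_of_subsingleton _
  · intro h
    have := A.finite_of_mem h
    refine ⟨inferInstance, ?_⟩
    rw [A.mem_iff_res_eq_bot.mp h, mem_triv]
    infer_instance

/-- isomorphism of a subgroup with its image under an injective homomorphism, as membership -/
theorem mem_map_iff {G H : Type} [Group G] [Group H] (f : G →* H) (M : Subgroup G)
    (hf : ∀ x ∈ M, f x = 1 → x = 1) : F.mem (M.map f) ↔ F.mem M := by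
  have h1 : Surjective (f.subgroupMap M) := f.subgroupMap_surjective M
  have h2 : Injective (f.subgroupMap M) := by
    rw [injective_iff_map_eq_one]
    intro x hx
    apply Subtype.ext
    apply hf x x.2
    have := congrArg (Subtype.val) hx
    simpa using this
  have e : M ≃* M.map f := MulEquiv.ofBijective (f.subgroupMap M) ⟨h2, h1⟩
  exact ⟨F.mem_of_equiv e.symm, F.mem_of_equiv e⟩

/-- The residual of a product of formations is the iterated residual. -/
theorem res_comp (A B : Formation) (G : Type) [Group G] [Finite G] :
    (A.comp B).res G = (A.res (B.res G)).map (B.res G).subtype := by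
  have hchar : (A.res (B.res G)).Characteristic := by
    rw [Subgroup.characteristic_iff_map_eq]
    intro φ
    exact A.map_res φ.toMonoidHom φ.surjective
  have hN : ((A.res (B.res G)).map (B.res G).subtype).Normal := inferInstance
  have key : ∀ N : Subgroup G, ∀ _ : N.Normal, (A.comp B).mem (G ⧸ N) ↔
      (A.res (B.res G)).map (B.res G).subtype ≤ N := by
    intro N _
    rw [mem_comp_of_finite]
    obtain ⟨φ, hφ, hφ'⟩ := exists_restrict (QuotientGroup.mk' N) (B.res G) (B.res (G ⧸ N))
      (B.map_res _ (QuotientGroup.mk'_surjective N))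
    rw [A.mem_iff_res_le_ker φ hφ, Subgroup.map_le_iff_le_comap]
    have : φ.ker = N.comap (B.res G).subtype := by
      ext x
      rw [MonoidHom.mem_ker, Subgroup.mem_comap]
      constructor
      · intro h
        have h1 := hφ' x
        rw [h] at h1
        exact (QuotientGroup.eq_one_iff (N := N) (x : G)).mp h1.symm
      · intro h
        apply Subtype.ext
        rw [hφ' x]
        exact (QuotientGroup.eq_one_iff (N := N) (x : G)).mpr h
    rw [this]
  apply le_antisymm
  · apply (A.comp B).res_le
    rw [key _ hN]
  · rw [← key _ inferInstance]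
    exact (A.comp B).mem_quotient_res G

theorem comp_assoc (A B C : Formation) : (A.comp B).comp C = A.comp (B.comp C) := by
  apply ext'
  intro G _
  constructor
  · rintro ⟨hG, hG', h⟩
    refine ⟨hG, ?_⟩
    rw [res_comp]
    exact (A.mem_map_iff _ _ (fun x _ hx => by simpa using hx)).mpr h
  · rintro ⟨hG, h⟩
    rw [res_comp] at h
    exact ⟨hG, inferInstance, (A.mem_map_iff _ _ (fun x _ hx => by simpa using hx)).mp h⟩

instance : Monoid Formation where
  mul := comp
  one := triv
  mul_assoc := comp_assoc
  one_mul := triv_comp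
  mul_one := comp_triv

theorem mul_def (A B : Formation) : A * B = A.comp B := rfl

theorem one_def : (1 : Formation) = triv := rfl

/-- A formation is indecomposable if it is not the trivial formation and it is not a product of
two nontrivial formations. -/
def Indecomposable (F : Formation) : Prop :=
  F ≠ 1 ∧ ∀ A B : Formation, F = A * B → A = 1 ∨ B = 1

/-- A formation is normally hereditary if it is closed under taking normal subgroups. -/
def NormallyHereditary (F : Formation) : Prop :=
  ∀ (G : Type) [Group G] (N : Subgroup G), N.Normal → F.mem G → F.mem N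

end Formation

end Pool.Agent.Lib_helper5.Form
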