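import Pool.Agent.Lib_helper5.FormBasic

/-!
# Groups all of whose composition factors are isomorphic to a given simple group
-/

set_option maxHeartbeats 400000

namespace Pool.Agent.Lib_helper5.Form

open Function

/-- Groups all of whose composition factors are isomorphic to `S`. -/
inductive ES (S : Type) [Group S] : ∀ (G : Type) [Group G], Prop
  | triv (G : Type) [Group G] (h : Subsingleton G) : ES S G
  | step (G : Type) [Group G] (ψ : G →* S) (hψ : Surjective ψ) (h : ES S ψ.ker) : ES S G

namespace ES

variable {S : Type} [Group S]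

theorem finite [Finite S] {G : Type} [Group G] (h : ES S G) : Finite G := by
  induction h with
  | triv G h => infer_instance
  | step G ψ hψ h ih =>
    have h1 : Finite (G ⧸ ψ.ker) :=
      Finite.of_equiv S (QuotientGroup.quotientKerEquivOfSurjective ψ hψ).symm.toEquiv
    exact Finite.of_equiv _ (Subgroup.groupEquivQuotientProdSubgroup (s := ψ.ker)).symm

theorem quot [IsSimpleGroup S] {G : Type} [Group G] (h : ES S G) :
    ∀ {H : Type} [Group H] (f : G →* H), Surjective f → ES S H := by
  induction h with
  | triv G h =>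
    intro H _ f hf
    exact ES.triv H hf.subsingleton
  | step G ψ hψ h ih =>
    intro H _ f hf
    have h1 : (f.ker.map ψ).Normal := Subgroup.Normal.map inferInstance ψ hψ
    rcases h1.eq_bot_or_eq_top with h2 | h2
    · have h3 : ∀ x, f x = 1 → ψ x = 1 := by
        intro x hx
        have : ψ x ∈ f.ker.map ψ := ⟨x, hx, rfl⟩
        rw [h2] at this
        exact this
      obtain ⟨ψ', hψ'⟩ := exists_lift f hf ψ h3
      have h4 : Surjective ψ' := by
        intro s
        obtain ⟨x, rfl⟩ := hψ s
        exact ⟨f x, hψ' x⟩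
      refine ES.step H ψ' h4 ?_
      let k : ψ.ker →* ψ'.ker := (f.comp ψ.ker.subtype).codRestrict ψ'.ker (by
        intro x
        rw [MonoidHom.mem_ker]
        exact (hψ' x).trans x.2)
      refine ih k ?_
      rintro ⟨y, hy⟩
      obtain ⟨x, rfl⟩ := hf y
      rw [MonoidHom.mem_ker, hψ'] at hy
      exact ⟨⟨x, hy⟩, rfl⟩
    · refine ih (f.comp ψ.ker.subtype) ?_
      intro y
      obtain ⟨x, rfl⟩ := hf y
      have h3 : ψ x ∈ f.ker.map ψ := by rw [h2]; trivial
      obtain ⟨k, hk, hkx⟩ := h3
      refine ⟨⟨x * k⁻¹, ?_⟩, ?_⟩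
      · rw [MonoidHom.mem_ker, map_mul, map_inv, hkx, mul_inv_cancel]
      · have hk' : f k = 1 := hk
        simp [hk']

theorem normal [IsSimpleGroup S] {G : Type} [Group G] (h : ES S G) :
    ∀ {N : Type} [Group N] (f : N →* G), NormalEmb f → ES S N := by
  induction h with
  | triv G h =>
    intro N _ f hf
    exact ES.triv N hf.1.subsingleton
  | step G ψ hψ h ih =>
    intro N _ f hf
    have h1 : (ψ.comp f).range.Normal := by
      rw [MonoidHom.range_comp]
      exact (normalEmb_range hf).map ψ hψ
    rcases h1.eq_bot_or_eq_top with h2 | h2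
    · have h3 : ∀ x, ψ (f x) = 1 := by
        intro x
        have : ψ (f x) ∈ (ψ.comp f).range := ⟨x, rfl⟩
        rw [h2] at this
        exact this
      refine ih (f.codRestrict ψ.ker h3) ⟨?_, ?_⟩
      · intro x y hxy
        exact hf.1 (congrArg Subtype.val hxy)
      · intro g x
        obtain ⟨y, hy⟩ := hf.2 g x
        exact ⟨y, Subtype.ext hy⟩
    · refine ES.step N (ψ.comp f) (MonoidHom.range_eq_top.mp h2) ?_
      let k : (ψ.comp f).ker →* ψ.ker := (f.comp (ψ.comp f).ker.subtype).codRestrict ψ.ker
        (fun x => x.2)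
      refine ih k ⟨?_, ?_⟩
      · intro x y hxy
        apply Subtype.ext
        exact hf.1 (congrArg Subtype.val hxy)
      · intro g x
        obtain ⟨y, hy⟩ := hf.2 g x
        refine ⟨⟨y, ?_⟩, Subtype.ext hy⟩
        rw [MonoidHom.mem_ker, MonoidHom.comp_apply, hy]
        have h3 : ψ (f x) = 1 := x.2
        simp [h3]

theorem ext [IsSimpleGroup S] {Q : Type} [Group Q] (h : ES S Q) :
    ∀ {G : Type} [Group G] (f : G →* Q), Surjective f → ES S f.ker → ES S G := by
  induction h with
  | triv Q h =>
    intro G _ f hf hk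
    refine hk.quot f.ker.subtype ?_
    intro x
    exact ⟨⟨x, Subsingleton.elim _ _⟩, rfl⟩
  | step Q ψ hψ h ih =>
    intro G _ f hf hk
    refine ES.step G (ψ.comp f) (hψ.comp hf) ?_
    let k : (ψ.comp f).ker →* ψ.ker := (f.comp (ψ.comp f).ker.subtype).codRestrict ψ.ker
      (fun x => x.2)
    refine ih k ?_ ?_
    · rintro ⟨y, hy⟩
      obtain ⟨x, rfl⟩ := hf y
      exact ⟨⟨x, hy⟩, rfl⟩
    · let m : f.ker →* k.ker :=
        { toFun := fun x => ⟨⟨x, by
            rw [MonoidHom.mem_ker, MonoidHom.comp_apply]
            have : f x = 1 := x.2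
            rw [this, map_one]⟩, Subtype.ext x.2⟩
          map_one' := rfl
          map_mul' := fun _ _ => rfl }
      refine hk.quot m ?_
      rintro ⟨⟨x, hx⟩, hx'⟩
      exact ⟨⟨x, congrArg Subtype.val hx'⟩, rfl⟩

theorem self [IsSimpleGroup S] : ES S S := by
  refine ES.step S (MonoidHom.id S) surjective_id (ES.triv _ ?_)
  rw [MonoidHom.ker_id]
  infer_instance

theorem exists_surjective {G : Type} [Group G] (h : ES S G) (hG : Nontrivial G) :
    ∃ ψ : G →* S, Surjective ψ := by
  cases h with
  | triv _ h => exact absurd hG (not_nontrivial_iff_subsingleton.mpr h)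
  | step _ ψ hψ h => exact ⟨ψ, hψ⟩

end ES

/-- The formation of all finite groups all of whose composition factors are isomorphic to `S`. -/
def esForm (S : Type) [Group S] [Finite S] [IsSimpleGroup S] : Formation :=
  Formation.ofExt (fun G _ => ES S G) (fun h => h.finite) ⟨S, inferInstance, ES.self⟩
    (fun f hf h => h.quot f hf) (fun f hf h => h.normal f hf) (fun f hf h1 h2 => h2.ext f hf h1)

theorem esForm_ne_one (S : Type) [Group S] [Finite S] [hS : IsSimpleGroup S] : esForm S ≠ 1 := by
  intro h
  have h1 : (esForm S).mem S := ES.self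
  rw [h] at h1
  have h2 : Subsingleton S := h1
  have h3 : Nontrivial S := inferInstance
  exact absurd h3 (not_nontrivial_iff_subsingleton.mpr h2)

end Pool.Agent.Lib_helper5.Form
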