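import Pool.Agent.Lib_helper5.FormMarkDefs

/-!
# Block EMB
-/

set_option maxHeartbeats 400000

namespace Pool.Agent.Lib_helper5.Form

open Function Formation

/-- a normalised section of the quotient map -/
theorem exists_sec_quot {G : Type} [Group G] (U : Subgroup G) :
    ∃ t : G ⧸ U → G, (∀ ω, ((t ω : G) : G ⧸ U) = ω) ∧ t ((1 : G) : G ⧸ U) = 1 := by
  classical
  refine ⟨fun ω => if ω = ((1 : G) : G ⧸ U) then 1 else ω.out, ?_, by simp⟩
  intro ω
  by_cases h : ω = ((1 : G) : G ⧸ U)
  · simp [h]
  · simp only [h, if_false]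
    exact Quotient.out_eq ω

theorem exists_res_base (B : Formation) {G : Type} [Group G] [Finite G] (U : Subgroup G)
    {V : Type} [CommGroup V] [Finite V] (γ : U →* V) (k : U) (hk : (k : G) ∈ B.res G) :
    ∃ φ : G ⧸ U → V, φ ((1 : G) : G ⧸ U) = γ k ∧
      (⟨φ, 1⟩ : WrA G (G ⧸ U) V) ∈ B.res (WrA G (G ⧸ U) V) := by
  obtain ⟨t, ht, ht1⟩ := exists_sec_quot U
  have hmem : ∀ (g : G) (ω : G ⧸ U), (t ω)⁻¹ * g * t (g⁻¹ • ω) ∈ U := by
    intro g ω
    have h : ((t ω : G) : G ⧸ U) = ((g * t (g⁻¹ • ω) : G) : G ⧸ U) := by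
      have h1 : ((g * t (g⁻¹ • ω) : G) : G ⧸ U) = g • ((t (g⁻¹ • ω) : G) : G ⧸ U) := rfl
      rw [h1, ht, ht, smul_inv_smul]
    rw [QuotientGroup.eq] at h
    rwa [mul_assoc]
  let c : G → G ⧸ U → V := fun g ω => γ ⟨_, hmem g ω⟩
  have hc : ∀ g h ω, c (g * h) ω = c g ω * c h (g⁻¹ • ω) := by
    intro g h ω
    change γ _ = γ _ * γ _
    rw [← map_mul]
    congr 1
    apply Subtype.ext
    change (t ω)⁻¹ * (g * h) * t ((g * h)⁻¹ • ω) =
      (t ω)⁻¹ * g * t (g⁻¹ • ω) * ((t (g⁻¹ • ω))⁻¹ * h * t (h⁻¹ • g⁻¹ • ω))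
    rw [mul_inv_rev, mul_smul]
    group
  let τ : WrA G (G ⧸ U) V →* WrA G (G ⧸ U) V :=
    { toFun := fun w => ⟨fun ω => w.f ω * c w.x ω, w.x⟩
      map_one' := by
        apply WrA.ext
        · funext ω
          have h1 : c 1 ω = 1 := by
            have := hc 1 1 ω
            simpa using this
          change (1 : V) * c 1 ω = 1
          rw [h1, mul_one]
        · rfl
      map_mul' := by
        intro a b
        apply WrA.ext
        · funext ω
          change a.f ω * b.f (a.x⁻¹ • ω) * c (a.x * b.x) ω =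
            (a.f ω * c a.x ω) * (b.f (a.x⁻¹ • ω) * c b.x (a.x⁻¹ • ω))
          rw [hc]
          exact mul_mul_mul_comm _ _ _ _
        · rfl }
  have hτ : Surjective τ := by
    intro w
    refine ⟨⟨fun ω => w.f ω * (c w.x ω)⁻¹, w.x⟩, ?_⟩
    apply WrA.ext
    · funext ω
      change w.f ω * (c w.x ω)⁻¹ * c w.x ω = w.f ω
      simp
    · rfl
  have h1 : ((k : G)) ∈ (B.res (WrA G (G ⧸ U) V)).map WrA.pr := by
    rw [B.map_res WrA.pr (fun x => ⟨⟨fun _ => 1, x⟩, rfl⟩)]
    exact hk
  obtain ⟨w, hw, hwk⟩ := h1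
  have hwk' : w.x = k := hwk
  have h2 : τ w ∈ B.res (WrA G (G ⧸ U) V) := by
    rw [← B.map_res τ hτ]
    exact ⟨w, hw, rfl⟩
  have h3 : τ w * w⁻¹ ∈ B.res (WrA G (G ⧸ U) V) := Subgroup.mul_mem _ h2 (Subgroup.inv_mem _ hw)
  have h4 : τ w * w⁻¹ = ⟨fun ω => c k ω, 1⟩ := by
    apply WrA.ext
    · funext ω
      change w.f ω * c w.x ω * (w⁻¹).f (w.x⁻¹ • ω) = c k ω
      rw [WrA.inv_f, smul_inv_smul, hwk', mul_comm (w.f ω), mul_assoc, mul_inv_cancel, mul_one]
    · change w.x * w.x⁻¹ = 1
      simp
  refine ⟨fun ω => c k ω, ?_, h4 ▸ h3⟩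
  change γ _ = γ k
  congr 1
  apply Subtype.ext
  change (t ((1 : G) : G ⧸ U))⁻¹ * (k : G) * t ((k : G)⁻¹ • ((1 : G) : G ⧸ U)) = k
  have h5 : (k : G)⁻¹ • ((1 : G) : G ⧸ U) = ((1 : G) : G ⧸ U) := by
    have h6 : (k : G)⁻¹ • ((1 : G) : G ⧸ U) = (((k : G)⁻¹ * 1 : G) : G ⧸ U) := rfl
    rw [h6, QuotientGroup.eq]
    simp
  rw [h5, ht1]
  simp

theorem emb_one : Emb 1 := by
  intro G K _ _ _ _ g hg
  have h1 : ∀ x : G, x ∈ Formation.res 1 G := by
    intro x
    rw [one_def, triv_res]
    trivial
  have h2 : ∀ x : K, x ∈ Formation.res 1 K := by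
    intro x
    rw [one_def, triv_res]
    trivial
  refine ⟨K, inferInstance, inferInstance, (Formation.res 1 G).subtype.comp g, ?_,
    (Formation.res 1 K).subtype, ?_, ?_⟩
  · intro x
    obtain ⟨k, hk⟩ := hg ⟨x, h1 x⟩
    exact ⟨k, by simp [hk]⟩
  · intro x
    exact ⟨⟨x, h2 x⟩, rfl⟩
  · intro z
    rfl

theorem Formation.Emb.full {B : Formation} (h : B.Emb) : B.Full := by
  intro T _ _
  obtain ⟨G', _, _, f, hf, h', hh', _⟩ := h Unit T 1 (by
    intro x
    refine ⟨1, ?_⟩
    apply Subtype.ext
    exact Subsingleton.elim _ _)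
  exact ⟨G', inferInstance, inferInstance, h', hh'⟩

theorem Formation.Emb.mul {A B : Formation} (hA : A.Emb) (hB : B.Emb) : (A * B).Emb := by
  intro G K _ _ _ _ g hg
  have hAB : ∀ (G : Type) [Group G] [Finite G],
      (A * B).res G = (A.res (B.res G)).map (B.res G).subtype := fun G _ _ => res_comp A B G
  -- the element of `A.res (B.res G)`
  have h1 : ∀ x : (A * B).res G, ∃ y : A.res (B.res G), ((y : B.res G) : G) = x := by
    intro x
    obtain ⟨y, hy, hy'⟩ := (hAB G).le x.2
    exact ⟨⟨y, hy⟩, hy'⟩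
  let e : (A * B).res G →* A.res (B.res G) :=
    { toFun := fun x => (h1 x).choose
      map_one' := by
        apply Subtype.ext
        apply Subtype.ext
        rw [(h1 1).choose_spec]
        rfl
      map_mul' := by
        intro x y
        apply Subtype.ext
        apply Subtype.ext
        rw [(h1 (x * y)).choose_spec]
        push_cast
        rw [(h1 x).choose_spec, (h1 y).choose_spec] }
  have he : ∀ x, (((e x : A.res (B.res G)) : B.res G) : G) = x := fun x => (h1 x).choose_spec
  have hes : Surjective e := by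
    intro y
    refine ⟨⟨y, ?_⟩, ?_⟩
    · rw [hAB]
      exact ⟨y, y.2, rfl⟩
    · apply Subtype.ext
      apply Subtype.ext
      rw [he]
  obtain ⟨G₁, _, _, f₁, hf₁, h₁, hh₁, hc₁⟩ := hA (B.res G) K (e.comp g) (hes.comp hg)
  obtain ⟨G₂, _, _, f₂, hf₂, h₂, hh₂, hc₂⟩ := hB G G₁ f₁ hf₁
  obtain ⟨φ, hφ, hφ'⟩ := exists_restrict h₂ (A.res (B.res G₂)) (A.res G₁) (A.map_res h₂ hh₂)
  let e' : A.res (B.res G₂) ≃* (A * B).res G₂ :=
    ((A.res (B.res G₂)).equivMapOfInjective _ (Subgroup.subtype_injective _)).trans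
      (MulEquiv.subgroupCongr (hAB G₂).symm)
  have he' : ∀ x, ((e' x : (A * B).res G₂) : G₂) = (x : B.res G₂) := fun x => rfl
  refine ⟨G₂, inferInstance, inferInstance, f₂, hf₂, (h₁.comp φ).comp e'.symm.toMonoidHom,
    (hh₁.comp hφ).comp e'.symm.surjective, ?_⟩
  intro z
  obtain ⟨z, rfl⟩ := e'.surjective z
  have h3 : (e'.symm.toMonoidHom (e' z)) = z := e'.symm_apply_apply z
  simp only [MonoidHom.comp_apply, h3]
  rw [he', ← hc₂, ← hφ', ← hc₁]
  simp only [MonoidHom.comp_apply, he]

/-- criterion for surjectivity onto `S × B.res G` -/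
theorem surj_of_simple {R S T : Type} [Group R] [Group S] [IsSimpleGroup S] [Group T]
    (h : R →* S × T) (hT : ∀ t, ∃ r, (h r).2 = t)
    (hN : ∀ r, (h r).2 = 1 → ∀ s : S, ∃ r', (h r').2 = 1 ∧ (h r').1 = s * (h r).1 * s⁻¹)
    (hne : ∃ r, (h r).2 = 1 ∧ (h r).1 ≠ 1) : Surjective h := by
  let N : Subgroup S :=
    { carrier := {s | ∃ r, (h r).2 = 1 ∧ (h r).1 = s}
      one_mem' := ⟨1, by simp, by simp⟩
      mul_mem' := by
        rintro a b ⟨r, hr, rfl⟩ ⟨r', hr', rfl⟩
        exact ⟨r * r', by simp [hr, hr'], by simp⟩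
      inv_mem' := by
        rintro a ⟨r, hr, rfl⟩
        exact ⟨r⁻¹, by simp [hr], by simp⟩ }
  have hNn : N.Normal := by
    constructor
    rintro a ⟨r, hr, rfl⟩ s
    obtain ⟨r', hr', hr''⟩ := hN r hr s
    exact ⟨r', hr', hr''⟩
  have hNt : N = ⊤ := by
    rcases hNn.eq_bot_or_eq_top with h1 | h1
    · exfalso
      obtain ⟨r, hr, hr'⟩ := hne
      have : (h r).1 ∈ N := ⟨r, hr, rfl⟩
      rw [h1, Subgroup.mem_bot] at this
      exact hr' this
    · exact h1
  rintro ⟨s, t⟩
  obtain ⟨r, hr⟩ := hT t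
  have : s * (h r).1⁻¹ ∈ N := by rw [hNt]; trivial
  obtain ⟨r', hr', hr''⟩ := this
  refine ⟨r' * r, ?_⟩
  apply Prod.ext
  · rw [map_mul, Prod.fst_mul, hr'']
    simp
  · rw [map_mul, Prod.snd_mul, hr', hr, one_mul]

/-- Direct products with simple groups. -/
theorem emb_simple {B : Formation} {S : Type} [Group S] [Finite S] [IsSimpleGroup S]
    (hS : B.Realised S) (G : Type) [Group G] [Finite G] :
    ∃ (G' : Type) (_ : Group G') (_ : Finite G') (f : G' →* G), Surjective f ∧
      ∃ h : B.res G' →* S × B.res G, Surjective h ∧ ∀ z : B.res G', (((h z).2 : B.res G) : G) =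
        f z := by
  obtain ⟨H, _, _, ρ, hρ⟩ := hS
  have hfst : (B.res (G × H)).map (MonoidHom.fst G H) = B.res G := B.map_res _ Prod.fst_surjective
  have hsnd : (B.res (G × H)).map (MonoidHom.snd G H) = B.res H := B.map_res _ Prod.snd_surjective
  obtain ⟨φ, hφ, hφ'⟩ := exists_restrict _ _ _ hfst
  obtain ⟨ψ, hψ, hψ'⟩ := exists_restrict _ _ _ hsnd
  by_cases hcomm : ∃ a b : S, a * b ≠ b * a
  · -- nonabelian
    refine ⟨G × H, inferInstance, inferInstance, MonoidHom.fst G H, Prod.fst_surjective,
      (ρ.comp ψ).prod φ, ?_, ?_⟩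
    · apply surj_of_simple
      · intro t
        obtain ⟨r, hr⟩ := hφ t
        exact ⟨r, hr⟩
      · intro r hr s
        obtain ⟨r', hr'⟩ := (hρ.comp hψ) s
        refine ⟨r' * r * r'⁻¹, ?_, ?_⟩
        · have hr2 : φ r = 1 := hr
          change φ (r' * r * r'⁻¹) = 1
          simp [hr2]
        · change ρ (ψ (r' * r * r'⁻¹)) = s * ρ (ψ r) * s⁻¹
          have hr'2 : ρ (ψ r') = s := hr'
          simp [hr'2]
      · obtain ⟨a, b, hab⟩ := hcomm
        obtain ⟨x, hx⟩ := (hρ.comp hψ) a
        obtain ⟨y, hy⟩ := (hρ.comp hψ) b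
        have hx' : ρ (ψ x) = a := hx
        have hy' : ρ (ψ y) = b := hy
        let c : G × H := (1, ((ψ y : B.res H) : H))
        have hc : (x : G × H) * (c * (x : G × H)⁻¹ * c⁻¹) ∈ B.res (G × H) :=
          Subgroup.mul_mem _ x.2 ((B.res_normal _).conj_mem _ (Subgroup.inv_mem _ x.2) _)
        refine ⟨⟨_, hc⟩, ?_, ?_⟩
        · change φ ⟨_, hc⟩ = 1
          apply Subtype.ext
          rw [hφ']
          change (x : G × H).1 * (1 * (x : G × H).1⁻¹ * 1⁻¹) = 1
          simp
        · change ρ (ψ ⟨_, hc⟩) ≠ 1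
          have h1 : ψ ⟨_, hc⟩ = ψ x * (ψ y * (ψ x)⁻¹ * (ψ y)⁻¹) := by
            apply Subtype.ext
            rw [hψ']
            have h2 := hψ' x
            push_cast
            rw [h2]
            rfl
          rw [h1]
          simp only [map_mul, map_inv, hx', hy']
          intro h3
          apply hab
          have h4 : a * b * a⁻¹ * b⁻¹ = 1 := by rw [← h3]; group
          have h5 : a * b = (a * b * a⁻¹ * b⁻¹) * (b * a) := by group
          rw [h5, h4, one_mul]
    · intro z
      exact hφ' z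
  · -- abelian
    push Not at hcomm
    let _ : CommGroup S := { (inferInstance : Group S) with mul_comm := hcomm }
    obtain ⟨k, hk⟩ : ∃ k, ρ (ψ k) ≠ 1 := by
      obtain ⟨s, hs⟩ := exists_ne (1 : S)
      obtain ⟨k, hk⟩ := (hρ.comp hψ) s
      exact ⟨k, by
        have hk' : ρ (ψ k) = s := hk
        rw [hk']
        exact hs⟩
    obtain ⟨θ, hθ, hθ'⟩ := exists_res_base B (B.res (G × H)) (ρ.comp ψ) k k.2
    let P := WrA (G × H) ((G × H) ⧸ B.res (G × H)) S
    have hpr : (B.res P).map WrA.pr = B.res (G × H) :=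
      B.map_res WrA.pr (fun x => ⟨⟨fun _ => 1, x⟩, rfl⟩)
    have hmem : ∀ z : B.res P, (z : P).x ∈ B.res (G × H) := by
      intro z
      exact hpr.le ⟨z, z.2, rfl⟩
    have hact : ∀ z : B.res P, ((z : P).x)⁻¹ • (((1 : G × H)) : (G × H) ⧸ B.res (G × H)) =
        (((1 : G × H)) : (G × H) ⧸ B.res (G × H)) := by
      intro z
      have h6 : ((z : P).x)⁻¹ • (((1 : G × H)) : (G × H) ⧸ B.res (G × H)) =
        ((((z : P).x)⁻¹ * 1 : G × H) : (G × H) ⧸ B.res (G × H)) := rfl
      rw [h6, QuotientGroup.eq]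
      simpa using hmem z
    let h₁ : B.res P →* S :=
      { toFun := fun z => (z : P).f (((1 : G × H)) : (G × H) ⧸ B.res (G × H))
        map_one' := rfl
        map_mul' := by
          intro a b
          change (a : P).f _ * (b : P).f (((a : P).x)⁻¹ • _) = _
          rw [hact a] }
    let h₂ : B.res P →* B.res (G × H) :=
      { toFun := fun z => ⟨(z : P).x, hmem z⟩
        map_one' := rfl
        map_mul' := by
          intro a b
          rfl }
    have hh₂ : Surjective h₂ := by
      rintro ⟨u, hu⟩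
      obtain ⟨w, hw, hwu⟩ := hpr.ge hu
      exact ⟨⟨w, hw⟩, Subtype.ext hwu⟩
    refine ⟨P, inferInstance, inferInstance, (MonoidHom.fst G H).comp WrA.pr, ?_,
      h₁.prod (φ.comp h₂), ?_, ?_⟩
    · exact Prod.fst_surjective.comp (fun x => ⟨⟨fun _ => 1, x⟩, rfl⟩)
    · apply surj_of_simple
      · intro t
        obtain ⟨r, hr⟩ := (hφ.comp hh₂) t
        exact ⟨r, hr⟩
      · intro r hr s
        refine ⟨r, hr, ?_⟩
        rw [hcomm s, mul_assoc, mul_inv_cancel, mul_one]
      · refine ⟨⟨_, hθ'⟩, ?_, ?_⟩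
        · change φ (h₂ ⟨_, hθ'⟩) = 1
          have h7 : h₂ ⟨_, hθ'⟩ = 1 := rfl
          rw [h7, map_one]
        · change θ _ ≠ 1
          rw [hθ]
          exact hk
    · intro z
      change ((φ (h₂ z) : B.res G) : G) = _
      rw [hφ']
      rfl

/-- step: minimal kernels -/
theorem emb_step {B : Formation}
    (hs : ∀ (S : Type) [Group S] [Finite S] [IsSimpleGroup S], B.Realised S)
    {G K : Type} [Group G] [Finite G] [Group K] [Finite K] (g : K →* B.res G) (hg : Surjective g)
    (hmin : ∀ N : Subgroup K, N.Normal → N ≤ g.ker → N = ⊥ ∨ N = g.ker) :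
    ∃ (G' : Type) (_ : Group G') (_ : Finite G') (f : G' →* G), Surjective f ∧
      ∃ h : B.res G' →* K, Surjective h ∧ ∀ z : B.res G', ((g (h z) : B.res G) : G) = f z := by
  by_cases hns : NonSup g.ker
  · obtain ⟨Γ, _, _, p, hp, e, he, he'⟩ := exists_coinduced (B.res G) (MonoidHom.id _)
      surjective_id g hg hns
    have hR : B.res Γ ≤ (B.res G).comap p := by
      rw [← Subgroup.map_le_iff_le_comap, B.map_res p hp]
    refine ⟨Γ, inferInstance, inferInstance, p, hp, e.comp (Subgroup.inclusion hR), ?_, ?_⟩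
    · intro h
      obtain ⟨w, hw, hw'⟩ := he' (B.res Γ) inferInstance hR (B.map_res p hp) h
      exact ⟨⟨w, hw⟩, hw'⟩
    · intro z
      rw [MonoidHom.comp_apply, he]
      rfl
  · obtain ⟨T, hT, hTs, hTt⟩ : ∃ T : Subgroup K, T.Normal ∧ T ⊔ g.ker = ⊤ ∧ T ≠ ⊤ := by
      unfold NonSup at hns
      push Not at hns
      exact hns
    have hbot : T ⊓ g.ker = ⊥ := by
      rcases hmin (T ⊓ g.ker) (Subgroup.normal_inf_normal T g.ker) inf_le_right with h1 | h1
      · exact h1
      · exfalso
        apply hTt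
        rw [← hTs]
        exact (sup_eq_left.mpr (inf_eq_right.mp h1)).symm
    have hsimple : IsSimpleGroup (K ⧸ T) := by
      have hnt : Nontrivial (K ⧸ T) := by
        rw [QuotientGroup.nontrivial_iff]
        exact hTt
      refine ⟨fun N hN => ?_⟩
      have h1 : (N.comap (QuotientGroup.mk' T)).Normal := hN.comap _
      have hle : T ≤ N.comap (QuotientGroup.mk' T) := by
        intro x hx
        rw [Subgroup.mem_comap]
        have : QuotientGroup.mk' T x = 1 := (QuotientGroup.eq_one_iff (N := T) x).mpr hx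
        rw [this]
        exact N.one_mem
      rcases hmin (N.comap (QuotientGroup.mk' T) ⊓ g.ker)
        (Subgroup.normal_inf_normal _ g.ker) inf_le_right with h2 | h2
      · left
        rw [eq_bot_iff]
        intro x hx
        obtain ⟨k, rfl⟩ := QuotientGroup.mk'_surjective T x
        have h3 : k ∈ T ⊔ g.ker := by rw [hTs]; trivial
        rw [Subgroup.mem_sup_of_normal_left] at h3
        obtain ⟨t, ht, r, hr, rfl⟩ := h3
        have h4 : r ∈ N.comap (QuotientGroup.mk' T) ⊓ g.ker := by
          refine ⟨?_, hr⟩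
          have h5 : t⁻¹ * (t * r) ∈ N.comap (QuotientGroup.mk' T) :=
            Subgroup.mul_mem _ (Subgroup.inv_mem _ (hle ht)) hx
          simpa using h5
        rw [h2, Subgroup.mem_bot] at h4
        rw [Subgroup.mem_bot, h4, mul_one]
        exact (QuotientGroup.eq_one_iff (N := T) t).mpr ht
      · right
        have h3 : g.ker ≤ N.comap (QuotientGroup.mk' T) := inf_eq_right.mp h2
        have h4 : N.comap (QuotientGroup.mk' T) = ⊤ := by
          rw [eq_top_iff, ← hTs]
          exact sup_le hle h3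
        rw [eq_top_iff]
        intro x _
        obtain ⟨k, rfl⟩ := QuotientGroup.mk'_surjective T x
        have : k ∈ N.comap (QuotientGroup.mk' T) := by rw [h4]; trivial
        exact this
    obtain ⟨G', _, _, f, hf, h, hh, hc⟩ := emb_simple (hs (K ⧸ T)) G
    let m : K →* (K ⧸ T) × B.res G := (QuotientGroup.mk' T).prod g
    have hm1 : Injective m := by
      rw [injective_iff_map_eq_one]
      intro x hx
      have hx1 : x ∈ T := (QuotientGroup.eq_one_iff (N := T) x).mp (congrArg Prod.fst hx)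
      have hx2 : x ∈ g.ker := congrArg Prod.snd hx
      have : x ∈ T ⊓ g.ker := ⟨hx1, hx2⟩
      rw [hbot] at this
      exact this
    have hm2 : Surjective m := by
      rintro ⟨a, b⟩
      obtain ⟨a, rfl⟩ := QuotientGroup.mk_surjective a
      obtain ⟨b, rfl⟩ := hg b
      have h1 : a⁻¹ * b ∈ T ⊔ g.ker := by rw [hTs]; trivial
      rw [Subgroup.mem_sup_of_normal_left] at h1
      obtain ⟨t, ht, r, hr, htr⟩ := h1
      refine ⟨a * t, Prod.ext ?_ ?_⟩
      · exact (QuotientGroup.eq.mpr (by simpa using T.inv_mem ht))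
      · change g (a * t) = g b
        have h2 : b = a * t * r := by
          rw [mul_assoc, htr]
          simp
        rw [h2, map_mul g (a * t) r, MonoidHom.mem_ker.mp hr, mul_one]
    let e : K ≃* (K ⧸ T) × B.res G := MulEquiv.ofBijective m ⟨hm1, hm2⟩
    refine ⟨G', inferInstance, inferInstance, f, hf, e.symm.toMonoidHom.comp h,
      e.symm.surjective.comp hh, ?_⟩
    intro z
    rw [← hc z]
    have h1 : e (e.symm (h z)) = h z := e.apply_symm_apply _
    have h2 : g (e.symm (h z)) = (h z).2 := congrArg Prod.snd h1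
    change ((g (e.symm (h z)) : B.res G) : G) = _
    rw [h2]

theorem emb_of_simple {B : Formation}
    (hs : ∀ (S : Type) [Group S] [Finite S] [IsSimpleGroup S], B.Realised S) : B.Emb := by
  have key : ∀ n : ℕ, ∀ (G K : Type) [Group G] [Finite G] [Group K] [Finite K]
      (g : K →* B.res G), Surjective g → Nat.card g.ker = n →
      ∃ (G' : Type) (_ : Group G') (_ : Finite G') (f : G' →* G), Surjective f ∧
        ∃ h : B.res G' →* K, Surjective h ∧
          ∀ z : B.res G', ((g (h z) : B.res G) : G) = f z := by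
    intro n
    induction n using Nat.strong_induction_on with
    | _ n ih =>
      intro G K _ _ _ _ g hg hn
      by_cases hk : ∀ N : Subgroup K, N.Normal → N ≤ g.ker → N = ⊥ ∨ N = g.ker
      · exact emb_step hs g hg hk
      · -- choose a minimal normal subgroup
        push Not at hk
        obtain ⟨N₀, hN₀, hN₀', hN₀'', hN₀'''⟩ := hk
        let 𝒮 : Set (Subgroup K) := {N | N.Normal ∧ N ≤ g.ker ∧ N ≠ ⊥}
        obtain ⟨R, hR⟩ := (Set.toFinite 𝒮).exists_minimal ⟨N₀, hN₀, hN₀', hN₀''⟩
        obtain ⟨hRn, hRle, hRne⟩ := hR.1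
        have hRmin : ∀ N : Subgroup K, N.Normal → N ≤ R → N = ⊥ ∨ N = R := by
          intro N hN hNR
          by_cases h1 : N = ⊥
          · exact Or.inl h1
          · exact Or.inr (le_antisymm hNR (hR.2 ⟨hN, hNR.trans hRle, h1⟩ hNR))
        let gb : K ⧸ R →* B.res G := QuotientGroup.lift R g (fun x hx => hRle hx)
        have hgb : ∀ x : K, gb (QuotientGroup.mk' R x) = g x := fun x => rfl
        have hgbs : Surjective gb := by
          intro b
          obtain ⟨x, hx⟩ := hg b
          exact ⟨QuotientGroup.mk' R x, hx⟩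
        have hcard : Nat.card gb.ker < n := by
          -- `g.ker → gb.ker` surjective with nontrivial kernel
          have h1 : ∃ ψ : g.ker →* gb.ker, Surjective ψ ∧ ∀ x, ((ψ x : gb.ker) : K ⧸ R) =
              QuotientGroup.mk' R x := by
            refine exists_restrict (QuotientGroup.mk' R) g.ker gb.ker ?_
            ext y
            constructor
            · rintro ⟨x, hx, rfl⟩
              exact hx
            · intro hy
              obtain ⟨x, rfl⟩ := QuotientGroup.mk'_surjective R y
              exact ⟨x, hy, rfl⟩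
          obtain ⟨ψ, hψ, hψ'⟩ := h1
          have h2 : Nat.card gb.ker ≤ Nat.card g.ker := Nat.card_le_card_of_surjective ψ hψ
          rcases h2.lt_or_eq with h3 | h3
          · rw [← hn]; exact h3
          · exfalso
            have h4 : Bijective ψ := (Nat.bijective_iff_surjective_and_card ψ).mpr ⟨hψ, h3.symm⟩
            apply hRne
            rw [eq_bot_iff]
            intro x hx
            have h5 : ψ ⟨x, hRle hx⟩ = 1 := by
              apply Subtype.ext
              rw [hψ']
              exact (QuotientGroup.eq_one_iff (N := R) x).mpr hx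
            have h6 : (⟨x, hRle hx⟩ : g.ker) = 1 := h4.1 (by rw [h5, map_one])
            exact congrArg Subtype.val h6
        obtain ⟨G₁, _, _, f₁, hf₁, h₁, hh₁, hc₁⟩ := ih _ hcard G (K ⧸ R) gb hgbs rfl
        -- the fibre product
        let K₁ : Subgroup (K × B.res G₁) :=
          { carrier := {a | QuotientGroup.mk' R a.1 = h₁ a.2}
            one_mem' := by simp
            mul_mem' := by
              intro a b ha hb
              have ha' : QuotientGroup.mk' R a.1 = h₁ a.2 := ha
              have hb' : QuotientGroup.mk' R b.1 = h₁ b.2 := hb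
              change QuotientGroup.mk' R (a.1 * b.1) = h₁ (a.2 * b.2)
              rw [map_mul, map_mul, ha', hb']
            inv_mem' := by
              intro a ha
              have ha' : QuotientGroup.mk' R a.1 = h₁ a.2 := ha
              change QuotientGroup.mk' R (a.1⁻¹) = h₁ (a.2⁻¹)
              rw [map_inv, map_inv, ha'] }
        let p₁ : K₁ →* K := (MonoidHom.fst K (B.res G₁)).comp K₁.subtype
        let p₂ : K₁ →* B.res G₁ := (MonoidHom.snd K (B.res G₁)).comp K₁.subtype
        have hp : ∀ a : K₁, QuotientGroup.mk' R (p₁ a) = h₁ (p₂ a) := fun a => a.2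
        have hp₁ : Surjective p₁ := by
          intro k
          obtain ⟨b, hb⟩ := hh₁ (QuotientGroup.mk' R k)
          exact ⟨⟨(k, b), hb.symm⟩, rfl⟩
        have hp₂ : Surjective p₂ := by
          intro b
          obtain ⟨k, hk⟩ := QuotientGroup.mk'_surjective R (h₁ b)
          exact ⟨⟨(k, b), hk⟩, rfl⟩
        have hinj : ∀ a : K₁, p₁ a = 1 → p₂ a = 1 → a = 1 := by
          intro a h1 h2
          apply Subtype.ext
          exact Prod.ext h1 h2
        obtain ⟨G₂, _, _, f₂, hf₂, h₂, hh₂, hc₂⟩ := emb_step hs p₂ hp₂ (by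
          intro N hN hNle
          have hmap : (N.map p₁).Normal := hN.map _ hp₁
          have hmaple : N.map p₁ ≤ R := by
            rintro _ ⟨a, ha, rfl⟩
            have h1 : p₂ a = 1 := hNle ha
            have h2 := hp a
            rw [h1, map_one] at h2
            exact (QuotientGroup.eq_one_iff (N := R) _).mp h2
          rcases hRmin _ hmap hmaple with h1 | h1
          · left
            rw [eq_bot_iff]
            intro a ha
            apply hinj a
            · have : p₁ a ∈ N.map p₁ := ⟨a, ha, rfl⟩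
              rw [h1] at this
              exact this
            · exact hNle ha
          · right
            apply le_antisymm hNle
            intro a ha
            have ha' : p₂ a = 1 := ha
            have h2 : p₁ a ∈ N.map p₁ := by
              rw [h1]
              have h3 := hp a
              rw [ha', map_one] at h3
              exact (QuotientGroup.eq_one_iff (N := R) _).mp h3
            obtain ⟨b, hb, hb'⟩ := h2
            have h4 : a = b := by
              have h5 : a * b⁻¹ = 1 := by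
                apply hinj
                · rw [map_mul, map_inv, hb', mul_inv_cancel]
                · have hb2 : p₂ b = 1 := hNle hb
                  rw [map_mul, map_inv, ha', hb2]
                  simp
              exact mul_inv_eq_one.mp h5
            rw [h4]
            exact hb)
        refine ⟨G₂, inferInstance, inferInstance, f₁.comp f₂, hf₁.comp hf₂, p₁.comp h₂,
          hp₁.comp hh₂, ?_⟩
        intro z
        have h1 : g (p₁ (h₂ z)) = gb (h₁ (p₂ (h₂ z))) := by
          rw [← hp, hgb]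
        change ((g (p₁ (h₂ z)) : B.res G) : G) = f₁ (f₂ z)
        rw [h1, hc₁, hc₂]
  intro G K _ _ _ _ g hg
  exact key _ G K g hg rfl

theorem Formation.Indecomposable.emb {B : Formation} (hB : B.Indecomposable) : B.Emb := by
  apply emb_of_simple
  intro S _ _ _
  by_contra hcon
  have h : B = esForm S * B := by
    apply ext'
    intro G _
    constructor
    · intro h
      have := B.finite_of_mem h
      refine ⟨inferInstance, ?_⟩
      rw [B.mem_iff_res_eq_bot.mp h]
      exact Formation.mem_of_subsingleton _ _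
    · rintro ⟨hG, h⟩
      rw [B.mem_iff_res_eq_bot]
      by_contra hne
      have hnt : Nontrivial (B.res G) := (Subgroup.nontrivial_iff_ne_bot _).mpr hne
      obtain ⟨ψ, hψ⟩ := ES.exists_surjective h hnt
      exact hcon ⟨G, inferInstance, inferInstance, ψ, hψ⟩
  rcases hB.2 _ _ h with h1 | h1
  · exact esForm_ne_one S h1
  · exact hB.1 h1

end Pool.Agent.Lib_helper5.Form
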