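import Pool.Agent.Lib_helper5.FormObj

/-!
# Block FULL-1
-/

set_option maxHeartbeats 1000000

namespace Pool.Agent.Lib_helper5.Form

open Function

/-- Every proper normal subgroup of a finite group is contained in a normal subgroup with simple
quotient. -/
theorem exists_simple_quotient {G : Type} [Group G] [Finite G] (D : Subgroup G) [hD : D.Normal]
    (hne : D ≠ ⊤) : ∃ M : Subgroup G, D ≤ M ∧ ∃ _ : M.Normal, IsSimpleGroup (G ⧸ M) := by
  classical
  obtain ⟨M, ⟨hM1, hM2, hM3⟩, hmax⟩ := (wellFounded_gt (α := Subgroup G)).has_min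
    {M | M.Normal ∧ D ≤ M ∧ M ≠ ⊤} ⟨D, hD, le_rfl, hne⟩
  refine ⟨M, hM2, hM1, ?_⟩
  have hnt : Nontrivial (G ⧸ M) := by
    obtain ⟨g, hg⟩ : ∃ g, g ∉ M := by
      by_contra hc
      push Not at hc
      exact hM3 (Subgroup.eq_top_iff' M |>.mpr hc)
    refine ⟨(g : G ⧸ M), 1, fun h => hg ?_⟩
    exact (QuotientGroup.eq_one_iff g).mp h
  refine { hnt with eq_bot_or_eq_top_of_normal := fun N hN => ?_ }
  have hle : M ≤ N.comap (QuotientGroup.mk' M) := by
    intro m hm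
    rw [Subgroup.mem_comap, QuotientGroup.mk'_apply, (QuotientGroup.eq_one_iff m).mpr hm]
    exact N.one_mem
  by_cases htop : N.comap (QuotientGroup.mk' M) = ⊤
  · right
    rw [Subgroup.eq_top_iff']
    intro x
    obtain ⟨g, rfl⟩ := QuotientGroup.mk'_surjective M x
    have : g ∈ N.comap (QuotientGroup.mk' M) := by rw [htop]; trivial
    exact this
  · left
    have h1 := hmax (N.comap (QuotientGroup.mk' M)) ⟨inferInstance, hM2.trans hle, htop⟩
    have h2 : N.comap (QuotientGroup.mk' M) = M := by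
      by_contra hne'
      exact h1 (lt_of_le_of_ne hle (Ne.symm hne'))
    rw [Subgroup.eq_bot_iff_forall]
    intro x hx
    obtain ⟨g, rfl⟩ := QuotientGroup.mk'_surjective M x
    have : g ∈ N.comap (QuotientGroup.mk' M) := hx
    rw [h2] at this
    exact (QuotientGroup.eq_one_iff g).mpr this

section Step

variable {J X R C V : Type} [Group J] [Group X] [Group R] [Group C] [CommGroup V]

/-- The homomorphism of `C_q` given by an element of order dividing `q`. -/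
def zeta (q : ℕ) [NeZero q] (v : V) (hv : v ^ q = 1) : Cyc q →* V :=
  MonoidHom.mk' (fun c => v ^ (ZMod.val (Multiplicative.toAdd c))) (by
    intro a b
    rw [toAdd_mul, ZMod.val_add, ← pow_eq_pow_mod _ hv, pow_add])

theorem zeta_apply (q : ℕ) [NeZero q] (v : V) (hv : v ^ q = 1) (c : Cyc q) :
    zeta q v hv c = v ^ (ZMod.val (Multiplicative.toAdd c)) := rfl

theorem mem_of_zeta_mem (q : ℕ) [Fact q.Prime] (v : V) (hv : v ^ q = 1) {c : Cyc q} (hc : c ≠ 1)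
    (D : Subgroup V) (h : zeta q v hv c ∈ D) : v ∈ D := by
  have hc' : Multiplicative.toAdd c ≠ 0 := hc
  have h1 : (zeta q v hv c) ^ (ZMod.val (Multiplicative.toAdd c)⁻¹) = v := by
    rw [← map_pow]
    have h2 : c ^ (ZMod.val (Multiplicative.toAdd c)⁻¹) = Multiplicative.ofAdd (1 : ZMod q) := by
      apply Multiplicative.toAdd.injective
      rw [toAdd_pow, toAdd_ofAdd, nsmul_eq_mul, ZMod.natCast_zmod_val, inv_mul_cancel₀ hc']
    have : Fact (1 < q) := ⟨(Fact.out : q.Prime).one_lt⟩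
    rw [h2, zeta_apply, toAdd_ofAdd, ZMod.val_one, pow_one]
  rw [← h1]
  exact D.pow_mem h _

/-- The homomorphism `Λ`. -/
def Lam (κ : J →* R) (p : X →* J) (r : X → V)
    (hr : ∀ a b, κ (p a) = 1 → κ (p b) = 1 → r (a * b) = r a * r b)
    (s : R → X) (hs : ∀ w, κ (p (s w)) = w) : X →* Wr κ V :=
  MonoidHom.mk' (fun l => ⟨fun w => r ((s w)⁻¹ * l * s ((κ (p l))⁻¹ * w)), p l⟩) (by
    intro a b
    apply Wr.ext
    · funext w
      have h1 : κ (p ((s w)⁻¹ * a * s ((κ (p a))⁻¹ * w))) = 1 := by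
        rw [map_mul, map_mul, map_mul, map_mul, map_inv, map_inv, hs, hs]
        group
      have h2 : κ (p ((s ((κ (p a))⁻¹ * w))⁻¹ * b *
          s ((κ (p b))⁻¹ * ((κ (p a))⁻¹ * w)))) = 1 := by
        rw [map_mul, map_mul, map_mul, map_mul, map_inv, map_inv, hs, hs]
        group
      rw [Wr.mul_f, ← hr _ _ h1 h2]
      rw [map_mul, map_mul, mul_inv_rev]
      group
    · rw [Wr.mul_x, map_mul])

theorem Lam_f (κ : J →* R) (p : X →* J) (r : X → V)
    (hr : ∀ a b, κ (p a) = 1 → κ (p b) = 1 → r (a * b) = r a * r b)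
    (s : R → X) (hs : ∀ w, κ (p (s w)) = w) (l : X) (w : R) :
    (Lam κ p r hr s hs l).f w = r ((s w)⁻¹ * l * s ((κ (p l))⁻¹ * w)) := rfl

theorem Lam_x (κ : J →* R) (p : X →* J) (r : X → V)
    (hr : ∀ a b, κ (p a) = 1 → κ (p b) = 1 → r (a * b) = r a * r b)
    (s : R → X) (hs : ∀ w, κ (p (s w)) = w) (l : X) :
    (Lam κ p r hr s hs l).x = p l := rfl

/-- The shear of a function. -/
def shear {q : ℕ} (ζ : Cyc q →* V) (w : R) (φ : R → Cyc q) : R → V :=
  fun b => ζ (φ b) * (ζ (φ (b * w)))⁻¹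

theorem shear_mul {q : ℕ} (ζ : Cyc q →* V) (w : R) (φ ψ : R → Cyc q) (b : R) :
    shear ζ w (φ * ψ) b = shear ζ w φ b * shear ζ w ψ b := by
  simp only [shear, Pi.mul_apply, map_mul, mul_inv]
  ac_rfl

theorem shear_one {q : ℕ} (ζ : Cyc q →* V) (w : R) (b : R) :
    shear ζ w (1 : R → Cyc q) b = 1 := by
  simp [shear]

/-- The step lemma. -/
theorem full_step (𝒳 : MarkSys) [Finite X] (x : 𝒳.Mk J) (κ : J →* R) (hκ : Surjective κ)
    (hker : ∀ j, κ j = 1 ↔ j ∈ 𝒳.Z x) (W : Subgroup R) (p : X →* J) (hp : Surjective p)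
    (r : X → V) (hr : ∀ a b, κ (p a) = 1 → κ (p b) = 1 → r (a * b) = r a * r b)
    (q : ℕ) [hq : Fact q.Prime] (hgood : Good 𝒳 x κ W q) (v : V)
    (hsupp : ∀ w ∈ W, w ≠ 1 → ∃ φ : X, p φ = 1 ∧ ∀ t : X,
        (κ (p t) = 1 → r (t⁻¹ * φ * t) = v) ∧
        (κ (p t) = w → r (t⁻¹ * φ * t) = v⁻¹) ∧
        (κ (p t) ≠ 1 → κ (p t) ≠ w → r (t⁻¹ * φ * t) = 1))
    (k : ℕ) (hk : (v ^ k) ^ q = 1) (y : 𝒳.Mk X) (hy : 𝒳.Cov p y x) :
    ∃ y' : 𝒳.Mk X, 𝒳.Cov p y' x ∧ (∀ z ∈ 𝒳.Z y, ∃ z' ∈ 𝒳.Z y', r z' = r z) ∧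
      ∃ z' ∈ 𝒳.Z y', r z' = v ^ k := by
  classical
  have hfinR : Finite R := Finite.of_surjective (κ.comp p) (hκ.comp hp)
  obtain ⟨s, hs, hs1⟩ := exists_section (κ.comp p) (hκ.comp hp)
  have hs' : ∀ w, κ (p (s w)) = w := hs
  let Λ : X →* Wr κ V := Lam κ p r hr s hs'
  have hr1 : r 1 = 1 := by
    have := hr 1 1 (by simp) (by simp)
    rw [mul_one] at this
    exact (left_eq_mul.mp this)
  have hrpow : ∀ a, κ (p a) = 1 → ∀ m : ℕ, r (a ^ m) = r a ^ m := by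
    intro a ha m
    induction m with
    | zero => rw [pow_zero, pow_zero, hr1]
    | succ m ih =>
      rw [pow_succ, pow_succ, hr _ _ (by rw [map_pow, map_pow, ha, one_pow]) ha, ih]
  let Xb : Subgroup (Wr κ V) := Λ.range
  let Λ' : X →* Xb := Λ.rangeRestrict
  have hΛ' : Surjective Λ' := Λ.rangeRestrict_surjective
  let pb : Xb →* J := Wr.pr.comp Xb.subtype
  have hpb : pb.comp Λ' = p := by
    ext l
    rfl
  obtain ⟨yb, hyb, hpush⟩ := 𝒳.push Λ' y hΛ'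
  have hyb' : 𝒳.Cov pb yb x := hpush pb x (by rw [hpb]; exact hy)
  obtain ⟨y', hy', φ, hφ, a, w, hw, hne⟩ := hgood Xb pb yb hyb'
  have hw1 : w ≠ 1 := by
    rintro rfl
    rw [mul_one] at hne
    exact hne rfl
  let ζ := zeta q (v ^ k) hk
  -- shears belong to the range
  have hmem : ∀ ψ : R → Cyc q, (⟨shear ζ w ψ, 1⟩ : Wr κ V) ∈ Xb := by
    let M : Subgroup (R → Cyc q) :=
      { carrier := {ψ | (⟨shear ζ w ψ, 1⟩ : Wr κ V) ∈ Xb}
        mul_mem' := by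
          intro ψ ψ' h h'
          have h1 := Xb.mul_mem h h'
          rw [Set.mem_ofPred_eq]
          convert h1 using 1
          apply Wr.ext
          · funext b
            show shear ζ w (ψ * ψ') b = shear ζ w ψ b * shear ζ w ψ' ((κ 1)⁻¹ * b)
            rw [map_one, inv_one, one_mul, shear_mul]
          · simp
        one_mem' := by
          rw [Set.mem_ofPred_eq]
          convert Xb.one_mem using 1
          apply Wr.ext
          · funext b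
            exact shear_one ζ w b
          · rfl
        inv_mem' := by
          intro ψ h
          have h1 := Xb.inv_mem h
          rw [Set.mem_ofPred_eq]
          convert h1 using 1
          apply Wr.ext
          · funext b
            show shear ζ w ψ⁻¹ b = (shear ζ w ψ (κ 1 * b))⁻¹
            rw [map_one, one_mul]
            simp only [shear, Pi.inv_apply, map_inv, mul_inv, inv_inv]
          · simp }
    intro ψ
    show ψ ∈ M
    apply Subgroup.pi_mem_of_mulSingle_mem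
    intro i
    show (⟨shear ζ w (Pi.mulSingle i (ψ i)), 1⟩ : Wr κ V) ∈ Xb
    obtain ⟨φ₀, hφ₀, hφ₁⟩ := hsupp w⁻¹ (W.inv_mem hw) (inv_ne_one.mpr hw1)
    have hpφ : ∀ t, κ (p (t⁻¹ * φ₀ * t)) = 1 := by
      intro t
      rw [map_mul p, map_mul p, hφ₀, mul_one, map_inv p, inv_mul_cancel, map_one]
    let e : ℕ := k * ZMod.val (Multiplicative.toAdd (ψ i))
    have hζ : ζ (ψ i) = v ^ e := by
      rw [pow_mul]
      rfl
    refine ⟨s i * φ₀ ^ e * (s i)⁻¹, ?_⟩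
    apply Wr.ext
    · funext b
      have h0 : (Λ (s i * φ₀ ^ e * (s i)⁻¹)).f b = r (((s i)⁻¹ * s b)⁻¹ * φ₀ * ((s i)⁻¹ * s b)) ^ e := by
        show r _ = _
        rw [← hrpow _ (hpφ _)]
        congr 1
        have h1 : p (s i * φ₀ ^ e * (s i)⁻¹) = 1 := by
          rw [map_mul, map_mul, map_pow, hφ₀, map_inv]
          simp
        rw [h1, map_one, inv_one, one_mul]
        have h2 : (((s i)⁻¹ * s b)⁻¹ * φ₀ * ((s i)⁻¹ * s b)) ^ e =
            ((s i)⁻¹ * s b)⁻¹ * φ₀ ^ e * ((s i)⁻¹ * s b) := by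
          have := conj_pow (i := e) (a := ((s i)⁻¹ * s b)⁻¹) (b := φ₀)
          rwa [inv_inv] at this
        rw [h2]
        group
      have hκt : κ (p ((s i)⁻¹ * s b)) = i⁻¹ * b := by
        rw [map_mul, map_mul, map_inv, map_inv, hs', hs']
      rw [h0]
      obtain ⟨c1, c2, c3⟩ := hφ₁ ((s i)⁻¹ * s b)
      rw [hκt] at c1 c2 c3
      show _ = ζ _ * (ζ _)⁻¹
      by_cases hb : b = i
      · subst hb
        rw [c1 (by simp), Pi.mulSingle_eq_same, Pi.mulSingle_eq_of_ne (by simpa using hw1),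
          map_one, inv_one, mul_one, hζ]
      · by_cases hbw : b * w = i
        · subst hbw
          rw [c2 (by group), Pi.mulSingle_eq_same, Pi.mulSingle_eq_of_ne hb, map_one, one_mul,
            hζ, inv_pow]
        · rw [c3 (by
              intro h
              apply hb
              rw [inv_mul_eq_one] at h
              exact h.symm) (by
              intro h
              apply hbw
              rw [inv_mul_eq_iff_eq_mul] at h
              rw [h]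
              group), Pi.mulSingle_eq_of_ne hb, Pi.mulSingle_eq_of_ne hbw, map_one, one_pow]
          simp
    · show p (s i * φ₀ ^ e * (s i)⁻¹) = 1
      rw [map_mul, map_mul, map_pow, hφ₀, map_inv]
      simp
  -- the shear homomorphism
  let σ : Wr (κ.comp pb) (Cyc q) →* Xb := MonoidHom.mk'
    (fun P => ⟨⟨shear ζ w P.f, 1⟩, hmem P.f⟩ * P.x) (by
      intro P P'
      apply Subtype.ext
      apply Wr.ext
      · funext b
        simp only [Subgroup.coe_mul, Wr.mul_f, Wr.mul_x, map_one, inv_one, one_mul]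
        have hκ' : (κ.comp pb) P.x = κ (P.x : Wr κ V).x := rfl
        have h1 : shear ζ w (P * P').f b =
            shear ζ w P.f b * shear ζ w P'.f ((κ (P.x : Wr κ V).x)⁻¹ * b) := by
          simp only [shear, Wr.mul_f, map_mul, mul_inv, hκ', mul_assoc]
          ac_rfl
        rw [h1]
        ac_rfl
      · simp)
  have hσf : ∀ P b, (σ P : Wr κ V).f b = shear ζ w P.f b * (P.x : Wr κ V).f b := by
    intro P b
    show shear ζ w P.f b * (P.x : Wr κ V).f ((κ 1)⁻¹ * b) = _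
    rw [map_one, inv_one, one_mul]
  have hσx : ∀ P, (σ P : Wr κ V).x = (P.x : Wr κ V).x := by
    intro P
    show 1 * (P.x : Wr κ V).x = _
    rw [one_mul]
  have hσ : Surjective σ := by
    intro g
    refine ⟨⟨1, g⟩, ?_⟩
    apply Subtype.ext
    apply Wr.ext
    · funext b
      rw [hσf, shear_one, one_mul]
    · rw [hσx]
  obtain ⟨zb, hzb, hpush'⟩ := 𝒳.push σ y' hσ
  have hpbσ : pb.comp σ = pb.comp Wr.pr := by
    ext P
    exact hσx P
  have hzb' : 𝒳.Cov pb zb x := hpush' pb x (by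
    rw [hpbσ]
    exact 𝒳.comp hyb' hy')
  obtain ⟨y₂, hy₂⟩ := 𝒳.lift Λ' zb hΛ'
  have hy₂x : 𝒳.Cov p y₂ x := by
    have := 𝒳.comp hzb' hy₂
    rwa [hpb] at this
  -- elements of the marked subgroups
  have hZ : ∀ (u : 𝒳.Mk X), 𝒳.Cov p u x → ∀ z ∈ 𝒳.Z u, κ (p z) = 1 := by
    intro u hu z hz
    rw [hker, ← 𝒳.map_Z hu]
    exact ⟨z, hz, rfl⟩
  have hev : ∀ l, κ (p l) = 1 → (Λ l).f 1 = r l := by
    intro l hl
    show r ((s 1)⁻¹ * l * s ((κ (p l))⁻¹ * 1)) = r l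
    rw [hl, inv_one, mul_one, hs1, inv_one, one_mul, mul_one]
  let D : Subgroup V :=
    { carrier := {u | ∃ z ∈ 𝒳.Z y₂, r z = u}
      mul_mem' := by
        rintro _ _ ⟨z, hz, rfl⟩ ⟨z', hz', rfl⟩
        exact ⟨z * z', (𝒳.Z y₂).mul_mem hz hz', hr _ _ (hZ _ hy₂x _ hz) (hZ _ hy₂x _ hz')⟩
      one_mem' := ⟨1, (𝒳.Z y₂).one_mem, hr1⟩
      inv_mem' := by
        rintro _ ⟨z, hz, rfl⟩
        refine ⟨z⁻¹, (𝒳.Z y₂).inv_mem hz, ?_⟩
        have h1 := hr z z⁻¹ (hZ _ hy₂x _ hz) (hZ _ hy₂x _ ((𝒳.Z y₂).inv_mem hz))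
        rw [mul_inv_cancel, hr1] at h1
        exact eq_inv_of_mul_eq_one_right h1.symm }
  have hDσ : ∀ P ∈ 𝒳.Z y', (σ P : Wr κ V).f 1 ∈ D := by
    intro P hP
    have h1 : σ P ∈ 𝒳.Z zb := by
      rw [← 𝒳.map_Z hzb]
      exact ⟨P, hP, rfl⟩
    rw [← 𝒳.map_Z hy₂] at h1
    obtain ⟨z, hz, hzP⟩ := h1
    refine ⟨z, hz, ?_⟩
    rw [← hev z (hZ _ hy₂x _ hz)]
    have := congrArg (fun g : Xb => (g : Wr κ V).f 1) hzP
    exact this
  have hvD : v ^ k ∈ D := by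
    let P₀ : Wr (κ.comp pb) (Cyc q) := ⟨1, Λ' (s a⁻¹)⟩
    have h1 := (𝒳.normal y').conj_mem _ hφ P₀
    have h2 := hDσ _ h1
    rw [hσf] at h2
    have h3 : ((P₀ * ⟨φ, 1⟩ * P₀⁻¹ : Wr (κ.comp pb) (Cyc q)).x : Wr κ V).f 1 = 1 := by
      have : (P₀ * ⟨φ, 1⟩ * P₀⁻¹ : Wr (κ.comp pb) (Cyc q)).x = 1 := by
        simp
      rw [this]
      rfl
    rw [h3, mul_one] at h2
    have h4 : ∀ b, (P₀ * ⟨φ, 1⟩ * P₀⁻¹ : Wr (κ.comp pb) (Cyc q)).f b = φ (a * b) := by
      intro b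
      have h5 : (κ.comp pb) (Λ' (s a⁻¹)) = a⁻¹ := hs' a⁻¹
      simp only [Wr.mul_f, Wr.inv_f, Wr.mul_x, P₀, Pi.one_apply, one_mul, inv_one, mul_one, h5,
        inv_inv]
    unfold shear at h2
    rw [h4, h4, mul_one, one_mul, ← map_inv, ← map_mul] at h2
    apply mem_of_zeta_mem q (v ^ k) hk ?_ D h2
    intro h
    rw [mul_inv_eq_one] at h
    exact hne h.symm
  refine ⟨y₂, hy₂x, ?_, hvD⟩
  intro z hz
  have h1 : Λ' z ∈ 𝒳.Z yb := by
    rw [← 𝒳.map_Z hyb]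
    exact ⟨z, hz, rfl⟩
  rw [← 𝒳.map_Z hy'] at h1
  obtain ⟨P, hP, hPz⟩ := h1
  have h2 := hDσ P hP
  rw [hσf] at h2
  have h3 : (P.x : Wr κ V).f 1 = r z := by
    rw [← hev z (hZ _ hy _ hz)]
    have := congrArg (fun g : Xb => (g : Wr κ V).f 1) hPz
    exact this
  have h4 : ∀ c, ζ c ∈ D := by
    intro c
    exact D.pow_mem hvD _
  have h5 : shear ζ w P.f 1 ∈ D := D.mul_mem (h4 _) (D.inv_mem (h4 _))
  rw [h3] at h2
  have h6 : r z ∈ D := (Subgroup.mul_mem_cancel_left D h5).mp h2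
  exact h6

end Step

/-- Block FULL-1. -/
theorem exists_full (𝒳 : MarkSys) {J X R C : Type} [Group J] [Group X] [Group R] [Group C]
    [Finite X] (x : 𝒳.Mk J) (κ : J →* R) (hκ : Surjective κ) (hker : ∀ j, κ j = 1 ↔ j ∈ 𝒳.Z x)
    (W : Subgroup R) (p : X →* J) (hp : Surjective p) (ρ : X → C)
    (hρ : ∀ a b, κ (p a) = 1 → κ (p b) = 1 → ρ (a * b) = ρ a * ρ b)
    (hρs : ∀ c, ∃ a, κ (p a) = 1 ∧ ρ a = c)
    (hgood : ∀ q : ℕ, q.Prime → q ∣ Nat.card p.ker → Good 𝒳 x κ W q)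
    (hna : ∀ y : 𝒳.Mk X, 𝒳.Cov p y x → ∀ (S : Type) [Group S] [IsSimpleGroup S],
      (∃ a b : S, a * b ≠ b * a) → ∀ θ : C →* S, Surjective θ → ¬ ∀ z ∈ 𝒳.Z y, θ (ρ z) = 1)
    (hsupp : ∀ (V : Type) [CommGroup V] (lam : C →* V), ∃ T : Set V,
      (∀ l, p l = 1 → lam (ρ l) ∈ Subgroup.closure T) ∧
      ∀ v ∈ T, ∀ w ∈ W, w ≠ 1 → ∃ φ : X, p φ = 1 ∧ ∀ t : X,
        (κ (p t) = 1 → lam (ρ (t⁻¹ * φ * t)) = v) ∧
        (κ (p t) = w → lam (ρ (t⁻¹ * φ * t)) = v⁻¹) ∧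
        (κ (p t) ≠ 1 → κ (p t) ≠ w → lam (ρ (t⁻¹ * φ * t)) = 1)) :
    ∃ y : 𝒳.Mk X, 𝒳.Cov p y x ∧ ∀ c, ∃ z ∈ 𝒳.Z y, ρ z = c := by
  classical
  have hZ : ∀ (u : 𝒳.Mk X), 𝒳.Cov p u x → ∀ z ∈ 𝒳.Z u, κ (p z) = 1 := by
    intro u hu z hz
    rw [hker, ← 𝒳.map_Z hu]
    exact ⟨z, hz, rfl⟩
  have hρ1 : ρ 1 = 1 := by
    have := hρ 1 1 (by simp) (by simp)
    rw [mul_one] at this
    exact (left_eq_mul.mp this)
  have hρinv : ∀ a, κ (p a) = 1 → ρ a⁻¹ = (ρ a)⁻¹ := by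
    intro a ha
    have h1 := hρ a a⁻¹ ha (by rw [map_inv, map_inv, ha, inv_one])
    rw [mul_inv_cancel, hρ1] at h1
    exact eq_inv_of_mul_eq_one_right h1.symm
  have hC : Finite C := by
    refine Finite.of_surjective (fun a : X => if κ (p a) = 1 then ρ a else 1) fun c => ?_
    obtain ⟨a, ha, hac⟩ := hρs c
    refine ⟨a, ?_⟩
    simp only [ha, if_true]
    exact hac
  let n : ℕ := UniqueFactorizationMonoid.radical (Nat.card p.ker)
  have hcard0 : Nat.card p.ker ≠ 0 := Nat.card_pos.ne'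
  have hndvd : n ∣ Nat.card p.ker := UniqueFactorizationMonoid.radical_dvd_self
  have hnsq : Squarefree n := UniqueFactorizationMonoid.squarefree_radical
  have hn0 : n ≠ 0 := fun h => hcard0 (by
    rw [h] at hndvd
    exact Nat.eq_zero_of_zero_dvd hndvd)
  have hprime : ∀ q : ℕ, q.Prime → q ∣ Nat.card p.ker → q ∣ n := by
    intro q hq hqd
    exact (UniqueFactorizationMonoid.dvd_radical_iff hq.prime.isRadical hcard0).mpr hqd
  let V : Type := Abelianization C ⧸ (powMonoidHom n : Abelianization C →* Abelianization C).range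
  let lam : C →* V := (QuotientGroup.mk' _).comp Abelianization.of
  have hlam : Surjective lam := by
    intro v
    obtain ⟨u, rfl⟩ := QuotientGroup.mk'_surjective _ v
    obtain ⟨c, rfl⟩ := QuotientGroup.mk_surjective u
    exact ⟨c, rfl⟩
  have hVfin : Finite V := Finite.of_surjective lam hlam
  have hVn : ∀ v : V, v ^ n = 1 := by
    intro v
    obtain ⟨u, rfl⟩ := QuotientGroup.mk'_surjective _ v
    rw [← map_pow]
    exact (QuotientGroup.eq_one_iff _).mpr ⟨u, rfl⟩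
  let r : X → V := fun a => lam (ρ a)
  have hr : ∀ a b, κ (p a) = 1 → κ (p b) = 1 → r (a * b) = r a * r b := by
    intro a b ha hb
    show lam _ = lam _ * lam _
    rw [hρ a b ha hb, map_mul]
  obtain ⟨T, hT1, hT2⟩ := hsupp V lam
  -- a marking with maximal image
  obtain ⟨D, ⟨y, hy, hD⟩, hmax⟩ := (wellFounded_gt (α := Subgroup V)).has_min
    {D | ∃ y : 𝒳.Mk X, 𝒳.Cov p y x ∧ ∀ v, v ∈ D ↔ ∃ z ∈ 𝒳.Z y, r z = v} (by
      obtain ⟨y, hy⟩ := 𝒳.lift p x hp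
      refine ⟨{ carrier := {v | ∃ z ∈ 𝒳.Z y, r z = v}
                mul_mem' := ?_, one_mem' := ?_, inv_mem' := ?_ }, y, hy, fun v => Iff.rfl⟩
      · rintro _ _ ⟨z, hz, rfl⟩ ⟨z', hz', rfl⟩
        exact ⟨z * z', (𝒳.Z y).mul_mem hz hz', hr _ _ (hZ _ hy _ hz) (hZ _ hy _ hz')⟩
      · refine ⟨1, (𝒳.Z y).one_mem, ?_⟩
        show lam (ρ 1) = 1
        rw [hρ1, map_one]
      · rintro _ ⟨z, hz, rfl⟩
        refine ⟨z⁻¹, (𝒳.Z y).inv_mem hz, ?_⟩
        show lam (ρ z⁻¹) = (lam (ρ z))⁻¹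
        rw [hρinv _ (hZ _ hy _ hz), map_inv])
  have hsplit : ∀ a, κ (p a) = 1 → ∃ z ∈ 𝒳.Z y, ∃ b, p b = 1 ∧ a = z * b := by
    intro a ha
    rw [hker, ← 𝒳.map_Z hy] at ha
    obtain ⟨z, hz, hza⟩ := ha
    exact ⟨z, hz, z⁻¹ * a, by rw [map_mul, map_inv, hza, inv_mul_cancel], by group⟩
  have hDtop : D = ⊤ := by
    by_contra hne
    obtain ⟨v, hvT, hvD⟩ : ∃ v ∈ T, v ∉ D := by
      by_contra hc
      push Not at hc
      apply hne
      rw [Subgroup.eq_top_iff']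
      intro u
      obtain ⟨c, rfl⟩ := hlam u
      obtain ⟨a, ha, rfl⟩ := hρs c
      obtain ⟨z, hz, b, hb, rfl⟩ := hsplit a ha
      have hbκ : κ (p b) = 1 := by rw [hb, map_one]
      have h1 : lam (ρ (z * b)) = r z * lam (ρ b) := hr z b (hZ _ hy _ hz) hbκ
      rw [h1]
      refine D.mul_mem ((hD _).mpr ⟨z, hz, rfl⟩) ?_
      exact (Subgroup.closure_le D).mpr hc (hT1 b hb)
    -- a prime
    let m := orderOf (v : V ⧸ D)
    have hm1 : m ≠ 1 := by
      intro h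
      rw [orderOf_eq_one_iff] at h
      exact hvD ((QuotientGroup.eq_one_iff v).mp h)
    have hmn : m ∣ n := by
      apply orderOf_dvd_of_pow_eq_one
      rw [← QuotientGroup.mk_pow, hVn]
      rfl
    let q := m.minFac
    have hq : q.Prime := Nat.minFac_prime hm1
    have hqm : q ∣ m := Nat.minFac_dvd m
    have hqn : q ∣ n := hqm.trans hmn
    obtain ⟨k, hk⟩ := hqn
    have hvk : v ^ k ∉ D := by
      intro h
      have h1 : m ∣ k := by
        apply orderOf_dvd_of_pow_eq_one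
        rw [← QuotientGroup.mk_pow]
        exact (QuotientGroup.eq_one_iff _).mpr h
      have h2 : q * q ∣ n := by
        rw [hk]
        exact mul_dvd_mul_left q (hqm.trans h1)
      exact hq.one_lt.ne' (Nat.isUnit_iff.mp (hnsq q h2))
    have hvkq : (v ^ k) ^ q = 1 := by
      rw [← pow_mul, mul_comm, ← hk, hVn]
    have hfact : Fact q.Prime := ⟨hq⟩
    obtain ⟨y', hy', hle, z₀, hz₀, hz₀v⟩ := full_step 𝒳 x κ hκ hker W p hp r hr q
      (hgood q hq (((hqm.trans hmn)).trans hndvd)) v (hT2 v hvT) k hvkq y hy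
    let D' : Subgroup V :=
      { carrier := {v | ∃ z ∈ 𝒳.Z y', r z = v}
        mul_mem' := by
          rintro _ _ ⟨z, hz, rfl⟩ ⟨z', hz', rfl⟩
          exact ⟨z * z', (𝒳.Z y').mul_mem hz hz', hr _ _ (hZ _ hy' _ hz) (hZ _ hy' _ hz')⟩
        one_mem' := by
          refine ⟨1, (𝒳.Z y').one_mem, ?_⟩
          show lam (ρ 1) = 1
          rw [hρ1, map_one]
        inv_mem' := by
          rintro _ ⟨z, hz, rfl⟩
          refine ⟨z⁻¹, (𝒳.Z y').inv_mem hz, ?_⟩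
          show lam (ρ z⁻¹) = (lam (ρ z))⁻¹
          rw [hρinv _ (hZ _ hy' _ hz), map_inv] }
    apply hmax D' ⟨y', hy', fun v => Iff.rfl⟩
    refine lt_of_le_of_ne ?_ ?_
    · intro u hu
      obtain ⟨z, hz, rfl⟩ := (hD u).mp hu
      exact hle z hz
    · intro he
      apply hvk
      rw [he]
      exact ⟨z₀, hz₀, hz₀v⟩
  refine ⟨y, hy, ?_⟩
  -- the image in `C`
  let E : Subgroup C :=
    { carrier := {c | ∃ z ∈ 𝒳.Z y, ρ z = c}
      mul_mem' := by
        rintro _ _ ⟨z, hz, rfl⟩ ⟨z', hz', rfl⟩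
        exact ⟨z * z', (𝒳.Z y).mul_mem hz hz', hρ _ _ (hZ _ hy _ hz) (hZ _ hy _ hz')⟩
      one_mem' := ⟨1, (𝒳.Z y).one_mem, hρ1⟩
      inv_mem' := by
        rintro _ ⟨z, hz, rfl⟩
        exact ⟨z⁻¹, (𝒳.Z y).inv_mem hz, hρinv _ (hZ _ hy _ hz)⟩ }
  suffices hE : E = ⊤ by
    intro c
    have : c ∈ E := by rw [hE]; trivial
    exact this
  have hEn : E.Normal := by
    refine ⟨?_⟩
    rintro _ ⟨z, hz, rfl⟩ c
    obtain ⟨a, ha, rfl⟩ := hρs c
    refine ⟨a * z * a⁻¹, (𝒳.normal y).conj_mem z hz a, ?_⟩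
    rw [hρ _ _ (by rw [map_mul, map_mul, ha, hZ _ hy _ hz, one_mul])
      (by rw [map_inv, map_inv, ha, inv_one]), hρ _ _ ha (hZ _ hy _ hz), hρinv _ ha]
  by_contra hne
  obtain ⟨M, hEM, hMn, hsimple⟩ := exists_simple_quotient E hne
  by_cases hcomm : ∃ a b : C ⧸ M, a * b ≠ b * a
  · refine hna y hy (C ⧸ M) hcomm (QuotientGroup.mk' M) (QuotientGroup.mk'_surjective M) ?_
    intro z hz
    exact (QuotientGroup.eq_one_iff _).mpr (hEM ⟨z, hz, rfl⟩)
  push Not at hcomm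
  let hcg : CommGroup (C ⧸ M) := { (inferInstance : Group (C ⧸ M)) with mul_comm := hcomm }
  have hqp : (Nat.card (C ⧸ M)).Prime := IsSimpleGroup.prime_card
  let θ : C →* C ⧸ M := QuotientGroup.mk' M
  have hθE : ∀ z ∈ 𝒳.Z y, θ (ρ z) = 1 := fun z hz =>
    (QuotientGroup.eq_one_iff _).mpr (hEM ⟨z, hz, rfl⟩)
  have hqdvd : Nat.card (C ⧸ M) ∣ Nat.card p.ker := by
    let f : p.ker →* C ⧸ M := MonoidHom.mk' (fun a => θ (ρ a)) (by
      intro a b
      have ha : κ (p a) = 1 := by rw [a.2, map_one]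
      have hb : κ (p b) = 1 := by rw [b.2, map_one]
      rw [Subgroup.coe_mul, hρ _ _ ha hb, map_mul])
    apply Subgroup.card_dvd_of_surjective f
    intro c
    obtain ⟨c, rfl⟩ := QuotientGroup.mk'_surjective M c
    obtain ⟨a, ha, rfl⟩ := hρs c
    obtain ⟨z, hz, b, hb, rfl⟩ := hsplit a ha
    refine ⟨⟨b, hb⟩, ?_⟩
    show θ (ρ b) = θ (ρ (z * b))
    rw [hρ _ _ (hZ _ hy _ hz) (by rw [hb, map_one]), map_mul, hθE z hz, one_mul]
  obtain ⟨k, hk⟩ := hprime _ hqp hqdvd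
  have hpow : ∀ s : C ⧸ M, s ^ n = 1 := by
    intro s
    rw [hk, pow_mul, pow_card_eq_one', one_pow]
  have htriv : ∀ c, θ c = 1 := by
    intro c
    have h1 : lam c ∈ D := by rw [hDtop]; trivial
    obtain ⟨z, hz, hzc⟩ := (hD _).mp h1
    have h2 : lam ((ρ z)⁻¹ * c) = 1 := by
      rw [map_mul, map_inv, ← hzc]
      exact inv_mul_cancel _
    obtain ⟨u, hu⟩ := (QuotientGroup.eq_one_iff _).mp h2
    have h3 : Abelianization.lift θ (u ^ n) = θ ((ρ z)⁻¹ * c) := by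
      rw [← Abelianization.lift_apply_of θ]
      exact congrArg _ hu
    rw [map_pow, hpow, map_mul, map_inv, hθE z hz, inv_one, one_mul] at h3
    exact h3.symm
  obtain ⟨s, hs⟩ := exists_ne (1 : C ⧸ M)
  obtain ⟨c, rfl⟩ := QuotientGroup.mk'_surjective M s
  exact hs (htriv c)

end Pool.Agent.Lib_helper5.Form
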