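import Pool.Agent.Lib_helper5.FormPosA

/-!
# Block POS-B : values of formations at positions
-/

set_option maxHeartbeats 400000

namespace Pool.Agent.Lib_helper5.Form

open Function

section POSB

variable {K H L : Type} [Group K] [Group H] [Group L]

theorem mem_iff_val (A : Formation) [Finite L] {π : H →* K} {p : L →* K} {e : L → H}
    (hL : FullLift π p e) {ι : Type} [Nonempty ι] (c : ι → L →* L) (hc : ∀ i, Surjective (c i))
    (hinj : ∀ l, (∀ i, p (c i l) = 1 ∧ ∀ x, e (x⁻¹ * c i l * x) = 1) → l = 1) :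
    A.mem L ↔ Val A π := by
  have hK : Finite K := Finite.of_surjective p hL.surj
  obtain ⟨Ψ, h1, h2⟩ := exists_up hL.toIsLift hL.surj
  have hΨ : Surjective Ψ := up_surjective hL Ψ h1 h2
  constructor
  · intro h
    exact A.mem_of_surjective Ψ hΨ h
  · intro h
    refine A.mem_of_family (fun i => Ψ.comp (c i)) (fun i => hΨ.comp (hc i)) ?_ (fun _ => h)
    intro l hl
    apply hinj l
    intro i
    exact (up_eq_one hL.toIsLift hL.surj Ψ h1 h2 (c i l)).mp (hl i)

theorem mem_of_val (A : Formation) {π : H →* K} (h : Val A π) : A.mem K :=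
  A.mem_of_surjective (CoInd.p π) (CoInd.p_surjective π) h

theorem val_of_surjective (A : Formation) {H' : Type} [Group H'] {π : H →* K}
    {π' : H' →* K}
    (c : H →* H') (hc : Surjective c) (h : ∀ x, π' (c x) = π x) (hv : Val A π) : Val A π' := by
  have hK : Finite K := A.finite_of_mem (mem_of_val A hv)
  have hr : ∀ x, x ∈ π'.range ↔ x ∈ π.range := by
    intro x
    constructor
    · rintro ⟨a, rfl⟩
      obtain ⟨b, rfl⟩ := hc a
      exact ⟨b, (h b).symm⟩
    · rintro ⟨b, rfl⟩
      exact ⟨c b, h b⟩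
  have hF := CoInd.full π
  have hL : FullLift π' (CoInd.p π) (fun a => c (CoInd.ev π a)) := by
    refine { mul := ?_, lift := ?_, surj := hF.surj, ind := ?_ }
    · intro a b ha hb
      change c (CoInd.ev π (a * b)) = c (CoInd.ev π a) * c (CoInd.ev π b)
      rw [hF.mul a b ((hr _).mp ha) ((hr _).mp hb), map_mul]
    · intro a ha
      change π' (c (CoInd.ev π a)) = CoInd.p π a
      rw [h, hF.lift a ((hr _).mp ha)]
    · intro h' hh'
      obtain ⟨x, rfl⟩ := hc h'
      obtain ⟨l, hl1, hl2, hl3⟩ := hF.ind x (by rw [← h, hh'])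
      refine ⟨l, hl1, by rw [hl2], fun y hy => ?_⟩
      change c (CoInd.ev π (y⁻¹ * l * y)) = 1
      rw [hl3 y (fun h4 => hy ((hr _).mpr h4)), map_one]
  obtain ⟨Ψ, h1, h2⟩ := exists_up hL.toIsLift hL.surj
  exact A.mem_of_surjective Ψ (up_surjective hL Ψ h1 h2) hv

theorem val_congr (A : Formation) {H' : Type} [Group H'] {π : H →* K} {π' : H' →* K}
    (c : H →* H') (hc : Bijective c) (h : ∀ x, π' (c x) = π x) : Val A π ↔ Val A π' := by
  refine ⟨val_of_surjective A c hc.2 h, ?_⟩
  let d : H ≃* H' := MulEquiv.ofBijective c hc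
  refine val_of_surjective A d.symm.toMonoidHom d.symm.surjective ?_
  intro x
  have h1 := h (d.symm x)
  have h2 : c (d.symm x) = x := d.apply_symm_apply x
  rw [h2] at h1
  exact h1.symm

theorem val_pullback (A : Formation) {H' K' : Type} [Group H'] [Group K'] {π : H →* K}
    {π' : H' →* K'} (g : K' →* K) (hg : Surjective g) (c : H' →* H)
    (hcomm : ∀ a, π (c a) = g (π' a)) (hinj : ∀ a, c a = 1 → π' a = 1 → a = 1)
    (hsurj : ∀ a k, π a = g k → ∃ b, c b = a ∧ π' b = k) (hK' : A.mem K') :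
    Val A π ↔ Val A π' := by
  have hK'f : Finite K' := A.finite_of_mem hK'
  have hKf : Finite K := Finite.of_surjective g hg
  have hr : ∀ x, g x ∈ π.range → x ∈ π'.range := by
    rintro x ⟨a, ha⟩
    obtain ⟨b, _, hb⟩ := hsurj a x ha
    exact ⟨b, hb⟩
  have hF := CoInd.full π'
  have hL : FullLift π (g.comp (CoInd.p π')) (fun a => c (CoInd.ev π' a)) := by
    refine { mul := ?_, lift := ?_, surj := hg.comp hF.surj, ind := ?_ }
    · intro a b ha hb
      change c (CoInd.ev π' (a * b)) = c (CoInd.ev π' a) * c (CoInd.ev π' b)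
      rw [hF.mul a b (hr _ ha) (hr _ hb), map_mul]
    · intro a ha
      change π (c (CoInd.ev π' a)) = g (CoInd.p π' a)
      rw [hcomm, hF.lift a (hr _ ha)]
    · intro h hh
      obtain ⟨b, hb1, hb2⟩ := hsurj h 1 (by rw [hh, map_one])
      obtain ⟨l, hl1, hl2, hl3⟩ := hF.ind b hb2
      refine ⟨l, ?_, ?_, fun y hy => ?_⟩
      · change g (CoInd.p π' l) = 1
        rw [hl1, map_one]
      · change c (CoInd.ev π' l) = h
        rw [hl2, hb1]
      · change c (CoInd.ev π' (y⁻¹ * l * y)) = 1
        rw [hl3 y ?_, map_one]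
        rintro ⟨a, ha⟩
        apply hy
        exact ⟨c a, by rw [hcomm, ha]; rfl⟩
  obtain ⟨Ψ, h1, h2⟩ := exists_up hL.toIsLift hL.surj
  have hΨ : Surjective Ψ := up_surjective hL Ψ h1 h2
  constructor
  · intro hv
    refine A.mem_of_subdirect Ψ (CoInd.p π') hΨ hF.surj ?_ hv hK'
    intro l hl hl'
    obtain ⟨_, h3⟩ := (up_eq_one hL.toIsLift hL.surj Ψ h1 h2 l).mp hl
    apply CoInd.eq_one π' hl'
    intro x
    have h4 : CoInd.p π' (x⁻¹ * l * x) = 1 := by simp [hl']
    apply hinj _ (h3 x)
    rw [hF.lift _ (by rw [h4]; exact one_mem _), h4]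
  · intro hv
    exact A.mem_of_surjective Ψ hΨ hv

/-- evaluation at the base point is an isomorphism for a surjective position -/
theorem CoInd.exists_evEquiv {π : H →* K} (hπ : Surjective π) :
    ∃ E : CoInd π ≃* H, ∀ a, E a = CoInd.ev π a := by
  have hF := CoInd.full π
  have hr : ∀ x, x ∈ π.range := fun x => hπ x
  let E : CoInd π →* H :=
    { toFun := CoInd.ev π
      map_one' := rfl
      map_mul' := fun a b => hF.mul a b (hr _) (hr _) }
  have hE : ∀ a, E a = CoInd.ev π a := fun a => rfl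
  have hsub : ∀ ω : K ⧸ π.range, ω = ((1 : K) : K ⧸ π.range) := by
    intro ω
    induction ω using QuotientGroup.induction_on with
    | H x =>
      rw [QuotientGroup.eq]
      exact hr _
  have hbij : Bijective E := by
    constructor
    · rw [injective_iff_map_eq_one]
      intro a ha
      have ha' : CoInd.ev π a = 1 := ha
      have h1 : CoInd.p π a = 1 := by rw [← hF.lift a (hr _), ha', map_one]
      apply CoInd.eq_one π h1
      intro x
      rw [CoInd.ev_conj_range π h1 x (hr _), ha']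
      simp
    · intro h
      refine ⟨⟨⟨fun _ => h, π h⟩, ?_⟩, rfl⟩
      intro ω
      rw [hsub ((π h)⁻¹ • ω), hsub ω, sec_one]
      simp
  exact ⟨MulEquiv.ofBijective E hbij, hE⟩

theorem val_surjective (A : Formation) {π : H →* K} (hπ : Surjective π) :
    Val A π ↔ A.mem H := by
  obtain ⟨E, _⟩ := CoInd.exists_evEquiv hπ
  exact ⟨A.mem_of_equiv E, A.mem_of_equiv E.symm⟩

end POSB

end Pool.Agent.Lib_helper5.Form
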