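import Pool.Agent.Lib_helper5.FormPosA

/-!
# Block POS-C : commutators of single coordinate elements, nonabelian tops
-/

set_option maxHeartbeats 400000

namespace Pool.Agent.Lib_helper5.Form

open Function

section POSC

variable {K H L : Type} [Group K] [Group H] [Group L]

/-- the elements over `1` supported at one coset -/
def CoInd.supSub (π : H →* K) (ω : K ⧸ π.range) : Subgroup (CoInd π) where
  carrier := {l | l.1.x = 1 ∧ ∀ ω', ω' ≠ ω → l.1.f ω' = 1}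
  one_mem' := ⟨rfl, fun _ _ => rfl⟩
  mul_mem' := by
    rintro a b ⟨ha, ha'⟩ ⟨hb, hb'⟩
    refine ⟨by rw [CoInd.mul_x, ha, hb, mul_one], fun ω' hω => ?_⟩
    rw [CoInd.mul_f, ha, inv_one, one_smul, ha' ω' hω, hb' ω' hω, mul_one]
  inv_mem' := by
    rintro a ⟨ha, ha'⟩
    refine ⟨by rw [CoInd.inv_x, ha, inv_one], fun ω' hω => ?_⟩
    rw [CoInd.inv_f, ha, one_smul, ha' ω' hω, inv_one]

theorem CoInd.mem_supSub (π : H →* K) {ω : K ⧸ π.range} {l : CoInd π} :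
    l ∈ CoInd.supSub π ω ↔ l.1.x = 1 ∧ ∀ ω', ω' ≠ ω → l.1.f ω' = 1 := Iff.rfl

theorem CoInd.conj_supSub (π : H →* K) {ω : K ⧸ π.range} {l : CoInd π}
    (hl : l ∈ CoInd.supSub π ω) (c : CoInd π) :
    c * l * c⁻¹ ∈ CoInd.supSub π (c.1.x • ω) := by
  obtain ⟨h1, h2⟩ := hl
  refine ⟨?_, ?_⟩
  · rw [CoInd.mul_x, CoInd.mul_x, CoInd.inv_x, h1]
    simp
  · intro ω' hω'
    rw [CoInd.mul_f, CoInd.mul_f, CoInd.inv_f, CoInd.mul_x, h1, mul_one, smul_inv_smul]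
    have h3 : c.1.x⁻¹ • ω' ≠ ω := by
      intro h4
      rw [inv_smul_eq_iff] at h4
      exact hω' h4
    rw [h2 _ h3]
    simp

theorem CoInd.commute_supSub (π : H →* K) {ω ω' : K ⧸ π.range} (hne : ω ≠ ω') {a b : CoInd π}
    (ha : a ∈ CoInd.supSub π ω) (hb : b ∈ CoInd.supSub π ω') : a * b = b * a := by
  obtain ⟨ha1, ha2⟩ := ha
  obtain ⟨hb1, hb2⟩ := hb
  apply Subtype.ext
  apply WrA.ext
  · funext η
    rw [CoInd.mul_f, CoInd.mul_f, ha1, hb1, inv_one, one_smul]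
    by_cases h : η = ω
    · rw [hb2 η (by rw [h]; exact hne)]
      simp
    · rw [ha2 η h]
      simp
  · rw [CoInd.mul_x, CoInd.mul_x, ha1, hb1]

theorem CoInd.supSub_of_single (π : H →* K) {a : CoInd π} (ha : CoInd.p π a = 1)
    (ha' : ∀ x, CoInd.p π x ∉ π.range → CoInd.ev π (x⁻¹ * a * x) = 1) :
    a ∈ CoInd.supSub π ((1 : K) : K ⧸ π.range) := by
  refine ⟨ha, fun ω hω => ?_⟩
  obtain ⟨x, hx⟩ := CoInd.p_surjective π (sec π ω)
  have hx' : x.1.x = sec π ω := hx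
  have h4 : x.1.x • ((1 : K) : K ⧸ π.range) = ω := by
    have h5 : x.1.x • ((1 : K) : K ⧸ π.range) = ((x.1.x * 1 : K) : K ⧸ π.range) := rfl
    rw [h5, mul_one, hx', mk_sec]
  have h5 : CoInd.p π x ∉ π.range := by
    intro h6
    apply hω
    rw [← h4]
    exact smul_base h6
  have h3 := ha' x h5
  rw [CoInd.ev_conj π ha, h4] at h3
  have := congrArg (fun z => x.1.f ω * z * (x.1.f ω)⁻¹) h3
  simpa [mul_assoc] using this

theorem CoInd.single_of_supSub (π : H →* K) {a : CoInd π}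
    (ha : a ∈ CoInd.supSub π ((1 : K) : K ⧸ π.range)) :
    CoInd.p π a = 1 ∧ ∀ x, CoInd.p π x ∉ π.range → CoInd.ev π (x⁻¹ * a * x) = 1 := by
  have h1 : CoInd.p π a = 1 := ha.1
  refine ⟨h1, fun x hx => ?_⟩
  have h2 : a.1.f (x.1.x • ((1 : K) : K ⧸ π.range)) = 1 :=
    ha.2 _ (fun h => hx (smul_base_iff.mp h))
  rw [CoInd.ev_conj π h1, h2]
  simp

/-- Commutators of single coordinate elements lie in every normal subgroup moving everything. -/
theorem comm_mem_of_move {π : H →* K} (N : Subgroup (CoInd π)) [hNn : N.Normal]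
    (hN : ∀ k : K, ∃ n ∈ N, k⁻¹ * CoInd.p π n * k ∉ π.range) {a b : CoInd π}
    (ha : CoInd.p π a = 1) (ha' : ∀ x, CoInd.p π x ∉ π.range → CoInd.ev π (x⁻¹ * a * x) = 1)
    (hb : CoInd.p π b = 1) (hb' : ∀ x, CoInd.p π x ∉ π.range → CoInd.ev π (x⁻¹ * b * x) = 1) :
    a * b * a⁻¹ * b⁻¹ ∈ N := by
  obtain ⟨n, hn, hn'⟩ := hN 1
  have hn1 : CoInd.p π n ∉ π.range := by simpa using hn'
  have ha1 := CoInd.supSub_of_single π ha ha'
  have hb1 := CoInd.supSub_of_single π hb hb'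
  have hc : n * a⁻¹ * n⁻¹ ∈ CoInd.supSub π (n.1.x • ((1 : K) : K ⧸ π.range)) :=
    CoInd.conj_supSub π (Subgroup.inv_mem _ ha1) n
  have hne : n.1.x • ((1 : K) : K ⧸ π.range) ≠ ((1 : K) : K ⧸ π.range) :=
    fun h => hn1 (smul_base_iff.mp h)
  have hcomm := CoInd.commute_supSub π hne hc hb1
  have hu : a * (n * a⁻¹ * n⁻¹) ∈ N := by
    have h1 : a * n * a⁻¹ ∈ N := hNn.conj_mem n hn a
    have h2 := N.mul_mem h1 (N.inv_mem hn)
    convert h2 using 1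
    group
  have hv : a * (n * a⁻¹ * n⁻¹) * (b * (a * (n * a⁻¹ * n⁻¹))⁻¹ * b⁻¹) ∈ N :=
    N.mul_mem hu (hNn.conj_mem _ (N.inv_mem hu) b)
  convert hv using 1
  calc a * b * a⁻¹ * b⁻¹
      = a * (b * (n * a⁻¹ * n⁻¹)) * (n * a⁻¹ * n⁻¹)⁻¹ * a⁻¹ * b⁻¹ := by group
    _ = a * ((n * a⁻¹ * n⁻¹) * b) * (n * a⁻¹ * n⁻¹)⁻¹ * a⁻¹ * b⁻¹ := by rw [hcomm]
    _ = a * (n * a⁻¹ * n⁻¹) * (b * (a * (n * a⁻¹ * n⁻¹))⁻¹ * b⁻¹) := by group

theorem comm_mem_supSub {π : H →* K} (N : Subgroup (CoInd π)) [hNn : N.Normal]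
    (hN : ∀ k : K, ∃ n ∈ N, k⁻¹ * CoInd.p π n * k ∉ π.range) (ω : K ⧸ π.range) {a b : CoInd π}
    (ha : a ∈ CoInd.supSub π ω) (hb : b ∈ CoInd.supSub π ω) : a * b * a⁻¹ * b⁻¹ ∈ N := by
  obtain ⟨x, hx⟩ := CoInd.p_surjective π (sec π ω)
  have hx' : x.1.x = sec π ω := hx
  have h4 : x.1.x • ((1 : K) : K ⧸ π.range) = ω := by
    have h5 : x.1.x • ((1 : K) : K ⧸ π.range) = ((x.1.x * 1 : K) : K ⧸ π.range) := rfl
    rw [h5, mul_one, hx', mk_sec]
  have h5 : x⁻¹.1.x • ω = ((1 : K) : K ⧸ π.range) := by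
    rw [CoInd.inv_x, inv_smul_eq_iff, h4]
  have h6 : ∀ l, l ∈ CoInd.supSub π ω → x⁻¹ * l * x ∈ CoInd.supSub π ((1 : K) : K ⧸ π.range) := by
    intro l hl
    have := CoInd.conj_supSub π hl x⁻¹
    rw [h5, inv_inv] at this
    exact this
  obtain ⟨a1, a2⟩ := CoInd.single_of_supSub π (h6 a ha)
  obtain ⟨b1, b2⟩ := CoInd.single_of_supSub π (h6 b hb)
  have h7 := comm_mem_of_move N hN a1 a2 b1 b2
  have h8 := hNn.conj_mem _ h7 x
  convert h8 using 1
  group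

/-- Nonabelian simple quotients of a normal subgroup moving everything kill the base. -/
theorem no_top [Finite K] {π : H →* K} (N : Subgroup (CoInd π)) [hNn : N.Normal]
    (hN : ∀ k : K, ∃ n ∈ N, k⁻¹ * CoInd.p π n * k ∉ π.range) {S : Type} [Group S]
    [IsSimpleGroup S] (hS : ∃ a b : S, a * b ≠ b * a) (θ : N →* S) (hθ : Surjective θ) :
    ∀ n : N, CoInd.p π n = 1 → θ n = 1 := by
  classical
  by_contra hcon
  push Not at hcon
  obtain ⟨n₀, hn₀, hn₀'⟩ := hcon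
  -- the image of the base is everything
  have hbase : ∀ s : S, ∃ b : N, CoInd.p π b = 1 ∧ θ b = s := by
    let B : Subgroup N := ((CoInd.p π).comp N.subtype).ker
    have hBn : (B.map θ).Normal := Subgroup.Normal.map inferInstance θ hθ
    have hB : B.map θ = ⊤ := by
      rcases hBn.eq_bot_or_eq_top with h | h
      · exfalso
        apply hn₀'
        have h1 : θ n₀ ∈ B.map θ := ⟨n₀, hn₀, rfl⟩
        rw [h] at h1
        exact h1
      · exact h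
    intro s
    have h1 : s ∈ B.map θ := by rw [hB]; trivial
    obtain ⟨b, hb, hb'⟩ := h1
    exact ⟨b, hb, hb'⟩
  -- some coordinate is nontrivial
  have hex : ∃ (ω : K ⧸ π.range) (n : N), (n : CoInd π) ∈ CoInd.supSub π ω ∧ θ n ≠ 1 := by
    by_contra hno
    push Not at hno
    obtain ⟨s, s', hss⟩ := hS
    obtain ⟨b, hb, rfl⟩ := hbase s
    obtain ⟨b', hb', rfl⟩ := hbase s'
    apply hss
    obtain ⟨f, hf⟩ := CoInd.exists_base π hb
    obtain ⟨f', hf'⟩ := CoInd.exists_base π hb'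
    have key : f * f' * f⁻¹ * f'⁻¹ ∈ ((θ.ker).map N.subtype).comap (CoInd.base π) := by
      apply Subgroup.pi_mem_of_mulSingle_mem
      intro ω
      rw [Subgroup.mem_comap]
      have hsup : ∀ h : π.ker, CoInd.base π (Pi.mulSingle ω h) ∈ CoInd.supSub π ω := by
        intro h
        refine ⟨rfl, fun ω' hω' => ?_⟩
        rw [CoInd.base_f, Pi.mulSingle_eq_of_ne hω']
        rfl
      have h1 : CoInd.base π (Pi.mulSingle ω ((f * f' * f⁻¹ * f'⁻¹) ω)) =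
          CoInd.base π (Pi.mulSingle ω (f ω)) * CoInd.base π (Pi.mulSingle ω (f' ω)) *
            (CoInd.base π (Pi.mulSingle ω (f ω)))⁻¹ *
            (CoInd.base π (Pi.mulSingle ω (f' ω)))⁻¹ := by
        rw [← map_inv, ← map_inv, ← map_mul, ← map_mul, ← map_mul, ← Pi.mulSingle_inv,
          ← Pi.mulSingle_inv, ← Pi.mulSingle_mul, ← Pi.mulSingle_mul, ← Pi.mulSingle_mul]
        rfl
      have h2 : CoInd.base π (Pi.mulSingle ω ((f * f' * f⁻¹ * f'⁻¹) ω)) ∈ N := by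
        rw [h1]
        exact comm_mem_supSub N hN ω (hsup _) (hsup _)
      exact ⟨⟨_, h2⟩, hno ω ⟨_, h2⟩ (hsup _), rfl⟩
    obtain ⟨m, hm, hm'⟩ := key
    have h3 : m = b * b' * b⁻¹ * b'⁻¹ := by
      apply Subtype.ext
      change (m : CoInd π) = (b : CoInd π) * b' * (b : CoInd π)⁻¹ * (b' : CoInd π)⁻¹
      rw [← hf, ← hf', ← map_inv, ← map_inv, ← map_mul, ← map_mul, ← map_mul]
      exact hm'
    have h4 : θ m = 1 := hm
    rw [h3, map_mul, map_mul, map_mul, map_inv, map_inv] at h4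
    have h5 : θ b * θ b' * (θ b)⁻¹ = θ b' := by
      exact (mul_inv_eq_one.mp h4)
    exact mul_inv_eq_iff_eq_mul.mp h5
  obtain ⟨ω, n₁, hn₁, hn₁'⟩ := hex
  -- the image of the coordinate subgroup is everything
  have hcoord : ∀ s : S, ∃ b : N, (b : CoInd π) ∈ CoInd.supSub π ω ∧ θ b = s := by
    let B : Subgroup N := (CoInd.supSub π ω).comap N.subtype
    have hBn : (B.map θ).Normal := by
      constructor
      rintro _ ⟨m, hm, rfl⟩ s
      obtain ⟨b, hb, rfl⟩ := hbase s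
      refine ⟨b * m * b⁻¹, ?_, by simp⟩
      have h1 := CoInd.conj_supSub π (l := (m : CoInd π)) hm (b : CoInd π)
      have h2 : (b : CoInd π).1.x = 1 := hb
      rw [h2, one_smul] at h1
      exact h1
    have hB : B.map θ = ⊤ := by
      rcases hBn.eq_bot_or_eq_top with h | h
      · exfalso
        apply hn₁'
        have h1 : θ n₁ ∈ B.map θ := ⟨n₁, hn₁, rfl⟩
        rw [h] at h1
        exact h1
      · exact h
    intro s
    have h1 : s ∈ B.map θ := by rw [hB]; trivial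
    obtain ⟨b, hb, hb'⟩ := h1
    exact ⟨b, hb, hb'⟩
  -- move the coordinate
  obtain ⟨n, hn, hn'⟩ := hN (sec π ω)
  have hmove : n.1.x • ω ≠ ω := by
    intro h
    apply hn'
    have h1 : n.1.x • ((sec π ω : K) : K ⧸ π.range) = ((n.1.x * sec π ω : K) : K ⧸ π.range) := rfl
    rw [mk_sec, h] at h1
    have h2 : ((sec π ω : K) : K ⧸ π.range) = ((n.1.x * sec π ω : K) : K ⧸ π.range) := by
      rw [mk_sec, ← h1]
    rw [QuotientGroup.eq] at h2
    rw [mul_assoc]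
    exact h2
  obtain ⟨s, s', hss⟩ := hS
  obtain ⟨b, hb, hb'⟩ := hcoord s
  obtain ⟨b', hb'1, hb'2⟩ := hcoord ((θ ⟨n, hn⟩)⁻¹ * s' * θ ⟨n, hn⟩)
  have h1 := CoInd.conj_supSub π hb'1 n
  have h2 := CoInd.commute_supSub π hmove h1 hb
  have h3 : (⟨n, hn⟩ * b' * ⟨n, hn⟩⁻¹ : N) * b = b * (⟨n, hn⟩ * b' * ⟨n, hn⟩⁻¹ : N) :=
    Subtype.ext h2
  have h5 : θ (⟨n, hn⟩ * b' * ⟨n, hn⟩⁻¹ : N) = s' := by
    rw [map_mul, map_mul, map_inv, hb'2]
    group
  have h4 := congrArg θ h3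
  rw [map_mul θ _ b, map_mul θ b _, h5, hb'] at h4
  exact hss h4.symm

end POSC

end Pool.Agent.Lib_helper5.Form
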