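import Pool.Agent.Lib_helper5.FormFull1
import Pool.Agent.Lib_helper5.FormPosB
import Pool.Agent.Lib_helper5.FormPosC

/-!
# Block FULL-2 : full lifts of positions
-/

set_option maxHeartbeats 400000

namespace Pool.Agent.Lib_helper5.Form

open Function

section FULL2

/-- single coordinate elements are `CoInd.single` of their value -/
theorem CoInd.eq_single {K H : Type} [Group K] [Group H] (π : H →* K) {l : CoInd π}
    (h1 : CoInd.p π l = 1)
    (h2 : ∀ x, CoInd.p π x ∉ π.range → CoInd.ev π (x⁻¹ * l * x) = 1) (h : π.ker)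
    (h3 : CoInd.ev π l = h) : l = CoInd.single π h := by
  have h4 := CoInd.supSub_of_single π h1 h2
  have h6 := CoInd.supSub_of_single π (CoInd.p_single π h) (fun x hx =>
    CoInd.ev_conj_single π h x hx)
  apply Subtype.ext
  apply WrA.ext
  · funext ω
    by_cases hω : ω = ((1 : K) : K ⧸ π.range)
    · subst hω
      have h5 := CoInd.ev_single π h
      rw [CoInd.ev_apply] at h3 h5
      rw [h3, h5]
    · rw [h4.2 ω hω, h6.2 ω hω]
  · rw [h4.1, h6.1]

theorem exists_fullLift (𝒳 : MarkSys) {J X R H : Type} [Group J] [Group X] [Group R]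
    [Group H]
    [Finite X] [Finite H] (x : 𝒳.Mk J) (κ : J →* R) (hκ : Surjective κ)
    (hker : ∀ j, κ j = 1 ↔ j ∈ 𝒳.Z x)
    (W : Subgroup R) (hW : ∃ w ∈ W, w ≠ 1) (p : X →* J) (hp : Surjective p) (π : H →* 𝒳.Z x)
    (e : X → H)
    (he : IsLift ((𝒳.Z x).subtype.comp π) p e)
    (hgood : ∀ q : ℕ, q.Prime → q ∣ Nat.card p.ker → Good 𝒳 x κ W q)
    (hna : Surjective π → ∀ y : 𝒳.Mk X, 𝒳.Cov p y x → ∀ (S : Type) [Group S] [IsSimpleGroup S],
      (∃ a b : S, a * b ≠ b * a) → ∀ θ : H →* S, Surjective θ → (∀ z ∈ 𝒳.Z y, θ (e z) = 1) →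
        ∀ h, π h = 1 → θ h = 1)
    (hsupp : ∀ h, π h = 1 → ∀ w ∈ W, w ≠ 1 → ∃ φ : X, p φ = 1 ∧ e φ = h ∧
      (∀ t, κ (p t) = 1 → p t ∉ ((𝒳.Z x).subtype.comp π).range → e (t⁻¹ * φ * t) = 1) ∧
      (∃ t₁, κ (p t₁) = w ∧ e (t₁⁻¹ * φ * t₁) = h⁻¹ ∧
        ∀ t, κ (p t) = w → p (t₁⁻¹ * t) ∉ ((𝒳.Z x).subtype.comp π).range →
          e (t⁻¹ * φ * t) = 1) ∧
      ∀ t, κ (p t) ≠ 1 → κ (p t) ≠ w → e (t⁻¹ * φ * t) = 1) :
    ∃ (y : 𝒳.Mk X) (hc : 𝒳.Cov p y x), FullLift π (𝒳.pZ hc) (fun z => e z) := by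
  classical
  have hJ : Finite J := Finite.of_surjective p hp
  -- the subgroup of elements over `Z x`
  let XZ : Subgroup X := (𝒳.Z x).comap p
  have hXZ : ∀ a, a ∈ XZ ↔ κ (p a) = 1 := fun a => (hker (p a)).symm
  have hXZ' : ∀ a, a ∈ XZ ↔ p a ∈ 𝒳.Z x := fun a => Iff.rfl
  let pL : XZ →* 𝒳.Z x := (p.comp XZ.subtype).codRestrict (𝒳.Z x) (fun a => a.2)
  have hpL : ∀ a : XZ, ((pL a : 𝒳.Z x) : J) = p a := fun a => rfl
  have hr : ∀ k : 𝒳.Z x, k ∈ π.range ↔ (k : J) ∈ ((𝒳.Z x).subtype.comp π).range := by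
    intro k
    constructor
    · rintro ⟨h, rfl⟩
      exact ⟨h, rfl⟩
    · rintro ⟨h, hh⟩
      exact ⟨h, Subtype.ext hh⟩
  have hpLs : Surjective pL := by
    intro k
    obtain ⟨a, ha⟩ := hp k
    refine ⟨⟨a, ?_⟩, Subtype.ext ha⟩
    rw [hXZ', ha]
    exact k.2
  have hL0 : IsLift π pL (fun a : XZ => e a) := by
    constructor
    · intro a b ha hb
      exact he.mul a b ((hr _).mp ha) ((hr _).mp hb)
    · intro a ha
      exact Subtype.ext (he.lift a ((hr _).mp ha))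
  have hL : FullLift π pL (fun a : XZ => e a) := by
    refine { toIsLift := hL0, surj := hpLs, ind := ?_ }
    intro h hh
    obtain ⟨w, hw, hw1⟩ := hW
    obtain ⟨φ, h1, h2, h3, _⟩ := hsupp h hh w hw hw1
    have hφ : φ ∈ XZ := by rw [hXZ', h1]; exact one_mem _
    refine ⟨⟨φ, hφ⟩, Subtype.ext h1, h2, ?_⟩
    intro t ht
    exact h3 t ((hXZ _).mp t.2) (fun h4 => ht ((hr _).mpr h4))
  obtain ⟨Ψ, hΨ1, hΨ2⟩ := exists_up hL0 hpLs
  have hΨ : Surjective Ψ := up_surjective hL Ψ hΨ1 hΨ2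
  -- values over `1`
  have hone : ∀ (a : XZ) (g : π.ker), pL a = 1 → e a = g →
      (∀ s : XZ, pL s ∉ π.range → e ((s⁻¹ * a * s : XZ) : X) = 1) → Ψ a = CoInd.single π g := by
    intro a g ha hg hs
    have h1 : CoInd.p π (Ψ a) = 1 := by rw [hΨ1, ha]
    apply CoInd.eq_single π h1
    · intro c hc
      obtain ⟨s, b, hs1, hb1, h2⟩ := up_eq_one_aux hpLs Ψ hΨ1 hΨ2 a ha c
      rw [h2, hs s (by rw [hs1]; exact hc)]
      simp
    · rw [hΨ2 a (by rw [ha]; exact one_mem _), hg]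
  let ρ : X → CoInd π := fun a => if h : κ (p a) = 1 then Ψ ⟨a, (hXZ a).mpr h⟩ else 1
  have hρ : ∀ a (h : a ∈ XZ), ρ a = Ψ ⟨a, h⟩ := by
    intro a h
    simp only [ρ]
    rw [dif_pos ((hXZ a).mp h)]
  have hρm : ∀ a b, κ (p a) = 1 → κ (p b) = 1 → ρ (a * b) = ρ a * ρ b := by
    intro a b ha hb
    rw [hρ a ((hXZ a).mpr ha), hρ b ((hXZ b).mpr hb),
      hρ (a * b) (XZ.mul_mem ((hXZ a).mpr ha) ((hXZ b).mpr hb)), ← map_mul]
    rfl
  have hρs : ∀ c, ∃ a, κ (p a) = 1 ∧ ρ a = c := by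
    intro c
    obtain ⟨a, ha⟩ := hΨ c
    exact ⟨a, (hXZ _).mp a.2, by rw [hρ a a.2]; exact ha⟩
  have hna' : ∀ y : 𝒳.Mk X, 𝒳.Cov p y x → ∀ (S : Type) [Group S] [IsSimpleGroup S],
      (∃ a b : S, a * b ≠ b * a) → ∀ θ : CoInd π →* S, Surjective θ →
        ¬ ∀ z ∈ 𝒳.Z y, θ (ρ z) = 1 := by
    intro y hy S _ _ hS θ hθ hz
    have hZy : ∀ k : 𝒳.Z x, ∃ z, z ∈ 𝒳.Z y ∧ p z = k := by
      intro k
      have hk : (k : J) ∈ (𝒳.Z y).map p := by
        rw [𝒳.map_Z hy]
        exact k.2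
      obtain ⟨z, hz1, hz2⟩ := hk
      exact ⟨z, hz1, hz2⟩
    have hZyX : ∀ z ∈ 𝒳.Z y, z ∈ XZ := by
      intro z hz1
      rw [hXZ', ← 𝒳.map_Z hy]
      exact ⟨z, hz1, rfl⟩
    have htriv : ∀ s : S, s = 1 := by
      by_cases hπ : Surjective π
      · obtain ⟨E, hE⟩ := CoInd.exists_evEquiv hπ
        have hrange : ∀ k, k ∈ π.range := fun k => hπ k
        have h1 : ∀ z ∈ 𝒳.Z y, (θ.comp E.symm.toMonoidHom) (e z) = 1 := by
          intro z hz1
          have h2 := hz z hz1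
          have h3 : E (ρ z) = e z := by
            rw [hE, hρ z (hZyX z hz1), hΨ2 _ (hrange _)]
          change θ (E.symm (e z)) = 1
          rw [← h3, MulEquiv.symm_apply_apply]
          exact h2
        have h2 := hna hπ y hy S hS (θ.comp E.symm.toMonoidHom)
          (hθ.comp E.symm.surjective) h1
        intro s
        obtain ⟨c, rfl⟩ := hθ s
        obtain ⟨z, hz1, hz2⟩ := hZy (π (E c))
        have h3 : π (e z) = π (E c) := by
          apply Subtype.ext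
          rw [← hz2]
          apply he.lift z
          rw [hz2]
          exact ⟨E c, rfl⟩
        have h4 : (θ.comp E.symm.toMonoidHom) ((e z)⁻¹ * E c) = 1 := by
          apply h2
          rw [map_mul, map_inv, h3]
          simp
        rw [map_mul, map_inv, h1 z hz1, inv_one, one_mul] at h4
        have h5 : (θ.comp E.symm.toMonoidHom) (E c) = θ c := by
          change θ (E.symm (E c)) = θ c
          rw [MulEquiv.symm_apply_apply]
        rw [← h5, h4]
      · have hex : ∃ g : 𝒳.Z x, g ∉ π.range := by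
          by_contra hno
          push Not at hno
          exact hπ hno
        obtain ⟨g, hg⟩ := hex
        have hmove : ∀ k : 𝒳.Z x, ∃ n ∈ (⊤ : Subgroup (CoInd π)),
            k⁻¹ * CoInd.p π n * k ∉ π.range := by
          intro k
          obtain ⟨n, hn⟩ := CoInd.p_surjective π (k * g * k⁻¹)
          refine ⟨n, trivial, ?_⟩
          rw [hn]
          convert hg using 2
          group
        have h1 := no_top (⊤ : Subgroup (CoInd π)) hmove hS
          (θ.comp (⊤ : Subgroup (CoInd π)).subtype) (by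
            intro s
            obtain ⟨c, rfl⟩ := hθ s
            exact ⟨⟨c, trivial⟩, rfl⟩)
        have h2 : ∀ c : CoInd π, CoInd.p π c = 1 → θ c = 1 := fun c hc => h1 ⟨c, trivial⟩ hc
        intro s
        obtain ⟨c, rfl⟩ := hθ s
        obtain ⟨z, hz1, hz2⟩ := hZy (CoInd.p π c)
        have h3 : CoInd.p π (ρ z) = CoInd.p π c := by
          rw [hρ z (hZyX z hz1), hΨ1]
          exact Subtype.ext hz2
        have h4 := h2 ((ρ z)⁻¹ * c) (by rw [map_mul, map_inv, h3]; simp)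
        rw [map_mul, map_inv, hz z hz1, inv_one, one_mul] at h4
        exact h4
    obtain ⟨a, b, hab⟩ := hS
    exact hab (by rw [htriv a, htriv b])
  have hsupp' : ∀ (V : Type) [CommGroup V] (lam : CoInd π →* V), ∃ T : Set V,
      (∀ l, p l = 1 → lam (ρ l) ∈ Subgroup.closure T) ∧
      ∀ v ∈ T, ∀ w ∈ W, w ≠ 1 → ∃ φ : X, p φ = 1 ∧ ∀ t : X,
        (κ (p t) = 1 → lam (ρ (t⁻¹ * φ * t)) = v) ∧
        (κ (p t) = w → lam (ρ (t⁻¹ * φ * t)) = v⁻¹) ∧
        (κ (p t) ≠ 1 → κ (p t) ≠ w → lam (ρ (t⁻¹ * φ * t)) = 1) := by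
    intro V _ lam
    refine ⟨Set.range (fun g : π.ker => lam (CoInd.single π g)), ?_, ?_⟩
    · intro l hl
      have hl' : l ∈ XZ := by rw [hXZ', hl]; exact one_mem _
      rw [hρ l hl']
      have h1 : CoInd.p π (Ψ ⟨l, hl'⟩) = 1 := by
        rw [hΨ1]
        exact Subtype.ext hl
      refine CoInd.ker_le π ((Subgroup.closure
        (Set.range (fun g : π.ker => lam (CoInd.single π g)))).comap lam) ?_ ?_ _ h1
      · intro k
        obtain ⟨c, hc⟩ := CoInd.p_surjective π k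
        refine ⟨c, hc, fun m hm => ?_⟩
        rw [Subgroup.mem_comap] at hm ⊢
        rw [map_mul, map_mul, map_inv, mul_comm (lam c), mul_inv_cancel_right]
        exact hm
      · intro m hm hm'
        rw [Subgroup.mem_comap]
        have h2 : π (CoInd.ev π m) = 1 := by
          rw [(CoInd.isLift π).lift m (by rw [hm]; exact one_mem _), hm]
        rw [CoInd.eq_single π hm hm' ⟨CoInd.ev π m, h2⟩ rfl]
        exact Subgroup.subset_closure ⟨_, rfl⟩
    · rintro _ ⟨g, rfl⟩ w hw hw1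
      obtain ⟨φ, h1, h2, h3, ⟨t₁, h4, h5, h6⟩, h7⟩ := hsupp g g.2 w hw hw1
      have hφ : φ ∈ XZ := by rw [hXZ', h1]; exact one_mem _
      have hconj : ∀ t : X, t⁻¹ * φ * t ∈ XZ := by
        intro t
        rw [hXZ', map_mul, map_mul, map_inv, h1]
        simp [one_mem]
      have hΨφ : Ψ ⟨φ, hφ⟩ = CoInd.single π g := by
        apply hone
        · exact Subtype.ext h1
        · exact h2
        · intro s hs
          exact h3 s ((hXZ _).mp s.2) (fun h8 => hs ((hr _).mpr h8))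
      have hΨφ₁ : Ψ ⟨t₁⁻¹ * φ * t₁, hconj t₁⟩ = CoInd.single π g⁻¹ := by
        apply hone
        · apply Subtype.ext
          change p (t₁⁻¹ * φ * t₁) = 1
          rw [map_mul, map_mul, map_inv, h1]
          simp
        · exact h5
        · intro s hs
          change e ((s : X)⁻¹ * (t₁⁻¹ * φ * t₁) * (s : X)) = 1
          have h8 : (s : X)⁻¹ * (t₁⁻¹ * φ * t₁) * (s : X) = (t₁ * s)⁻¹ * φ * (t₁ * s) := by group
          rw [h8]
          apply h6
          · rw [map_mul, map_mul, h4, (hXZ _).mp s.2, mul_one]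
          · rw [inv_mul_cancel_left]
            exact fun h9 => hs ((hr _).mpr h9)
      have hsinv : CoInd.single π g⁻¹ = (CoInd.single π g)⁻¹ := by
        have h8 := CoInd.supSub_of_single π (CoInd.p_single π g) (fun x hx =>
          CoInd.ev_conj_single π g x hx)
        obtain ⟨h9, h10⟩ := CoInd.single_of_supSub π (Subgroup.inv_mem _ h8)
        refine (CoInd.eq_single π h9 h10 g⁻¹ ?_).symm
        have h11 : CoInd.ev π (CoInd.single π g)⁻¹ * CoInd.ev π (CoInd.single π g) = 1 := by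
          rw [← (CoInd.isLift π).mul _ _ (by rw [h9]; exact one_mem _)
            (by rw [CoInd.p_single]; exact one_mem _), inv_mul_cancel, CoInd.ev_one]
        rw [CoInd.ev_single] at h11
        rw [eq_inv_of_mul_eq_one_left h11]
        rfl
      refine ⟨φ, h1, fun t => ⟨?_, ?_, ?_⟩⟩
      · intro ht
        have ht' : t ∈ XZ := (hXZ t).mpr ht
        rw [hρ _ (hconj t)]
        have h8 : (⟨t⁻¹ * φ * t, hconj t⟩ : XZ) = ⟨t, ht'⟩⁻¹ * ⟨φ, hφ⟩ * ⟨t, ht'⟩ := rfl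
        rw [h8, map_mul Ψ, map_mul Ψ, hΨφ, map_inv Ψ, map_mul lam, map_mul lam, map_inv lam,
          mul_comm (lam (Ψ ⟨t, ht'⟩))⁻¹, inv_mul_cancel_right]
      · intro ht
        have hs : t₁⁻¹ * t ∈ XZ := by
          rw [hXZ, map_mul, map_mul, map_inv, map_inv, h4, ht]
          simp
        rw [hρ _ (hconj t)]
        have h8 : (⟨t⁻¹ * φ * t, hconj t⟩ : XZ) =
            ⟨t₁⁻¹ * t, hs⟩⁻¹ * ⟨t₁⁻¹ * φ * t₁, hconj t₁⟩ * ⟨t₁⁻¹ * t, hs⟩ := by
          apply Subtype.ext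
          change t⁻¹ * φ * t = (t₁⁻¹ * t)⁻¹ * (t₁⁻¹ * φ * t₁) * (t₁⁻¹ * t)
          group
        rw [h8, map_mul Ψ, map_mul Ψ, hΨφ₁, hsinv, map_inv Ψ, map_mul lam, map_mul lam,
          map_inv lam, map_inv lam, mul_comm (lam (Ψ ⟨t₁⁻¹ * t, hs⟩))⁻¹, inv_mul_cancel_right]
      · intro ht1 ht2
        rw [hρ _ (hconj t)]
        have h8 : Ψ ⟨t⁻¹ * φ * t, hconj t⟩ = 1 := by
          rw [up_eq_one hL0 hpLs Ψ hΨ1 hΨ2]
          constructor
          · apply Subtype.ext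
            change p (t⁻¹ * φ * t) = 1
            rw [map_mul, map_mul, map_inv, h1]
            simp
          · intro s
            change e ((s : X)⁻¹ * (t⁻¹ * φ * t) * (s : X)) = 1
            have h9 : (s : X)⁻¹ * (t⁻¹ * φ * t) * (s : X) = (t * s)⁻¹ * φ * (t * s) := by group
            rw [h9]
            have h10 : κ (p (t * s)) = κ (p t) := by
              rw [map_mul, map_mul, (hXZ _).mp s.2, mul_one]
            exact h7 _ (by rw [h10]; exact ht1) (by rw [h10]; exact ht2)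
        rw [h8, map_one]
  obtain ⟨y, hc, hy⟩ := exists_full 𝒳 x κ hκ hker W p hp ρ hρm hρs hgood hna' hsupp'
  have hZyX : ∀ z ∈ 𝒳.Z y, z ∈ XZ := by
    intro z hz1
    rw [hXZ', ← 𝒳.map_Z hc]
    exact ⟨z, hz1, rfl⟩
  refine ⟨y, hc, ?_⟩
  refine { mul := ?_, lift := ?_, surj := 𝒳.pZ_surjective hc, ind := ?_ }
  · intro a b ha hb
    exact he.mul a b ((hr _).mp ha) ((hr _).mp hb)
  · intro a ha
    exact Subtype.ext (he.lift a ((hr _).mp ha))
  · intro h hh
    obtain ⟨z, hz1, hz2⟩ := hy (CoInd.single π ⟨h, hh⟩)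
    rw [hρ z (hZyX z hz1)] at hz2
    have h1 : pL ⟨z, hZyX z hz1⟩ = 1 := by
      rw [← hΨ1, hz2, CoInd.p_single]
    have h1' : p z = 1 := congrArg Subtype.val h1
    refine ⟨⟨z, hz1⟩, Subtype.ext h1', ?_, ?_⟩
    · change e z = h
      have h2 := hΨ2 ⟨z, hZyX z hz1⟩ (by rw [h1]; exact one_mem _)
      rw [hz2, CoInd.ev_single] at h2
      exact h2.symm
    · intro s hs
      change e ((s : X)⁻¹ * z * (s : X)) = 1
      have hsX : (s : X) ∈ XZ := hZyX s s.2
      have h3 : pL (⟨(s : X), hsX⟩⁻¹ * ⟨z, hZyX z hz1⟩ * ⟨(s : X), hsX⟩) = 1 := by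
        rw [map_mul, map_mul, h1, map_inv]
        simp
      have h2 := hΨ2 (⟨(s : X), hsX⟩⁻¹ * ⟨z, hZyX z hz1⟩ * ⟨(s : X), hsX⟩)
        (by rw [h3]; exact one_mem _)
      rw [map_mul, map_mul, hz2, map_inv, CoInd.ev_conj_single π _ _ (by
        rw [hΨ1]
        exact hs)] at h2
      exact h2.symm

end FULL2

end Pool.Agent.Lib_helper5.Form
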