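import Pool.Agent.Lib_helper5.FormMarkDefs

/-!
# Block GOOD (helper96)
-/

set_option maxHeartbeats 400000

namespace Pool.Agent.Lib_helper5.Form

open Function

namespace GoodAux

section PushFun

variable {R R₀ A : Type} [Group R] [Group R₀] [CommGroup A]

open Classical in
/-- push forward of functions -/
noncomputable def pushFun [Fintype R] (σ : R →* R₀) (φ : R → A) (r₀ : R₀) : A :=
  ∏ r : R, if σ r = r₀ then φ r else 1

theorem pushFun_one [Fintype R] (σ : R →* R₀) (r₀ : R₀) :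
    pushFun σ (fun _ => (1 : A)) r₀ = 1 := by
  unfold pushFun
  exact Finset.prod_eq_one (fun r _ => by simp)

theorem pushFun_mul [Fintype R] (σ : R →* R₀) (φ ψ : R → A) (r₀ : R₀) :
    pushFun σ (fun r => φ r * ψ r) r₀ = pushFun σ φ r₀ * pushFun σ ψ r₀ := by
  unfold pushFun
  rw [← Finset.prod_mul_distrib]
  refine Finset.prod_congr rfl (fun r _ => ?_)
  split_ifs <;> simp

theorem pushFun_left [Fintype R] (σ : R →* R₀) (ψ : R → A) (k : R) (r₀ : R₀) :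
    pushFun σ (fun r => ψ (k⁻¹ * r)) r₀ = pushFun σ ψ ((σ k)⁻¹ * r₀) := by
  unfold pushFun
  refine Fintype.prod_equiv (Equiv.mulLeft k⁻¹) _ _ (fun r => ?_)
  have : (σ ((Equiv.mulLeft k⁻¹) r) = (σ k)⁻¹ * r₀) ↔ σ r = r₀ := by
    simp
  by_cases hr : σ r = r₀
  · rw [if_pos hr, if_pos (this.mpr hr)]
    rfl
  · rw [if_neg hr, if_neg (fun h => hr (this.mp h))]

theorem pushFun_right [Fintype R] (σ : R →* R₀) (ψ : R → A) (k : R) (r₀ : R₀) :
    pushFun σ (fun r => ψ (r * k)) r₀ = pushFun σ ψ (r₀ * σ k) := by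
  unfold pushFun
  refine Fintype.prod_equiv (Equiv.mulRight k) _ _ (fun r => ?_)
  have : (σ ((Equiv.mulRight k) r) = r₀ * σ k) ↔ σ r = r₀ := by
    simp
  by_cases hr : σ r = r₀
  · rw [if_pos hr, if_pos (this.mpr hr)]
    rfl
  · rw [if_neg hr, if_neg (fun h => hr (this.mp h))]

theorem pushFun_inj [Fintype R] (σ : R →* R₀) (hσ : Injective σ) (φ : R → A) (r : R) :
    pushFun σ φ (σ r) = φ r := by
  unfold pushFun
  rw [Finset.prod_eq_single r]
  · simp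
  · intro b _ hb
    rw [if_neg]
    exact fun h => hb (hσ h)
  · intro h
    exact absurd (Finset.mem_univ r) h

theorem pushFun_surjective [Fintype R] (σ : R →* R₀) (hσ : Surjective σ) (φ₀ : R₀ → A) :
    ∃ φ : R → A, pushFun σ φ = φ₀ := by
  classical
  refine ⟨fun r => if r = Function.surjInv hσ (σ r) then φ₀ (σ r) else 1, ?_⟩
  funext r₀
  unfold pushFun
  rw [Finset.prod_eq_single (Function.surjInv hσ r₀)]
  · simp [Function.surjInv_eq hσ r₀]
  · intro b _ hb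
    by_cases h1 : σ b = r₀
    · rw [if_pos h1]
      refine if_neg (fun h2 => ?_)
      rw [h1] at h2
      exact hb h2
    · rw [if_neg h1]
  · intro h
    exact absurd (Finset.mem_univ _) h

/-- A function invariant under right translation by an element of order `q` has trivial product
in a group of exponent `q`. -/
theorem prod_eq_one_of_invariant [Fintype R] {q : ℕ} (hA : ∀ a : A, a ^ q = 1) (w : R)
    (hw : orderOf w = q) (ψ : R → A) (h : ∀ r, ψ (r * w) = ψ r) : ∏ r, ψ r = 1 := by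
  classical
  have h1 : ∀ (r : R) (s : R), s ∈ Subgroup.zpowers w → ψ (r * s) = ψ r := by
    intro r s hs
    obtain ⟨n, rfl⟩ := hs
    induction n using Int.induction_on with
    | zero => simp
    | succ n ih =>
      have e : r * w ^ ((n : ℤ) + 1) = (r * w ^ (n : ℤ)) * w := by
        rw [zpow_add_one, mul_assoc]
      have : ψ (r * w ^ ((n : ℤ) + 1)) = ψ r := by
        rw [e, h]
        exact ih
      exact this
    | pred n ih =>
      have e : (r * w ^ (-(n : ℤ) - 1)) * w = r * w ^ (-(n : ℤ)) := by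
        rw [mul_assoc, ← zpow_add_one]
        congr 2
        ring
      have : ψ (r * w ^ (-(n : ℤ) - 1)) = ψ r := by
        rw [← h, e]
        exact ih
      exact this
  rw [← Finset.prod_fiberwise (s := Finset.univ)
    (g := fun r : R => (QuotientGroup.mk r : R ⧸ Subgroup.zpowers w))]
  refine Finset.prod_eq_one (fun u _ => ?_)
  obtain ⟨a, rfl⟩ := QuotientGroup.mk_surjective u
  have h2 : ∀ r ∈ Finset.univ.filter
      (fun r : R => (QuotientGroup.mk r : R ⧸ Subgroup.zpowers w) = QuotientGroup.mk a),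
      ψ r = ψ a := by
    intro r hr
    rw [Finset.mem_filter] at hr
    have h3 := (QuotientGroup.eq.mp hr.2.symm)
    have h4 := h1 a _ h3
    rw [← h4]
    congr 1
    group
  rw [Finset.prod_congr rfl h2, Finset.prod_const]
  have h5 : (Finset.univ.filter
      (fun r : R => (QuotientGroup.mk r : R ⧸ Subgroup.zpowers w) = QuotientGroup.mk a)).card
      = q := by
    rw [← hw, ← Nat.card_zpowers, Nat.card_eq_fintype_card, ← Finset.card_univ]
    refine (Finset.card_bij (fun (s : Subgroup.zpowers w) _ => a * (s : R)) ?_ ?_ ?_).symm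
    · intro s _
      rw [Finset.mem_filter]
      refine ⟨Finset.mem_univ _, ?_⟩
      exact (QuotientGroup.mk_mul_of_mem a s.2)
    · intro s _ t _ hst
      exact Subtype.ext (mul_left_cancel hst)
    · intro r hr
      rw [Finset.mem_filter] at hr
      exact ⟨⟨a⁻¹ * r, QuotientGroup.eq.mp hr.2.symm⟩, Finset.mem_univ _, by simp⟩
  rw [h5]
  exact hA _

theorem pushFun_eq_one [Fintype R] {q : ℕ} (hA : ∀ a : A, a ^ q = 1) (σ : R →* R₀) (w : R)
    (hw : orderOf w = q) (hσ : σ w = 1) (φ : R → A) (h : ∀ r, φ (r * w) = φ r) (r₀ : R₀) :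
    pushFun σ φ r₀ = 1 := by
  unfold pushFun
  refine prod_eq_one_of_invariant hA w hw _ (fun r => ?_)
  have h1 : σ (r * w) = σ r := by rw [map_mul, hσ, mul_one]
  rw [h, h1]

end PushFun

section PushWr

variable {J J₀ R R₀ A : Type} [Group J] [Group J₀] [Group R] [Group R₀] [CommGroup A]

/-- The push forward homomorphism of wreath products. -/
noncomputable def wpush [Fintype R] (A : Type) [CommGroup A] (f : J →* J₀) (σ : R →* R₀)
    (κ : J →* R) (κ₀ : J₀ →* R₀) (h : ∀ x, κ₀ (f x) = σ (κ x)) : Wr κ A →* Wr κ₀ A where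
  toFun w := ⟨pushFun σ w.f, f w.x⟩
  map_one' := by
    apply Wr.ext
    · funext r₀
      exact pushFun_one σ r₀
    · exact map_one f
  map_mul' a b := by
    apply Wr.ext
    · funext r₀
      change pushFun σ (fun r => a.f r * b.f ((κ a.x)⁻¹ * r)) r₀ =
        pushFun σ a.f r₀ * pushFun σ b.f ((κ₀ (f a.x))⁻¹ * r₀)
      rw [pushFun_mul, pushFun_left, h]
    · exact map_mul f _ _

theorem wpush_f [Fintype R] (f : J →* J₀) (σ : R →* R₀)
    (κ : J →* R) (κ₀ : J₀ →* R₀) (h : ∀ x, κ₀ (f x) = σ (κ x)) (w : Wr κ A) :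
    (wpush A f σ κ κ₀ h w).f = pushFun σ w.f := rfl

theorem wpush_x [Fintype R] (f : J →* J₀) (σ : R →* R₀)
    (κ : J →* R) (κ₀ : J₀ →* R₀) (h : ∀ x, κ₀ (f x) = σ (κ x)) (w : Wr κ A) :
    (wpush A f σ κ κ₀ h w).x = f w.x := rfl

theorem wpush_surjective [Fintype R] (f : J →* J₀) (σ : R →* R₀)
    (κ : J →* R) (κ₀ : J₀ →* R₀) (h : ∀ x, κ₀ (f x) = σ (κ x)) (hf : Surjective f)
    (hσ : Surjective σ) : Surjective (wpush A f σ κ κ₀ h) := by
  intro w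
  obtain ⟨φ, hφ⟩ := pushFun_surjective σ hσ w.f
  obtain ⟨x, hx⟩ := hf w.x
  exact ⟨⟨φ, x⟩, Wr.ext hφ hx⟩

end PushWr

theorem cyc_pow (q : ℕ) (a : Cyc q) : a ^ q = 1 := by
  have : (Multiplicative.toAdd (a ^ q)) = 0 := by
    rw [toAdd_pow]
    simp
  exact Multiplicative.toAdd.injective this

end GoodAux

open GoodAux

variable {𝒳 𝒴 : MarkSys}

theorem Obj.Good₁.cover {O O' : Obj 𝒳 𝒴} {f : O'.J →* O.J} (hc : O'.Cov O f) {q : ℕ}
    (hq : q.Prime) (h : O.Good₁ q) : O'.Good₁ q := by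
  intro J3 _ g z hz
  have : Finite O'.J := 𝒳.fin O'.x
  have : Finite J3 := 𝒳.fin z
  have : NeZero q := ⟨hq.ne_zero⟩
  obtain ⟨y0, hy0, φ0, hφ0, a0, w0, hw0, hne⟩ := h J3 (f.comp g) z (𝒳.comp hc.1 hz)
  have hle : O'.Z₁ ≤ O.Z₁.comap f := by
    intro t ht
    have : f t ∈ (𝒳.Z O'.x).map f := ⟨t, ht, rfl⟩
    rw [𝒳.map_Z hc.1] at this
    exact this
  let σ : O'.J ⧸ O'.Z₁ →* O.J ⧸ O.Z₁ := QuotientGroup.map O'.Z₁ O.Z₁ f hle
  have hfs : Surjective f := 𝒳.surj hc.1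
  have hσ : Surjective σ := by
    intro r
    obtain ⟨t, rfl⟩ := QuotientGroup.mk_surjective r
    obtain ⟨s, rfl⟩ := hfs t
    exact ⟨QuotientGroup.mk s, rfl⟩
  have : Fintype (O'.J ⧸ O'.Z₁) := Fintype.ofFinite _
  let P : Wr ((QuotientGroup.mk' O'.Z₁).comp g) (Cyc q) →*
      Wr ((QuotientGroup.mk' O.Z₁).comp (f.comp g)) (Cyc q) :=
    wpush (Cyc q) (MonoidHom.id J3) σ _ _ (fun x => rfl)
  have hP : Surjective P := wpush_surjective _ _ _ _ _ surjective_id hσ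
  obtain ⟨y', hy'⟩ := 𝒳.lift P y0 hP
  refine ⟨y', ?_, ?_⟩
  · have h1 := 𝒳.comp hy0 hy'
    have h2 : (Wr.pr : Wr ((QuotientGroup.mk' O.Z₁).comp (f.comp g)) (Cyc q) →* J3).comp P =
      Wr.pr := by
      ext w
      rfl
    rwa [h2] at h1
  · rw [← 𝒳.map_Z hy'] at hφ0
    obtain ⟨⟨Φ, x⟩, hΦ, hΦ'⟩ := hφ0
    have hx : x = 1 := congrArg Wr.x hΦ'
    subst hx
    have hΦ0 : pushFun σ Φ = φ0 := congrArg Wr.f hΦ'
    refine ⟨Φ, hΦ, ?_⟩
    by_contra hcon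
    push Not at hcon
    apply hne
    obtain ⟨t, ht, rfl⟩ := hw0
    have ht' : t ∈ (𝒴.Z O'.y).map f := by
      rw [𝒴.map_Z hc.2]
      exact ht
    obtain ⟨s, hs, rfl⟩ := ht'
    have h3 : (QuotientGroup.mk' O.Z₁) (f s) = σ (QuotientGroup.mk' O'.Z₁ s) := rfl
    have h4 : (fun r => Φ (r * QuotientGroup.mk' O'.Z₁ s)) = Φ := by
      funext r
      exact hcon r _ ⟨s, hs, rfl⟩
    rw [← hΦ0, h3, ← pushFun_right, h4]

theorem Obj.Good₁.quot {O O' : Obj 𝒳 𝒴} {f : O.J →* O'.J} (hc : O.Cov O' f)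
    (hker : ∀ t, f t = 1 → t ∈ O.Z₁) {q : ℕ} (hq : q.Prime) (h : O.Good₁ q) : O'.Good₁ q := by
  have : NeZero q := ⟨hq.ne_zero⟩
  intro J3 _ g z hz
  have : Finite O.J := 𝒳.fin O.x
  have : Finite J3 := 𝒳.fin z
  obtain ⟨J4, _, g1, g2, t, ht1, ht2, hcomm⟩ := 𝒳.join hc.1 hz
  obtain ⟨y', hy', φ, hφ, a, w, hw, hne⟩ := h J4 g1 t ht1
  have hle : O.Z₁ ≤ O'.Z₁.comap f := by
    intro t ht
    have : f t ∈ (𝒳.Z O.x).map f := ⟨t, ht, rfl⟩
    rw [𝒳.map_Z hc.1] at this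
    exact this
  let σ : O.J ⧸ O.Z₁ →* O'.J ⧸ O'.Z₁ := QuotientGroup.map O.Z₁ O'.Z₁ f hle
  have hfs : Surjective f := 𝒳.surj hc.1
  have hσ : Surjective σ := by
    intro r
    obtain ⟨t, rfl⟩ := QuotientGroup.mk_surjective r
    obtain ⟨s, rfl⟩ := hfs t
    exact ⟨QuotientGroup.mk s, rfl⟩
  have hσi : Injective σ := by
    rw [injective_iff_map_eq_one]
    intro r hr
    obtain ⟨t, rfl⟩ := QuotientGroup.mk_surjective r
    have h1 : f t ∈ O'.Z₁ := (QuotientGroup.eq_one_iff (N := O'.Z₁) (f t)).mp hr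
    have h2 : f t ∈ (𝒳.Z O.x).map f := by
      rw [𝒳.map_Z hc.1]
      exact h1
    obtain ⟨s, hs, hst⟩ := h2
    have h3 : s⁻¹ * t ∈ O.Z₁ := hker _ (by rw [map_mul, map_inv, hst]; simp)
    have h4 : t ∈ O.Z₁ := by
      have := O.Z₁.mul_mem hs h3
      simpa using this
    exact (QuotientGroup.eq_one_iff (N := O.Z₁) t).mpr h4
  have : Fintype (O.J ⧸ O.Z₁) := Fintype.ofFinite _
  let P : Wr ((QuotientGroup.mk' O.Z₁).comp g1) (Cyc q) →*
      Wr ((QuotientGroup.mk' O'.Z₁).comp g) (Cyc q) :=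
    wpush (Cyc q) g2 σ _ _ (fun x => by
      change QuotientGroup.mk' O'.Z₁ (g (g2 x)) = QuotientGroup.mk' O'.Z₁ (f (g1 x))
      rw [hcomm])
  have hP : Surjective P := wpush_surjective _ _ _ _ _ (𝒳.surj ht2) hσ
  obtain ⟨m, hm, hm'⟩ := 𝒳.push P y' hP
  refine ⟨m, ?_, pushFun σ φ, ?_, σ a, σ w, ?_, ?_⟩
  · apply hm'
    have h1 := 𝒳.comp ht2 hy'
    have h2 : (Wr.pr : Wr ((QuotientGroup.mk' O'.Z₁).comp g) (Cyc q) →* J3).comp P =
      g2.comp Wr.pr := by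
      ext w
      rfl
    rwa [h2]
  · rw [← 𝒳.map_Z hm]
    refine ⟨⟨φ, 1⟩, hφ, ?_⟩
    apply Wr.ext
    · rfl
    · exact map_one g2
  · obtain ⟨s, hs, rfl⟩ := hw
    refine ⟨f s, ?_, rfl⟩
    have : f s ∈ (𝒴.Z O.y).map f := ⟨s, hs, rfl⟩
    rw [𝒴.map_Z hc.2] at this
    exact this
  · rw [← map_mul, pushFun_inj σ hσi, pushFun_inj σ hσi]
    exact hne


/-- A good marking from an element of order `q` in the kernel of a further quotient. -/
theorem good_of_ord {J R R₀ : Type} [Group J] [Group R] [Group R₀] (x : 𝒳.Mk J) (κ : J →* R)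
    (hκ : Surjective κ) (hκx : ∀ z ∈ 𝒳.Z x, κ z = 1) (W : Subgroup R) {q : ℕ} (hq : q.Prime)
    (w : R) (hw : w ∈ W) (hwq : orderOf w = q) (σ : R →* R₀) (hσ : Surjective σ) (hσw : σ w = 1)
    (β : (σ.comp κ).ker →* Cyc q) (hβ : ∃ z : (σ.comp κ).ker, (z : J) ∈ 𝒳.Z x ∧ β z ≠ 1) :
    Good 𝒳 x κ W q := by
  intro J' _ h z hz
  have : Fact q.Prime := ⟨hq⟩
  have : NeZero q := ⟨hq.ne_zero⟩
  have : Finite J := 𝒳.fin x
  have : Finite J' := 𝒳.fin z
  have : Finite R := Finite.of_surjective κ hκ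
  have : Fintype R := Fintype.ofFinite R
  have hh : Surjective h := 𝒳.surj hz
  let κ₀ : J' →* R₀ := (σ.comp κ).comp h
  have hκ₀ : Surjective κ₀ := (hσ.comp hκ).comp hh
  let β' : κ₀.ker →* Cyc q := β.comp
    ((h.comp κ₀.ker.subtype).codRestrict (σ.comp κ).ker (fun t => t.2))
  have h1 : ∀ t ∈ 𝒳.Z z, κ₀ t = 1 := by
    intro t ht
    have h2 : h t ∈ (𝒳.Z z).map h := ⟨t, ht, rfl⟩
    rw [𝒳.map_Z hz] at h2
    change σ (κ (h t)) = 1
    rw [hκx _ h2, map_one]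
  obtain ⟨z0, hz0, hz0'⟩ := hβ
  have h2 : (z0 : J) ∈ (𝒳.Z z).map h := by
    rw [𝒳.map_Z hz]
    exact hz0
  obtain ⟨t, ht, ht'⟩ := h2
  obtain ⟨y0, hy0, φ1, hφ1, hφ1'⟩ := 𝒳.nl κ₀ z q hκ₀ h1 β' ⟨⟨t, h1 t ht⟩, ht, by
    have e : β' ⟨t, h1 t ht⟩ = β z0 := by
      change β _ = β _
      congr 1
      exact Subtype.ext ht'
    rw [e]
    exact hz0'⟩
  let P : Wr (κ.comp h) (Cyc q) →* Wr κ₀ (Cyc q) :=
    wpush (Cyc q) (MonoidHom.id J') σ _ _ (fun x => rfl)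
  have hP : Surjective P := wpush_surjective _ _ _ _ _ surjective_id hσ
  obtain ⟨y', hy'⟩ := 𝒳.lift P y0 hP
  refine ⟨y', ?_, ?_⟩
  · have h3 := 𝒳.comp hy0 hy'
    have h4 : (Wr.pr : Wr κ₀ (Cyc q) →* J').comp P = Wr.pr := by
      ext w
      rfl
    rwa [h4] at h3
  · rw [← 𝒳.map_Z hy'] at hφ1'
    obtain ⟨⟨Φ, s⟩, hΦ, hΦ'⟩ := hφ1'
    have hs : s = 1 := congrArg Wr.x hΦ'
    subst hs
    have hΦ0 : pushFun σ Φ = φ1 := congrArg Wr.f hΦ'
    refine ⟨Φ, hΦ, ?_⟩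
    by_contra hcon
    push Not at hcon
    apply hφ1
    rw [← hΦ0]
    funext r₀
    exact pushFun_eq_one (cyc_pow q) σ w hwq hσw Φ (fun r => hcon r w hw) r₀

/-- Elements of the cyclic group of order two. -/
theorem cyc_two {a b : Cyc 2} (h : a ≠ b) : a * b ≠ 1 := by
  revert a b
  decide

theorem cyc_two' {a b : Cyc 2} (ha : a ≠ 1) (hb : b ≠ 1) : a * b = 1 := by
  revert a b
  decide

theorem cyc_sq (a : Cyc 2) : a * a = 1 := by
  revert a
  decide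

/-- Extension of an invariant character from a subgroup of index two. -/
theorem exists_extend {U : Type} [Group U] (N : Subgroup U) [hN : N.Normal] (u : U) (hu : u ∉ N)
    (hi : ∀ x, x ∉ N → u⁻¹ * x ∈ N) (l : N →* Cyc 2)
    (hinv : ∀ n : N, l ⟨u * n * u⁻¹, hN.conj_mem n n.2 u⟩ = l n)
    (h2 : ∀ h : u * u ∈ N, l ⟨u * u, h⟩ = 1) : ∃ β : U →* Cyc 2, ∀ n : N, β n = l n := by
  classical
  have hinv' : ∀ n : N, ∀ h : u⁻¹ * n * u ∈ N, l ⟨u⁻¹ * n * u, h⟩ = l n := by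
    intro n h
    rw [← hinv ⟨u⁻¹ * n * u, h⟩]
    congr 1
    apply Subtype.ext
    simp [mul_assoc]
  have hni : ∀ n : N, u⁻¹ * n * u ∈ N := by
    intro n
    have := hN.conj_mem n n.2 u⁻¹
    rwa [inv_inv] at this
  let b : U → Cyc 2 := fun x => if h : x ∈ N then l ⟨x, h⟩ else l ⟨u⁻¹ * x, hi x h⟩
  have b1 : ∀ x (h : x ∈ N), b x = l ⟨x, h⟩ := fun x h => dif_pos h
  have b2 : ∀ x (h : x ∉ N), b x = l ⟨u⁻¹ * x, hi x h⟩ := fun x h => dif_neg h
  have hmul : ∀ x y, b (x * y) = b x * b y := by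
    intro x y
    by_cases hx : x ∈ N
    · by_cases hy : y ∈ N
      · rw [b1 x hx, b1 y hy, b1 _ (N.mul_mem hx hy), ← map_mul]
        rfl
      · have hxy : x * y ∉ N := fun h => hy (by
          have := N.mul_mem (N.inv_mem hx) h
          simpa using this)
        rw [b1 x hx, b2 y hy, b2 _ hxy, ← hinv' ⟨x, hx⟩ (hni ⟨x, hx⟩), ← map_mul]
        congr 1
        apply Subtype.ext
        simp [mul_assoc]
    · by_cases hy : y ∈ N
      · have hxy : x * y ∉ N := fun h => hx (by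
          have := N.mul_mem h (N.inv_mem hy)
          simpa using this)
        rw [b2 x hx, b1 y hy, b2 _ hxy, ← map_mul]
        congr 1
        apply Subtype.ext
        simp [mul_assoc]
      · -- both outside
        have hx1 := hi x hx
        have hy1 := hi y hy
        have huu : u * u ∈ N := by
          by_contra h
          have := hi _ h
          simp only [inv_mul_cancel_left] at this
          exact hu this
        have hxy : x * y ∈ N := by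
          have h3 : x * y = (u * (u⁻¹ * x) * u⁻¹) * (u * u) * (u⁻¹ * y) := by group
          rw [h3]
          exact N.mul_mem (N.mul_mem (hN.conj_mem _ hx1 u) huu) hy1
        rw [b2 x hx, b2 y hy, b1 _ hxy]
        have h4 : (⟨x * y, hxy⟩ : N) = ⟨u * (u⁻¹ * x) * u⁻¹, hN.conj_mem _ hx1 u⟩ *
            ⟨u * u, huu⟩ * ⟨u⁻¹ * y, hy1⟩ := by
          apply Subtype.ext
          change x * y = (u * (u⁻¹ * x) * u⁻¹) * (u * u) * (u⁻¹ * y)
          group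
        rw [h4, map_mul, map_mul, h2 huu, mul_one, hinv ⟨u⁻¹ * x, hx1⟩]
  refine ⟨{ toFun := b, map_one' := ?_, map_mul' := hmul }, fun n => ?_⟩
  · rw [b1 1 N.one_mem]
    exact map_one l
  · exact b1 n n.2

/-- The small lemma on subgroups of index two. -/
theorem exists_char_two {U : Type} [Group U] (N : Subgroup U) [hN : N.Normal] (u : U) (hu : u ∉ N)
    (hi : ∀ x, x ∉ N → u⁻¹ * x ∈ N) (l₁ l₂ : N →* Cyc 2) (h1 : ∃ n, l₁ n ≠ 1) (h2 : ∃ n, l₂ n ≠ 1)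
    (h3 : ∃ n, l₁ n * l₂ n ≠ 1) : ∃ β : U →* Cyc 2, ∃ n : N, β n ≠ 1 := by
  have huu : u * u ∈ N := by
    by_contra h
    have := hi _ h
    simp only [inv_mul_cancel_left] at this
    exact hu this
  let c : N →* N :=
    { toFun := fun n => ⟨u * n * u⁻¹, hN.conj_mem n n.2 u⟩
      map_one' := by apply Subtype.ext; simp
      map_mul' := by intro a b; apply Subtype.ext; simp [mul_assoc] }
  have key : ∀ l : N →* Cyc 2, (∀ n, l (c n) = l n) → l ⟨u * u, huu⟩ = 1 → (∃ n, l n ≠ 1) →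
      ∃ β : U →* Cyc 2, ∃ n : N, β n ≠ 1 := by
    intro l hl hl2 hl3
    obtain ⟨β, hβ⟩ := exists_extend N u hu hi l hl (fun _ => hl2)
    obtain ⟨n, hn⟩ := hl3
    exact ⟨β, n, by rw [hβ]; exact hn⟩
  have key2 : ∀ l : N →* Cyc 2, (∃ n, l (c n) ≠ l n) → ∃ β : U →* Cyc 2, ∃ n : N, β n ≠ 1 := by
    intro l ⟨n, hn⟩
    have hcc : ∀ m, l (c (c m)) = l m := by
      intro m
      have e : c (c m) = ⟨u * u, huu⟩ * m * (⟨u * u, huu⟩ : N)⁻¹ := by
        apply Subtype.ext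
        change u * (u * m * u⁻¹) * u⁻¹ = u * u * m * (u * u)⁻¹
        group
      rw [e, map_mul, map_mul, map_inv, mul_comm, inv_mul_cancel_left]
    refine key (l * l.comp c) ?_ ?_ ⟨n, ?_⟩
    · intro m
      change l (c m) * l (c (c m)) = l m * l (c m)
      rw [hcc, mul_comm]
    · change l ⟨u * u, huu⟩ * l (c ⟨u * u, huu⟩) = 1
      have e : c ⟨u * u, huu⟩ = ⟨u * u, huu⟩ := by
        apply Subtype.ext
        change u * (u * u) * u⁻¹ = u * u
        group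
      rw [e]
      exact cyc_sq _
    · change l n * l (c n) ≠ 1
      exact cyc_two (Ne.symm hn)
  by_cases c1 : ∀ n, l₁ (c n) = l₁ n
  · by_cases c2 : ∀ n, l₂ (c n) = l₂ n
    · by_cases d1 : l₁ ⟨u * u, huu⟩ = 1
      · exact key l₁ c1 d1 h1
      · by_cases d2 : l₂ ⟨u * u, huu⟩ = 1
        · exact key l₂ c2 d2 h2
        · refine key (l₁ * l₂) ?_ ?_ h3
          · intro n
            change l₁ (c n) * l₂ (c n) = l₁ n * l₂ n
            rw [c1, c2]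
          · exact cyc_two' d1 d2
    · push Not at c2
      exact key2 l₂ c2
  · push Not at c1
    exact key2 l₁ c1


theorem cyc_gen_ne_one {q : ℕ} (hq : q.Prime) : (Multiplicative.ofAdd (1 : ZMod q) : Cyc q) ≠ 1 := by
  have : Fact q.Prime := ⟨hq⟩
  intro h
  have h1 : (1 : ZMod q) = 0 := Multiplicative.ofAdd.injective h
  exact one_ne_zero h1

theorem cyc_gen_inv {q : ℕ} (hq : q.Prime) (hq2 : q ≠ 2) :
    (Multiplicative.ofAdd (1 : ZMod q) : Cyc q)⁻¹ ≠ Multiplicative.ofAdd (1 : ZMod q) := by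
  have : Fact q.Prime := ⟨hq⟩
  intro h
  have h1 : (-1 : ZMod q) = 1 := Multiplicative.ofAdd.injective h
  have h2 : ((2 : ℕ) : ZMod q) = 0 := by
    have h3 : (1 : ZMod q) + 1 = 0 := by
      nth_rewrite 1 [← h1]
      exact neg_add_cancel _
    rw [← h3]
    push_cast
    norm_num
  rw [ZMod.natCast_eq_zero_iff] at h2
  have := (Nat.prime_dvd_prime_iff_eq hq Nat.prime_two).mp h2
  exact hq2 this

/-- the base group of a wreath product -/
def baseHom {G K A : Type} [Group G] [Group K] [CommGroup A] (κ : G →* K) : (K → A) →* Wr κ A where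
  toFun φ := ⟨φ, 1⟩
  map_one' := rfl
  map_mul' a b := by
    apply Wr.ext
    · funext k
      simp
    · simp

theorem exists_good₁ (O : Obj 𝒳 𝒴) (hI : O.Inc) {q : ℕ} (hq : q.Prime) :
    ∃ (O' : Obj 𝒳 𝒴) (f : O'.J →* O.J), O'.Cov O f ∧ O'.Good₁ q := by
  classical
  have : Fact q.Prime := ⟨hq⟩
  have : NeZero q := ⟨hq.ne_zero⟩
  have : Finite O.J := 𝒳.fin O.x
  -- Step 0: make the marked subgroup map onto `C_q × C_q`
  obtain ⟨J0, _, f0, x0, hx0, h0, hh0, _⟩ := 𝒳.emb (K := 𝒳.Z O.x × (Cyc q × Cyc q)) O.x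
    (MonoidHom.fst _ _) Prod.fst_surjective
  have : Finite J0 := 𝒳.fin x0
  obtain ⟨y0, hy0⟩ := 𝒴.lift f0 O.y (𝒳.surj hx0)
  let c : 𝒳.Z x0 →* Cyc q × Cyc q := (MonoidHom.snd _ _).comp h0
  have hc : Surjective c := Prod.snd_surjective.comp hh0
  have hinc : ∃ z ∈ 𝒴.Z y0, z ∉ 𝒳.Z x0 := by
    by_contra hcon
    push Not at hcon
    apply hI.2
    intro t ht
    have h1 : t ∈ (𝒴.Z y0).map f0 := by
      rw [𝒴.map_Z hy0]
      exact ht
    obtain ⟨s, hs, rfl⟩ := h1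
    have h2 : f0 s ∈ (𝒳.Z x0).map f0 := ⟨s, hcon s hs, rfl⟩
    rw [𝒳.map_Z hx0] at h2
    exact h2
  obtain ⟨z, hz, hz'⟩ := hinc
  let κ : J0 →* J0 ⧸ 𝒳.Z x0 := QuotientGroup.mk' (𝒳.Z x0)
  have hκ : Surjective κ := QuotientGroup.mk'_surjective _
  have hκ1 : ∀ t, κ t = 1 ↔ t ∈ 𝒳.Z x0 := fun t => QuotientGroup.eq_one_iff (N := 𝒳.Z x0) t
  let W : Subgroup (J0 ⧸ 𝒳.Z x0) := (𝒴.Z y0).map κ
  have hWn : W.Normal := Subgroup.Normal.map (𝒴.normal y0) κ hκ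
  have hw : κ z ∈ W := ⟨z, hz, rfl⟩
  have hw1 : κ z ≠ 1 := fun h => hz' ((hκ1 z).mp h)
  let g : Cyc q := Multiplicative.ofAdd (1 : ZMod q)
  have hg : g ≠ 1 := cyc_gen_ne_one hq
  by_cases hcase : q = 2 ∧ ∀ w ∈ W, w ≠ 1 → w = κ z
  · -- the index two case
    obtain ⟨hq2, hW2⟩ := hcase
    subst hq2
    refine ⟨⟨J0, inferInstance, x0, y0⟩, f0, ⟨hx0, hy0⟩, ?_⟩
    let σ : J0 ⧸ 𝒳.Z x0 →* (J0 ⧸ 𝒳.Z x0) ⧸ W := QuotientGroup.mk' W
    have hσ : ∀ r, σ r = 1 ↔ r ∈ W := fun r => QuotientGroup.eq_one_iff (N := W) r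
    let N : Subgroup (σ.comp κ).ker := (𝒳.Z x0).subgroupOf (σ.comp κ).ker
    have hNn : N.Normal := inferInstance
    have hZU : 𝒳.Z x0 ≤ (σ.comp κ).ker := by
      intro t ht
      change σ (κ t) = 1
      rw [(hκ1 t).mpr ht, map_one]
    have hU : ∀ t : (σ.comp κ).ker, κ (t : J0) ∈ W := fun t => (hσ _).mp t.2
    let u : (σ.comp κ).ker := ⟨z, (hσ _).mpr hw⟩
    have hu : u ∉ N := fun h => hz' h
    have hi : ∀ x, x ∉ N → u⁻¹ * x ∈ N := by
      intro x hx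
      have h1 : κ (x : J0) ≠ 1 := fun h => hx ((hκ1 _).mp h)
      have h2 := hW2 _ (hU x) h1
      change (z⁻¹ * (x : J0)) ∈ 𝒳.Z x0
      rw [← hκ1, map_mul, map_inv, h2, inv_mul_cancel]
    let r : N →* 𝒳.Z x0 := ((σ.comp κ).ker.subtype.comp N.subtype).codRestrict (𝒳.Z x0)
      (fun t => t.2)
    have hr : ∀ t : 𝒳.Z x0, ∃ n : N, r n = t := fun t => ⟨⟨⟨t, hZU t.2⟩, t.2⟩, rfl⟩
    let l₁ : N →* Cyc 2 := ((MonoidHom.fst _ _).comp c).comp r
    let l₂ : N →* Cyc 2 := ((MonoidHom.snd _ _).comp c).comp r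
    have hl : ∀ a b : Cyc 2, ∃ n, l₁ n = a ∧ l₂ n = b := by
      intro a b
      obtain ⟨t, ht⟩ := hc (a, b)
      obtain ⟨n, hn⟩ := hr t
      refine ⟨n, ?_, ?_⟩
      · change (c (r n)).1 = a
        rw [hn, ht]
      · change (c (r n)).2 = b
        rw [hn, ht]
    obtain ⟨β, n, hβn⟩ := exists_char_two N u hu hi l₁ l₂
      (by obtain ⟨n, h1, _⟩ := hl g 1; exact ⟨n, by rw [h1]; exact hg⟩)
      (by obtain ⟨n, _, h1⟩ := hl 1 g; exact ⟨n, by rw [h1]; exact hg⟩)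
      (by obtain ⟨n, h1, h2⟩ := hl g 1; exact ⟨n, by rw [h1, h2, mul_one]; exact hg⟩)
    have hwq : orderOf (κ z) = 2 := by
      refine orderOf_eq_prime ?_ hw1
      by_contra hne
      have h1 := hW2 _ (W.pow_mem hw 2) hne
      rw [pow_two] at h1
      exact hw1 (mul_eq_left.mp h1)
    exact good_of_ord x0 κ hκ (fun t ht => (hκ1 t).mpr ht) W Nat.prime_two (κ z) hw hwq σ
      (QuotientGroup.mk'_surjective _) ((hσ _).mpr hw) β ⟨n.1, n.2, hβn⟩
  · by_cases hgood : Obj.Good₁ (⟨J0, inferInstance, x0, y0⟩ : Obj 𝒳 𝒴) q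
    · exact ⟨⟨J0, inferInstance, x0, y0⟩, f0, ⟨hx0, hy0⟩, hgood⟩
    · have hbad : ∃ (J' : Type) (_ : Group J') (f : J' →* J0) (y : 𝒳.Mk J'), 𝒳.Cov f y x0 ∧
          ∀ y' : 𝒳.Mk (Wr (κ.comp f) (Cyc q)), 𝒳.Cov Wr.pr y' y →
            ∀ φ : J0 ⧸ 𝒳.Z x0 → Cyc q, (⟨φ, 1⟩ : Wr (κ.comp f) (Cyc q)) ∈ 𝒳.Z y' →
              ∀ a, ∀ w ∈ W, φ (a * w) = φ a := by
        by_contra hcon
        apply hgood
        intro J' _ f y hy
        by_contra hcon2
        apply hcon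
        refine ⟨J', inferInstance, f, y, hy, ?_⟩
        intro y' hy' φ hφ a w hw
        by_contra hne
        exact hcon2 ⟨y', hy', φ, hφ, a, w, hw, hne⟩
      obtain ⟨J', _, f, y, hy, hbad⟩ := hbad
      have : Finite J' := 𝒳.fin y
      have hpr : Surjective (Wr.pr : Wr (κ.comp f) (Cyc q) →* J') := fun t => ⟨⟨1, t⟩, rfl⟩
      obtain ⟨y1, hy1⟩ := 𝒳.lift (Wr.pr : Wr (κ.comp f) (Cyc q) →* J') y hpr
      obtain ⟨z', hz''⟩ := 𝒴.lift f y0 (𝒳.surj hy)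
      obtain ⟨z1, hz1⟩ := 𝒴.lift (Wr.pr : Wr (κ.comp f) (Cyc q) →* J') z' hpr
      have hcx : 𝒳.Cov (f.comp Wr.pr) y1 x0 := 𝒳.comp hy hy1
      have hcy : 𝒴.Cov (f.comp Wr.pr) z1 y0 := 𝒴.comp hz'' hz1
      refine ⟨⟨Wr (κ.comp f) (Cyc q), inferInstance, y1, z1⟩, f0.comp (f.comp Wr.pr),
        ⟨𝒳.comp hx0 hcx, 𝒴.comp hy0 hcy⟩, ?_⟩
      -- the commutator
      have hzm : z ∈ (𝒴.Z z1).map (f.comp Wr.pr) := by
        rw [𝒴.map_Z hcy]
        exact hz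
      obtain ⟨t, ht, htz⟩ := hzm
      have htz' : f t.x = z := htz
      have hnorm : (𝒴.Z z1).Normal := 𝒴.normal z1
      let e : Wr (κ.comp f) (Cyc q) := ⟨Pi.mulSingle 1 g, 1⟩
      let ν : J0 ⧸ 𝒳.Z x0 → Cyc q := fun a =>
        (Pi.mulSingle 1 g : J0 ⧸ 𝒳.Z x0 → Cyc q) a *
          ((Pi.mulSingle 1 g : J0 ⧸ 𝒳.Z x0 → Cyc q) ((κ z)⁻¹ * a))⁻¹
      have hE : e * t * e⁻¹ * t⁻¹ = (⟨ν, 1⟩ : Wr (κ.comp f) (Cyc q)) := by
        apply Wr.ext
        · funext a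
          have h1 : (e * t * e⁻¹ * t⁻¹).f a = (Pi.mulSingle 1 g : J0 ⧸ 𝒳.Z x0 → Cyc q) a *
              t.f ((κ (f 1))⁻¹ * a) *
              ((Pi.mulSingle 1 g : J0 ⧸ 𝒳.Z x0 → Cyc q)
                (κ (f 1) * ((κ (f (1 * t.x)))⁻¹ * a)))⁻¹ *
              (t.f (κ (f t.x) * ((κ (f (1 * t.x * 1⁻¹)))⁻¹ * a)))⁻¹ := rfl
          rw [h1]
          simp only [map_one, inv_one, one_mul, mul_one, mul_inv_cancel_left, htz']
          change _ = (Pi.mulSingle 1 g : J0 ⧸ 𝒳.Z x0 → Cyc q) a *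
            ((Pi.mulSingle 1 g : J0 ⧸ 𝒳.Z x0 → Cyc q) ((κ z)⁻¹ * a))⁻¹
          rw [mul_assoc, mul_assoc, mul_comm (t.f a), mul_assoc, inv_mul_cancel, mul_one]
        · change 1 * t.x * 1⁻¹ * t.x⁻¹ = 1
          simp
      have hEm : (⟨ν, 1⟩ : Wr (κ.comp f) (Cyc q)) ∈ 𝒴.Z z1 := by
        rw [← hE]
        exact (𝒴.Z z1).mul_mem (hnorm.conj_mem t ht e) ((𝒴.Z z1).inv_mem ht)
      have hν1 : ν 1 = g := by
        change (Pi.mulSingle 1 g : J0 ⧸ 𝒳.Z x0 → Cyc q) 1 *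
            ((Pi.mulSingle 1 g : J0 ⧸ 𝒳.Z x0 → Cyc q) ((κ z)⁻¹ * 1))⁻¹ = g
        rw [Pi.mulSingle_eq_same, Pi.mulSingle_eq_of_ne, inv_one, mul_one]
        rw [mul_one]
        exact inv_ne_one.mpr hw1
      have hEn : (⟨ν, 1⟩ : Wr (κ.comp f) (Cyc q)) ∉ 𝒳.Z y1 := by
        intro hmem
        have hinv := hbad y1 hy1 ν hmem 1
        by_cases hq2 : q = 2
        · have h3 : ∃ w ∈ W, w ≠ 1 ∧ w ≠ κ z := by
            by_contra hcon
            push Not at hcon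
            exact hcase ⟨hq2, hcon⟩
          obtain ⟨w, hwW, hw1', hwz⟩ := h3
          have h4 := hinv w hwW
          rw [hν1, one_mul] at h4
          have h5 : ν w = 1 := by
            change (Pi.mulSingle 1 g : J0 ⧸ 𝒳.Z x0 → Cyc q) w *
              ((Pi.mulSingle 1 g : J0 ⧸ 𝒳.Z x0 → Cyc q) ((κ z)⁻¹ * w))⁻¹ = 1
            rw [Pi.mulSingle_eq_of_ne hw1', Pi.mulSingle_eq_of_ne, inv_one, mul_one]
            intro h6
            exact hwz (inv_mul_eq_one.mp h6).symm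
          rw [h5] at h4
          exact hg h4.symm
        · have h4 := hinv (κ z) hw
          rw [hν1, one_mul] at h4
          have h5 : ν (κ z) = g⁻¹ := by
            change (Pi.mulSingle 1 g : J0 ⧸ 𝒳.Z x0 → Cyc q) (κ z) *
              ((Pi.mulSingle 1 g : J0 ⧸ 𝒳.Z x0 → Cyc q) ((κ z)⁻¹ * κ z))⁻¹ = g⁻¹
            rw [Pi.mulSingle_eq_of_ne hw1, inv_mul_cancel, Pi.mulSingle_eq_same, one_mul]
          rw [h5] at h4
          exact cyc_gen_inv hq hq2 h4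
      -- apply the ORD lemma
      let κX : Wr (κ.comp f) (Cyc q) →* Wr (κ.comp f) (Cyc q) ⧸ 𝒳.Z y1 :=
        QuotientGroup.mk' (𝒳.Z y1)
      have hκX : ∀ s, κX s = 1 ↔ s ∈ 𝒳.Z y1 := fun s => QuotientGroup.eq_one_iff (N := 𝒳.Z y1) s
      have hmapx : ∀ s ∈ 𝒳.Z y1, f s.x ∈ 𝒳.Z x0 := by
        intro s hs
        have h1 : (f.comp Wr.pr) s ∈ (𝒳.Z y1).map (f.comp Wr.pr) := ⟨s, hs, rfl⟩
        rw [𝒳.map_Z hcx] at h1
        exact h1
      let σ : Wr (κ.comp f) (Cyc q) ⧸ 𝒳.Z y1 →* J0 ⧸ 𝒳.Z x0 :=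
        QuotientGroup.lift (𝒳.Z y1) ((κ.comp f).comp Wr.pr) (fun s hs => (hκ1 _).mpr (hmapx s hs))
      have hσs : Surjective σ := by
        intro r
        obtain ⟨a, rfl⟩ := hκ r
        obtain ⟨b, rfl⟩ := (𝒳.surj hy) a
        exact ⟨κX ⟨1, b⟩, rfl⟩
      have hσκ : ∀ s, σ (κX s) = κ (f s.x) := fun s => rfl
      let β : (σ.comp κX).ker →* Cyc q := ((MonoidHom.fst _ _).comp c).comp
        (((f.comp Wr.pr).comp (σ.comp κX).ker.subtype).codRestrict (𝒳.Z x0)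
          (fun s => (hκ1 _).mp s.2))
      obtain ⟨a, ha⟩ := hc (g, 1)
      have ham : (a : J0) ∈ (𝒳.Z y1).map (f.comp Wr.pr) := by
        rw [𝒳.map_Z hcx]
        exact a.2
      obtain ⟨s, hs, hsa⟩ := ham
      have hsker : s ∈ (σ.comp κX).ker := by
        change κ (f s.x) = 1
        exact (hκ1 _).mpr (hmapx s hs)
      refine good_of_ord y1 κX (QuotientGroup.mk'_surjective _) (fun s hs => (hκX s).mpr hs)
        ((𝒴.Z z1).map κX) hq (κX ⟨ν, 1⟩) ⟨_, hEm, rfl⟩ ?_ σ hσs ?_ β ⟨⟨s, hsker⟩, hs, ?_⟩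
      · refine orderOf_eq_prime ?_ (fun h => hEn ((hκX _).mp h))
        rw [← map_pow]
        have h1 : (⟨ν, 1⟩ : Wr (κ.comp f) (Cyc q)) ^ q = 1 := by
          change (baseHom (κ.comp f) ν) ^ q = 1
          rw [← map_pow]
          have h2 : ν ^ q = 1 := by
            funext a
            exact cyc_pow q _
          rw [h2, map_one]
        rw [h1, map_one]
      · rw [hσκ]
        change κ (f 1) = 1
        simp
      · have h1 : β ⟨s, hsker⟩ = (c a).1 := by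
          change (c _).1 = (c a).1
          congr 2
          exact Subtype.ext hsa
        rw [h1, ha]
        exact hg

end Pool.Agent.Lib_helper5.Form
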