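import Pool.Agent.Lib_helper5.FormU

/-!
# Unique factorisation for normally hereditary formations
-/

set_option maxHeartbeats 400000

namespace Pool.Agent.Lib_helper5.Form

open Function

/-- The class of pairs of residuals. -/
def resClass {A A' B B' : Formation} (hB : B.NormallyHereditary) (hB' : B'.NormallyHereditary)
    (hfull : B'.Full) (h : A * B = A' * B') : TClass A A' where
  T J _ R₁ R₂ := Finite J ∧ R₁ = B.res J ∧ R₂ = B'.res J
  fin h := h.1
  norm₁ := by
    rintro J _ R₁ R₂ ⟨_, rfl, rfl⟩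
    infer_instance
  norm₂ := by
    rintro J _ R₁ R₂ ⟨_, rfl, rfl⟩
    infer_instance
  map := by
    rintro J J' _ _ R₁ R₂ ⟨hJ, rfl, rfl⟩ f hf
    exact ⟨Finite.of_surjective f hf, B.map_res f hf, B'.map_res f hf⟩
  prod := by
    rintro J J' _ _ R₁ R₂ R₁' R₂' ⟨hJ, rfl, rfl⟩ ⟨hJ', rfl, rfl⟩
    exact ⟨inferInstance, hB.res_prod.symm, hB'.res_prod.symm⟩
  lift := by
    rintro J L _ _ _ R₁ R₂ ⟨hJ, rfl, rfl⟩ f hf
    exact ⟨_, _, ⟨inferInstance, rfl, rfl⟩, B.map_res f hf, B'.map_res f hf⟩
  mem_iff := by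
    rintro J _ R₁ R₂ ⟨hJ, rfl, rfl⟩
    rw [← Formation.mem_comp_of_finite, ← Formation.mem_comp_of_finite, ← Formation.mul_def,
      ← Formation.mul_def, h]
  real := by
    intro Q _ _
    obtain ⟨G, _, _, π, hπ⟩ := hfull Q
    exact ⟨G, inferInstance, _, _, ⟨inferInstance, rfl, rfl⟩, π, hπ⟩

theorem not_incomparable {A A' B B' : Formation} (hA : A.NormallyHereditary)
    (hA' : A'.NormallyHereditary) (hB : B.NormallyHereditary) (hB' : B'.NormallyHereditary)
    (hI : A'.Indecomposable) (hfull : B'.Full) (h : A * B = A' * B') :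
    (∀ (G : Type) [Group G], B.mem G → B'.mem G) ∨ (∀ (G : Type) [Group G], B'.mem G → B.mem G) := by
  by_contra hcon
  push Not at hcon
  obtain ⟨⟨Y, _, hY, hY'⟩, ⟨X, _, hX, hX'⟩⟩ := hcon
  have hYf := B.finite_of_mem hY
  have hXf := B'.finite_of_mem hX
  let C := resClass hB hB' hfull h
  have h1 : C.T Y ⊥ (B'.res Y) := ⟨hYf, (B.mem_iff_res_eq_bot.mp hY).symm, rfl⟩
  have h2 : C.T X (B.res X) ⊥ := ⟨hXf, rfl, (B'.mem_iff_res_eq_bot.mp hX).symm⟩
  have h3 : B.res X ≠ ⊥ := fun hbot => hX' (B.mem_iff_res_eq_bot.mpr hbot)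
  have h4 := C.absorb hA hA' h1 h2 h3
  have h5 := subsingleton_of_DS hA' hI h4
  exact hY' (B'.mem_iff_res_eq_bot.mpr (Subgroup.eq_bot_of_subsingleton _))

/-- `Z` is the image of the `B'`-residual under a surjection of the `B`-residual onto `J`. -/
def ZC (B B' : Formation) (J : Type) [Group J] (Z : Subgroup J) : Prop :=
  Finite J ∧ ∃ (G : Type) (_ : Group G) (_ : Finite G) (π : B.res G →* J), Surjective π ∧
    ((B'.res G).subgroupOf (B.res G)).map π = Z

namespace ZC

variable {B B' : Formation}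

theorem normal {J : Type} [Group J] {Z : Subgroup J} (h : ZC B B' J Z) : Z.Normal := by
  obtain ⟨_, G, _, _, π, hπ, rfl⟩ := h
  exact Subgroup.Normal.map inferInstance π hπ

theorem map {J J' : Type} [Group J] [Group J'] {Z : Subgroup J} (h : ZC B B' J Z) (f : J →* J')
    (hf : Surjective f) : ZC B B' J' (Z.map f) := by
  obtain ⟨_, G, _, _, π, hπ, rfl⟩ := h
  exact ⟨Finite.of_surjective f hf, G, inferInstance, inferInstance, f.comp π, hf.comp hπ,
    (Subgroup.map_map _ _ _).symm⟩

theorem res_le (hle : ∀ (G : Type) [Group G], B.mem G → B'.mem G) (G : Type) [Group G] [Finite G] :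
    B'.res G ≤ B.res G :=
  B'.res_le _ (hle _ (B.mem_quotient_res G))

theorem self (G : Type) [Group G] [Finite G] :
    ZC B B' (B.res G) ((B'.res G).subgroupOf (B.res G)) :=
  ⟨inferInstance, G, inferInstance, inferInstance, MonoidHom.id _, surjective_id,
    Subgroup.map_id _⟩

theorem prod (hB : B.NormallyHereditary) (hB' : B'.NormallyHereditary) {J J' : Type} [Group J]
    [Group J'] {Z : Subgroup J} {Z' : Subgroup J'} (h : ZC B B' J Z) (h' : ZC B B' J' Z') :
    ZC B B' (J × J') (Z.prod Z') := by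
  obtain ⟨_, G, _, _, π, hπ, rfl⟩ := h
  obtain ⟨_, H, _, _, ρ, hρ, rfl⟩ := h'
  have h : B.res (G × H) = (B.res G).prod (B.res H) := hB.res_prod
  have h' : B'.res (G × H) = (B'.res G).prod (B'.res H) := hB'.res_prod
  have hm : ∀ x ∈ B.res (G × H), x.1 ∈ B.res G ∧ x.2 ∈ B.res H := by
    intro x hx
    rw [h] at hx
    exact hx
  let e : B.res (G × H) →* B.res G × B.res H :=
    { toFun := fun x => (⟨x.1.1, (hm x x.2).1⟩, ⟨x.1.2, (hm x x.2).2⟩)
      map_one' := rfl
      map_mul' := fun _ _ => rfl }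
  have he : ∀ a b, ∃ x : B.res (G × H), e x = (a, b) ∧ (x : G × H) = (a.1, b.1) := by
    intro a b
    exact ⟨⟨(a, b), by rw [h]; exact ⟨a.2, b.2⟩⟩, rfl, rfl⟩
  refine ⟨inferInstance, G × H, inferInstance, inferInstance, (π.prodMap ρ).comp e, ?_, ?_⟩
  · have he' : Surjective e := by
      rintro ⟨a, b⟩
      obtain ⟨x, hx, _⟩ := he a b
      exact ⟨x, hx⟩
    exact (hπ.prodMap hρ).comp he'
  · ext ⟨a, b⟩
    constructor
    · rintro ⟨x, hx, hx'⟩
      have hx1 : (x : G × H) ∈ B'.res (G × H) := hx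
      rw [h'] at hx1
      have h1 : π (e x).1 = a := congrArg Prod.fst hx'
      have h2 : ρ (e x).2 = b := congrArg Prod.snd hx'
      exact ⟨⟨_, hx1.1, h1⟩, ⟨_, hx1.2, h2⟩⟩
    · rintro ⟨⟨a', ha', ha''⟩, ⟨b', hb', hb''⟩⟩
      obtain ⟨x, hx, hx'⟩ := he a' b'
      refine ⟨x, ?_, ?_⟩
      · change (x : G × H) ∈ B'.res (G × H)
        rw [h', hx']
        exact ⟨ha', hb'⟩
      · change (π.prodMap ρ) (e x) = _
        rw [hx]
        exact Prod.ext ha'' hb''

theorem lift (hB : B.NormallyHereditary) (hB' : B'.NormallyHereditary) (hfull : B.Full)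
    (hle : ∀ (G : Type) [Group G], B.mem G → B'.mem G)
    {J L : Type} [Group J] [Group L] [Finite L] {Z : Subgroup J} (h : ZC B B' J Z) (f : L →* J)
    (hf : Surjective f) : ∃ Z' : Subgroup L, ZC B B' L Z' ∧ Z'.map f = Z := by
  obtain ⟨T₀, C, hT₀, hC, hCN, hCN', hns⟩ := exists_nonSup f.ker
  obtain ⟨G₂, _, _, π₂, hπ₂⟩ := hfull (L ⧸ C)
  have h2 : ZC B B' (L ⧸ C) (((B'.res G₂).subgroupOf (B.res G₂)).map π₂) :=
    ⟨inferInstance, G₂, inferInstance, inferInstance, π₂, hπ₂, rfl⟩
  obtain ⟨_, G, _, _, π, hπ, hπZ⟩ := h.prod hB hB' h2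
  have hq : Surjective (f.prod (QuotientGroup.mk' C)) := by
    rintro ⟨z, k⟩
    obtain ⟨x, rfl⟩ := hf z
    obtain ⟨y, rfl⟩ := QuotientGroup.mk_surjective k
    have h3 : x⁻¹ * y ∈ f.ker ⊔ C := by rw [sup_comm, hCN']; trivial
    rw [Subgroup.mem_sup_of_normal_left] at h3
    obtain ⟨a, ha, b, hb, hab⟩ := h3
    have ha' : f a = 1 := ha
    refine ⟨x * a, Prod.ext ?_ ?_⟩
    · simp [ha']
    · refine (QuotientGroup.eq.mpr ?_)
      have : (x * a)⁻¹ * y = b := by
        rw [mul_inv_rev, mul_assoc, ← hab]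
        simp
      rw [this]
      exact hb
  have hk : (f.prod (QuotientGroup.mk' C)).ker = T₀ := by
    rw [MonoidHom.ker_prod, QuotientGroup.ker_mk', inf_comm, hCN]
  obtain ⟨Γ, _, _, p, hp, e, he, he'⟩ := exists_coinduced (B.res G) π hπ
    (f.prod (QuotientGroup.mk' C)) hq (by rw [hk]; exact hns)
  have hR : B.res Γ ≤ (B.res G).comap p := by
    rw [← Subgroup.map_le_iff_le_comap, B.map_res p hp]
  have hef : ∀ w : (B.res G).comap p, f (e w) = (π ⟨p w, w.2⟩).1 := by
    intro w
    exact congrArg Prod.fst (he w)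
  refine ⟨((B'.res Γ).subgroupOf (B.res Γ)).map (e.comp (Subgroup.inclusion hR)),
    ⟨inferInstance, Γ, inferInstance, inferInstance, e.comp (Subgroup.inclusion hR), ?_, rfl⟩, ?_⟩
  · intro h
    obtain ⟨w, hw, hw'⟩ := he' (B.res Γ) inferInstance hR (B.map_res p hp) h
    exact ⟨⟨w, hw⟩, hw'⟩
  · rw [Subgroup.map_map]
    ext z
    constructor
    · rintro ⟨w, hw, rfl⟩
      have hw1 : (w : Γ) ∈ B'.res Γ := hw
      have h3 : p w ∈ B'.res G := by
        rw [← B'.map_res p hp]
        exact ⟨w, hw1, rfl⟩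
      have h4 : π ⟨p w, hR w.2⟩ ∈ Z.prod (((B'.res G₂).subgroupOf (B.res G₂)).map π₂) := by
        rw [← hπZ]
        exact ⟨_, h3, rfl⟩
      have h5 := hef ⟨w, hR w.2⟩
      change f (e ⟨w, hR w.2⟩) ∈ Z
      rw [h5]
      exact h4.1
    · intro hz
      have h4 : ((z, 1) : J × (L ⧸ C)) ∈ ((B'.res G).subgroupOf (B.res G)).map π := by
        rw [hπZ]
        exact ⟨hz, Subgroup.one_mem _⟩
      obtain ⟨x, hx, hx'⟩ := h4
      have hx1 : (x : G) ∈ B'.res G := hx
      rw [← B'.map_res p hp] at hx1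
      obtain ⟨w, hw, hw'⟩ := hx1
      have hwB : w ∈ B.res Γ := res_le hle Γ hw
      refine ⟨⟨w, hwB⟩, hw, ?_⟩
      change f (e ⟨w, hR hwB⟩) = z
      rw [hef]
      have h6 : (⟨p w, hR hwB⟩ : B.res G) = x := Subtype.ext hw'
      rw [h6, hx']

theorem mem_iff {A A' : Formation} (h : A * B = A' * B')
    (hle : ∀ (G : Type) [Group G], B.mem G → B'.mem G) {J : Type} [Group J] {Z : Subgroup J}
    (hZ : ZC B B' J Z) : A.mem J ↔ A'.mem Z := by
  obtain ⟨_, G, _, _, π, hπ, hπZ⟩ := hZ
  have h1 := mem_core_iff A (B.res G) π (B.res G) le_rfl ⊤ (by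
    rw [Subgroup.subgroupOf_self, ← MonoidHom.range_eq_map, MonoidHom.range_eq_top.mpr hπ])
  have h2 := mem_core_iff A' (B.res G) π (B'.res G) (res_le hle G) Z hπZ
  rw [B.map_res _ (QuotientGroup.mk'_surjective _), ← Formation.mem_comp_of_finite,
    ← Formation.mul_def, h] at h1
  rw [B'.map_res _ (QuotientGroup.mk'_surjective _), ← Formation.mem_comp_of_finite,
    ← Formation.mul_def] at h2
  rw [← h2, h1]
  exact ⟨A.mem_of_equiv Subgroup.topEquiv.symm, A.mem_of_equiv Subgroup.topEquiv⟩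

end ZC

/-- The class of pairs of independent images of the second residual. -/
def zClass {A A' B B' : Formation} (hB : B.NormallyHereditary) (hB' : B'.NormallyHereditary)
    (hfull : B.Full) (hfull' : B'.Full) (hle : ∀ (G : Type) [Group G], B.mem G → B'.mem G)
    (h : A * B = A' * B') : TClass A' A' where
  T J _ R₁ R₂ := ZC B B' J R₁ ∧ ZC B B' J R₂
  fin h := h.1.1
  norm₁ h := h.1.normal
  norm₂ h := h.2.normal
  map h f hf := ⟨h.1.map f hf, h.2.map f hf⟩
  prod h h' := ⟨h.1.prod hB hB' h'.1, h.2.prod hB hB' h'.2⟩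
  lift := by
    intro J L _ _ _ R₁ R₂ h f hf
    obtain ⟨S₁, hS₁, hS₁'⟩ := h.1.lift hB hB' hfull hle f hf
    obtain ⟨S₂, hS₂, hS₂'⟩ := h.2.lift hB hB' hfull hle f hf
    exact ⟨S₁, S₂, ⟨hS₁, hS₂⟩, hS₁', hS₂'⟩
  mem_iff hT := (hT.1.mem_iff h hle).symm.trans (hT.2.mem_iff h hle)
  real := by
    intro Q _ _
    obtain ⟨G, _, _, π, hπ⟩ := hfull' Q
    refine ⟨B.res G, inferInstance, _, _, ⟨ZC.self G, ZC.self G⟩,
      π.comp (Subgroup.subgroupOfEquivOfLe (ZC.res_le hle G)).toMonoidHom,
      hπ.comp (MulEquiv.surjective _)⟩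

/-- The formation `E` with `B' = E * B`, when second residuals are determined. -/
def eForm {B B' : Formation} (hfull : B.Full)
    (hb : ∀ (J : Type) [Group J] (Z : Subgroup J), ZC B B' J ⊥ → ZC B B' J Z → Z = ⊥) :
    Formation :=
  Formation.ofSubdirect (fun J _ => ZC B B' J ⊥) (fun h => h.1)
    (by
      refine ⟨Unit, inferInstance, inferInstance, Unit, inferInstance, inferInstance, 1,
        fun x => ⟨1, Subsingleton.elim _ _⟩, Subsingleton.elim _ _⟩)
    (by
      intro G H _ _ f hf h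
      have := h.map f hf
      rwa [Subgroup.map_bot] at this)
    (by
      intro G H K _ _ _ _ f g hf hg hfg hH hK
      obtain ⟨G₀, _, _, π, hπ⟩ := hfull G
      have h1 : ZC B B' G (((B'.res G₀).subgroupOf (B.res G₀)).map π) :=
        ⟨inferInstance, G₀, inferInstance, inferInstance, π, hπ, rfl⟩
      have h2 := hb H _ hH (h1.map f hf)
      have h3 := hb K _ hK (h1.map g hg)
      have h4 : ((B'.res G₀).subgroupOf (B.res G₀)).map π = ⊥ := by
        rw [Subgroup.eq_bot_iff_forall]
        intro x hx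
        apply hfg
        · have : f x ∈ (((B'.res G₀).subgroupOf (B.res G₀)).map π).map f := ⟨x, hx, rfl⟩
          rw [h2] at this
          exact this
        · have : g x ∈ (((B'.res G₀).subgroupOf (B.res G₀)).map π).map g := ⟨x, hx, rfl⟩
          rw [h3] at this
          exact this
      rw [h4] at h1
      exact h1)

theorem eForm_mul {B B' : Formation} (hfull : B.Full)
    (hb : ∀ (J : Type) [Group J] (Z : Subgroup J), ZC B B' J ⊥ → ZC B B' J Z → Z = ⊥)
    (hle : ∀ (G : Type) [Group G], B.mem G → B'.mem G) : B' = eForm hfull hb * B := by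
  have key : ∀ (G : Type) [Group G] [Finite G], B'.mem G ↔ ZC B B' (B.res G) ⊥ := by
    intro G _ _
    have h1 : ZC B B' (B.res G) ((B'.res G).subgroupOf (B.res G)) := ZC.self G
    rw [B'.mem_iff_res_eq_bot]
    constructor
    · intro h
      rw [h] at h1
      rwa [Subgroup.bot_subgroupOf] at h1
    · intro h
      have h2 := hb _ _ h h1
      rw [Subgroup.subgroupOf_eq_bot] at h2
      exact disjoint_self.mp (h2.mono_right (ZC.res_le hle G))
  apply Formation.ext'
  intro G _
  constructor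
  · intro h
    have := B'.finite_of_mem h
    exact ⟨inferInstance, (key G).mp h⟩
  · rintro ⟨hG, h⟩
    exact (key G).mpr h

theorem le_case {A A' B B' : Formation} (hA' : A'.NormallyHereditary)
    (hB : B.NormallyHereditary) (hB' : B'.NormallyHereditary)
    (hI : A.Indecomposable) (hI' : A'.Indecomposable) (hfull : B.Full) (hfull' : B'.Full)
    (h : A * B = A' * B') (hle : ∀ (G : Type) [Group G], B.mem G → B'.mem G) : B = B' := by
  by_cases hb : ∀ (J : Type) [Group J] (Z : Subgroup J), ZC B B' J ⊥ → ZC B B' J Z → Z = ⊥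
  · have h1 : B' = eForm hfull hb * B := eForm_mul hfull hb hle
    have h2 : A = A' * eForm hfull hb := by
      apply right_cancel hfull
      rw [h, mul_assoc, ← h1]
    rcases hI.2 _ _ h2 with h3 | h3
    · exact absurd h3 hI'.1
    · rw [h3, one_mul] at h1
      exact h1.symm
  · push Not at hb
    obtain ⟨Y, _, Z, h1, h2, h3⟩ := hb
    let C := zClass hB hB' hfull hfull' hle h
    have h4 : DS A' Z := C.absorb hA' hA' (Y := Y) (Z := Z) ⟨h1, h2⟩ (Y' := Y) (Z₁ := Z)
      ⟨h2, h1⟩ h3
    have h5 := subsingleton_of_DS hA' hI' h4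
    exact absurd (Subgroup.eq_bot_of_subsingleton _) h3

theorem left_unique {A A' B B' : Formation} (hA : A.NormallyHereditary)
    (hA' : A'.NormallyHereditary) (hB : B.NormallyHereditary) (hB' : B'.NormallyHereditary)
    (hI : A.Indecomposable) (hI' : A'.Indecomposable) (hfull : B.Full) (hfull' : B'.Full)
    (h : A * B = A' * B') : A = A' ∧ B = B' := by
  have h1 : B = B' := by
    rcases not_incomparable hA hA' hB hB' hI' hfull' h with h1 | h1
    · exact le_case hA' hB hB' hI hI' hfull hfull' h h1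
    · exact (le_case hA hB' hB hI' hI hfull' hfull h.symm h1).symm
  subst h1
  exact ⟨right_cancel hfull h, rfl⟩

theorem prod_props (L : List Formation)
    (hL : ∀ F ∈ L, F.Indecomposable ∧ F.NormallyHereditary) :
    L.prod.NormallyHereditary ∧ L.prod.Full := by
  induction L with
  | nil => exact ⟨Formation.normallyHereditary_one, Formation.full_one⟩
  | cons F L ih =>
    obtain ⟨h1, h2⟩ := ih (fun F' h => hL F' (List.mem_cons_of_mem _ h))
    obtain ⟨h3, h4⟩ := hL F List.mem_cons_self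
    rw [List.prod_cons]
    exact ⟨h4.mul h1, (h3.full h4).mul h2⟩

theorem one_ne_cons {A B : Formation} (hI : A.Indecomposable) : A * B ≠ 1 := by
  intro h
  have h1 : B = 1 := by
    apply Formation.ext'
    intro G _
    constructor
    · intro hG
      have := B.finite_of_mem hG
      have h2 : (A * B).mem G := by
        refine ⟨inferInstance, ?_⟩
        rw [B.mem_iff_res_eq_bot.mp hG]
        exact A.mem_of_subsingleton _
      rw [h] at h2
      exact h2
    · intro hG
      have : Subsingleton G := hG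
      exact B.mem_of_subsingleton G
  rw [h1, mul_one] at h
  exact hI.1 h

/-- **Unique factorisation** for normally hereditary indecomposable formations. -/
theorem unique_factorisation (L M : List Formation)
    (hL : ∀ F ∈ L, F.Indecomposable ∧ F.NormallyHereditary)
    (hM : ∀ F ∈ M, F.Indecomposable ∧ F.NormallyHereditary) (h : L.prod = M.prod) : L = M := by
  induction L generalizing M with
  | nil =>
    cases M with
    | nil => rfl
    | cons A M =>
      rw [List.prod_nil, List.prod_cons] at h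
      exact absurd h.symm (one_ne_cons (hM A List.mem_cons_self).1)
  | cons A L ih =>
    cases M with
    | nil =>
      rw [List.prod_nil, List.prod_cons] at h
      exact absurd h (one_ne_cons (hL A List.mem_cons_self).1)
    | cons A' M =>
      have hL' : ∀ F ∈ L, F.Indecomposable ∧ F.NormallyHereditary :=
        fun F h => hL F (List.mem_cons_of_mem _ h)
      have hM' : ∀ F ∈ M, F.Indecomposable ∧ F.NormallyHereditary :=
        fun F h => hM F (List.mem_cons_of_mem _ h)
      rw [List.prod_cons, List.prod_cons] at h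
      obtain ⟨h1, h2⟩ := left_unique (hL A List.mem_cons_self).2 (hM A' List.mem_cons_self).2
        (prod_props L hL').1 (prod_props M hM').1 (hL A List.mem_cons_self).1
        (hM A' List.mem_cons_self).1 (prod_props L hL').2 (prod_props M hM').2 h
      rw [h1, ih M hL' hM' h2]

end Pool.Agent.Lib_helper5.Form
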