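import Pool.Agent.Lib_helper5.FormPosDefs

/-!
# Marking systems: definitions
-/

set_option maxHeartbeats 400000

namespace Pool.Agent.Lib_helper5.Form

open Function

/-- the cyclic group of order `q`, written multiplicatively -/
abbrev Cyc (q : ℕ) : Type := Multiplicative (ZMod q)

/-- A marking system: every group carries a collection of markings `x`, each of which selects a
normal subgroup `Z x`; there is a notion of covering `Cov f y x`. -/
structure MarkSys where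
  Mk : ∀ (J : Type) [Group J], Type 1
  Z : ∀ {J : Type} [Group J], Mk J → Subgroup J
  Cov : ∀ {J' J : Type} [Group J'] [Group J], (J' →* J) → Mk J' → Mk J → Prop
  fin : ∀ {J : Type} [Group J], Mk J → Finite J
  normal : ∀ {J : Type} [Group J] (x : Mk J), (Z x).Normal
  surj : ∀ {J' J : Type} [Group J'] [Group J] {f : J' →* J} {y : Mk J'} {x : Mk J},
    Cov f y x → Surjective f
  map_Z : ∀ {J' J : Type} [Group J'] [Group J] {f : J' →* J} {y : Mk J'} {x : Mk J},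
    Cov f y x → (Z y).map f = Z x
  refl : ∀ {J : Type} [Group J] (x : Mk J), Cov (MonoidHom.id J) x x
  comp : ∀ {J'' J' J : Type} [Group J''] [Group J'] [Group J] {f : J' →* J} {g : J'' →* J'}
    {z : Mk J''} {y : Mk J'} {x : Mk J}, Cov f y x → Cov g z y → Cov (f.comp g) z x
  /-- markings can be pushed forward, compatibly with coverings -/
  push : ∀ {J K : Type} [Group J] [Group K] (f : J →* K) (x : Mk J), Surjective f →
    ∃ m : Mk K, Cov f x m ∧ ∀ {I : Type} [Group I] (g : K →* I) (w : Mk I),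
      Cov (g.comp f) x w → Cov g m w
  /-- markings can be lifted along arbitrary surjections -/
  lift : ∀ {L J : Type} [Group L] [Group J] [Finite L] (f : L →* J) (x : Mk J), Surjective f →
    ∃ y : Mk L, Cov f y x
  /-- embedding property of the groups `Z x` -/
  emb : ∀ {J K : Type} [Group J] [Group K] [Finite K] (x : Mk J) (g : K →* Z x), Surjective g →
    ∃ (J' : Type) (_ : Group J') (f : J' →* J) (y : Mk J'), Cov f y x ∧
      ∃ h : Z y →* K, Surjective h ∧ ∀ z : Z y, ((g (h z) : Z x) : J) = f z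
  /-- any two coverings of a marking have a common covering -/
  join : ∀ {J J₁ J₂ : Type} [Group J] [Group J₁] [Group J₂] {x : Mk J} {f₁ : J₁ →* J}
    {f₂ : J₂ →* J} {y₁ : Mk J₁} {y₂ : Mk J₂}, Cov f₁ y₁ x → Cov f₂ y₂ x →
    ∃ (J₃ : Type) (_ : Group J₃) (g₁ : J₃ →* J₁) (g₂ : J₃ →* J₂) (z : Mk J₃),
      Cov g₁ z y₁ ∧ Cov g₂ z y₂ ∧ ∀ t, f₁ (g₁ t) = f₂ (g₂ t)
  /-- the non-splitting lifts to wreath products -/
  nl : ∀ {J R : Type} [Group J] [Group R] (κ : J →* R) (x : Mk J) (q : ℕ) [Fact q.Prime],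
    Surjective κ → (∀ z ∈ Z x, κ z = 1) → ∀ β : κ.ker →* Cyc q,
    (∃ z : κ.ker, (z : J) ∈ Z x ∧ β z ≠ 1) →
    ∃ y : Mk (Wr κ (Cyc q)), Cov Wr.pr y x ∧
      ∃ φ : R → Cyc q, φ ≠ 1 ∧ (⟨φ, 1⟩ : Wr κ (Cyc q)) ∈ Z y

attribute [instance] MarkSys.normal

/-- A group with a marking for each of two marking systems. -/
structure Obj (𝒳 𝒴 : MarkSys) : Type 1 where
  J : Type
  grp : Group J
  x : 𝒳.Mk J
  y : 𝒴.Mk J

attribute [instance] Obj.grp

namespace Obj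

variable {𝒳 𝒴 : MarkSys}

/-- the first marked subgroup -/
def Z₁ (O : Obj 𝒳 𝒴) : Subgroup O.J := 𝒳.Z O.x

/-- the second marked subgroup -/
def Z₂ (O : Obj 𝒳 𝒴) : Subgroup O.J := 𝒴.Z O.y

instance (O : Obj 𝒳 𝒴) : (O.Z₁).Normal := 𝒳.normal _
instance (O : Obj 𝒳 𝒴) : (O.Z₂).Normal := 𝒴.normal _

/-- exchanging the two sides -/
def swap (O : Obj 𝒳 𝒴) : Obj 𝒴 𝒳 := ⟨O.J, O.grp, O.y, O.x⟩

/-- `O'` covers `O` through `f` -/
def Cov (O' O : Obj 𝒳 𝒴) (f : O'.J →* O.J) : Prop := 𝒳.Cov f O'.x O.x ∧ 𝒴.Cov f O'.y O.y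

/-- the two marked subgroups are incomparable -/
def Inc (O : Obj 𝒳 𝒴) : Prop := ¬ O.Z₁ ≤ O.Z₂ ∧ ¬ O.Z₂ ≤ O.Z₁

/-- objects having a covering with incomparable marked subgroups -/
def Dom (O : Obj 𝒳 𝒴) : Prop := ∃ (O' : Obj 𝒳 𝒴) (f : O'.J →* O.J), O'.Cov O f ∧ O'.Inc

end Obj

/-- A pair of formations compatible with the pair of marking systems. -/
def IsPair (𝒳 𝒴 : MarkSys) (A₁ A₂ : Formation) : Prop :=
  ∀ O : Obj 𝒳 𝒴, O.Dom → (A₁.mem O.Z₁ ↔ A₂.mem O.Z₂)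

/-- Good markings: every covering has a lift to the wreath product whose marked subgroup contains
a function that is not invariant under right translations by `W`. -/
def Good (𝒳 : MarkSys) {J R : Type} [Group J] [Group R] (x : 𝒳.Mk J) (κ : J →* R)
    (W : Subgroup R) (q : ℕ) : Prop :=
  ∀ (J' : Type) [Group J'] (f : J' →* J) (y : 𝒳.Mk J'), 𝒳.Cov f y x →
    ∃ y' : 𝒳.Mk (Wr (κ.comp f) (Cyc q)), 𝒳.Cov Wr.pr y' y ∧
      ∃ φ : R → Cyc q, (⟨φ, 1⟩ : Wr (κ.comp f) (Cyc q)) ∈ 𝒳.Z y' ∧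
        ∃ a, ∃ w ∈ W, φ (a * w) ≠ φ a

/-- The object is good at `q` on the first side. -/
def Obj.Good₁ {𝒳 𝒴 : MarkSys} (O : Obj 𝒳 𝒴) (q : ℕ) : Prop :=
  Good 𝒳 O.x (QuotientGroup.mk' O.Z₁) (O.Z₂.map (QuotientGroup.mk' O.Z₁)) q

/-- The object is good at `q` on the second side. -/
def Obj.Good₂ {𝒳 𝒴 : MarkSys} (O : Obj 𝒳 𝒴) (q : ℕ) : Prop := O.swap.Good₁ q

/-- The object is good on both sides at all prime divisors of `n`. -/
def Obj.GoodAt {𝒳 𝒴 : MarkSys} (O : Obj 𝒳 𝒴) (n : ℕ) : Prop :=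
  ∀ q : ℕ, q.Prime → q ∣ n → O.Good₁ q ∧ O.Good₂ q

/-- the restriction of a covering to the marked subgroups -/
def MarkSys.pZ (𝒳 : MarkSys) {J X : Type} [Group J] [Group X] {x : 𝒳.Mk J} {y : 𝒳.Mk X}
    {p : X →* J} (hc : 𝒳.Cov p y x) : 𝒳.Z y →* 𝒳.Z x :=
  (p.comp (𝒳.Z y).subtype).codRestrict (𝒳.Z x) (by
    intro z
    rw [← 𝒳.map_Z hc]
    exact ⟨z, z.2, rfl⟩)

theorem MarkSys.pZ_coe (𝒳 : MarkSys) {J X : Type} [Group J] [Group X] {x : 𝒳.Mk J} {y : 𝒳.Mk X}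
    {p : X →* J} (hc : 𝒳.Cov p y x) (z : 𝒳.Z y) : ((𝒳.pZ hc z : 𝒳.Z x) : J) = p z := rfl

theorem MarkSys.pZ_surjective (𝒳 : MarkSys) {J X : Type} [Group J] [Group X] {x : 𝒳.Mk J}
    {y : 𝒳.Mk X} {p : X →* J} (hc : 𝒳.Cov p y x) : Surjective (𝒳.pZ hc) := by
  rintro ⟨z, hz⟩
  rw [← 𝒳.map_Z hc] at hz
  obtain ⟨t, ht, rfl⟩ := hz
  exact ⟨⟨t, ht⟩, rfl⟩

/-- Embedding property of residuals. -/
def Formation.Emb (B : Formation) : Prop :=
  ∀ (G K : Type) [Group G] [Finite G] [Group K] [Finite K] (g : K →* B.res G), Surjective g →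
    ∃ (G' : Type) (_ : Group G') (_ : Finite G') (f : G' →* G), Surjective f ∧
      ∃ h : B.res G' →* K, Surjective h ∧ ∀ z : B.res G', ((g (h z) : B.res G) : G) = f z

end Pool.Agent.Lib_helper5.Form
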