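import Pool.Agent.Lib_helper5.FormMarkDefs

/-!
# Basic lemmas on objects of a pair of marking systems
-/

set_option maxHeartbeats 400000

namespace Pool.Agent.Lib_helper5.Form

open Function

theorem MarkSys.mem_Z_of_cov (𝒳 : MarkSys) {J X : Type} [Group J] [Group X] {x : 𝒳.Mk J}
    {y : 𝒳.Mk X} {p : X →* J} (hc : 𝒳.Cov p y x) {z : X} (hz : z ∈ 𝒳.Z y) : p z ∈ 𝒳.Z x := by
  rw [← 𝒳.map_Z hc]
  exact ⟨z, hz, rfl⟩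

theorem MarkSys.exists_mem_Z_of_cov (𝒳 : MarkSys) {J X : Type} [Group J] [Group X] {x : 𝒳.Mk J}
    {y : 𝒳.Mk X} {p : X →* J} (hc : 𝒳.Cov p y x) {j : J} (hj : j ∈ 𝒳.Z x) :
    ∃ z ∈ 𝒳.Z y, p z = j := by
  rw [← 𝒳.map_Z hc] at hj
  exact hj

namespace Obj

variable {𝒳 𝒴 : MarkSys}

instance instFinite (O : Obj 𝒳 𝒴) : Finite O.J := 𝒳.fin O.x

theorem swap_swap (O : Obj 𝒳 𝒴) : O.swap.swap = O := rfl

theorem swap_Z₁ (O : Obj 𝒳 𝒴) : O.swap.Z₁ = O.Z₂ := rfl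

theorem swap_Z₂ (O : Obj 𝒳 𝒴) : O.swap.Z₂ = O.Z₁ := rfl

theorem Cov.swap {O' O : Obj 𝒳 𝒴} {f : O'.J →* O.J} (h : O'.Cov O f) : O'.swap.Cov O.swap f :=
  ⟨h.2, h.1⟩

theorem Cov.surj {O' O : Obj 𝒳 𝒴} {f : O'.J →* O.J} (h : O'.Cov O f) : Surjective f :=
  𝒳.surj h.1

theorem Cov.map_Z₁ {O' O : Obj 𝒳 𝒴} {f : O'.J →* O.J} (h : O'.Cov O f) : O'.Z₁.map f = O.Z₁ :=
  𝒳.map_Z h.1

theorem Cov.map_Z₂ {O' O : Obj 𝒳 𝒴} {f : O'.J →* O.J} (h : O'.Cov O f) : O'.Z₂.map f = O.Z₂ :=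
  𝒴.map_Z h.2

theorem Cov.refl (O : Obj 𝒳 𝒴) : O.Cov O (MonoidHom.id O.J) := ⟨𝒳.refl _, 𝒴.refl _⟩

theorem Cov.comp {O'' O' O : Obj 𝒳 𝒴} {f : O'.J →* O.J} {g : O''.J →* O'.J} (h : O'.Cov O f)
    (h' : O''.Cov O' g) : O''.Cov O (f.comp g) :=
  ⟨𝒳.comp h.1 h'.1, 𝒴.comp h.2 h'.2⟩

theorem Inc.swap {O : Obj 𝒳 𝒴} (h : O.Inc) : O.swap.Inc := ⟨h.2, h.1⟩

theorem Inc.cover {O' O : Obj 𝒳 𝒴} {f : O'.J →* O.J} (h : O'.Cov O f) (hI : O.Inc) : O'.Inc := by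
  constructor
  · intro hle
    apply hI.1
    rw [← h.map_Z₁, ← h.map_Z₂]
    exact Subgroup.map_mono hle
  · intro hle
    apply hI.2
    rw [← h.map_Z₁, ← h.map_Z₂]
    exact Subgroup.map_mono hle

theorem Inc.dom {O : Obj 𝒳 𝒴} (h : O.Inc) : O.Dom := ⟨O, MonoidHom.id _, Cov.refl O, h⟩

theorem Dom.swap {O : Obj 𝒳 𝒴} (h : O.Dom) : O.swap.Dom := by
  obtain ⟨O', f, hc, hI⟩ := h
  exact ⟨O'.swap, f, hc.swap, hI.swap⟩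

theorem Dom.quot {O' O : Obj 𝒳 𝒴} {f : O'.J →* O.J} (h : O'.Cov O f) (hD : O'.Dom) : O.Dom := by
  obtain ⟨O'', g, hc, hI⟩ := hD
  exact ⟨O'', f.comp g, h.comp hc, hI⟩

/-- The first marked subgroup is a proper subgroup of the group, moved by the second one. -/
theorem Inc.exists₂ {O : Obj 𝒳 𝒴} (h : O.Inc) : ∃ z ∈ O.Z₂, z ∉ O.Z₁ := by
  by_contra hcon
  push Not at hcon
  exact h.2 hcon

theorem Inc.exists₁ {O : Obj 𝒳 𝒴} (h : O.Inc) : ∃ z ∈ O.Z₁, z ∉ O.Z₂ := by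
  by_contra hcon
  push Not at hcon
  exact h.1 hcon

theorem Inc.nontrivial₁ {O : Obj 𝒳 𝒴} (h : O.Inc) : Nontrivial O.Z₁ := by
  obtain ⟨z, hz, hz'⟩ := h.exists₁
  refine ⟨⟨z, hz⟩, 1, ?_⟩
  intro heq
  apply hz'
  have : z = 1 := congrArg Subtype.val heq
  rw [this]
  exact Subgroup.one_mem _

theorem Inc.nontrivial₂ {O : Obj 𝒳 𝒴} (h : O.Inc) : Nontrivial O.Z₂ := h.swap.nontrivial₁

/-- Every object can be pushed forward along a surjection. -/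
theorem exists_push (O : Obj 𝒳 𝒴) {K : Type} [Group K] (f : O.J →* K) (hf : Surjective f) :
    ∃ (x' : 𝒳.Mk K) (y' : 𝒴.Mk K), 𝒳.Cov f O.x x' ∧ 𝒴.Cov f O.y y' ∧
      (∀ (P : Obj 𝒳 𝒴) (g : K →* P.J), O.Cov P (g.comp f) → 𝒳.Cov g x' P.x ∧ 𝒴.Cov g y' P.y) := by
  obtain ⟨x', hx, hx'⟩ := 𝒳.push f O.x hf
  obtain ⟨y', hy, hy'⟩ := 𝒴.push f O.y hf
  exact ⟨x', y', hx, hy, fun P g h => ⟨hx' g P.x h.1, hy' g P.y h.2⟩⟩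

/-- The quotient of an object by a normal subgroup. -/
theorem exists_quot (O : Obj 𝒳 𝒴) (M : Subgroup O.J) [M.Normal] :
    ∃ (O' : Obj 𝒳 𝒴) (f : O.J →* O'.J), O.Cov O' f ∧ (∀ t, f t = 1 ↔ t ∈ M) ∧
      ∀ (P : Obj 𝒳 𝒴) (g : O.J →* P.J), O.Cov P g → (∀ t ∈ M, g t = 1) →
        ∃ g' : O'.J →* P.J, (∀ t, g' (f t) = g t) ∧ O'.Cov P g' := by
  obtain ⟨x', y', hx, hy, h⟩ := O.exists_push (QuotientGroup.mk' M) (QuotientGroup.mk'_surjective M)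
  refine ⟨⟨O.J ⧸ M, inferInstance, x', y'⟩, QuotientGroup.mk' M, ⟨hx, hy⟩,
    fun t => QuotientGroup.eq_one_iff t, ?_⟩
  intro P g hg hM
  refine ⟨QuotientGroup.lift M g hM, fun t => rfl, ?_⟩
  exact h P (QuotientGroup.lift M g hM) hg

/-- Objects can be lifted along surjections. -/
theorem exists_lift (O : Obj 𝒳 𝒴) {L : Type} [Group L] [Finite L] (f : L →* O.J)
    (hf : Surjective f) : ∃ (x' : 𝒳.Mk L) (y' : 𝒴.Mk L), 𝒳.Cov f x' O.x ∧ 𝒴.Cov f y' O.y := by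
  obtain ⟨x', hx⟩ := 𝒳.lift f O.x hf
  obtain ⟨y', hy⟩ := 𝒴.lift f O.y hf
  exact ⟨x', y', hx, hy⟩

end Obj

theorem IsPair.swap {𝒳 𝒴 : MarkSys} {A₁ A₂ : Formation} (h : IsPair 𝒳 𝒴 A₁ A₂) :
    IsPair 𝒴 𝒳 A₂ A₁ := fun O hO => (h O.swap hO.swap).symm

/-- restriction of a covering to the first marked subgroups -/
theorem Obj.Cov.exists_Z₁ {𝒳 𝒴 : MarkSys} {O' O : Obj 𝒳 𝒴} {f : O'.J →* O.J} (h : O'.Cov O f) :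
    ∃ φ : O'.Z₁ →* O.Z₁, Surjective φ ∧ ∀ z, ((φ z : O.Z₁) : O.J) = f z :=
  Formation.exists_restrict f O'.Z₁ O.Z₁ h.map_Z₁

/-- residual equality, one inclusion -/
theorem IsPair.res_le {𝒳 𝒴 : MarkSys} {A₁ A₂ : Formation} (hP : IsPair 𝒳 𝒴 A₁ A₂) (O : Obj 𝒳 𝒴)
    (hO : O.Dom) : (A₂.res O.Z₂).map O.Z₂.subtype ≤ (A₁.res O.Z₁).map O.Z₁.subtype := by
  have hchar : (A₁.res O.Z₁).Characteristic := inferInstance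
  have hN : ((A₁.res O.Z₁).map O.Z₁.subtype).Normal := inferInstance
  obtain ⟨O', f, hc, hker, _⟩ := O.exists_quot ((A₁.res O.Z₁).map O.Z₁.subtype)
  obtain ⟨φ, hφ, hφ'⟩ := hc.exists_Z₁
  obtain ⟨ψ, hψ, hψ'⟩ := hc.swap.exists_Z₁
  have h1 : A₁.mem O'.Z₁ := by
    rw [A₁.mem_iff_res_le_ker φ hφ]
    intro z hz
    rw [MonoidHom.mem_ker]
    apply Subtype.ext
    rw [hφ' z]
    exact (hker z).mpr ⟨z, hz, rfl⟩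
  have h2 : A₂.mem O'.Z₂ := (hP O' (Obj.Dom.quot hc hO)).mp h1
  have h3 : A₂.res O.Z₂ ≤ ψ.ker := A₂.res_le_ker ψ hψ h2
  rintro _ ⟨z, hz, rfl⟩
  rw [Subgroup.coe_subtype, ← hker]
  have h4 := hψ' z
  rw [show ψ z = 1 from h3 hz] at h4
  exact h4.symm

theorem IsPair.res_eq {𝒳 𝒴 : MarkSys} {A₁ A₂ : Formation} (hP : IsPair 𝒳 𝒴 A₁ A₂) (O : Obj 𝒳 𝒴)
    (hO : O.Dom) : (A₁.res O.Z₁).map O.Z₁.subtype = (A₂.res O.Z₂).map O.Z₂.subtype :=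
  le_antisymm (hP.swap.res_le O.swap hO.swap) (hP.res_le O hO)

theorem IsPair.res_le_Z₂ {𝒳 𝒴 : MarkSys} {A₁ A₂ : Formation} (hP : IsPair 𝒳 𝒴 A₁ A₂)
    (O : Obj 𝒳 𝒴) (hO : O.Dom) : (A₁.res O.Z₁).map O.Z₁.subtype ≤ O.Z₂ := by
  rw [hP.res_eq O hO]
  rintro _ ⟨z, _, rfl⟩
  exact z.2

/-- The quotient of a pair-object by the residuals. -/
theorem exists_quot_res {𝒳 𝒴 : MarkSys} {A₁ A₂ : Formation} (hP : IsPair 𝒳 𝒴 A₁ A₂) (O : Obj 𝒳 𝒴)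
    (hI : O.Inc) : ∃ (O' : Obj 𝒳 𝒴) (f : O.J →* O'.J), O.Cov O' f ∧ O'.Inc ∧ A₁.mem O'.Z₁ ∧
      A₂.mem O'.Z₂ ∧ (∀ t, f t = 1 ↔ t ∈ (A₁.res O.Z₁).map O.Z₁.subtype) ∧
      ∀ (P : Obj 𝒳 𝒴) (g : O.J →* P.J), O.Cov P g → A₁.mem P.Z₁ →
        ∃ g' : O'.J →* P.J, (∀ t, g' (f t) = g t) ∧ O'.Cov P g' := by
  have hchar : (A₁.res O.Z₁).Characteristic := inferInstance
  have hN : ((A₁.res O.Z₁).map O.Z₁.subtype).Normal := inferInstance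
  obtain ⟨O', f, hc, hker, hlift⟩ := O.exists_quot ((A₁.res O.Z₁).map O.Z₁.subtype)
  obtain ⟨φ, hφ, hφ'⟩ := hc.exists_Z₁
  have h1 : A₁.mem O'.Z₁ := by
    rw [A₁.mem_iff_res_le_ker φ hφ]
    intro z hz
    rw [MonoidHom.mem_ker]
    apply Subtype.ext
    rw [hφ' z]
    exact (hker z).mpr ⟨z, hz, rfl⟩
  have h2 : A₂.mem O'.Z₂ := (hP O' (Obj.Dom.quot hc hI.dom)).mp h1
  refine ⟨O', f, hc, ⟨?_, ?_⟩, h1, h2, hker, ?_⟩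
  · intro hle
    apply hI.1
    intro z hz
    have h3 : f z ∈ O'.Z₂ := hle (𝒳.mem_Z_of_cov hc.1 hz)
    obtain ⟨z', hz', heq⟩ := 𝒴.exists_mem_Z_of_cov hc.2 h3
    have h4 : z * z'⁻¹ ∈ O.Z₂ := by
      apply hP.res_le_Z₂ O hI.dom
      rw [← hker, map_mul, map_inv, heq, mul_inv_cancel]
    have h5 : z * z'⁻¹ * z' ∈ O.Z₂ := Subgroup.mul_mem _ h4 hz'
    simpa using h5
  · intro hle
    apply hI.2
    intro z hz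
    have h3 : f z ∈ O'.Z₁ := hle (𝒴.mem_Z_of_cov hc.2 hz)
    obtain ⟨z', hz', heq⟩ := 𝒳.exists_mem_Z_of_cov hc.1 h3
    have h4 : z * z'⁻¹ ∈ O.Z₁ := by
      have h6 : z * z'⁻¹ ∈ (A₁.res O.Z₁).map O.Z₁.subtype := by
        rw [← hker, map_mul, map_inv, heq, mul_inv_cancel]
      obtain ⟨u, _, hu⟩ := h6
      rw [← hu]
      exact u.2
    have h5 : z * z'⁻¹ * z' ∈ O.Z₁ := Subgroup.mul_mem _ h4 hz'
    simpa using h5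
  · intro P g hg hPm
    refine hlift P g hg ?_
    rintro _ ⟨z, hz, rfl⟩
    obtain ⟨ψ, hψ, hψ'⟩ := hg.exists_Z₁
    have h3 := A₁.res_le_ker ψ hψ hPm hz
    have h4 := hψ' z
    rw [show ψ z = 1 from h3] at h4
    exact h4.symm

theorem exists_inc_mem {𝒳 𝒴 : MarkSys} {A₁ A₂ : Formation} (hP : IsPair 𝒳 𝒴 A₁ A₂)
    (hex : ∃ O : Obj 𝒳 𝒴, O.Inc) : ∃ O : Obj 𝒳 𝒴, O.Inc ∧ A₁.mem O.Z₁ ∧ A₂.mem O.Z₂ := by
  obtain ⟨O, hI⟩ := hex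
  obtain ⟨O', f, _, h1, h2, h3, _⟩ := exists_quot_res hP O hI
  exact ⟨O', h1, h2, h3⟩

end Pool.Agent.Lib_helper5.Form
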