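import Pool.Agent.Lib_helper5.FormFull2
import Pool.Agent.Lib_helper5.FormPosB
import Pool.Agent.Lib_helper5.FormPosC
import Pool.Agent.Lib_helper5.FormObj

/-!
# Block MOVE-0
-/

set_option maxHeartbeats 400000

namespace Pool.Agent.Lib_helper5.Form

open Function

section API

variable {K H L : Type} [Group K] [Group H] [Group L]

theorem IsLift.mv_one {π : H →* K} {p : L →* K} {e : L → H} (h : IsLift π p e) : e 1 = 1 := by
  have h1 : p (1 : L) ∈ π.range := by rw [_root_.map_one]; exact one_mem _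
  have h2 := h.mul 1 1 h1 h1
  rw [mul_one] at h2
  exact (mul_eq_left.mp h2.symm)

theorem IsLift.mv_inv {π : H →* K} {p : L →* K} {e : L → H} (h : IsLift π p e) {a : L}
    (ha : p a ∈ π.range) : e a⁻¹ = (e a)⁻¹ := by
  have h1 : p a⁻¹ ∈ π.range := by rw [_root_.map_inv]; exact inv_mem ha
  have h2 := h.mul a⁻¹ a h1 ha
  rw [inv_mul_cancel, h.mv_one] at h2
  exact eq_inv_of_mul_eq_one_left h2.symm

theorem IsLift.mv_mem {π : H →* K} {p : L →* K} {a : L}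
    (ha : p a = 1) : p a ∈ π.range := by rw [ha]; exact one_mem _

/-- Every element of `H` over `p a` is the value of an element over `p a`. -/
theorem FullLift.mv_exists {π : H →* K} {p : L →* K} {e : L → H} (h : FullLift π p e) (a : H) :
    ∃ l, p l = π a ∧ e l = a := by
  obtain ⟨t, ht⟩ := h.surj (π a)
  have ht' : p t ∈ π.range := ⟨a, ht.symm⟩
  have h1 : π ((e t)⁻¹ * a) = 1 := by
    rw [map_mul, _root_.map_inv, h.lift t ht', ht, inv_mul_cancel]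
  obtain ⟨l, hl1, hl2, -⟩ := h.ind _ h1
  refine ⟨t * l, by rw [map_mul, hl1, mul_one, ht], ?_⟩
  rw [h.mul t l ht' (IsLift.mv_mem hl1), hl2, mul_inv_cancel_left]

end API

section MOVE0

/-- LEMMA VM -/
theorem mv_val_marking (A : Formation) (𝒳 : MarkSys) {J X H : Type} [Group J] [Group X] [Group H]
    [Finite X] {x : 𝒳.Mk J} {y : 𝒳.Mk X} {p : X →* J} (hc : 𝒳.Cov p y x) {π : H →* 𝒳.Z x}
    {e : X → H} (hF : FullLift π (𝒳.pZ hc) (fun z => e z))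
    (hinj : ∀ l ∈ 𝒳.Z y, p l = 1 → (∀ t, e (t⁻¹ * l * t) = 1) → l = 1) :
    A.mem (𝒳.Z y) ↔ Val A π := by
  let c : X → 𝒳.Z y →* 𝒳.Z y := fun g =>
    { toFun := fun l => ⟨g⁻¹ * l * g, by
        have := (𝒳.normal y).conj_mem l l.2 g⁻¹
        rwa [inv_inv] at this⟩
      map_one' := by ext; simp
      map_mul' := by intro a b; ext; simp [mul_assoc] }
  have hcc : ∀ g l, ((c g l : 𝒳.Z y) : X) = g⁻¹ * l * g := fun g l => rfl
  refine mem_iff_val A hF c ?_ ?_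
  · intro g z
    refine ⟨⟨g * z * g⁻¹, (𝒳.normal y).conj_mem z z.2 g⟩, ?_⟩
    apply Subtype.ext
    rw [hcc]
    group
  · intro l hl
    apply Subtype.ext
    refine hinj l l.2 ?_ ?_
    · have h1 := (hl 1).1
      have h2 : ((𝒳.pZ hc (c 1 l) : 𝒳.Z x) : J) = 1 := by rw [h1]; rfl
      rw [𝒳.pZ_coe, hcc] at h2
      simpa using h2
    · intro t
      have h1 := (hl t).2 1
      have h2 : (((1 : 𝒳.Z y)⁻¹ * c t l * 1 : 𝒳.Z y) : X) = t⁻¹ * l * t := by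
        rw [inv_one, one_mul, mul_one]; rfl
      rw [h2] at h1
      exact h1

/-- LEMMA FA -/
theorem mv_hsupp {J X R H : Type} [Group J] [Group X] [Group R] [Group H] {Z : Subgroup J}
    {κ : J →* R} (hκ : Surjective κ) (hker : ∀ j, κ j = 1 ↔ j ∈ Z) {p : X →* J} {π : H →* Z}
    {e : X → H} (hF : FullLift (Z.subtype.comp π) p e) :
    ∀ h, π h = 1 → ∀ w : R, w ≠ 1 → ∃ φ : X, p φ = 1 ∧ e φ = h ∧
      (∀ t, κ (p t) = 1 → p t ∉ (Z.subtype.comp π).range → e (t⁻¹ * φ * t) = 1) ∧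
      (∃ t₁, κ (p t₁) = w ∧ e (t₁⁻¹ * φ * t₁) = h⁻¹ ∧
        ∀ t, κ (p t) = w → p (t₁⁻¹ * t) ∉ (Z.subtype.comp π).range →
          e (t⁻¹ * φ * t) = 1) ∧
      ∀ t, κ (p t) ≠ 1 → κ (p t) ≠ w → e (t⁻¹ * φ * t) = 1 := by
  intro h hh w hw
  have hV : ∀ a : X, κ (p a) ≠ 1 → p a ∉ (Z.subtype.comp π).range := by
    rintro a ha ⟨b, hb⟩
    apply ha
    rw [hker, ← hb]
    exact (π b).2
  have hh' : (Z.subtype.comp π) h = 1 := by
    rw [MonoidHom.comp_apply, hh, _root_.map_one]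
  obtain ⟨l, hl1, hl2, hl3⟩ := hF.ind h hh'
  obtain ⟨j, hj⟩ := hκ w
  obtain ⟨t₁, ht₁⟩ := hF.surj j
  have ht₁w : κ (p t₁) = w := by rw [ht₁, hj]
  -- the value of the second factor
  have hsec : ∀ t, e (t⁻¹ * (l * (t₁ * l⁻¹ * t₁⁻¹)) * t) =
      e (t⁻¹ * l * t) * (e ((t₁⁻¹ * t)⁻¹ * l * (t₁⁻¹ * t)))⁻¹ := by
    intro t
    have e1 : t⁻¹ * (l * (t₁ * l⁻¹ * t₁⁻¹)) * t =
        (t⁻¹ * l * t) * ((t₁⁻¹ * t)⁻¹ * l * (t₁⁻¹ * t))⁻¹ := by group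
    have m1 : p (t⁻¹ * l * t) = 1 := by simp [hl1]
    have m2 : p ((t₁⁻¹ * t)⁻¹ * l * (t₁⁻¹ * t)) = 1 := by simp [hl1]
    have m2' : p (((t₁⁻¹ * t)⁻¹ * l * (t₁⁻¹ * t))⁻¹) = 1 := by rw [_root_.map_inv, m2, inv_one]
    rw [e1, hF.mul _ _ (IsLift.mv_mem m1) (IsLift.mv_mem m2'),
      hF.toIsLift.mv_inv (IsLift.mv_mem m2)]
  have hfst : ∀ t, p t ∉ (Z.subtype.comp π).range → e (t⁻¹ * l * t) = 1 := hl3
  have hκsec : ∀ t, κ (p (t₁⁻¹ * t)) = w⁻¹ * κ (p t) := by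
    intro t
    rw [map_mul, map_mul, _root_.map_inv, _root_.map_inv, ht₁w]
  refine ⟨l * (t₁ * l⁻¹ * t₁⁻¹), by simp [hl1], ?_, ?_, ⟨t₁, ht₁w, ?_, ?_⟩, ?_⟩
  · have h1 := hsec 1
    rw [inv_one, one_mul, mul_one, one_mul, mul_one, mul_one] at h1
    rw [h1, hl2]
    have h2 : e ((t₁⁻¹)⁻¹ * l * t₁⁻¹) = 1 := by
      apply hl3
      apply hV
      rw [_root_.map_inv, _root_.map_inv, ht₁w]
      simpa using hw
    rw [h2, inv_one, mul_one]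
  · intro t ht1 ht2
    rw [hsec, hfst t ht2, hfst (t₁⁻¹ * t), inv_one, mul_one]
    apply hV
    rw [hκsec, ht1, mul_one]
    simpa using hw
  · have h1 : e (t₁⁻¹ * l * t₁) = 1 := by
      apply hfst
      apply hV
      rw [ht₁w]
      exact hw
    rw [hsec, h1, one_mul, inv_mul_cancel, inv_one, one_mul, mul_one, hl2]
  · intro t ht1 ht2
    have h1 : e (t⁻¹ * l * t) = 1 := by
      apply hfst
      apply hV
      rw [ht1]
      exact hw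
    rw [hsec, h1, hfst _ ht2, inv_one, mul_one]
  · intro t ht1 ht2
    have h1 : e (t⁻¹ * l * t) = 1 := by
      apply hfst
      apply hV
      exact ht1
    rw [hsec, h1, hfst (t₁⁻¹ * t), inv_one, mul_one]
    apply hV
    rw [hκsec]
    intro h3
    apply ht2
    have := inv_mul_eq_one.mp h3
    exact this.symm

variable {𝒳 𝒴 : MarkSys} {A₁ A₂ : Formation}

theorem Obj.Inc.mv_of_cov {O O' : Obj 𝒳 𝒴} {f : O'.J →* O.J} (hc : O'.Cov O f) (hI : O.Inc) :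
    O'.Inc := by
  constructor
  · intro h
    apply hI.1
    have h1 : (O'.Z₁).map f = O.Z₁ := 𝒳.map_Z hc.1
    have h2 : (O'.Z₂).map f = O.Z₂ := 𝒴.map_Z hc.2
    rw [← h1, ← h2]
    exact Subgroup.map_mono h
  · intro h
    apply hI.2
    have h1 : (O'.Z₁).map f = O.Z₁ := 𝒳.map_Z hc.1
    have h2 : (O'.Z₂).map f = O.Z₂ := 𝒴.map_Z hc.2
    rw [← h1, ← h2]
    exact Subgroup.map_mono h

theorem mv_mk_ker {J : Type} [Group J] (Z : Subgroup J) [Z.Normal] (j : J) :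
    QuotientGroup.mk' Z j = 1 ↔ j ∈ Z := QuotientGroup.eq_one_iff (N := Z) j

/-- `exists_fullLift` with quotient maps -/
theorem mv_exists_fullLift (𝒳 : MarkSys) {J X H : Type} [Group J] [Group X] [Group H]
    [Finite X] [Finite H] (x : 𝒳.Mk J) (Z' : Subgroup J) (hZ' : ¬ Z' ≤ 𝒳.Z x)
    (p : X →* J) (π : H →* 𝒳.Z x) (e : X → H)
    (he : FullLift ((𝒳.Z x).subtype.comp π) p e)
    (hgood : ∀ q : ℕ, q.Prime → q ∣ Nat.card p.ker →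
      Good 𝒳 x (QuotientGroup.mk' (𝒳.Z x)) (Z'.map (QuotientGroup.mk' (𝒳.Z x))) q)
    (hna : Surjective π → ∀ y : 𝒳.Mk X, 𝒳.Cov p y x → ∀ (S : Type) [Group S] [IsSimpleGroup S],
      (∃ a b : S, a * b ≠ b * a) → ∀ θ : H →* S, Surjective θ → (∀ z ∈ 𝒳.Z y, θ (e z) = 1) →
        ∀ h, π h = 1 → θ h = 1) :
    ∃ (y : 𝒳.Mk X) (hc : 𝒳.Cov p y x), FullLift π (𝒳.pZ hc) (fun z => e z) := by
  refine exists_fullLift 𝒳 x (QuotientGroup.mk' (𝒳.Z x))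
    (QuotientGroup.mk'_surjective _) (mv_mk_ker (𝒳.Z x)) (Z'.map (QuotientGroup.mk' (𝒳.Z x)))
    ?_ p he.surj π e he.toIsLift hgood hna
    (fun h0 hh0 w _ hw1 => mv_hsupp (QuotientGroup.mk'_surjective _) (mv_mk_ker (𝒳.Z x))
      he h0 hh0 w hw1)
  obtain ⟨z, hz2, hz1⟩ := SetLike.not_le_iff_exists.mp hZ'
  refine ⟨QuotientGroup.mk' (𝒳.Z x) z, ⟨z, hz2, rfl⟩, ?_⟩
  intro h
  exact hz1 ((mv_mk_ker (𝒳.Z x) z).mp h)

/-- one side of `move_zero` -/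
theorem mv_zero_aux (𝒳 : MarkSys) {J : Type} [Group J] (x : 𝒳.Mk J) (Z' : Subgroup J)
    (hZ : ¬ 𝒳.Z x ≤ Z') (hZ' : ¬ Z' ≤ 𝒳.Z x) {H : Type} [Group H]
    [Finite H] (π₁ : H →* 𝒳.Z x) (ψ : H →* J) (hψ : (𝒳.Z x).subtype.comp π₁ = ψ)
    (h : ∀ a, ψ a ∈ Z')
    (hG : ∀ q : ℕ, q.Prime → q ∣ Nat.card ψ.ker →
      Good 𝒳 x (QuotientGroup.mk' (𝒳.Z x)) (Z'.map (QuotientGroup.mk' (𝒳.Z x))) q)
    (A : Formation) :
    ∃ (y : 𝒳.Mk (CoInd ψ)), 𝒳.Cov (CoInd.p ψ) y x ∧ (A.mem (𝒳.Z y) ↔ Val A π₁) := by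
  have : Finite J := 𝒳.fin x
  have hfull : FullLift ((𝒳.Z x).subtype.comp π₁) (CoInd.p ψ) (CoInd.ev ψ) := by
    rw [hψ]; exact CoInd.full ψ
  obtain ⟨y, hc, hy⟩ := mv_exists_fullLift 𝒳 x Z' hZ' (CoInd.p ψ) π₁ (CoInd.ev ψ) hfull
    (fun q hq hdvd => hG q hq (CoInd.prime_dvd ψ hq hdvd))
    (fun hs => by
      exfalso
      apply hZ
      intro z hz
      obtain ⟨a, ha⟩ := hs ⟨z, hz⟩
      have h1 : ψ a = z := by rw [← hψ, MonoidHom.comp_apply, ha]; rfl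
      rw [← h1]
      exact h a)
  refine ⟨y, hc, ?_⟩
  exact mv_val_marking A 𝒳 hc hy (fun l _ h1 h2 => CoInd.eq_one ψ h1 h2)

theorem mv_ker_subtype_comp {J H : Type} [Group J] [Group H] {Z : Subgroup J} (π : H →* Z) :
    (Z.subtype.comp π).ker = π.ker := by
  ext a
  rw [MonoidHom.mem_ker, MonoidHom.mem_ker, MonoidHom.comp_apply]
  exact ⟨fun h => Subtype.ext h, fun h => by rw [h]; rfl⟩

theorem move_zero (hP : IsPair 𝒳 𝒴 A₁ A₂) (O : Obj 𝒳 𝒴) (hI : O.Inc) {H : Type} [Group H]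
    [Finite H] (π₁ : H →* O.Z₁) (π₂ : H →* O.Z₂) (h : ∀ a, (π₁ a : O.J) = π₂ a)
    (hG : O.GoodAt (Nat.card π₁.ker)) : Val A₁ π₁ ↔ Val A₂ π₂ := by
  have hψ₂ : O.Z₂.subtype.comp π₂ = O.Z₁.subtype.comp π₁ := by
    ext a
    exact (h a).symm
  have hk : (O.Z₁.subtype.comp π₁).ker = π₁.ker := mv_ker_subtype_comp π₁
  obtain ⟨y1, hc1, h1⟩ := mv_zero_aux 𝒳 O.x O.Z₂ hI.1 hI.2 π₁ _ rfl (fun a => by
    rw [MonoidHom.comp_apply]
    change (π₁ a : O.J) ∈ O.Z₂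
    rw [h a]; exact (π₂ a).2) (fun q hq hd => (hG q hq (by rwa [← hk])).1) A₁
  obtain ⟨y2, hc2, h2⟩ := mv_zero_aux 𝒴 O.y O.Z₁ hI.2 hI.1 π₂ _ hψ₂ (fun a => (π₁ a).2)
    (fun q hq hd => (hG q hq (by rwa [← hk])).2) A₂
  let O' : Obj 𝒳 𝒴 := ⟨CoInd (O.Z₁.subtype.comp π₁), inferInstance, y1, y2⟩
  have hcov : O'.Cov O (CoInd.p _) := ⟨hc1, hc2⟩
  have h3 := hP O' (hI.mv_of_cov hcov).dom
  exact h1.symm.trans (h3.trans h2)

end MOVE0

end Pool.Agent.Lib_helper5.Form
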