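import Pool.Agent.Lib_helper5.FormMove0

/-!
# Block MOVE-1
-/

set_option maxHeartbeats 400000

namespace Pool.Agent.Lib_helper5.Form

open Function

section MOVE1

variable {J H : Type} [Group J] [Group H]

/-- the position `H_D → Z₂` -/
def mvPi (Z₂ : Subgroup J) (ψ : H →* J) : Z₂.comap ψ →* Z₂ :=
  (ψ.comp (Z₂.comap ψ).subtype).codRestrict Z₂ (fun a => a.2)

theorem mvPi_coe (Z₂ : Subgroup J) (ψ : H →* J) (a : Z₂.comap ψ) :
    ((mvPi Z₂ ψ a : Z₂) : J) = ψ a := rfl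

/-- conjugation on a normal subgroup -/
def mvConj {X : Type} [Group X] (N : Subgroup X) [hN : N.Normal] (g : X) : N →* N where
  toFun l := ⟨g⁻¹ * l * g, by
    have := hN.conj_mem l l.2 g⁻¹
    rwa [inv_inv] at this⟩
  map_one' := Subtype.ext (by simp)
  map_mul' a b := Subtype.ext (by simp [mul_assoc])

theorem mvConj_coe {X : Type} [Group X] (N : Subgroup X) [hN : N.Normal] (g : X) (l : N) :
    ((mvConj N g l : N) : X) = g⁻¹ * l * g := rfl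

theorem mvConj_surjective {X : Type} [Group X] (N : Subgroup X) [hN : N.Normal] (g : X) :
    Surjective (mvConj N g) := by
  intro z
  refine ⟨⟨g * z * g⁻¹, hN.conj_mem z z.2 g⟩, ?_⟩
  apply Subtype.ext
  rw [mvConj_coe]
  group

theorem mv_exists_E [Finite J] [Finite H] (Z₂ : Subgroup J)
    (ψ : H →* J) (N : Subgroup (CoInd ψ)) [hNn : N.Normal]
    (hN : N.map (CoInd.p ψ) = Z₂) :
    ∃ (E : Type) (_ : Group E) (_ : Finite E) (πE : E →* Z₂) (Ψ : N →* E)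
      (eE : E → Z₂.comap ψ), Surjective Ψ ∧
      (∀ n : N, ((πE (Ψ n) : Z₂) : J) = CoInd.p ψ (n : CoInd ψ)) ∧
      IsLift (mvPi Z₂ ψ) πE eE ∧
      (∀ n : N, CoInd.p ψ (n : CoInd ψ) ∈ ψ.range →
        ((eE (Ψ n) : Z₂.comap ψ) : H) = CoInd.ev ψ (n : CoInd ψ)) ∧
      (∀ m : E, πE m = 1 → (∀ c, eE (c⁻¹ * m * c) = 1) → m = 1) ∧
      (∀ q : ℕ, q.Prime → q ∣ Nat.card πE.ker → q ∣ Nat.card ψ.ker) ∧
      ∀ A : Formation, A.mem N ↔ A.mem E := by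
  classical
  have hfull := CoInd.full ψ
  let pN : N →* Z₂ := ((CoInd.p ψ).comp N.subtype).codRestrict Z₂ (fun n => by
    rw [← hN]; exact ⟨n, n.2, rfl⟩)
  have hpN : ∀ n : N, ((pN n : Z₂) : J) = CoInd.p ψ (n : CoInd ψ) := fun n => rfl
  have hpNs : Surjective pN := by
    rintro ⟨z, hz⟩
    rw [← hN] at hz
    obtain ⟨t, ht, rfl⟩ := hz
    exact ⟨⟨t, ht⟩, rfl⟩
  let e2 : N → Z₂.comap ψ := fun n =>
    if h : CoInd.ev ψ (n : CoInd ψ) ∈ Z₂.comap ψ then ⟨CoInd.ev ψ (n : CoInd ψ), h⟩ else 1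
  have he2 : ∀ n : N, CoInd.p ψ (n : CoInd ψ) ∈ ψ.range →
      ((e2 n : Z₂.comap ψ) : H) = CoInd.ev ψ (n : CoInd ψ) := by
    intro n hn
    have h1 : CoInd.ev ψ (n : CoInd ψ) ∈ Z₂.comap ψ := by
      rw [Subgroup.mem_comap]
      rw [hfull.lift _ hn, ← hpN]
      exact (pN n).2
    simp only [e2]
    rw [dif_pos h1]
  have hr2 : ∀ n : N, pN n ∈ (mvPi Z₂ ψ).range → CoInd.p ψ (n : CoInd ψ) ∈ ψ.range := by
    rintro n ⟨a, ha⟩
    refine ⟨a, ?_⟩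
    rw [← hpN, ← ha]
    rfl
  have hr2' : ∀ n : N, CoInd.p ψ (n : CoInd ψ) ∈ ψ.range → pN n ∈ (mvPi Z₂ ψ).range := by
    rintro n ⟨a, ha⟩
    refine ⟨⟨a, ?_⟩, ?_⟩
    · rw [Subgroup.mem_comap]
      rw [ha, ← hpN]
      exact (pN n).2
    · apply Subtype.ext
      exact ha
  have hL2 : IsLift (mvPi Z₂ ψ) pN e2 := by
    constructor
    · intro a b ha hb
      apply Subtype.ext
      have h1 := hr2 a ha
      have h2 := hr2 b hb
      have h3 : CoInd.p ψ ((a * b : N) : CoInd ψ) ∈ ψ.range := by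
        rw [Subgroup.coe_mul, map_mul]
        exact mul_mem h1 h2
      rw [Subgroup.coe_mul, he2 _ h1, he2 _ h2, he2 _ h3, Subgroup.coe_mul,
        hfull.mul _ _ h1 h2]
    · intro a ha
      apply Subtype.ext
      have h1 := hr2 a ha
      rw [mvPi_coe, he2 _ h1, hpN]
      exact hfull.lift _ h1
  obtain ⟨Ψ, hΨ1, hΨ2⟩ := exists_up hL2 hpNs
  have hfull2 := CoInd.full (mvPi Z₂ ψ)
  refine ⟨Ψ.range, inferInstance, inferInstance, (CoInd.p (mvPi Z₂ ψ)).comp Ψ.range.subtype,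
    Ψ.rangeRestrict, fun a => CoInd.ev (mvPi Z₂ ψ) (a : CoInd (mvPi Z₂ ψ)),
    Ψ.rangeRestrict_surjective, ?_, ?_, ?_, ?_, ?_, ?_⟩
  · intro n
    rw [← hpN, ← hΨ1]
    rfl
  · constructor
    · intro a b ha hb
      exact hfull2.mul _ _ ha hb
    · intro a ha
      exact hfull2.lift _ ha
  · intro n hn
    rw [← he2 n hn, ← hΨ2 n (hr2' n hn)]
    rfl
  · rintro ⟨m, hm⟩ hm1 hm2
    apply Subtype.ext
    have hm1' : CoInd.p (mvPi Z₂ ψ) m = 1 := hm1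
    refine CoInd.eq_one _ hm1' ?_
    intro c
    obtain ⟨n, hn⟩ := hpNs (CoInd.p _ c)
    have hc0 : CoInd.p _ ((Ψ n)⁻¹ * c) = 1 := by
      rw [map_mul, map_inv, hΨ1, hn, inv_mul_cancel]
    have e1 : c⁻¹ * m * c = ((Ψ n)⁻¹ * c)⁻¹ * ((Ψ n)⁻¹ * m * Ψ n) * ((Ψ n)⁻¹ * c) := by group
    have h1 : CoInd.p _ ((Ψ n)⁻¹ * m * Ψ n) = 1 := by
      rw [map_mul, map_mul, hm1', map_inv, mul_one, inv_mul_cancel]
    have h2 : CoInd.ev _ ((Ψ n)⁻¹ * m * Ψ n) = 1 := hm2 ⟨Ψ n, ⟨n, rfl⟩⟩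
    have h3 : CoInd.p _ (((Ψ n)⁻¹ * c)⁻¹) = 1 := by rw [map_inv, hc0, inv_one]
    have h4 : CoInd.p _ (((Ψ n)⁻¹ * c)⁻¹ * ((Ψ n)⁻¹ * m * Ψ n)) = 1 := by
      rw [map_mul, h3, h1, one_mul]
    rw [e1, hfull2.mul _ _ (IsLift.mv_mem h4) (IsLift.mv_mem hc0),
      hfull2.mul _ _ (IsLift.mv_mem h3) (IsLift.mv_mem h1), h2, mul_one,
      hfull2.toIsLift.mv_inv (IsLift.mv_mem hc0), inv_mul_cancel]
  · intro q hq hd
    have h1 : q ∣ Nat.card (CoInd.p (mvPi Z₂ ψ)).ker := by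
      refine hd.trans ?_
      let φ : ((CoInd.p (mvPi Z₂ ψ)).comp Ψ.range.subtype).ker →*
          (CoInd.p (mvPi Z₂ ψ)).ker :=
        { toFun := fun a => ⟨(a : Ψ.range), a.2⟩
          map_one' := rfl
          map_mul' := fun _ _ => rfl }
      refine Subgroup.card_dvd_of_injective φ ?_
      intro a b hab
      apply Subtype.ext
      apply Subtype.ext
      exact congrArg (fun z : (CoInd.p (mvPi Z₂ ψ)).ker => (z : CoInd (mvPi Z₂ ψ))) hab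
    have h2 := CoInd.prime_dvd _ hq h1
    refine h2.trans ?_
    let φ : (mvPi Z₂ ψ).ker →* ψ.ker :=
      { toFun := fun a => ⟨(a : Z₂.comap ψ), by
          rw [MonoidHom.mem_ker]
          have h3 := a.2
          rw [MonoidHom.mem_ker] at h3
          have h4 := congrArg Subtype.val h3
          rw [mvPi_coe] at h4
          exact h4⟩
        map_one' := rfl
        map_mul' := fun _ _ => rfl }
    refine Subgroup.card_dvd_of_injective φ ?_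
    intro a b hab
    apply Subtype.ext
    apply Subtype.ext
    exact congrArg (fun z : ψ.ker => (z : H)) hab
  · intro A
    constructor
    · intro h
      exact A.mem_of_surjective Ψ.rangeRestrict Ψ.rangeRestrict_surjective h
    · intro h
      let c : CoInd ψ → N →* N := mvConj N
      have hcc : ∀ g l, ((c g l : N) : CoInd ψ) = g⁻¹ * l * g := fun g l => rfl
      refine A.mem_of_family (fun g : CoInd ψ => Ψ.rangeRestrict.comp (c g)) ?_ ?_ (fun _ => h)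
      · intro g
        exact Ψ.rangeRestrict_surjective.comp (mvConj_surjective N g)
      · intro l hl
        have h0 : ∀ g, pN (c g l) = 1 ∧ ∀ t : N, e2 (t⁻¹ * c g l * t) = 1 := by
          intro g
          have h1 : Ψ (c g l) = 1 := congrArg Subtype.val (hl g)
          exact (up_eq_one hL2 hpNs Ψ hΨ1 hΨ2 _).mp h1
        apply Subtype.ext
        have hp1 : ∀ g, CoInd.p ψ ((c g l : N) : CoInd ψ) = 1 := by
          intro g
          rw [← hpN, (h0 g).1]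
          rfl
        refine CoInd.eq_one ψ ?_ ?_
        · have h1 := hp1 1
          rw [hcc] at h1
          simpa using h1
        · intro g
          have h1 := (h0 g).2 1
          rw [inv_one, one_mul, mul_one] at h1
          have h2 := he2 (c g l) (IsLift.mv_mem (hp1 g))
          rw [h1] at h2
          exact h2.symm

/-- value of `e` on conjugates of elements over `1` -/
theorem FullLift.mv_conj {K H L : Type} [Group K] [Group H] [Group L] {π : H →* K} {p : L →* K}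
    {e : L → H} (h : IsLift π p e) {a t : L} (ha : p a = 1) (ht : p t ∈ π.range) :
    e (t⁻¹ * a * t) = (e t)⁻¹ * e a * e t := by
  have h1 : p t⁻¹ ∈ π.range := by rw [map_inv]; exact inv_mem ht
  have h2 : p (t⁻¹ * a) ∈ π.range := by rw [map_mul, ha, mul_one]; exact h1
  rw [h.mul _ _ h2 ht, h.mul _ _ h1 (IsLift.mv_mem ha), h.mv_inv ht]

theorem mv_isLift_e1 {Z₂ : Subgroup J} {ψ : H →* J} {E : Type} [Group E] {πE : E →* Z₂}
    {eE : E → Z₂.comap ψ} (hE : IsLift (mvPi Z₂ ψ) πE eE) (hs : Surjective πE) :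
    IsLift (ψ.comp (Z₂.comap ψ).subtype) (CoInd.p (Z₂.subtype.comp πE))
      (fun t => eE (CoInd.ev (Z₂.subtype.comp πE) t)) := by
  have hfull := CoInd.full (Z₂.subtype.comp πE)
  have h1 : ∀ t : CoInd (Z₂.subtype.comp πE), CoInd.p (Z₂.subtype.comp πE) t ∈
      (ψ.comp (Z₂.comap ψ).subtype).range → CoInd.p (Z₂.subtype.comp πE) t ∈
      (Z₂.subtype.comp πE).range := by
    rintro t ⟨a, ha⟩
    rw [← ha]
    obtain ⟨c, hc⟩ := hs ⟨ψ a, a.2⟩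
    refine ⟨c, ?_⟩
    rw [MonoidHom.comp_apply, hc]
    rfl
  have h2 : ∀ t : CoInd (Z₂.subtype.comp πE), CoInd.p (Z₂.subtype.comp πE) t ∈
      (ψ.comp (Z₂.comap ψ).subtype).range → πE (CoInd.ev (Z₂.subtype.comp πE) t) ∈
      (mvPi Z₂ ψ).range := by
    intro t ht
    have h3 := hfull.lift t (h1 t ht)
    obtain ⟨a, ha⟩ := ht
    refine ⟨a, ?_⟩
    apply Subtype.ext
    rw [mvPi_coe]
    exact (h3.trans ha.symm).symm
  constructor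
  · intro a b ha hb
    change eE (CoInd.ev (Z₂.subtype.comp πE) (a * b)) = _
    rw [hfull.mul a b (h1 a ha) (h1 b hb)]
    exact hE.mul _ _ (h2 a ha) (h2 b hb)
  · intro a ha
    have h3 := hfull.lift a (h1 a ha)
    have h4 := hE.lift _ (h2 a ha)
    rw [← h3]
    change ψ ((eE (CoInd.ev (Z₂.subtype.comp πE) a) : Z₂.comap ψ) : H) = _
    rw [← mvPi_coe, h4]
    rfl

theorem mv_hsupp_e1 [Finite J] [Finite H] (Z₁ Z₂ : Subgroup J)
    (ψ : H →* J) (hψ : ∀ a, ψ a ∈ Z₁) (N : Subgroup (CoInd ψ)) [hNn : N.Normal]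
    (hN : N.map (CoInd.p ψ) = Z₂) {E : Type} [Group E] {πE : E →* Z₂} (Ψ : N →* E)
    {eE : E → Z₂.comap ψ} (h1 : Surjective Ψ)
    (h2 : ∀ n : N, ((πE (Ψ n) : Z₂) : J) = CoInd.p ψ (n : CoInd ψ))
    (h3 : IsLift (mvPi Z₂ ψ) πE eE)
    (h4 : ∀ n : N, CoInd.p ψ (n : CoInd ψ) ∈ ψ.range →
        ((eE (Ψ n) : Z₂.comap ψ) : H) = CoInd.ev ψ (n : CoInd ψ))
    (h : Z₂.comap ψ) (hh : ψ h = 1) (z0 : J) (hz2 : z0 ∈ Z₂) (hz1 : z0 ∉ Z₁) :
    ∃ φ : CoInd (Z₂.subtype.comp πE), CoInd.p _ φ = 1 ∧ eE (CoInd.ev _ φ) = h ∧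
      ∃ t₁, CoInd.p _ t₁ = z0 ∧ eE (CoInd.ev (Z₂.subtype.comp πE) (t₁⁻¹ * φ * t₁)) = h⁻¹ ∧
        ∀ t, (CoInd.p _ t ∉ Z₂ → eE (CoInd.ev (Z₂.subtype.comp πE) (t⁻¹ * φ * t)) = 1) ∧
          (CoInd.p _ t ∉ ψ.range → z0⁻¹ * CoInd.p _ t ∉ ψ.range →
            eE (CoInd.ev (Z₂.subtype.comp πE) (t⁻¹ * φ * t)) = 1) := by
  have hfull := CoInd.full ψ
  have hfullE := CoInd.full (Z₂.subtype.comp πE)
  have hV : ∀ a : J, a ∉ Z₁ → a ∉ ψ.range := by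
    rintro a ha ⟨b, rfl⟩
    exact ha (hψ b)
  obtain ⟨b, hb1, hb2, hb3⟩ := hfull.ind h hh
  obtain ⟨k, hkN, hk⟩ : z0 ∈ N.map (CoInd.p ψ) := by rw [hN]; exact hz2
  have hn0 : b * (k * b⁻¹ * k⁻¹) ∈ N := by
    have e1 : b * (k * b⁻¹ * k⁻¹) = (b * k * b⁻¹) * k⁻¹ := by group
    rw [e1]
    exact mul_mem (hNn.conj_mem k hkN b) (inv_mem hkN)
  have hform : ∀ t : CoInd ψ, CoInd.ev ψ (t⁻¹ * (b * (k * b⁻¹ * k⁻¹)) * t) =
      CoInd.ev ψ (t⁻¹ * b * t) * (CoInd.ev ψ ((k⁻¹ * t)⁻¹ * b * (k⁻¹ * t)))⁻¹ := by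
    intro t
    have e1 : t⁻¹ * (b * (k * b⁻¹ * k⁻¹)) * t =
        (t⁻¹ * b * t) * ((k⁻¹ * t)⁻¹ * b * (k⁻¹ * t))⁻¹ := by group
    have m1 : CoInd.p ψ (t⁻¹ * b * t) = 1 := by
      rw [map_mul, map_mul, hb1, map_inv, mul_one, inv_mul_cancel]
    have m2 : CoInd.p ψ ((k⁻¹ * t)⁻¹ * b * (k⁻¹ * t)) = 1 := by
      rw [map_mul, map_mul, hb1, map_inv, mul_one, inv_mul_cancel]
    have m2' : CoInd.p ψ (((k⁻¹ * t)⁻¹ * b * (k⁻¹ * t))⁻¹) = 1 := by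
      rw [map_inv, m2, inv_one]
    rw [e1, hfull.mul _ _ (IsLift.mv_mem m1) (IsLift.mv_mem m2'),
      hfull.toIsLift.mv_inv (IsLift.mv_mem m2)]
  have hpn0 : CoInd.p ψ (b * (k * b⁻¹ * k⁻¹)) = 1 := by
    simp [hb1]
  have hπE1 : ∀ m : E, πE m = 1 → (Z₂.subtype.comp πE) m = 1 := by
    intro m hm
    rw [MonoidHom.comp_apply, hm, map_one]
  have hε : πE (Ψ ⟨_, hn0⟩) = 1 := by
    apply Subtype.ext
    rw [h2]
    exact hpn0
  obtain ⟨φ, hφ1, hφ2, hφ3⟩ := hfullE.ind _ (hπE1 _ hε)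
  -- values of `e1` at conjugates
  have hG : ∀ (t : CoInd (Z₂.subtype.comp πE)) (k1 : N), CoInd.p _ t ∈ (Z₂.subtype.comp πE).range →
      CoInd.ev _ t = Ψ k1 → ((eE (CoInd.ev (Z₂.subtype.comp πE) (t⁻¹ * φ * t)) : Z₂.comap ψ) : H) =
        CoInd.ev ψ ((k1 : CoInd ψ)⁻¹ * b * k1) *
          (CoInd.ev ψ ((k⁻¹ * k1)⁻¹ * b * (k⁻¹ * k1)))⁻¹ := by
    intro t k1 ht hk1
    rw [FullLift.mv_conj hfullE.toIsLift hφ1 ht, hφ2, hk1, ← map_inv, ← map_mul, ← map_mul,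
      h4, ← hform]
    · rfl
    · rw [Subgroup.coe_mul, Subgroup.coe_mul, Subgroup.coe_inv, map_mul, map_mul]
      change _ * CoInd.p ψ (b * (k * b⁻¹ * k⁻¹)) * _ ∈ _
      rw [hpn0, map_inv, mul_one, inv_mul_cancel]
      exact one_mem _
  obtain ⟨t₁, ht₁, ht₁'⟩ := hfullE.mv_exists (Ψ ⟨k, hkN⟩)
  have ht₁z : CoInd.p _ t₁ = z0 := by
    rw [ht₁, MonoidHom.comp_apply]
    change ((πE _ : Z₂) : J) = z0
    rw [h2]
    exact hk
  refine ⟨φ, hφ1, ?_, t₁, ht₁z, ?_, ?_⟩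
  · apply Subtype.ext
    have h5 := hG 1 1 (by rw [map_one]; exact one_mem _)
      (by rw [hfullE.toIsLift.mv_one, map_one])
    rw [inv_one, one_mul, mul_one] at h5
    rw [h5]
    have h6 : CoInd.ev ψ ((k⁻¹ * ((1 : N) : CoInd ψ))⁻¹ * b * (k⁻¹ * ((1 : N) : CoInd ψ))) = 1 := by
      apply hb3
      apply hV
      rw [map_mul, map_inv, hk]
      intro h7
      apply hz1
      have h8 : z0⁻¹ ∈ Z₁ := by simpa using h7
      exact (inv_mem_iff).mp h8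
    rw [h6, inv_one, mul_one]
    have h7 : ((1 : N) : CoInd ψ)⁻¹ * b * ((1 : N) : CoInd ψ) = b := by simp
    rw [h7, hb2]
  · apply Subtype.ext
    rw [hG t₁ ⟨k, hkN⟩ ⟨_, ht₁.symm⟩ ht₁']
    have h6 : CoInd.ev ψ (k⁻¹ * b * k) = 1 := by
      apply hb3
      apply hV
      rw [hk]
      exact hz1
    have h7 : (k⁻¹ * k)⁻¹ * b * (k⁻¹ * k) = b := by group
    change CoInd.ev ψ (k⁻¹ * b * k) * (CoInd.ev ψ ((k⁻¹ * k)⁻¹ * b * (k⁻¹ * k)))⁻¹ = _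
    rw [h6, h7, one_mul, hb2]
    rfl
  · have hout : ∀ t, CoInd.p _ t ∉ Z₂ →
        eE (CoInd.ev (Z₂.subtype.comp πE) (t⁻¹ * φ * t)) = 1 := by
      intro t ht
      rw [hφ3 t, h3.mv_one]
      rintro ⟨c, hc⟩
      apply ht
      rw [← hc]
      exact (πE c).2
    intro t
    refine ⟨hout t, fun ht1 ht2 => ?_⟩
    by_cases ht : CoInd.p _ t ∈ Z₂
    · obtain ⟨n, hnN, hn⟩ : CoInd.p _ t ∈ N.map (CoInd.p ψ) := by rw [hN]; exact ht
      have hr : CoInd.p _ t ∈ (Z₂.subtype.comp πE).range := by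
        refine ⟨Ψ ⟨n, hnN⟩, ?_⟩
        rw [MonoidHom.comp_apply]
        change ((πE _ : Z₂) : J) = _
        rw [h2]
        exact hn
      obtain ⟨k1, hk1⟩ := h1 (CoInd.ev _ t)
      have hpk1 : CoInd.p ψ (k1 : CoInd ψ) = CoInd.p _ t := by
        rw [← h2, hk1]
        exact hfullE.lift t hr
      apply Subtype.ext
      rw [hG t k1 hr hk1.symm, hb3 _ (by rw [hpk1]; exact ht1),
        hb3 _ (by rw [map_mul, map_inv, hk, hpk1]; exact ht2), inv_one, one_mul]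
      rfl
    · exact hout t ht

theorem mv_inj_e1 {Z₂ : Subgroup J} {ψ : H →* J} {E : Type} [Group E] {πE : E →* Z₂}
    {eE : E → Z₂.comap ψ}
    (h5 : ∀ m : E, πE m = 1 → (∀ c, eE (c⁻¹ * m * c) = 1) → m = 1)
    (l : CoInd (Z₂.subtype.comp πE)) (hl : CoInd.p _ l = 1)
    (hl' : ∀ t, eE (CoInd.ev (Z₂.subtype.comp πE) (t⁻¹ * l * t)) = 1) : l = 1 := by
  have hfullE := CoInd.full (Z₂.subtype.comp πE)
  refine CoInd.eq_one _ hl ?_
  intro x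
  have hx : CoInd.p _ (x⁻¹ * l * x) = 1 := by
    rw [map_mul, map_mul, hl, map_inv, mul_one, inv_mul_cancel]
  apply h5
  · apply Subtype.ext
    exact (hfullE.lift _ (IsLift.mv_mem hx)).trans hx
  · intro c
    obtain ⟨t, ht1, ht2⟩ := hfullE.mv_exists c
    have h6 := hl' (x * t)
    have e1 : (x * t)⁻¹ * l * (x * t) = t⁻¹ * (x⁻¹ * l * x) * t := by group
    rw [e1, FullLift.mv_conj hfullE.toIsLift hx ⟨c, ht1.symm⟩, ht2] at h6
    exact h6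

end MOVE1

section MAIN

variable {𝒳 𝒴 : MarkSys} {A₁ A₂ : Formation}

theorem IsPair.mv_iff_of_cov (hP : IsPair 𝒳 𝒴 A₁ A₂) {J X : Type} [Group J] [Group X] {x : 𝒳.Mk J}
    {y : 𝒴.Mk J} (hZ : ¬ 𝒳.Z x ≤ 𝒴.Z y) (hZ' : ¬ 𝒴.Z y ≤ 𝒳.Z x) {p : X →* J} {x' : 𝒳.Mk X}
    {y' : 𝒴.Mk X} (hx : 𝒳.Cov p x' x) (hy : 𝒴.Cov p y' y) :
    A₁.mem (𝒳.Z x') ↔ A₂.mem (𝒴.Z y') := by
  let O : Obj 𝒳 𝒴 := ⟨J, inferInstance, x, y⟩
  let O' : Obj 𝒳 𝒴 := ⟨X, inferInstance, x', y'⟩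
  have hI : O.Inc := ⟨hZ, hZ'⟩
  have hcov : O'.Cov O p := ⟨hx, hy⟩
  exact hP O' (hI.mv_of_cov hcov).dom

theorem mv_one_aux (hP : IsPair 𝒳 𝒴 A₁ A₂) {J : Type} [Group J] (x : 𝒳.Mk J)
    (y : 𝒴.Mk J) (hZ : ¬ 𝒳.Z x ≤ 𝒴.Z y) (hZ' : ¬ 𝒴.Z y ≤ 𝒳.Z x) {H : Type} [Group H]
    [Finite H] (π : H →* 𝒳.Z x)
    (hG₁ : ∀ q : ℕ, q.Prime → q ∣ Nat.card π.ker →
      Good 𝒳 x (QuotientGroup.mk' (𝒳.Z x)) ((𝒴.Z y).map (QuotientGroup.mk' (𝒳.Z x))) q)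
    (hG₂ : ∀ q : ℕ, q.Prime → q ∣ Nat.card π.ker →
      Good 𝒴 y (QuotientGroup.mk' (𝒴.Z y)) ((𝒳.Z x).map (QuotientGroup.mk' (𝒴.Z y))) q)
    (hna : Surjective π → ∀ y : 𝒳.Mk (CoInd ((𝒳.Z x).subtype.comp π)),
      𝒳.Cov (CoInd.p _) y x → ∀ (S : Type) [Group S] [IsSimpleGroup S],
      (∃ a b : S, a * b ≠ b * a) → ∀ θ : H →* S, Surjective θ →
      (∀ z ∈ 𝒳.Z y, θ (CoInd.ev _ z) = 1) → ∀ h, π h = 1 → θ h = 1) :
    Val A₁ π ↔ Val A₁ (π.comp ((𝒴.Z y).comap ((𝒳.Z x).subtype.comp π)).subtype) := by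
  have : Finite J := 𝒳.fin x
  have hk : ((𝒳.Z x).subtype.comp π).ker = π.ker := mv_ker_subtype_comp π
  have hfull := CoInd.full ((𝒳.Z x).subtype.comp π)
  -- the first object
  obtain ⟨y1, hc1, hy1⟩ := mv_exists_fullLift 𝒳 x (𝒴.Z y) hZ' (CoInd.p _) π (CoInd.ev _) hfull
    (fun q hq hd => hG₁ q hq (by rw [← hk]; exact CoInd.prime_dvd _ hq hd)) hna
  obtain ⟨y2, hc2⟩ := 𝒴.lift (CoInd.p ((𝒳.Z x).subtype.comp π)) y hfull.surj
  have s1 : A₁.mem (𝒳.Z y1) ↔ Val A₁ π :=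
    mv_val_marking A₁ 𝒳 hc1 hy1 (fun l _ h1 h2 => CoInd.eq_one _ h1 h2)
  have s2 : A₁.mem (𝒳.Z y1) ↔ A₂.mem (𝒴.Z y2) := hP.mv_iff_of_cov hZ hZ' hc1 hc2
  obtain ⟨E, iE, fE, πE, Ψ, eE, t1, t2, t3, t4, t5, t6, t7⟩ :=
    mv_exists_E (𝒴.Z y) ((𝒳.Z x).subtype.comp π) (𝒴.Z y2) (𝒴.map_Z hc2)
  have hπEs : Surjective πE := by
    rintro ⟨z, hz⟩
    rw [← 𝒴.map_Z hc2] at hz
    obtain ⟨n, hn, rfl⟩ := hz
    exact ⟨Ψ ⟨n, hn⟩, Subtype.ext (t2 _)⟩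
  have hkE : ((𝒴.Z y).subtype.comp πE).ker = πE.ker := mv_ker_subtype_comp πE
  have hfullE := CoInd.full ((𝒴.Z y).subtype.comp πE)
  have hprime : ∀ q : ℕ, q.Prime → q ∣ Nat.card (CoInd.p ((𝒴.Z y).subtype.comp πE)).ker →
      q ∣ Nat.card π.ker := by
    intro q hq hd
    have h1 := CoInd.prime_dvd _ hq hd
    rw [hkE] at h1
    have h2 := t6 q hq h1
    rwa [hk] at h2
  -- the second object, second side
  obtain ⟨z2, hd2, hz2⟩ := mv_exists_fullLift 𝒴 y (𝒳.Z x) hZ (CoInd.p _) πE (CoInd.ev _) hfullE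
    (fun q hq hd => hG₂ q hq (hprime q hq hd))
    (fun _ y'' _ S _ _ hS θ hθ _ h hh => by
      have hmove : ∀ k : J, ∃ n ∈ 𝒴.Z y2, k⁻¹ * CoInd.p ((𝒳.Z x).subtype.comp π) n * k ∉
          ((𝒳.Z x).subtype.comp π).range := by
        intro k
        by_contra hcon
        push Not at hcon
        apply hZ'
        intro z hz
        have h1 : k * z * k⁻¹ ∈ 𝒴.Z y := (𝒴.normal y).conj_mem z hz k
        rw [← 𝒴.map_Z hc2] at h1
        obtain ⟨n, hn, hn'⟩ := h1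
        obtain ⟨a, ha⟩ := hcon n hn
        have h2 : k⁻¹ * (k * z * k⁻¹) * k = z := by group
        rw [hn', h2] at ha
        rw [← ha]
        exact (π a).2
      have h1 := no_top (𝒴.Z y2) hmove hS (θ.comp Ψ) (hθ.comp t1)
      obtain ⟨n, rfl⟩ := t1 h
      refine h1 n ?_
      rw [← t2, hh]
      rfl)
  have s3 : A₂.mem (𝒴.Z z2) ↔ Val A₂ πE :=
    mv_val_marking A₂ 𝒴 hd2 hz2 (fun l _ h1 h2 => CoInd.eq_one _ h1 h2)
  have s4 : Val A₂ πE ↔ A₂.mem E := val_surjective A₂ hπEs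
  -- the second object, first side
  have hψ₁ : (𝒳.Z x).subtype.comp
      (π.comp ((𝒴.Z y).comap ((𝒳.Z x).subtype.comp π)).subtype) =
      ((𝒳.Z x).subtype.comp π).comp ((𝒴.Z y).comap ((𝒳.Z x).subtype.comp π)).subtype := rfl
  have hlift := mv_isLift_e1 t3 hπEs
  rw [← hψ₁] at hlift
  obtain ⟨z1, hd1, hz1⟩ := exists_fullLift 𝒳 x (QuotientGroup.mk' (𝒳.Z x))
    (QuotientGroup.mk'_surjective _) (mv_mk_ker (𝒳.Z x)) ((𝒴.Z y).map (QuotientGroup.mk' (𝒳.Z x)))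
    (by
      obtain ⟨z, hz2, hz1⟩ := SetLike.not_le_iff_exists.mp hZ'
      refine ⟨QuotientGroup.mk' (𝒳.Z x) z, ⟨z, hz2, rfl⟩, ?_⟩
      intro h
      exact hz1 ((mv_mk_ker (𝒳.Z x) z).mp h))
    (CoInd.p ((𝒴.Z y).subtype.comp πE)) hfullE.surj
    (π.comp ((𝒴.Z y).comap ((𝒳.Z x).subtype.comp π)).subtype) _ hlift
    (fun q hq hd => hG₁ q hq (hprime q hq hd))
    (fun hs => by
      exfalso
      apply hZ
      intro z hz
      obtain ⟨a, ha⟩ := hs ⟨z, hz⟩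
      have h1 : ((𝒳.Z x).subtype.comp π) a ∈ 𝒴.Z y := a.2
      have h2 : ((𝒳.Z x).subtype.comp π) a = z := congrArg Subtype.val ha
      rwa [h2] at h1)
    (by
      rintro h hh w ⟨z0, hz0, rfl⟩ hw
      have hz0' : z0 ∉ 𝒳.Z x := fun h => hw ((mv_mk_ker (𝒳.Z x) z0).mpr h)
      have hV : ∀ a : J, QuotientGroup.mk' (𝒳.Z x) a ≠ 1 → a ∉ ((𝒳.Z x).subtype.comp π).range := by
        rintro a ha ⟨b, rfl⟩
        exact ha ((mv_mk_ker (𝒳.Z x) _).mpr (π b).2)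
      have hV' : ∀ a : J, a ∈ 𝒴.Z y → a ∉ ((𝒳.Z x).subtype.comp
          (π.comp ((𝒴.Z y).comap ((𝒳.Z x).subtype.comp π)).subtype)).range →
          a ∉ ((𝒳.Z x).subtype.comp π).range := by
        rintro a ha h1 ⟨b, rfl⟩
        exact h1 ⟨⟨b, ha⟩, rfl⟩
      have hh' : ((𝒳.Z x).subtype.comp π) h = 1 := congrArg Subtype.val hh
      obtain ⟨φ, hφ1, hφ2, t₁, ht₁, ht₁', hφ3⟩ := mv_hsupp_e1 (𝒳.Z x) (𝒴.Z y)
        ((𝒳.Z x).subtype.comp π) (fun a => (π a).2) (𝒴.Z y2) (𝒴.map_Z hc2) Ψ t1 t2 t3 t4 h hh'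
        z0 hz0 hz0'
      refine ⟨φ, hφ1, hφ2, ?_, ⟨t₁, by rw [ht₁], ht₁', ?_⟩, ?_⟩
      · intro t h1 h2
        by_cases ht : CoInd.p _ t ∈ 𝒴.Z y
        · refine (hφ3 t).2 (hV' _ ht h2) (hV _ ?_)
          rw [map_mul, h1, mul_one, map_inv]
          simpa using hw
        · exact (hφ3 t).1 ht
      · intro t h1 h2
        by_cases ht : CoInd.p _ t ∈ 𝒴.Z y
        · rw [map_mul, map_inv, ht₁] at h2
          exact (hφ3 t).2 (hV _ (by rw [h1]; exact hw))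
            (hV' _ (mul_mem (inv_mem hz0) ht) h2)
        · exact (hφ3 t).1 ht
      · intro t h1 h2
        refine (hφ3 t).2 (hV _ h1) (hV _ ?_)
        rw [map_mul, map_inv]
        intro h3
        exact h2 (inv_mul_eq_one.mp h3).symm)
  have s5 : A₁.mem (𝒳.Z z1) ↔
      Val A₁ (π.comp ((𝒴.Z y).comap ((𝒳.Z x).subtype.comp π)).subtype) :=
    mv_val_marking A₁ 𝒳 (e := fun t => eE (CoInd.ev ((𝒴.Z y).subtype.comp πE) t)) hd1 hz1
      (fun l _ h1 h2 => mv_inj_e1 t5 l h1 h2)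
  have s6 : A₁.mem (𝒳.Z z1) ↔ A₂.mem (𝒴.Z z2) := hP.mv_iff_of_cov hZ hZ' hd1 hd2
  exact s1.symm.trans (s2.trans ((t7 A₂).trans (s4.symm.trans (s3.symm.trans
    (s6.symm.trans s5)))))

theorem move_one (hP : IsPair 𝒳 𝒴 A₁ A₂) (O : Obj 𝒳 𝒴) (hI : O.Inc) {H : Type} [Group H]
    [Finite H] (π : H →* O.Z₁) (hG : O.GoodAt (Nat.card π.ker))
    (hna : Surjective π → ∀ y : 𝒳.Mk (CoInd (O.Z₁.subtype.comp π)),
      𝒳.Cov (CoInd.p _) y O.x → ∀ (S : Type) [Group S] [IsSimpleGroup S],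
      (∃ a b : S, a * b ≠ b * a) → ∀ θ : H →* S, Surjective θ →
      (∀ z ∈ 𝒳.Z y, θ (CoInd.ev _ z) = 1) → ∀ h, π h = 1 → θ h = 1) :
    Val A₁ π ↔ Val A₁ (π.comp (O.Z₂.comap (O.Z₁.subtype.comp π)).subtype) :=
  mv_one_aux hP O.x O.y hI.1 hI.2 π (fun q hq hd => (hG q hq hd).1)
    (fun q hq hd => (hG q hq hd).2) hna

end MAIN

end Pool.Agent.Lib_helper5.Form
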