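import Pool.Agent.Lib_helper5.FormReal

/-!
# Positions and coinduced groups: definitions
-/

set_option maxHeartbeats 400000

namespace Pool.Agent.Lib_helper5.Form

open Function

/-- The group `(Ω → H) ⋊ G` for a `G`-set `Ω`. -/
@[ext] structure WrA (G Ω H : Type) where
  f : Ω → H
  x : G

namespace WrA

variable {G Ω H : Type} [Group G] [MulAction G Ω] [Group H]

instance : Mul (WrA G Ω H) := ⟨fun a b => ⟨fun ω => a.f ω * b.f (a.x⁻¹ • ω), a.x * b.x⟩⟩
instance : One (WrA G Ω H) := ⟨⟨fun _ => 1, 1⟩⟩
instance : Inv (WrA G Ω H) := ⟨fun a => ⟨fun ω => (a.f (a.x • ω))⁻¹, a.x⁻¹⟩⟩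

@[simp] theorem mul_f (a b : WrA G Ω H) (ω : Ω) : (a * b).f ω = a.f ω * b.f (a.x⁻¹ • ω) := rfl
@[simp] theorem mul_x (a b : WrA G Ω H) : (a * b).x = a.x * b.x := rfl
@[simp] theorem one_f (ω : Ω) : (1 : WrA G Ω H).f ω = 1 := rfl
@[simp] theorem one_x : (1 : WrA G Ω H).x = 1 := rfl
@[simp] theorem inv_f (a : WrA G Ω H) (ω : Ω) : (a⁻¹).f ω = (a.f (a.x • ω))⁻¹ := rfl
@[simp] theorem inv_x (a : WrA G Ω H) : (a⁻¹).x = a.x⁻¹ := rfl

instance : Group (WrA G Ω H) := Group.ofLeftAxioms
  (fun a b c => by
    apply WrA.ext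
    · funext k
      simp [mul_assoc, mul_smul]
    · simp [mul_assoc])
  (fun a => by
    apply WrA.ext
    · funext k
      simp
    · simp)
  (fun a => by
    apply WrA.ext
    · funext k
      simp
    · simp)

instance [Finite G] [Finite Ω] [Finite H] : Finite (WrA G Ω H) :=
  Finite.of_injective (fun a => ((a.f, a.x) : (Ω → H) × G)) (by
    intro a b hab
    simp only [Prod.mk.injEq] at hab
    exact WrA.ext hab.1 hab.2)

/-- The projection onto `G`. -/
def pr : WrA G Ω H →* G where
  toFun w := w.x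
  map_one' := rfl
  map_mul' _ _ := rfl

@[simp] theorem pr_apply (w : WrA G Ω H) : pr w = w.x := rfl

end WrA

/-- The projection onto `G`. -/
def Wr.pr {G K H : Type} [Group G] [Group K] [Group H] {κ : G →* K} : Wr κ H →* G where
  toFun w := w.x
  map_one' := rfl
  map_mul' _ _ := rfl

@[simp] theorem Wr.pr_apply {G K H : Type} [Group G] [Group K] [Group H] {κ : G →* K}
    (w : Wr κ H) : Wr.pr w = w.x := rfl

section Positions

variable {K H : Type} [Group K] [Group H]

open Classical in
/-- a normalised section of `K → K ⧸ range π` -/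
noncomputable def sec (π : H →* K) (ω : K ⧸ π.range) : K :=
  if ω = ((1 : K) : K ⧸ π.range) then 1 else ω.out

theorem sec_one (π : H →* K) : sec π ((1 : K) : K ⧸ π.range) = 1 := by
  simp [sec]

theorem mk_sec (π : H →* K) (ω : K ⧸ π.range) : ((sec π ω : K) : K ⧸ π.range) = ω := by
  unfold sec
  split_ifs with h
  · exact h.symm
  · exact Quotient.out_eq ω

theorem sec_mem (π : H →* K) (x : K) (ω : K ⧸ π.range) :
    (sec π ω)⁻¹ * x * sec π (x⁻¹ • ω) ∈ π.range := by
  have h : ((sec π ω : K) : K ⧸ π.range) = ((x * sec π (x⁻¹ • ω) : K) : K ⧸ π.range) := by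
    have h1 : ((x * sec π (x⁻¹ • ω) : K) : K ⧸ π.range) =
        x • ((sec π (x⁻¹ • ω) : K) : K ⧸ π.range) := rfl
    rw [h1, mk_sec, mk_sec, smul_inv_smul]
  rw [QuotientGroup.eq] at h
  rwa [mul_assoc]

/-- The coinduced group of a position `π : H → K`. -/
noncomputable def CoInd (π : H →* K) : Subgroup (WrA K (K ⧸ π.range) H) where
  carrier := {w | ∀ ω, π (w.f ω) = (sec π ω)⁻¹ * w.x * sec π (w.x⁻¹ • ω)}
  mul_mem' := by
    intro a b ha hb ω
    have h1 := ha ω
    have h2 := hb (a.x⁻¹ • ω)
    rw [WrA.mul_f, map_mul, h1, h2, WrA.mul_x, mul_inv_rev, mul_smul]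
    group
  one_mem' := by
    intro ω
    simp
  inv_mem' := by
    intro a ha ω
    have h1 := ha (a.x • ω)
    rw [WrA.inv_f, map_inv, h1, WrA.inv_x, inv_inv, inv_smul_smul]
    group

namespace CoInd

variable (π : H →* K)

/-- The projection of the coinduced group onto `K`. -/
noncomputable def p : CoInd π →* K where
  toFun w := w.1.x
  map_one' := rfl
  map_mul' _ _ := rfl

/-- Evaluation at the base point (multiplicative only over the range of `π`). -/
noncomputable def ev (w : CoInd π) : H := w.1.f ((1 : K) : K ⧸ π.range)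

theorem p_apply (w : CoInd π) : p π w = w.1.x := rfl

theorem ev_apply (w : CoInd π) : ev π w = w.1.f ((1 : K) : K ⧸ π.range) := rfl

theorem mem_iff (w : WrA K (K ⧸ π.range) H) : w ∈ CoInd π ↔
    ∀ ω, π (w.f ω) = (sec π ω)⁻¹ * w.x * sec π (w.x⁻¹ • ω) := Iff.rfl

instance [Finite K] [Finite H] : Finite (CoInd π) := inferInstance

end CoInd

/-- `e : L → H` is multiplicative over the range of `π` and lifts `p`. -/
structure IsLift {L : Type} [Group L] (π : H →* K) (p : L →* K) (e : L → H) : Prop where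
  mul : ∀ a b, p a ∈ π.range → p b ∈ π.range → e (a * b) = e a * e b
  lift : ∀ a, p a ∈ π.range → π (e a) = p a

/-- A lifting datum such that every element of `ker π` is the value of a
single coordinate element. -/
structure FullLift {L : Type} [Group L] (π : H →* K) (p : L →* K) (e : L → H) : Prop
    extends IsLift π p e where
  surj : Surjective p
  ind : ∀ h, π h = 1 → ∃ l, p l = 1 ∧ e l = h ∧ ∀ x, p x ∉ π.range → e (x⁻¹ * l * x) = 1

/-- The value of a formation on a position. -/
def Val (A : Formation) (π : H →* K) : Prop := A.mem (CoInd π)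

end Positions

namespace Formation

/-- containment of formations -/
def Le (A B : Formation) : Prop := ∀ (G : Type) [Group G], A.mem G → B.mem G

/-- The star property of a group with respect to a formation. -/
def StarProp (A : Formation) (K₀ : Type) [Group K₀] : Prop :=
  ∀ (K H : Type) [Group K] [Group H] [Finite H], A.mem K → ∀ g : K →* K₀, Surjective g →
    ∀ π : H →* K, ¬ Surjective π → (Val A π ↔ Val A (π.comp (g.comp π).ker.subtype))

/-- `S` may be added as moved top. -/
def Phi (C : Formation) (S : Type) [Group S] : Prop :=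
  ∃ (K : Type) (_ : Group K), Nontrivial K ∧ C.mem K ∧ Val C (1 : S →* K)

/-- The simple groups of type `𝔑`. -/
def NN (C : Formation) (S : Type) [Group S] : Prop :=
  Finite S ∧ IsSimpleGroup S ∧ (∃ a b : S, a * b ≠ b * a) ∧ ¬ C.mem S ∧ C.Phi S

/-- `D` is the formation of all finite groups that are residually-`NN C`. -/
def IsRes (D : Formation) (C : Formation) : Prop :=
  ∀ (G : Type) [Group G], D.mem G ↔ Finite G ∧ ∀ g : G, g ≠ 1 →
    ∃ (S : Type) (_ : Group S) (θ : G →* S), C.NN S ∧ Surjective θ ∧ θ g ≠ 1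

end Formation

end Pool.Agent.Lib_helper5.Form
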