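import Pool.Agent.Lib_helper5.FormCoind
import Pool.Agent.Lib_helper5.FormES

/-!
# Realisation of groups as quotients of residuals; right cancellation
-/

set_option maxHeartbeats 400000

namespace Pool.Agent.Lib_helper5.Form

open Function

namespace Formation

/-- `T` is a homomorphic image of a `B`-residual of some finite group. -/
def Realised (B : Formation) (T : Type) [Group T] : Prop :=
  ∃ (G : Type) (_ : Group G) (_ : Finite G) (π : B.res G →* T), Surjective π

/-- All finite groups are homomorphic images of `B`-residuals. -/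
def Full (B : Formation) : Prop :=
  ∀ (T : Type) [Group T] [Finite T], B.Realised T

theorem Realised.of_surjective {B : Formation} {T U : Type} [Group T] [Group U]
    (h : B.Realised T) (f : T →* U) (hf : Surjective f) : B.Realised U := by
  obtain ⟨G, _, _, π, hπ⟩ := h
  exact ⟨G, inferInstance, inferInstance, f.comp π, hf.comp hπ⟩

theorem full_one : Full 1 := by
  intro T _ _
  refine ⟨T, inferInstance, inferInstance, (Formation.res 1 T).subtype, ?_⟩
  intro x
  refine ⟨⟨x, ?_⟩, rfl⟩
  rw [one_def, triv_res]
  trivial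

theorem Full.mul {A B : Formation} (hA : A.Full) (hB : B.Full) : (A * B).Full := by
  intro T _ _
  obtain ⟨G₁, _, _, π₁, hπ₁⟩ := hA T
  obtain ⟨G₂, _, _, π₂, hπ₂⟩ := hB G₁
  obtain ⟨φ, hφ, _⟩ := exists_restrict π₂ (A.res (B.res G₂)) (A.res G₁) (A.map_res π₂ hπ₂)
  let e : A.res (B.res G₂) ≃* (A * B).res G₂ :=
    ((A.res (B.res G₂)).equivMapOfInjective _ (Subgroup.subtype_injective _)).trans
      (MulEquiv.subgroupCongr (res_comp A B G₂).symm)
  exact ⟨G₂, inferInstance, inferInstance, (π₁.comp φ).comp e.symm.toMonoidHom,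
    (hπ₁.comp hφ).comp e.symm.surjective⟩

theorem Realised.prod {B : Formation} (hB : B.NormallyHereditary) {T U : Type} [Group T] [Group U]
    (hT : B.Realised T) (hU : B.Realised U) : B.Realised (T × U) := by
  obtain ⟨G, _, _, π, hπ⟩ := hT
  obtain ⟨H, _, _, ρ, hρ⟩ := hU
  have h : B.res (G × H) = (B.res G).prod (B.res H) := hB.res_prod
  let e : B.res (G × H) ≃* B.res G × B.res H :=
    (MulEquiv.subgroupCongr h).trans (Subgroup.prodEquiv _ _)
  exact ⟨G × H, inferInstance, inferInstance, (π.prodMap ρ).comp e.toMonoidHom,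
    (hπ.prodMap hρ).comp e.surjective⟩

theorem Realised.of_nonSup {B : Formation} {T Q : Type} [Group T] [Finite T] [Group Q]
    (q : T →* Q) (hq : Surjective q) (hns : NonSup q.ker) (h : B.Realised Q) : B.Realised T := by
  obtain ⟨G, _, _, π, hπ⟩ := h
  obtain ⟨Γ, _, _, p, hp, e, _, he'⟩ := exists_coinduced (B.res G) π hπ q hq hns
  have hR : B.res Γ ≤ (B.res G).comap p := by
    rw [← Subgroup.map_le_iff_le_comap, B.map_res p hp]
  refine ⟨Γ, inferInstance, inferInstance, e.comp (Subgroup.inclusion hR), ?_⟩
  intro h
  obtain ⟨w, hw, hw'⟩ := he' (B.res Γ) inferInstance hR (B.map_res p hp) h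
  exact ⟨⟨w, hw⟩, hw'⟩

theorem full_of_simple {B : Formation} (hB : B.NormallyHereditary)
    (hs : ∀ (S : Type) [Group S] [Finite S] [IsSimpleGroup S], B.Realised S) : B.Full := by
  have key : ∀ n : ℕ, ∀ (T : Type) [Group T] [Finite T], Nat.card T = n → B.Realised T := by
    intro n
    induction n using Nat.strong_induction_on with
    | _ n ih =>
      intro T _ _ hT
      rcases subsingleton_or_nontrivial T with hT1 | hT1
      · exact ⟨Unit, inferInstance, inferInstance, 1, fun x => ⟨1, Subsingleton.elim _ _⟩⟩
      · by_cases hsimple : IsSimpleGroup T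
        · exact hs T
        · obtain ⟨N, hN, hN1, hN2⟩ : ∃ N : Subgroup T, N.Normal ∧ N ≠ ⊥ ∧ N ≠ ⊤ := by
            by_contra hcon
            push Not at hcon
            exact hsimple ⟨fun N hN => or_iff_not_imp_left.mpr (hcon N hN)⟩
          obtain ⟨T₀, C, hT₀, hC, hCN, hCN', hns⟩ := exists_nonSup N
          by_cases hbot : T₀ = ⊥
          · -- direct product
            have hC1 : C ≠ ⊤ := by
              rintro rfl
              rw [top_inf_eq] at hCN
              exact hN1 (hCN.trans hbot)
            let f : T →* (T ⧸ N) × (T ⧸ C) := (QuotientGroup.mk' N).prod (QuotientGroup.mk' C)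
            have hfinj : Injective f := by
              rw [injective_iff_map_eq_one]
              intro x hx
              have hx1 : x ∈ N := (QuotientGroup.eq_one_iff (N := N) x).mp (congrArg Prod.fst hx)
              have hx2 : x ∈ C := (QuotientGroup.eq_one_iff (N := C) x).mp (congrArg Prod.snd hx)
              have : x ∈ C ⊓ N := ⟨hx2, hx1⟩
              rw [hCN, hbot] at this
              exact this
            have hfsurj : Surjective f := by
              rintro ⟨a, b⟩
              obtain ⟨a, rfl⟩ := QuotientGroup.mk_surjective a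
              obtain ⟨b, rfl⟩ := QuotientGroup.mk_surjective b
              have h1 : a⁻¹ * b ∈ N ⊔ C := by rw [sup_comm, hCN']; trivial
              rw [Subgroup.mem_sup_of_normal_left] at h1
              obtain ⟨y, hy, z, hz, hyz⟩ := h1
              refine ⟨a * y, Prod.ext ?_ ?_⟩
              · exact (QuotientGroup.eq.mpr (by simpa using N.inv_mem hy))
              · refine (QuotientGroup.eq.mpr ?_)
                have : (a * y)⁻¹ * b = z := by
                  rw [mul_inv_rev, mul_assoc, ← hyz]
                  simp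
                rw [this]
                exact hz
            have hcN : Nat.card (T ⧸ N) < n := by
              rw [← hT, ← Subgroup.index_eq_card, ← N.card_mul_index]
              have h1 : 1 < Nat.card N := by
                rw [Subgroup.one_lt_card_iff_ne_bot]
                exact hN1
              have h2 : 0 < N.index := Nat.pos_of_ne_zero Subgroup.FiniteIndex.index_ne_zero
              nlinarith
            have hCbot : C ≠ ⊥ := by
              rintro rfl
              rw [bot_sup_eq] at hCN'
              exact hN2 hCN'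
            have hcC : Nat.card (T ⧸ C) < n := by
              rw [← hT, ← Subgroup.index_eq_card, ← C.card_mul_index]
              have h1 : 1 < Nat.card C := by
                rw [Subgroup.one_lt_card_iff_ne_bot]
                exact hCbot
              have h2 : 0 < C.index := Nat.pos_of_ne_zero Subgroup.FiniteIndex.index_ne_zero
              nlinarith
            have e : T ≃* (T ⧸ N) × (T ⧸ C) := MulEquiv.ofBijective f ⟨hfinj, hfsurj⟩
            exact ((ih _ hcN (T ⧸ N) rfl).prod hB (ih _ hcC (T ⧸ C) rfl)).of_surjective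
              e.symm.toMonoidHom e.symm.surjective
          · have hc : Nat.card (T ⧸ T₀) < n := by
              rw [← hT, ← Subgroup.index_eq_card, ← T₀.card_mul_index]
              have h1 : 1 < Nat.card T₀ := by
                rw [Subgroup.one_lt_card_iff_ne_bot]
                exact hbot
              have h2 : 0 < T₀.index := Nat.pos_of_ne_zero Subgroup.FiniteIndex.index_ne_zero
              nlinarith
            refine Realised.of_nonSup (QuotientGroup.mk' T₀) (QuotientGroup.mk'_surjective T₀) ?_
              (ih _ hc (T ⧸ T₀) rfl)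
            rw [QuotientGroup.ker_mk']
            exact hns
  intro T _ _
  exact key _ T rfl

theorem Indecomposable.full {B : Formation} (hB : B.Indecomposable)
    (hB' : B.NormallyHereditary) : B.Full := by
  apply full_of_simple hB'
  intro S _ _ _
  by_contra hcon
  have h : B = esForm S * B := by
    apply ext'
    intro G _
    constructor
    · intro h
      have := B.finite_of_mem h
      refine ⟨inferInstance, ?_⟩
      rw [B.mem_iff_res_eq_bot.mp h]
      exact Formation.mem_of_subsingleton _ _
    · rintro ⟨hG, h⟩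
      rw [B.mem_iff_res_eq_bot]
      by_contra hne
      have hnt : Nontrivial (B.res G) := (Subgroup.nontrivial_iff_ne_bot _).mpr hne
      obtain ⟨ψ, hψ⟩ := ES.exists_surjective h hnt
      exact hcon ⟨G, inferInstance, inferInstance, ψ, hψ⟩
  rcases hB.2 _ _ h with h1 | h1
  · exact esForm_ne_one S h1
  · exact hB.1 h1

end Formation

/-- The quotient by a normal subgroup `L` that is the common kernel of surjections of `M` onto
`Z`. -/
theorem mem_map_mk_iff (A : Formation) {G Z ι : Type} [Group G] [Finite G] [Group Z] [Nonempty ι]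
    (L M : Subgroup G) [L.Normal] (ψ : ι → M →* Z) (hψ : ∀ i, Surjective (ψ i))
    (hL : ∀ x : M, (x : G) ∈ L ↔ ∀ i, ψ i x = 1) :
    A.mem (M.map (QuotientGroup.mk' L)) ↔ A.mem Z := by
  obtain ⟨φ, hφ, hφ'⟩ := Formation.exists_restrict (QuotientGroup.mk' L) M _ rfl
  have h1 : ∀ x, φ x = 1 ↔ ∀ i, ψ i x = 1 := by
    intro x
    rw [← hL x]
    have h2 : φ x = 1 ↔ ((φ x : M.map (QuotientGroup.mk' L)) : G ⧸ L) = 1 := by simp
    rw [h2, hφ' x]
    exact QuotientGroup.eq_one_iff (N := L) (x : G)
  have h3 : ∀ i, ∃ ψ' : M.map (QuotientGroup.mk' L) →* Z, ∀ x, ψ' (φ x) = ψ i x := fun i =>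
    exists_lift φ hφ (ψ i) (fun x hx => (h1 x).mp hx i)
  choose ψ' hψ' using h3
  have h4 : ∀ i, Surjective (ψ' i) := by
    intro i z
    obtain ⟨x, rfl⟩ := hψ i z
    exact ⟨φ x, hψ' i x⟩
  constructor
  · intro h
    obtain ⟨i⟩ := (inferInstance : Nonempty ι)
    exact A.mem_of_surjective (ψ' i) (h4 i) h
  · intro h
    refine A.mem_of_family ψ' h4 ?_ (fun _ => h)
    intro y hy
    obtain ⟨x, rfl⟩ := hφ y
    rw [h1]
    intro i
    rw [← hψ']
    exact hy i

/-- Conjugates of a surjective homomorphism defined on a normal subgroup `M`, restricted to a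
smaller normal subgroup `M₁`. -/
theorem mem_core_iff (A : Formation) {G T : Type} [Group G] [Finite G] [Group T]
    (M : Subgroup G) [hM : M.Normal] (π : M →* T) (M₁ : Subgroup G) [hM₁ : M₁.Normal]
    (hle : M₁ ≤ M) (Z : Subgroup T) (hZ : (M₁.subgroupOf M).map π = Z) :
    A.mem (M₁.map (QuotientGroup.mk' ((π.ker.map M.subtype).normalCore))) ↔ A.mem Z := by
  let c : G → M →* M := fun g =>
    { toFun := fun x => ⟨g * x * g⁻¹, hM.conj_mem x x.2 g⟩
      map_one' := by apply Subtype.ext; simp
      map_mul' := by intro x y; apply Subtype.ext; simp }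
  let ψ : G → M₁ →* Z := fun g =>
    ((π.comp (c g)).comp (Subgroup.inclusion hle)).codRestrict Z (by
      intro x
      rw [← hZ]
      exact ⟨_, hM₁.conj_mem x x.2 g, rfl⟩)
  refine mem_map_mk_iff A _ M₁ ψ ?_ ?_
  · rintro g ⟨z, hz⟩
    rw [← hZ] at hz
    obtain ⟨x, hx, rfl⟩ := hz
    have hx' : (x : G) ∈ M₁ := hx
    refine ⟨⟨g⁻¹ * x * g, by simpa using hM₁.conj_mem x hx' g⁻¹⟩, ?_⟩
    apply Subtype.ext
    change π _ = π x
    congr 1
    apply Subtype.ext
    change g * (g⁻¹ * (x : G) * g) * g⁻¹ = x
    group
  · intro x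
    constructor
    · intro h g
      obtain ⟨y, hy, hy'⟩ := h g
      apply Subtype.ext
      change π _ = 1
      have : (⟨g * x * g⁻¹, hM.conj_mem x (hle x.2) g⟩ : M) = y := Subtype.ext hy'.symm
      rw [← MonoidHom.mem_ker]
      have h2 : (⟨g * x * g⁻¹, hM.conj_mem x (hle x.2) g⟩ : M) ∈ π.ker := by rw [this]; exact hy
      exact h2
    · intro h g
      have h2 := congrArg Subtype.val (h g)
      exact ⟨⟨g * x * g⁻¹, hM.conj_mem x (hle x.2) g⟩, h2, rfl⟩

/-- **Right cancellation.** -/
theorem right_cancel {A A' B : Formation} (hB : B.Full) (h : A * B = A' * B) : A = A' := by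
  have key : ∀ A : Formation, ∀ (G T : Type) [Group G] [Finite G] [Group T]
      (π : B.res G →* T), Surjective π →
      ((A * B).mem (G ⧸ (π.ker.map (B.res G).subtype).normalCore) ↔ A.mem T) := by
    intro A G T _ _ _ π hπ
    have h1 := mem_core_iff A (B.res G) π (B.res G) le_rfl ⊤ (by
      rw [Subgroup.subgroupOf_self, ← MonoidHom.range_eq_map, MonoidHom.range_eq_top.mpr hπ])
    rw [B.map_res _ (QuotientGroup.mk'_surjective _)] at h1
    rw [Formation.mul_def, Formation.mem_comp_of_finite, h1]
    exact ⟨A.mem_of_equiv Subgroup.topEquiv, A.mem_of_equiv Subgroup.topEquiv.symm⟩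
  apply Formation.ext'
  intro T _
  constructor
  · intro hT
    have := A.finite_of_mem hT
    obtain ⟨G, _, _, π, hπ⟩ := hB T
    rw [← key A G T π hπ, h, key A' G T π hπ] at hT
    exact hT
  · intro hT
    have := A'.finite_of_mem hT
    obtain ⟨G, _, _, π, hπ⟩ := hB T
    rw [← key A' G T π hπ, ← h, key A G T π hπ] at hT
    exact hT

end Pool.Agent.Lib_helper5.Form
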