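import Pool.Agent.Lib_helper5.FormEmb
import Pool.Agent.Lib_helper5.FormLeft

/-!
# Block ZSYS: the marking system of images of residuals
-/

set_option maxHeartbeats 400000

namespace Pool.Agent.Lib_helper5.Form

open Function Formation

/-- A marking of `J`: a presentation of `J` as a quotient of a `B₀`-residual. -/
structure ZMk (B₀ : Formation) (J : Type) [Group J] : Type 1 where
  G : Type
  grp : Group G
  fin : Finite G
  π : B₀.res G →* J
  hπ : Surjective π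

attribute [instance] ZMk.grp ZMk.fin

namespace ZMk

variable {B₀ B' : Formation}

/-- the marked subgroup: the image of the `B'`-residual -/
def Z (B' : Formation) {J : Type} [Group J] (x : ZMk B₀ J) : Subgroup J :=
  ((B'.res x.G).subgroupOf (B₀.res x.G)).map x.π

theorem mem_Z {J : Type} [Group J] (x : ZMk B₀ J) (z : J) :
    z ∈ x.Z B' ↔ ∃ t : B₀.res x.G, (t : x.G) ∈ B'.res x.G ∧ x.π t = z := Iff.rfl

theorem finite {J : Type} [Group J] (x : ZMk B₀ J) : Finite J :=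
  Finite.of_surjective x.π x.hπ

theorem normal {J : Type} [Group J] (x : ZMk B₀ J) : (x.Z B').Normal :=
  Subgroup.Normal.map inferInstance x.π x.hπ

theorem zc {J : Type} [Group J] (x : ZMk B₀ J) : ZC B₀ B' J (x.Z B') :=
  ⟨x.finite, x.G, x.grp, x.fin, x.π, x.hπ, rfl⟩

theorem exists_of_zc {J : Type} [Group J] {Z : Subgroup J} (h : ZC B₀ B' J Z) :
    ∃ x : ZMk B₀ J, x.Z B' = Z := by
  obtain ⟨_, G, _, _, π, hπ, hZ⟩ := h
  exact ⟨⟨G, inferInstance, inferInstance, π, hπ⟩, hZ⟩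

/-- coverings of markings -/
def Cov {J' J : Type} [Group J'] [Group J] (f : J' →* J) (y : ZMk B₀ J') (x : ZMk B₀ J) : Prop :=
  Surjective f ∧ ∃ ρ : y.G →* x.G, Surjective ρ ∧
    ∀ (t : B₀.res y.G) (s : B₀.res x.G), (s : x.G) = ρ t → f (y.π t) = x.π s

theorem map_mem_res (B : Formation) {G H : Type} [Group G] [Group H] [Finite G] (ρ : G →* H)
    (hρ : Surjective ρ) {t : G} (ht : t ∈ B.res G) : ρ t ∈ B.res H := by
  rw [← B.map_res ρ hρ]
  exact ⟨t, ht, rfl⟩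

theorem exists_mem_res (B : Formation) {G H : Type} [Group G] [Group H] [Finite G] (ρ : G →* H)
    (hρ : Surjective ρ) {t : H} (ht : t ∈ B.res H) : ∃ s ∈ B.res G, ρ s = t := by
  rw [← B.map_res ρ hρ] at ht
  exact ht

theorem map_Z (hle : B₀.Le B') {J' J : Type} [Group J'] [Group J] {f : J' →* J}
    {y : ZMk B₀ J'} {x : ZMk B₀ J} (h : Cov f y x) : (y.Z B').map f = x.Z B' := by
  obtain ⟨hf, ρ, hρ, hρ'⟩ := h
  ext z
  constructor
  · rintro ⟨_, ⟨t, ht, rfl⟩, rfl⟩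
    have h1 : ρ t ∈ B₀.res x.G := map_mem_res B₀ ρ hρ t.2
    have h2 : ρ t ∈ B'.res x.G := map_mem_res B' ρ hρ ht
    exact ⟨⟨ρ t, h1⟩, h2, (hρ' t ⟨ρ t, h1⟩ rfl).symm⟩
  · rintro ⟨s, hs, rfl⟩
    obtain ⟨t, ht, hts⟩ := exists_mem_res B' ρ hρ hs
    have h1 : t ∈ B₀.res y.G := ZC.res_le hle y.G ht
    exact ⟨y.π ⟨t, h1⟩, ⟨⟨t, h1⟩, ht, rfl⟩, hρ' ⟨t, h1⟩ s hts.symm⟩

theorem cov_refl {J : Type} [Group J] (x : ZMk B₀ J) : Cov (MonoidHom.id J) x x := by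
  refine ⟨surjective_id, MonoidHom.id _, surjective_id, ?_⟩
  intro t s hs
  have : s = t := Subtype.ext hs
  rw [this]
  rfl

theorem cov_comp {J'' J' J : Type} [Group J''] [Group J'] [Group J]
    {f : J' →* J} {g : J'' →* J'} {z : ZMk B₀ J''} {y : ZMk B₀ J'} {x : ZMk B₀ J}
    (h : Cov f y x) (h' : Cov g z y) : Cov (f.comp g) z x := by
  obtain ⟨hf, ρ, hρ, hρ'⟩ := h
  obtain ⟨hg, σ, hσ, hσ'⟩ := h'
  refine ⟨hf.comp hg, ρ.comp σ, hρ.comp hσ, ?_⟩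
  intro t s hs
  have h1 : σ t ∈ B₀.res y.G := map_mem_res B₀ σ hσ t.2
  have h2 := hσ' t ⟨σ t, h1⟩ rfl
  have h3 := hρ' ⟨σ t, h1⟩ s hs
  rw [MonoidHom.comp_apply, h2, h3]

theorem push {J K : Type} [Group J] [Group K] (f : J →* K) (x : ZMk B₀ J) (hf : Surjective f) :
    ∃ m : ZMk B₀ K, Cov f x m ∧ ∀ {I : Type} [Group I] (g : K →* I) (w : ZMk B₀ I),
      Cov (g.comp f) x w → Cov g m w := by
  refine ⟨⟨x.G, inferInstance, inferInstance, f.comp x.π, hf.comp x.hπ⟩, ⟨hf, MonoidHom.id _,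
    surjective_id, ?_⟩, ?_⟩
  · intro t s hs
    have : s = t := Subtype.ext hs
    rw [this]
    rfl
  · rintro I _ g w ⟨hg, ρ, hρ, hρ'⟩
    refine ⟨?_, ρ, hρ, ?_⟩
    · intro i
      obtain ⟨j, hj⟩ := hg i
      exact ⟨f j, hj⟩
    · intro t s hs
      exact hρ' t s hs

/-- Fibre products. -/
def fib {P Q R : Type} [Group P] [Group Q] [Group R] (f : P →* R) (g : Q →* R) :
    Subgroup (P × Q) where
  carrier := {x | f x.1 = g x.2}
  mul_mem' := by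
    intro a b ha hb
    change f (a.1 * b.1) = g (a.2 * b.2)
    rw [map_mul, map_mul, ha, hb]
  one_mem' := by
    change f 1 = g 1
    rw [map_one, map_one]
  inv_mem' := by
    intro a ha
    change f a.1⁻¹ = g a.2⁻¹
    rw [map_inv, map_inv, ha]

theorem mem_fib {P Q R : Type} [Group P] [Group Q] [Group R] {f : P →* R} {g : Q →* R}
    {x : P × Q} : x ∈ fib f g ↔ f x.1 = g x.2 := Iff.rfl

/-- first projection of a fibre product -/
def fib₁ {P Q R : Type} [Group P] [Group Q] [Group R] (f : P →* R) (g : Q →* R) :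
    fib f g →* P := (MonoidHom.fst P Q).comp (fib f g).subtype

/-- second projection of a fibre product -/
def fib₂ {P Q R : Type} [Group P] [Group Q] [Group R] (f : P →* R) (g : Q →* R) :
    fib f g →* Q := (MonoidHom.snd P Q).comp (fib f g).subtype

theorem fib_comm {P Q R : Type} [Group P] [Group Q] [Group R] (f : P →* R) (g : Q →* R)
    (x : fib f g) : f (fib₁ f g x) = g (fib₂ f g x) := x.2

theorem fib₁_surjective {P Q R : Type} [Group P] [Group Q] [Group R] (f : P →* R) (g : Q →* R)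
    (hg : Surjective g) : Surjective (fib₁ f g) := by
  intro p
  obtain ⟨q, hq⟩ := hg (f p)
  exact ⟨⟨(p, q), hq.symm⟩, rfl⟩

theorem fib₂_surjective {P Q R : Type} [Group P] [Group Q] [Group R] (f : P →* R) (g : Q →* R)
    (hf : Surjective f) : Surjective (fib₂ f g) := by
  intro q
  obtain ⟨p, hp⟩ := hf (g q)
  exact ⟨⟨(p, q), hp⟩, rfl⟩

theorem lift (h₀ : B₀.Emb) {L J : Type} [Group L] [Group J] [Finite L] (f : L →* J)
    (x : ZMk B₀ J) (hf : Surjective f) : ∃ y : ZMk B₀ L, Cov f y x := by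
  obtain ⟨G', _, _, ρ, hρ, h, hh, hh'⟩ := h₀ x.G (fib f x.π) (fib₂ f x.π)
    (fib₂_surjective f x.π hf)
  refine ⟨⟨G', inferInstance, inferInstance, (fib₁ f x.π).comp h,
    (fib₁_surjective f x.π x.hπ).comp hh⟩, hf, ρ, hρ, ?_⟩
  intro t s hs
  change f (fib₁ f x.π (h t)) = x.π s
  rw [fib_comm]
  congr 1
  apply Subtype.ext
  rw [hs]
  exact hh' t

theorem emb (h' : B'.Emb) (hle : B₀.Le B') {J K : Type} [Group J] [Group K] [Finite K]
    (x : ZMk B₀ J) (g : K →* x.Z B') (hg : Surjective g) :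
    ∃ (J' : Type) (_ : Group J') (f : J' →* J) (y : ZMk B₀ J'), Cov f y x ∧
      ∃ h : y.Z B' →* K, Surjective h ∧ ∀ z : y.Z B', ((g (h z) : x.Z B') : J) = f z := by
  -- the restriction of `π` to the `B'`-residual
  let r : B'.res x.G →* x.Z B' :=
    (x.π.comp (Subgroup.inclusion (ZC.res_le hle x.G))).codRestrict (x.Z B') (fun t =>
      ⟨⟨t, ZC.res_le hle x.G t.2⟩, t.2, rfl⟩)
  have hr : Surjective r := by
    rintro ⟨z, t, ht, rfl⟩
    exact ⟨⟨t, ht⟩, rfl⟩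
  obtain ⟨G', _, _, ρ, hρ, h, hh, hh'⟩ := h' x.G (fib g r) (fib₂ g r) (fib₂_surjective g r hg)
  have hmem : ∀ t : B₀.res G', ρ t ∈ B₀.res x.G := fun t => map_mem_res B₀ ρ hρ t.2
  let ρ₀ : B₀.res G' →* B₀.res x.G := (ρ.comp (B₀.res G').subtype).codRestrict _ hmem
  have hρ₀ : Surjective ρ₀ := by
    rintro ⟨t, ht⟩
    obtain ⟨s, hs, rfl⟩ := exists_mem_res B₀ ρ hρ ht
    exact ⟨⟨s, hs⟩, rfl⟩
  refine ⟨B₀.res G', inferInstance, x.π.comp ρ₀, ⟨G', inferInstance, inferInstance,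
    MonoidHom.id _, surjective_id⟩, ⟨x.hπ.comp hρ₀, ρ, hρ, ?_⟩, ?_⟩
  · intro t s hs
    change x.π (ρ₀ t) = x.π s
    congr 1
    exact Subtype.ext hs.symm
  · let y : ZMk B₀ (B₀.res G') := ⟨G', inferInstance, inferInstance, MonoidHom.id _,
      surjective_id⟩
    have hy : ∀ z : y.Z B', ((z : B₀.res G') : G') ∈ B'.res G' := by
      rintro ⟨_, t, ht, rfl⟩
      exact ht
    let j : y.Z B' →* B'.res G' := ((B₀.res G').subtype.comp (y.Z B').subtype).codRestrict _ hy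
    refine ⟨(fib₁ g r).comp (h.comp j), ?_, ?_⟩
    · refine (fib₁_surjective g r hr).comp (hh.comp ?_)
      rintro ⟨t, ht⟩
      exact ⟨⟨⟨t, ZC.res_le hle G' ht⟩, ⟨t, ZC.res_le hle G' ht⟩, ht, rfl⟩, rfl⟩
    · intro z
      change ((g (fib₁ g r (h (j z))) : x.Z B') : J) = x.π (ρ₀ z)
      rw [fib_comm]
      change x.π _ = x.π _
      congr 1
      apply Subtype.ext
      exact hh' (j z)

theorem join {J J₁ J₂ : Type} [Group J] [Group J₁] [Group J₂] {x : ZMk B₀ J}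
    {f₁ : J₁ →* J} {f₂ : J₂ →* J} {y₁ : ZMk B₀ J₁} {y₂ : ZMk B₀ J₂} (h₁ : Cov f₁ y₁ x)
    (h₂ : Cov f₂ y₂ x) :
    ∃ (J₃ : Type) (_ : Group J₃) (g₁ : J₃ →* J₁) (g₂ : J₃ →* J₂) (z : ZMk B₀ J₃),
      Cov g₁ z y₁ ∧ Cov g₂ z y₂ ∧ ∀ t, f₁ (g₁ t) = f₂ (g₂ t) := by
  obtain ⟨hf₁, ρ₁, hρ₁, hρ₁'⟩ := h₁
  obtain ⟨hf₂, ρ₂, hρ₂, hρ₂'⟩ := h₂
  have s₁ := fib₁_surjective ρ₁ ρ₂ hρ₂
  have s₂ := fib₂_surjective ρ₁ ρ₂ hρ₁
  have m₁ : ∀ t : B₀.res (fib ρ₁ ρ₂), fib₁ ρ₁ ρ₂ t ∈ B₀.res y₁.G :=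
    fun t => map_mem_res B₀ _ s₁ t.2
  have m₂ : ∀ t : B₀.res (fib ρ₁ ρ₂), fib₂ ρ₁ ρ₂ t ∈ B₀.res y₂.G :=
    fun t => map_mem_res B₀ _ s₂ t.2
  let p₁ : B₀.res (fib ρ₁ ρ₂) →* B₀.res y₁.G :=
    ((fib₁ ρ₁ ρ₂).comp (B₀.res (fib ρ₁ ρ₂)).subtype).codRestrict _ m₁
  let p₂ : B₀.res (fib ρ₁ ρ₂) →* B₀.res y₂.G :=
    ((fib₂ ρ₁ ρ₂).comp (B₀.res (fib ρ₁ ρ₂)).subtype).codRestrict _ m₂
  have hp₁ : Surjective p₁ := by
    rintro ⟨t, ht⟩
    obtain ⟨s, hs, rfl⟩ := exists_mem_res B₀ _ s₁ ht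
    exact ⟨⟨s, hs⟩, rfl⟩
  have hp₂ : Surjective p₂ := by
    rintro ⟨t, ht⟩
    obtain ⟨s, hs, rfl⟩ := exists_mem_res B₀ _ s₂ ht
    exact ⟨⟨s, hs⟩, rfl⟩
  refine ⟨B₀.res (fib ρ₁ ρ₂), inferInstance, y₁.π.comp p₁, y₂.π.comp p₂,
    ⟨fib ρ₁ ρ₂, inferInstance, inferInstance, MonoidHom.id _, surjective_id⟩,
    ⟨y₁.hπ.comp hp₁, fib₁ ρ₁ ρ₂, s₁, ?_⟩, ⟨y₂.hπ.comp hp₂, fib₂ ρ₁ ρ₂, s₂, ?_⟩, ?_⟩
  · intro t s hs
    change y₁.π (p₁ t) = y₁.π s
    congr 1
    exact Subtype.ext hs.symm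
  · intro t s hs
    change y₂.π (p₂ t) = y₂.π s
    congr 1
    exact Subtype.ext hs.symm
  · intro t
    change f₁ (y₁.π (p₁ t)) = f₂ (y₂.π (p₂ t))
    have e1 : ρ₁ (p₁ t) ∈ B₀.res x.G := map_mem_res B₀ ρ₁ hρ₁ (p₁ t).2
    rw [hρ₁' (p₁ t) ⟨_, e1⟩ rfl, hρ₂' (p₂ t) ⟨_, e1⟩ (fib_comm ρ₁ ρ₂ t)]

/-- The pushforward of functions along an equivariant map. -/
def wrPush {G Ω Ω' H : Type} [Group G] [MulAction G Ω] [MulAction G Ω'] [CommGroup H]
    [Fintype Ω] [DecidableEq Ω'] (σ : Ω → Ω') (hσ : ∀ (g : G) ω, σ (g • ω) = g • σ ω) :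
    WrA G Ω H →* WrA G Ω' H where
  toFun a := ⟨fun ω' => ∏ ω ∈ Finset.univ.filter (fun ω => σ ω = ω'), a.f ω, a.x⟩
  map_one' := by
    apply WrA.ext
    · funext ω'
      simp
    · rfl
  map_mul' a b := by
    apply WrA.ext
    · funext ω'
      simp only [WrA.mul_f, Finset.prod_mul_distrib]
      congr 1
      refine Finset.prod_equiv (MulAction.toPerm a.x⁻¹) ?_ ?_
      · intro ω
        simp only [Finset.mem_filter, Finset.mem_univ, true_and, MulAction.toPerm_apply, hσ]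
        exact (smul_left_cancel_iff a.x⁻¹).symm
      · intro ω _
        rfl
    · rfl

theorem wrPush_x {G Ω Ω' H : Type} [Group G] [MulAction G Ω] [MulAction G Ω'] [CommGroup H]
    [Fintype Ω] [DecidableEq Ω'] (σ : Ω → Ω') (hσ : ∀ (g : G) ω, σ (g • ω) = g • σ ω)
    (a : WrA G Ω H) : (wrPush σ hσ a).x = a.x := rfl

theorem wrPush_f {G Ω Ω' H : Type} [Group G] [MulAction G Ω] [MulAction G Ω'] [CommGroup H]
    [Fintype Ω] [DecidableEq Ω'] (σ : Ω → Ω') (hσ : ∀ (g : G) ω, σ (g • ω) = g • σ ω)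
    (a : WrA G Ω H) (ω' : Ω') : (wrPush σ hσ a).f ω' =
      ∏ ω ∈ Finset.univ.filter (fun ω => σ ω = ω'), a.f ω := rfl

theorem wrPush_surjective {G Ω Ω' H : Type} [Group G] [MulAction G Ω] [MulAction G Ω']
    [CommGroup H] [Fintype Ω] [DecidableEq Ω'] (σ : Ω → Ω')
    (hσ : ∀ (g : G) ω, σ (g • ω) = g • σ ω) (hs : Surjective σ) :
    Surjective (wrPush (H := H) σ hσ) := by
  classical
  rintro ⟨f, g⟩
  refine ⟨⟨fun ω => if surjInv hs (σ ω) = ω then f (σ ω) else 1, g⟩, ?_⟩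
  apply WrA.ext
  · funext ω'
    rw [wrPush_f]
    rw [Finset.prod_eq_single (surjInv hs ω')]
    · simp [surjInv_eq hs]
    · intro ω hω hne
      simp only [Finset.mem_filter, Finset.mem_univ, true_and] at hω
      simp only [hω]
      rw [if_neg (Ne.symm hne)]
    · intro hcon
      simp [surjInv_eq hs] at hcon
  · rfl

/-- A subgroup of `R → C_q` containing all differences of single coordinate functions and a
function with nontrivial product is everything. -/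
theorem eq_top_of_prod {R : Type} [Group R] [Fintype R] [DecidableEq R] {q : ℕ}
    [hq : Fact q.Prime] (I : Subgroup (R → Cyc q))
    (h1 : ∀ (r : R) (c : Cyc q), Pi.mulSingle 1 c * (Pi.mulSingle r c)⁻¹ ∈ I)
    (h2 : ∃ f ∈ I, ∏ r, f r ≠ 1) (f : R → Cyc q) : f ∈ I := by
  have key : ∀ f : R → Cyc q, (Pi.mulSingle 1 (∏ r, f r) : R → Cyc q) * f⁻¹ ∈ I := by
    intro f
    have h3 : (Pi.mulSingle 1 (∏ r, f r) : R → Cyc q) * f⁻¹ =
        ∏ r, ((Pi.mulSingle 1 (f r) : R → Cyc q) * (Pi.mulSingle r (f r))⁻¹) := by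
      rw [Finset.prod_mul_distrib, Finset.prod_inv_distrib, Finset.univ_prod_mulSingle]
      congr 1
      exact map_prod (MonoidHom.mulSingle (fun _ : R => Cyc q) 1) f Finset.univ
    rw [h3]
    exact Subgroup.prod_mem _ (fun r _ => h1 r (f r))
  have h4 : I.comap (MonoidHom.mulSingle (fun _ : R => Cyc q) 1) = ⊤ := by
    have hs : IsSimpleGroup (Cyc q) := isSimpleGroup_of_prime_card (p := q) (by
      rw [Nat.card_congr Multiplicative.toAdd, Nat.card_zmod])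
    refine (IsSimpleOrder.eq_bot_or_eq_top _).resolve_left ?_
    intro hbot
    obtain ⟨f, hf, hf'⟩ := h2
    have h5 : (Pi.mulSingle 1 (∏ r, f r) : R → Cyc q) ∈ I := by
      have := I.mul_mem (key f) hf
      simpa using this
    have h6 : (∏ r, f r) ∈ I.comap (MonoidHom.mulSingle (fun _ : R => Cyc q) 1) := h5
    rw [hbot] at h6
    exact hf' h6
  have h5 : (Pi.mulSingle 1 (∏ r, f r) : R → Cyc q) ∈ I := by
    have h6 : (∏ r, f r) ∈ I.comap (MonoidHom.mulSingle (fun _ : R => Cyc q) 1) := by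
      rw [h4]; trivial
    exact h6
  have h6 := I.mul_mem (I.inv_mem (key f)) h5
  have h7 : ((Pi.mulSingle 1 (∏ r, f r) : R → Cyc q) * f⁻¹)⁻¹ *
      (Pi.mulSingle 1 (∏ r, f r) : R → Cyc q) = f := by
    rw [mul_inv_rev, inv_inv, inv_mul_cancel_right]
  rwa [h7] at h6

section NL

variable {J R G₁ V : Type} [Group J] [Group R] [Group G₁] [Group V] (N : Subgroup G₁)
  (π₁ : N →* J) (κ : J →* R)

/-- the inverse image of `ker κ` -/
def uu : Subgroup G₁ := (κ.comp π₁).ker.map N.subtype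

theorem mem_uu (g : G₁) : g ∈ uu N π₁ κ ↔ ∃ hg : g ∈ N, κ (π₁ ⟨g, hg⟩) = 1 := by
  constructor
  · rintro ⟨⟨t, ht⟩, h, rfl⟩
    exact ⟨ht, h⟩
  · rintro ⟨hg, h⟩
    exact ⟨⟨g, hg⟩, h, rfl⟩

theorem mk_eq_iff (n m : N) : ((n : G₁) : G₁ ⧸ uu N π₁ κ) = ((m : G₁) : G₁ ⧸ uu N π₁ κ) ↔
    κ (π₁ n) = κ (π₁ m) := by
  rw [QuotientGroup.eq, mem_uu]
  constructor
  · rintro ⟨hg, h⟩
    have h1 : (⟨(n : G₁)⁻¹ * m, hg⟩ : N) = n⁻¹ * m := rfl
    rw [h1, map_mul, map_mul, map_inv, map_inv] at h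
    exact inv_mul_eq_one.mp h
  · intro h
    refine ⟨N.mul_mem (N.inv_mem n.2) m.2, ?_⟩
    have h1 : (⟨(n : G₁)⁻¹ * m, N.mul_mem (N.inv_mem n.2) m.2⟩ : N) = n⁻¹ * m := rfl
    rw [h1, map_mul, map_mul, map_inv, map_inv, h, inv_mul_cancel]

variable (b : R → N) (hb : ∀ r, κ (π₁ (b r)) = r)

/-- the comparison map to the regular wreath product -/
def eMap : N.comap (WrA.pr : WrA G₁ (G₁ ⧸ uu N π₁ κ) V →* G₁) →* Wr κ V where
  toFun w := ⟨fun r => w.1.f ((b r : G₁) : G₁ ⧸ uu N π₁ κ), π₁ ⟨w.1.x, w.2⟩⟩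
  map_one' := by
    apply Wr.ext
    · funext r
      rfl
    · exact map_one π₁
  map_mul' w w' := by
    apply Wr.ext
    · funext r
      change w.1.f _ * w'.1.f (w.1.x⁻¹ • ((b r : G₁) : G₁ ⧸ uu N π₁ κ)) =
        w.1.f _ * w'.1.f ((b ((κ (π₁ ⟨w.1.x, w.2⟩))⁻¹ * r) : G₁) : G₁ ⧸ uu N π₁ κ)
      congr 2
      have h1 : w.1.x⁻¹ • ((b r : G₁) : G₁ ⧸ uu N π₁ κ) =
          (((⟨w.1.x, w.2⟩ : N)⁻¹ * b r : N) : G₁) := rfl
      rw [h1, mk_eq_iff, map_mul, map_mul, map_inv, map_inv, hb, hb]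
    · exact map_mul π₁ ⟨w.1.x, w.2⟩ ⟨w'.1.x, w'.2⟩

theorem eMap_f (w : N.comap (WrA.pr : WrA G₁ (G₁ ⧸ uu N π₁ κ) V →* G₁)) (r : R) :
    (eMap N π₁ κ b hb w).f r = w.1.f ((b r : G₁) : G₁ ⧸ uu N π₁ κ) := rfl

theorem eMap_x (w : N.comap (WrA.pr : WrA G₁ (G₁ ⧸ uu N π₁ κ) V →* G₁)) :
    (eMap N π₁ κ b hb w).x = π₁ ⟨w.1.x, w.2⟩ := rfl

end NL

/-- the map `f ↦ (f, 1)` -/
def baseHom {J R V : Type} [Group J] [Group R] [Group V] (κ : J →* R) : (R → V) →* Wr κ V where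
  toFun f := ⟨f, 1⟩
  map_one' := rfl
  map_mul' f g := by
    apply Wr.ext
    · funext r
      simp
    · simp

theorem eMap_surjective {J R G₁ : Type} [Group J] [Group R] [Group G₁] [Finite G₁] {q : ℕ}
    [hq : Fact q.Prime] (B : Formation) (N : Subgroup G₁) (hN : B.res G₁ = N)
    (π₁ : N →* J) (hπ₁ : Surjective π₁) (κ : J →* R)
    (b : R → N) (hb : ∀ r, κ (π₁ (b r)) = r) (γ' : N →* Cyc q)
    (hγ' : Surjective γ')
    (hle : B.res (WrA G₁ (G₁ ⧸ uu N π₁ κ) (Cyc q)) ≤ N.comap WrA.pr) :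
    Surjective ((eMap N π₁ κ b hb).comp (Subgroup.inclusion hle)) := by
  classical
  set U := uu N π₁ κ with hU
  have hNf : Finite N := inferInstance
  have hJ : Finite J := Finite.of_surjective π₁ hπ₁
  have hκ : Surjective κ := fun r => ⟨_, hb r⟩
  have hR : Finite R := Finite.of_surjective κ hκ
  have : Fintype R := Fintype.ofFinite R
  have : Fintype (G₁ ⧸ U) := Fintype.ofFinite _
  have : Finite (Cyc q) := by
    have : NeZero q := ⟨hq.out.ne_zero⟩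
    infer_instance
  have hprs : Surjective (WrA.pr : WrA G₁ (G₁ ⧸ U) (Cyc q) →* G₁) := fun g => ⟨⟨1, g⟩, rfl⟩
  set π' := (eMap N π₁ κ b hb).comp (Subgroup.inclusion hle) with hπ'
  -- every element of `N` is the top component of an element of the residual
  have hN1 : ∀ n : N, ∃ w : B.res (WrA G₁ (G₁ ⧸ U) (Cyc q)), w.1.x = n := by
    intro n
    obtain ⟨w, hw, hw'⟩ := exists_mem_res B WrA.pr hprs (t := (n : G₁)) (by rw [hN]; exact n.2)
    exact ⟨⟨w, hw⟩, hw'⟩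
  have hmk : ∀ n m : N, ((n : G₁) : G₁ ⧸ U) = ((m : G₁) : G₁ ⧸ U) ↔
    κ (π₁ n) = κ (π₁ m) := mk_eq_iff N π₁ κ
  -- base functions
  have hbase : ∀ f : R → Cyc q, (⟨f, 1⟩ : Wr κ (Cyc q)) ∈ π'.range := by
    intro f
    refine eq_top_of_prod (π'.range.comap (baseHom κ)) ?_ ?_ f
    · intro r c
      obtain ⟨w, hw⟩ := hN1 (b r)
      let φ : G₁ ⧸ U → Cyc q := Pi.mulSingle ((b 1 : G₁) : G₁ ⧸ U) c
      let a : WrA G₁ (G₁ ⧸ U) (Cyc q) := ⟨φ, 1⟩
      have h1 : a * w * a⁻¹ * (w : WrA G₁ (G₁ ⧸ U) (Cyc q))⁻¹ ∈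
          B.res (WrA G₁ (G₁ ⧸ U) (Cyc q)) :=
        Subgroup.mul_mem _ ((B.res_normal _).conj_mem _ w.2 a) (Subgroup.inv_mem _ w.2)
      refine ⟨⟨_, h1⟩, ?_⟩
      apply Wr.ext
      · funext s
        change (a * w * a⁻¹ * (w : WrA G₁ (G₁ ⧸ U) (Cyc q))⁻¹).f ((b s : G₁) : G₁ ⧸ U) =
          (Pi.mulSingle 1 c * (Pi.mulSingle r c)⁻¹ : R → Cyc q) s
        have h2 : ((b r : G₁))⁻¹ • ((b s : G₁) : G₁ ⧸ U) = (((b r)⁻¹ * b s : N) : G₁) := rfl
        have h3 : ((b s : G₁) : G₁ ⧸ U) = ((b 1 : G₁) : G₁ ⧸ U) ↔ s = 1 := by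
          rw [hmk, hb, hb]
        have h4 : ((((b r)⁻¹ * b s : N) : G₁) : G₁ ⧸ U) = ((b 1 : G₁) : G₁ ⧸ U) ↔ s = r := by
          rw [hmk, map_mul, map_mul, map_inv, map_inv, hb, hb, hb, inv_mul_eq_one]
          exact eq_comm
        simp only [WrA.mul_f, WrA.mul_x, WrA.inv_f, WrA.inv_x, a, hw, inv_one, one_smul, one_mul,
          mul_one, smul_inv_smul]
        rw [h2]
        simp only [φ, Pi.mul_apply, Pi.inv_apply, Pi.mulSingle_apply, h3, h4]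
        rw [mul_right_comm, mul_assoc, mul_assoc]
        simp
      · change π₁ ⟨(a * w * a⁻¹ * (w : WrA G₁ (G₁ ⧸ U) (Cyc q))⁻¹).x, _⟩ = 1
        have h2 : ∀ h, (⟨(a * w * a⁻¹ * (w : WrA G₁ (G₁ ⧸ U) (Cyc q))⁻¹).x, h⟩ : N) = 1 := by
          intro h
          apply Subtype.ext
          simp [a]
        rw [h2, map_one]
    · -- a base function with nontrivial total product
      obtain ⟨k, hk⟩ := hγ' (Multiplicative.ofAdd 1)
      have hk1 : γ' k ≠ 1 := by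
        rw [hk]
        have : Fact (1 < q) := ⟨hq.out.one_lt⟩
        intro h
        exact one_ne_zero (α := ZMod q) h
      obtain ⟨φ, hφ, hφ'⟩ := exists_res_base B N γ' k (by rw [hN]; exact k.2)
      let σ : G₁ ⧸ U → G₁ ⧸ N := Subgroup.quotientMapOfLE (by
        intro g hg
        obtain ⟨h1, _⟩ := (mem_uu N π₁ κ g).mp hg
        exact h1)
      have hσ : ∀ (g : G₁) ω, σ (g • ω) = g • σ ω := by
        intro g ω
        induction ω using QuotientGroup.induction_on with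
        | H x => rfl
      have hσs : Surjective σ := by
        intro ω
        induction ω using QuotientGroup.induction_on with
        | H x => exact ⟨((x : G₁) : G₁ ⧸ U), rfl⟩
      obtain ⟨w, hw, hw'⟩ := exists_mem_res B (wrPush σ hσ) (wrPush_surjective σ hσ hσs) hφ'
      have hwx : w.x = 1 := congrArg WrA.x hw'
      refine ⟨(π' ⟨w, hw⟩).f, ⟨⟨w, hw⟩, ?_⟩, ?_⟩
      · apply Wr.ext
        · rfl
        · change π₁ ⟨w.x, _⟩ = 1
          have h2 : ∀ h, (⟨w.x, h⟩ : N) = 1 := fun h => Subtype.ext hwx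
          rw [h2, map_one]
      · have h1 : ∏ r, (π' ⟨w, hw⟩).f r = φ ((1 : G₁) : G₁ ⧸ N) := by
          have h2 := congrFun (congrArg WrA.f hw') ((1 : G₁) : G₁ ⧸ N)
          rw [wrPush_f] at h2
          refine Eq.trans ?_ h2
          refine Finset.prod_bij (fun r _ => ((b r : G₁) : G₁ ⧸ U)) ?_ ?_ ?_ ?_
          · intro r _
            simp only [Finset.mem_filter, Finset.mem_univ, true_and]
            change ((b r : G₁) : G₁ ⧸ N) = ((1 : G₁) : G₁ ⧸ N)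
            rw [QuotientGroup.eq]
            simp
          · intro r _ s _ hrs
            have h3 := (hmk _ _).mp hrs
            rwa [hb, hb] at h3
          · intro ω hω
            simp only [Finset.mem_filter, Finset.mem_univ, true_and] at hω
            induction ω using QuotientGroup.induction_on with
            | H g =>
              have h3 : ((g : G₁) : G₁ ⧸ N) = ((1 : G₁) : G₁ ⧸ N) := hω
              have h4 : g ∈ N := by
                rw [QuotientGroup.eq] at h3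
                simpa using h3
              refine ⟨κ (π₁ ⟨g, h4⟩), Finset.mem_univ _, ?_⟩
              change ((b (κ (π₁ ⟨g, h4⟩)) : G₁) : G₁ ⧸ U) = (((⟨g, h4⟩ : N) : G₁) : G₁ ⧸ U)
              rw [hmk, hb]
          · intro r _
            rfl
        rw [h1, hφ]
        exact hk1
  rintro ⟨f, j⟩
  obtain ⟨n, rfl⟩ := hπ₁ j
  obtain ⟨w, hw⟩ := hN1 n
  have h1 : (π' w).x = π₁ n := by
    change π₁ ⟨_, _⟩ = _
    congr 1
    exact Subtype.ext hw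
  obtain ⟨v, hv⟩ := hbase (f * (π' w).f⁻¹)
  refine ⟨v * w, ?_⟩
  rw [map_mul, hv]
  apply Wr.ext
  · funext r
    simp
  · simp [h1]

theorem nl (h₀ : B₀.Emb) (hle : B₀.Le B') {J R : Type} [Group J] [Group R] (κ : J →* R)
    (x : ZMk B₀ J) (q : ℕ) [hq : Fact q.Prime] (hκ : Surjective κ)
    (hZ : ∀ z ∈ x.Z B', κ z = 1) (β : κ.ker →* Cyc q)
    (hβ : ∃ z : κ.ker, (z : J) ∈ x.Z B' ∧ β z ≠ 1) :
    ∃ y : ZMk B₀ (Wr κ (Cyc q)), Cov Wr.pr y x ∧
      ∃ φ : R → Cyc q, φ ≠ 1 ∧ (⟨φ, 1⟩ : Wr κ (Cyc q)) ∈ y.Z B' := by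
  classical
  have : NeZero q := ⟨hq.out.ne_zero⟩
  have hCf : Finite (Cyc q) := inferInstance
  obtain ⟨G₁, _, _, ρ, hρ, h, hh, hh'⟩ := h₀ x.G (B₀.res x.G × Cyc q) (MonoidHom.fst _ _)
    Prod.fst_surjective
  -- the new presentation of `J`
  obtain ⟨N, hN⟩ : ∃ N, B₀.res G₁ = N := ⟨_, rfl⟩
  have hNn : N.Normal := hN ▸ inferInstance
  let h1 : N →* B₀.res x.G × Cyc q := h.comp (MulEquiv.subgroupCongr hN.symm).toMonoidHom
  have hh1 : Surjective h1 := hh.comp (MulEquiv.surjective _)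
  have hh1' : ∀ n : N, (((h1 n).1 : B₀.res x.G) : x.G) = ρ n := fun n =>
    hh' ((MulEquiv.subgroupCongr hN.symm) n)
  let π₁ : N →* J := x.π.comp ((MonoidHom.fst _ _).comp h1)
  have hπ₁ : Surjective π₁ := x.hπ.comp (Prod.fst_surjective.comp hh1)
  let γ' : N →* Cyc q := (MonoidHom.snd _ _).comp h1
  have hγ' : Surjective γ' := Prod.snd_surjective.comp hh1
  have hs : Surjective (κ.comp π₁) := hκ.comp hπ₁
  let b : R → N := surjInv hs
  have hb : ∀ r, κ (π₁ (b r)) = r := fun r => surjInv_eq hs r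
  set U := uu N π₁ κ with hU
  have hprs : Surjective (WrA.pr : WrA G₁ (G₁ ⧸ U) (Cyc q) →* G₁) := fun g => ⟨⟨1, g⟩, rfl⟩
  have hleP : B₀.res (WrA G₁ (G₁ ⧸ U) (Cyc q)) ≤ N.comap WrA.pr := by
    intro w hw
    have h2 := map_mem_res B₀ WrA.pr hprs hw
    rw [hN] at h2
    exact h2
  have hsurj := eMap_surjective B₀ N hN π₁ hπ₁ κ b hb γ' hγ' hleP
  let y : ZMk B₀ (Wr κ (Cyc q)) := ⟨WrA G₁ (G₁ ⧸ U) (Cyc q), inferInstance, inferInstance,
    (eMap N π₁ κ b hb).comp (Subgroup.inclusion hleP), hsurj⟩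
  refine ⟨y, ⟨?_, ρ.comp WrA.pr, hρ.comp hprs, ?_⟩, ?_⟩
  · intro j
    exact ⟨⟨1, j⟩, rfl⟩
  · intro t s hs
    change π₁ ⟨(t : WrA G₁ (G₁ ⧸ U) (Cyc q)).x, _⟩ = x.π s
    change x.π (h1 _).1 = x.π s
    congr 1
    apply Subtype.ext
    rw [hh1', hs]
    rfl
  · obtain ⟨z, hz, hz1⟩ := hβ
    obtain ⟨g, hg, hgz⟩ := hz
    obtain ⟨k, hk, hkg⟩ := exists_mem_res B' ρ hρ hg
    have hkN : k ∈ N := by
      rw [← hN]
      exact ZC.res_le hle G₁ hk
    have hπk : π₁ ⟨k, hkN⟩ = z := by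
      rw [← hgz]
      change x.π (h1 _).1 = x.π g
      congr 1
      apply Subtype.ext
      rw [hh1']
      exact hkg
    have hkU : k ∈ U := by
      rw [hU, mem_uu]
      refine ⟨hkN, ?_⟩
      rw [hπk]
      exact z.2
    let γ : U →* Cyc q :=
      { toFun := fun u => β ⟨π₁ ⟨u, ((mem_uu N π₁ κ u).mp u.2).1⟩,
          ((mem_uu N π₁ κ u).mp u.2).2⟩
        map_one' := by
          rw [← map_one β]
          congr 1
          apply Subtype.ext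
          exact map_one π₁
        map_mul' := by
          intro u v
          rw [← map_mul β]
          congr 1
          apply Subtype.ext
          exact map_mul π₁ ⟨u, _⟩ ⟨v, _⟩ }
    have hγk : γ ⟨k, hkU⟩ = β z := by
      change β _ = β z
      congr 1
      apply Subtype.ext
      exact hπk
    obtain ⟨φ, hφ, hφ'⟩ := exists_res_base B' U γ ⟨k, hkU⟩ hk
    refine ⟨fun r => φ ((b r : G₁) : G₁ ⧸ U), ?_, ?_⟩
    · intro hcon
      have h2 := congrFun hcon 1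
      have h3 : ((b 1 : G₁) : G₁ ⧸ U) = (((1 : N) : G₁) : G₁ ⧸ U) := by
        rw [hU, mk_eq_iff, hb, map_one, map_one]
      have h4 : φ (((1 : N) : G₁) : G₁ ⧸ U) = β z := hφ.trans hγk
      simp only [h3, h4] at h2
      exact hz1 h2
    · have h2 := ZC.res_le hle _ hφ'
      refine ⟨⟨_, h2⟩, hφ', ?_⟩
      apply Wr.ext
      · rfl
      · exact map_one π₁

end ZMk

theorem exists_zSys (B₀ B' : Formation) (h₀ : B₀.Emb) (h' : B'.Emb) (hle : B₀.Le B') :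
    ∃ 𝒳 : MarkSys, (∀ (J : Type) [Group J] (x : 𝒳.Mk J), ZC B₀ B' J (𝒳.Z x)) ∧
      ∀ (J : Type) [Group J] (Z : Subgroup J), ZC B₀ B' J Z → ∃ x : 𝒳.Mk J, 𝒳.Z x = Z := by
  refine ⟨{
    Mk := fun J _ => ZMk B₀ J
    Z := fun x => x.Z B'
    Cov := fun f y x => ZMk.Cov f y x
    fin := fun x => x.finite
    normal := fun x => x.normal
    surj := fun h => h.1
    map_Z := fun h => ZMk.map_Z hle h
    refl := fun x => ZMk.cov_refl x
    comp := fun h h' => ZMk.cov_comp h h'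
    push := fun f x hf => ZMk.push f x hf
    lift := fun f x hf => ZMk.lift h₀ f x hf
    emb := fun x g hg => ZMk.emb h' hle x g hg
    join := fun h₁ h₂ => ZMk.join h₁ h₂
    nl := fun κ x q _ hκ hZ β hβ => ZMk.nl h₀ hle κ x q hκ hZ β hβ }, ?_, ?_⟩
  · intro J _ x
    exact x.zc
  · intro J _ Z hZ
    exact ZMk.exists_of_zc hZ

theorem exists_inc_of_undetermined {B B' : Formation} (hB : B.Emb) (hle : B.Le B')
    {Y : Type} [Group Y] {Z : Subgroup Y} (h1 : ZC B B' Y ⊥) (h2 : ZC B B' Y Z) (h3 : Z ≠ ⊥) :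
    ∃ (J : Type) (_ : Group J) (Z₁ Z₂ : Subgroup J), ZC B B' J Z₁ ∧ ZC B B' J Z₂ ∧
      ¬ Z₁ ≤ Z₂ ∧ ¬ Z₂ ≤ Z₁ := by
  obtain ⟨x, hx⟩ := ZMk.exists_of_zc h1
  obtain ⟨x', hx'⟩ := ZMk.exists_of_zc h2
  have hY : Finite Y := x.finite
  have s₁ : Surjective (MonoidHom.fst x.G x'.G) := Prod.fst_surjective
  have s₂ : Surjective (MonoidHom.snd x.G x'.G) := Prod.snd_surjective
  obtain ⟨G₁, _, _, ρ, hρ, h, hh, hh'⟩ := hB (x.G × x'.G) (B.res (x.G × x'.G) × Y)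
    (MonoidHom.fst _ _) Prod.fst_surjective
  let p₁ : B.res (x.G × x'.G) →* B.res x.G :=
    ((MonoidHom.fst x.G x'.G).comp (B.res (x.G × x'.G)).subtype).codRestrict _
      (fun t => ZMk.map_mem_res B _ s₁ t.2)
  let p₂ : B.res (x.G × x'.G) →* B.res x'.G :=
    ((MonoidHom.snd x.G x'.G).comp (B.res (x.G × x'.G)).subtype).codRestrict _
      (fun t => ZMk.map_mem_res B _ s₂ t.2)
  have hp₁ : Surjective p₁ := by
    rintro ⟨t, ht⟩
    obtain ⟨s, hs, rfl⟩ := ZMk.exists_mem_res B _ s₁ ht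
    exact ⟨⟨s, hs⟩, rfl⟩
  have hp₂ : Surjective p₂ := by
    rintro ⟨t, ht⟩
    obtain ⟨s, hs, rfl⟩ := ZMk.exists_mem_res B _ s₂ ht
    exact ⟨⟨s, hs⟩, rfl⟩
  let e : B.res (x.G × x'.G) →* Y := x.π.comp p₁
  let e' : B.res (x.G × x'.G) →* Y := x'.π.comp p₂
  have he : Surjective e := x.hπ.comp hp₁
  have he' : Surjective e' := x'.hπ.comp hp₂
  -- two homomorphisms `a`, `c` onto `Y`, jointly surjective, one killing the residual
  obtain ⟨a, c, hac, hac', ha, t, ht, htc⟩ : ∃ a c : B.res G₁ →* Y,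
      Surjective (a.prod c) ∧ Surjective (c.prod a) ∧
      (∀ t : B.res G₁, (t : G₁) ∈ B'.res G₁ → a t = 1) ∧
      ∃ t : B.res G₁, (t : G₁) ∈ B'.res G₁ ∧ c t ≠ 1 := by
    have hr : ∀ t : B.res G₁, (t : G₁) ∈ B'.res G₁ →
        (((h t).1 : B.res (x.G × x'.G)) : x.G × x'.G) ∈ B'.res (x.G × x'.G) := by
      intro t ht
      have h4 := hh' t
      rw [show (((h t).1 : B.res (x.G × x'.G)) : x.G × x'.G) = ρ t from h4]
      exact ZMk.map_mem_res B' ρ hρ ht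
    have hE1 : ∀ t : B.res G₁, (t : G₁) ∈ B'.res G₁ → e (h t).1 = 1 := by
      intro t ht
      have h4 := ZMk.map_mem_res B' _ s₁ (hr t ht)
      have h5 : e (h t).1 ∈ x.Z B' := ⟨p₁ (h t).1, h4, rfl⟩
      rw [hx] at h5
      exact h5
    have hE2 : ∃ t : B.res G₁, (t : G₁) ∈ B'.res G₁ ∧ e' (h t).1 ≠ 1 := by
      obtain ⟨z, hz, hz1⟩ := (Subgroup.ne_bot_iff_exists_ne_one).mp h3 |> fun ⟨z, hz⟩ =>
        (⟨z, z.2, fun h => hz (Subtype.ext h)⟩ : ∃ z : Y, z ∈ Z ∧ z ≠ 1)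
      rw [← hx'] at hz
      obtain ⟨g, hg, rfl⟩ := hz
      obtain ⟨s, hs, hsg⟩ := ZMk.exists_mem_res B' _ s₂ hg
      obtain ⟨t, ht, hts⟩ := ZMk.exists_mem_res B' ρ hρ hs
      have ht' : t ∈ B.res G₁ := ZC.res_le hle G₁ ht
      refine ⟨⟨t, ht'⟩, ht, ?_⟩
      have h6 : e' (h ⟨t, ht'⟩).1 = x'.π g := by
        change x'.π (p₂ _) = x'.π g
        congr 1
        apply Subtype.ext
        refine Eq.trans ?_ hsg
        rw [← hts]
        have h4 := hh' ⟨t, ht'⟩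
        exact congrArg Prod.snd h4
      rw [h6]
      exact hz1
    have hjoint : ∀ (f : B.res (x.G × x'.G) →* Y), Surjective f →
        Surjective ((f.comp ((MonoidHom.fst _ _).comp h)).prod ((MonoidHom.snd _ _).comp h)) ∧
        Surjective (((MonoidHom.snd _ _).comp h).prod (f.comp ((MonoidHom.fst _ _).comp h))) := by
      intro f hf
      constructor
      · rintro ⟨y₁, y₂⟩
        obtain ⟨g, rfl⟩ := hf y₁
        obtain ⟨t, ht⟩ := hh (g, y₂)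
        refine ⟨t, ?_⟩
        change (f (h t).1, (h t).2) = _
        rw [ht]
      · rintro ⟨y₁, y₂⟩
        obtain ⟨g, rfl⟩ := hf y₂
        obtain ⟨t, ht⟩ := hh (g, y₁)
        refine ⟨t, ?_⟩
        change ((h t).2, f (h t).1) = _
        rw [ht]
    by_cases hc : ∀ t : B.res G₁, (t : G₁) ∈ B'.res G₁ → (h t).2 = 1
    · refine ⟨(MonoidHom.snd _ _).comp h, e'.comp ((MonoidHom.fst _ _).comp h),
        (hjoint e' he').2, (hjoint e' he').1, hc, hE2⟩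
    · push Not at hc
      exact ⟨e.comp ((MonoidHom.fst _ _).comp h), (MonoidHom.snd _ _).comp h,
        (hjoint e he).1, (hjoint e he).2, hE1, hc⟩
  refine ⟨Y × Y, inferInstance, ((B'.res G₁).subgroupOf (B.res G₁)).map (a.prod c),
    ((B'.res G₁).subgroupOf (B.res G₁)).map (c.prod a),
    ⟨inferInstance, G₁, inferInstance, inferInstance, a.prod c, hac, rfl⟩,
    ⟨inferInstance, G₁, inferInstance, inferInstance, c.prod a, hac', rfl⟩, ?_, ?_⟩
  · intro hcon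
    obtain ⟨s, hs, hs'⟩ := hcon ⟨t, ht, rfl⟩
    have h4 : a s = c t := congrArg Prod.snd hs'
    rw [ha s hs] at h4
    exact htc h4.symm
  · intro hcon
    obtain ⟨s, hs, hs'⟩ := hcon ⟨t, ht, rfl⟩
    have h4 : a s = c t := congrArg Prod.fst hs'
    rw [ha s hs] at h4
    exact htc h4.symm

end Pool.Agent.Lib_helper5.Form
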