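import Pool.Agent.Lib_helper5.FormDecomp4
import Pool.Agent.Lib_helper5.FormZsys

/-!
# Reduction and the final theorem
-/

set_option maxHeartbeats 400000

namespace Pool.Agent.Lib_helper5.Form

open Function Formation

theorem zc_one {B : Formation} {J : Type} [Group J] {Z : Subgroup J} (h : ZC 1 B J Z) :
    Z = B.res J := by
  obtain ⟨_, G, _, _, π, hπ, rfl⟩ := h
  have htop : Formation.res 1 G = ⊤ := by rw [one_def, triv_res]
  let i : G →* Formation.res 1 G := (MonoidHom.id G).codRestrict _ (fun g => by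
    rw [htop]
    trivial)
  have hi : ∀ x : Formation.res 1 G, i (x : G) = x := fun x => rfl
  have hπi : Surjective (π.comp i) := by
    intro j
    obtain ⟨x, rfl⟩ := hπ j
    exact ⟨x, by rw [MonoidHom.comp_apply, hi]⟩
  rw [← B.map_res (π.comp i) hπi]
  ext j
  constructor
  · rintro ⟨x, hx, rfl⟩
    exact ⟨x, hx, by rw [MonoidHom.comp_apply, hi]⟩
  · rintro ⟨x, hx, rfl⟩
    exact ⟨i x, hx, rfl⟩

theorem zc_one_res (B : Formation) (J : Type) [Group J] [Finite J] : ZC 1 B J (B.res J) := by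
  have htop : Formation.res 1 J = ⊤ := by rw [one_def, triv_res]
  have h1 : ZC 1 B (Formation.res 1 J) ((B.res J).subgroupOf (Formation.res 1 J)) := ZC.self J
  have h2 := h1.map (Formation.res 1 J).subtype (by
    intro j
    exact ⟨⟨j, by rw [htop]; trivial⟩, rfl⟩)
  have h3 := zc_one h2
  rwa [h3] at h2

theorem one_le (B : Formation) : Formation.Le 1 B := by
  intro G _ h
  have : Subsingleton G := h
  exact B.mem_of_subsingleton G

theorem le_case_all {A A' B B' : Formation} (hI : A.Indecomposable) (hI' : A'.Indecomposable)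
    (hB : B.Emb) (hB' : B'.Emb) (h : A * B = A' * B') (hle : B.Le B') : B = B' := by
  have hfull : B.Full := hB.full
  by_cases hb : ∀ (J : Type) [Group J] (Z : Subgroup J), ZC B B' J ⊥ → ZC B B' J Z → Z = ⊥
  · have h1 : B' = eForm hfull hb * B := eForm_mul hfull hb hle
    have h2 : A = A' * eForm hfull hb := by
      apply right_cancel hfull
      rw [h, mul_assoc, ← h1]
    rcases hI.2 _ _ h2 with h3 | h3
    · exact absurd h3 hI'.1
    · rw [h3, one_mul] at h1
      exact h1.symm
  · exfalso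
    push Not at hb
    obtain ⟨Y, _, Z, h1, h2, h3⟩ := hb
    obtain ⟨J, _, Z₁, Z₂, hz₁, hz₂, hi₁, hi₂⟩ := exists_inc_of_undetermined hB hle h1 h2 h3
    obtain ⟨𝒳, hx, hx'⟩ := exists_zSys B B' hB hB' hle
    obtain ⟨x₁, rfl⟩ := hx' J Z₁ hz₁
    obtain ⟨x₂, rfl⟩ := hx' J Z₂ hz₂
    refine not_indecomposable_proof (𝒳 := 𝒳) (𝒴 := 𝒳) (A₁ := A') (A₂ := A')
      ⟨⟨J, inferInstance, x₁, x₂⟩, hi₁, hi₂⟩ ?_ hI'
    intro O _
    exact ((hx O.J O.x).mem_iff h hle).symm.trans ((hx O.J O.y).mem_iff h hle)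

theorem factor_unique_proof {A A' B B' : Formation} (hI : A.Indecomposable)
    (hI' : A'.Indecomposable) (hB : B.Emb) (hB' : B'.Emb) (h : A * B = A' * B') :
    A = A' ∧ B = B' := by
  have key : B = B' := by
    by_cases h1 : B.Le B'
    · exact le_case_all hI hI' hB hB' h h1
    by_cases h2 : B'.Le B
    · exact (le_case_all hI' hI hB' hB h.symm h2).symm
    exfalso
    unfold Formation.Le at h1 h2
    push Not at h1 h2
    obtain ⟨G₁, _, hG₁, hG₁'⟩ := h1
    obtain ⟨G₂, _, hG₂, hG₂'⟩ := h2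
    have := B.finite_of_mem hG₁
    have := B'.finite_of_mem hG₂
    obtain ⟨𝒳, hx, hx'⟩ := exists_zSys 1 B emb_one hB (one_le B)
    obtain ⟨𝒴, hy, hy'⟩ := exists_zSys 1 B' emb_one hB' (one_le B')
    obtain ⟨x, hxz⟩ := hx' (G₁ × G₂) _ (zc_one_res B (G₁ × G₂))
    obtain ⟨y, hyz⟩ := hy' (G₁ × G₂) _ (zc_one_res B' (G₁ × G₂))
    have hfst := Prod.fst_surjective (α := G₁) (β := G₂)
    have hsnd := Prod.snd_surjective (α := G₁) (β := G₂)
    refine not_indecomposable_proof (𝒳 := 𝒳) (𝒴 := 𝒴) (A₁ := A) (A₂ := A')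
      ⟨⟨G₁ × G₂, inferInstance, x, y⟩, ?_, ?_⟩ ?_ hI
    · change ¬ 𝒳.Z x ≤ 𝒴.Z y
      rw [hxz, hyz]
      intro hle
      apply hG₂'
      have h3 : B.res G₂ ≤ B'.res G₂ := by
        rw [← B.map_res (MonoidHom.snd G₁ G₂) hsnd, ← B'.map_res (MonoidHom.snd G₁ G₂) hsnd]
        exact Subgroup.map_mono hle
      rw [B'.mem_iff_res_eq_bot.mp hG₂, le_bot_iff] at h3
      exact B.mem_iff_res_eq_bot.mpr h3
    · change ¬ 𝒴.Z y ≤ 𝒳.Z x
      rw [hxz, hyz]
      intro hle
      apply hG₁'
      have h3 : B'.res G₁ ≤ B.res G₁ := by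
        rw [← B.map_res (MonoidHom.fst G₁ G₂) hfst, ← B'.map_res (MonoidHom.fst G₁ G₂) hfst]
        exact Subgroup.map_mono hle
      rw [B.mem_iff_res_eq_bot.mp hG₁, le_bot_iff] at h3
      exact B'.mem_iff_res_eq_bot.mpr h3
    · intro O _
      have h3 : O.Z₁ = B.res O.J := zc_one (hx O.J O.x)
      have h4 : O.Z₂ = B'.res O.J := zc_one (hy O.J O.y)
      rw [h3, h4, ← mem_comp_of_finite, ← mem_comp_of_finite, ← mul_def, ← mul_def, h]
  subst key
  exact ⟨right_cancel hB.full h, rfl⟩

theorem prod_emb (L : List Formation) (hL : ∀ F ∈ L, F.Indecomposable) : L.prod.Emb := by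
  induction L with
  | nil => exact emb_one
  | cons F L ih =>
    rw [List.prod_cons]
    exact (hL F List.mem_cons_self).emb.mul (ih (fun F' h => hL F' (List.mem_cons_of_mem _ h)))

/-- **Unique factorisation** of products of indecomposable formations. -/
theorem unique_factorisation_all_proof (L M : List Formation) (hL : ∀ F ∈ L, F.Indecomposable)
    (hM : ∀ F ∈ M, F.Indecomposable) (h : L.prod = M.prod) : L = M := by
  induction L generalizing M with
  | nil =>
    cases M with
    | nil => rfl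
    | cons A M =>
      rw [List.prod_nil, List.prod_cons] at h
      exact absurd h.symm (one_ne_cons (hM A List.mem_cons_self))
  | cons A L ih =>
    cases M with
    | nil =>
      rw [List.prod_nil, List.prod_cons] at h
      exact absurd h (one_ne_cons (hL A List.mem_cons_self))
    | cons A' M =>
      have hL' : ∀ F ∈ L, F.Indecomposable := fun F h => hL F (List.mem_cons_of_mem _ h)
      have hM' : ∀ F ∈ M, F.Indecomposable := fun F h => hM F (List.mem_cons_of_mem _ h)
      rw [List.prod_cons, List.prod_cons] at h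
      obtain ⟨h1, h2⟩ := factor_unique_proof (hL A List.mem_cons_self) (hM A' List.mem_cons_self)
        (prod_emb L hL') (prod_emb M hM') h
      rw [h1, ih M hL' hM' h2]

end Pool.Agent.Lib_helper5.Form
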