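import Pool.Agent.Lib_helper5.FormMarkDefs

/-!
# Block SPLIT of `MP_c1d0cb_al`
-/

set_option maxHeartbeats 400000

namespace Pool.Agent.Lib_helper5.Form

open Function

/-- the image of a normal subgroup not contained in the kernel of a surjection onto a simple
group is everything -/
theorem split_onto {G S : Type} [Group G] [Group S] [IsSimpleGroup S] (θ : G →* S)
    (hθ : Surjective θ) (N : Subgroup G) (hN : N.Normal) (n : G) (hn : n ∈ N) (h : θ n ≠ 1)
    (s : S) : ∃ m ∈ N, θ m = s := by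
  have h1 : (N.map θ).Normal := hN.map θ hθ
  have h2 : N.map θ = ⊤ := by
    rcases h1.eq_bot_or_eq_top with h3 | h3
    · exfalso
      apply h
      have : θ n ∈ N.map θ := ⟨n, hn, rfl⟩
      rw [h3] at this
      exact this
    · exact h3
  have h3 : s ∈ N.map θ := by rw [h2]; trivial
  exact h3

/-- the centre of a nonabelian simple group is trivial -/
theorem split_center {S : Type} [Group S] [IsSimpleGroup S] (hS : ∃ a b : S, a * b ≠ b * a)
    (z : S) (hz : ∀ t, z * t = t * z) : z = 1 := by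
  have h1 : (Subgroup.center S).Normal := inferInstance
  rcases h1.eq_bot_or_eq_top with h3 | h3
  · have : z ∈ Subgroup.center S := by
      rw [Subgroup.mem_center_iff]
      intro g
      exact (hz g).symm
    rw [h3] at this
    exact this
  · exfalso
    obtain ⟨a, b, hab⟩ := hS
    have : a ∈ Subgroup.center S := by rw [h3]; trivial
    rw [Subgroup.mem_center_iff] at this
    exact hab (this b).symm

/-- `g` is not killed by some surjection onto a nonabelian simple group -/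
def Alive (G : Type) [Group G] (g : G) : Prop :=
  ∃ (S : Type) (_ : Group S) (θ : G →* S), IsSimpleGroup S ∧ (∃ a b : S, a * b ≠ b * a) ∧
    Surjective θ ∧ θ g ≠ 1

theorem split_centralizer {G : Type} [Group G] (N : Subgroup G) (hN : N.Normal)
    (h : ∀ n ∈ N, n ≠ 1 → Alive G n) (z : G) (hz : z ∈ N) (hc : ∀ m ∈ N, z * m = m * z) :
    z = 1 := by
  by_contra hne
  obtain ⟨S, _, θ, hS1, hS2, hθ, hz'⟩ := h z hz hne
  apply hz'
  apply split_center hS2
  intro t
  obtain ⟨m, hm, rfl⟩ := split_onto θ hθ N hN z hz hz' t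
  rw [← map_mul, hc m hm, map_mul]

theorem split_inner : ∀ (k : ℕ) (G : Type) [Group G] [Finite G], Nat.card G = k →
    ∀ (N : Subgroup G), N.Normal → (∀ n ∈ N, n ≠ 1 → Alive G n) →
    ∀ g : G, ∃ n ∈ N, ∀ m ∈ N, g * m * g⁻¹ = n * m * n⁻¹ := by
  intro k
  induction k using Nat.strong_induction_on with
  | _ k ih =>
    intro G _ _ hk N hN h g
    by_cases hbot : ∀ n ∈ N, n = 1
    · refine ⟨1, N.one_mem, fun m hm => ?_⟩
      rw [hbot m hm]
      simp
    · push Not at hbot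
      obtain ⟨n₀, hn₀, hne⟩ := hbot
      obtain ⟨S, _, θ, hS1, hS2, hθ, hz'⟩ := h n₀ hn₀ hne
      have hcard : Nat.card θ.ker < k := by
        rw [← hk]
        have h1 : Nat.card θ.ker ∣ Nat.card G := Subgroup.card_subgroup_dvd_card _
        refine lt_of_le_of_ne (Nat.le_of_dvd Nat.card_pos h1) ?_
        intro h2
        have h3 := Subgroup.eq_top_of_card_eq _ h2
        apply hz'
        have : n₀ ∈ θ.ker := by rw [h3]; trivial
        exact this
      have hN1 : (N.subgroupOf θ.ker).Normal := Subgroup.normal_subgroupOf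
      have hP1 : ∀ n ∈ N.subgroupOf θ.ker, n ≠ 1 → Alive θ.ker n := by
        intro n hn hn1
        rw [Subgroup.mem_subgroupOf] at hn
        obtain ⟨S', _, θ', hS1', hS2', hθ', hz''⟩ := h n hn (by
          intro h5; apply hn1; exact Subtype.ext h5)
        refine ⟨S', _, θ'.comp θ.ker.subtype, hS1', hS2', ?_, hz''⟩
        intro s
        obtain ⟨m, hm, hm'⟩ := split_onto θ' hθ' θ.ker inferInstance n n.2 hz'' s
        exact ⟨⟨m, hm⟩, hm'⟩
      have key := ih (Nat.card θ.ker) hcard θ.ker rfl (N.subgroupOf θ.ker) hN1 hP1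
      obtain ⟨n₁, hn₁, hn₁'⟩ := split_onto θ hθ N hN n₀ hn₀ hz' (θ g)
      have hg1 : n₁⁻¹ * g ∈ θ.ker := by
        rw [MonoidHom.mem_ker, map_mul, map_inv, hn₁', inv_mul_cancel]
      obtain ⟨n₂, hn₂, hn₂'⟩ := key ⟨n₁⁻¹ * g, hg1⟩
      rw [Subgroup.mem_subgroupOf] at hn₂
      -- the element `c`
      set c : G := (n₂ : G)⁻¹ * (n₁⁻¹ * g) with hcdef
      have hcker : c ∈ θ.ker := θ.ker.mul_mem (θ.ker.inv_mem n₂.2) hg1
      have hc1 : ∀ m ∈ N, m ∈ θ.ker → c * m * c⁻¹ = m := by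
        intro m hm hm'
        have h6 := hn₂' ⟨m, hm'⟩ (by rw [Subgroup.mem_subgroupOf]; exact hm)
        have h7 : (n₁⁻¹ * g) * m * (n₁⁻¹ * g)⁻¹ = (n₂ : G) * m * (n₂ : G)⁻¹ :=
          congrArg Subtype.val h6
        calc c * m * c⁻¹ = (n₂ : G)⁻¹ * ((n₁⁻¹ * g) * m * (n₁⁻¹ * g)⁻¹) * n₂ := by
              rw [hcdef]; group
          _ = m := by rw [h7]; group
      have hNk : (N ⊓ θ.ker).Normal := Subgroup.normal_inf_normal N θ.ker
      have hc2 : ∀ n ∈ N, c * n * c⁻¹ = n := by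
        intro n hn
        have hz1 : n⁻¹ * (c * n * c⁻¹) ∈ N := N.mul_mem (N.inv_mem hn) (hN.conj_mem n hn c)
        have hz2 : n⁻¹ * (c * n * c⁻¹) ∈ θ.ker := by
          have h8 : n⁻¹ * c * n⁻¹⁻¹ ∈ θ.ker :=
            (inferInstance : θ.ker.Normal).conj_mem c hcker n⁻¹
          have : n⁻¹ * (c * n * c⁻¹) = (n⁻¹ * c * n⁻¹⁻¹) * c⁻¹ := by group
          rw [this]
          exact θ.ker.mul_mem h8 (θ.ker.inv_mem hcker)
        have hz3 : n⁻¹ * (c * n * c⁻¹) = 1 := by
          apply split_centralizer (N ⊓ θ.ker) hNk (fun n hn => h n hn.1) _ ⟨hz1, hz2⟩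
          intro m hm
          have h9 := hc1 (n * m * n⁻¹) (hN.conj_mem m hm.1 n)
            ((inferInstance : θ.ker.Normal).conj_mem m hm.2 n)
          have h10 := hc1 m hm.1 hm.2
          have h11 : c * (n * m * n⁻¹) * c⁻¹ = (c * n * c⁻¹) * (c * m * c⁻¹) * (c * n * c⁻¹)⁻¹ := by
            group
          rw [h10, h9] at h11
          -- h11 : n * m * n⁻¹ = (c n c⁻¹) m (c n c⁻¹)⁻¹
          have h12 : n⁻¹ * (c * n * c⁻¹) * m * (n⁻¹ * (c * n * c⁻¹))⁻¹ = m := by
            calc n⁻¹ * (c * n * c⁻¹) * m * (n⁻¹ * (c * n * c⁻¹))⁻¹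
                = n⁻¹ * ((c * n * c⁻¹) * m * (c * n * c⁻¹)⁻¹) * n := by group
              _ = m := by rw [← h11]; group
          exact mul_inv_eq_iff_eq_mul.mp h12
        calc c * n * c⁻¹ = n * (n⁻¹ * (c * n * c⁻¹)) := by group
          _ = n := by rw [hz3, mul_one]
      refine ⟨n₁ * n₂, N.mul_mem hn₁ hn₂, fun m hm => ?_⟩
      have h13 : g = n₁ * n₂ * c := by rw [hcdef]; group
      calc g * m * g⁻¹ = (n₁ * n₂) * (c * m * c⁻¹) * (n₁ * n₂)⁻¹ := by
            rw [h13]; group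
        _ = n₁ * n₂ * m * (n₁ * n₂)⁻¹ := by rw [hc2 m hm]

theorem exists_retract (C : Formation) {G : Type} [Group G] [Finite G] (N : Subgroup G)
    [N.Normal]
    (h : ∀ n ∈ N, n ≠ 1 → ∃ (S : Type) (_ : Group S) (θ : G →* S), C.NN S ∧ Surjective θ ∧
      θ n ≠ 1) : ∃ r : G →* N, ∀ n : N, r n = n := by
  have hN : N.Normal := inferInstance
  have hA : ∀ n ∈ N, n ≠ 1 → Alive G n := by
    intro n hn hn1
    obtain ⟨S, _, θ, hS, hθ, hne⟩ := h n hn hn1
    exact ⟨S, _, θ, hS.2.1, hS.2.2.1, hθ, hne⟩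
  have h1 := split_inner (Nat.card G) G rfl N hN hA
  choose r hr hr' using h1
  have huniq : ∀ n ∈ N, ∀ n' ∈ N, (∀ m ∈ N, n * m * n⁻¹ = n' * m * n'⁻¹) → n = n' := by
    intro n hn n' hn' hm
    have : n'⁻¹ * n = 1 := by
      apply split_centralizer N hN hA _ (N.mul_mem (N.inv_mem hn') hn)
      intro m hm'
      have h2 := hm m hm'
      have h3 : n'⁻¹ * n * m * (n'⁻¹ * n)⁻¹ = m := by
        calc n'⁻¹ * n * m * (n'⁻¹ * n)⁻¹ = n'⁻¹ * (n * m * n⁻¹) * n' := by group
          _ = m := by rw [h2]; group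
      exact mul_inv_eq_iff_eq_mul.mp h3
    exact (inv_mul_eq_one.mp this).symm
  refine ⟨MonoidHom.mk' (fun g => (⟨r g, hr g⟩ : N)) ?_, ?_⟩
  · intro a b
    apply Subtype.ext
    apply huniq _ (hr _) _ (N.mul_mem (hr a) (hr b))
    intro m hm
    have h2 := hr' (a * b) m hm
    have h3 := hr' b m hm
    have h4 := hr' a (b * m * b⁻¹) (hN.conj_mem m hm b)
    calc r (a * b) * m * (r (a * b))⁻¹ = a * (b * m * b⁻¹) * a⁻¹ := by rw [← h2]; group
      _ = r a * (b * m * b⁻¹) * (r a)⁻¹ := h4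
      _ = r a * (r b * m * (r b)⁻¹) * (r a)⁻¹ := by rw [h3]
      _ = r a * r b * m * (r a * r b)⁻¹ := by group
  · intro n
    apply Subtype.ext
    apply huniq _ (hr _) _ n.2
    intro m hm
    exact (hr' n m hm).symm

theorem exists_isRes (C : Formation) : ∃ D : Formation, D.IsRes C := by
  refine ⟨Formation.ofSubdirect (fun G _ => Finite G ∧ ∀ g : G, g ≠ 1 →
    ∃ (S : Type) (_ : Group S) (θ : G →* S), C.NN S ∧ Surjective θ ∧ θ g ≠ 1)
    (fun h => h.1) ?_ ?_ ?_, fun G _ => Iff.rfl⟩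
  · refine ⟨Unit, inferInstance, inferInstance, fun g hg => ?_⟩
    exact absurd (Subsingleton.elim _ _) hg
  · intro G H _ _ f hf hG
    obtain ⟨hfin, hG⟩ := hG
    have hfin' : Finite H := Finite.of_surjective f hf
    refine ⟨hfin', fun x hx => ?_⟩
    obtain ⟨r, hr⟩ := exists_retract C f.ker (fun n _ hn => hG n hn)
    obtain ⟨g, rfl⟩ := hf x
    set c : G := ((r g : f.ker) : G)⁻¹ * g with hc
    have hrc : r c = 1 := by
      have h1 : r ((r g : f.ker) : G) = r g := hr (r g)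
      rw [hc, map_mul, map_inv, h1, inv_mul_cancel]
    have hfc : f c = f g := by
      have h1 : f ((r g : f.ker) : G) = 1 := (r g).2
      rw [hc, map_mul, map_inv, h1]
      simp
    have hc1 : c ≠ 1 := by
      intro h1
      apply hx
      rw [← hfc, h1, map_one]
    obtain ⟨S, _, θ, hS, hθ, hne⟩ := hG c hc1
    have hS1 : IsSimpleGroup S := hS.2.1
    have hkill : ∀ n, f n = 1 → θ n = 1 := by
      intro n hn
      apply split_center hS.2.2.1
      intro t
      obtain ⟨m, hm, rfl⟩ := split_onto θ hθ r.ker inferInstance c hrc hne t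
      have h2 : n * m * n⁻¹ * m⁻¹ = 1 := by
        have h3 : n * m * n⁻¹ * m⁻¹ ∈ f.ker := by
          rw [MonoidHom.mem_ker]
          simp only [map_mul, map_inv, hn]
          simp
        have h4 : n * m * n⁻¹ * m⁻¹ ∈ r.ker := by
          have hm' : r m = 1 := hm
          rw [MonoidHom.mem_ker]
          simp only [map_mul, map_inv, hm']
          simp
        have h5 := hr ⟨_, h3⟩
        have h6 : r (n * m * n⁻¹ * m⁻¹) = 1 := h4
        have h7 : (⟨n * m * n⁻¹ * m⁻¹, h3⟩ : f.ker) = 1 := by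
          rw [← h5]; exact h6
        exact congrArg Subtype.val h7
      have h8 : n * m = m * n := by
        have h9 := mul_inv_eq_one.mp h2
        exact mul_inv_eq_iff_eq_mul.mp h9
      rw [← map_mul, h8, map_mul]
    obtain ⟨θ', hθ'⟩ := exists_lift f hf θ hkill
    refine ⟨S, _, θ', hS, ?_, ?_⟩
    · intro s
      obtain ⟨a, rfl⟩ := hθ s
      exact ⟨f a, hθ' a⟩
    · rw [← hfc, hθ']
      exact hne
  · intro G H K _ _ _ hfin f g hf hg hfg hH hK
    refine ⟨hfin, fun x hx => ?_⟩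
    by_cases h1 : f x = 1
    · have h2 : g x ≠ 1 := fun h2 => hx (hfg x h1 h2)
      obtain ⟨S, _, θ, hS, hθ, hne⟩ := hK.2 _ h2
      exact ⟨S, _, θ.comp g, hS, hθ.comp hg, hne⟩
    · obtain ⟨S, _, θ, hS, hθ, hne⟩ := hH.2 _ h1
      exact ⟨S, _, θ.comp f, hS, hθ.comp hf, hne⟩

theorem exists_ext {G S : Type} [Group G] [Group S] (N : Subgroup G) [hN : N.Normal]
    (θ : N →* S)
    (hθ : Surjective θ) (hS : ∀ s : S, (∀ t, s * t = t * s) → s = 1)
    (h : ∀ a : G, ∃ s : S, ∀ u : N, θ ⟨a * u * a⁻¹, hN.conj_mem u u.2 a⟩ = s * θ u * s⁻¹) :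
    ∃ θ' : G →* S, ∀ u : N, θ' u = θ u := by
  choose σ hσ using h
  have huniq : ∀ s s' : S, (∀ u : N, s * θ u * s⁻¹ = s' * θ u * s'⁻¹) → s = s' := by
    intro s s' hs
    have : s'⁻¹ * s = 1 := by
      apply hS
      intro t
      obtain ⟨u, rfl⟩ := hθ t
      have h2 := hs u
      have h3 : s'⁻¹ * s * θ u * (s'⁻¹ * s)⁻¹ = θ u := by
        calc s'⁻¹ * s * θ u * (s'⁻¹ * s)⁻¹ = s'⁻¹ * (s * θ u * s⁻¹) * s' := by group
          _ = θ u := by rw [h2]; group
      exact mul_inv_eq_iff_eq_mul.mp h3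
    exact (inv_mul_eq_one.mp this).symm
  refine ⟨MonoidHom.mk' σ ?_, ?_⟩
  · intro a b
    apply huniq
    intro u
    rw [← hσ (a * b) u]
    have h1 : (⟨a * b * u * (a * b)⁻¹, hN.conj_mem u u.2 (a * b)⟩ : N) =
        ⟨a * ((⟨b * u * b⁻¹, hN.conj_mem u u.2 b⟩ : N) : G) * a⁻¹,
          hN.conj_mem _ (hN.conj_mem u u.2 b) a⟩ := by
      apply Subtype.ext
      simp only [mul_inv_rev, mul_assoc]
    rw [h1, hσ a ⟨b * u * b⁻¹, hN.conj_mem u u.2 b⟩, hσ b u]
    group
  · intro v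
    apply huniq
    intro u
    change σ (v : G) * θ u * (σ (v : G))⁻¹ = _
    rw [← hσ v u, ← map_inv, ← map_mul, ← map_mul]
    rfl

theorem exists_common {Q S ι : Type} [Group Q] [Group S] [IsSimpleGroup S] [Finite ι]
    (hS : ∃ a b : S, a * b ≠ b * a) (N : ι → Subgroup Q) (hN : ∀ i, (N i).Normal) (θ : Q →* S)
    (hθ : Surjective θ) (h : ∀ i, ∃ n ∈ N i, θ n ≠ 1) (s : S) :
    ∃ n, (∀ i, n ∈ N i) ∧ θ n = s := by
  classical
  have hfin : ∀ F : Finset ι, ∀ s : S, ∃ n, (∀ i ∈ F, n ∈ N i) ∧ θ n = s := by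
    intro F
    induction F using Finset.induction_on with
    | empty =>
      intro s
      obtain ⟨q, rfl⟩ := hθ s
      exact ⟨q, by simp, rfl⟩
    | insert i F hi ih =>
      obtain ⟨a, b, hab⟩ := hS
      obtain ⟨n₀, hn₀, hne⟩ := h i
      obtain ⟨m, hm, hma⟩ := split_onto θ hθ (N i) (hN i) n₀ hn₀ hne a
      obtain ⟨n, hn, hnb⟩ := ih b
      let M : Subgroup Q := ⨅ j ∈ insert i F, N j
      have hmem : ∀ x, x ∈ M ↔ ∀ j ∈ insert i F, x ∈ N j := by
        intro x
        simp only [M, Subgroup.mem_iInf]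
      have hM : M.Normal := by
        constructor
        intro x hx g
        rw [hmem] at hx ⊢
        intro j hj
        exact (hN j).conj_mem x (hx j hj) g
      have h1 : m * n * m⁻¹ * n⁻¹ ∈ M := by
        rw [hmem]
        intro j hj
        rw [Finset.mem_insert] at hj
        rcases hj with rfl | hj
        · have h2 : m * n * m⁻¹ * n⁻¹ = m * (n * m⁻¹ * n⁻¹) := by group
          rw [h2]
          exact (N j).mul_mem hm ((hN j).conj_mem _ ((N j).inv_mem hm) n)
        · exact (N j).mul_mem ((hN j).conj_mem _ (hn j hj) m) ((N j).inv_mem (hn j hj))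
      have h3 : θ (m * n * m⁻¹ * n⁻¹) ≠ 1 := by
        simp only [map_mul, map_inv, hma, hnb]
        intro h4
        apply hab
        have h9 := mul_inv_eq_one.mp h4
        exact mul_inv_eq_iff_eq_mul.mp h9
      intro s
      obtain ⟨x, hx, hx'⟩ := split_onto θ hθ M hM _ h1 h3 s
      exact ⟨x, (hmem x).mp hx, hx'⟩
  cases nonempty_fintype ι
  obtain ⟨n, hn, hn'⟩ := hfin Finset.univ s
  exact ⟨n, fun i => hn i (Finset.mem_univ i), hn'⟩

end Pool.Agent.Lib_helper5.Form
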