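import Pool.Agent.Lib_helper5.FormMove1
import Pool.Agent.Lib_helper5.FormGood

/-!
# The star operator (block STAR)
-/

set_option maxHeartbeats 400000

namespace Pool.Agent.Lib_helper5.Form

open Function

section STARA

theorem star_not_surj {K H : Type} [Group K] [Group H] {π : H →* K} (hπ : ¬ Surjective π)
    (U : Subgroup H) : ¬ Surjective (π.comp U.subtype) := by
  intro h
  apply hπ
  intro k
  obtain ⟨a, ha⟩ := h k
  exact ⟨a, ha⟩

theorem star_top (A : Formation) {K H K₀ : Type} [Group K] [Group H] [Group K₀]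
    [Subsingleton K₀] (g : K →* K₀) (π : H →* K) :
    Val A π ↔ Val A (π.comp (g.comp π).ker.subtype) := by
  refine (val_congr A ((g.comp π).ker.subtype) ⟨Subtype.val_injective, ?_⟩ (fun x => rfl)).symm
  intro h
  exact ⟨⟨h, Subsingleton.elim _ _⟩, rfl⟩

/-- The fibre product of `g` and `c`. -/
def stfib {A B C : Type} [Group A] [Group B] [Group C] (g : A →* C) (c : B →* C) :
    Subgroup (A × B) where
  carrier := {x | g x.1 = c x.2}
  mul_mem' := by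
    intro a b ha hb
    simp only [Set.mem_ofPred_eq, Prod.fst_mul, Prod.snd_mul, map_mul] at *
    rw [ha, hb]
  one_mem' := by simp
  inv_mem' := by
    intro a ha
    simp only [Set.mem_ofPred_eq, Prod.fst_inv, Prod.snd_inv, map_inv] at *
    rw [ha]

theorem mem_stfib {A B C : Type} [Group A] [Group B] [Group C] (g : A →* C) (c : B →* C)
    (x : A × B) : x ∈ stfib g c ↔ g x.1 = c x.2 := Iff.rfl

/-- first projection of the fibre product -/
def stfib₁ {A B C : Type} [Group A] [Group B] [Group C] (g : A →* C) (c : B →* C) :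
    stfib g c →* A := (MonoidHom.fst A B).comp (stfib g c).subtype

/-- second projection of the fibre product -/
def stfib₂ {A B C : Type} [Group A] [Group B] [Group C] (g : A →* C) (c : B →* C) :
    stfib g c →* B := (MonoidHom.snd A B).comp (stfib g c).subtype

section

variable {A B C : Type} [Group A] [Group B] [Group C] (g : A →* C) (c : B →* C)

theorem stfib_comm (x : stfib g c) : g (stfib₁ g c x) = c (stfib₂ g c x) := x.2

theorem stfib₁_surjective (hc : Surjective c) : Surjective (stfib₁ g c) := by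
  intro a
  obtain ⟨b, hb⟩ := hc (g a)
  exact ⟨⟨(a, b), hb.symm⟩, rfl⟩

theorem stfib₂_surjective (hg : Surjective g) : Surjective (stfib₂ g c) := by
  intro b
  obtain ⟨a, ha⟩ := hg (c b)
  exact ⟨⟨(a, b), ha⟩, rfl⟩

theorem stfib_ext {x y : stfib g c} (h1 : stfib₁ g c x = stfib₁ g c y) (h2 : stfib₂ g c x = stfib₂ g c y) :
    x = y := Subtype.ext (Prod.ext h1 h2)

theorem stfib_mem (F : Formation) (hg : Surjective g) (hc : Surjective c) (hA : F.mem A)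
    (hB : F.mem B) : F.mem (stfib g c) := by
  refine F.mem_of_subdirect (stfib₁ g c) (stfib₂ g c) (stfib₁_surjective g c hc)
    (stfib₂_surjective g c hg) ?_ hA hB
  intro x h1 h2
  exact stfib_ext g c (by rw [h1, map_one]) (by rw [h2, map_one])

end

/-- Value of a position after pulling back along a surjection -/
theorem val_stfib (F : Formation) {H K K' : Type} [Group H] [Group K] [Group K'] (π : H →* K)
    (g : K' →* K) (hg : Surjective g) (hK' : F.mem K') :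
    Val F π ↔ Val F (stfib₂ π g) := by
  refine val_pullback F g hg (stfib₁ π g) (fun a => stfib_comm π g a) ?_ ?_ hK'
  · intro a h1 h2
    exact stfib_ext π g (by rw [h1, map_one]) (by rw [h2, map_one])
  · intro a k h
    exact ⟨⟨(a, k), h⟩, rfl, rfl⟩

theorem stfib₂_not_surj {H K K' : Type} [Group H] [Group K] [Group K'] (π : H →* K)
    (g : K' →* K) (hg : Surjective g) (hπ : ¬ Surjective π) : ¬ Surjective (stfib₂ π g) := by
  intro h
  apply hπ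
  intro k
  obtain ⟨k', rfl⟩ := hg k
  obtain ⟨x, rfl⟩ := h k'
  exact ⟨_, stfib_comm π g x⟩

theorem star_surj (A : Formation) {K₀ K₀' : Type} [Group K₀] [Group K₀'] (c : K₀ →* K₀')
    (hc : Surjective c) (hK : A.mem K₀) (h : A.StarProp K₀) : A.StarProp K₀' := by
  intro K H _ _ _ hKA g hg π hπ
  have hfin := A.finite_of_mem hK
  have hfin' := A.finite_of_mem hKA
  -- the group `K~`
  have hmem : A.mem (stfib g c) := stfib_mem g c A hg hc hKA hK
  have hs1 := stfib₁_surjective g c hc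
  have hs2 := stfib₂_surjective g c hg
  have e1 := val_stfib A π (stfib₁ g c) hs1 hmem
  have e2 := val_stfib A (π.comp (g.comp π).ker.subtype) (stfib₁ g c) hs1 hmem
  have e3 := h (stfib g c) (stfib π (stfib₁ g c)) hmem (stfib₂ g c) hs2 (stfib₂ π (stfib₁ g c))
    (stfib₂_not_surj _ _ hs1 hπ)
  have e4 := h (stfib g c) (stfib (π.comp (g.comp π).ker.subtype) (stfib₁ g c)) hmem (stfib₂ g c) hs2
    (stfib₂ (π.comp (g.comp π).ker.subtype) (stfib₁ g c))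
    (stfib₂_not_surj _ _ hs1 (star_not_surj hπ _))
  rw [e1, e2, e3, e4]
  symm
  -- the two kernels are isomorphic
  let α : stfib (π.comp (g.comp π).ker.subtype) (stfib₁ g c) →* stfib π (stfib₁ g c) :=
    { toFun := fun x => ⟨((x.1.1 : H), x.1.2), x.2⟩
      map_one' := rfl
      map_mul' := fun _ _ => rfl }
  let β : ((stfib₂ g c).comp (stfib₂ (π.comp (g.comp π).ker.subtype) (stfib₁ g c))).ker →*
      ((stfib₂ g c).comp (stfib₂ π (stfib₁ g c))).ker :=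
    { toFun := fun x => ⟨α x.1, x.2⟩
      map_one' := rfl
      map_mul' := fun _ _ => rfl }
  refine val_congr A β ⟨?_, ?_⟩ (fun x => rfl)
  · intro x y hxy
    have h1 : α x.1 = α y.1 := congrArg Subtype.val hxy
    have h2 : (((x.1.1.1 : (g.comp π).ker) : H), x.1.1.2) = ((y.1.1.1 : H), y.1.1.2) :=
      congrArg Subtype.val h1
    have h3 := congrArg Prod.fst h2
    have h4 := congrArg Prod.snd h2
    apply Subtype.ext
    apply Subtype.ext
    exact Prod.ext (Subtype.ext h3) h4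
  · rintro ⟨⟨⟨a, k⟩, hak⟩, hk⟩
    have hk' : k.1.2 = 1 := hk
    have hak' : π a = k.1.1 := hak
    have h5 : g k.1.1 = c k.1.2 := k.2
    have h6 : a ∈ (g.comp π).ker := by
      rw [MonoidHom.mem_ker, MonoidHom.comp_apply, hak', h5, hk', map_one]
    exact ⟨⟨⟨(⟨a, h6⟩, k), hak⟩, hk⟩, rfl⟩

theorem star_subdirect (A : Formation) {K₀ K₁ K₂ : Type} [Group K₀] [Group K₁] [Group K₂]
    (f₁ : K₀ →* K₁) (f₂ : K₀ →* K₂) (h₁ : Surjective f₁) (h₂ : Surjective f₂)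
    (hinj : ∀ x, f₁ x = 1 → f₂ x = 1 → x = 1) (hs₁ : A.StarProp K₁) (hs₂ : A.StarProp K₂) :
    A.StarProp K₀ := by
  intro K H _ _ _ hKA g hg π hπ
  have e1 := hs₁ K H hKA (f₁.comp g) (h₁.comp hg) π hπ
  have e2 := hs₂ K ((f₁.comp g).comp π).ker hKA (f₂.comp g) (h₂.comp hg)
    (π.comp ((f₁.comp g).comp π).ker.subtype) (star_not_surj hπ _)
  rw [e1, e2]
  let β : ((f₂.comp g).comp (π.comp ((f₁.comp g).comp π).ker.subtype)).ker →* (g.comp π).ker :=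
    { toFun := fun x => ⟨x.1.1, hinj _ x.1.2 x.2⟩
      map_one' := rfl
      map_mul' := fun _ _ => rfl }
  refine val_congr A β ⟨?_, ?_⟩ (fun x => rfl)
  · intro x y hxy
    have h1 : (β x).1 = (β y).1 := congrArg Subtype.val hxy
    exact Subtype.ext (Subtype.ext h1)
  · rintro ⟨a, ha⟩
    have ha' : g (π a) = 1 := ha
    refine ⟨⟨⟨a, ?_⟩, ?_⟩, rfl⟩
    · change f₁ (g (π a)) = 1
      rw [ha', map_one]
    · change f₂ (g (π a)) = 1
      rw [ha', map_one]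

theorem exists_star (A : Formation) : ∃ A' : Formation, ∀ (G : Type) [Group G],
    A'.mem G ↔ A.mem G ∧ A.StarProp G := by
  refine ⟨Formation.ofSubdirect (fun G _ => A.mem G ∧ A.StarProp G) (fun h => A.finite_of_mem h.1)
    ⟨Unit, inferInstance, A.mem_of_subsingleton _, ?_⟩ ?_ ?_, fun G _ => Iff.rfl⟩
  · intro K H _ _ _ _ g _ π _
    exact star_top A g π
  · intro G H _ _ f hf ⟨h1, h2⟩
    exact ⟨A.mem_of_surjective f hf h1, star_surj A f hf h1 h2⟩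
  · intro G H K _ _ _ _ f g hf hg hfg ⟨h1, h2⟩ ⟨h3, h4⟩
    exact ⟨A.mem_of_subdirect f g hf hg hfg h1 h3, star_subdirect A f g hf hg hfg h2 h4⟩

/-- The formation of all finite groups. -/
def allFin : Formation :=
  Formation.ofSubdirect (fun G _ => Finite G) (fun h => h) ⟨Unit, inferInstance, inferInstance⟩
    (fun f hf h => by
      have := h
      exact Finite.of_surjective f hf)
    (fun _ _ _ _ _ _ _ => inferInstance)

theorem exists_least (𝒳 𝒴 : MarkSys) : ∃ C₁ C₂ : Formation, IsPair 𝒳 𝒴 C₁ C₂ ∧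
    ∀ A₁ A₂ : Formation, IsPair 𝒳 𝒴 A₁ A₂ → C₁.Le A₁ ∧ C₂.Le A₂ := by
  have hall : IsPair 𝒳 𝒴 allFin allFin := by
    intro O _
    have h1 : Finite O.J := 𝒳.fin O.x
    have h2 : Finite O.Z₁ := inferInstance
    have h3 : Finite O.Z₂ := inferInstance
    exact ⟨fun _ => h3, fun _ => h2⟩
  let C₁ : Formation := Formation.ofSubdirect
    (fun G _ => ∀ A₁ A₂ : Formation, IsPair 𝒳 𝒴 A₁ A₂ → A₁.mem G)
    (fun h => allFin.finite_of_mem (h _ _ hall))
    ⟨Unit, inferInstance, fun A₁ _ _ => A₁.mem_of_subsingleton _⟩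
    (fun f hf h A₁ A₂ hA => A₁.mem_of_surjective f hf (h A₁ A₂ hA))
    (fun f g hf hg hfg h1 h2 A₁ A₂ hA => A₁.mem_of_subdirect f g hf hg hfg (h1 A₁ A₂ hA)
      (h2 A₁ A₂ hA))
  let C₂ : Formation := Formation.ofSubdirect
    (fun G _ => ∀ A₁ A₂ : Formation, IsPair 𝒳 𝒴 A₁ A₂ → A₂.mem G)
    (fun h => allFin.finite_of_mem (h _ _ hall))
    ⟨Unit, inferInstance, fun _ A₂ _ => A₂.mem_of_subsingleton _⟩
    (fun f hf h A₁ A₂ hA => A₂.mem_of_surjective f hf (h A₁ A₂ hA))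
    (fun f g hf hg hfg h1 h2 A₁ A₂ hA => A₂.mem_of_subdirect f g hf hg hfg (h1 A₁ A₂ hA)
      (h2 A₁ A₂ hA))
  refine ⟨C₁, C₂, ?_, ?_⟩
  · intro O hD
    exact ⟨fun h A₁ A₂ hA => (hA O hD).1 (h A₁ A₂ hA), fun h A₁ A₂ hA => (hA O hD).2 (h A₁ A₂ hA)⟩
  · intro A₁ A₂ hA
    exact ⟨fun G _ h => h A₁ A₂ hA, fun G _ h => h A₁ A₂ hA⟩

end STARA

section STARB

variable {𝒳 𝒴 : MarkSys} {A₁ A₂ : Formation}

theorem star_cov_comp {O'' O' O : Obj 𝒳 𝒴} {f : O'.J →* O.J} {g : O''.J →* O'.J}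
    (h1 : O'.Cov O f) (h2 : O''.Cov O' g) : O''.Cov O (f.comp g) :=
  ⟨𝒳.comp h1.1 h2.1, 𝒴.comp h1.2 h2.2⟩

theorem star_cov_refl (O : Obj 𝒳 𝒴) : O.Cov O (MonoidHom.id O.J) := ⟨𝒳.refl _, 𝒴.refl _⟩

theorem star_cov_swap {O' O : Obj 𝒳 𝒴} {f : O'.J →* O.J} (h : O'.Cov O f) :
    O'.swap.Cov O.swap f := ⟨h.2, h.1⟩

theorem star_map₁ {O' O : Obj 𝒳 𝒴} {f : O'.J →* O.J} (h : O'.Cov O f) :
    (O'.Z₁).map f = O.Z₁ := 𝒳.map_Z h.1

theorem star_map₂ {O' O : Obj 𝒳 𝒴} {f : O'.J →* O.J} (h : O'.Cov O f) :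
    (O'.Z₂).map f = O.Z₂ := 𝒴.map_Z h.2

theorem star_inc {O' O : Obj 𝒳 𝒴} {f : O'.J →* O.J} (h : O'.Cov O f) (hI : O.Inc) :
    O'.Inc := by
  constructor
  · intro hle
    apply hI.1
    rw [← star_map₁ h, ← star_map₂ h]
    exact Subgroup.map_mono hle
  · intro hle
    apply hI.2
    rw [← star_map₁ h, ← star_map₂ h]
    exact Subgroup.map_mono hle

theorem star_inc_swap {O : Obj 𝒳 𝒴} (hI : O.Inc) : O.swap.Inc := ⟨hI.2, hI.1⟩

theorem star_dom_of_inc {O : Obj 𝒳 𝒴} (hI : O.Inc) : O.Dom := ⟨O, _, star_cov_refl O, hI⟩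

theorem star_dom_swap {O : Obj 𝒳 𝒴} (hD : O.Dom) : O.swap.Dom := by
  obtain ⟨O', f, hc, hI⟩ := hD
  exact ⟨O'.swap, f, star_cov_swap hc, star_inc_swap hI⟩

theorem star_dom_quot {O' O : Obj 𝒳 𝒴} {f : O'.J →* O.J} (h : O'.Cov O f) (hD : O'.Dom) :
    O.Dom := by
  obtain ⟨O'', g, hc, hI⟩ := hD
  exact ⟨O'', f.comp g, star_cov_comp h hc, hI⟩

theorem star_pair_symm (hP : IsPair 𝒳 𝒴 A₁ A₂) : IsPair 𝒴 𝒳 A₂ A₁ := by
  intro O hD
  exact (hP O.swap (star_dom_swap hD)).symm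

/-- pushing an object forward, with the universal property of pushing -/
theorem star_push (O : Obj 𝒳 𝒴) {K : Type} [Group K] (f : O.J →* K) (hf : Surjective f) :
    ∃ (m₁ : 𝒳.Mk K) (m₂ : 𝒴.Mk K), O.Cov (⟨K, inferInstance, m₁, m₂⟩ : Obj 𝒳 𝒴) f ∧
      ∀ (P : Obj 𝒳 𝒴) (g : K →* P.J), O.Cov P (g.comp f) →
        (⟨K, inferInstance, m₁, m₂⟩ : Obj 𝒳 𝒴).Cov P g := by
  obtain ⟨m₁, h1, h1'⟩ := 𝒳.push f O.x hf
  obtain ⟨m₂, h2, h2'⟩ := 𝒴.push f O.y hf
  exact ⟨m₁, m₂, ⟨h1, h2⟩, fun P g hg => ⟨h1' g P.x hg.1, h2' g P.y hg.2⟩⟩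

theorem star_char (A : Formation) (G : Type) [Group G] [Finite G] :
    (A.res G).Characteristic := by
  rw [Subgroup.characteristic_iff_map_eq]
  intro φ
  exact A.map_res φ.toMonoidHom φ.surjective

/-- the residual of a normal subgroup as a subgroup of the whole group -/
def resIn (A : Formation) {J : Type} [Group J] (Z : Subgroup J) : Subgroup J :=
  (A.res Z).map Z.subtype

theorem resIn_le (A : Formation) {J : Type} [Group J] (Z : Subgroup J) : resIn A Z ≤ Z := by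
  rintro _ ⟨z, _, rfl⟩
  exact z.2

theorem resIn_normal (A : Formation) {J : Type} [Group J] [Finite J] (Z : Subgroup J) [Z.Normal] :
    (resIn A Z).Normal := by
  have := star_char A Z
  unfold resIn
  infer_instance

theorem mem_resIn (A : Formation) {J : Type} [Group J] (Z : Subgroup J) (z : Z) :
    (z : J) ∈ resIn A Z ↔ z ∈ A.res Z := by
  constructor
  · rintro ⟨z', h1, h2⟩
    have h3 : z' = z := Subtype.ext h2
    rwa [← h3]
  · intro h
    exact ⟨z, h, rfl⟩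

/-- membership of images of a normal subgroup -/
theorem mem_map_iff_resIn (A : Formation) {J K : Type} [Group J] [Finite J] [Group K]
    (Z : Subgroup J) (f : J →* K) : A.mem (Z.map f) ↔ ∀ z ∈ resIn A Z, f z = 1 := by
  rw [A.mem_iff_res_le_ker (f.subgroupMap Z) (f.subgroupMap_surjective Z)]
  constructor
  · rintro h _ ⟨z, hz, rfl⟩
    have h1 : f.subgroupMap Z z = 1 := h hz
    exact congrArg Subtype.val h1
  · intro h z hz
    rw [MonoidHom.mem_ker]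
    apply Subtype.ext
    exact h _ ⟨z, hz, rfl⟩

theorem star_res_le (hP : IsPair 𝒳 𝒴 A₁ A₂) (O : Obj 𝒳 𝒴) (hD : O.Dom) :
    resIn A₂ O.Z₂ ≤ resIn A₁ O.Z₁ := by
  have hfin : Finite O.J := 𝒳.fin O.x
  have hN : (resIn A₁ O.Z₁).Normal := resIn_normal A₁ O.Z₁
  obtain ⟨m₁, m₂, hc, -⟩ := star_push O (QuotientGroup.mk' (resIn A₁ O.Z₁))
    (QuotientGroup.mk'_surjective _)
  have h1 := hP _ (star_dom_quot hc hD)
  rw [← star_map₁ hc, ← star_map₂ hc, mem_map_iff_resIn, mem_map_iff_resIn] at h1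
  have h2 := h1.1 (fun z hz => (QuotientGroup.eq_one_iff z).2 hz)
  intro z hz
  exact (QuotientGroup.eq_one_iff z).1 (h2 z hz)

theorem star_res_eq (hP : IsPair 𝒳 𝒴 A₁ A₂) (O : Obj 𝒳 𝒴) (hD : O.Dom) :
    resIn A₁ O.Z₁ = resIn A₂ O.Z₂ :=
  le_antisymm (star_res_le (star_pair_symm hP) O.swap (star_dom_swap hD)) (star_res_le hP O hD)

theorem exists_good_list (O : Obj 𝒳 𝒴) (hI : O.Inc) (l : List ℕ) (hl : ∀ q ∈ l, q.Prime) :
    ∃ (O' : Obj 𝒳 𝒴) (f : O'.J →* O.J), O'.Cov O f ∧ ∀ q ∈ l, O'.Good₁ q ∧ O'.Good₂ q := by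
  induction l with
  | nil => exact ⟨O, _, star_cov_refl O, by simp⟩
  | cons q l ih =>
    obtain ⟨O₁, f₁, hc₁, hg₁⟩ := ih (fun r hr => hl r (List.mem_cons_of_mem _ hr))
    have hI₁ := star_inc hc₁ hI
    have hq : q.Prime := hl q List.mem_cons_self
    obtain ⟨O₂, f₂, hc₂, hg₂⟩ := exists_good₁ O₁ hI₁ hq
    have hI₂ := star_inc hc₂ hI₁
    obtain ⟨O₃, f₃, hc₃, hg₃⟩ := exists_good₁ O₂.swap (star_inc_swap hI₂) hq
    have hc₃' : O₃.swap.Cov O₂ f₃ := star_cov_swap hc₃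
    refine ⟨O₃.swap, (f₁.comp f₂).comp f₃, star_cov_comp (star_cov_comp hc₁ hc₂) hc₃', ?_⟩
    intro r hr
    rcases List.mem_cons.1 hr with rfl | hr
    · exact ⟨hg₂.cover hc₃' hq, hg₃⟩
    · have hrp := hl r (List.mem_cons_of_mem _ hr)
      have hc : O₃.swap.Cov O₁ (f₂.comp f₃) := star_cov_comp hc₂ hc₃'
      exact ⟨(hg₁ r hr).1.cover hc hrp, Obj.Good₁.cover (star_cov_swap hc) hrp (hg₁ r hr).2⟩

theorem exists_good (O : Obj 𝒳 𝒴) (hI : O.Inc) {n : ℕ} (hn : n ≠ 0) :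
    ∃ (O' : Obj 𝒳 𝒴) (f : O'.J →* O.J), O'.Cov O f ∧ O'.GoodAt n := by
  obtain ⟨O', f, hc, hg⟩ := exists_good_list O hI n.primeFactorsList
    (fun q hq => Nat.prime_of_mem_primeFactorsList hq)
  exact ⟨O', f, hc, fun q hq hqn => hg q ((Nat.mem_primeFactorsList hn).2 ⟨hq, hqn⟩)⟩

/-- Dividing out the common residual. -/
theorem star_mod (O' : Obj 𝒳 𝒴) {O : Obj 𝒳 𝒴}
    (f : O'.J →* O.J) (hc : O'.Cov O f) (hZ : A₁.mem O.Z₁) :
    ∃ (P : Obj 𝒳 𝒴) (m : O'.J →* P.J) (g : P.J →* O.J), O'.Cov P m ∧ P.Cov O g ∧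
      g.comp m = f ∧ (∀ z, m z = 1 ↔ z ∈ resIn A₁ O'.Z₁) ∧ A₁.mem P.Z₁ := by
  have hfin : Finite O'.J := 𝒳.fin O'.x
  have hN : (resIn A₁ O'.Z₁).Normal := resIn_normal A₁ O'.Z₁
  obtain ⟨m₁, m₂, hcm, hu⟩ := star_push O' (QuotientGroup.mk' (resIn A₁ O'.Z₁))
    (QuotientGroup.mk'_surjective _)
  have hfz : ∀ z ∈ resIn A₁ O'.Z₁, f z = 1 := by
    rw [← star_map₁ hc, mem_map_iff_resIn] at hZ
    exact hZ
  refine ⟨⟨O'.J ⧸ resIn A₁ O'.Z₁, inferInstance, m₁, m₂⟩, QuotientGroup.mk' (resIn A₁ O'.Z₁),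
    QuotientGroup.lift _ f hfz, hcm, ?_, ?_, ?_, ?_⟩
  · apply hu
    have h1 : (QuotientGroup.lift (resIn A₁ O'.Z₁) f hfz).comp
        (QuotientGroup.mk' (resIn A₁ O'.Z₁)) = f := by
      ext z
      rfl
    rw [h1]
    exact hc
  · ext z
    rfl
  · intro z
    exact QuotientGroup.eq_one_iff z
  · rw [← star_map₁ hcm, mem_map_iff_resIn]
    intro z hz
    exact (QuotientGroup.eq_one_iff z).2 hz

theorem exists_nice (hP : IsPair 𝒳 𝒴 A₁ A₂) (O : Obj 𝒳 𝒴) (hI : O.Inc)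
    (hZ : A₁.mem O.Z₁)
    {K : Type} [Group K] (hK : A₁.mem K) (g : K →* O.Z₁) (hg : Surjective g) {n : ℕ}
    (hn : n ≠ 0) : ∃ (O' : Obj 𝒳 𝒴) (f : O'.J →* O.J), O'.Cov O f ∧ O'.GoodAt n ∧
      A₁.mem O'.Z₁ ∧ ∃ h : O'.Z₁ →* K, Surjective h ∧ ∀ z, ((g (h z) : O.Z₁) : O.J) = f z := by
  have hfK := A₁.finite_of_mem hK
  obtain ⟨J₁, _, f₁, y₁, hc₁, h₁, hh₁, hgh₁⟩ := 𝒳.emb O.x g hg
  have hfJ₁ : Finite J₁ := 𝒳.fin y₁
  obtain ⟨y₂, hc₂⟩ := 𝒴.lift f₁ O.y (𝒳.surj hc₁)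
  let O₁ : Obj 𝒳 𝒴 := ⟨J₁, inferInstance, y₁, y₂⟩
  have hcO₁ : O₁.Cov O f₁ := ⟨hc₁, hc₂⟩
  obtain ⟨O₂, f₂, hcO₂, hgood⟩ := exists_good O₁ (star_inc hcO₁ hI) hn
  have hc₃ : O₂.Cov O (f₁.comp f₂) := star_cov_comp hcO₁ hcO₂
  have hI₂ : O₂.Inc := star_inc hc₃ hI
  obtain ⟨P, m, f, hcm, hcf, hfm, hker, hPZ⟩ := star_mod O₂ _ hc₃ hZ
  have hker' : ∀ z, m z = 1 ↔ z ∈ resIn A₂ O₂.Z₂ := by
    intro z
    rw [hker z, star_res_eq hP O₂ (star_dom_of_inc hI₂)]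
  refine ⟨P, f, hcf, ?_, hPZ, ?_⟩
  · intro q hq hqn
    refine ⟨(hgood q hq hqn).1.quot hcm (fun t ht => resIn_le _ _ ((hker t).1 ht)) hq, ?_⟩
    exact Obj.Good₁.quot (star_cov_swap hcm)
      (fun t ht => resIn_le _ _ ((hker' t).1 ht)) hq (hgood q hq hqn).2
  · -- the map to `K`
    have hφ : (O₂.Z₁).map f₂ = O₁.Z₁ := star_map₁ hcO₂
    obtain ⟨φ, hφs, hφe⟩ := Formation.exists_restrict f₂ O₂.Z₁ O₁.Z₁ hφ
    obtain ⟨μ, hμs, hμe⟩ := Formation.exists_restrict m O₂.Z₁ P.Z₁ (star_map₁ hcm)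
    have hfin₂ : Finite O₂.J := 𝒳.fin O₂.x
    have hkφ : A₁.res O₂.Z₁ ≤ (h₁.comp φ).ker :=
      A₁.res_le_ker (h₁.comp φ) (hh₁.comp hφs) hK
    have hle : μ.ker ≤ (h₁.comp φ).ker := by
      intro z hz
      apply hkφ
      rw [← mem_resIn, ← hker, ← hμe, MonoidHom.mem_ker.1 hz]
      rfl
    let ψ : P.Z₁ →* K := (MonoidHom.liftOfSurjective μ hμs) ⟨h₁.comp φ, hle⟩
    have hψ : ∀ z, ψ (μ z) = h₁ (φ z) := fun z =>
      MonoidHom.liftOfRightInverse_comp_apply μ _ _ ⟨h₁.comp φ, hle⟩ z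
    refine ⟨ψ, ?_, ?_⟩
    · intro k
      obtain ⟨z, hz⟩ := (hh₁.comp hφs) k
      exact ⟨μ z, by rw [hψ]; exact hz⟩
    · intro z
      obtain ⟨z, rfl⟩ := hμs z
      rw [hψ, hμe]
      refine (hgh₁ (φ z)).trans ?_
      refine (congrArg f₁ (hφe z)).trans ?_
      exact (DFunLike.congr_fun hfm (z : O₂.J)).symm

theorem star_goodAt_dvd {O : Obj 𝒳 𝒴} {m n : ℕ} (h : O.GoodAt n) (hmn : m ∣ n) : O.GoodAt m :=
  fun q hq hqm => h q hq (hqm.trans hmn)

theorem star_goodAt_swap {O : Obj 𝒳 𝒴} {n : ℕ} (h : O.GoodAt n) : O.swap.GoodAt n :=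
  fun q hq hqm => ⟨(h q hq hqm).2, (h q hq hqm).1⟩

/-- The position on the first side obtained from a position `τ` and a map `c` on the second
side. -/
def chainMap (P : Obj 𝒳 𝒴) {K T : Type} [Group K] [Group T] (c : P.Z₂ →* K) (τ : T →* K) :
    (P.Z₁).comap (P.Z₂.subtype.comp (stfib₂ τ c)) →* P.Z₁ :=
  (P.Z₂.subtype.comp (stfib₂ τ c)).subgroupComap P.Z₁

/-- transferring the value of a position to the first side -/
theorem star_chain (hP : IsPair 𝒳 𝒴 A₁ A₂) (P : Obj 𝒳 𝒴) (hI : P.Inc) (hm : A₂.mem P.Z₂)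
    {K T : Type} [Group K] [Group T] [Finite T] (c : P.Z₂ →* K) (hc : Surjective c)
    (τ : T →* K) (hτ : ¬ Surjective τ) {n : ℕ} (hgood : P.GoodAt n) (hn : Nat.card T ∣ n) :
    Val A₂ τ ↔ Val A₁ (chainMap P c τ) := by
  have hfin : Finite P.J := 𝒳.fin P.x
  have e1 := val_stfib A₂ τ c hc hm
  have hτ' : ¬ Surjective (stfib₂ τ c) := stfib₂_not_surj τ c hc hτ
  have hcard : Nat.card (stfib₂ τ c).ker ∣ n := by
    refine dvd_trans (Subgroup.card_dvd_of_injective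
      ((stfib₁ τ c).comp (stfib₂ τ c).ker.subtype) ?_) hn
    intro x y hxy
    apply Subtype.ext
    apply stfib_ext τ c hxy
    exact (MonoidHom.mem_ker.1 x.2).trans (MonoidHom.mem_ker.1 y.2).symm
  have hP' := star_pair_symm hP
  have e2 := move_one hP' P.swap (star_inc_swap hI) (H := stfib τ c) (stfib₂ τ c)
    (star_goodAt_dvd (star_goodAt_swap hgood) hcard) (fun h => absurd h hτ')
  have hcard2 : Nat.card ((stfib₂ τ c).comp
      (P.swap.Z₂.comap (P.swap.Z₁.subtype.comp (stfib₂ τ c))).subtype).ker ∣ n := by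
    refine dvd_trans (Subgroup.card_dvd_of_injective
      (((stfib₁ τ c).comp (P.swap.Z₂.comap (P.swap.Z₁.subtype.comp (stfib₂ τ c))).subtype).comp
        (Subgroup.subtype _)) ?_) hn
    intro x y hxy
    apply Subtype.ext
    apply Subtype.ext
    apply stfib_ext τ c hxy
    exact (MonoidHom.mem_ker.1 x.2).trans (MonoidHom.mem_ker.1 y.2).symm
  have e3 := move_zero hP' P.swap (star_inc_swap hI)
    (H := P.swap.Z₂.comap (P.swap.Z₁.subtype.comp (stfib₂ τ c)))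
    ((stfib₂ τ c).comp (P.swap.Z₂.comap (P.swap.Z₁.subtype.comp (stfib₂ τ c))).subtype)
    (chainMap P c τ) (fun a => rfl) (star_goodAt_dvd (star_goodAt_swap hgood) hcard2)
  exact e1.trans (e2.trans e3)

/-- One direction of `isPair_star`. -/
theorem isPair_star_aux (hP : IsPair 𝒳 𝒴 A₁ A₂) (O : Obj 𝒳 𝒴) (hD : O.Dom)
    (hm : A₁.mem O.Z₁) (hs : A₁.StarProp O.Z₁) : A₂.StarProp O.Z₂ := by
  intro K H _ _ _ hK g hg π hπ
  -- a covering with incomparable marked subgroups in the formations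
  obtain ⟨O', f', hc', hI'⟩ := id hD
  obtain ⟨Q, m, f, hcm, hcf, hfm, hker, hQ⟩ := star_mod O' f' hc' hm
  have hker' : ∀ z, m z = 1 ↔ z ∈ resIn A₂ O'.Z₂ := by
    intro z
    rw [hker z, star_res_eq hP O' (star_dom_of_inc hI')]
  have hIQ : Q.Inc := by
    constructor
    · intro hle
      apply hI'.1
      intro z hz
      have h1 : m z ∈ (O'.Z₂).map m := by
        rw [star_map₂ hcm]
        apply hle
        rw [← star_map₁ hcm]
        exact ⟨z, hz, rfl⟩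
      obtain ⟨z', hz', h2⟩ := h1
      have h3 : m (z'⁻¹ * z) = 1 := by rw [map_mul, map_inv, h2, inv_mul_cancel]
      have h4 : z'⁻¹ * z ∈ O'.Z₂ := resIn_le _ _ ((hker' _).1 h3)
      have h5 := (O'.Z₂).mul_mem hz' h4
      rwa [mul_inv_cancel_left] at h5
    · intro hle
      apply hI'.2
      intro z hz
      have h1 : m z ∈ (O'.Z₁).map m := by
        rw [star_map₁ hcm]
        apply hle
        rw [← star_map₂ hcm]
        exact ⟨z, hz, rfl⟩
      obtain ⟨z', hz', h2⟩ := h1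
      have h3 : m (z'⁻¹ * z) = 1 := by rw [map_mul, map_inv, h2, inv_mul_cancel]
      have h4 : z'⁻¹ * z ∈ O'.Z₁ := resIn_le _ _ ((hker _).1 h3)
      have h5 := (O'.Z₁).mul_mem hz' h4
      rwa [mul_inv_cancel_left] at h5
  have hQ₂ : A₂.mem Q.Z₂ := (hP Q (star_dom_of_inc hIQ)).1 hQ
  -- the group `K₁`
  obtain ⟨φ, hφs, hφe⟩ := Formation.exists_restrict f Q.Z₂ O.Z₂ (star_map₂ hcf)
  have hK₁ : A₂.mem (stfib g φ) := stfib_mem g φ A₂ hg hφs hK hQ₂
  obtain ⟨P, p, hcp, hgP, hP₂, c₁, hc₁, hpc₁⟩ : ∃ (P : Obj 𝒳 𝒴) (p : P.J →* Q.J), P.Cov Q p ∧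
      P.GoodAt (Nat.card H) ∧ A₂.mem P.Z₂ ∧ ∃ h : P.Z₂ →* stfib g φ, Surjective h ∧
        ∀ z, ((stfib₂ g φ (h z) : Q.Z₂) : Q.J) = p z := by
    obtain ⟨N, p, hcp, hgood, hN, h, hh, hph⟩ := exists_nice (star_pair_symm hP) Q.swap
      (star_inc_swap hIQ) hQ₂ hK₁ (stfib₂ g φ) (stfib₂_surjective g φ hg)
      (n := Nat.card H) Nat.card_pos.ne'
    exact ⟨N.swap, p, star_cov_swap hcp, star_goodAt_swap hgood, hN, h, hh, hph⟩
  have hfinP : Finite P.J := 𝒳.fin P.x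
  have hIP : P.Inc := star_inc hcp hIQ
  have hcO : P.Cov O (f.comp p) := star_cov_comp hcf hcp
  have hP₁ : A₁.mem P.Z₁ := (hP P (star_dom_of_inc hIP)).2 hP₂
  -- the map `c : Z₂ → K`
  let c : P.Z₂ →* K := (stfib₁ g φ).comp c₁
  have hcs : Surjective c := (stfib₁_surjective g φ hφs).comp hc₁
  have hgc : ∀ z : P.Z₂, ((g (c z) : O.Z₂) : O.J) = f (p z) := by
    intro z
    have h1 : g (c z) = φ (stfib₂ g φ (c₁ z)) := stfib_comm g φ (c₁ z)
    rw [h1, hφe]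
    exact congrArg f (hpc₁ z)
  obtain ⟨F, hFs, hFe⟩ := Formation.exists_restrict (f.comp p) P.Z₁ O.Z₁ (star_map₁ hcO)
  have e1 := star_chain hP P hIP hP₂ c hcs π hπ hgP dvd_rfl
  have e2 := star_chain hP P hIP hP₂ c hcs (π.comp (g.comp π).ker.subtype)
    (star_not_surj hπ _) hgP (Subgroup.card_subgroup_dvd_card _)
  have hns : ¬ Surjective (chainMap P c π) := by
    intro h
    apply hIP.1
    intro z hz
    obtain ⟨a, ha⟩ := h ⟨z, hz⟩
    have h1 : ((stfib₂ π c a.1 : P.Z₂) : P.J) = z := congrArg Subtype.val ha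
    rw [← h1]
    exact (stfib₂ π c a.1).2
  have e3 := hs P.Z₁ _ hP₁ F hFs (chainMap P c π) hns
  rw [e1, e2, e3]
  symm
  let α : stfib (π.comp (g.comp π).ker.subtype) c →* stfib π c :=
    { toFun := fun x => ⟨((x.1.1 : H), x.1.2), x.2⟩
      map_one' := rfl
      map_mul' := fun _ _ => rfl }
  have hα : ∀ x, f (p ((stfib₂ π c (α x) : P.Z₂) : P.J)) = 1 := by
    intro x
    have h1 : c (x.1.2) = π ((x.1.1 : (g.comp π).ker) : H) := x.2.symm
    have h2 : g (π ((x.1.1 : (g.comp π).ker) : H)) = 1 := x.1.1.2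
    have h3 := hgc x.1.2
    rw [h1, h2] at h3
    exact h3.symm
  let β : (P.Z₁).comap (P.Z₂.subtype.comp (stfib₂ (π.comp (g.comp π).ker.subtype) c)) →*
      (F.comp (chainMap P c π)).ker :=
    { toFun := fun x => ⟨⟨α x.1, x.2⟩, Subtype.ext ((hFe _).trans (hα x.1))⟩
      map_one' := rfl
      map_mul' := fun _ _ => rfl }
  refine val_congr A₁ β ⟨?_, ?_⟩ (fun x => rfl)
  · intro x y hxy
    have h1 : α x.1 = α y.1 := congrArg (fun t => t.1.1) hxy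
    have h2 : (((x.1.1.1 : (g.comp π).ker) : H), x.1.1.2) = ((y.1.1.1 : H), y.1.1.2) :=
      congrArg Subtype.val h1
    have h3 := congrArg Prod.fst h2
    have h4 := congrArg Prod.snd h2
    apply Subtype.ext
    apply Subtype.ext
    exact Prod.ext (Subtype.ext h3) h4
  · rintro ⟨⟨⟨⟨a, z⟩, haz⟩, hz⟩, hk⟩
    have haz' : π a = c z := haz
    have h5 : f (p (z : P.J)) = 1 := (hFe ⟨z, hz⟩).symm.trans (congrArg Subtype.val hk)
    have h6 : a ∈ (g.comp π).ker := by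
      rw [MonoidHom.mem_ker, MonoidHom.comp_apply, haz']
      exact Subtype.ext ((hgc z).trans h5)
    exact ⟨⟨⟨(⟨a, h6⟩, z), haz⟩, hz⟩, rfl⟩

theorem isPair_star (hP : IsPair 𝒳 𝒴 A₁ A₂) {B₁ B₂ : Formation}
    (h₁ : ∀ (G : Type) [Group G], B₁.mem G ↔ A₁.mem G ∧ A₁.StarProp G)
    (h₂ : ∀ (G : Type) [Group G], B₂.mem G ↔ A₂.mem G ∧ A₂.StarProp G) :
    IsPair 𝒳 𝒴 B₁ B₂ := by
  intro O hD
  rw [h₁, h₂]
  constructor
  · rintro ⟨h3, h4⟩
    exact ⟨(hP O hD).1 h3, isPair_star_aux hP O hD h3 h4⟩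
  · rintro ⟨h3, h4⟩
    exact ⟨(hP O hD).2 h3, isPair_star_aux (star_pair_symm hP) O.swap (star_dom_swap hD) h3 h4⟩

end STARB

end Pool.Agent.Lib_helper5.Form
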