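import Pool.Agent.Lib_helper5.FormStar

/-!
# Block TOPS-A: `Phi.val` and `lossy`
-/

set_option maxHeartbeats 400000

namespace Pool.Agent.Lib_helper5.Form

open Function

open scoped commutatorElement

/-- independence of the ambient group, auxiliary step -/
theorem Phi.val_aux {C : Formation} (hC : ∀ (G : Type) [Group G], C.mem G → C.StarProp G)
    {S : Type} [Group S] [Finite S] {K K₀ : Type} [Group K] [Group K₀] [Nontrivial K₀]
    (hK : C.mem K) (hK₀ : C.mem K₀) :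
    Val C (1 : S →* K₀) ↔ Val C (1 : S →* K × K₀) := by
  have hP : C.mem (K × K₀) := C.mem_of_subdirect (MonoidHom.fst K K₀) (MonoidHom.snd K K₀)
    Prod.fst_surjective Prod.snd_surjective (fun x h1 h2 => Prod.ext h1 h2) hK hK₀
  have := C.finite_of_mem hK
  let π' : S × K →* K × K₀ :=
    { toFun := fun a => (a.2, 1)
      map_one' := rfl
      map_mul' := fun a b => by ext <;> simp }
  have h1 : Val C (1 : S →* K₀) ↔ Val C π' := by
    refine val_pullback C (MonoidHom.snd K K₀) Prod.snd_surjective (MonoidHom.fst S K) ?_ ?_ ?_ hP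
    · intro a; rfl
    · intro a ha hb
      refine Prod.ext ha ?_
      exact congrArg Prod.fst hb
    · intro a k hk
      refine ⟨(a, k.1), rfl, ?_⟩
      refine Prod.ext rfl ?_
      exact hk
  have hns : ¬ Surjective π' := by
    intro hs
    obtain ⟨k₀, hk₀⟩ := exists_ne (1 : K₀)
    obtain ⟨a, ha⟩ := hs (1, k₀)
    exact hk₀ (congrArg Prod.snd ha).symm
  have h2 := hC K hK (K × K₀) (S × K) hP (MonoidHom.fst K K₀) Prod.fst_surjective π' hns
  rw [h1, h2]
  symm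
  let c : S →* ((MonoidHom.fst K K₀).comp π').ker :=
    { toFun := fun s => ⟨(s, 1), rfl⟩
      map_one' := rfl
      map_mul' := fun a b => by
        apply Subtype.ext
        ext <;> simp }
  refine val_congr C c ⟨?_, ?_⟩ ?_
  · intro a b hab
    exact congrArg (fun z : ((MonoidHom.fst K K₀).comp π').ker => (z : S × K).1) hab
  · rintro ⟨⟨s, k⟩, hk⟩
    refine ⟨s, ?_⟩
    apply Subtype.ext
    have hk' : k = 1 := hk
    subst hk'
    rfl
  · intro x; rfl

theorem Phi.val {C : Formation} (hC : ∀ (G : Type) [Group G], C.mem G → C.StarProp G)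
    {S : Type} [Group S] [Finite S] (h : C.Phi S) {K : Type} [Group K] [Nontrivial K]
    (hK : C.mem K) : Val C (1 : S →* K) := by
  obtain ⟨K₀, _, hn, hK₀, hv⟩ := h
  have h1 := (Phi.val_aux hC (S := S) hK hK₀).mp hv
  have hP : C.mem (K₀ × K) := C.mem_of_subdirect (MonoidHom.fst K₀ K) (MonoidHom.snd K₀ K)
    Prod.fst_surjective Prod.snd_surjective (fun x h1 h2 => Prod.ext h1 h2) hK₀ hK
  rw [Phi.val_aux hC (S := S) hK₀ hK]
  have h2 : Val C (1 : S →* K × K₀) ↔ Val C (1 : S →* K₀ × K) := by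
    let sw : K₀ × K →* K × K₀ :=
      { toFun := fun a => (a.2, a.1)
        map_one' := rfl
        map_mul' := fun a b => rfl }
    refine val_pullback C sw (fun a => ⟨(a.2, a.1), rfl⟩) (MonoidHom.id S) ?_ ?_ ?_ hP
    · intro a; rfl
    · intro a ha _
      exact ha
    · intro a k hk
      refine ⟨a, rfl, ?_⟩
      have h1 : k.2 = 1 := (congrArg Prod.fst hk).symm
      have h2 : k.1 = 1 := (congrArg Prod.snd hk).symm
      exact (Prod.ext h2 h1).symm
  exact h2.mp h1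

/-- a consequence of the star property: only the kernel matters -/
theorem val_iff_ker {C : Formation} (hC : ∀ (G : Type) [Group G], C.mem G → C.StarProp G)
    {K H : Type} [Group K] [Group H] [Finite H] (hK : C.mem K) (π : H →* K)
    (hπ : ¬ Surjective π) : Val C π ↔ Val C (1 : π.ker →* K) := by
  rw [hC K hK K H hK (MonoidHom.id K) surjective_id π hπ]
  symm
  let c : π.ker →* ((MonoidHom.id K).comp π).ker :=
    { toFun := fun s => ⟨s.1, s.2⟩
      map_one' := rfl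
      map_mul' := fun a b => rfl }
  refine val_congr C c ⟨?_, ?_⟩ ?_
  · intro a b hab
    apply Subtype.ext
    exact congrArg (fun z : ((MonoidHom.id K).comp π).ker => (z : H)) hab
  · rintro ⟨s, hs⟩
    exact ⟨⟨s, hs⟩, rfl⟩
  · rintro ⟨x, hx⟩
    exact hx

/-- the image of the kernel of a surjection under a map onto a simple group is everything -/
theorem exists_ker_eq {H K S : Type} [Group H] [Group K] [Group S] [IsSimpleGroup S]
    (π : H →* K) (θ : H →* S) (hθ : Surjective θ) (hker : ∃ h, π h = 1 ∧ θ h ≠ 1) (s : S) :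
    ∃ h, π h = 1 ∧ θ h = s := by
  have hN : (π.ker.map θ).Normal := Subgroup.Normal.map inferInstance θ hθ
  rcases hN.eq_bot_or_eq_top with h | h
  · obtain ⟨k, hk, hk'⟩ := hker
    exfalso
    apply hk'
    have : θ k ∈ π.ker.map θ := ⟨k, hk, rfl⟩
    rw [h] at this
    exact this
  · have : s ∈ π.ker.map θ := by rw [h]; trivial
    obtain ⟨k, hk, hk'⟩ := this
    exact ⟨k, hk, hk'⟩

/-- a subgroup of a simple nonabelian group containing all commutators is everything -/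
theorem eq_top_of_comm {S : Type} [Group S] [IsSimpleGroup S] (hS : ∃ a b : S, a * b ≠ b * a)
    (T : Subgroup S) (hT : ∀ a b : S, a * b * a⁻¹ * b⁻¹ ∈ T) : T = ⊤ := by
  have h1 : commutator S ≤ T := by
    rw [commutator_eq_closure, Subgroup.closure_le]
    rintro _ ⟨a, b, rfl⟩
    exact hT a b
  have h2 : commutator S = ⊤ := by
    rcases (inferInstance : (commutator S).Normal).eq_bot_or_eq_top with h | h
    · obtain ⟨a, b, hab⟩ := hS
      exfalso
      apply hab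
      have : ⁅a, b⁆ ∈ commutator S := by
        rw [commutator_eq_closure]
        exact Subgroup.subset_closure ⟨a, b, rfl⟩
      rw [h, Subgroup.mem_bot, commutatorElement_eq_one_iff_mul_comm] at this
      exact this
    · exact h
  rw [h2] at h1
  exact top_le_iff.mp h1

/-- Elements over `1` that vanish at all coordinates. -/
theorem CoInd.inj_of_kills {K H Z : Type} [Group K] [Group H] [Group Z] (π : H →* K)
    (N : Subgroup (CoInd π)) [N.Normal] (c : H →* Z)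
    (hc : ∀ h, π h = 1 → c h = 1 → h = 1) (hN : ∀ n ∈ N, c (CoInd.ev π n) = 1) {l : CoInd π}
    (hl : l ∈ N) (h1 : CoInd.p π l = 1) : l = 1 := by
  apply CoInd.eq_one π h1
  intro x
  have h2 : x⁻¹ * l * x ∈ N := by
    have := (inferInstance : N.Normal).conj_mem l hl x⁻¹
    simpa using this
  apply hc _ _ (hN _ h2)
  have h3 : CoInd.p π (x⁻¹ * l * x) = 1 := by simp [h1]
  rw [(CoInd.full π).lift _ (by rw [h3]; exact Subgroup.one_mem _), h3]

theorem lossy {𝒳 𝒴 : MarkSys} {C₁ C₂ : Formation} (hP : IsPair 𝒳 𝒴 C₁ C₂)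
    (hC₁ : ∀ (G : Type) [Group G], C₁.mem G → C₁.StarProp G)
    (hC₂ : ∀ (G : Type) [Group G], C₂.mem G → C₂.StarProp G)
    (O : Obj 𝒳 𝒴) (hI : O.Inc) {H : Type} [Group H] [Finite H] (π : H →* O.Z₁)
    (hπ : Surjective π) (y : 𝒳.Mk (CoInd (O.Z₁.subtype.comp π))) (hy : 𝒳.Cov (CoInd.p _) y O.x)
    {S : Type} [Group S] [IsSimpleGroup S] (hS : ∃ a b : S, a * b ≠ b * a) (θ : H →* S)
    (hθ : Surjective θ) (hz : ∀ z ∈ 𝒳.Z y, θ (CoInd.ev _ z) = 1)
    (hker : ∃ h, π h = 1 ∧ θ h ≠ 1) : C₁.Phi S := by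
  have hfinS : Finite S := Finite.of_surjective θ hθ
  obtain ⟨O', f, hcov, hI', hm₁, hm₂, hkerf, _⟩ := exists_quot_res hP O hI
  obtain ⟨φ, hφ, hφ'⟩ := hcov.exists_Z₁
  have := O'.instFinite
  -- the position over the quotient
  let π' : O'.Z₁ × S →* O'.J := O'.Z₁.subtype.comp (MonoidHom.fst O'.Z₁ S)
  have hπ'range : ∀ j, j ∈ π'.range ↔ j ∈ O'.Z₁ := by
    intro j
    constructor
    · rintro ⟨a, rfl⟩
      exact a.1.2
    · intro hj
      exact ⟨(⟨j, hj⟩, 1), rfl⟩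
  have hrange : ∀ j, j ∈ (O.Z₁.subtype.comp π).range ↔ j ∈ O.Z₁ := by
    intro j
    constructor
    · rintro ⟨a, rfl⟩
      exact (π a).2
    · intro hj
      obtain ⟨a, ha⟩ := hπ ⟨j, hj⟩
      exact ⟨a, by simp [ha]⟩
  have hmemf : ∀ j, f j ∈ O'.Z₁ → j ∈ O.Z₁ := by
    intro j hj
    obtain ⟨z', hz', heq⟩ := 𝒳.exists_mem_Z_of_cov hcov.1 hj
    have h4 : j * z'⁻¹ ∈ O.Z₁ := by
      have h6 : j * z'⁻¹ ∈ (C₁.res O.Z₁).map O.Z₁.subtype := by
        rw [← hkerf, map_mul, map_inv, heq, mul_inv_cancel]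
      obtain ⟨u, _, hu⟩ := h6
      rw [← hu]
      exact u.2
    have h5 : j * z'⁻¹ * z' ∈ O.Z₁ := Subgroup.mul_mem _ h4 hz'
    simpa using h5
  let c : H →* O'.Z₁ × S := (φ.comp π).prod θ
  have hfull := CoInd.full (O.Z₁.subtype.comp π)
  have hL : FullLift π' (f.comp (CoInd.p (O.Z₁.subtype.comp π)))
      (fun l => c (CoInd.ev (O.Z₁.subtype.comp π) l)) := by
    refine { mul := ?_, lift := ?_, surj := ?_, ind := ?_ }
    · intro a b ha hb
      rw [hπ'range] at ha hb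
      have ha' := (hrange _).mpr (hmemf _ ha)
      have hb' := (hrange _).mpr (hmemf _ hb)
      show c _ = c _ * c _
      rw [hfull.mul a b ha' hb', map_mul]
    · intro a ha
      rw [hπ'range] at ha
      have ha' := (hrange _).mpr (hmemf _ ha)
      have h1 := hfull.lift a ha'
      show ((φ (π (CoInd.ev _ a)) : O'.Z₁) : O'.J) = f (CoInd.p _ a)
      rw [hφ', ← h1]
      rfl
    · exact hcov.surj.comp hfull.surj
    · rintro ⟨z, s⟩ hzs
      have hz1 : z = 1 := Subtype.ext hzs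
      subst hz1
      obtain ⟨k, hk1, hk2⟩ := exists_ker_eq π θ hθ hker s
      obtain ⟨l, hl1, hl2, hl3⟩ := hfull.ind k (by simp [hk1])
      refine ⟨l, ?_, ?_, ?_⟩
      · simp [hl1]
      · show c (CoInd.ev _ l) = _
        rw [hl2]
        refine Prod.ext ?_ hk2
        show φ (π k) = 1
        rw [hk1, map_one]
      · intro x hx
        show c _ = 1
        rw [hl3 x, map_one]
        intro hx'
        apply hx
        rw [hrange] at hx'
        rw [hπ'range]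
        exact 𝒳.mem_Z_of_cov hcov.1 hx'
  obtain ⟨Ψ, hΨ1, hΨ2⟩ := exists_up hL.toIsLift hL.surj
  have hΨs : Surjective Ψ := up_surjective hL Ψ hΨ1 hΨ2
  obtain ⟨y', hy', hpush⟩ := 𝒳.push Ψ y hΨs
  have hpΨ : (CoInd.p π').comp Ψ = f.comp (CoInd.p (O.Z₁.subtype.comp π)) := by
    ext l
    exact hΨ1 l
  have hcy' : 𝒳.Cov (CoInd.p π') y' O'.x := by
    apply hpush
    rw [hpΨ]
    exact 𝒳.comp hcov.1 hy
  have hfull' := CoInd.full π'
  -- the marked subgroup is isomorphic to `O'.Z₁`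
  have hkill : ∀ n ∈ 𝒳.Z y', MonoidHom.snd O'.Z₁ S (CoInd.ev π' n) = 1 := by
    intro n hn
    obtain ⟨z, hzz, rfl⟩ := 𝒳.exists_mem_Z_of_cov hy' hn
    have h1 : f (CoInd.p (O.Z₁.subtype.comp π) z) ∈ π'.range := by
      rw [hπ'range]
      exact 𝒳.mem_Z_of_cov hcov.1 (𝒳.mem_Z_of_cov hy hzz)
    rw [hΨ2 z h1]
    exact hz z hzz
  have hmy' : C₁.mem (𝒳.Z y') := by
    have hinj : Injective (𝒳.pZ hcy') := by
      rw [injective_iff_map_eq_one]
      intro l hl
      apply Subtype.ext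
      refine CoInd.inj_of_kills π' (𝒳.Z y') (MonoidHom.snd O'.Z₁ S) ?_ hkill l.2 ?_
      · rintro ⟨z, s⟩ h1 h2
        exact Prod.ext (Subtype.ext h1) h2
      · have := 𝒳.pZ_coe hcy' l
        rw [hl] at this
        exact this.symm
    exact C₁.mem_of_equiv (MulEquiv.ofBijective _ ⟨hinj, 𝒳.pZ_surjective hcy'⟩).symm hm₁
  obtain ⟨y₂, hy₂⟩ := 𝒴.lift (CoInd.p π') O'.y hfull'.surj
  let O₂ : Obj 𝒳 𝒴 := ⟨CoInd π', inferInstance, y', y₂⟩
  have hO₂ : O₂.Cov O' (CoInd.p π') := ⟨hcy', hy₂⟩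
  have hI₂ : O₂.Inc := Obj.Inc.cover hO₂ hI'
  have hmy₂ : C₂.mem (𝒴.Z y₂) := (hP O₂ hI₂.dom).mp hmy'
  -- every coset is moved
  have hmove : ∀ k : O'.J, ∃ n ∈ 𝒴.Z y₂, k⁻¹ * CoInd.p π' n * k ∉ π'.range := by
    intro k
    obtain ⟨z, hz2, hz1⟩ := hI'.exists₂
    obtain ⟨n, hn, hn'⟩ := 𝒴.exists_mem_Z_of_cov hy₂ hz2
    refine ⟨n, hn, ?_⟩
    rw [hπ'range, hn']
    intro hcon
    apply hz1
    have := (inferInstance : O'.Z₁.Normal).conj_mem _ hcon k
    have h2 : k * (k⁻¹ * z * k) * k⁻¹ = z := by group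
    rwa [h2] at this
  -- the single coordinate elements lie in the second marked subgroup
  have hsingle : ∀ s : S, ∃ n ∈ 𝒴.Z y₂, CoInd.p π' n = 1 ∧ CoInd.ev π' n = (1, s) ∧
      ∀ x, CoInd.p π' x ∉ π'.range → CoInd.ev π' (x⁻¹ * n * x) = 1 := by
    have hev1 : ∀ a b : CoInd π', CoInd.p π' a = 1 → CoInd.p π' b = 1 →
        CoInd.ev π' (a * b) = CoInd.ev π' a * CoInd.ev π' b := by
      intro a b ha hb
      apply hfull'.mul
      · rw [ha]; exact Subgroup.one_mem _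
      · rw [hb]; exact Subgroup.one_mem _
    have hevinv : ∀ a : CoInd π', CoInd.p π' a = 1 → CoInd.ev π' a⁻¹ = (CoInd.ev π' a)⁻¹ := by
      intro a ha
      have h1 := hev1 a a⁻¹ ha (by simp [ha])
      rw [mul_inv_cancel] at h1
      have h2 : CoInd.ev π' (1 : CoInd π') = 1 := rfl
      rw [h2] at h1
      exact eq_inv_of_mul_eq_one_right h1.symm
    let T : Subgroup S :=
      { carrier := {s | ∃ n ∈ 𝒴.Z y₂, CoInd.p π' n = 1 ∧ CoInd.ev π' n = (1, s) ∧
          ∀ x, CoInd.p π' x ∉ π'.range → CoInd.ev π' (x⁻¹ * n * x) = 1}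
        one_mem' := ⟨1, Subgroup.one_mem _, map_one _, rfl, fun x _ => by simp; rfl⟩
        mul_mem' := by
          rintro s t ⟨a, ha0, ha1, ha2, ha3⟩ ⟨b, hb0, hb1, hb2, hb3⟩
          refine ⟨a * b, Subgroup.mul_mem _ ha0 hb0, by simp [ha1, hb1], ?_, ?_⟩
          · rw [hev1 a b ha1 hb1, ha2, hb2]
            simp
          · intro x hx
            have h1 : x⁻¹ * (a * b) * x = (x⁻¹ * a * x) * (x⁻¹ * b * x) := by group
            rw [h1, hev1 _ _ (by simp [ha1]) (by simp [hb1]), ha3 x hx, hb3 x hx, one_mul]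
        inv_mem' := by
          rintro s ⟨a, ha0, ha1, ha2, ha3⟩
          refine ⟨a⁻¹, Subgroup.inv_mem _ ha0, by simp [ha1], ?_, ?_⟩
          · rw [hevinv a ha1, ha2]
            simp
          · intro x hx
            have h1 : x⁻¹ * a⁻¹ * x = (x⁻¹ * a * x)⁻¹ := by group
            rw [h1, hevinv _ (by simp [ha1]), ha3 x hx, inv_one] }
    have hT : T = ⊤ := by
      apply eq_top_of_comm hS
      intro s t
      obtain ⟨a, ha1, ha2, ha3⟩ := hfull'.ind (1, s) rfl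
      obtain ⟨b, hb1, hb2, hb3⟩ := hfull'.ind (1, t) rfl
      refine ⟨a * b * a⁻¹ * b⁻¹, comm_mem_of_move (𝒴.Z y₂) hmove ha1 ha3 hb1 hb3,
        by simp [ha1, hb1], ?_, ?_⟩
      · rw [hev1 _ _ (by simp [ha1, hb1]) (by simp [hb1]), hev1 _ _ (by simp [ha1, hb1])
          (by simp [ha1]), hev1 _ _ ha1 hb1, hevinv a ha1, hevinv b hb1, ha2, hb2]
        simp
      · intro x hx
        have h1 : x⁻¹ * (a * b * a⁻¹ * b⁻¹) * x = (x⁻¹ * a * x) * (x⁻¹ * b * x) *
            (x⁻¹ * a * x)⁻¹ * (x⁻¹ * b * x)⁻¹ := by group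
        rw [h1, hev1 _ _ (by simp [ha1, hb1]) (by simp [hb1]), hev1 _ _ (by simp [ha1, hb1])
          (by simp [ha1]), hev1 _ _ (by simp [ha1]) (by simp [hb1]), hevinv _ (by simp [ha1]),
          hevinv _ (by simp [hb1]), ha3 x hx, hb3 x hx]
        simp
    intro s
    have : s ∈ T := by rw [hT]; trivial
    exact this
  -- the second marked subgroup maps onto the coinduced group of the restricted position
  let HD : Subgroup (O'.Z₁ × S) := O'.Z₂.comap π'
  let πD : HD →* O'.Z₂ := (π'.comp HD.subtype).codRestrict O'.Z₂ (fun a => a.2)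
  have hπDr : ∀ j : O'.Z₂, (j : O'.J) ∈ π'.range → j ∈ πD.range := by
    rintro ⟨j, hj⟩ ⟨a, ha⟩
    have ha' : π' a ∈ O'.Z₂ := by rw [ha]; exact hj
    refine ⟨⟨a, ha'⟩, ?_⟩
    apply Subtype.ext
    exact ha
  have hπDr' : ∀ j : O'.Z₂, j ∈ πD.range → (j : O'.J) ∈ π'.range := by
    rintro _ ⟨a, rfl⟩
    exact ⟨a, rfl⟩
  classical
  let eD : 𝒴.Z y₂ → HD := fun l => if h : π' (CoInd.ev π' l) ∈ O'.Z₂ then ⟨CoInd.ev π' l, h⟩
    else 1
  have heD : ∀ l : 𝒴.Z y₂, CoInd.p π' l ∈ π'.range → ((eD l : HD) : O'.Z₁ × S) =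
      CoInd.ev π' l := by
    intro l hl
    have h1 : π' (CoInd.ev π' l) ∈ O'.Z₂ := by
      rw [hfull'.lift _ hl]
      exact 𝒴.mem_Z_of_cov hy₂ l.2
    show ((dite _ _ _ : HD) : O'.Z₁ × S) = _
    rw [dif_pos h1]
  obtain ⟨pz, hpzs, hpz⟩ : ∃ pz : 𝒴.Z y₂ →* O'.Z₂, Surjective pz ∧
      ∀ z : 𝒴.Z y₂, ((pz z : O'.Z₂) : O'.J) = CoInd.p π' z :=
    ⟨𝒴.pZ hy₂, 𝒴.pZ_surjective hy₂, 𝒴.pZ_coe hy₂⟩
  have hLD : FullLift πD pz eD := by
    refine { mul := ?_, lift := ?_, surj := hpzs, ind := ?_ }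
    · intro a b ha hb
      have ha' : CoInd.p π' a ∈ π'.range := by rw [← hpz]; exact hπDr' _ ha
      have hb' : CoInd.p π' b ∈ π'.range := by rw [← hpz]; exact hπDr' _ hb
      apply Subtype.ext
      rw [heD (a * b), Subgroup.coe_mul, Subgroup.coe_mul, heD a ha', heD b hb']
      · exact hfull'.mul _ _ ha' hb'
      · rw [Subgroup.coe_mul, map_mul]
        exact Subgroup.mul_mem _ ha' hb'
    · intro a ha
      have ha' : CoInd.p π' a ∈ π'.range := by rw [← hpz]; exact hπDr' _ ha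
      apply Subtype.ext
      show π' ((eD a : HD) : O'.Z₁ × S) = _
      rw [heD a ha', hfull'.lift _ ha', hpz]
    · rintro ⟨⟨z, s⟩, hzs⟩ hh
      have hz1 : z = 1 := by
        apply Subtype.ext
        have h1 : ((πD ⟨(z, s), hzs⟩ : O'.Z₂) : O'.J) = ((1 : O'.Z₂) : O'.J) := by rw [hh]
        exact h1
      subst hz1
      obtain ⟨n, hn, hn1, hn2, hn3⟩ := hsingle s
      refine ⟨⟨n, hn⟩, ?_, ?_, ?_⟩
      · apply Subtype.ext
        rw [hpz]
        exact hn1
      · apply Subtype.ext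
        rw [heD ⟨n, hn⟩ (by show CoInd.p π' n ∈ _; rw [hn1]; exact Subgroup.one_mem _)]
        exact hn2
      · intro x hx
        apply Subtype.ext
        rw [heD]
        · apply hn3
          intro hx'
          apply hx
          exact hπDr _ (by rw [hpz]; exact hx')
        · show CoInd.p π' ((x : CoInd π')⁻¹ * n * x) ∈ _
          simp [hn1]
  obtain ⟨ΨD, hΨD1, hΨD2⟩ := exists_up hLD.toIsLift hLD.surj
  have hΨDs : Surjective ΨD := up_surjective hLD ΨD hΨD1 hΨD2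
  have hvD : Val C₂ πD := C₂.mem_of_surjective ΨD hΨDs hmy₂
  have hnsD : ¬ Surjective πD := by
    intro hs
    obtain ⟨z, hz2, hz1⟩ := hI'.exists₂
    obtain ⟨a, ha⟩ := hs ⟨z, hz2⟩
    apply hz1
    have h1 : π' a = z := congrArg Subtype.val ha
    rw [← h1]
    exact (a : O'.Z₁ × S).1.2
  have hvD1 : Val C₂ (1 : πD.ker →* O'.Z₂) := (val_iff_ker hC₂ hm₂ πD hnsD).mp hvD
  have hvD2 : Val C₂ (1 : S →* O'.Z₂) := by
    let d : πD.ker →* S := (MonoidHom.snd O'.Z₁ S).comp (HD.subtype.comp πD.ker.subtype)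
    refine (val_congr C₂ d ⟨?_, ?_⟩ ?_).mp hvD1
    · rw [injective_iff_map_eq_one]
      rintro ⟨⟨⟨z, s⟩, h1⟩, h2⟩ h3
      apply Subtype.ext
      apply Subtype.ext
      refine Prod.ext ?_ h3
      apply Subtype.ext
      have h4 : ((πD ⟨(z, s), h1⟩ : O'.Z₂) : O'.J) = ((1 : O'.Z₂) : O'.J) := by
        rw [MonoidHom.mem_ker.mp h2]
      exact h4
    · intro s
      refine ⟨⟨⟨(1, s), ?_⟩, ?_⟩, rfl⟩
      · show ((1 : O'.Z₁) : O'.J) ∈ O'.Z₂
        exact Subgroup.one_mem _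
      · apply Subtype.ext
        rfl
    · intro x; rfl
  have hΦ₂ : C₂.Phi S := ⟨O'.Z₂, inferInstance, hI'.nontrivial₂, hm₂, hvD2⟩
  -- transfer back to the first side
  obtain ⟨O'', g, hcov', hgood, hm₁', _⟩ := exists_nice hP O' hI' hm₁ hm₁ (MonoidHom.id O'.Z₁)
    surjective_id (n := Nat.card S) (Nat.card_pos (α := S)).ne'
  have hI'' : O''.Inc := Obj.Inc.cover hcov' hI'
  have hm₂' : C₂.mem O''.Z₂ := (hP O'' hI''.dom).mp hm₁'
  have := hI''.nontrivial₂
  have hv2 : Val C₂ (1 : S →* O''.Z₂) := Phi.val hC₂ hΦ₂ hm₂'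
  have hv1 : Val C₁ (1 : S →* O''.Z₁) := by
    refine (move_zero hP O'' hI'' (1 : S →* O''.Z₁) (1 : S →* O''.Z₂) (fun _ => rfl) ?_).mpr hv2
    have h1 : (1 : S →* O''.Z₁).ker = ⊤ := MonoidHom.ker_one
    rw [h1, Subgroup.card_top]
    exact hgood
  exact ⟨O''.Z₁, inferInstance, hI''.nontrivial₁, hm₁', hv1⟩

end Pool.Agent.Lib_helper5.Form
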