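import Pool.Agent.Lib_helper5.FormTopsA
import Pool.Agent.Lib_helper5.FormSplit

/-!
# Block TOPS-B: `unmoved`
-/

set_option maxHeartbeats 400000

namespace Pool.Agent.Lib_helper5.Form

open Function

/-- The kernel of a top of type `𝔑` of a residual is normal in the whole group. -/
theorem unmoved_ker_normal {C₁ : Formation}
    (hC₁ : ∀ (G : Type) [Group G], C₁.mem G → C₁.StarProp G)
    {G : Type} [Group G] [Finite G] (Q : Subgroup G) [hQn : Q.Normal] (hmem : C₁.mem (G ⧸ Q))
    (hres : ∀ (K : Type) [Group K] (f : G →* K), Surjective f → C₁.mem K → ∀ q ∈ Q, f q = 1)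
    {S : Type} [Group S] (hS : C₁.NN S) (θ : Q →* S)
    (hθ : Surjective θ) (T : Subgroup G) (hTQ : T ≤ Q) (hmemT : ∀ q : Q, (q : G) ∈ T ↔ θ q = 1) :
    T.Normal := by
  obtain ⟨hfin, hsimp, hna, hnm, hΦ⟩ := hS
  by_contra hnorm
  let U : Subgroup G := Subgroup.normalizer (T : Set G)
  have hTU : T ≤ U := Subgroup.le_normalizer
  have hU : U ≠ ⊤ := by
    intro h
    exact hnorm (Subgroup.normalizer_eq_top_iff.mp h)
  have hQU : Q ≤ U := by
    intro q hq
    rw [Subgroup.mem_normalizer_iff]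
    intro n
    have hconj : ∀ m : Q, ∀ n : Q, θ n = 1 → θ (m * n * m⁻¹) = 1 := by
      intro m n hn
      simp [hn]
    constructor
    · intro hn
      have h1 := (hmemT ⟨n, hTQ hn⟩).mp hn
      exact (hmemT (⟨q, hq⟩ * ⟨n, hTQ hn⟩ * ⟨q, hq⟩⁻¹)).mpr (hconj _ _ h1)
    · intro hn
      have h1 := (hmemT ⟨_, hTQ hn⟩).mp hn
      have h2 := (hmemT (⟨q, hq⟩⁻¹ * ⟨_, hTQ hn⟩ * (⟨q, hq⟩⁻¹)⁻¹)).mpr (hconj _ _ h1)
      have h3 : q⁻¹ * (q * n * q⁻¹) * (q⁻¹)⁻¹ = n := by group
      have h4 : q⁻¹ * (q * n * q⁻¹) * (q⁻¹)⁻¹ ∈ T := h2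
      rwa [h3] at h4
  -- the position
  let T' : Subgroup U := T.subgroupOf U
  have hT'n : T'.Normal := by
    constructor
    intro n hn g
    have h1 := (Subgroup.mem_normalizer_iff.mp g.2 n).mp hn
    exact h1
  let π : U ⧸ T' →* G ⧸ Q := QuotientGroup.lift T' ((QuotientGroup.mk' Q).comp U.subtype) (by
    intro x hx
    have : (x : G) ∈ Q := hTQ hx
    exact (QuotientGroup.eq_one_iff (N := Q) (x : G)).mpr this)
  have hπmk : ∀ u : U, π (QuotientGroup.mk u) = QuotientGroup.mk (u : G) := fun u => rfl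
  have hπr : ∀ g : G, QuotientGroup.mk' Q g ∈ π.range ↔ g ∈ U := by
    intro g
    constructor
    · rintro ⟨a, ha⟩
      induction a using QuotientGroup.induction_on with
      | H a =>
        rw [hπmk] at ha
        have h1 : (QuotientGroup.mk (a : G) : G ⧸ Q) = QuotientGroup.mk g := ha
        rw [QuotientGroup.eq] at h1
        have h2 : (a : G) * ((a : G)⁻¹ * g) ∈ U := U.mul_mem a.2 (hQU h1)
        simpa using h2
    · intro hg
      exact ⟨QuotientGroup.mk ⟨g, hg⟩, rfl⟩
  classical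
  let e : G → U ⧸ T' := fun g => if h : g ∈ U then QuotientGroup.mk ⟨g, h⟩ else 1
  have he : ∀ (g : G) (h : g ∈ U), e g = QuotientGroup.mk ⟨g, h⟩ := by
    intro g h
    show dite _ _ _ = _
    rw [dif_pos h]
  have hL : FullLift π (QuotientGroup.mk' Q) e := by
    refine { mul := ?_, lift := ?_, surj := QuotientGroup.mk'_surjective Q, ind := ?_ }
    · intro a b ha hb
      rw [hπr] at ha hb
      rw [he a ha, he b hb, he _ (U.mul_mem ha hb)]
      rfl
    · intro a ha
      rw [hπr] at ha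
      rw [he a ha]
      rfl
    · intro h hh
      induction h using QuotientGroup.induction_on with
      | H a =>
        have haQ : (a : G) ∈ Q := by
          rw [hπmk] at hh
          exact (QuotientGroup.eq_one_iff (N := Q) (a : G)).mp hh
        let ι : Type := {x : G // x ∉ U}
        let N : ι → Subgroup Q := fun x =>
          { carrier := {q | (x : G)⁻¹ * q * (x : G) ∈ T}
            mul_mem' := by
              intro p q hp hq
              have := T.mul_mem hp hq
              have h1 : (x : G)⁻¹ * p * (x : G) * ((x : G)⁻¹ * q * (x : G)) =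
                (x : G)⁻¹ * (p * q : G) * (x : G) := by group
              rw [h1] at this
              exact this
            one_mem' := by
              show (x : G)⁻¹ * ((1 : Q) : G) * (x : G) ∈ T
              simp
            inv_mem' := by
              intro q hq
              have := T.inv_mem hq
              have h1 : ((x : G)⁻¹ * q * (x : G))⁻¹ = (x : G)⁻¹ * (q : G)⁻¹ * (x : G) := by group
              rw [h1] at this
              exact this }
        have hN : ∀ x, (N x).Normal := by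
          intro x
          constructor
          intro n hn g
          show (x : G)⁻¹ * ((g * n * g⁻¹ : Q) : G) * (x : G) ∈ T
          have hn' : (x : G)⁻¹ * n * (x : G) ∈ T := hn
          have hg : (x : G)⁻¹ * g * (x : G) ∈ Q := by
            have := hQn.conj_mem g g.2 (x : G)⁻¹
            simpa using this
          have h1 := (Subgroup.mem_normalizer_iff.mp (hQU hg) _).mp hn'
          have h2 : (x : G)⁻¹ * g * (x : G) * ((x : G)⁻¹ * n * (x : G)) *
              ((x : G)⁻¹ * g * (x : G))⁻¹ = (x : G)⁻¹ * ((g : G) * n * (g : G)⁻¹) * (x : G) := by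
            group
          rw [h2] at h1
          exact h1
        have hex : ∀ x, ∃ n ∈ N x, θ n ≠ 1 := by
          intro x
          by_contra hcon
          push Not at hcon
          apply x.2
          -- `x T x⁻¹ ≤ T`, hence equality
          have h1 : ∀ t ∈ T, (x : G) * t * (x : G)⁻¹ ∈ T := by
            intro t ht
            have hq : (x : G) * t * (x : G)⁻¹ ∈ Q := hQn.conj_mem t (hTQ ht) x
            have h2 := hcon ⟨_, hq⟩ (by
              show (x : G)⁻¹ * ((x : G) * t * (x : G)⁻¹) * (x : G) ∈ T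
              have h3 : (x : G)⁻¹ * ((x : G) * t * (x : G)⁻¹) * (x : G) = t := by group
              rwa [h3])
            exact (hmemT ⟨_, hq⟩).mpr h2
          rw [Subgroup.mem_normalizer_iff]
          intro h
          refine ⟨h1 h, fun hh => ?_⟩
          let c : T → T := fun t => ⟨(x : G) * t * (x : G)⁻¹, h1 t t.2⟩
          have hc : Injective c := by
            intro s t hst
            have h4 : (x : G) * s * (x : G)⁻¹ = (x : G) * t * (x : G)⁻¹ :=
              congrArg Subtype.val hst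
            apply Subtype.ext
            simpa using h4
          obtain ⟨t, ht⟩ := (Finite.surjective_of_injective hc) ⟨_, hh⟩
          have h4 : (x : G) * t * (x : G)⁻¹ = (x : G) * h * (x : G)⁻¹ := congrArg Subtype.val ht
          have h5 : (t : G) = h := by simpa using h4
          rw [← h5]
          exact t.2
        obtain ⟨n, hn1, hn2⟩ := exists_common hna N hN θ hθ hex (θ ⟨a, haQ⟩)
        refine ⟨n, ?_, ?_, ?_⟩
        · exact (QuotientGroup.eq_one_iff (N := Q) (n : G)).mpr n.2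
        · rw [he _ (hQU n.2), QuotientGroup.eq]
          show ((n : G)⁻¹ * (a : G)) ∈ T
          have h1 := (hmemT (n⁻¹ * ⟨a, haQ⟩)).mpr (by rw [map_mul, map_inv, hn2]; simp)
          exact h1
        · intro x hx
          rw [hπr] at hx
          have h1 : x⁻¹ * (n : G) * x ∈ T := hn1 ⟨x, hx⟩
          rw [he _ (hTU h1)]
          exact (QuotientGroup.eq_one_iff (N := T') _).mpr h1
  have hns : ¬ Surjective π := by
    intro hs
    apply hU
    rw [eq_top_iff]
    intro g _
    rw [← hπr g]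
    exact hs _
  have hnt : Nontrivial (G ⧸ Q) := by
    by_contra hcon
    rw [not_nontrivial_iff_subsingleton] at hcon
    exact hns (fun b => ⟨1, Subsingleton.elim _ _⟩)
  have hv1 : Val C₁ (1 : S →* G ⧸ Q) := Phi.val hC₁ hΦ hmem
  have hv2 : Val C₁ (1 : π.ker →* G ⧸ Q) := by
    let j : Q →* π.ker :=
      { toFun := fun q => ⟨QuotientGroup.mk ⟨q, hQU q.2⟩, by
          rw [MonoidHom.mem_ker, hπmk]
          exact (QuotientGroup.eq_one_iff (N := Q) (q : G)).mpr q.2⟩
        map_one' := rfl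
        map_mul' := fun a b => rfl }
    obtain ⟨d, hd⟩ := Form.exists_lift θ hθ j (by
      intro q hq
      apply Subtype.ext
      exact (QuotientGroup.eq_one_iff (N := T') _).mpr ((hmemT q).mpr hq))
    refine (val_congr C₁ d ⟨?_, ?_⟩ ?_).mp hv1
    · rw [injective_iff_map_eq_one]
      intro s hs
      obtain ⟨q, rfl⟩ := hθ s
      rw [hd] at hs
      have h1 : (QuotientGroup.mk (⟨q, hQU q.2⟩ : U) : U ⧸ T') = 1 := congrArg Subtype.val hs
      rw [QuotientGroup.eq_one_iff] at h1
      exact (hmemT q).mp h1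
    · rintro ⟨a, ha⟩
      induction a using QuotientGroup.induction_on with
      | H a =>
        have haQ : (a : G) ∈ Q := by
          rw [MonoidHom.mem_ker, hπmk] at ha
          exact (QuotientGroup.eq_one_iff (N := Q) (a : G)).mp ha
        refine ⟨θ ⟨a, haQ⟩, ?_⟩
        rw [hd]
        rfl
    · intro x; rfl
  have hv3 : Val C₁ π := (val_iff_ker hC₁ hmem π hns).mpr hv2
  obtain ⟨Ψ, hΨ1, hΨ2⟩ := exists_up hL.toIsLift hL.surj
  have hΨs : Surjective Ψ := up_surjective hL Ψ hΨ1 hΨ2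
  obtain ⟨s, hs⟩ := exists_ne (1 : S)
  obtain ⟨q, hq⟩ := hθ s
  apply hs
  have h1 := hres _ Ψ hΨs hv3 q q.2
  rw [up_eq_one hL.toIsLift hL.surj Ψ hΨ1 hΨ2] at h1
  have h2 := h1.2 1
  rw [inv_one, one_mul, mul_one, he _ (hQU q.2), QuotientGroup.eq_one_iff] at h2
  rw [← hq]
  exact (hmemT q).mp h2

theorem unmoved {𝒳 𝒴 : MarkSys} {C₁ C₂ : Formation} (hP : IsPair 𝒳 𝒴 C₁ C₂)
    (hC₁ : ∀ (G : Type) [Group G], C₁.mem G → C₁.StarProp G)
    (hex : ∃ O : Obj 𝒳 𝒴, O.Inc)
    {G : Type} [Group G] [Finite G] {S : Type} [Group S] (hS : C₁.NN S) (θ : C₁.res G →* S)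
    (hθ : Surjective θ) : ∃ θ' : G →* S, ∀ u : C₁.res G, θ' u = θ u := by
  have hQn : (C₁.res G).Normal := inferInstance
  have hmem : C₁.mem (G ⧸ C₁.res G) := C₁.mem_quotient_res G
  have hres : ∀ (K : Type) [Group K] (f : G →* K), Surjective f → C₁.mem K →
      ∀ q ∈ C₁.res G, f q = 1 := fun K _ f hf hK q hq => C₁.res_le_ker f hf hK hq
  generalize C₁.res G = Q at *
  let T : Subgroup G := θ.ker.map Q.subtype
  have hTQ : T ≤ Q := by
    rintro _ ⟨q, _, rfl⟩
    exact q.2
  have hmemT : ∀ q : Q, (q : G) ∈ T ↔ θ q = 1 := by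
    intro q
    constructor
    · rintro ⟨q', hq', heq⟩
      have : q' = q := Subtype.ext heq
      subst this
      exact hq'
    · intro h
      exact ⟨q, h, rfl⟩
  have hTn : T.Normal := unmoved_ker_normal hC₁ Q hmem hres hS θ hθ T hTQ hmemT
  obtain ⟨hfin, hsimp, hna, hnm, hΦ⟩ := hS
  have hcenter : ∀ s : S, (∀ t, s * t = t * s) → s = 1 := by
    intro s hs
    have h1 : s ∈ Subgroup.center S := by
      rw [Subgroup.mem_center_iff]
      intro t
      exact (hs t).symm
    rcases (inferInstance : (Subgroup.center S).Normal).eq_bot_or_eq_top with h | h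
    · rw [h] at h1
      exact h1
    · exfalso
      obtain ⟨a, b, hab⟩ := hna
      apply hab
      have ha : a ∈ Subgroup.center S := by rw [h]; trivial
      exact ((Subgroup.mem_center_iff.mp ha) b).symm
  by_cases hinner : ∀ a : G, ∃ s : S, ∀ u : Q,
      θ ⟨a * u * a⁻¹, hQn.conj_mem u u.2 a⟩ = s * θ u * s⁻¹
  · exact exists_ext Q θ hθ hcenter hinner
  exfalso
  push Not at hinner
  obtain ⟨a₀, ha₀⟩ := hinner
  obtain ⟨O₀, hI₀, hm₀, _⟩ := exists_inc_mem hP hex
  have hK : C₁.mem (O₀.Z₁ × (G ⧸ Q)) := C₁.mem_of_subdirect (MonoidHom.fst _ _)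
    (MonoidHom.snd _ _) Prod.fst_surjective Prod.snd_surjective (fun x h1 h2 => Prod.ext h1 h2)
    hm₀ hmem
  obtain ⟨O, f, hcov, hgood, hm₁, h, hh, _⟩ := exists_nice hP O₀ hI₀ hm₀ hK
    (MonoidHom.fst O₀.Z₁ (G ⧸ Q)) Prod.fst_surjective (n := Nat.card S)
    (Nat.card_pos (α := S)).ne'
  have hI : O.Inc := Obj.Inc.cover hcov hI₀
  have := O.instFinite
  have := hI.nontrivial₁
  let g : O.Z₁ →* G ⧸ Q := (MonoidHom.snd _ _).comp h
  have hg : Surjective g := Prod.snd_surjective.comp hh
  -- the fibre product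
  let r : G ⧸ T →* G ⧸ Q := QuotientGroup.map T Q (MonoidHom.id G) hTQ
  have hr : ∀ a : G, r (QuotientGroup.mk a) = QuotientGroup.mk a := fun a => rfl
  let H : Subgroup ((G ⧸ T) × O.Z₁) :=
    (r.comp (MonoidHom.fst (G ⧸ T) O.Z₁)).eqLocus (g.comp (MonoidHom.snd (G ⧸ T) O.Z₁))
  have hH : ∀ a z, (a, z) ∈ H ↔ r a = g z := fun a z => Iff.rfl
  let π : H →* O.Z₁ := (MonoidHom.snd (G ⧸ T) O.Z₁).comp H.subtype
  have hπ : Surjective π := by
    intro z
    obtain ⟨a, ha⟩ := QuotientGroup.mk'_surjective Q (g z)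
    exact ⟨⟨(QuotientGroup.mk a, z), ha⟩, rfl⟩
  -- the kernel is isomorphic to `S`
  let j : Q →* H :=
    { toFun := fun q => ⟨(QuotientGroup.mk (q : G), 1), by
        rw [hH, hr, map_one]
        exact (QuotientGroup.eq_one_iff (N := Q) (q : G)).mpr q.2⟩
      map_one' := rfl
      map_mul' := fun a b => by
        apply Subtype.ext
        refine Prod.ext rfl ?_
        exact (one_mul _).symm }
  obtain ⟨d, hd⟩ := Form.exists_lift θ hθ j (by
      intro q hq
      apply Subtype.ext
      refine Prod.ext ?_ rfl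
      exact (QuotientGroup.eq_one_iff (N := T) _).mpr ((hmemT q).mpr hq))
  have hdinj : Injective d := by
    rw [injective_iff_map_eq_one]
    intro s hs
    obtain ⟨q, rfl⟩ := hθ s
    rw [hd] at hs
    have h1 : (QuotientGroup.mk (q : G) : G ⧸ T) = 1 :=
      congrArg (fun x : H => (x : (G ⧸ T) × O.Z₁).1) hs
    rw [QuotientGroup.eq_one_iff] at h1
    exact (hmemT q).mp h1
  have hdker : ∀ x : H, π x = 1 → ∃ s, d s = x := by
    rintro ⟨⟨a, z⟩, hx⟩ hz
    have hz1 : z = 1 := hz
    subst hz1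
    induction a using QuotientGroup.induction_on with
    | H a =>
      have haQ : a ∈ Q := by
        rw [hH, hr, map_one] at hx
        exact (QuotientGroup.eq_one_iff (N := Q) a).mp hx
      refine ⟨θ ⟨a, haQ⟩, ?_⟩
      rw [hd]
      rfl
  have hdπ : ∀ s, π (d s) = 1 := by
    intro s
    obtain ⟨q, rfl⟩ := hθ s
    rw [hd]
    rfl
  have hcard : Nat.card π.ker = Nat.card S := by
    let d' : S →* π.ker := d.codRestrict π.ker hdπ
    symm
    refine Nat.card_congr (Equiv.ofBijective d' ⟨?_, ?_⟩)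
    · intro a b hab
      exact hdinj (congrArg Subtype.val hab)
    · rintro ⟨x, hx⟩
      obtain ⟨s, hs⟩ := hdker x hx
      exact ⟨s, Subtype.ext hs⟩
  -- conjugation
  have hconj : ∀ (a : G) (x : H), (x : (G ⧸ T) × O.Z₁).1 = QuotientGroup.mk a → ∀ u : Q,
      x * d (θ u) * x⁻¹ = d (θ ⟨a * u * a⁻¹, hQn.conj_mem u u.2 a⟩) := by
    rintro a ⟨⟨b, z⟩, hx⟩ hb u
    have hb' : b = QuotientGroup.mk a := hb
    subst hb'
    rw [hd, hd]
    apply Subtype.ext
    refine Prod.ext rfl ?_
    show z * 1 * z⁻¹ = 1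
    group
  have hmove := move_one hP O hI π (by rw [hcard]; exact hgood) (by
    intro _ y _ S' _ _ hna' θ' hθ' _
    by_contra hcon
    push Not at hcon
    obtain ⟨k, hk, hk'⟩ := hcon
    -- `θ' ∘ d : S → S'` is an isomorphism
    have hinj' : Injective (θ'.comp d) := by
      rw [← MonoidHom.ker_eq_bot_iff]
      rcases (inferInstance : (θ'.comp d).ker.Normal).eq_bot_or_eq_top with h | h
      · exact h
      · exfalso
        obtain ⟨s, rfl⟩ := hdker k hk
        apply hk'
        have : s ∈ (θ'.comp d).ker := by rw [h]; trivial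
        exact this
    obtain ⟨z, hz⟩ := hg (QuotientGroup.mk a₀)
    let x : H := ⟨(QuotientGroup.mk a₀, z), hz.symm⟩
    obtain ⟨k', hk1, hk2⟩ := exists_ker_eq π θ' hθ' ⟨k, hk, hk'⟩ (θ' x)
    obtain ⟨s, rfl⟩ := hdker k' hk1
    obtain ⟨u, hu⟩ := ha₀ s
    apply hu
    apply hinj'
    show θ' (d _) = θ' (d _)
    rw [← hconj a₀ x rfl u, map_mul, map_mul, map_inv, ← hk2]
    simp)
  have hHs : C₁.mem H := by
    rw [← val_surjective C₁ hπ, hmove]
    set D : Subgroup H := O.Z₂.comap (O.Z₁.subtype.comp π) with hD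
    have hns : ¬ Surjective (π.comp D.subtype) := by
      intro hs
      obtain ⟨z, hz1, hz2⟩ := hI.exists₁
      obtain ⟨⟨a, ha⟩, ha'⟩ := hs ⟨z, hz1⟩
      apply hz2
      have h1 : π a = ⟨z, hz1⟩ := ha'
      have h2 : ((π a : O.Z₁) : O.J) ∈ O.Z₂ := ha
      rw [h1] at h2
      exact h2
    rw [val_iff_ker hC₁ hm₁ _ hns]
    have hv : Val C₁ (1 : S →* O.Z₁) := Phi.val hC₁ hΦ hm₁
    have hdD : ∀ s, d s ∈ D := by
      intro s
      show ((π (d s) : O.Z₁) : O.J) ∈ O.Z₂
      rw [hdπ]
      exact Subgroup.one_mem _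
    let d' : S →* (π.comp D.subtype).ker :=
      (d.codRestrict D hdD).codRestrict (π.comp D.subtype).ker hdπ
    refine (val_congr C₁ d' ⟨?_, ?_⟩ ?_).mp hv
    · intro a b hab
      apply hdinj
      exact congrArg (fun x : (π.comp D.subtype).ker => ((x : D) : H)) hab
    · rintro ⟨⟨x, hx1⟩, hx2⟩
      obtain ⟨s, hs⟩ := hdker x hx2
      refine ⟨s, ?_⟩
      apply Subtype.ext
      apply Subtype.ext
      exact hs
    · intro x; rfl
  have hGT : C₁.mem (G ⧸ T) := by
    refine C₁.mem_of_surjective ((MonoidHom.fst (G ⧸ T) O.Z₁).comp H.subtype) ?_ hHs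
    intro a
    obtain ⟨z, hz⟩ := hg (r a)
    exact ⟨⟨(a, z), hz.symm⟩, rfl⟩
  obtain ⟨s, hs⟩ := exists_ne (1 : S)
  obtain ⟨q, hq⟩ := hθ s
  apply hs
  have h1 := hres _ (QuotientGroup.mk' T) (QuotientGroup.mk'_surjective T) hGT q q.2
  have h2 : (q : G) ∈ T := (QuotientGroup.eq_one_iff (N := T) (q : G)).mp h1
  rw [← hq]
  exact (hmemT q).mp h2

end Pool.Agent.Lib_helper5.Form
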