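import Pool.Agent.Lib_helper5.FormDS

/-!
# The absorption theorem for classes of triples
-/

set_option maxHeartbeats 400000

namespace Pool.Agent.Lib_helper5.Form

open Function

namespace CD

variable {G K H Q : Type} [Group G] [Group K] [Group H] [Group Q]

/-- A core-free coinduction: a normal subgroup over `M` is a subdirect product of normal subgroups
of `H`. -/
theorem mem_of_core (D : CD G K H Q) [Finite G] [Finite K] [Finite H] {A : Formation}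
    (hA : A.NormallyHereditary) (hH : A.mem H) (hg : Surjective D.g)
    (hcore : ∀ m : D.M, (∀ x : G, D.g ⟨x⁻¹ * m * x, D.conj_mem m.2 x⟩ = 1) → m = 1)
    (R : Subgroup D.Γ) (hRn : R.Normal) (hR : ∀ w ∈ R, D.p w ∈ D.M) : A.mem R := by
  refine A.mem_of_family (fun k => (D.ev R hR k).rangeRestrict)
    (fun k => MonoidHom.rangeRestrict_surjective _) ?_ ?_
  · intro w hw
    exact D.ev_inj hcore R hR w (fun k => congrArg Subtype.val (hw k))
  · intro k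
    exact hA _ _ (D.ev_range_normal hg R hRn hR k) hH

/-- Adding a factor `P` to the base. -/
def withFactor (D : CD G K H Q) (P : Type) [Group P] : CD (P × G) (P × K) H Q where
  κ := (MonoidHom.id P).prodMap D.κ
  t k := (k.1, D.t k.2)
  ht k := by
    apply Prod.ext
    · rfl
    · exact D.ht k.2
  q := D.q
  hq := D.hq
  M := (⊥ : Subgroup P).prod D.M
  hM x := by
    rw [Subgroup.mem_prod, Prod.ext_iff]
    exact and_congr Subgroup.mem_bot (D.hM x.2)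
  g :=
    { toFun := fun m => D.g ⟨m.1.2, m.2.2⟩
      map_one' := D.g.map_one
      map_mul' := fun a b => D.g.map_mul ⟨a.1.2, a.2.2⟩ ⟨b.1.2, b.2.2⟩ }

theorem withFactor_g_surjective (D : CD G K H Q) (P : Type) [Group P] (hg : Surjective D.g) :
    Surjective (D.withFactor P).g := by
  intro y
  obtain ⟨m, hm⟩ := hg y
  exact ⟨⟨(1, m), ⟨rfl, m.2⟩⟩, hm⟩

theorem withFactor_core (D : CD G K H Q) (P : Type) [Group P]
    (hcore : ∀ m : D.M, (∀ x : G, D.g ⟨x⁻¹ * m * x, D.conj_mem m.2 x⟩ = 1) → m = 1) :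
    ∀ m : (D.withFactor P).M,
      (∀ x : P × G, (D.withFactor P).g ⟨x⁻¹ * m * x, (D.withFactor P).conj_mem m.2 x⟩ = 1) →
        m = 1 := by
  rintro ⟨⟨m1, m2⟩, hm⟩ h
  obtain ⟨h1, h2⟩ := hm
  have h1' : m1 = 1 := h1
  subst h1'
  have h3 : (⟨m2, h2⟩ : D.M) = 1 := by
    apply hcore
    intro x
    exact h (1, x)
  have h4 : m2 = 1 := congrArg Subtype.val h3
  apply Subtype.ext
  exact Prod.ext rfl h4

/-- The slice of a coinduced group over `P × G`. -/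
theorem slice_mem (D : CD G K H Q) (P : Type) [Group P] (w : Wr (D.withFactor P).κ H)
    (hw : w ∈ (D.withFactor P).Γ) (a : P) :
    (⟨fun k => w.f (a, k), w.x.2⟩ : Wr D.κ H) ∈ D.Γ := by
  rw [mem_Γ] at hw ⊢
  intro k
  exact hw (a, k)

/-- **Square trick**, abstract form. -/
theorem mem_of_square (D : CD G K H Q) [Finite G] [Finite K] [Finite H] {A : Formation}
    (hA : A.NormallyHereditary) (P : Type) [Group P] [Finite P] (N : Subgroup P) (hN : N ≠ ⊥)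
    (S : Subgroup G) [hS : S.Normal]
    (R : Subgroup (D.withFactor P).Γ) (hRn : R.Normal)
    (hR : R.map (D.withFactor P).p = N.prod S) (hAR : A.mem R) : A.mem (S.comap D.p) := by
  classical
  let D' := D.withFactor P
  -- the subgroup of elements of `R` over `1 × S`
  let W : Subgroup R := (((⊥ : Subgroup P).prod S).comap D'.p).subgroupOf R
  have hW : ∀ w : R, w ∈ W ↔ (D'.p w).1 = 1 ∧ (D'.p w).2 ∈ S := by
    intro w
    exact Iff.rfl
  have hWn : W.Normal := by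
    have h1 : ((⊥ : Subgroup P).prod S).Normal := inferInstance
    have h2 : (((⊥ : Subgroup P).prod S).comap D'.p).Normal := Subgroup.Normal.comap h1 D'.p
    exact Subgroup.Normal.subgroupOf h2 R
  have hAW : A.mem W := hA _ _ hWn hAR
  have hslice : ∀ w : W, (⟨fun k => (w : R).1.1.f (1, k), (D'.p w).2⟩ : Wr D.κ H) ∈ D.Γ := by
    intro w
    exact D.slice_mem P w.1.1.1 w.1.1.2 1
  let σ : W →* S.comap D.p :=
    { toFun := fun w => ⟨⟨_, hslice w⟩, ((hW w.1).mp w.2).2⟩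
      map_one' := rfl
      map_mul' := by
        intro a b
        apply Subtype.ext
        apply Subtype.ext
        apply Wr.ext
        · funext k
          have h1 : (D'.p a.1.1).1 = 1 := ((hW a.1).mp a.2).1
          change a.1.1.1.f (1, k) * b.1.1.1.f ((D'.κ (D'.p a.1.1))⁻¹ * (1, k)) =
            a.1.1.1.f (1, k) * b.1.1.1.f (1, (D.κ (D'.p a.1.1).2)⁻¹ * k)
          congr 2
          apply Prod.ext
          · change ((D'.p a.1.1).1)⁻¹ * 1 = 1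
            rw [h1]
            simp
          · rfl
        · rfl }
  refine A.mem_of_surjective σ ?_ hAW
  -- elements over the identity
  have key : ∀ f₀ : K → H, (∀ k, D.q (f₀ k) = 1) → ∃ w : W, D'.p w = 1 ∧
      ∀ k, (w : R).1.1.f (1, k) = f₀ k := by
    intro f₀ hf₀
    obtain ⟨n, hn, hn1⟩ : ∃ n ∈ N, n ≠ 1 := by
      by_contra hcon
      push Not at hcon
      exact hN ((Subgroup.eq_bot_iff_forall N).mpr hcon)
    obtain ⟨δ, hδ, hδ'⟩ : ((n, 1) : P × G) ∈ R.map D'.p := by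
      rw [hR]
      exact ⟨hn, S.one_mem⟩
    let τ : D'.Γ := ⟨⟨fun k => if k.1 = 1 then f₀ k.2 else 1, 1⟩, by
      rw [mem_Γ]
      intro k
      have h1 : (⟨(D'.t k)⁻¹ * 1 * D'.t ((D'.κ 1)⁻¹ * k), D'.aux_mem 1 k⟩ : D'.M) = 1 := by
        apply Subtype.ext
        simp
      rw [h1, map_one]
      change D.q (if k.1 = 1 then f₀ k.2 else 1) = 1
      by_cases hk : k.1 = 1
      · simp [hk, hf₀]
      · simp [hk]⟩
    have hw : τ * δ * τ⁻¹ * δ⁻¹ ∈ R := R.mul_mem (hRn.conj_mem δ hδ τ) (R.inv_mem hδ)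
    have hp : D'.p (τ * δ * τ⁻¹ * δ⁻¹) = 1 := by
      have : D'.p τ = 1 := rfl
      simp [this]
    refine ⟨⟨⟨_, hw⟩, ?_⟩, hp, ?_⟩
    · rw [hW, hp]
      exact ⟨rfl, S.one_mem⟩
    · intro k
      have hτ : ∀ j, τ.1.f j = if j.1 = 1 then f₀ j.2 else 1 := fun _ => rfl
      have hτx : τ.1.x = 1 := rfl
      have hδx : δ.1.x = (n, 1) := hδ'
      have e1 : (τ * δ * τ⁻¹ * δ⁻¹ : D'.Γ).1 = τ.1 * δ.1 * τ.1⁻¹ * δ.1⁻¹ := rfl
      change (τ * δ * τ⁻¹ * δ⁻¹ : D'.Γ).1.f (1, k) = _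
      rw [e1]
      simp only [Wr.mul_f, Wr.inv_f, Wr.inv_x, hτx, map_one, inv_one, one_mul,
        mul_inv_cancel_left, mul_assoc]
      rw [hτ, hτ]
      have h2 : ((D'.κ δ.1.x)⁻¹ * (1, k)).1 ≠ 1 := by
        rw [hδx]
        change n⁻¹ * 1 ≠ 1
        simpa using hn1
      rw [if_pos rfl, if_neg h2]
      simp
  rintro ⟨v, hv⟩
  obtain ⟨w₀, hw₀, hw₀'⟩ : ((1, D.p v) : P × G) ∈ R.map D'.p := by
    rw [hR]
    exact ⟨N.one_mem, hv⟩
  have hw₀W : (⟨w₀, hw₀⟩ : R) ∈ W := by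
    rw [hW]
    change (D'.p w₀).1 = 1 ∧ (D'.p w₀).2 ∈ S
    rw [hw₀']
    exact ⟨rfl, hv⟩
  let v₀ := σ ⟨⟨w₀, hw₀⟩, hw₀W⟩
  have hv₀ : D.p v₀.1 = D.p v := by
    change (D'.p w₀).2 = _
    rw [hw₀']
  have hvv : D.p (v * v₀.1⁻¹) = 1 := by
    rw [map_mul, map_inv, hv₀, mul_inv_cancel]
  obtain ⟨w₁, hw₁, hw₁'⟩ := key (fun k => (v * v₀.1⁻¹).1.f k) (by
    intro k
    rw [D.q_f]
    have h1 : (⟨(D.t k)⁻¹ * D.p (v * v₀.1⁻¹) * D.t ((D.κ (D.p (v * v₀.1⁻¹)))⁻¹ * k),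
        D.aux_mem (D.p (v * v₀.1⁻¹)) k⟩ : D.M) = 1 := by
      apply Subtype.ext
      simp [hvv]
    rw [h1, map_one])
  refine ⟨w₁ * ⟨⟨w₀, hw₀⟩, hw₀W⟩, ?_⟩
  rw [map_mul]
  have h2 : σ w₁ = ⟨v * v₀.1⁻¹, by rw [Subgroup.mem_comap, hvv]; exact S.one_mem⟩ := by
    apply Subtype.ext
    apply Subtype.ext
    apply Wr.ext
    · funext k
      exact hw₁' k
    · change (D'.p w₁.1.1).2 = D.p (v * v₀.1⁻¹)
      rw [hw₁, hvv]
      rfl
  rw [h2]
  apply Subtype.ext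
  change v * v₀.1⁻¹ * v₀.1 = v
  simp

/-- The join of two coinduction data on a product base. -/
def join {G₁ K₁ Q₁ G₂ K₂ Q₂ : Type} [Group G₁] [Group K₁] [Group Q₁] [Group G₂] [Group K₂]
    [Group Q₂] (D₁ : CD G₁ K₁ H Q₁) (D₂ : CD G₂ K₂ H Q₂) (hq : Surjective (D₁.q.prod D₂.q)) :
    CD (G₁ × G₂) (K₁ × K₂) H (Q₁ × Q₂) where
  κ := D₁.κ.prodMap D₂.κ
  t k := (D₁.t k.1, D₂.t k.2)
  ht k := Prod.ext (D₁.ht k.1) (D₂.ht k.2)
  q := D₁.q.prod D₂.q
  hq := hq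
  M := D₁.M.prod D₂.M
  hM x := by
    rw [Subgroup.mem_prod, Prod.ext_iff]
    exact and_congr (D₁.hM x.1) (D₂.hM x.2)
  g :=
    { toFun := fun m => (D₁.g ⟨m.1.1, m.2.1⟩, D₂.g ⟨m.1.2, m.2.2⟩)
      map_one' := Prod.ext D₁.g.map_one D₂.g.map_one
      map_mul' := fun a b => Prod.ext (D₁.g.map_mul ⟨a.1.1, a.2.1⟩ ⟨b.1.1, b.2.1⟩)
        (D₂.g.map_mul ⟨a.1.2, a.2.2⟩ ⟨b.1.2, b.2.2⟩) }

/-- Restriction of the covering group to a subgroup. -/
def restrict (D : CD G K H Q) (T : Subgroup H) (hT : Surjective (D.q.comp T.subtype)) :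
    CD G K T Q where
  κ := D.κ
  t := D.t
  ht := D.ht
  q := D.q.comp T.subtype
  hq := hT
  M := D.M
  hM := D.hM
  g := D.g

/-- Normal subgroups over `1 × S` of the join are subdirect products of normal subgroups of the
preimage of `S` in the restricted coinduction. -/
theorem mem_of_join {G₁ K₁ Q₁ G₂ K₂ Q₂ : Type} [Group G₁] [Group K₁] [Group Q₁] [Group G₂]
    [Group K₂] [Group Q₂] [Finite G₁] [Finite K₁] [Finite G₂] [Finite K₂] [Finite H]
    (D₁ : CD G₁ K₁ H Q₁) (D₂ : CD G₂ K₂ H Q₂)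
    (hq : Surjective (D₁.q.prod D₂.q)) (hT : Surjective (D₂.q.comp D₁.q.ker.subtype))
    {A : Formation} (hA : A.NormallyHereditary) (S : Subgroup G₂)
    (R : Subgroup (D₁.join D₂ hq).Γ) (hRn : R.Normal)
    (hR : R ≤ ((⊥ : Subgroup G₁).prod S).comap (D₁.join D₂ hq).p)
    (hS : A.mem (S.comap (D₂.restrict D₁.q.ker hT).p)) : A.mem R := by
  let D := D₁.join D₂ hq
  let DT := D₂.restrict D₁.q.ker hT
  let P : Subgroup D.Γ := ((⊥ : Subgroup G₁).prod S).comap D.p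
  have hP : ∀ w : P, (D.p w.1).1 = 1 ∧ (D.p w.1).2 ∈ S := fun w => w.2
  have h1 : ∀ (w : P) (a : K₁) (k : K₂), D₁.q (w.1.1.f (a, k)) = 1 := by
    intro w a k
    have h2 := D.q_f w.1 (a, k)
    have h3 := congrArg Prod.fst h2
    refine h3.trans ?_
    change D₁.g ⟨(D₁.t a)⁻¹ * (D.p w.1).1 * D₁.t ((D₁.κ (D.p w.1).1)⁻¹ * a), _⟩ = 1
    have h4 : (⟨(D₁.t a)⁻¹ * (D.p w.1).1 * D₁.t ((D₁.κ (D.p w.1).1)⁻¹ * a),
        D₁.aux_mem (D.p w.1).1 a⟩ : D₁.M) = 1 := by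
      apply Subtype.ext
      simp [(hP w).1]
    rw [h4, map_one]
  have h2 : ∀ (w : P) (a : K₁), (⟨fun k => ⟨w.1.1.f (a, k), h1 w a k⟩, (D.p w.1).2⟩ :
      Wr DT.κ D₁.q.ker) ∈ DT.Γ := by
    intro w a
    rw [mem_Γ]
    intro k
    exact congrArg Prod.snd (D.q_f w.1 (a, k))
  let ρ : K₁ → P →* S.comap DT.p := fun a =>
    { toFun := fun w => ⟨⟨_, h2 w a⟩, (hP w).2⟩
      map_one' := rfl
      map_mul' := by
        intro x y
        apply Subtype.ext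
        apply Subtype.ext
        apply Wr.ext
        · funext k
          apply Subtype.ext
          change x.1.1.f (a, k) * y.1.1.f ((D.κ (D.p x.1))⁻¹ * (a, k)) =
            x.1.1.f (a, k) * y.1.1.f (a, (D₂.κ (D.p x.1).2)⁻¹ * k)
          congr 2
          apply Prod.ext
          · change (D₁.κ (D.p x.1).1)⁻¹ * a = a
            rw [(hP x).1]
            simp
          · rfl
        · rfl }
  have hρ : ∀ a, Surjective (ρ a) := by
    rintro a ⟨v, hv⟩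
    have hvΓ := v.2
    rw [mem_Γ] at hvΓ
    refine ⟨⟨⟨⟨fun k => v.1.f k.2, (1, v.1.x)⟩, ?_⟩, ?_⟩, ?_⟩
    · rw [mem_Γ]
      intro k
      apply Prod.ext
      · change D₁.q (v.1.f k.2) = D₁.g ⟨(D₁.t k.1)⁻¹ * 1 * D₁.t ((D₁.κ 1)⁻¹ * k.1), _⟩
        have h4 : (⟨(D₁.t k.1)⁻¹ * 1 * D₁.t ((D₁.κ 1)⁻¹ * k.1), D₁.aux_mem 1 k.1⟩ : D₁.M)
            = 1 := by
          apply Subtype.ext
          simp
        rw [h4, map_one]
        exact (v.1.f k.2).2
      · exact hvΓ k.2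
    · exact ⟨rfl, hv⟩
    · rfl
  have hRP : A.mem (R.subgroupOf P) := by
    have hn : ∀ a, ((R.subgroupOf P).map (ρ a)).Normal := fun a =>
      Subgroup.Normal.map (Subgroup.Normal.subgroupOf hRn P) _ (hρ a)
    refine A.mem_of_family (fun a => (ρ a).subgroupMap (R.subgroupOf P))
      (fun a => MonoidHom.subgroupMap_surjective _ _) ?_ (fun a => hA _ _ (hn a) hS)
    intro w hw
    have hw1 : ∀ a, ρ a w.1 = 1 := fun a => congrArg Subtype.val (hw a)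
    apply Subtype.ext
    apply Subtype.ext
    apply Subtype.ext
    apply Wr.ext
    · funext k
      have h5 := congrArg Subtype.val (hw1 k.1)
      have h6 := congrArg (fun z : DT.Γ => ((z.1.f k.2 : D₁.q.ker) : H)) h5
      exact h6
    · have h5 := congrArg Subtype.val (hw1 1)
      have h6 := congrArg (fun z : DT.Γ => z.1.x) h5
      exact Prod.ext (hP w.1).1 h6
  exact A.mem_of_equiv (Subgroup.subgroupOfEquivOfLe hR) hRP

end CD

/-- A class of triples `(J; R₁, R₂)` linking two formations. -/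
structure TClass (A₁ A₂ : Formation) where
  T : ∀ (J : Type) [Group J], Subgroup J → Subgroup J → Prop
  fin : ∀ {J : Type} [Group J] {R₁ R₂ : Subgroup J}, T J R₁ R₂ → Finite J
  norm₁ : ∀ {J : Type} [Group J] {R₁ R₂ : Subgroup J}, T J R₁ R₂ → R₁.Normal
  norm₂ : ∀ {J : Type} [Group J] {R₁ R₂ : Subgroup J}, T J R₁ R₂ → R₂.Normal
  map : ∀ {J J' : Type} [Group J] [Group J'] {R₁ R₂ : Subgroup J}, T J R₁ R₂ →
    ∀ (f : J →* J'), Surjective f → T J' (R₁.map f) (R₂.map f)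
  prod : ∀ {J J' : Type} [Group J] [Group J'] {R₁ R₂ : Subgroup J} {R₁' R₂' : Subgroup J'},
    T J R₁ R₂ → T J' R₁' R₂' → T (J × J') (R₁.prod R₁') (R₂.prod R₂')
  lift : ∀ {J L : Type} [Group J] [Group L] [Finite L] {R₁ R₂ : Subgroup J}, T J R₁ R₂ →
    ∀ (f : L →* J), Surjective f → ∃ S₁ S₂ : Subgroup L, T L S₁ S₂ ∧ S₁.map f = R₁ ∧ S₂.map f = R₂
  mem_iff : ∀ {J : Type} [Group J] {R₁ R₂ : Subgroup J}, T J R₁ R₂ → (A₁.mem R₁ ↔ A₂.mem R₂)
  real : ∀ (Q : Type) [Group Q] [Finite Q], ∃ (J : Type) (_ : Group J) (R₁ R₂ : Subgroup J),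
    T J R₁ R₂ ∧ ∃ f : R₂ →* Q, Surjective f

namespace TClass

variable {A₁ A₂ : Formation}

/-- Core-free realisation. -/
theorem exists_core_free (C : TClass A₁ A₂) (Q : Type) [Group Q] [Finite Q] :
    ∃ (J : Type) (_ : Group J) (R₁ R₂ : Subgroup J), C.T J R₁ R₂ ∧ ∃ g : R₂ →* Q, Surjective g ∧
      ∀ m : R₂, (∀ (x : J) (h : x⁻¹ * m * x ∈ R₂), g ⟨x⁻¹ * m * x, h⟩ = 1) → m = 1 := by
  obtain ⟨J₀, _, X, R, hT, g₀, hg₀⟩ := C.real Q
  have := C.fin hT
  have hRn : R.Normal := C.norm₂ hT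
  let L := (g₀.ker.map R.subtype).normalCore
  obtain ⟨φ, hφ, hφ'⟩ := Formation.exists_restrict (QuotientGroup.mk' L) R _ rfl
  have hL : ∀ x ∈ L, ∃ hx : x ∈ R, g₀ ⟨x, hx⟩ = 1 := by
    intro x hx
    obtain ⟨y, hy, hy'⟩ := Subgroup.normalCore_le _ hx
    have : (y : J₀) = x := hy'
    subst this
    exact ⟨y.2, hy⟩
  obtain ⟨g, hg⟩ := exists_lift φ hφ g₀ (by
    intro x hx
    have h1 : ((φ x : R.map (QuotientGroup.mk' L)) : J₀ ⧸ L) = 1 := by rw [hx]; rfl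
    rw [hφ'] at h1
    obtain ⟨_, h2⟩ := hL x ((QuotientGroup.eq_one_iff (N := L) (x : J₀)).mp h1)
    exact h2)
  refine ⟨J₀ ⧸ L, inferInstance, _, _, C.map hT (QuotientGroup.mk' L)
    (QuotientGroup.mk'_surjective L), g, ?_, ?_⟩
  · intro y
    obtain ⟨x, rfl⟩ := hg₀ y
    exact ⟨φ x, hg x⟩
  · intro m hm
    obtain ⟨r, rfl⟩ := hφ m
    have h1 : (r : J₀) ∈ L := by
      intro b
      have hb : b * r * b⁻¹ ∈ R := hRn.conj_mem r r.2 b
      refine ⟨⟨b * r * b⁻¹, hb⟩, ?_, rfl⟩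
      have e : (QuotientGroup.mk' L b⁻¹)⁻¹ * QuotientGroup.mk' L r * QuotientGroup.mk' L b⁻¹ =
          QuotientGroup.mk' L (b * r * b⁻¹) := by
        rw [← map_inv, ← map_mul, ← map_mul, inv_inv]
      have h2 := hm (QuotientGroup.mk' L b⁻¹) (by
        rw [hφ', e]
        exact ⟨b * r * b⁻¹, hb, rfl⟩)
      have h3 : g (φ ⟨b * r * b⁻¹, hb⟩) = 1 := by
        rw [← h2]
        congr 1
        apply Subtype.ext
        refine (hφ' _).trans (e.symm.trans ?_)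
        change _ = ((QuotientGroup.mk' L) b⁻¹)⁻¹ * ((φ r : R.map (QuotientGroup.mk' L)) : J₀ ⧸ L) *
          (QuotientGroup.mk' L) b⁻¹
        rw [hφ' r]
      rw [hg] at h3
      exact h3
    apply Subtype.ext
    rw [hφ']
    exact (QuotientGroup.eq_one_iff (N := L) (r : J₀)).mpr h1

/-- **Absorption theorem.** -/
theorem absorb (C : TClass A₁ A₂) (h1 : A₁.NormallyHereditary) (h2 : A₂.NormallyHereditary)
    {Y : Type} [Group Y] {Z : Subgroup Y} (hY : C.T Y ⊥ Z)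
    {Y' : Type} [Group Y'] {Z₁ : Subgroup Y'} (hY' : C.T Y' Z₁ ⊥) (hZ₁ : Z₁ ≠ ⊥) : DS A₂ Z := by
  have hYf := C.fin hY
  have hYf' := C.fin hY'
  have hZn : Z.Normal := C.norm₂ hY
  refine ⟨inferInstance, ?_⟩
  intro H _ _ φ hφ hker
  obtain ⟨T₀, N, hT₀, hN, hNT, hNT', hns⟩ := exists_nonSup φ.ker
  obtain ⟨J, _, X, R, hT, g, hg, hcore⟩ := C.exists_core_free (H ⧸ N)
  have hJf := C.fin hT
  have hXn : X.Normal := C.norm₁ hT
  have hRn : R.Normal := C.norm₂ hT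
  obtain ⟨t₁, ht₁, _⟩ := exists_section (QuotientGroup.mk' Z) (QuotientGroup.mk'_surjective Z)
  obtain ⟨t₃, ht₃, _⟩ := exists_section (QuotientGroup.mk' R) (QuotientGroup.mk'_surjective R)
  let D₁ : CD Y (Y ⧸ Z) H Z :=
    { κ := QuotientGroup.mk' Z
      t := t₁
      ht := ht₁
      q := φ
      hq := hφ
      M := Z
      hM := fun x => (QuotientGroup.eq_one_iff (N := Z) x).symm
      g := MonoidHom.id Z }
  let D₀ : CD J (J ⧸ R) H (H ⧸ N) :=
    { κ := QuotientGroup.mk' R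
      t := t₃
      ht := ht₃
      q := QuotientGroup.mk' N
      hq := QuotientGroup.mk'_surjective N
      M := R
      hM := fun x => (QuotientGroup.eq_one_iff (N := R) x).symm
      g := g }
  have hq : Surjective (φ.prod (QuotientGroup.mk' N)) := by
    rintro ⟨z, k⟩
    obtain ⟨x, rfl⟩ := hφ z
    obtain ⟨y, rfl⟩ := QuotientGroup.mk_surjective k
    have h3 : x⁻¹ * y ∈ φ.ker ⊔ N := by rw [sup_comm, hNT']; trivial
    rw [Subgroup.mem_sup_of_normal_left] at h3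
    obtain ⟨a, ha, b, hb, hab⟩ := h3
    have ha' : φ a = 1 := ha
    refine ⟨x * a, Prod.ext ?_ ?_⟩
    · simp [ha']
    · refine (QuotientGroup.eq.mpr ?_)
      have : (x * a)⁻¹ * y = b := by
        rw [mul_inv_rev, mul_assoc, ← hab]
        simp
      rw [this]
      exact hb
  have hqT : Surjective ((QuotientGroup.mk' N).comp φ.ker.subtype) := by
    intro k
    obtain ⟨x, hx⟩ := hq (1, k)
    exact ⟨⟨x, congrArg Prod.fst hx⟩, congrArg Prod.snd hx⟩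
  -- the two coinductions
  let D₂ := D₀.withFactor Y'
  let DH := D₁.join D₂ hq
  let DT₀ := D₀.restrict φ.ker hqT
  let DT := DT₀.withFactor Y'
  let DTT := DT.withFactor Y'
  -- triples
  have hT₁ := C.prod hY' hT
  have hTH := C.prod hY hT₁
  have hTT := C.prod hY' hT₁
  obtain ⟨RH₁, RH₂, hRH, hRH₁, hRH₂⟩ := C.lift (L := DH.Γ) hTH DH.p DH.p_surjective
  obtain ⟨RT₁, RT₂, hRT, hRT₁, hRT₂⟩ := C.lift (L := DTT.Γ) hTT DTT.p DTT.p_surjective
  have hRH₁n : RH₁.Normal := C.norm₁ hRH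
  have hRH₂n : RH₂.Normal := C.norm₂ hRH
  have hRT₁n : RT₁.Normal := C.norm₁ hRT
  have hRT₂n : RT₂.Normal := C.norm₂ hRT
  -- `A₂`-membership of the second residual on the T-side
  have hcoreT : ∀ m : DT₀.M, (∀ x : J, DT₀.g ⟨x⁻¹ * m * x, DT₀.conj_mem m.2 x⟩ = 1) → m = 1 := by
    intro m hm
    apply hcore m
    intro x hx
    exact hm x
  have hA₂T : A₂.mem RT₂ := by
    refine DTT.mem_of_core h2 hker ?_ ?_ RT₂ hRT₂n ?_
    · exact DT.withFactor_g_surjective Y' (DT₀.withFactor_g_surjective Y' hg)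
    · exact DT.withFactor_core Y' (DT₀.withFactor_core Y' hcoreT)
    · intro w hw
      have : DTT.p w ∈ RT₂.map DTT.p := ⟨w, hw, rfl⟩
      rw [hRT₂] at this
      exact this
  have hA₁T : A₁.mem RT₁ := (C.mem_iff hRT).mpr hA₂T
  -- the square trick
  have hZX : (Z₁.prod X).Normal := by
    have : Z₁.Normal := C.norm₁ hY'
    infer_instance
  have hV : A₁.mem ((Z₁.prod X).comap DT.p) :=
    DT.mem_of_square h1 Y' Z₁ hZ₁ (Z₁.prod X) RT₁ hRT₁n hRT₁ hA₁T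
  -- the H-side
  have hA₁H : A₁.mem RH₁ := by
    refine CD.mem_of_join D₁ D₂ hq hqT h1 (Z₁.prod X) RH₁ hRH₁n ?_ hV
    rw [← Subgroup.map_le_iff_le_comap]
    exact hRH₁.le
  have hA₂H : A₂.mem RH₂ := (C.mem_iff hRH).mp hA₁H
  have hgH : Surjective DH.g := by
    rintro ⟨z, k⟩
    obtain ⟨r, hr⟩ := hg k
    exact ⟨⟨(z, (1, r)), ⟨z.2, ⟨rfl, r.2⟩⟩⟩, Prod.ext rfl hr⟩
  have hR2 : ∀ w ∈ RH₂, DH.p w ∈ DH.M := by
    intro w hw
    have : DH.p w ∈ RH₂.map DH.p := ⟨w, hw, rfl⟩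
    rw [hRH₂] at this
    exact this
  refine A₂.mem_of_surjective (DH.ev RH₂ hR2 1) ?_ hA₂H
  refine DH.ev_surjective hgH ?_ RH₂ hRH₂n hR2 hRH₂.ge 1
  have hk : DH.q.ker = T₀ := by
    change (φ.prod (QuotientGroup.mk' N)).ker = T₀
    rw [MonoidHom.ker_prod, QuotientGroup.ker_mk', inf_comm, hNT]
  rw [hk]
  exact hns

end TClass

end Pool.Agent.Lib_helper5.Form
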