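import Pool.Agent.Lib_helper5.LatDefs

/-!
Basic lemmas: norms, summability over `ℤ^n`.
-/

namespace Pool.Agent.Lib_helper5.Lat

open Finset

variable {n : ℕ}

lemma eNorm_nonneg (x : Fin n → ℝ) : 0 ≤ eNorm x := Real.sqrt_nonneg _

lemma eNorm_sq (x : Fin n → ℝ) : eNorm x ^ 2 = ∑ i, x i ^ 2 :=
  Real.sq_sqrt (Finset.sum_nonneg fun _ _ => sq_nonneg _)

lemma abs_le_eNorm (x : Fin n → ℝ) (i : Fin n) : |x i| ≤ eNorm x := by
  apply Real.abs_le_sqrt
  exact Finset.single_le_sum (f := fun i => x i ^ 2) (fun _ _ => sq_nonneg _) (mem_univ i)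

lemma eNorm_le_of_abs_le (x : Fin n → ℝ) (B : ℝ) (hB : 0 ≤ B) (h : ∀ i, |x i| ≤ B) :
    eNorm x ≤ Real.sqrt n * B := by
  have h1 : ∑ i, x i ^ 2 ≤ n * B ^ 2 := by
    calc ∑ i, x i ^ 2 ≤ ∑ _i : Fin n, B ^ 2 := by
          apply Finset.sum_le_sum
          intro i _
          exact sq_le_sq' (by linarith [abs_le.mp (h i)]) (abs_le.mp (h i)).2
      _ = n * B ^ 2 := by simp
  calc eNorm x ≤ Real.sqrt (n * B ^ 2) := Real.sqrt_le_sqrt h1
    _ = Real.sqrt n * B := by rw [Real.sqrt_mul (by positivity), Real.sqrt_sq hB]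

lemma zNorm_nonneg (k : Fin n → ℤ) : 0 ≤ zNorm k := eNorm_nonneg _

lemma zNorm_sq (k : Fin n → ℤ) : zNorm k ^ 2 = ∑ i, (k i : ℝ) ^ 2 := eNorm_sq _

lemma abs_le_zNorm (k : Fin n → ℤ) (i : Fin n) : |(k i : ℝ)| ≤ zNorm k :=
  abs_le_eNorm (fun i => (k i : ℝ)) i

lemma one_le_zNorm {k : Fin n → ℤ} (hk : k ≠ 0) : 1 ≤ zNorm k := by
  obtain ⟨i, hi⟩ : ∃ i, k i ≠ 0 := by
    by_contra h
    push Not at h
    exact hk (funext h)
  have h1 : (1 : ℝ) ≤ |(k i : ℝ)| := by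
    have : (1 : ℤ) ≤ |k i| := Int.one_le_abs hi
    exact_mod_cast this
  exact h1.trans (abs_le_zNorm k i)

lemma zNorm_pos {k : Fin n → ℤ} (hk : k ≠ 0) : 0 < zNorm k := lt_of_lt_of_le one_pos (one_le_zNorm hk)

lemma zNorm_zero : zNorm (0 : Fin n → ℤ) = 0 := by
  simp [zNorm, eNorm]

lemma norm_le_zNorm (k : Fin n → ℤ) : ‖k‖ ≤ zNorm k := by
  rw [pi_norm_le_iff_of_nonneg (zNorm_nonneg k)]
  intro i
  rw [Int.norm_eq_abs]
  exact abs_le_zNorm k i

/-- Summability of `‖k‖^r` over `ℤ^ι` for `r < - |ι|`. -/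
lemma summable_norm_pi_int {ι : Type*} [Fintype ι] (r : ℝ) (hr : r < -(Fintype.card ι : ℝ)) :
    Summable fun k : ι → ℤ => ‖k‖ ^ r := by
  classical
  let b := Pi.basisFun ℝ ι
  let L : Submodule ℤ (ι → ℝ) := Submodule.span ℤ (Set.range b)
  have hL : Module.finrank ℤ L = Fintype.card ι := by
    rw [ZLattice.rank ℝ L]
    simp
  have hs : Summable fun z : L => ‖z‖ ^ r := by
    apply ZLattice.summable_norm_rpow
    rw [hL]
    exact hr
  have hmem : ∀ k : ι → ℤ, (fun i => (k i : ℝ)) ∈ L := by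
    intro k
    have : (fun i => (k i : ℝ)) = ∑ i, k i • b i := by
      ext j
      simp [b, Pi.single_apply, Finset.sum_apply]
    rw [this]
    exact Submodule.sum_mem _ fun i _ => Submodule.smul_mem _ _ (Submodule.subset_span ⟨i, rfl⟩)
  let φ : (ι → ℤ) → L := fun k => ⟨fun i => (k i : ℝ), hmem k⟩
  have hφ : Function.Injective φ := by
    intro k k' h
    have h2 : (fun i => (k i : ℝ)) = (fun i => (k' i : ℝ)) := congrArg Subtype.val h
    funext i
    have h3 : (k i : ℝ) = (k' i : ℝ) := congrFun h2 i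
    exact_mod_cast h3
  have h3 := hs.comp_injective hφ
  refine h3.congr ?_
  intro k
  have : ‖φ k‖ = ‖k‖ := by
    change ‖(fun i => (k i : ℝ))‖ = ‖k‖
    simp only [Pi.norm_def]
    congr 2
  simp [Function.comp, this]

lemma summable_zNorm (τ : ℝ) (hτ : (n : ℝ) < τ) :
    Summable fun k : Fin n → ℤ => zNorm k ^ (-τ) := by
  have h1 : Summable fun k : Fin n → ℤ => ‖k‖ ^ (-τ) := by
    apply summable_norm_pi_int
    simp
    exact hτ
  have hτ0 : 0 < τ := lt_of_le_of_lt (Nat.cast_nonneg n) hτ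
  refine Summable.of_nonneg_of_le (fun k => Real.rpow_nonneg (zNorm_nonneg k) _) ?_ h1
  intro k
  by_cases hk : k = 0
  · subst hk
    rw [zNorm_zero]
    simp
  · apply Real.rpow_le_rpow_of_nonpos (by positivity) (norm_le_zNorm k) (by linarith)

end Pool.Agent.Lib_helper5.Lat
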