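import Pool.Agent.Lib_helper5.LatPoly

/-!
Continuation of the lattice series by repeated differencing, with polynomial bounds.
-/

namespace Pool.Agent.Lib_helper5.Lat

open Finset

variable {n : ℕ}

/-- the character `k ↦ e^{2πi k·a}` -/
noncomputable def ex (a : Fin n → ℝ) (k : Fin n → ℤ) : ℂ :=
  Complex.exp (2 * Real.pi * Complex.I * ∑ i, (k i : ℂ) * (a i : ℂ))

lemma norm_ex (a : Fin n → ℝ) (k : Fin n → ℤ) : ‖ex a k‖ = 1 := by
  have : (2 * Real.pi * Complex.I * ∑ i, (k i : ℂ) * (a i : ℂ) : ℂ)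
      = ((2 * Real.pi * ∑ i, (k i : ℝ) * a i : ℝ) : ℂ) * Complex.I := by
    push_cast
    ring
  rw [ex, this, Complex.norm_exp_ofReal_mul_I]

lemma ex_add (a : Fin n → ℝ) (k k' : Fin n → ℤ) : ex a (k + k') = ex a k * ex a k' := by
  rw [ex, ex, ex, ← Complex.exp_add]
  congr 1
  simp only [Pi.add_apply]
  push_cast
  rw [← mul_add, ← Finset.sum_add_distrib]
  congr 1
  apply Finset.sum_congr rfl
  intro i _
  ring

lemma ex_zero (a : Fin n → ℝ) : ex a 0 = 1 := by
  simp [ex]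

/-- the summand without the character -/
noncomputable def phi (p : (Fin n → ℤ) → ℂ) (k : Fin n → ℤ) (s : ℂ) : ℂ :=
  if k = 0 then 0 else p k * (zNorm k : ℂ) ^ (-s)

/-- generic character sum -/
noncomputable def cSum (r : (Fin n → ℤ) → ℂ → ℂ) (a : Fin n → ℝ) (s : ℂ) : ℂ :=
  ∑' k : Fin n → ℤ, r k s * ex a k

lemma latSeries_eq (P : MvPolynomial (Fin n) ℂ) (a : Fin n → ℝ) (s : ℂ) :
    latSeries P a s =
      cSum (phi (fun k => MvPolynomial.eval (fun i => (k i : ℂ)) P)) a s := by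
  unfold latSeries cSum phi ex
  apply tsum_congr
  intro k
  split_ifs <;> simp

/-- domination: `r k` is entire and `O(‖k‖^{x - Re s})` locally uniformly in `s`. -/
def Dom (x : ℝ) (r : (Fin n → ℤ) → ℂ → ℂ) : Prop :=
  (∀ k, Differentiable ℂ (r k)) ∧
  (∀ R σ : ℝ, ∃ C : ℝ, 0 ≤ C ∧ ∀ k : Fin n → ℤ, ∀ s : ℂ, ‖s‖ ≤ R → σ ≤ s.re →
    ‖r k s‖ ≤ C * zNorm k ^ (x - σ))

lemma Dom.summable_norm {x : ℝ} {r : (Fin n → ℤ) → ℂ → ℂ} (h : Dom x r) (s : ℂ)
    (hs : (n : ℝ) + x < s.re) : Summable (fun k => ‖r k s‖) := by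
  obtain ⟨C, hC, hb⟩ := h.2 ‖s‖ s.re
  have h1 : Summable fun k : Fin n → ℤ => C * zNorm k ^ (-(s.re - x)) :=
    (summable_zNorm (s.re - x) (by linarith)).mul_left C
  refine Summable.of_nonneg_of_le (fun k => norm_nonneg _) (fun k => ?_) h1
  have := hb k s le_rfl le_rfl
  rw [neg_sub]
  exact this

lemma Dom.summable {x : ℝ} {r : (Fin n → ℤ) → ℂ → ℂ} (h : Dom x r) (a : Fin n → ℝ) (s : ℂ)
    (hs : (n : ℝ) + x < s.re) : Summable (fun k => r k s * ex a k) := by
  refine Summable.of_norm ?_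
  refine (h.summable_norm s hs).congr ?_
  intro k
  rw [norm_mul, norm_ex, mul_one]

lemma Dom.bound {x : ℝ} {r : (Fin n → ℤ) → ℂ → ℂ} (h : Dom x r) (R σ : ℝ)
    (hσ : (n : ℝ) + x < σ) : ∃ C : ℝ, 0 ≤ C ∧ ∀ a : Fin n → ℝ, ∀ s : ℂ, ‖s‖ ≤ R → σ ≤ s.re →
      ‖cSum r a s‖ ≤ C := by
  obtain ⟨C, hC, hb⟩ := h.2 R σ
  have h1 : Summable fun k : Fin n → ℤ => C * zNorm k ^ (-(σ - x)) :=
    (summable_zNorm (σ - x) (by linarith)).mul_left C
  refine ⟨∑' k : Fin n → ℤ, C * zNorm k ^ (-(σ - x)), ?_, ?_⟩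
  · apply tsum_nonneg
    intro k
    have := zNorm_nonneg k
    positivity
  · intro a s hs1 hs2
    apply tsum_of_norm_bounded h1.hasSum
    intro k
    rw [norm_mul, norm_ex, mul_one, neg_sub]
    exact hb k s hs1 hs2

lemma Dom.differentiableOn {x : ℝ} {r : (Fin n → ℤ) → ℂ → ℂ} (h : Dom x r) (a : Fin n → ℝ) :
    DifferentiableOn ℂ (cSum r a) {s : ℂ | (n : ℝ) + x < s.re} := by
  intro s0 hs0
  have hs0 : (n : ℝ) + x < s0.re := hs0
  obtain ⟨σ, hσ1, hσ2⟩ := exists_between hs0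
  let U : Set ℂ := {s : ℂ | ‖s‖ < ‖s0‖ + 1} ∩ {s : ℂ | σ < s.re}
  have hU : IsOpen U := (isOpen_lt continuous_norm continuous_const).inter
    (isOpen_lt continuous_const Complex.continuous_re)
  obtain ⟨C, hC, hb⟩ := h.2 (‖s0‖ + 1) σ
  have h1 : Summable fun k : Fin n → ℤ => C * zNorm k ^ (-(σ - x)) :=
    (summable_zNorm (σ - x) (by linarith)).mul_left C
  have h2 : DifferentiableOn ℂ (fun s => ∑' k : Fin n → ℤ, r k s * ex a k) U := by
    apply Complex.differentiableOn_tsum_of_summable_norm h1 _ hU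
    · intro k s hs
      rw [norm_mul, norm_ex, mul_one, neg_sub]
      exact hb k s (le_of_lt hs.1) (le_of_lt hs.2)
    · intro k
      exact ((h.1 k).mul_const _).differentiableOn
  have h3 : s0 ∈ U := ⟨by simp, hσ2⟩
  exact ((h2 s0 h3).differentiableAt (hU.mem_nhds h3)).differentiableWithinAt

lemma differentiable_znorm_cpow (k : Fin n → ℤ) (hk : k ≠ 0) :
    Differentiable ℂ (fun s : ℂ => (zNorm k : ℂ) ^ (-s)) := by
  intro s
  apply DifferentiableAt.const_cpow
  · fun_prop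
  · left
    exact_mod_cast (zNorm_pos hk).ne'

lemma norm_znorm_cpow (k : Fin n → ℤ) (hk : k ≠ 0) (s : ℂ) :
    ‖(zNorm k : ℂ) ^ (-s)‖ = zNorm k ^ (-s.re) := by
  rw [Complex.norm_cpow_eq_rpow_re_of_pos (zNorm_pos hk)]
  simp

lemma phi_dom {D : ℕ} {p : (Fin n → ℤ) → ℂ} (hp : PD D p) : Dom (D : ℝ) (phi p) := by
  constructor
  · intro k
    by_cases hk : k = 0
    · have : phi p k = fun _ => 0 := by funext s; simp [phi, hk]
      rw [this]; exact differentiable_const _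
    · have : phi p k = fun s => p k * (zNorm k : ℂ) ^ (-s) := by funext s; simp [phi, hk]
      rw [this]
      exact (differentiable_znorm_cpow k hk).const_mul _
  · intro R σ
    obtain ⟨C, hC, hb⟩ := hp.bound
    refine ⟨C, hC, ?_⟩
    intro k s _ hs
    by_cases hk : k = 0
    · simp only [phi, hk, if_true, norm_zero]
      have := zNorm_nonneg (0 : Fin n → ℤ)
      positivity
    · simp only [phi, hk, if_false]
      rw [norm_mul, norm_znorm_cpow k hk]
      have h1 := one_le_zNorm hk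
      have h0 := zNorm_pos hk
      calc ‖p k‖ * zNorm k ^ (-s.re) ≤ (C * zNorm k ^ D) * zNorm k ^ (-σ) := by
            have h2 := hb k hk
            have h3 : zNorm k ^ (-s.re) ≤ zNorm k ^ (-σ) :=
              Real.rpow_le_rpow_of_exponent_le h1 (by linarith)
            gcongr
        _ = C * zNorm k ^ ((D:ℝ) - σ) := by
            rw [mul_assoc, ← Real.rpow_natCast, ← Real.rpow_add h0]
            congr 2

/-- The remainder after expanding the shifted summand. -/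
noncomputable def rem (p : (Fin n → ℤ) → ℂ) (j : Fin n) (M : ℕ) (k : Fin n → ℤ) (s : ℂ) : ℂ :=
  if k = 0 then 0 else phi p (k - Pi.single j 1) s -
    ∑ m ∈ range M, bc m (-s/2) * ((p (k - Pi.single j 1) * (1 - 2 * (k j : ℂ)) ^ m) *
      (zNorm k : ℂ) ^ (-(s + 2 * m)))

lemma zNorm_shift_sq (j : Fin n) (k : Fin n → ℤ) :
    zNorm (k - Pi.single j 1) ^ 2 = zNorm k ^ 2 + (1 - 2 * (k j : ℝ)) := by
  rw [zNorm_sq, zNorm_sq]
  have h1 : ∀ i, ((((k - Pi.single j (1:ℤ)) : Fin n → ℤ) i : ℤ) : ℝ) ^ 2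
      = (k i : ℝ) ^ 2 + (if i = j then (1 - 2 * (k j : ℝ)) else 0) := by
    intro i
    simp only [Pi.sub_apply, Pi.single_apply]
    split_ifs with h
    · subst h; push_cast; ring
    · simp
  rw [Finset.sum_congr rfl (fun i _ => h1 i), Finset.sum_add_distrib]
  simp

lemma cpow_neg_eq_sq (x : ℝ) (hx : 0 < x) (s : ℂ) :
    (x : ℂ) ^ (-s) = ((x ^ 2 : ℝ) : ℂ) ^ (-s/2) := by
  have h1 : (x : ℂ) ≠ 0 := by exact_mod_cast hx.ne'
  have h2 : ((x ^ 2 : ℝ) : ℂ) ≠ 0 := by exact_mod_cast (pow_pos hx 2).ne'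
  rw [Complex.cpow_def_of_ne_zero h1, Complex.cpow_def_of_ne_zero h2,
    ← Complex.ofReal_log hx.le, ← Complex.ofReal_log (by positivity), Real.log_pow]
  congr 1
  push_cast
  ring

/-- large `k`: explicit form of the remainder -/
lemma rem_large (p : (Fin n → ℤ) → ℂ) (j : Fin n) (M : ℕ) (k : Fin n → ℤ) (s : ℂ)
    (hk : 6 ≤ zNorm k) :
    rem p j M k s = p (k - Pi.single j 1) * (zNorm k : ℂ) ^ (-s) *
      ((1 + (((1 - 2 * (k j : ℝ)) / zNorm k ^ 2 : ℝ) : ℂ)) ^ (-s/2)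
        - ∑ m ∈ range M, bc m (-s/2) * (((1 - 2 * (k j : ℝ)) / zNorm k ^ 2 : ℝ) : ℂ) ^ m) ∧
      |(1 - 2 * (k j : ℝ)) / zNorm k ^ 2| ≤ 3 / zNorm k := by
  have hpos : 0 < zNorm k := by linarith
  have hk0 : k ≠ 0 := by
    rintro rfl
    rw [zNorm_zero] at hk
    linarith
  have hu : |(1 - 2 * (k j : ℝ)) / zNorm k ^ 2| ≤ 3 / zNorm k := by
    rw [abs_div, abs_of_nonneg (by positivity : (0:ℝ) ≤ zNorm k ^ 2),
      div_le_div_iff₀ (by positivity) hpos]
    have h1 : |1 - 2 * (k j : ℝ)| ≤ 1 + 2 * zNorm k := by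
      have := abs_le.mp (abs_le_zNorm k j)
      rw [abs_le]
      constructor <;> linarith
    have h2 : 1 + 2 * zNorm k ≤ 3 * zNorm k := by linarith
    calc |1 - 2 * (k j : ℝ)| * zNorm k ≤ (3 * zNorm k) * zNorm k := by
          gcongr
          linarith
      _ = 3 * zNorm k ^ 2 := by ring
  refine ⟨?_, hu⟩
  have hu2 : |(1 - 2 * (k j : ℝ)) / zNorm k ^ 2| ≤ 1/2 := by
    refine hu.trans ?_
    rw [div_le_div_iff₀ hpos (by norm_num)]
    linarith
  set u : ℝ := (1 - 2 * (k j : ℝ)) / zNorm k ^ 2 with hudef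
  have hu3 := abs_le.mp hu2
  have h1u : 0 < 1 + u := by linarith
  have hshift : zNorm (k - Pi.single j 1) ^ 2 = zNorm k ^ 2 * (1 + u) := by
    rw [zNorm_shift_sq, hudef]
    field_simp
  have hkne : k - Pi.single j 1 ≠ 0 := by
    intro h
    rw [h, zNorm_zero] at hshift
    have : 0 < zNorm k ^ 2 * (1 + u) := by positivity
    rw [← hshift] at this
    norm_num at this
  have hpos' : 0 < zNorm (k - Pi.single j 1) := zNorm_pos hkne
  have h3 : (zNorm (k - Pi.single j 1) : ℂ) ^ (-s) = (zNorm k : ℂ) ^ (-s) * (1 + (u:ℂ)) ^ (-s/2) := by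
    rw [cpow_neg_eq_sq _ hpos', hshift, cpow_neg_eq_sq _ hpos, Complex.ofReal_mul,
      Complex.mul_cpow_ofReal_nonneg (by positivity) h1u.le]
    push_cast
    ring
  have hzc : (zNorm k : ℂ) ≠ 0 := by exact_mod_cast hpos.ne'
  have h4 : ∀ m : ℕ, (1 - 2 * (k j : ℂ)) ^ m * (zNorm k : ℂ) ^ (-(s + 2 * m))
      = (zNorm k : ℂ) ^ (-s) * (u : ℂ) ^ m := by
    intro m
    have h5 : (zNorm k : ℂ) ^ (-(s + 2 * m)) = (zNorm k : ℂ) ^ (-s) * ((zNorm k : ℂ) ^ (2 * m))⁻¹ := by
      rw [neg_add, Complex.cpow_add _ _ hzc]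
      congr 1
      rw [Complex.cpow_neg]
      congr 1
      have : (2 * (m:ℂ)) = ((2 * m : ℕ) : ℂ) := by push_cast; ring
      rw [this, Complex.cpow_natCast]
    rw [h5, hudef]
    push_cast
    rw [div_pow, pow_mul]
    field_simp
  unfold rem phi
  rw [if_neg hk0, if_neg hkne, h3]
  rw [mul_sub, Finset.mul_sum]
  congr 1
  · ring
  · apply Finset.sum_congr rfl
    intro m _
    have := h4 m
    calc bc m (-s / 2) * (p (k - Pi.single j 1) * (1 - 2 * (k j : ℂ)) ^ m *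
          (zNorm k : ℂ) ^ (-(s + 2 * m)))
        = bc m (-s/2) * p (k - Pi.single j 1) * ((1 - 2 * (k j : ℂ)) ^ m *
          (zNorm k : ℂ) ^ (-(s + 2 * m))) := by ring
      _ = _ := by rw [this]; ring

lemma rem_differentiable (p : (Fin n → ℤ) → ℂ) (j : Fin n) (M : ℕ) (k : Fin n → ℤ) :
    Differentiable ℂ (rem p j M k) := by
  by_cases hk : k = 0
  · have : rem p j M k = fun _ => 0 := by funext s; simp [rem, hk]
    rw [this]; exact differentiable_const _
  · have : rem p j M k = fun s => phi p (k - Pi.single j 1) s -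
      ∑ m ∈ range M, bc m (-s/2) * ((p (k - Pi.single j 1) * (1 - 2 * (k j : ℂ)) ^ m) *
      (zNorm k : ℂ) ^ (-(s + 2 * m))) := by funext s; simp [rem, hk]
    rw [this]
    apply Differentiable.sub
    · by_cases hk2 : k - Pi.single j 1 = 0
      · have : phi p (k - Pi.single j 1) = fun _ => 0 := by funext s; simp [phi, hk2]
        rw [this]; exact differentiable_const _
      · have : phi p (k - Pi.single j 1) =
            fun s => p (k - Pi.single j 1) * (zNorm (k - Pi.single j 1) : ℂ) ^ (-s) := by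
          funext s; simp [phi, hk2]
        rw [this]
        exact (differentiable_znorm_cpow _ hk2).const_mul _
    · apply Differentiable.fun_sum
      intro m _
      apply Differentiable.mul
      · have h1 : Differentiable ℂ (fun s : ℂ => -s/2) := (differentiable_id.neg).div_const 2
        exact (bc_differentiable m).comp h1
      · apply Differentiable.const_mul
        have h1 : Differentiable ℂ (fun s : ℂ => s + 2 * (m:ℂ)) := differentiable_id.add_const _
        exact (differentiable_znorm_cpow k hk).comp h1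

lemma rem_dom {D : ℕ} {p : (Fin n → ℤ) → ℂ} (hp : PD D p) (j : Fin n) (M : ℕ) :
    Dom ((D : ℝ) - M) (rem p j M) := by
  classical
  refine ⟨rem_differentiable p j M, ?_⟩
  intro R0 σ
  -- we may enlarge R
  set R : ℝ := max R0 0 with hR
  have hR0 : 0 ≤ R := le_max_right _ _
  obtain ⟨C1, hC1, hb1⟩ := (hp.shift (Pi.single j 1)).bound
  obtain ⟨C2, hC2, hb2⟩ := bc_remainder M (R / 2) (by positivity)
  let S : Finset (Fin n → ℤ) := Fintype.piFinset (fun _ => Finset.Icc (-6) 6)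
  -- bound on each small k
  have hsmall : ∀ k : Fin n → ℤ, ∃ C : ℝ, 0 ≤ C ∧ ∀ s : ℂ, ‖s‖ ≤ R → ‖rem p j M k s‖ ≤ C := by
    intro k
    have hcont : ContinuousOn (fun s => ‖rem p j M k s‖) (Metric.closedBall (0:ℂ) R) :=
      (rem_differentiable p j M k).continuous.norm.continuousOn
    obtain ⟨C, hC⟩ := (isCompact_closedBall (0:ℂ) R).bddAbove_image hcont
    refine ⟨max C 0, le_max_right _ _, fun s hs => ?_⟩
    refine le_trans (hC ?_) (le_max_left _ _)
    exact ⟨s, by simpa using hs, rfl⟩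
  choose Ck hCk0 hCk using hsmall
  set x : ℝ := (D:ℝ) - M - σ with hx
  set K1 : ℝ := ∑ k ∈ S, Ck k / zNorm k ^ x with hK1
  have hK1nn : 0 ≤ K1 := Finset.sum_nonneg fun k _ =>
    div_nonneg (hCk0 k) (Real.rpow_nonneg (zNorm_nonneg k) _)
  set K2 : ℝ := C1 * C2 * 3 ^ M with hK2
  have hK2nn : 0 ≤ K2 := by positivity
  refine ⟨K1 + K2, by positivity, ?_⟩
  intro k s hs1 hs2
  have hsR : ‖s‖ ≤ R := hs1.trans (le_max_left _ _)
  by_cases hk : k = 0
  · subst hk
    have : rem p j M 0 s = 0 := by simp [rem]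
    rw [this, norm_zero]
    have := zNorm_nonneg (0 : Fin n → ℤ)
    positivity
  have hpos := zNorm_pos hk
  by_cases hkS : k ∈ S
  · have h1 : ‖rem p j M k s‖ ≤ Ck k := hCk k s hsR
    have h2 : Ck k / zNorm k ^ x ≤ K1 := by
      apply Finset.single_le_sum (f := fun k => Ck k / zNorm k ^ x) _ hkS
      intro k _
      exact div_nonneg (hCk0 k) (Real.rpow_nonneg (zNorm_nonneg k) _)
    have h3 : Ck k ≤ K1 * zNorm k ^ x := by
      rw [div_le_iff₀ (Real.rpow_pos_of_pos hpos _)] at h2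
      exact h2
    have h4 : K1 * zNorm k ^ x ≤ (K1 + K2) * zNorm k ^ x := by
      have := Real.rpow_nonneg hpos.le x
      nlinarith
    linarith
  · have hk6 : 6 ≤ zNorm k := by
      have : ∃ i, k i ∉ Finset.Icc (-6 : ℤ) 6 := by
        by_contra hcon
        push Not at hcon
        exact hkS (Fintype.mem_piFinset.mpr hcon)
      obtain ⟨i, hi⟩ := this
      have h6 : (6 : ℤ) ≤ |k i| := by
        rw [Finset.mem_Icc, not_and_or] at hi
        rcases hi with h | h
        · have : k i < -6 := by linarith [lt_of_not_ge h]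
          rw [abs_of_neg (by linarith)]; linarith
        · have : 6 < k i := lt_of_not_ge h
          rw [abs_of_pos (by linarith)]; linarith
      have h7 : (6 : ℝ) ≤ |(k i : ℝ)| := by exact_mod_cast h6
      exact h7.trans (abs_le_zNorm k i)
    obtain ⟨hrem, hu⟩ := rem_large p j M k s hk6
    rw [hrem, norm_mul, norm_mul, norm_znorm_cpow k hk]
    have h1 := hb1 k hk
    have hw : ‖-s/2‖ ≤ R/2 := by
      rw [norm_div, norm_neg]
      simp only [Complex.norm_ofNat]
      linarith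
    have hu2 : |(1 - 2 * (k j : ℝ)) / zNorm k ^ 2| ≤ 1/2 := by
      refine hu.trans ?_
      rw [div_le_div_iff₀ hpos (by norm_num)]
      linarith
    have h2 := hb2 (-s/2) hw _ hu2
    have h3 : zNorm k ^ (-s.re) ≤ zNorm k ^ (-σ) :=
      Real.rpow_le_rpow_of_exponent_le (one_le_zNorm hk) (by linarith)
    have h4 : C2 * |(1 - 2 * (k j : ℝ)) / zNorm k ^ 2| ^ M ≤ C2 * (3 / zNorm k) ^ M := by
      gcongr
    have h5 : zNorm k ^ x = zNorm k ^ D * zNorm k ^ (-σ) * (zNorm k ^ M)⁻¹ := by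
      rw [hx, show (D:ℝ) - M - σ = (D:ℝ) + (-σ) + (-(M:ℝ)) by ring, Real.rpow_add hpos,
        Real.rpow_add hpos, Real.rpow_natCast, Real.rpow_neg hpos.le (M:ℝ), Real.rpow_natCast]
    calc ‖p (k - Pi.single j 1)‖ * zNorm k ^ (-s.re) * _
        ≤ (C1 * zNorm k ^ D) * zNorm k ^ (-σ) * (C2 * (3 / zNorm k) ^ M) := by
          have h6 := h2.trans h4
          gcongr
      _ = K2 * zNorm k ^ x := by
          rw [h5, hK2, div_pow]
          ring
      _ ≤ (K1 + K2) * zNorm k ^ x := by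
          have := Real.rpow_nonneg hpos.le x
          nlinarith

end Pool.Agent.Lib_helper5.Lat
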