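import Mathlib

/-!
Definitions for the entire lattice series problem (MP_6f2e8a_an).
-/

namespace Pool.Agent.Lib_helper5.Lat

/-- The Euclidean norm of a real vector. -/
noncomputable def eNorm {n : ℕ} (x : Fin n → ℝ) : ℝ := Real.sqrt (∑ i, x i ^ 2)

/-- The Euclidean norm of an integer vector. -/
noncomputable def zNorm {n : ℕ} (k : Fin n → ℤ) : ℝ := eNorm (fun i => (k i : ℝ))

/-- The lattice series `f_a(s) = ∑'_{k ∈ ℤ^n, k ≠ 0} P(k) ‖k‖^{-s} e^{2 π i k·a}`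
(absolutely convergent for `Re s > n + d` when `P` is homogeneous of degree `d`). -/
noncomputable def latSeries {n : ℕ} (P : MvPolynomial (Fin n) ℂ) (a : Fin n → ℝ) (s : ℂ) : ℂ :=
  ∑' k : Fin n → ℤ, if k = 0 then 0 else
    MvPolynomial.eval (fun i => (k i : ℂ)) P * (zNorm k : ℂ) ^ (-s) *
      Complex.exp (2 * Real.pi * Complex.I * ∑ i, (k i : ℂ) * (a i : ℂ))

/-- `b` is a rapidly decreasing sequence on `(ℤ^n)^q`. -/
def RapidDecay {n q : ℕ} (b : (Fin q → Fin n → ℤ) → ℂ) : Prop :=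
  ∀ m : Fin q → Fin n → ℕ, ∃ C : ℝ, ∀ l : Fin q → Fin n → ℤ,
    (∏ i, ∏ j, |(l i j : ℝ)| ^ m i j) * ‖b l‖ ≤ C

/-- `g_0(s) = ∑_{l ∉ Z} b(l) f_{Θ ∑ ε_i l_i}(s)`, with `Z = {l : ∑ ε_i l_i = 0}`. -/
noncomputable def gZero {n q : ℕ} (P : MvPolynomial (Fin n) ℂ) (Θ : Matrix (Fin n) (Fin n) ℝ)
    (b : (Fin q → Fin n → ℤ) → ℂ) (ε : Fin q → ℤ) (s : ℂ) : ℂ :=
  ∑' l : Fin q → Fin n → ℤ, if ∑ i, ε i • l i = 0 then 0 else
    b l * latSeries P (Θ.mulVec (fun j => (((∑ i, ε i • l i) j : ℤ) : ℝ))) s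

/-- Property (H): for all `q ≥ 1`, all homogeneous `P`, all rapidly decreasing `b` and all
`ε ∈ {-1,0,1}^q`, the function `g_0` (given by the series for `Re s > n + d`) extends to an
entire function. -/
def PropertyH {n : ℕ} (Θ : Matrix (Fin n) (Fin n) ℝ) : Prop :=
  ∀ q : ℕ, 1 ≤ q → ∀ (d : ℕ) (P : MvPolynomial (Fin n) ℂ), P.IsHomogeneous d →
    ∀ b : (Fin q → Fin n → ℤ) → ℂ, RapidDecay b →
      ∀ ε : Fin q → ℤ, (∀ i, ε i = -1 ∨ ε i = 0 ∨ ε i = 1) →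
        ∃ G : ℂ → ℂ, Differentiable ℂ G ∧
          ∀ s : ℂ, (n : ℝ) + (d : ℝ) < s.re → G s = gZero P Θ b ε s

/-- A vector `a` is `δ`-badly approximable. -/
def BadlyApproxVec {n : ℕ} (δ : ℝ) (a : Fin n → ℝ) : Prop :=
  ∃ c : ℝ, 0 < c ∧ ∀ v : Fin n → ℤ, v ≠ 0 → ∀ m : ℤ,
    c * zNorm v ^ (-δ) ≤ |(∑ i, (v i : ℝ) * a i) - (m : ℝ)|

/-- A matrix `Θ` is badly approximable if `ᵗΘ u` is a badly approximable vector for some
integer vector `u`. -/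
def BadlyApproxMat {n : ℕ} (Θ : Matrix (Fin n) (Fin n) ℝ) : Prop :=
  ∃ u : Fin n → ℤ, ∃ δ : ℝ, 0 < δ ∧
    BadlyApproxVec δ (Θ.transpose.mulVec (fun j => (u j : ℝ)))

/-- The Diophantine condition (D): the distance from `Θ v` to `ℤ^n` is at least
`c ‖v‖^{-δ}` for all nonzero integer vectors `v`. -/
def LatticeDiophantine {n : ℕ} (Θ : Matrix (Fin n) (Fin n) ℝ) : Prop :=
  ∃ δ : ℝ, 0 < δ ∧ ∃ c : ℝ, 0 < c ∧ ∀ v : Fin n → ℤ, v ≠ 0 → ∀ m : Fin n → ℤ,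
    c * zNorm v ^ (-δ) ≤
      eNorm (fun i => Θ.mulVec (fun j => (v j : ℝ)) i - (m i : ℝ))

end Pool.Agent.Lib_helper5.Lat
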