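import Pool.Agent.Lib_helper5.LatCont

/-!
The induction: continuation of the lattice series to `Re s > n + D - N`.
-/

namespace Pool.Agent.Lib_helper5.Lat

open Finset

variable {n : ℕ}

/-- `z_j(a) = e^{2πi a_j}` -/
noncomputable def zj (a : Fin n → ℝ) (j : Fin n) : ℂ := ex a (Pi.single j 1)

/-- extension data -/
def ExtData (j : Fin n) (N : ℕ) (D : ℝ) (p : (Fin n → ℤ) → ℂ) (F : (Fin n → ℝ) → ℂ → ℂ) : Prop :=
  (∀ a, zj a j ≠ 1 → ∀ s : ℂ, (n:ℝ) + D < s.re → F a s = cSum (phi p) a s) ∧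
  (∀ a, zj a j ≠ 1 → DifferentiableOn ℂ (F a) {s : ℂ | (n:ℝ) + D - N < s.re}) ∧
  (∀ R σ : ℝ, (n:ℝ) + D - N < σ → ∃ C : ℝ, 0 ≤ C ∧ ∀ a, zj a j ≠ 1 → ∀ s : ℂ, ‖s‖ ≤ R →
    σ ≤ s.re → ‖F a s‖ * ‖zj a j - 1‖ ^ N ≤ C)

lemma zNorm_neg_single (j : Fin n) : zNorm ((0 : Fin n → ℤ) - Pi.single j 1) = 1 := by
  have h := zNorm_shift_sq j (0 : Fin n → ℤ)
  rw [zNorm_zero] at h
  simp only [Pi.zero_apply, Int.cast_zero] at h
  have h2 : zNorm ((0 : Fin n → ℤ) - Pi.single j 1) ^ 2 = 1 := by linarith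
  exact (pow_eq_one_iff_of_nonneg (zNorm_nonneg _) (by norm_num)).mp h2

lemma norm_zj_sub_one_le (a : Fin n → ℝ) (j : Fin n) : ‖zj a j - 1‖ ≤ 2 := by
  calc ‖zj a j - 1‖ ≤ ‖zj a j‖ + ‖(1:ℂ)‖ := norm_sub_le _ _
    _ = 2 := by rw [zj, norm_ex]; norm_num

lemma diff_identity {D : ℕ} {p : (Fin n → ℤ) → ℂ} (hp : PD D p) (j : Fin n) (N : ℕ)
    (a : Fin n → ℝ) (s : ℂ) (hs : (n : ℝ) + D < s.re)
    (h0 : Summable (fun k => phi (fun k => p (k - Pi.single j 1) - p k) k s * ex a k)) :
    (zj a j - 1) * cSum (phi p) a s =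
      cSum (phi (fun k => p (k - Pi.single j 1) - p k)) a s
      + ∑ m ∈ range N, bc (m+1) (-s/2) *
          cSum (phi (fun k => p (k - Pi.single j 1) * (1 - 2 * (k j : ℂ)) ^ (m+1))) a (s + 2 * ((m+1 : ℕ) : ℂ))
      + cSum (rem p j (N+1)) a s + p (0 - Pi.single j 1) := by
  classical
  set e : Fin n → ℤ := Pi.single j 1 with he
  -- summability of everything
  have hphi : Summable (fun k => phi p k s * ex a k) := (phi_dom hp).summable a s (by simpa using hs)
  have hq : ∀ m : ℕ, Summable (fun k => phi (fun k => p (k - e) * (1 - 2 * (k j : ℂ)) ^ (m+1)) k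
      (s + 2 * ((m+1 : ℕ) : ℂ)) * ex a k) := by
    intro m
    have h1 : PD 1 (fun k : Fin n → ℤ => (1 - 2 * (k j : ℂ))) := by
      have h2 := PD.add (PD.constD (n := n) 1 1) ((PD.X j).smul (-2))
      convert h2 using 2
      ring
    have h3 := (hp.shift e).mul (h1.pow (m+1))
    rw [one_mul] at h3
    apply (phi_dom h3).summable a
    simp only [Complex.add_re, Complex.mul_re, Complex.re_ofNat, Complex.natCast_re,
      Complex.im_ofNat, Complex.natCast_im, mul_zero, sub_zero]
    push_cast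
    have : (0:ℝ) ≤ m := Nat.cast_nonneg m
    linarith
  have hrem : Summable (fun k => rem p j (N+1) k s * ex a k) := by
    apply (rem_dom hp j (N+1)).summable a
    push_cast
    have : (0:ℝ) ≤ N := Nat.cast_nonneg N
    linarith
  -- shifted sum
  have hshift : HasSum (fun k => phi p (k - e) s * ex a k) (zj a j * cSum (phi p) a s) := by
    have h1 : HasSum (fun k => zj a j * (phi p k s * ex a k)) (zj a j * cSum (phi p) a s) :=
      hphi.hasSum.mul_left _
    have h2 := (Equiv.subRight e).hasSum_iff.mpr h1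
    refine h2.congr_fun fun k => ?_
    simp only [Function.comp, Equiv.subRight_apply]
    have h3 : ex a k = ex a (k - e) * zj a j := by
      rw [zj, ← he, ← ex_add, sub_add_cancel]
    rw [h3]
    ring
  have hL : HasSum (fun k => phi p (k - e) s * ex a k - phi p k s * ex a k)
      (zj a j * cSum (phi p) a s - cSum (phi p) a s) := hshift.sub hphi.hasSum
  have hR : HasSum (fun k => phi (fun k => p (k - e) - p k) k s * ex a k
      + ∑ m ∈ range N, bc (m+1) (-s/2) * (phi (fun k => p (k - e) * (1 - 2 * (k j : ℂ)) ^ (m+1)) k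
        (s + 2 * ((m+1 : ℕ) : ℂ)) * ex a k)
      + rem p j (N+1) k s * ex a k + (if k = 0 then p (0 - e) else 0))
      (cSum (phi (fun k => p (k - e) - p k)) a s
      + ∑ m ∈ range N, bc (m+1) (-s/2) *
          cSum (phi (fun k => p (k - e) * (1 - 2 * (k j : ℂ)) ^ (m+1))) a (s + 2 * ((m+1 : ℕ) : ℂ))
      + cSum (rem p j (N+1)) a s + p (0 - e)) := by
    refine ((h0.hasSum.add (hasSum_sum ?_)).add hrem.hasSum).add (hasSum_ite_eq 0 _)
    intro m _
    exact (hq m).hasSum.mul_left _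
  have heq : (fun k => phi p (k - e) s * ex a k - phi p k s * ex a k) =
      (fun k => phi (fun k => p (k - e) - p k) k s * ex a k
      + ∑ m ∈ range N, bc (m+1) (-s/2) * (phi (fun k => p (k - e) * (1 - 2 * (k j : ℂ)) ^ (m+1)) k
        (s + 2 * ((m+1 : ℕ) : ℂ)) * ex a k)
      + rem p j (N+1) k s * ex a k + (if k = 0 then p (0 - e) else 0)) := by
    funext k
    by_cases hk : k = 0
    · subst hk
      have hne : (0 : Fin n → ℤ) - e ≠ 0 := by
        intro h
        have := zNorm_neg_single (n := n) j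
        rw [← he, h, zNorm_zero] at this
        norm_num at this
      have h1 : zNorm ((0 : Fin n → ℤ) - e) = 1 := zNorm_neg_single j
      have h2 : phi p (0 - e) s = p (0 - e) := by
        unfold phi
        rw [if_neg hne, h1]
        simp
      simp only [h2, ex_zero]
      simp [phi, rem]
    · have h1 : rem p j (N+1) k s = phi p (k - e) s -
        ∑ m ∈ range (N+1), bc m (-s/2) * ((p (k - e) * (1 - 2 * (k j : ℂ)) ^ m) *
          (zNorm k : ℂ) ^ (-(s + 2 * m))) := by
        simp [rem, hk, he]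
      rw [h1, Finset.sum_range_succ']
      have h2 : phi p k s = p k * (zNorm k : ℂ) ^ (-s) := by simp [phi, hk]
      have h3 : phi (fun k => p (k - e) - p k) k s = (p (k - e) - p k) * (zNorm k : ℂ) ^ (-s) := by
        simp [phi, hk]
      have h4 : ∀ m : ℕ, phi (fun k => p (k - e) * (1 - 2 * (k j : ℂ)) ^ (m+1)) k
          (s + 2 * ((m+1 : ℕ) : ℂ)) = p (k - e) * (1 - 2 * (k j : ℂ)) ^ (m+1) *
          (zNorm k : ℂ) ^ (-(s + 2 * ((m+1 : ℕ) : ℂ))) := by
        intro m
        simp [phi, hk]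
      simp only [h2, h3, h4, if_neg hk]
      have h5 : bc 0 (-s/2) * (p (k - e) * (1 - 2 * (k j : ℂ)) ^ 0 *
          (zNorm k : ℂ) ^ (-(s + 2 * ((0 : ℕ) : ℂ)))) = p (k - e) * (zNorm k : ℂ) ^ (-s) := by
        simp [bc]
      rw [h5]
      have h6 : ∑ m ∈ range N, bc (m+1) (-s/2) * (p (k - e) * (1 - 2 * (k j : ℂ)) ^ (m+1) *
          (zNorm k : ℂ) ^ (-(s + 2 * ((m+1 : ℕ) : ℂ))) * ex a k) =
          (∑ m ∈ range N, bc (m+1) (-s/2) * (p (k - e) * (1 - 2 * (k j : ℂ)) ^ (m+1) *
          (zNorm k : ℂ) ^ (-(s + 2 * ((m+1 : ℕ) : ℂ))))) * ex a k := by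
        rw [Finset.sum_mul]
        apply Finset.sum_congr rfl
        intro m _
        ring
      rw [h6]
      ring
  rw [heq] at hL
  have := hL.unique hR
  linear_combination this

theorem ext_exists (j : Fin n) (N : ℕ) : ∀ (D : ℕ) (p : (Fin n → ℤ) → ℂ), PD D p →
    ∃ F, ExtData j N D p F := by
  classical
  induction N with
  | zero =>
    intro D p hp
    refine ⟨fun a => cSum (phi p) a, ?_, ?_, ?_⟩
    · intro a _ s _; rfl
    · intro a _
      have := (phi_dom hp).differentiableOn a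
      simpa using this
    · intro R σ hσ
      obtain ⟨C, hC, hb⟩ := (phi_dom hp).bound R σ (by simpa using hσ)
      refine ⟨C, hC, ?_⟩
      intro a _ s h1 h2
      simpa using hb a s h1 h2
  | succ N ih =>
    intro D p hp
    set e : Fin n → ℤ := Pi.single j 1 with he
    -- the degree zero part
    have hlow : ∃ F0 : (Fin n → ℝ) → ℂ → ℂ,
        (∀ a, zj a j ≠ 1 → ∀ s : ℂ, (n:ℝ) + D < s.re →
          F0 a s = cSum (phi (fun k => p (k - e) - p k)) a s) ∧
        (∀ a, zj a j ≠ 1 → DifferentiableOn ℂ (F0 a) {s : ℂ | (n:ℝ) + D - ((N + 1 : ℕ) : ℝ) < s.re}) ∧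
        (∀ R σ : ℝ, (n:ℝ) + D - ((N + 1 : ℕ) : ℝ) < σ → ∃ C : ℝ, 0 ≤ C ∧ ∀ a, zj a j ≠ 1 → ∀ s : ℂ,
          ‖s‖ ≤ R → σ ≤ s.re → ‖F0 a s‖ * ‖zj a j - 1‖ ^ N ≤ C) ∧
        (∀ a, ∀ s : ℂ, (n:ℝ) + D < s.re →
          Summable (fun k => phi (fun k => p (k - e) - p k) k s * ex a k)) := by
      have hd := hp.diff e
      cases D with
      | zero =>
        have hd' : ∀ k, p (k - e) - p k = 0 := hd
        have hz : (fun k => p (k - e) - p k) = fun _ => 0 := by funext k; exact hd' k
        have hz2 : ∀ k (s : ℂ), phi (fun k => p (k - e) - p k) k s = 0 := by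
          intro k s; rw [hz]; simp [phi]
        refine ⟨fun _ _ => 0, ?_, ?_, ?_, ?_⟩
        · intro a _ s _
          simp [cSum, hz2]
        · intro a _; exact differentiableOn_const _
        · intro R σ _
          exact ⟨0, le_rfl, fun a _ s _ _ => by simp⟩
        · intro a s _
          simp only [hz2, zero_mul]
          exact summable_zero
      | succ D' =>
        have hd' : PD D' (fun k => p (k - e) - p k) := hd
        obtain ⟨F0, h1, h2, h3⟩ := ih D' _ hd'
        refine ⟨F0, ?_, ?_, ?_, ?_⟩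
        · intro a ha s hs
          apply h1 a ha s
          push_cast at hs
          linarith
        · intro a ha
          refine (h2 a ha).mono ?_
          intro s hs
          have hs' : (n:ℝ) + ((D' + 1 : ℕ) : ℝ) - ((N + 1 : ℕ) : ℝ) < s.re := hs
          change (n:ℝ) + (D' : ℝ) - (N : ℝ) < s.re
          push_cast at hs'
          linarith
        · intro R σ hσ
          apply h3 R σ
          push_cast at hσ
          linarith
        · intro a s hs
          apply (phi_dom hd').summable a s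
          push_cast at hs
          linarith
    obtain ⟨F0, h01, h02, h03, h04⟩ := hlow
    -- the higher parts
    have hqPD : ∀ m : ℕ, PD (D + (m+1)) (fun k : Fin n → ℤ => p (k - e) * (1 - 2 * (k j : ℂ)) ^ (m+1)) := by
      intro m
      have h1 : PD 1 (fun k : Fin n → ℤ => (1 - 2 * (k j : ℂ))) := by
        have h2 := PD.add (PD.constD (n := n) 1 1) ((PD.X j).smul (-2))
        convert h2 using 2
        ring
      have h3 := (hp.shift e).mul (h1.pow (m+1))
      rw [one_mul] at h3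
      exact h3
    have hhigh : ∀ m : ℕ, ∃ F, ExtData j N ((D + (m+1) : ℕ) : ℝ)
        (fun k => p (k - e) * (1 - 2 * (k j : ℂ)) ^ (m+1)) F := by
      intro m
      exact ih (D + (m+1)) _ (hqPD m)
    choose Fm hFm using hhigh
    have hremdom := rem_dom hp j (N+1)
    have hreAdd : ∀ (m : ℕ) (s : ℂ), (s + 2 * ((m+1 : ℕ) : ℂ)).re = s.re + 2 * (m+1) := by
      intro m s
      simp only [Complex.add_re, Complex.mul_re, Complex.re_ofNat, Complex.natCast_re,
        Complex.im_ofNat, Complex.natCast_im, mul_zero, sub_zero]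
      push_cast
      ring
    refine ⟨fun a s => (zj a j - 1)⁻¹ * (F0 a s
      + ∑ m ∈ range N, bc (m+1) (-s/2) * Fm m a (s + 2 * ((m+1 : ℕ) : ℂ))
      + cSum (rem p j (N+1)) a s + p (0 - e)), ?_, ?_, ?_⟩
    · intro a ha s hs
      have hz : zj a j - 1 ≠ 0 := sub_ne_zero.mpr ha
      beta_reduce
      rw [inv_mul_eq_div, div_eq_iff hz, mul_comm]
      rw [diff_identity hp j N a s hs (h04 a s hs), h01 a ha s hs]
      congr 3
      apply Finset.sum_congr rfl
      intro m _
      rw [(hFm m).1 a ha]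
      rw [hreAdd]
      push_cast
      have : (0:ℝ) ≤ m := Nat.cast_nonneg m
      linarith
    · intro a ha
      apply DifferentiableOn.const_mul
      apply DifferentiableOn.add_const
      apply DifferentiableOn.add
      · apply DifferentiableOn.add (h02 a ha)
        apply DifferentiableOn.fun_sum
        intro m _
        apply DifferentiableOn.mul
        · have h1 : Differentiable ℂ (fun s : ℂ => -s/2) := (differentiable_id.neg).div_const 2
          exact ((bc_differentiable (m+1)).comp h1).differentiableOn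
        · have h1 : Differentiable ℂ (fun s : ℂ => s + 2 * ((m+1 : ℕ):ℂ)) := differentiable_id.add_const _
          apply ((hFm m).2.1 a ha).comp h1.differentiableOn
          intro s hs
          have hs' : (n:ℝ) + D - ((N + 1 : ℕ) : ℝ) < s.re := hs
          change (n:ℝ) + ((D + (m+1) : ℕ) : ℝ) - N < (s + 2 * ((m+1 : ℕ) : ℂ)).re
          rw [hreAdd]
          push_cast at hs' ⊢
          have : (0:ℝ) ≤ m := Nat.cast_nonneg m
          linarith
      · refine (hremdom.differentiableOn a).mono ?_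
        intro s hs
        have hs' : (n:ℝ) + D - ((N + 1 : ℕ) : ℝ) < s.re := hs
        change (n:ℝ) + ((D:ℝ) - ((N + 1 : ℕ) : ℝ)) < s.re
        linarith
    · intro R0 σ hσ
      set R : ℝ := max R0 0 with hR
      have hR0 : 0 ≤ R := le_max_right _ _
      obtain ⟨C0, hC0, hb0⟩ := h03 R σ hσ
      obtain ⟨Cr, hCr, hbr⟩ := hremdom.bound R σ (by push_cast at hσ ⊢; linarith)
      have hCm : ∀ m : ℕ, ∃ C : ℝ, 0 ≤ C ∧ ∀ a, zj a j ≠ 1 → ∀ s : ℂ, ‖s‖ ≤ R → σ ≤ s.re →
          ‖bc (m+1) (-s/2) * Fm m a (s + 2 * ((m+1 : ℕ) : ℂ))‖ * ‖zj a j - 1‖ ^ N ≤ C := by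
        intro m
        obtain ⟨C1, hC1, hb1⟩ := (hFm m).2.2 (R + 2 * (m+1)) (σ + 2 * (m+1)) (by
          push_cast at hσ ⊢
          have : (0:ℝ) ≤ m := Nat.cast_nonneg m
          linarith)
        have hcont : ContinuousOn (fun s : ℂ => ‖bc (m+1) (-s/2)‖) (Metric.closedBall (0:ℂ) R) := by
          have h1 : Differentiable ℂ (fun s : ℂ => -s/2) := (differentiable_id.neg).div_const 2
          exact ((bc_differentiable (m+1)).comp h1).continuous.norm.continuousOn
        obtain ⟨B, hB⟩ := (isCompact_closedBall (0:ℂ) R).bddAbove_image hcont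
        refine ⟨max B 0 * C1, by positivity, ?_⟩
        intro a ha s hs1 hs2
        have h2 : ‖bc (m+1) (-s/2)‖ ≤ max B 0 :=
          le_trans (hB ⟨s, by simpa using hs1, rfl⟩) (le_max_left _ _)
        have h3 := hb1 a ha (s + 2 * ((m+1 : ℕ) : ℂ)) (by
          calc ‖s + 2 * ((m+1 : ℕ) : ℂ)‖ ≤ ‖s‖ + ‖2 * ((m+1 : ℕ) : ℂ)‖ := norm_add_le _ _
            _ ≤ R + 2 * (m+1) := by
              rw [norm_mul, Complex.norm_natCast]
              simp only [Complex.norm_ofNat]
              push_cast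
              linarith) (by rw [hreAdd]; linarith)
        rw [norm_mul, mul_assoc]
        gcongr
      choose Cm hCm0 hbm using hCm
      refine ⟨C0 + ∑ m ∈ range N, Cm m + Cr * 2 ^ N + ‖p (0 - e)‖ * 2 ^ N, ?_, ?_⟩
      · have : 0 ≤ ∑ m ∈ range N, Cm m := Finset.sum_nonneg fun m _ => hCm0 m
        positivity
      · intro a ha s hs1 hs2
        have hsR : ‖s‖ ≤ R := hs1.trans (le_max_left _ _)
        have hz : zj a j - 1 ≠ 0 := sub_ne_zero.mpr ha
        have hzn : 0 < ‖zj a j - 1‖ := norm_pos_iff.mpr hz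
        have hz2 : ‖zj a j - 1‖ ^ N ≤ 2 ^ N := by
          gcongr
          exact norm_zj_sub_one_le a j
        rw [norm_mul, norm_inv, pow_succ]
        set X : ℂ := F0 a s + ∑ m ∈ range N, bc (m+1) (-s/2) * Fm m a (s + 2 * ((m+1 : ℕ) : ℂ))
          + cSum (rem p j (N+1)) a s + p (0 - e) with hX
        have h1 : ‖zj a j - 1‖⁻¹ * ‖X‖ * (‖zj a j - 1‖ ^ N * ‖zj a j - 1‖) = ‖X‖ * ‖zj a j - 1‖ ^ N := by
          field_simp
        rw [h1]
        have h2 : ‖X‖ ≤ ‖F0 a s‖ + ∑ m ∈ range N, ‖bc (m+1) (-s/2) * Fm m a (s + 2 * ((m+1 : ℕ) : ℂ))‖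
            + ‖cSum (rem p j (N+1)) a s‖ + ‖p (0 - e)‖ := by
          rw [hX]
          refine (norm_add_le _ _).trans ?_
          gcongr
          refine (norm_add_le _ _).trans ?_
          gcongr
          refine (norm_add_le _ _).trans ?_
          gcongr
          exact norm_sum_le _ _
        calc ‖X‖ * ‖zj a j - 1‖ ^ N ≤ (‖F0 a s‖ + ∑ m ∈ range N, ‖bc (m+1) (-s/2) * Fm m a (s + 2 * ((m+1 : ℕ) : ℂ))‖
            + ‖cSum (rem p j (N+1)) a s‖ + ‖p (0 - e)‖) * ‖zj a j - 1‖ ^ N := by gcongr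
          _ = ‖F0 a s‖ * ‖zj a j - 1‖ ^ N + ∑ m ∈ range N, ‖bc (m+1) (-s/2) * Fm m a (s + 2 * ((m+1 : ℕ) : ℂ))‖ * ‖zj a j - 1‖ ^ N
            + ‖cSum (rem p j (N+1)) a s‖ * ‖zj a j - 1‖ ^ N + ‖p (0 - e)‖ * ‖zj a j - 1‖ ^ N := by
              rw [add_mul, add_mul, add_mul, Finset.sum_mul]
          _ ≤ _ := by
              gcongr
              · exact hb0 a ha s hsR hs2
              · exact hbm _ a ha s hsR hs2
              · exact hbr a s hsR hs2

end Pool.Agent.Lib_helper5.Lat
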