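import Pool.Agent.Lib_helper5.LatPair

/-!
Lower bound for the continuation near lattice points and the pole at lattice points.
-/

set_option maxHeartbeats 400000

namespace Pool.Agent.Lib_helper5.Lat

open HurwitzZeta MeasureTheory Set

variable {n : ℕ}

/-- real version of the modified function -/
noncomputable def fmR (a : Fin n → ℝ) (t : ℝ) : ℝ :=
  (Ioi 1).indicator (fun t => thF a t - 1) t + (Ioo 0 1).indicator (fun t => thF a t) t

lemma f_modif_eq (hn : 0 < n) (a : Fin n → ℝ) (ha : ∀ m : Fin n → ℤ, a ≠ fun i => (m i : ℝ)) (t : ℝ) :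
    (thPair hn a).f_modif t = ((fmR a t : ℝ) : ℂ) := by
  have h1 : (thPair hn a).g₀ = 0 := by
    change ((g0c a : ℝ) : ℂ) = 0
    rw [g0c_eq_zero a ha]
    simp
  have h2 : (thPair hn a).f₀ = 1 := rfl
  have h3 : ∀ t, (thPair hn a).f t = ((thF a t : ℝ) : ℂ) := fun t => rfl
  unfold WeakFEPair.f_modif fmR
  rw [h1, h2]
  simp only [Pi.add_apply, h3, smul_zero, sub_zero, Set.indicator_apply]
  split_ifs <;> simp

/-- integrability of the real Mellin integrand -/
lemma integrableOn_fmR (hn : 0 < n) (a : Fin n → ℝ) (ha : ∀ m : Fin n → ℤ, a ≠ fun i => (m i : ℝ))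
    (σ : ℝ) : IntegrableOn (fun t => t ^ (σ - 1) * fmR a t) (Ioi 0) := by
  have h := ((thPair hn a).isStrongFEPair_toStrongFEPair.hasMellin (σ : ℂ)).1
  have h1 : IntegrableOn (fun t : ℝ => (t : ℂ) ^ ((σ : ℂ) - 1) • (thPair hn a).f_modif t) (Ioi 0) := h
  have h2 : IntegrableOn (fun t : ℝ => ((t ^ (σ - 1) * fmR a t : ℝ) : ℂ)) (Ioi 0) := by
    refine h1.congr_fun ?_ measurableSet_Ioi
    intro t ht
    have ht' : 0 < t := ht
    simp only
    rw [f_modif_eq hn a ha, smul_eq_mul]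
    push_cast
    rw [Complex.ofReal_cpow ht'.le]
    push_cast
    rfl
  have h3 := h2.re
  simp only [RCLike.re_to_complex, Complex.ofReal_re] at h3
  exact h3

lemma Lambda0_eq (hn : 0 < n) (a : Fin n → ℝ) (ha : ∀ m : Fin n → ℤ, a ≠ fun i => (m i : ℝ))
    (σ : ℝ) : (thPair hn a).Λ₀ (σ : ℂ) = ((∫ t in Ioi 0, t ^ (σ - 1) * fmR a t : ℝ) : ℂ) := by
  unfold WeakFEPair.Λ₀ mellin
  rw [← integral_complex_ofReal]
  apply setIntegral_congr_fun measurableSet_Ioi
  intro t ht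
  have ht' : 0 < t := ht
  simp only
  rw [f_modif_eq hn a ha, smul_eq_mul]
  push_cast
  rw [Complex.ofReal_cpow ht'.le]
  push_cast
  rfl

/-- integrability at infinity of `θ_0 - 1` -/
lemma integrableOn_tail (hn : 0 < n) (σ : ℝ) :
    IntegrableOn (fun t => t ^ (σ - 1) * (thF (0 : Fin n → ℝ) t - 1)) (Ioi 1) := by
  have h := ((thPair hn (0 : Fin n → ℝ)).isStrongFEPair_toStrongFEPair.hasMellin (σ : ℂ)).1
  have h1 : IntegrableOn (fun t : ℝ => (t : ℂ) ^ ((σ : ℂ) - 1) • (thPair hn (0 : Fin n → ℝ)).f_modif t) (Ioi 0) := h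
  have h2 : IntegrableOn (fun t : ℝ => ((t ^ (σ - 1) * (thF (0 : Fin n → ℝ) t - 1) : ℝ) : ℂ)) (Ioi 1) := by
    refine (h1.mono_set (Ioi_subset_Ioi zero_le_one)).congr_fun ?_ measurableSet_Ioi
    intro t ht
    have ht' : 1 < t := ht
    have ht0 : 0 < t := by linarith
    simp only
    have h3 : (thPair hn (0 : Fin n → ℝ)).f_modif t = ((thF (0 : Fin n → ℝ) t - 1 : ℝ) : ℂ) := by
      unfold WeakFEPair.f_modif
      simp only [Pi.add_apply, Set.indicator_apply]
      rw [if_pos ht, if_neg (by simp; intro _; linarith), add_zero]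
      have h4 : (thPair hn (0 : Fin n → ℝ)).f t = ((thF (0 : Fin n → ℝ) t : ℝ) : ℂ) := rfl
      have h5 : (thPair hn (0 : Fin n → ℝ)).f₀ = 1 := rfl
      rw [h4, h5]
      push_cast
      rfl
    rw [h3, smul_eq_mul]
    push_cast
    rw [Complex.ofReal_cpow ht0.le]
    push_cast
    rfl
  have h3 := h2.re
  simp only [RCLike.re_to_complex, Complex.ofReal_re] at h3
  exact h3

/-- pointwise lower bound for theta near zero -/
lemma thF_ge (a : Fin n → ℝ) (m : Fin n → ℤ) {t : ℝ} (ht : 0 < t) :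
    t ^ (-((n : ℝ) / 2)) * Real.exp (-Real.pi * eNorm (fun i => a i - (m i : ℝ)) ^ 2 * (1 / t)) ≤ thF a t := by
  have h1 := thF_inv a (x := 1 / t) (by positivity)
  rw [one_div_one_div] at h1
  rw [h1]
  have h2 : t ^ (-((n : ℝ) / 2)) = (1 / t) ^ ((n:ℝ) / 2) := by
    rw [one_div, Real.inv_rpow ht.le, Real.rpow_neg ht.le]
  rw [h2]
  have h3 := thG_ge a m (t := 1 / t) (by positivity)
  have h4 : 0 ≤ (1 / t) ^ ((n:ℝ) / 2) := by positivity
  exact mul_le_mul_of_nonneg_left h3 h4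

lemma integral_lower (hn : 0 < n) (σ : ℝ) (hσ : σ < (n : ℝ) / 2) :
    ∃ c : ℝ, 0 < c ∧ ∃ C : ℝ, 0 ≤ C ∧ ∀ a : Fin n → ℝ, (∀ m : Fin n → ℤ, a ≠ fun i => (m i : ℝ)) →
      ∀ m : Fin n → ℤ, eNorm (fun i => a i - (m i : ℝ)) ≤ 1/2 →
        c * eNorm (fun i => a i - (m i : ℝ)) ^ (2 * σ - n) - C ≤ ∫ t in Ioi 0, t ^ (σ - 1) * fmR a t := by
  set e : ℝ := σ - 1 - (n:ℝ) / 2 with he
  have heneg : e < 0 := by rw [he]; linarith
  set C : ℝ := ∫ t in Ioi (1:ℝ), t ^ (σ - 1) * (thF (0 : Fin n → ℝ) t - 1) with hC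
  have hCnn : 0 ≤ C := by
    apply setIntegral_nonneg measurableSet_Ioi
    intro t ht
    have ht' : 1 < t := ht
    have ht0 : 0 < t := by linarith
    have h1 := abs_thF_sub_one_le (0 : Fin n → ℝ) ht0
    have h2 := (abs_nonneg _).trans h1
    have h3 : 0 ≤ t ^ (σ - 1) := Real.rpow_nonneg ht0.le _
    exact mul_nonneg h3 h2
  refine ⟨3 * (4 ^ e * Real.exp (-Real.pi)), by positivity, C, hCnn, ?_⟩
  intro a ha m hm
  set ρ : ℝ := eNorm (fun i => a i - (m i : ℝ)) with hρ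
  have hρ0 : 0 < ρ := by
    rcases (eNorm_nonneg (fun i => a i - (m i : ℝ))).lt_or_eq with h | h
    · exact h
    · exfalso
      apply ha m
      funext i
      have h1 := abs_le_eNorm (fun i => a i - (m i : ℝ)) i
      rw [← h] at h1
      have h2 : |a i - (m i : ℝ)| = 0 := le_antisymm h1 (abs_nonneg _)
      rw [abs_eq_zero] at h2
      linarith
  have hint := integrableOn_fmR hn a ha σ
  -- split the integral at 1
  have hunion : Ioi (0:ℝ) = Ioc 0 1 ∪ Ioi 1 := (Ioc_union_Ioi_eq_Ioi zero_le_one).symm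
  have hsplit : ∫ t in Ioi (0:ℝ), t ^ (σ - 1) * fmR a t
      = (∫ t in Ioc (0:ℝ) 1, t ^ (σ - 1) * fmR a t) + ∫ t in Ioi (1:ℝ), t ^ (σ - 1) * fmR a t := by
    rw [hunion]
    apply setIntegral_union
    · rw [Set.disjoint_left]
      intro x hx hx2
      exact absurd hx2 (not_lt.mpr hx.2)
    · exact measurableSet_Ioi
    · exact hint.mono_set (by rw [hunion]; exact subset_union_left)
    · exact hint.mono_set (by rw [hunion]; exact subset_union_right)
  -- tail
  have htail : -C ≤ ∫ t in Ioi (1:ℝ), t ^ (σ - 1) * fmR a t := by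
    rw [hC, ← integral_neg]
    apply setIntegral_mono_on
    · exact (integrableOn_tail hn σ).neg
    · exact hint.mono_set (by rw [hunion]; exact subset_union_right)
    · exact measurableSet_Ioi
    · intro t ht
      have ht' : 1 < t := ht
      have ht0 : 0 < t := by linarith
      have h1 : fmR a t = thF a t - 1 := by
        unfold fmR
        simp only [Set.indicator_apply]
        rw [if_pos ht, if_neg (by simp; intro _; linarith), add_zero]
      rw [h1]
      have h2 := abs_le.mp (abs_thF_sub_one_le a ht0)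
      have h3 : 0 ≤ t ^ (σ - 1) := Real.rpow_nonneg ht0.le _
      nlinarith [mul_le_mul_of_nonneg_left h2.1 h3]
  -- nonnegativity on (0,1]
  have hnn : ∀ t ∈ Ioc (0:ℝ) 1, 0 ≤ t ^ (σ - 1) * fmR a t := by
    intro t ht
    have ht0 : 0 < t := ht.1
    have h3 : 0 ≤ t ^ (σ - 1) := Real.rpow_nonneg ht0.le _
    apply mul_nonneg h3
    unfold fmR
    simp only [Set.indicator_apply]
    rw [if_neg (by simp; exact ht.2), zero_add]
    split_ifs
    · refine le_trans ?_ (thF_ge a m ht0)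
      have : 0 ≤ t ^ (-((n : ℝ) / 2)) := Real.rpow_nonneg ht0.le _
      positivity
    · exact le_rfl
  -- main part
  have hρ2 : 0 < ρ ^ 2 := by positivity
  have h4ρ : 4 * ρ ^ 2 ≤ 1 := by nlinarith
  have hsub : Ioo (ρ ^ 2) (4 * ρ ^ 2) ⊆ Ioc (0:ℝ) 1 := by
    intro t ht
    exact ⟨lt_trans hρ2 ht.1, (ht.2.le).trans h4ρ⟩
  have hmain1 : ∫ t in Ioo (ρ ^ 2) (4 * ρ ^ 2), t ^ (σ - 1) * fmR a t
      ≤ ∫ t in Ioc (0:ℝ) 1, t ^ (σ - 1) * fmR a t := by
    apply setIntegral_mono_set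
    · exact hint.mono_set (by rw [hunion]; exact subset_union_left)
    · rw [Filter.EventuallyLE, ae_restrict_iff' measurableSet_Ioc]
      exact Filter.Eventually.of_forall hnn
    · exact hsub.eventuallyLE
  have hmain2 : ∫ t in Ioo (ρ ^ 2) (4 * ρ ^ 2), ((4 * ρ ^ 2) ^ e * Real.exp (-Real.pi) : ℝ)
      ≤ ∫ t in Ioo (ρ ^ 2) (4 * ρ ^ 2), t ^ (σ - 1) * fmR a t := by
    apply setIntegral_mono_on
    · refine integrableOn_const ?_ ?_
      · rw [Real.volume_Ioo]; exact ENNReal.ofReal_ne_top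
      · exact enorm_ne_top
    · exact hint.mono_set (hsub.trans (by rw [hunion]; exact subset_union_left))
    · exact measurableSet_Ioo
    · intro t ht
      have ht0 : 0 < t := lt_trans hρ2 ht.1
      have ht1 : t < 1 := lt_of_lt_of_le ht.2 h4ρ
      have h1 : fmR a t = thF a t := by
        unfold fmR
        simp only [Set.indicator_apply]
        rw [if_neg (by simp; exact ht1.le), zero_add, if_pos ⟨ht0, ht1⟩]
      rw [h1]
      have h2 := thF_ge a m ht0
      have h3 : Real.exp (-Real.pi) ≤ Real.exp (-Real.pi * ρ ^ 2 * (1 / t)) := by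
        apply Real.exp_le_exp.mpr
        have h4 : ρ ^ 2 * (1 / t) ≤ 1 := by
          rw [mul_one_div, div_le_one ht0]
          exact ht.1.le
        nlinarith [Real.pi_pos]
      have h5 : (4 * ρ ^ 2) ^ e ≤ t ^ e :=
        Real.rpow_le_rpow_of_nonpos ht0 ht.2.le heneg.le
      have h6 : t ^ e = t ^ (σ - 1) * t ^ (-((n:ℝ)/2)) := by
        rw [← Real.rpow_add ht0, he]
        congr 1
      have h7 : 0 ≤ t ^ (σ - 1) := Real.rpow_nonneg ht0.le _
      have h8 : 0 ≤ t ^ (-((n:ℝ)/2)) := Real.rpow_nonneg ht0.le _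
      calc (4 * ρ ^ 2) ^ e * Real.exp (-Real.pi) ≤ t ^ e * Real.exp (-Real.pi * ρ ^ 2 * (1 / t)) := by
            have h9 : 0 ≤ t ^ e := Real.rpow_nonneg ht0.le _
            gcongr
        _ = t ^ (σ - 1) * (t ^ (-((n:ℝ)/2)) * Real.exp (-Real.pi * ρ ^ 2 * (1 / t))) := by
            rw [h6]; ring
        _ ≤ t ^ (σ - 1) * thF a t := by
            gcongr
  have hconst : ∫ t in Ioo (ρ ^ 2) (4 * ρ ^ 2), ((4 * ρ ^ 2) ^ e * Real.exp (-Real.pi) : ℝ)
      = 3 * (4 ^ e * Real.exp (-Real.pi)) * ρ ^ (2 * σ - n) := by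
    rw [setIntegral_const, Measure.real, Real.volume_Ioo, ENNReal.toReal_ofReal (by nlinarith), smul_eq_mul]
    have h1 : (4 * ρ ^ 2) ^ e = 4 ^ e * ρ ^ (2 * e) := by
      rw [Real.mul_rpow (by norm_num) hρ2.le, ← Real.rpow_natCast, ← Real.rpow_mul hρ0.le]
      norm_num
    have h2 : ρ ^ (2 * σ - n) = ρ ^ 2 * ρ ^ (2 * e) := by
      rw [← Real.rpow_natCast, ← Real.rpow_add hρ0, he]
      congr 1
      push_cast
      ring
    rw [h1, h2]
    ring
  rw [hsplit]
  linarith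

lemma Gammaℝ_ofReal_pos (σ : ℝ) (hσ : 0 < σ) : ∃ g : ℝ, 0 < g ∧ (σ : ℂ).Gammaℝ = (g : ℂ) := by
  refine ⟨Real.pi ^ (-σ / 2) * Real.Gamma (σ / 2), ?_, ?_⟩
  · have := Real.Gamma_pos_of_pos (s := σ / 2) (by positivity)
    positivity
  · rw [Complex.Gammaℝ_def]
    push_cast
    rw [Complex.ofReal_cpow Real.pi_pos.le, ← Complex.Gamma_ofReal]
    push_cast
    rfl

/-- lower bound for any entire extension at a real point `σ ∈ (0,n)` -/
theorem entire_lower (hn : 0 < n) (σ : ℝ) (hσ0 : 0 < σ) (hσ : σ < n) :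
    ∃ c : ℝ, 0 < c ∧ ∃ C : ℝ, 0 ≤ C ∧ ∀ a : Fin n → ℝ, (∀ m : Fin n → ℤ, a ≠ fun i => (m i : ℝ)) →
      ∀ m : Fin n → ℤ, eNorm (fun i => a i - (m i : ℝ)) ≤ 1/2 →
      ∀ G : ℂ → ℂ, Differentiable ℂ G → (∀ s : ℂ, (n:ℝ) < s.re → G s = fone a s) →
        c * eNorm (fun i => a i - (m i : ℝ)) ^ (σ - n) - C ≤ ‖G σ‖ := by
  obtain ⟨c, hc, C, hC, h⟩ := integral_lower hn (σ / 2) (by linarith)
  obtain ⟨g, hg, hg'⟩ := Gammaℝ_ofReal_pos σ hσ0
  refine ⟨c / g, by positivity, (C + 2 / σ) / g, by positivity, ?_⟩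
  intro a ha m hm G hG hGf
  have h1 := entire_eq_Lambda hn a ha G hG hGf (σ : ℂ) (by simpa using hσ0)
  have h2 := h a ha m hm
  have h3 : ((σ : ℂ) / 2) = ((σ / 2 : ℝ) : ℂ) := by push_cast; rfl
  rw [h3, Lambda0_eq hn a ha, hg'] at h1
  set I : ℝ := ∫ t in Ioi 0, t ^ (σ / 2 - 1) * fmR a t with hI
  have h4 : (g : ℂ) * G σ = ((I - 2 / σ : ℝ) : ℂ) := by
    rw [h1]
    push_cast
    rfl
  have h5 : g * ‖G σ‖ = |I - 2 / σ| := by
    have := congrArg norm h4
    rw [norm_mul, Complex.norm_real, Complex.norm_real, Real.norm_eq_abs, Real.norm_eq_abs,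
      abs_of_pos hg] at this
    exact this
  have h6 : I - 2 / σ ≤ g * ‖G σ‖ := by rw [h5]; exact le_abs_self _
  have h7 : 2 * (σ / 2) - (n:ℝ) = σ - n := by ring
  rw [h7] at h2
  have h8 : c / g * eNorm (fun i => a i - (m i : ℝ)) ^ (σ - n) - (C + 2 / σ) / g
      = (c * eNorm (fun i => a i - (m i : ℝ)) ^ (σ - n) - C - 2 / σ) / g := by
    field_simp
    ring
  rw [h8, div_le_iff₀ hg]
  linarith

/-- at lattice points there is no entire extension -/
theorem no_entire_at_lattice (hn : 0 < n) (a : Fin n → ℝ) (m : Fin n → ℤ) (ha : a = fun i => (m i : ℝ))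
    (G : ℂ → ℂ) (hG : Differentiable ℂ G) (hGf : ∀ s : ℂ, (n:ℝ) < s.re → G s = fone a s) : False := by
  have hres := (thPair hn a).Λ_residue_k
  have h1 : (thPair hn a).g₀ = 1 := by
    change ((g0c a : ℝ) : ℂ) = 1
    rw [g0c_eq_one a m ha]
    simp
  have h2 : (thPair hn a).ε = 1 := rfl
  have h3 : (thPair hn a).k = (n:ℝ)/2 := rfl
  rw [h1, h2, h3] at hres
  simp only [smul_eq_mul, mul_one] at hres
  -- sequence
  let u : ℕ → ℂ := fun j => (((n:ℝ)/2 + 1 / ((j:ℝ) + 1) : ℝ) : ℂ)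
  have hu1 : Filter.Tendsto u Filter.atTop (nhds (((n:ℝ)/2 : ℝ) : ℂ)) := by
    have : Filter.Tendsto (fun j : ℕ => ((n:ℝ)/2 + 1 / ((j:ℝ) + 1) : ℝ)) Filter.atTop (nhds ((n:ℝ)/2 + 0)) :=
      tendsto_const_nhds.add tendsto_one_div_add_atTop_nhds_zero_nat
    rw [add_zero] at this
    exact (Complex.continuous_ofReal.tendsto _).comp this
  have hu2 : Filter.Tendsto u Filter.atTop (nhdsWithin (((n:ℝ)/2 : ℝ) : ℂ) {(((n:ℝ)/2 : ℝ) : ℂ)}ᶜ) := by
    apply tendsto_nhdsWithin_of_tendsto_nhds_of_eventually_within _ hu1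
    apply Filter.Eventually.of_forall
    intro j h
    have h' : u j = (((n:ℝ)/2 : ℝ) : ℂ) := h
    simp only [u] at h'
    have h4 : ((n:ℝ)/2 + 1 / ((j:ℝ) + 1) : ℝ) = (n:ℝ)/2 := by exact_mod_cast h'
    have h5 : 0 < 1 / ((j:ℝ) + 1) := by positivity
    linarith
  have hlim1 := hres.comp hu2
  have hlim2 : Filter.Tendsto (fun j => (u j - (((n:ℝ)/2 : ℝ) : ℂ)) * ((2 * u j).Gammaℝ * G (2 * u j)))
      Filter.atTop (nhds 0) := by
    have hcG : ContinuousAt (fun z : ℂ => (2 * z).Gammaℝ * G (2 * z)) (((n:ℝ)/2 : ℝ) : ℂ) := by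
      apply ContinuousAt.mul
      · have : DifferentiableAt ℂ (fun z : ℂ => (Real.pi : ℂ) ^ (-(2*z) / 2) * Complex.Gamma ((2*z) / 2)) (((n:ℝ)/2 : ℝ) : ℂ) := by
          apply DifferentiableAt.mul
          · apply DifferentiableAt.const_cpow
            · fun_prop
            · left; exact_mod_cast Real.pi_ne_zero
          · apply DifferentiableAt.comp (g := Complex.Gamma) (f := fun s : ℂ => (2 * s) / 2)
            · apply Complex.differentiableAt_Gamma
              intro k hk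
              have h5 : (2 * (((n:ℝ)/2 : ℝ) : ℂ)) / 2 = (((n:ℝ)/2 : ℝ) : ℂ) := by ring
              rw [h5] at hk
              have h6 : ((n:ℝ)/2 : ℝ) = -(k:ℝ) := by
                have := congrArg Complex.re hk
                simpa using this
              have h7 : (0:ℝ) ≤ k := Nat.cast_nonneg k
              have h8 : (0:ℝ) < n := by exact_mod_cast hn
              linarith
            · fun_prop
        exact this.continuousAt
      · exact (hG.continuous.comp (continuous_const.mul continuous_id)).continuousAt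
    have h4 : Filter.Tendsto (fun j => (u j - (((n:ℝ)/2 : ℝ) : ℂ))) Filter.atTop (nhds 0) := by
      have := hu1.sub_const (((n:ℝ)/2 : ℝ) : ℂ)
      rwa [sub_self] at this
    have h5 := h4.mul (hcG.tendsto.comp hu1)
    rw [zero_mul] at h5
    exact h5
  have heq : ∀ j, ((fun s : ℂ => (s - (((n:ℝ)/2 : ℝ) : ℂ)) * (thPair hn a).Λ s) ∘ u) j
      = (u j - (((n:ℝ)/2 : ℝ) : ℂ)) * ((2 * u j).Gammaℝ * G (2 * u j)) := by
    intro j
    simp only [Function.comp]
    congr 1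
    have h5 : 0 < 1 / ((j:ℝ) + 1) := by positivity
    have h6 : (n:ℝ) < (2 * u j).re := by
      have : (2 * u j).re = 2 * ((n:ℝ)/2 + 1 / ((j:ℝ) + 1)) := by
        simp only [u]
        rw [show (2:ℂ) * (((n:ℝ)/2 + 1 / ((j:ℝ) + 1) : ℝ) : ℂ) = ((2 * ((n:ℝ)/2 + 1 / ((j:ℝ) + 1)) : ℝ) : ℂ) by push_cast; ring, Complex.ofReal_re]
      rw [this]
      linarith
    rw [hGf _ h6, fone_eq_Lambda hn a _ h6]
    congr 1
    ring
  have hlim3 : Filter.Tendsto (fun j => (u j - (((n:ℝ)/2 : ℝ) : ℂ)) * ((2 * u j).Gammaℝ * G (2 * u j)))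
      Filter.atTop (nhds 1) := by
    refine hlim1.congr ?_
    intro j
    exact heq j
  have := tendsto_nhds_unique hlim2 hlim3
  exact zero_ne_one this

end Pool.Agent.Lib_helper5.Lat
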