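import Pool.Agent.Lib_helper5.LatExt

/-!
Sufficiency: the Diophantine condition (D) implies property (H).
-/

namespace Pool.Agent.Lib_helper5.Lat

open Finset

variable {n : ℕ}

/-- gluing continuations to all left half-planes -/
lemma glue (A : ℝ) (g : ℂ → ℂ)
    (h : ∀ N : ℕ, ∃ G : ℂ → ℂ, DifferentiableOn ℂ G {s : ℂ | A - N < s.re} ∧
      ∀ s : ℂ, A < s.re → G s = g s) :
    ∃ G : ℂ → ℂ, Differentiable ℂ G ∧ ∀ s : ℂ, A < s.re → G s = g s := by
  choose G hG1 hG2 using h
  have hopen : ∀ x : ℝ, IsOpen {s : ℂ | x < s.re} := fun x =>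
    isOpen_lt continuous_const Complex.continuous_re
  have hEq : ∀ N N' : ℕ, N ≤ N' → Set.EqOn (G N) (G N') {s : ℂ | A - N < s.re} := by
    intro N N' hNN
    have h1 : AnalyticOnNhd ℂ (G N) {s : ℂ | A - N < s.re} := (hG1 N).analyticOnNhd (hopen _)
    have h2 : AnalyticOnNhd ℂ (G N') {s : ℂ | A - N < s.re} := by
      refine ((hG1 N').analyticOnNhd (hopen _)).mono ?_
      intro s hs
      have hs' : A - (N:ℝ) < s.re := hs
      change A - (N':ℝ) < s.re
      have : (N : ℝ) ≤ N' := by exact_mod_cast hNN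
      linarith
    have hz : ((A + 1 : ℝ) : ℂ) ∈ {s : ℂ | A < s.re} := by
      change A < ((A + 1 : ℝ) : ℂ).re
      simp
    have hz' : ((A + 1 : ℝ) : ℂ) ∈ {s : ℂ | A - N < s.re} := by
      change A - N < ((A + 1 : ℝ) : ℂ).re
      simp only [Complex.ofReal_re]
      have : (0 : ℝ) ≤ N := Nat.cast_nonneg N
      linarith
    apply h1.eqOn_of_preconnected_of_eventuallyEq h2
      (convex_halfSpace_re_gt _).isPreconnected hz'
    filter_upwards [(hopen A).mem_nhds hz] with s hs
    rw [hG2 N s hs, hG2 N' s hs]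
  let Nf : ℂ → ℕ := fun s => ⌈A - s.re⌉₊ + 1
  have hNf : ∀ s : ℂ, A - (Nf s : ℝ) < s.re := by
    intro s
    have h1 : A - s.re ≤ ⌈A - s.re⌉₊ := Nat.le_ceil _
    have h2 : (Nf s : ℝ) = ⌈A - s.re⌉₊ + 1 := by simp [Nf]
    rw [h2]
    linarith
  refine ⟨fun s => G (Nf s) s, ?_, ?_⟩
  · intro s0
    let N1 : ℕ := Nf s0 + 1
    have hmem : {s : ℂ | s0.re - 1 < s.re} ∈ nhds s0 := by
      apply (hopen _).mem_nhds
      change s0.re - 1 < s0.re
      linarith
    have hev : (fun s => G (Nf s) s) =ᶠ[nhds s0] G N1 := by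
      filter_upwards [hmem] with s hs
      have hs' : s0.re - 1 < s.re := hs
      have h1 : Nf s ≤ N1 := by
        have h2 : ⌈A - s.re⌉₊ ≤ ⌈A - s0.re⌉₊ + 1 := by
          rw [Nat.ceil_le]
          have := Nat.le_ceil (A - s0.re)
          push_cast
          linarith
        simp only [Nf, N1]
        omega
      exact hEq (Nf s) N1 h1 (hNf s)
    have hd : DifferentiableAt ℂ (G N1) s0 := by
      have h1 : s0 ∈ {s : ℂ | A - (N1 : ℝ) < s.re} := by
        change A - (N1 : ℝ) < s0.re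
        have := hNf s0
        have h2 : (N1 : ℝ) = (Nf s0 : ℝ) + 1 := by simp [N1]
        rw [h2]
        linarith
      exact (hG1 N1 s0 h1).differentiableAt ((hopen _).mem_nhds h1)
    exact hd.congr_of_eventuallyEq hev
  · intro s hs
    exact hG2 _ s hs

/-- polynomially weighted bounds for rapidly decreasing sequences -/
lemma RapidDecay.pow_bound {q : ℕ} {b : (Fin q → Fin n → ℤ) → ℂ} (hb : RapidDecay b) (B : ℕ) :
    ∃ C : ℝ, 0 ≤ C ∧ ∀ l, (1 + ‖l‖) ^ B * ‖b l‖ ≤ C := by
  classical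
  obtain ⟨C0, hC0⟩ := hb (fun _ _ => 0)
  have hC0' : ∀ l, ‖b l‖ ≤ C0 := by
    intro l
    have := hC0 l
    simpa using this
  have h1 : ∀ i : Fin q, ∀ j : Fin n, ∃ C : ℝ, 0 ≤ C ∧ ∀ l, |(l i j : ℝ)| ^ B * ‖b l‖ ≤ C := by
    intro i j
    obtain ⟨C, hC⟩ := hb (fun i' j' => if i' = i ∧ j' = j then B else 0)
    refine ⟨max C 0, le_max_right _ _, fun l => ?_⟩
    refine le_trans ?_ (le_max_left _ _)
    have h2 := hC l
    have h3 : (∏ i', ∏ j', |(l i' j' : ℝ)| ^ (if i' = i ∧ j' = j then B else 0))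
        = |(l i j : ℝ)| ^ B := by
      rw [Finset.prod_eq_single i]
      · rw [Finset.prod_eq_single j]
        · simp
        · intro j' _ hj'; simp [hj']
        · intro h; exact absurd (mem_univ j) h
      · intro i' _ hi'
        apply Finset.prod_eq_one
        intro j' _
        simp [hi']
      · intro h; exact absurd (mem_univ i) h
    rw [h3] at h2
    exact h2
  choose C hC hbd using h1
  have hCs : 0 ≤ ∑ i, ∑ j, C i j := Finset.sum_nonneg fun i _ => Finset.sum_nonneg fun j _ => hC i j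
  refine ⟨2 ^ B * (max C0 0 + ∑ i, ∑ j, C i j), by positivity, ?_⟩
  intro l
  by_cases h : ‖l‖ ≤ 1
  · have h2 : (1 + ‖l‖) ^ B ≤ 2 ^ B := by
      gcongr
      linarith
    have h3 : ‖b l‖ ≤ max C0 0 + ∑ i, ∑ j, C i j := by
      have := hC0' l
      have := le_max_left C0 0
      linarith
    gcongr
  · have h1l : 1 < ‖l‖ := lt_of_not_ge h
    have hex : ∃ i j, ‖l‖ ≤ |(l i j : ℝ)| := by
      by_contra hcon
      push Not at hcon
      have h4 : ‖l‖ < ‖l‖ := by
        rw [pi_norm_lt_iff (by linarith)]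
        intro i
        rw [pi_norm_lt_iff (by linarith)]
        intro j
        rw [Int.norm_eq_abs]
        exact hcon i j
      exact lt_irrefl _ h4
    obtain ⟨i, j, hij⟩ := hex
    have h2 : (1 + ‖l‖) ^ B ≤ 2 ^ B * |(l i j : ℝ)| ^ B := by
      rw [← mul_pow]
      gcongr
      linarith
    calc (1 + ‖l‖) ^ B * ‖b l‖ ≤ (2 ^ B * |(l i j : ℝ)| ^ B) * ‖b l‖ := by gcongr
      _ = 2 ^ B * (|(l i j : ℝ)| ^ B * ‖b l‖) := by ring
      _ ≤ 2 ^ B * C i j := by
          have := hbd i j l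
          gcongr
      _ ≤ 2 ^ B * (max C0 0 + ∑ i, ∑ j, C i j) := by
          have h5 : C i j ≤ ∑ j, C i j :=
            Finset.single_le_sum (f := fun j => C i j) (fun j _ => hC i j) (mem_univ j)
          have h6 : ∑ j, C i j ≤ ∑ i, ∑ j, C i j :=
            Finset.single_le_sum (f := fun i => ∑ j, C i j)
              (fun i _ => Finset.sum_nonneg fun j _ => hC i j) (mem_univ i)
          have := le_max_right C0 0
          gcongr
          linarith

lemma summable_one_add_norm {q : ℕ} (r : ℕ) (hr : q * n < r) :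
    Summable fun l : Fin q → Fin n → ℤ => ((1 + ‖l‖) ^ r)⁻¹ := by
  classical
  have h1 : Summable fun l : Fin q × Fin n → ℤ => ‖l‖ ^ (-(r : ℝ)) := by
    apply summable_norm_pi_int
    simp only [Fintype.card_prod, Fintype.card_fin]
    push_cast
    have : ((q * n : ℕ) : ℝ) < r := by exact_mod_cast hr
    push_cast at this
    linarith
  have h2 : Summable fun l : Fin q → Fin n → ℤ => ‖l‖ ^ (-(r : ℝ)) := by
    have h3 := ((Equiv.curry (Fin q) (Fin n) ℤ).summable_iff
      (f := fun l : Fin q → Fin n → ℤ => ‖l‖ ^ (-(r : ℝ)))).mp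
    apply h3
    refine h1.congr ?_
    intro l
    have h4 : ‖(Equiv.curry (Fin q) (Fin n) ℤ) l‖ = ‖l‖ := by
      apply le_antisymm
      · rw [pi_norm_le_iff_of_nonneg (norm_nonneg _)]
        intro i
        rw [pi_norm_le_iff_of_nonneg (norm_nonneg _)]
        intro j
        exact norm_le_pi_norm l (i, j)
      · rw [pi_norm_le_iff_of_nonneg (norm_nonneg _)]
        rintro ⟨i, j⟩
        exact (norm_le_pi_norm ((Equiv.curry (Fin q) (Fin n) ℤ) l i) j).trans
          (norm_le_pi_norm ((Equiv.curry (Fin q) (Fin n) ℤ) l) i)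
    simp only [Function.comp, h4]
  have h3 : Summable fun l : Fin q → Fin n → ℤ =>
      ‖l‖ ^ (-(r : ℝ)) + (if l = 0 then (1:ℝ) else 0) :=
    h2.add (hasSum_ite_eq 0 (1:ℝ)).summable
  refine Summable.of_nonneg_of_le (fun l => by positivity) (fun l => ?_) h3
  by_cases hl : l = 0
  · subst hl
    simp
  · rw [if_neg hl, add_zero, Real.rpow_neg (norm_nonneg _), Real.rpow_natCast]
    have : 0 < ‖l‖ := norm_pos_iff.mpr hl
    gcongr
    linarith

lemma RapidDecay.summable {q : ℕ} {b : (Fin q → Fin n → ℤ) → ℂ} (hb : RapidDecay b) (A : ℕ) :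
    Summable fun l => ‖b l‖ * (1 + ‖l‖) ^ A := by
  obtain ⟨C, hC, hbd⟩ := hb.pow_bound (A + (q * n + 1))
  have h1 : Summable fun l : Fin q → Fin n → ℤ => C * ((1 + ‖l‖) ^ (q * n + 1))⁻¹ :=
    (summable_one_add_norm (q * n + 1) (Nat.lt_succ_self _)).mul_left C
  refine Summable.of_nonneg_of_le (fun l => by positivity) (fun l => ?_) h1
  have h2 := hbd l
  have h3 : 0 < (1 + ‖l‖) ^ (q * n + 1) := by positivity
  rw [← div_eq_mul_inv, le_div_iff₀ h3]
  calc ‖b l‖ * (1 + ‖l‖) ^ A * (1 + ‖l‖) ^ (q * n + 1)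
      = (1 + ‖l‖) ^ (A + (q * n + 1)) * ‖b l‖ := by rw [pow_add]; ring
    _ ≤ C := h2

/-- lower bound for `|e^{2πix} - 1|` -/
lemma norm_exp_sub_one_ge (x : ℝ) :
    4 * |x - round x| ≤ ‖Complex.exp (2 * Real.pi * Complex.I * (x : ℂ)) - 1‖ := by
  have h1 : Complex.exp (2 * Real.pi * Complex.I * (x : ℂ))
      = Complex.exp (Complex.I * ((2 * Real.pi * (x - round x) : ℝ) : ℂ)) := by
    have : (2 * Real.pi * Complex.I * (x : ℂ)) = Complex.I * ((2 * Real.pi * (x - round x) : ℝ) : ℂ)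
        + (round x : ℤ) * (2 * Real.pi * Complex.I) := by
      push_cast
      ring
    rw [this, Complex.exp_add, Complex.exp_int_mul_two_pi_mul_I, mul_one]
  rw [h1, Complex.norm_exp_I_mul_ofReal_sub_one]
  set y : ℝ := x - round x with hy
  have hy2 : |y| ≤ 1/2 := abs_sub_round x
  have h2 : (2 * Real.pi * y) / 2 = Real.pi * y := by ring
  rw [h2, Real.norm_eq_abs, abs_mul, abs_two]
  have h3 : |Real.sin (Real.pi * y)| = Real.sin (Real.pi * |y|) := by
    rcases le_total 0 y with h | h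
    · rw [abs_of_nonneg h, abs_of_nonneg]
      apply Real.sin_nonneg_of_nonneg_of_le_pi
      · positivity
      · rw [abs_of_nonneg h] at hy2
        nlinarith [Real.pi_pos]
    · rw [abs_of_nonpos h, mul_neg, Real.sin_neg, abs_of_nonpos]
      apply Real.sin_nonpos_of_nonpos_of_neg_pi_le
      · nlinarith [Real.pi_pos]
      · rw [abs_of_nonpos h] at hy2
        nlinarith [Real.pi_pos]
  rw [h3]
  have h4 : 2 / Real.pi * (Real.pi * |y|) ≤ Real.sin (Real.pi * |y|) := by
    apply Real.mul_le_sin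
    · positivity
    · nlinarith [Real.pi_pos]
  have h5 : 2 / Real.pi * (Real.pi * |y|) = 2 * |y| := by
    field_simp
  linarith

lemma zj_eq (a : Fin n → ℝ) (j : Fin n) :
    zj a j = Complex.exp (2 * Real.pi * Complex.I * (a j : ℂ)) := by
  unfold zj ex
  congr 2
  rw [Finset.sum_eq_single j]
  · simp
  · intro i _ hi
    simp [hi]
  · intro h; exact absurd (mem_univ j) h

/-- choose a good coordinate -/
lemma exists_good_coord (a : Fin n → ℝ) (t : ℝ) (ht : 0 < t)
    (h : ∀ m : Fin n → ℤ, t ≤ eNorm (fun i => a i - (m i : ℝ))) :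
    ∃ j, 4 * t / (Real.sqrt n + 1) ≤ ‖zj a j - 1‖ := by
  by_contra hcon
  push Not at hcon
  have h1 : ∀ j, |a j - round (a j)| ≤ t / (Real.sqrt n + 1) := by
    intro j
    have h2 := hcon j
    rw [zj_eq] at h2
    have h3 := norm_exp_sub_one_ge (a j)
    have h4 : 4 * |a j - round (a j)| ≤ 4 * t / (Real.sqrt n + 1) := h3.trans h2.le
    have h5 : 4 * t / (Real.sqrt n + 1) = 4 * (t / (Real.sqrt n + 1)) := by ring
    rw [h5] at h4
    linarith
  have h2 := eNorm_le_of_abs_le (fun i => a i - (round (a i) : ℝ)) (t / (Real.sqrt n + 1))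
    (by positivity) h1
  have h3 := h (fun i => round (a i))
  have h4 : Real.sqrt n * (t / (Real.sqrt n + 1)) < t := by
    rw [mul_div_assoc', div_lt_iff₀ (by positivity)]
    nlinarith [Real.sqrt_nonneg (n:ℝ)]
  linarith

lemma zNorm_lincomb_le {q : ℕ} (ε : Fin q → ℤ) (hε : ∀ i, ε i = -1 ∨ ε i = 0 ∨ ε i = 1)
    (l : Fin q → Fin n → ℤ) :
    zNorm (∑ i, ε i • l i) ≤ Real.sqrt n * (q * ‖l‖) := by
  apply eNorm_le_of_abs_le _ _ (by positivity)
  intro j
  have h1 : (((∑ i, ε i • l i) j : ℤ) : ℝ) = ∑ i, (ε i : ℝ) * (l i j : ℝ) := by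
    rw [Finset.sum_apply]
    push_cast
    apply Finset.sum_congr rfl
    intro i _
    simp
  rw [h1]
  calc |∑ i, (ε i : ℝ) * (l i j : ℝ)| ≤ ∑ i, |(ε i : ℝ) * (l i j : ℝ)| := Finset.abs_sum_le_sum_abs _ _
    _ ≤ ∑ _i : Fin q, ‖l‖ := by
        apply Finset.sum_le_sum
        intro i _
        rw [abs_mul]
        have h2 : |(ε i : ℝ)| ≤ 1 := by
          rcases hε i with h | h | h <;> simp [h]
        have h3 : |(l i j : ℝ)| ≤ ‖l‖ := by
          rw [← Int.norm_eq_abs]
          exact (norm_le_pi_norm (l i) j).trans (norm_le_pi_norm l i)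
        calc |(ε i : ℝ)| * |(l i j : ℝ)| ≤ 1 * ‖l‖ := by gcongr
          _ = ‖l‖ := one_mul _
    _ = q * ‖l‖ := by simp

theorem propertyH_of_diophantine {Θ : Matrix (Fin n) (Fin n) ℝ} (hD : LatticeDiophantine Θ) :
    PropertyH Θ := by
  classical
  obtain ⟨δ, hδ, c, hc, hdio⟩ := hD
  intro q _ d P hP b hb ε hε
  apply glue
  intro N
  -- data
  set p : (Fin n → ℤ) → ℂ := fun k => MvPolynomial.eval (fun i => (k i : ℂ)) P with hp
  have hPD : PD d p := PD.of_mvPolynomial P hP.totalDegree_le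
  have hF : ∀ j : Fin n, ∃ F, ExtData j N (d : ℝ) p F := fun j => ext_exists j N d p hPD
  choose F hF using hF
  set L : (Fin q → Fin n → ℤ) → (Fin n → ℤ) := fun l => ∑ i, ε i • l i with hL
  set a : (Fin q → Fin n → ℤ) → (Fin n → ℝ) :=
    fun l => Θ.mulVec (fun j => ((L l j : ℤ) : ℝ)) with ha
  set c' : ℝ := 4 * c / (Real.sqrt n + 1) with hc'
  have hc'pos : 0 < c' := by positivity
  have hcoord : ∀ l, ∃ j : Option (Fin n), L l ≠ 0 → ∃ j0, j = some j0 ∧
      c' * zNorm (L l) ^ (-δ) ≤ ‖zj (a l) j0 - 1‖ := by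
    intro l
    by_cases hl : L l = 0
    · exact ⟨none, fun h => absurd hl h⟩
    · have hpos := zNorm_pos hl
      obtain ⟨j0, hj0⟩ := exists_good_coord (a l) (c * zNorm (L l) ^ (-δ)) (by positivity)
        (hdio (L l) hl)
      refine ⟨some j0, fun _ => ⟨j0, rfl, ?_⟩⟩
      refine le_trans (le_of_eq ?_) hj0
      rw [hc']
      ring
  choose jo hjo using hcoord
  -- the summand
  let T : (Fin q → Fin n → ℤ) → ℂ → ℂ := fun l s =>
    if L l = 0 then 0 else
      match jo l with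
      | none => 0
      | some j0 => b l * F j0 (a l) s
  have hzne : ∀ l, L l ≠ 0 → ∀ j0, c' * zNorm (L l) ^ (-δ) ≤ ‖zj (a l) j0 - 1‖ → zj (a l) j0 ≠ 1 := by
    intro l hl j0 h hz
    rw [hz, sub_self, norm_zero] at h
    have hpos := zNorm_pos hl
    have : 0 < c' * zNorm (L l) ^ (-δ) := by positivity
    linarith
  refine ⟨fun s => ∑' l, T l s, ?_, ?_⟩
  · intro s0 hs0
    have hs0 : (n:ℝ) + (d:ℝ) - N < s0.re := hs0
    obtain ⟨σ, hσ1, hσ2⟩ := exists_between hs0
    let U : Set ℂ := {s : ℂ | ‖s‖ < ‖s0‖ + 1} ∩ {s : ℂ | σ < s.re}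
    have hU : IsOpen U := (isOpen_lt continuous_norm continuous_const).inter
      (isOpen_lt continuous_const Complex.continuous_re)
    have hbd : ∀ j : Fin n, ∃ C : ℝ, 0 ≤ C ∧ ∀ a, zj a j ≠ 1 → ∀ s : ℂ, ‖s‖ ≤ ‖s0‖ + 1 →
        σ ≤ s.re → ‖F j a s‖ * ‖zj a j - 1‖ ^ N ≤ C := fun j => (hF j).2.2 _ σ hσ1
    choose C hC0 hC using hbd
    set Cm : ℝ := ∑ j, C j with hCm
    have hCm0 : 0 ≤ Cm := Finset.sum_nonneg fun j _ => hC0 j
    -- exponent
    set A : ℕ := ⌈δ * N⌉₊ with hA
    set K : ℝ := Cm * (c' ^ N)⁻¹ * (Real.sqrt n * q + 1) ^ A with hK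
    have hK0 : 0 ≤ K := by positivity
    have hsum : Summable fun l => K * (‖b l‖ * (1 + ‖l‖) ^ A) := (hb.summable A).mul_left K
    have hdiff : DifferentiableOn ℂ (fun s => ∑' l, T l s) U := by
      apply Complex.differentiableOn_tsum_of_summable_norm hsum _ hU
      · intro l s hs
        by_cases hl : L l = 0
        · simp only [T, hl, if_true, norm_zero]
          positivity
        · obtain ⟨j0, hj0, hj0'⟩ := hjo l hl
          simp only [T, hl, if_false, hj0]
          rw [norm_mul]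
          have hz := hzne l hl j0 hj0'
          have h1 := hC j0 (a l) hz s (le_of_lt hs.1) (le_of_lt hs.2)
          have h2 : C j0 ≤ Cm := Finset.single_le_sum (f := C) (fun j _ => hC0 j) (mem_univ j0)
          have hpos := zNorm_pos hl
          have hzpos : 0 < ‖zj (a l) j0 - 1‖ := norm_pos_iff.mpr (sub_ne_zero.mpr hz)
          have h3 : (c' * zNorm (L l) ^ (-δ)) ^ N ≤ ‖zj (a l) j0 - 1‖ ^ N := by gcongr
          have h4 : ‖F j0 (a l) s‖ ≤ Cm * ((c' * zNorm (L l) ^ (-δ)) ^ N)⁻¹ := by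
            have h5 : ‖F j0 (a l) s‖ * (c' * zNorm (L l) ^ (-δ)) ^ N ≤ Cm := by
              calc ‖F j0 (a l) s‖ * (c' * zNorm (L l) ^ (-δ)) ^ N
                  ≤ ‖F j0 (a l) s‖ * ‖zj (a l) j0 - 1‖ ^ N := by gcongr
                _ ≤ C j0 := h1
                _ ≤ Cm := h2
            rw [← div_eq_mul_inv, le_div_iff₀ (by positivity)]
            exact h5
          have h6 : ((c' * zNorm (L l) ^ (-δ)) ^ N)⁻¹ = (c' ^ N)⁻¹ * zNorm (L l) ^ (δ * N) := by
            rw [mul_pow, mul_inv]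
            congr 1
            rw [← Real.rpow_natCast, ← Real.rpow_mul hpos.le, ← Real.rpow_neg hpos.le]
            congr 1
            ring
          have h7 : zNorm (L l) ^ (δ * N) ≤ (Real.sqrt n * q + 1) ^ A * (1 + ‖l‖) ^ A := by
            have h8 : zNorm (L l) ^ (δ * N) ≤ zNorm (L l) ^ (A : ℝ) :=
              Real.rpow_le_rpow_of_exponent_le (one_le_zNorm hl) (Nat.le_ceil _)
            rw [Real.rpow_natCast] at h8
            refine h8.trans ?_
            rw [← mul_pow]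
            gcongr
            refine (zNorm_lincomb_le ε hε l).trans ?_
            have := norm_nonneg l
            have h9 : 0 ≤ Real.sqrt n * q := by positivity
            nlinarith
          calc ‖b l‖ * ‖F j0 (a l) s‖ ≤ ‖b l‖ * (Cm * ((c' ^ N)⁻¹ * zNorm (L l) ^ (δ * N))) := by
                rw [h6] at h4
                gcongr
            _ ≤ ‖b l‖ * (Cm * ((c' ^ N)⁻¹ * ((Real.sqrt n * q + 1) ^ A * (1 + ‖l‖) ^ A))) := by
                gcongr
            _ = K * (‖b l‖ * (1 + ‖l‖) ^ A) := by rw [hK]; ring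
      · intro l
        by_cases hl : L l = 0
        · have : T l = fun _ => 0 := by funext s; simp [T, hl]
          rw [this]; exact differentiableOn_const _
        · obtain ⟨j0, hj0, hj0'⟩ := hjo l hl
          have : T l = fun s => b l * F j0 (a l) s := by funext s; simp [T, hl, hj0]
          rw [this]
          apply DifferentiableOn.const_mul
          refine ((hF j0).2.1 (a l) (hzne l hl j0 hj0')).mono ?_
          intro s hs
          change (n:ℝ) + (d:ℝ) - N < s.re
          have : σ < s.re := hs.2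
          linarith
    have h3 : s0 ∈ U := ⟨by simp, hσ2⟩
    exact ((hdiff s0 h3).differentiableAt (hU.mem_nhds h3)).differentiableWithinAt
  · intro s hs
    unfold gZero
    apply tsum_congr
    intro l
    by_cases hl : L l = 0
    · have hl' : ∑ i, ε i • l i = 0 := hl
      simp only [T, hl, if_true, hl']
    · obtain ⟨j0, hj0, hj0'⟩ := hjo l hl
      have hl' : ¬ ∑ i, ε i • l i = 0 := hl
      simp only [T, hl, if_false, hj0, hl']
      rw [(hF j0).1 (a l) (hzne l hl j0 hj0') s hs, latSeries_eq]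

end Pool.Agent.Lib_helper5.Lat
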