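import Pool.Agent.Lib_helper5.LatNec
import Pool.Agent.Lib_helper5.LatSuff

/-!
Main results: the exact criterion, and the (non-)necessity of the Diophantine condition of the
problem.
-/

set_option maxHeartbeats 400000

namespace Pool.Agent.Lib_helper5.Lat

variable {n : ℕ}

theorem propertyH_iff (hn : 1 ≤ n) (Θ : Matrix (Fin n) (Fin n) ℝ) :
    PropertyH Θ ↔ LatticeDiophantine Θ :=
  ⟨fun h => diophantine_of_propertyH hn h, fun h => propertyH_of_diophantine h⟩

lemma sqrt_two_lower (q p : ℤ) (hq : q ≠ 0) :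
    1 / (4 * |(q : ℝ)|) ≤ |Real.sqrt 2 * q - p| := by
  have hq1 : (1:ℝ) ≤ |(q:ℝ)| := by
    have : (1:ℤ) ≤ |q| := Int.one_le_abs hq
    exact_mod_cast this
  have hs2 : Real.sqrt 2 ^ 2 = 2 := Real.sq_sqrt (by norm_num)
  have hs0 : 0 ≤ Real.sqrt 2 := Real.sqrt_nonneg _
  have hs15 : Real.sqrt 2 ≤ 1.5 := by
    rw [Real.sqrt_le_left (by norm_num)]
    norm_num
  have hne : (2 * q ^ 2 - p ^ 2 : ℤ) ≠ 0 := by
    intro h
    have h1 : (Real.sqrt 2 * q - p) * (Real.sqrt 2 * q + p) = 0 := by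
      have h2 : ((2 * q ^ 2 - p ^ 2 : ℤ) : ℝ) = 0 := by rw [h]; simp
      push_cast at h2
      nlinarith
    have hq' : (q:ℝ) ≠ 0 := by exact_mod_cast hq
    rcases mul_eq_zero.mp h1 with h3 | h3
    · apply irrational_sqrt_two
      refine ⟨(p : ℚ) / q, ?_⟩
      push_cast
      rw [div_eq_iff hq']
      linarith
    · apply irrational_sqrt_two
      refine ⟨-(p : ℚ) / q, ?_⟩
      push_cast
      rw [div_eq_iff hq']
      linarith
  have hge : (1:ℝ) ≤ |Real.sqrt 2 * q - p| * |Real.sqrt 2 * q + p| := by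
    rw [← abs_mul]
    have h1 : (Real.sqrt 2 * q - p) * (Real.sqrt 2 * q + p) = ((2 * q ^ 2 - p ^ 2 : ℤ) : ℝ) := by
      push_cast
      nlinarith
    rw [h1]
    have : (1:ℤ) ≤ |2 * q ^ 2 - p ^ 2| := Int.one_le_abs hne
    exact_mod_cast this
  by_cases h : |Real.sqrt 2 * q - p| < 1
  · have h1 : |Real.sqrt 2 * q + p| ≤ 4 * |(q:ℝ)| := by
      have h2 : Real.sqrt 2 * q + p = 2 * (Real.sqrt 2 * q) - (Real.sqrt 2 * q - p) := by ring
      rw [h2]
      calc |2 * (Real.sqrt 2 * q) - (Real.sqrt 2 * q - p)|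
          ≤ |2 * (Real.sqrt 2 * q)| + |Real.sqrt 2 * q - p| := abs_sub _ _
        _ ≤ 3 * |(q:ℝ)| + 1 := by
            rw [abs_mul, abs_mul, abs_of_nonneg hs0, abs_two]
            nlinarith
        _ ≤ 4 * |(q:ℝ)| := by linarith
    rw [div_le_iff₀ (by positivity)]
    calc (1:ℝ) ≤ |Real.sqrt 2 * q - p| * |Real.sqrt 2 * q + p| := hge
      _ ≤ |Real.sqrt 2 * q - p| * (4 * |(q:ℝ)|) := by gcongr
  · push Not at h
    refine le_trans ?_ h
    rw [div_le_one (by positivity)]
    linarith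

/-- the scalar matrix `√2 · 1` -/
noncomputable def scalarTwo (n : ℕ) : Matrix (Fin n) (Fin n) ℝ :=
  Matrix.scalar (Fin n) (Real.sqrt 2)

lemma scalarTwo_mulVec (x : Fin n → ℝ) (i : Fin n) :
    (scalarTwo n).mulVec x i = Real.sqrt 2 * x i := by
  simp [scalarTwo, Matrix.scalar_apply, Matrix.mulVec_diagonal]

lemma scalarTwo_diophantine : LatticeDiophantine (scalarTwo n) := by
  refine ⟨1, one_pos, 1/4, by norm_num, ?_⟩
  intro v hv m
  obtain ⟨i, hi⟩ : ∃ i, v i ≠ 0 := by
    by_contra h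
    push Not at h
    exact hv (funext h)
  have h1 := sqrt_two_lower (v i) (m i) hi
  have h2 := abs_le_eNorm (fun i => (scalarTwo n).mulVec (fun j => (v j : ℝ)) i - (m i : ℝ)) i
  simp only [scalarTwo_mulVec] at h2
  have h3 : 1/4 * zNorm v ^ (-(1:ℝ)) ≤ 1 / (4 * |(v i : ℝ)|) := by
    rw [Real.rpow_neg_one]
    have hvi : 0 < |(v i : ℝ)| := by
      rw [abs_pos]
      exact_mod_cast hi
    have h4 := abs_le_zNorm v i
    have h5 : (1/4 : ℝ) * (zNorm v)⁻¹ = 1 / (4 * zNorm v) := by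
      rw [one_div, one_div, mul_inv]
    rw [h5]
    apply one_div_le_one_div_of_le (by positivity)
    linarith
  calc 1/4 * zNorm v ^ (-(1:ℝ)) ≤ 1 / (4 * |(v i : ℝ)|) := h3
    _ ≤ |Real.sqrt 2 * (v i : ℝ) - (m i : ℝ)| := h1
    _ ≤ _ := by
      refine h2.trans (le_of_eq ?_)
      simp only [scalarTwo_mulVec]

lemma scalarTwo_not_bad (hn : 2 ≤ n) : ¬ BadlyApproxMat (scalarTwo n) := by
  classical
  rintro ⟨u, δ, hδ, c, hc, h⟩
  let i0 : Fin n := ⟨0, by omega⟩
  let i1 : Fin n := ⟨1, by omega⟩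
  have hne : i0 ≠ i1 := by
    intro h
    have := congrArg Fin.val h
    simp [i0, i1] at this
  have hT : ∀ i, (scalarTwo n).transpose.mulVec (fun j => (u j : ℝ)) i = Real.sqrt 2 * (u i : ℝ) := by
    intro i
    have : (scalarTwo n).transpose = scalarTwo n := by
      simp [scalarTwo, Matrix.scalar_apply, Matrix.diagonal_transpose]
    rw [this, scalarTwo_mulVec]
  -- orthogonal integer vector
  obtain ⟨v, hv0, hv⟩ : ∃ v : Fin n → ℤ, v ≠ 0 ∧ ∑ i, v i * u i = 0 := by
    by_cases h0 : u i0 = 0 ∧ u i1 = 0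
    · refine ⟨Pi.single i0 1, ?_, ?_⟩
      · intro h
        have := congrFun h i0
        simp at this
      · rw [Finset.sum_eq_single i0]
        · simp [h0.1]
        · intro i _ hi
          simp [hi]
        · intro h; exact absurd (Finset.mem_univ _) h
    · refine ⟨Pi.single i0 (u i1) - Pi.single i1 (u i0), ?_, ?_⟩
      · intro h
        apply h0
        have ha := congrFun h i0
        have hb := congrFun h i1
        simp [hne] at ha
        simp [hne.symm] at hb
        exact ⟨hb, ha⟩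
      · have h1 : ∀ i, (Pi.single i0 (u i1) - Pi.single i1 (u i0) : Fin n → ℤ) i * u i
            = (if i = i0 then u i1 * u i0 else 0) - (if i = i1 then u i0 * u i1 else 0) := by
          intro i
          simp only [Pi.sub_apply, Pi.single_apply]
          split_ifs with ha hb hb
          · rw [ha] at hb; exact absurd hb hne
          · rw [ha]; ring
          · rw [hb]; ring
          · ring
        rw [Finset.sum_congr rfl (fun i _ => h1 i), Finset.sum_sub_distrib]
        simp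
        ring
  have h1 := h v hv0 0
  have h2 : ∑ i, (v i : ℝ) * (scalarTwo n).transpose.mulVec (fun j => (u j : ℝ)) i = 0 := by
    have h3 : ∑ i, (v i : ℝ) * (scalarTwo n).transpose.mulVec (fun j => (u j : ℝ)) i
        = Real.sqrt 2 * ((∑ i, v i * u i : ℤ) : ℝ) := by
      push_cast
      rw [Finset.mul_sum]
      apply Finset.sum_congr rfl
      intro i _
      rw [hT]
      ring
    rw [h3, hv]
    simp
  rw [h2] at h1
  simp only [Int.cast_zero, sub_zero, abs_zero] at h1
  have hpos := zNorm_pos hv0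
  have : 0 < c * zNorm v ^ (-δ) := by positivity
  linarith

lemma eNorm_fin_one (x : Fin 1 → ℝ) : eNorm x = |x 0| := by
  simp [eNorm, Real.sqrt_sq_eq_abs]

lemma badlyApprox_of_diophantine_one {Θ : Matrix (Fin 1) (Fin 1) ℝ} (h : LatticeDiophantine Θ) :
    BadlyApproxMat Θ := by
  obtain ⟨δ, hδ, c, hc, h⟩ := h
  refine ⟨fun _ => 1, δ, hδ, c, hc, ?_⟩
  intro v hv m
  have h1 := h v hv (fun _ => m)
  rw [eNorm_fin_one] at h1
  refine h1.trans (le_of_eq ?_)
  simp [Matrix.mulVec, dotProduct]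
  ring_nf

theorem answer (n : ℕ) (hn : 1 ≤ n) :
    (∀ Θ : Matrix (Fin n) (Fin n) ℝ, PropertyH Θ → BadlyApproxMat Θ) ↔ n = 1 := by
  constructor
  · intro h
    by_contra hne
    have hn2 : 2 ≤ n := by omega
    exact scalarTwo_not_bad hn2 (h (scalarTwo n) (propertyH_of_diophantine scalarTwo_diophantine))
  · rintro rfl
    intro Θ hΘ
    exact badlyApprox_of_diophantine_one ((propertyH_iff le_rfl Θ).mp hΘ)

end Pool.Agent.Lib_helper5.Lat
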