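import Pool.Agent.Lib_helper5.LatLower

/-!
Necessity: property (H) implies the Diophantine condition (D).
-/

set_option maxHeartbeats 400000

namespace Pool.Agent.Lib_helper5.Lat

open Filter Topology

variable {n : ℕ}

/-- rapid decay in one vector variable -/
def RD1 (β : (Fin n → ℤ) → ℂ) : Prop :=
  ∀ m : ℕ, ∃ C : ℝ, ∀ v : Fin n → ℤ, zNorm v ^ m * ‖β v‖ ≤ C

lemma RD1.rapidDecay {β : (Fin n → ℤ) → ℂ} (h : RD1 β) :
    RapidDecay (fun l : Fin 1 → Fin n → ℤ => β (l 0)) := by
  intro m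
  obtain ⟨C, hC⟩ := h (∑ j, m 0 j)
  refine ⟨C, fun l => ?_⟩
  refine le_trans ?_ (hC (l 0))
  gcongr
  simp only [Finset.univ_unique, Fin.default_eq_zero, Fin.isValue, Finset.prod_singleton]
  rw [← Finset.prod_pow_eq_pow_sum]
  apply Finset.prod_le_prod
  · intro j _; positivity
  · intro j _
    have := abs_le_zNorm (l 0) j
    gcongr

/-- the vector `Θ v` -/
noncomputable def thv (Θ : Matrix (Fin n) (Fin n) ℝ) (v : Fin n → ℤ) : Fin n → ℝ :=
  Θ.mulVec (fun j => ((v j : ℤ) : ℝ))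

lemma phi_one_eq : (phi (fun k : Fin n → ℤ => MvPolynomial.eval (fun i => (k i : ℂ)) (1 : MvPolynomial (Fin n) ℂ)))
    = phi (fun _ => 1) := by
  funext k s
  simp [phi]

/-- consequence of (H) for `q = 1`, `P = 1` -/
lemma entire_of_H {Θ : Matrix (Fin n) (Fin n) ℝ} (hH : PropertyH Θ) (β : (Fin n → ℤ) → ℂ)
    (hβ : RD1 β) : ∃ G : ℂ → ℂ, Differentiable ℂ G ∧ ∀ s : ℂ, (n:ℝ) < s.re →
      G s = ∑' v : Fin n → ℤ, if v = 0 then 0 else β v * fone (thv Θ v) s := by
  obtain ⟨G, hG, hGs⟩ := hH 1 le_rfl 0 1 (MvPolynomial.isHomogeneous_one _ _)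
    (fun l => β (l 0)) hβ.rapidDecay (fun _ => 1) (fun _ => Or.inr (Or.inr rfl))
  refine ⟨G, hG, fun s hs => ?_⟩
  rw [hGs s (by push_cast; linarith)]
  unfold gZero
  rw [← (Equiv.funUnique (Fin 1) (Fin n → ℤ)).tsum_eq]
  apply tsum_congr
  intro l
  simp only [Finset.univ_unique, Fin.default_eq_zero, Fin.isValue, Finset.sum_singleton, one_smul,
    Equiv.funUnique_apply]
  by_cases hl : l 0 = 0
  · simp [hl]
  · rw [if_neg hl, if_neg hl, latSeries_eq, phi_one_eq]
    rfl

/-- uniqueness of entire extensions -/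
lemma entire_unique (A : ℝ) (G G' : ℂ → ℂ) (hG : Differentiable ℂ G) (hG' : Differentiable ℂ G')
    (h : ∀ s : ℂ, A < s.re → G s = G' s) : G = G' := by
  have h1 : AnalyticOnNhd ℂ G Set.univ := hG.differentiableOn.analyticOnNhd isOpen_univ
  have h2 : AnalyticOnNhd ℂ G' Set.univ := hG'.differentiableOn.analyticOnNhd isOpen_univ
  have hopen : IsOpen {s : ℂ | A < s.re} := isOpen_lt continuous_const Complex.continuous_re
  have hz : ((A + 1 : ℝ) : ℂ) ∈ {s : ℂ | A < s.re} := by
    change A < ((A + 1 : ℝ) : ℂ).re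
    rw [Complex.ofReal_re]; linarith
  have h3 : G =ᶠ[𝓝 ((A + 1 : ℝ) : ℂ)] G' := by
    filter_upwards [hopen.mem_nhds hz] with s hs
    exact h s hs
  funext s
  exact h1.eqOn_of_preconnected_of_eventuallyEq h2 isPreconnected_univ (Set.mem_univ _) h3
    (Set.mem_univ s)

/-- uniform bound of `fone` on `Re s ≥ σ > n` -/
lemma fone_bound (R σ : ℝ) (hσ : (n:ℝ) < σ) : ∃ C : ℝ, 0 ≤ C ∧ ∀ a : Fin n → ℝ, ∀ s : ℂ,
    ‖s‖ ≤ R → σ ≤ s.re → ‖fone a s‖ ≤ C := by
  have hp : PD 0 (fun _ : Fin n → ℤ => (1:ℂ)) := PD.const 1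
  obtain ⟨C, hC, h⟩ := (phi_dom hp).bound R σ (by simpa using hσ)
  exact ⟨C, hC, fun a s h1 h2 => h a s h1 h2⟩

/-- `Θ v` is never a lattice point -/
lemma not_lattice (hn : 0 < n) {Θ : Matrix (Fin n) (Fin n) ℝ} (hH : PropertyH Θ)
    (v : Fin n → ℤ) (hv : v ≠ 0) (m : Fin n → ℤ) : thv Θ v ≠ fun i => (m i : ℝ) := by
  classical
  intro h
  have hβ : RD1 (fun w : Fin n → ℤ => if w = v then (1:ℂ) else 0) := by
    intro k
    refine ⟨zNorm v ^ k, fun w => ?_⟩
    by_cases hw : w = v
    · simp [hw]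
    · simp only [hw, if_false, norm_zero, mul_zero]
      have := zNorm_nonneg v
      positivity
  obtain ⟨G, hG, hGs⟩ := entire_of_H hH _ hβ
  refine no_entire_at_lattice hn (thv Θ v) m h G hG ?_
  intro s hs
  rw [hGs s hs, tsum_eq_single v]
  · simp [hv]
  · intro w hw
    simp [hw]

/-- distance-like function -/
noncomputable def rho (Θ : Matrix (Fin n) (Fin n) ℝ) (v : Fin n → ℤ) : ℝ :=
  eNorm (fun i => thv Θ v i - (round (thv Θ v i) : ℝ))

lemma eNorm_mono (x y : Fin n → ℝ) (h : ∀ i, |x i| ≤ |y i|) : eNorm x ≤ eNorm y := by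
  apply Real.sqrt_le_sqrt
  apply Finset.sum_le_sum
  intro i _
  exact sq_le_sq.mpr (h i)

lemma rho_le (Θ : Matrix (Fin n) (Fin n) ℝ) (v : Fin n → ℤ) (m : Fin n → ℤ) :
    rho Θ v ≤ eNorm (fun i => thv Θ v i - (m i : ℝ)) := by
  apply eNorm_mono
  intro i
  exact round_le _ _

lemma rho_pos (hn : 0 < n) {Θ : Matrix (Fin n) (Fin n) ℝ} (hH : PropertyH Θ)
    (v : Fin n → ℤ) (hv : v ≠ 0) : 0 < rho Θ v := by
  rcases (eNorm_nonneg (fun i => thv Θ v i - (round (thv Θ v i) : ℝ))).lt_or_eq with h | h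
  · exact h
  · exfalso
    apply not_lattice hn hH v hv (fun i => round (thv Θ v i))
    funext i
    have h1 := abs_le_eNorm (fun i => thv Θ v i - (round (thv Θ v i) : ℝ)) i
    rw [← h] at h1
    have h2 := abs_eq_zero.mp (le_antisymm h1 (abs_nonneg _))
    linarith

/-- The closed graph argument: for any nonnegative rapidly decreasing weight `w`, the values
`w(v) |G(σ)|`, where `G` is the entire extension of `f_{Θv}`, are bounded. -/
theorem closed_graph_bound {Θ : Matrix (Fin n) (Fin n) ℝ} (hH : PropertyH Θ)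
    (w : (Fin n → ℤ) → ℝ) (hw0 : ∀ v, 0 ≤ w v) (hw : RD1 (fun v => (w v : ℂ)))
    (z0 : ℂ) (hz0 : ‖z0 - ((n + 1 : ℝ) : ℂ)‖ ≤ 2) :
    ∃ M : ℝ, ∀ v : Fin n → ℤ, v ≠ 0 → ∀ G : ℂ → ℂ, Differentiable ℂ G →
      (∀ s : ℂ, (n:ℝ) < s.re → G s = (w v : ℂ) * fone (thv Θ v) s) → ‖G z0‖ ≤ M := by
  classical
  -- summability of w
  have hwsum : Summable (fun v => w v) := by
    obtain ⟨C, hC⟩ := hw (n + 1)
    have h1 : Summable fun v : Fin n → ℤ => C * zNorm v ^ (-((n:ℝ) + 1)) + (if v = 0 then w 0 else 0) :=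
      ((summable_zNorm ((n:ℝ) + 1) (by linarith)).mul_left C).add (hasSum_ite_eq 0 (w 0)).summable
    refine Summable.of_nonneg_of_le hw0 (fun v => ?_) h1
    by_cases hv : v = 0
    · subst hv
      rw [if_pos rfl]
      have h2 : (0:ℝ) ^ (-((n:ℝ) + 1)) = 0 := Real.zero_rpow (by
        have : (0:ℝ) ≤ n := Nat.cast_nonneg n
        linarith)
      rw [zNorm_zero, h2, mul_zero, zero_add]
    · rw [if_neg hv, add_zero]
      have h2 := hC v
      have hpos := zNorm_pos hv
      rw [Complex.norm_real, Real.norm_eq_abs, abs_of_nonneg (hw0 v)] at h2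
      rw [Real.rpow_neg hpos.le, ← div_eq_mul_inv, le_div_iff₀ (by positivity)]
      have h3 : zNorm v ^ ((n:ℝ) + 1) = zNorm v ^ (n+1) := by
        rw [← Real.rpow_natCast]
        push_cast
        rfl
      rw [h3]
      linarith
  -- Banach space of bounded functions
  let E := BoundedContinuousFunction (Fin n → ℤ) ℂ
  have hβ : ∀ c : E, RD1 (fun v => c v * (w v : ℂ)) := by
    intro c m
    obtain ⟨C, hC⟩ := hw m
    refine ⟨‖c‖ * C, fun v => ?_⟩
    rw [norm_mul]
    have h1 := c.norm_coe_le_norm v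
    have h2 := hC v
    have h3 : 0 ≤ zNorm v ^ m * ‖(w v : ℂ)‖ := by
      have := zNorm_nonneg v
      positivity
    calc zNorm v ^ m * (‖c v‖ * ‖(w v : ℂ)‖) = ‖c v‖ * (zNorm v ^ m * ‖(w v : ℂ)‖) := by ring
      _ ≤ ‖c‖ * C := by gcongr
  choose Gc hGd hGs using fun c : E => entire_of_H hH _ (hβ c)
  -- summability of the defining series
  have hsumm : ∀ c : E, ∀ s : ℂ, (n:ℝ) < s.re →
      Summable (fun v : Fin n → ℤ => if v = 0 then 0 else c v * (w v : ℂ) * fone (thv Θ v) s) := by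
    intro c s hs
    obtain ⟨C, hC0, hC⟩ := fone_bound (n := n) ‖s‖ s.re hs
    refine Summable.of_norm_bounded (g := fun v => (‖c‖ * C) * w v) (hwsum.mul_left _) ?_
    intro v
    split_ifs
    · rw [norm_zero]
      have := hw0 v
      positivity
    · rw [norm_mul, norm_mul, Complex.norm_real, Real.norm_eq_abs, abs_of_nonneg (hw0 v)]
      have h1 := c.norm_coe_le_norm v
      have h2 := hC (thv Θ v) s le_rfl le_rfl
      have h3 := hw0 v
      calc ‖c v‖ * w v * ‖fone (thv Θ v) s‖ ≤ ‖c‖ * w v * C := by gcongr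
        _ = ‖c‖ * C * w v := by ring
  have hadd : ∀ c c' : E, Gc (c + c') = Gc c + Gc c' := by
    intro c c'
    apply entire_unique n _ _ (hGd _) ((hGd c).add (hGd c'))
    intro s hs
    rw [Pi.add_apply, hGs _ s hs, hGs _ s hs, hGs _ s hs, ← (hsumm c s hs).tsum_add (hsumm c' s hs)]
    apply tsum_congr
    intro v
    split_ifs
    · simp
    · rw [BoundedContinuousFunction.add_apply]; ring
  have hsmul : ∀ (α : ℂ) (c : E), Gc (α • c) = α • Gc c := by
    intro α c
    apply entire_unique n _ _ (hGd _) ((hGd c).const_smul α)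
    intro s hs
    rw [Pi.smul_apply, hGs _ s hs, hGs _ s hs, smul_eq_mul, ← tsum_mul_left]
    apply tsum_congr
    intro v
    split_ifs
    · simp
    · rw [BoundedContinuousFunction.coe_smul]
      simp only [smul_eq_mul]
      ring
  -- target space
  set z1 : ℂ := ((n + 1 : ℝ) : ℂ) with hz1
  let K : Set ℂ := Metric.closedBall z1 2
  let B : Set ℂ := Metric.ball z1 2
  have : CompactSpace K := isCompact_iff_compactSpace.mp (isCompact_closedBall z1 2)
  let T : E →ₗ[ℂ] C(K, ℂ) :=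
    { toFun := fun c => ContinuousMap.restrict K ⟨Gc c, (hGd c).continuous⟩
      map_add' := by
        intro c c'
        ext z
        simp only [ContinuousMap.restrict_apply, ContinuousMap.coe_mk, hadd]
        rfl
      map_smul' := by
        intro α c
        ext z
        simp only [ContinuousMap.restrict_apply, ContinuousMap.coe_mk, hsmul]
        rfl }
  have hTapp : ∀ (c : E) (z : K), T c z = Gc c z := fun c z => rfl
  have hTcont : Continuous T := by
    apply LinearMap.continuous_of_seq_closed_graph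
    intro u x y hu hTu
    -- extension of y
    let Y : ℂ → ℂ := fun z => if h : z ∈ K then y ⟨z, h⟩ else 0
    have hY : ∀ z (h : z ∈ K), Y z = y ⟨z, h⟩ := fun z h => by simp [Y, h]
    have hunif : TendstoUniformlyOn (fun i z => Gc (u i) z) Y atTop K := by
      have h1 := (ContinuousMap.tendsto_iff_tendstoUniformly).mp hTu
      rw [Metric.tendstoUniformly_iff] at h1
      rw [Metric.tendstoUniformlyOn_iff]
      intro ε hε
      filter_upwards [h1 ε hε] with i hi z hz
      have := hi ⟨z, hz⟩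
      rw [hY z hz]
      exact this
    have hBK : B ⊆ K := Metric.ball_subset_closedBall
    have hYdiff : DifferentiableOn ℂ Y B := by
      apply (hunif.mono hBK).tendstoLocallyUniformlyOn.differentiableOn
      · exact Eventually.of_forall fun i => (hGd (u i)).differentiableOn
      · exact Metric.isOpen_ball
    -- pointwise convergence to the right on the half plane
    have hpt : ∀ s : ℂ, (n:ℝ) < s.re → Tendsto (fun i => Gc (u i) s) atTop (𝓝 (Gc x s)) := by
      intro s hs
      obtain ⟨C, hC0, hC⟩ := fone_bound (n := n) ‖s‖ s.re hs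
      have hbound : ∀ c : E, ‖Gc c s‖ ≤ ‖c‖ * (C * ∑' v, w v) := by
        intro c
        rw [hGs c s hs]
        have h1 : HasSum (fun v => (‖c‖ * C) * w v) ((‖c‖ * C) * ∑' v, w v) :=
          hwsum.hasSum.mul_left _
        have h2 : ‖∑' v : Fin n → ℤ, (if v = 0 then 0 else c v * (w v : ℂ) * fone (thv Θ v) s)‖
            ≤ (‖c‖ * C) * ∑' v, w v := by
          apply tsum_of_norm_bounded h1
          intro v
          split_ifs
          · rw [norm_zero]
            have := hw0 v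
            positivity
          · rw [norm_mul, norm_mul, Complex.norm_real, Real.norm_eq_abs, abs_of_nonneg (hw0 v)]
            have h1 := c.norm_coe_le_norm v
            have h2 := hC (thv Θ v) s le_rfl le_rfl
            have h3 := hw0 v
            calc ‖c v‖ * w v * ‖fone (thv Θ v) s‖ ≤ ‖c‖ * w v * C := by gcongr
              _ = ‖c‖ * C * w v := by ring
        calc _ ≤ (‖c‖ * C) * ∑' v, w v := h2
          _ = _ := by ring
      rw [tendsto_iff_norm_sub_tendsto_zero]
      have hsub : ∀ i, Gc (u i) s - Gc x s = Gc (u i - x) s := by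
        intro i
        have h1 : Gc (u i) = Gc (u i - x) + Gc x := by rw [← hadd, sub_add_cancel]
        rw [h1, Pi.add_apply, add_sub_cancel_right]
      have h2 : Tendsto (fun i => ‖u i - x‖ * (C * ∑' v, w v)) atTop (𝓝 (0 * (C * ∑' v, w v))) :=
        (tendsto_iff_norm_sub_tendsto_zero.mp hu).mul_const _
      rw [zero_mul] at h2
      refine squeeze_zero (fun i => norm_nonneg _) (fun i => ?_) h2
      rw [hsub]
      exact hbound _
    -- identity theorem on B
    have hEqB : Set.EqOn Y (Gc x) B := by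
      have hz1B : z1 ∈ B := Metric.mem_ball_self (by norm_num)
      apply (hYdiff.analyticOnNhd Metric.isOpen_ball).eqOn_of_preconnected_of_eventuallyEq
        ((hGd x).differentiableOn.analyticOnNhd Metric.isOpen_ball)
        (convex_ball z1 2).isPreconnected hz1B
      have hopen : IsOpen {s : ℂ | (n:ℝ) < s.re} := isOpen_lt continuous_const Complex.continuous_re
      have hz1' : z1 ∈ {s : ℂ | (n:ℝ) < s.re} := by
        change (n:ℝ) < z1.re
        rw [hz1, Complex.ofReal_re]; linarith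
      filter_upwards [hopen.mem_nhds hz1', Metric.isOpen_ball.mem_nhds hz1B] with s hs hsB
      have h1 : Tendsto (fun i => Gc (u i) s) atTop (𝓝 (Y s)) :=
        hunif.tendsto_at (hBK hsB)
      exact tendsto_nhds_unique h1 (hpt s hs)
    have hEqK : Set.EqOn Y (Gc x) K := by
      refine hEqB.of_subset_closure ?_ (hGd x).continuous.continuousOn hBK ?_
      · rw [continuousOn_iff_continuous_domRestrict]
        have : K.domRestrict Y = y := by
          funext z
          rw [Set.domRestrict_apply, hY z z.2]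
        rw [this]
        exact y.continuous
      · have h2 : closure B = K := closure_ball z1 (by norm_num)
        rw [h2]
    ext z
    have := hEqK z.2
    rw [hY z z.2] at this
    rw [hTapp]
    exact this
  let T' : E →L[ℂ] C(K, ℂ) := ⟨T, hTcont⟩
  have hz0K : z0 ∈ K := by
    rw [Metric.mem_closedBall, dist_eq_norm]
    exact hz0
  refine ⟨‖T'‖, ?_⟩
  intro v hv G hG hGv
  -- the indicator of v
  let c : E := BoundedContinuousFunction.ofNormedAddCommGroupDiscrete
    (fun u => if u = v then (1:ℂ) else 0) 1 (by intro u; split_ifs <;> simp)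
  have hc : ‖c‖ ≤ 1 := by
    rw [BoundedContinuousFunction.norm_le zero_le_one]
    intro u
    change ‖(if u = v then (1:ℂ) else 0)‖ ≤ 1
    split_ifs <;> simp
  have hGG : G = Gc c := by
    apply entire_unique n _ _ hG (hGd c)
    intro s hs
    rw [hGv s hs, hGs c s hs, tsum_eq_single v]
    · rw [if_neg hv]
      have : c v = 1 := by
        change (if v = v then (1:ℂ) else 0) = 1
        simp
      rw [this, one_mul]
    · intro u hu
      have : c u = 0 := by
        change (if u = v then (1:ℂ) else 0) = 0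
        simp [hu]
      rw [this]
      simp
  rw [hGG]
  have h1 : ‖T' c ⟨z0, hz0K⟩‖ ≤ ‖T' c‖ := ContinuousMap.norm_coe_le_norm _ _
  have h2 : ‖T' c‖ ≤ ‖T'‖ * ‖c‖ := T'.le_opNorm c
  have h3 : T' c ⟨z0, hz0K⟩ = Gc c z0 := rfl
  rw [h3] at h1
  calc ‖Gc c z0‖ ≤ ‖T' c‖ := h1
    _ ≤ ‖T'‖ * ‖c‖ := h2
    _ ≤ ‖T'‖ * 1 := by gcongr
    _ = ‖T'‖ := mul_one _

theorem diophantine_of_propertyH (hn : 0 < n) {Θ : Matrix (Fin n) (Fin n) ℝ} (hH : PropertyH Θ) :
    LatticeDiophantine Θ := by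
  classical
  by_contra hcon
  -- bad sequence
  have hbad : ∀ j : ℕ, ∃ v : Fin n → ℤ, v ≠ 0 ∧
      rho Θ v < 1 / ((j:ℝ) + 2) * zNorm v ^ (-((j:ℝ) + 1)) := by
    intro j
    by_contra h
    push Not at h
    apply hcon
    refine ⟨(j:ℝ) + 1, by positivity, 1 / ((j:ℝ) + 2), by positivity, ?_⟩
    intro v hv m
    exact (h v hv).trans (rho_le Θ v m)
  choose vj hvj0 hvj using hbad
  have hrho : ∀ v, v ≠ 0 → 0 < rho Θ v := fun v hv => rho_pos hn hH v hv
  -- weight
  let w : (Fin n → ℤ) → ℝ := fun v => if ∃ j, v = vj j then Real.sqrt (rho Θ v) else 0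
  have hw0 : ∀ v, 0 ≤ w v := by
    intro v
    simp only [w]
    split_ifs
    · exact Real.sqrt_nonneg _
    · exact le_rfl
  have hw : RD1 (fun v => (w v : ℂ)) := by
    intro m
    refine ⟨1 + ∑ j ∈ Finset.range (2 * m), zNorm (vj j) ^ m * Real.sqrt (rho Θ (vj j)), ?_⟩
    intro v
    rw [Complex.norm_real, Real.norm_eq_abs, abs_of_nonneg (hw0 v)]
    have hsumnn : 0 ≤ ∑ j ∈ Finset.range (2 * m), zNorm (vj j) ^ m * Real.sqrt (rho Θ (vj j)) := by
      apply Finset.sum_nonneg
      intro j _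
      have := zNorm_nonneg (vj j)
      positivity
    by_cases hex : ∃ j, v = vj j
    · have hwv : w v = Real.sqrt (rho Θ v) := by simp only [w]; rw [if_pos hex]
      rw [hwv]
      obtain ⟨j, hj⟩ := hex
      rw [hj]
      have h1 := one_le_zNorm (hvj0 j)
      have hpos := zNorm_pos (hvj0 j)
      by_cases hjm : j < 2 * m
      · have h2 : zNorm (vj j) ^ m * Real.sqrt (rho Θ (vj j)) ≤
            ∑ j ∈ Finset.range (2 * m), zNorm (vj j) ^ m * Real.sqrt (rho Θ (vj j)) := by
          apply Finset.single_le_sum (f := fun j => zNorm (vj j) ^ m * Real.sqrt (rho Θ (vj j))) _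
            (Finset.mem_range.mpr hjm)
          intro i _
          have := zNorm_nonneg (vj i)
          positivity
        linarith
      · push Not at hjm
        have h2 : rho Θ (vj j) ≤ (zNorm (vj j) ^ (-(m:ℝ))) ^ 2 := by
          have h3 := (hvj j).le
          have h4 : 1 / ((j:ℝ) + 2) ≤ 1 := by
            rw [div_le_one (by positivity)]
            have : (0:ℝ) ≤ j := Nat.cast_nonneg j
            linarith
          have h5 : zNorm (vj j) ^ (-((j:ℝ) + 1)) ≤ zNorm (vj j) ^ (-(2 * (m:ℝ))) := by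
            apply Real.rpow_le_rpow_of_exponent_le h1
            have : ((2 * m : ℕ) : ℝ) ≤ j := by exact_mod_cast hjm
            push_cast at this
            linarith
          have h6 : (zNorm (vj j) ^ (-(m:ℝ))) ^ 2 = zNorm (vj j) ^ (-(2 * (m:ℝ))) := by
            rw [← Real.rpow_natCast, ← Real.rpow_mul hpos.le]
            congr 1
            push_cast
            ring
          rw [h6]
          have h7 : 0 ≤ zNorm (vj j) ^ (-((j:ℝ) + 1)) := Real.rpow_nonneg hpos.le _
          calc rho Θ (vj j) ≤ 1 / ((j:ℝ) + 2) * zNorm (vj j) ^ (-((j:ℝ) + 1)) := h3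
            _ ≤ 1 * zNorm (vj j) ^ (-((j:ℝ) + 1)) := by gcongr
            _ ≤ _ := by rw [one_mul]; exact h5
        have h8 : Real.sqrt (rho Θ (vj j)) ≤ zNorm (vj j) ^ (-(m:ℝ)) := by
          rw [Real.sqrt_le_left (Real.rpow_nonneg hpos.le _)]
          exact h2
        have h9 : zNorm (vj j) ^ m * Real.sqrt (rho Θ (vj j)) ≤ 1 := by
          calc zNorm (vj j) ^ m * Real.sqrt (rho Θ (vj j))
              ≤ zNorm (vj j) ^ m * zNorm (vj j) ^ (-(m:ℝ)) := by gcongr
            _ = 1 := by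
                rw [Real.rpow_neg hpos.le, Real.rpow_natCast, mul_inv_cancel₀ (by positivity)]
        linarith
    · have hwv : w v = 0 := by simp only [w]; rw [if_neg hex]
      rw [hwv, mul_zero]
      linarith
  -- point
  set σ : ℝ := (n:ℝ) - 3/4 with hσ
  have hn1 : (1:ℝ) ≤ n := by exact_mod_cast hn
  have hz0 : ‖(σ : ℂ) - ((n + 1 : ℝ) : ℂ)‖ ≤ 2 := by
    rw [← Complex.ofReal_sub, Complex.norm_real, Real.norm_eq_abs, hσ]
    rw [abs_le]
    constructor <;> linarith
  obtain ⟨M, hM⟩ := closed_graph_bound hH w hw0 hw (σ : ℂ) hz0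
  obtain ⟨c, hc, C, hC, hlow⟩ := entire_lower hn σ (by linarith) (by linarith)
  -- for every j, get an inequality
  have hineq : ∀ j : ℕ, c * rho Θ (vj j) ^ (-(3/4) : ℝ) - C ≤ M / Real.sqrt (rho Θ (vj j)) := by
    intro j
    have hβ : RD1 (fun u : Fin n → ℤ => if u = vj j then (1:ℂ) else 0) := by
      intro k
      refine ⟨zNorm (vj j) ^ k, fun u => ?_⟩
      by_cases hu : u = vj j
      · simp [hu]
      · simp only [hu, if_false, norm_zero, mul_zero]
        have := zNorm_nonneg (vj j)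
        positivity
    obtain ⟨G, hG, hGs⟩ := entire_of_H hH _ hβ
    have hGs' : ∀ s : ℂ, (n:ℝ) < s.re → G s = fone (thv Θ (vj j)) s := by
      intro s hs
      rw [hGs s hs, tsum_eq_single (vj j)]
      · simp [hvj0 j]
      · intro u hu
        simp [hu]
    have hρ := hrho (vj j) (hvj0 j)
    have hρhalf : rho Θ (vj j) ≤ 1/2 := by
      have h1 := (hvj j).le
      have h2 : 1 / ((j:ℝ) + 2) ≤ 1/2 := by
        apply one_div_le_one_div_of_le (by norm_num)
        have : (0:ℝ) ≤ j := Nat.cast_nonneg j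
        linarith
      have h3 : zNorm (vj j) ^ (-((j:ℝ) + 1)) ≤ 1 := by
        apply Real.rpow_le_one_of_one_le_of_nonpos (one_le_zNorm (hvj0 j))
        have : (0:ℝ) ≤ j := Nat.cast_nonneg j
        linarith
      have h4 : 0 ≤ zNorm (vj j) ^ (-((j:ℝ) + 1)) := Real.rpow_nonneg (zNorm_nonneg _) _
      calc rho Θ (vj j) ≤ 1 / ((j:ℝ) + 2) * zNorm (vj j) ^ (-((j:ℝ) + 1)) := h1
        _ ≤ 1/2 * 1 := by gcongr
        _ = 1/2 := by norm_num
    have h1 := hlow (thv Θ (vj j)) (not_lattice hn hH (vj j) (hvj0 j))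
      (fun i => round (thv Θ (vj j) i)) hρhalf G hG hGs'
    have h2 : σ - n = -(3/4) := by rw [hσ]; ring
    rw [h2] at h1
    have hwv : w (vj j) = Real.sqrt (rho Θ (vj j)) := by
      simp only [w]; rw [if_pos ⟨j, rfl⟩]
    have h3 := hM (vj j) (hvj0 j) (fun s => (w (vj j) : ℂ) * G s) (hG.const_mul _)
      (fun s hs => by rw [hGs' s hs])
    rw [norm_mul, Complex.norm_real, Real.norm_eq_abs, abs_of_nonneg (hw0 _), hwv] at h3
    have h4 : 0 < Real.sqrt (rho Θ (vj j)) := Real.sqrt_pos.mpr hρ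
    have h5 : ‖G σ‖ ≤ M / Real.sqrt (rho Θ (vj j)) := by
      rw [le_div_iff₀ h4]
      linarith
    exact h1.trans h5
  -- contradiction: rho -> 0
  have hfinal : ∀ j : ℕ, c * ((j:ℝ) + 2) ^ (1/4 : ℝ) ≤ M + C := by
    intro j
    have hρ := hrho (vj j) (hvj0 j)
    have hsq : 0 < Real.sqrt (rho Θ (vj j)) := Real.sqrt_pos.mpr hρ
    have h1 := hineq j
    rw [le_div_iff₀ hsq] at h1
    have h2 : Real.sqrt (rho Θ (vj j)) = rho Θ (vj j) ^ (1/2 : ℝ) := Real.sqrt_eq_rpow _
    have h3 : rho Θ (vj j) ^ (-(3/4) : ℝ) * Real.sqrt (rho Θ (vj j)) = rho Θ (vj j) ^ (-(1/4) : ℝ) := by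
      rw [h2, ← Real.rpow_add hρ]
      congr 1
      norm_num
    have hρ1 : rho Θ (vj j) ≤ 1 / ((j:ℝ) + 2) := by
      have h5 := (hvj j).le
      have h6 : zNorm (vj j) ^ (-((j:ℝ) + 1)) ≤ 1 := by
        apply Real.rpow_le_one_of_one_le_of_nonpos (one_le_zNorm (hvj0 j))
        have : (0:ℝ) ≤ j := Nat.cast_nonneg j
        linarith
      calc rho Θ (vj j) ≤ 1 / ((j:ℝ) + 2) * zNorm (vj j) ^ (-((j:ℝ) + 1)) := h5
        _ ≤ 1 / ((j:ℝ) + 2) * 1 := by gcongr
        _ = _ := mul_one _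
    have h4 : Real.sqrt (rho Θ (vj j)) ≤ 1 := by
      rw [Real.sqrt_le_left zero_le_one, one_pow]
      have : 1 / ((j:ℝ) + 2) ≤ 1 := by
        rw [div_le_one (by positivity)]
        have : (0:ℝ) ≤ j := Nat.cast_nonneg j
        linarith
      linarith
    have h5 : ((j:ℝ) + 2) ^ (1/4 : ℝ) ≤ rho Θ (vj j) ^ (-(1/4) : ℝ) := by
      have h6 : (1 / ((j:ℝ) + 2)) ^ (-(1/4) : ℝ) ≤ rho Θ (vj j) ^ (-(1/4) : ℝ) :=
        Real.rpow_le_rpow_of_nonpos hρ hρ1 (by norm_num)
      have h7 : (1 / ((j:ℝ) + 2)) ^ (-(1/4) : ℝ) = ((j:ℝ) + 2) ^ (1/4 : ℝ) := by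
        rw [one_div, Real.inv_rpow (by positivity), ← Real.rpow_neg (by positivity)]
        norm_num
      rw [h7] at h6
      exact h6
    have h6 : c * rho Θ (vj j) ^ (-(1/4) : ℝ) - C * Real.sqrt (rho Θ (vj j)) ≤ M := by
      have : (c * rho Θ (vj j) ^ (-(3/4) : ℝ) - C) * Real.sqrt (rho Θ (vj j))
          = c * (rho Θ (vj j) ^ (-(3/4) : ℝ) * Real.sqrt (rho Θ (vj j))) - C * Real.sqrt (rho Θ (vj j)) := by
        ring
      rw [this, h3] at h1
      exact h1
    have h7 : C * Real.sqrt (rho Θ (vj j)) ≤ C := mul_le_of_le_one_right hC h4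
    have h8 : c * ((j:ℝ) + 2) ^ (1/4 : ℝ) ≤ c * rho Θ (vj j) ^ (-(1/4) : ℝ) := by gcongr
    linarith
  -- pick j large
  have htend : Tendsto (fun j : ℕ => c * ((j:ℝ) + 2) ^ (1/4 : ℝ)) atTop atTop := by
    apply Tendsto.const_mul_atTop hc
    apply (tendsto_rpow_atTop (by norm_num : (0:ℝ) < 1/4)).comp
    exact tendsto_atTop_add_const_right _ _ tendsto_natCast_atTop_atTop
  obtain ⟨j, hj⟩ := (htend.eventually_gt_atTop (M + C)).exists
  exact absurd (hfinal j) (not_le.mpr hj)

end Pool.Agent.Lib_helper5.Lat
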