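import Pool.Agent.Lib_helper5.LatTheta

/-!
The functional-equation pair for the lattice theta function, and lower bounds for the
continuation of `f_a(s)` as `a` approaches the lattice.
-/

set_option maxHeartbeats 400000

namespace Pool.Agent.Lib_helper5.Lat

open Finset HurwitzZeta MeasureTheory Set

variable {n : ℕ}

lemma continuousOn_thF (a : Fin n → ℝ) : ContinuousOn (thF a) (Ioi 0) := by
  unfold thF
  apply continuousOn_finsetProd
  intro i _
  exact continuousOn_cosKernel _

lemma continuousOn_thG (a : Fin n → ℝ) : ContinuousOn (thG a) (Ioi 0) := by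
  unfold thG
  apply continuousOn_finsetProd
  intro i _
  exact continuousOn_evenKernel _

open Classical in
/-- constant term of `thG` -/
noncomputable def g0c (a : Fin n → ℝ) : ℝ := ∏ j, (if ((a j : ℝ) : UnitAddCircle) = 0 then 1 else 0)

lemma isBigO_cosKernel_rpow (a : UnitAddCircle) (r : ℝ) :
    (fun x => cosKernel a x - 1) =O[Filter.atTop] (fun x => x ^ r) := by
  obtain ⟨p, hp, hp'⟩ := isBigO_atTop_cosKernel_sub a
  exact hp'.trans (isLittleO_exp_neg_mul_rpow_atTop hp r).isBigO

open Classical in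
lemma isBigO_evenKernel_rpow (a : UnitAddCircle) (r : ℝ) :
    (fun x => evenKernel a x - (if a = 0 then 1 else 0)) =O[Filter.atTop] (fun x => x ^ r) := by
  obtain ⟨p, hp, hp'⟩ := isBigO_atTop_evenKernel_sub a
  convert hp'.trans (isLittleO_exp_neg_mul_rpow_atTop hp r).isBigO

lemma thF_isBigO (a : Fin n → ℝ) (r : ℝ) :
    (fun x => thF a x - 1) =O[Filter.atTop] (fun x => x ^ r) := by
  have h := prod_isBigO (Finset.univ : Finset (Fin n)) (fun j x => cosKernel ((a j : ℝ) : UnitAddCircle) x)
    (fun _ => 1) (fun i r => isBigO_cosKernel_rpow _ r) r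
  simpa [thF] using h

lemma thG_isBigO (a : Fin n → ℝ) (r : ℝ) :
    (fun x => thG a x - g0c a) =O[Filter.atTop] (fun x => x ^ r) := by
  classical
  have h := prod_isBigO (Finset.univ : Finset (Fin n)) (fun j x => evenKernel ((a j : ℝ) : UnitAddCircle) x)
    (fun j => if ((a j : ℝ) : UnitAddCircle) = 0 then 1 else 0)
    (fun i r => isBigO_evenKernel_rpow _ r) r
  unfold thG g0c
  convert h

/-- the functional equation pair -/
noncomputable def thPair (hn : 0 < n) (a : Fin n → ℝ) : WeakFEPair ℂ where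
  f := fun t => ((thF a t : ℝ) : ℂ)
  g := fun t => ((thG a t : ℝ) : ℂ)
  k := (n : ℝ) / 2
  ε := 1
  f₀ := 1
  g₀ := ((g0c a : ℝ) : ℂ)
  hf_int := (Complex.continuous_ofReal.comp_continuousOn (continuousOn_thF a)).locallyIntegrableOn
    measurableSet_Ioi
  hg_int := (Complex.continuous_ofReal.comp_continuousOn (continuousOn_thG a)).locallyIntegrableOn
    measurableSet_Ioi
  hk := by positivity
  hε := one_ne_zero
  h_feq := by
    intro x hx
    rw [thF_inv a hx]
    simp
  hf_top := by
    intro r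
    have h := thF_isBigO a r
    refine Asymptotics.IsBigO.of_norm_left ?_
    refine (Asymptotics.IsBigO.norm_left h).congr_left ?_
    intro x
    rw [← Complex.norm_real]
    push_cast
    rfl
  hg_top := by
    intro r
    have h := thG_isBigO a r
    refine Asymptotics.IsBigO.of_norm_left ?_
    refine (Asymptotics.IsBigO.norm_left h).congr_left ?_
    intro x
    rw [← Complex.norm_real]
    push_cast
    rfl

/-- `f_a(s)` for `P = 1` -/
noncomputable def fone (a : Fin n → ℝ) (s : ℂ) : ℂ := cSum (phi (fun _ => 1)) a s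

lemma fone_eq_Lambda (hn : 0 < n) (a : Fin n → ℝ) (s : ℂ) (hs : (n : ℝ) < s.re) :
    s.Gammaℝ * fone a s = (thPair hn a).Λ (s / 2) := by
  have hs0 : 0 < s.re := lt_trans (by exact_mod_cast hn) hs
  have h1 := hasSum_mellin_pi_mul_sq (ι := Fin n → ℤ) (a := fun k => ex a k) (r := fun k => zNorm k)
    (F := fun t => ((thF a t : ℝ) : ℂ) - 1) (s := s) hs0
    (fun t ht => hasSum_thF_sub_one a ht)
    (by
      refine (summable_zNorm s.re hs).congr ?_
      intro k
      rw [norm_ex, abs_of_nonneg (zNorm_nonneg k), Real.rpow_neg (zNorm_nonneg k), one_div])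
  have h2 := (thPair hn a).hasMellin (s := s / 2) (by
    change (n : ℝ) / 2 < (s / 2).re
    have : (s / 2).re = s.re / 2 := by
      rw [show (s / 2) = s / ((2:ℝ):ℂ) by push_cast; rfl, Complex.div_ofReal_re]
    rw [this]
    linarith)
  have h3 : mellin (fun t => ((thF a t : ℝ) : ℂ) - 1) (s / 2) = (thPair hn a).Λ (s / 2) := h2.2
  rw [h3] at h1
  rw [← h1.tsum_eq]
  unfold fone cSum
  rw [← tsum_mul_left]
  apply tsum_congr
  intro k
  unfold phi
  by_cases hk : k = 0
  · subst hk
    have hs1 : s ≠ 0 := by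
      intro h
      rw [h] at hs0
      simp at hs0
    simp [zNorm_zero, Complex.zero_cpow hs1]
  · rw [if_neg hk, abs_of_nonneg (zNorm_nonneg k), one_mul, Complex.cpow_neg]
    ring

lemma g0c_eq_zero (a : Fin n → ℝ) (ha : ∀ m : Fin n → ℤ, a ≠ fun i => (m i : ℝ)) : g0c a = 0 := by
  unfold g0c
  have : ∃ j, ((a j : ℝ) : UnitAddCircle) ≠ 0 := by
    by_contra hcon
    push Not at hcon
    have h1 : ∀ j, ∃ m : ℤ, (m : ℝ) = a j := by
      intro j
      have h2 := hcon j
      rw [AddCircle.coe_eq_zero_iff] at h2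
      obtain ⟨m, hm⟩ := h2
      exact ⟨m, by simpa using hm⟩
    choose m hm using h1
    exact ha m (funext fun j => (hm j).symm)
  obtain ⟨j, hj⟩ := this
  exact Finset.prod_eq_zero (mem_univ j) (if_neg hj)

lemma g0c_eq_one (a : Fin n → ℝ) (m : Fin n → ℤ) (ha : a = fun i => (m i : ℝ)) : g0c a = 1 := by
  unfold g0c
  apply Finset.prod_eq_one
  intro j _
  rw [if_pos]
  rw [AddCircle.coe_eq_zero_iff]
  exact ⟨m j, by simp [ha]⟩

/-- identity on `Re s > 0` for any entire extension, when `a ∉ ℤ^n` -/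
lemma entire_eq_Lambda (hn : 0 < n) (a : Fin n → ℝ) (ha : ∀ m : Fin n → ℤ, a ≠ fun i => (m i : ℝ))
    (G : ℂ → ℂ) (hG : Differentiable ℂ G) (hGf : ∀ s : ℂ, (n:ℝ) < s.re → G s = fone a s)
    (s : ℂ) (hs : 0 < s.re) :
    s.Gammaℝ * G s = (thPair hn a).Λ₀ (s / 2) - 2 / s := by
  have hopen : ∀ x : ℝ, IsOpen {s : ℂ | x < s.re} := fun x =>
    isOpen_lt continuous_const Complex.continuous_re
  have hL : DifferentiableOn ℂ (fun s : ℂ => s.Gammaℝ * G s) {s : ℂ | 0 < s.re} := by
    apply DifferentiableOn.mul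
    · intro s hs
      have hs' : 0 < s.re := hs
      apply DifferentiableAt.differentiableWithinAt
      have : DifferentiableAt ℂ (fun s : ℂ => (Real.pi : ℂ) ^ (-s / 2) * Complex.Gamma (s / 2)) s := by
        apply DifferentiableAt.mul
        · apply DifferentiableAt.const_cpow
          · fun_prop
          · left; exact_mod_cast Real.pi_ne_zero
        · apply DifferentiableAt.comp (g := Complex.Gamma) (f := fun s : ℂ => s / 2)
          · apply Complex.differentiableAt_Gamma
            intro m hm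
            have h1 : (s / 2).re = s.re / 2 := by
              rw [show (s / 2) = s / ((2:ℝ):ℂ) by push_cast; rfl, Complex.div_ofReal_re]
            have h2 : (s / 2).re = -(m:ℝ) := by rw [hm]; simp
            have h3 : (0:ℝ) ≤ m := Nat.cast_nonneg m
            rw [h1] at h2
            linarith
          · fun_prop
      exact this
    · exact hG.differentiableOn
  have hR : DifferentiableOn ℂ (fun s : ℂ => (thPair hn a).Λ₀ (s / 2) - 2 / s) {s : ℂ | 0 < s.re} := by
    apply DifferentiableOn.sub
    · exact ((thPair hn a).differentiable_Λ₀.comp (differentiable_id.div_const 2)).differentiableOn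
    · apply DifferentiableOn.div (differentiableOn_const _) differentiableOn_id
      intro s hs h
      have hs' : 0 < s.re := hs
      rw [show s = 0 from h] at hs'
      simp at hs'
  have hz : ((n + 1 : ℝ) : ℂ) ∈ {s : ℂ | (n:ℝ) < s.re} := by
    change (n:ℝ) < ((n + 1 : ℝ) : ℂ).re
    rw [Complex.ofReal_re]
    linarith
  have hz' : ((n + 1 : ℝ) : ℂ) ∈ {s : ℂ | 0 < s.re} := by
    change 0 < ((n + 1 : ℝ) : ℂ).re
    rw [Complex.ofReal_re]
    positivity
  have key : Set.EqOn (fun s : ℂ => s.Gammaℝ * G s) (fun s : ℂ => (thPair hn a).Λ₀ (s / 2) - 2 / s)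
      {s : ℂ | 0 < s.re} := by
    apply (hL.analyticOnNhd (hopen 0)).eqOn_of_preconnected_of_eventuallyEq
      (hR.analyticOnNhd (hopen 0)) (convex_halfSpace_re_gt 0).isPreconnected hz'
    filter_upwards [(hopen n).mem_nhds hz] with s hs
    have hs' : (n:ℝ) < s.re := hs
    rw [hGf s hs', fone_eq_Lambda hn a s hs', WeakFEPair.Λ]
    have h1 : (thPair hn a).g₀ = 0 := by
      change ((g0c a : ℝ) : ℂ) = 0
      rw [g0c_eq_zero a ha]
      simp
    have h2 : (thPair hn a).f₀ = 1 := rfl
    rw [h1, h2]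
    simp
  exact key hs

end Pool.Agent.Lib_helper5.Lat
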