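import Pool.Agent.Lib_helper5.LatBasic

/-!
Binomial remainder and polynomial growth classes.
-/

namespace Pool.Agent.Lib_helper5.Lat

open Finset

variable {n : ℕ}

/-- Generalised binomial coefficients, as functions of a complex exponent. -/
noncomputable def bc : ℕ → ℂ → ℂ
  | 0, _ => 1
  | (m+1), w => w * bc m (w - 1) / (m + 1)

lemma bc_differentiable (m : ℕ) : Differentiable ℂ (bc m) := by
  induction m with
  | zero =>
    have : bc 0 = fun _ => 1 := by funext w; rfl
    rw [this]; exact differentiable_const _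
  | succ m ih =>
    have : bc (m+1) = fun w => w * bc m (w-1) / (m+1) := by funext w; rfl
    rw [this]
    have h1 : Differentiable ℂ (fun w : ℂ => bc m (w - 1)) := ih.comp (differentiable_id.sub_const 1)
    exact (differentiable_id.mul h1).div_const _

lemma rpow_bound_aux (u : ℝ) (hu : |u| ≤ 1/2) (x R : ℝ) (hx : |x| ≤ R) : (1 + u) ^ x ≤ 2 ^ R := by
  have hu' := abs_le.mp hu
  have h1 : 0 < 1 + u := by linarith
  rcases le_or_gt 0 x with h | h
  · calc (1 + u) ^ x ≤ 2 ^ x := Real.rpow_le_rpow h1.le (by linarith) h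
      _ ≤ 2 ^ R := Real.rpow_le_rpow_of_exponent_le (by norm_num) (le_of_abs_le hx)
  · calc (1 + u) ^ x = ((1 + u)⁻¹) ^ (-x) := by
          rw [Real.inv_rpow h1.le, Real.rpow_neg h1.le, inv_inv]
      _ ≤ 2 ^ (-x) := by
          apply Real.rpow_le_rpow (by positivity) _ (by linarith)
          rw [inv_le_comm₀ h1 (by norm_num)]
          linarith
      _ ≤ 2 ^ R := Real.rpow_le_rpow_of_exponent_le (by norm_num) (by linarith [neg_le_of_abs_le hx])

lemma bc_remainder (M : ℕ) : ∀ R : ℝ, 0 ≤ R → ∃ C : ℝ, 0 ≤ C ∧ ∀ w : ℂ, ‖w‖ ≤ R →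
    ∀ u : ℝ, |u| ≤ 1/2 →
      ‖(1 + (u : ℂ)) ^ w - ∑ m ∈ range M, bc m w * (u : ℂ) ^ m‖ ≤ C * |u| ^ M := by
  induction M with
  | zero =>
    intro R hR
    refine ⟨2 ^ R, by positivity, ?_⟩
    intro w hw u hu
    have hu' := abs_le.mp hu
    have h1 : 0 < 1 + u := by linarith
    have h2 : (1 + (u : ℂ)) = ((1 + u : ℝ) : ℂ) := by push_cast; ring
    rw [h2]
    simp only [range_zero, sum_empty, sub_zero, pow_zero, mul_one]
    rw [Complex.norm_cpow_eq_rpow_re_of_pos h1]
    exact rpow_bound_aux u hu _ _ ((Complex.abs_re_le_norm w).trans hw)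
  | succ M ih =>
    intro R hR
    obtain ⟨C, hC, hb⟩ := ih (R + 1) (by linarith)
    refine ⟨R * C, by positivity, ?_⟩
    intro w hw u hu
    have hderiv : ∀ x ∈ Set.uIcc 0 u, HasDerivWithinAt
        (fun x : ℝ => (1 + (x : ℂ)) ^ w - ∑ m ∈ range (M+1), bc m w * (x : ℂ) ^ m)
        (w * ((1 + (x : ℂ)) ^ (w - 1) - ∑ m ∈ range M, bc m (w - 1) * (x : ℂ) ^ m))
        (Set.uIcc 0 u) x := by
      intro x hx
      have hx1 : |x| ≤ 1/2 := by
        have : |x| ≤ |u| := by
          rcases le_total 0 u with h | h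
          · rw [Set.uIcc_of_le h] at hx
            rw [abs_of_nonneg hx.1, abs_of_nonneg h]; exact hx.2
          · rw [Set.uIcc_of_ge h] at hx
            rw [abs_of_nonpos hx.2, abs_of_nonpos h]; linarith [hx.1]
        linarith
      have hx2 := abs_le.mp hx1
      have hpos : (1 + (x : ℂ)) ∈ Complex.slitPlane := by
        left
        simp
        linarith
      have hA : HasDerivAt (fun z : ℂ => (1 + z) ^ w) (w * (1 + (x : ℂ)) ^ (w - 1) * 1) (x : ℂ) := by
        have h0 : HasDerivAt (fun z : ℂ => 1 + z) 1 (x : ℂ) := by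
          simpa using (hasDerivAt_id (x : ℂ)).const_add 1
        exact h0.cpow_const hpos
      have hB : HasDerivAt (fun z : ℂ => ∑ m ∈ range (M+1), bc m w * z ^ m)
          (∑ m ∈ range (M+1), bc m w * ((m : ℂ) * (x : ℂ) ^ (m - 1))) (x : ℂ) := by
        apply HasDerivAt.fun_sum
        intro m _
        exact (hasDerivAt_pow m (x : ℂ)).const_mul _
      have hC' := (hA.sub hB).comp_ofReal
      have heq : w * (1 + (x : ℂ)) ^ (w - 1) * 1
          - ∑ m ∈ range (M+1), bc m w * ((m : ℂ) * (x : ℂ) ^ (m - 1))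
          = w * ((1 + (x : ℂ)) ^ (w - 1) - ∑ m ∈ range M, bc m (w - 1) * (x : ℂ) ^ m) := by
        rw [Finset.sum_range_succ', mul_sub, Finset.mul_sum]
        simp only [Nat.cast_zero, zero_mul, mul_zero, add_zero, mul_one]
        congr 1
        apply Finset.sum_congr rfl
        intro m _
        have hm : (m : ℂ) + 1 ≠ 0 := by exact_mod_cast Nat.succ_ne_zero m
        have : bc (m+1) w = w * bc m (w - 1) / (m + 1) := rfl
        rw [this]
        simp only [Nat.add_sub_cancel]
        push_cast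
        field_simp
      rw [heq] at hC'
      exact hC'.hasDerivWithinAt
    have hbound : ∀ x ∈ Set.uIcc 0 u,
        ‖w * ((1 + (x : ℂ)) ^ (w - 1) - ∑ m ∈ range M, bc m (w - 1) * (x : ℂ) ^ m)‖
          ≤ R * (C * |u| ^ M) := by
      intro x hx
      have hxu : |x| ≤ |u| := by
        rcases le_total 0 u with h | h
        · rw [Set.uIcc_of_le h] at hx
          rw [abs_of_nonneg hx.1, abs_of_nonneg h]; exact hx.2
        · rw [Set.uIcc_of_ge h] at hx
          rw [abs_of_nonpos hx.2, abs_of_nonpos h]; linarith [hx.1]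
      rw [norm_mul]
      have h3 := hb (w - 1) (by
        calc ‖w - 1‖ ≤ ‖w‖ + ‖(1:ℂ)‖ := norm_sub_le _ _
          _ ≤ R + 1 := by simpa using hw) x (hxu.trans hu)
      have h4 : C * |x| ^ M ≤ C * |u| ^ M := by gcongr
      gcongr
      exact h3.trans h4
    have hmv := Convex.norm_image_sub_le_of_norm_hasDerivWithin_le hderiv hbound
      (convex_uIcc 0 u) (Set.left_mem_uIcc) (Set.right_mem_uIcc)
    have hzero : (1 + ((0:ℝ) : ℂ)) ^ w - ∑ m ∈ range (M+1), bc m w * ((0:ℝ) : ℂ) ^ m = 0 := by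
      rw [Finset.sum_range_succ']
      simp [bc]
    simp only [hzero, sub_zero] at hmv
    calc _ ≤ R * (C * |u| ^ M) * ‖u‖ := hmv
      _ = R * C * |u| ^ (M + 1) := by rw [Real.norm_eq_abs]; ring

/-- Polynomial functions on `ℤ^n` of degree at most `D`. -/
inductive PD {n : ℕ} : ℕ → ((Fin n → ℤ) → ℂ) → Prop
  | const (c : ℂ) : PD 0 (fun _ => c)
  | mono {D : ℕ} {p : (Fin n → ℤ) → ℂ} : PD D p → PD (D+1) p
  | add {D : ℕ} {p q : (Fin n → ℤ) → ℂ} : PD D p → PD D q → PD D (fun k => p k + q k)
  | mulX {D : ℕ} {p : (Fin n → ℤ) → ℂ} (i : Fin n) : PD D p → PD (D+1) (fun k => (k i : ℂ) * p k)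

lemma PD.mono_add {D : ℕ} {p : (Fin n → ℤ) → ℂ} (h : PD D p) (m : ℕ) : PD (D + m) p := by
  induction m with
  | zero => exact h
  | succ m ih => exact PD.mono ih

lemma PD.mono_le {D D' : ℕ} (hD : D ≤ D') {p : (Fin n → ℤ) → ℂ} (h : PD D p) : PD D' p := by
  obtain ⟨m, rfl⟩ := Nat.exists_eq_add_of_le hD
  exact h.mono_add m

lemma PD.constD (D : ℕ) (c : ℂ) : PD D (fun _ : Fin n → ℤ => c) :=
  PD.mono_le (Nat.zero_le D) (PD.const c)

lemma PD.smul {D : ℕ} {p : (Fin n → ℤ) → ℂ} (h : PD D p) (c : ℂ) : PD D (fun k => c * p k) := by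
  induction h with
  | const c' => exact PD.const (c * c')
  | mono _ ih => exact PD.mono ih
  | add _ _ ih1 ih2 =>
    have := PD.add ih1 ih2
    convert this using 2
    ring
  | mulX i _ ih =>
    have := PD.mulX i ih
    convert this using 2
    ring

lemma PD.shift {D : ℕ} {p : (Fin n → ℤ) → ℂ} (h : PD D p) (e : Fin n → ℤ) :
    PD D (fun k => p (k - e)) := by
  induction h with
  | const c' => exact PD.const c'
  | mono _ ih => exact PD.mono ih
  | add _ _ ih1 ih2 => exact PD.add ih1 ih2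
  | mulX i _ ih =>
    have h1 := PD.mulX i ih
    have h2 := PD.mono (ih.smul (-(e i : ℂ)))
    have := PD.add h1 h2
    convert this using 2
    simp only [Pi.sub_apply]
    push_cast
    ring

/-- degree at most `D - 1` (zero when `D = 0`). -/
def PDlow {n : ℕ} : ℕ → ((Fin n → ℤ) → ℂ) → Prop
  | 0, p => ∀ k, p k = 0
  | (D+1), p => PD D p

lemma PD.diff {D : ℕ} {p : (Fin n → ℤ) → ℂ} (h : PD D p) (e : Fin n → ℤ) :
    PDlow D (fun k => p (k - e) - p k) := by
  induction h with
  | const c' => intro k; simp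
  | @mono D p _ ih =>
    cases D with
    | zero =>
      have ih' : ∀ k, p (k - e) - p k = 0 := ih
      have : (fun k => p (k - e) - p k) = fun _ => 0 := by funext k; exact ih' k
      rw [this]
      exact PD.const 0
    | succ D => exact PD.mono ih
  | @add D p q _ _ ih1 ih2 =>
    cases D with
    | zero =>
      intro k
      have h1 : p (k - e) - p k = 0 := ih1 k
      have h2 : q (k - e) - q k = 0 := ih2 k
      linear_combination h1 + h2
    | succ D =>
      have := PD.add (show PD D _ from ih1) (show PD D _ from ih2)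
      change PD D _
      convert this using 2
      ring
  | @mulX D p i hp ih =>
    change PD D _
    have h2 := (hp.shift e).smul (-(e i : ℂ))
    cases D with
    | zero =>
      have ih' : ∀ k, p (k - e) - p k = 0 := ih
      convert h2 using 2 with k
      simp only [Pi.sub_apply]
      push_cast
      linear_combination (k i : ℂ) * ih' k
    | succ D =>
      have h1 := PD.mulX i (show PD D _ from ih)
      have := PD.add h1 h2
      convert this using 2
      simp only [Pi.sub_apply]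
      push_cast
      ring

lemma PD.mul {D D' : ℕ} {p q : (Fin n → ℤ) → ℂ} (hp : PD D p) (hq : PD D' q) :
    PD (D + D') (fun k => p k * q k) := by
  induction hp with
  | const c =>
    rw [zero_add]
    exact hq.smul c
  | @mono D p _ ih =>
    rw [Nat.add_right_comm]
    exact PD.mono ih
  | add _ _ ih1 ih2 =>
    have := PD.add ih1 ih2
    convert this using 2
    ring
  | @mulX D p i _ ih =>
    rw [Nat.add_right_comm]
    have := PD.mulX i ih
    convert this using 2
    ring

lemma PD.X (i : Fin n) : PD 1 (fun k : Fin n → ℤ => (k i : ℂ)) := by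
  have := PD.mulX i (PD.const (n := n) 1)
  simpa using this

lemma PD.pow {D : ℕ} {p : (Fin n → ℤ) → ℂ} (hp : PD D p) (m : ℕ) :
    PD (D * m) (fun k => p k ^ m) := by
  induction m with
  | zero => simpa using PD.const (n := n) 1
  | succ m ih =>
    have := ih.mul hp
    rw [Nat.mul_succ]
    simpa [pow_succ] using this

lemma PD.prod_pow (m : Fin n → ℕ) (s : Finset (Fin n)) :
    PD (∑ i ∈ s, m i) (fun k : Fin n → ℤ => ∏ i ∈ s, (k i : ℂ) ^ m i) := by
  classical
  induction s using Finset.induction_on with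
  | empty => simpa using PD.const (n := n) 1
  | @insert a s ha ih =>
    have h1 := ((PD.X a).pow (m a)).mul ih
    rw [one_mul] at h1
    simpa [Finset.sum_insert ha, Finset.prod_insert ha] using h1

lemma PD.sum {ι : Type*} (s : Finset ι) (D : ℕ) (f : ι → (Fin n → ℤ) → ℂ)
    (h : ∀ i ∈ s, PD D (f i)) : PD D (fun k => ∑ i ∈ s, f i k) := by
  classical
  induction s using Finset.induction_on with
  | empty => simpa using PD.constD (n := n) D 0
  | @insert a s ha ih =>
    have h1 := PD.add (h a (mem_insert_self a s)) (ih fun i hi => h i (mem_insert_of_mem hi))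
    simpa [Finset.sum_insert ha] using h1

lemma PD.of_mvPolynomial {d : ℕ} (P : MvPolynomial (Fin n) ℂ) (hP : P.totalDegree ≤ d) :
    PD d (fun k => MvPolynomial.eval (fun i => (k i : ℂ)) P) := by
  simp only [MvPolynomial.eval_eq']
  apply PD.sum
  intro m hm
  apply PD.smul
  have h1 := PD.prod_pow (fun i => m i) (Finset.univ : Finset (Fin n))
  refine h1.mono_le ?_
  have h2 := MvPolynomial.le_totalDegree hm
  rw [Finsupp.sum_fintype _ _ (by simp)] at h2
  exact h2.trans hP

lemma PD.bound {D : ℕ} {p : (Fin n → ℤ) → ℂ} (h : PD D p) :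
    ∃ C : ℝ, 0 ≤ C ∧ ∀ k : Fin n → ℤ, k ≠ 0 → ‖p k‖ ≤ C * zNorm k ^ D := by
  induction h with
  | const c => exact ⟨‖c‖, norm_nonneg _, fun k _ => by simp⟩
  | @mono D p _ ih =>
    obtain ⟨C, hC, hb⟩ := ih
    refine ⟨C, hC, fun k hk => (hb k hk).trans ?_⟩
    have := one_le_zNorm hk
    gcongr
    exact Nat.le_succ D
  | @add D p q _ _ ih1 ih2 =>
    obtain ⟨C1, hC1, hb1⟩ := ih1
    obtain ⟨C2, hC2, hb2⟩ := ih2
    refine ⟨C1 + C2, by positivity, fun k hk => ?_⟩
    calc ‖p k + q k‖ ≤ ‖p k‖ + ‖q k‖ := norm_add_le _ _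
      _ ≤ C1 * zNorm k ^ D + C2 * zNorm k ^ D := add_le_add (hb1 k hk) (hb2 k hk)
      _ = _ := by ring
  | @mulX D p i _ ih =>
    obtain ⟨C, hC, hb⟩ := ih
    refine ⟨C, hC, fun k hk => ?_⟩
    rw [norm_mul]
    have h1 : ‖((k i : ℤ) : ℂ)‖ ≤ zNorm k := by
      rw [Complex.norm_intCast]
      exact abs_le_zNorm k i
    calc ‖((k i : ℤ) : ℂ)‖ * ‖p k‖ ≤ zNorm k * (C * zNorm k ^ D) := by
          have := zNorm_nonneg k
          have := hb k hk
          gcongr
      _ = _ := by ring

end Pool.Agent.Lib_helper5.Lat
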