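import Pool.Agent.Lib_helper5.LatCont

/-!
Theta functions on `ℤ^n`: product formula, functional equation, lower bounds.
-/

set_option maxHeartbeats 400000

namespace Pool.Agent.Lib_helper5.Lat

open Finset HurwitzZeta

variable {n : ℕ}

lemma hasSum_prod_pi : ∀ (n : ℕ) (f : Fin n → ℤ → ℂ) (S : Fin n → ℂ),
    (∀ j, HasSum (f j) (S j)) → (∀ j, Summable (fun m => ‖f j m‖)) →
    HasSum (fun k : Fin n → ℤ => ∏ j, f j (k j)) (∏ j, S j) ∧
      Summable (fun k : Fin n → ℤ => ‖∏ j, f j (k j)‖) := by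
  intro n
  induction n with
  | zero =>
    intro f S _ _
    simp only [Finset.univ_eq_empty, Finset.prod_empty]
    constructor
    · have := hasSum_fintype (fun _ : Fin 0 → ℤ => (1:ℂ))
      simp
    · exact Summable.of_finite
  | succ n ih =>
    intro f S hf hn
    obtain ⟨h1, h2⟩ := ih (fun j => f j.succ) (fun j => S j.succ) (fun j => hf j.succ) (fun j => hn j.succ)
    obtain ⟨g, hg⟩ : ∃ g : (Fin n → ℤ) → ℂ, g = fun k => ∏ j, f (Fin.succ j) (k j) := ⟨_, rfl⟩
    rw [← hg] at h1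
    have h2' : Summable (fun k => ‖g k‖) := by rw [hg]; exact h2
    have hnorm : Summable (fun x : ℤ × (Fin n → ℤ) => ‖f 0 x.1 * g x.2‖) :=
      Summable.mul_norm (hn 0) h2'
    have h3 : HasSum (fun x : ℤ × (Fin n → ℤ) => f 0 x.1 * g x.2)
        (S 0 * ∏ j, S (Fin.succ j)) := (hf 0).mul h1 hnorm.of_norm
    have he := (Fin.consEquiv (fun _ : Fin (n+1) => ℤ)).hasSum_iff
      (f := fun k : Fin (n+1) → ℤ => ∏ j, f j (k j)) (a := ∏ j, S j)
    have he2 := (Fin.consEquiv (fun _ : Fin (n+1) => ℤ)).summable_iff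
      (f := fun k : Fin (n+1) → ℤ => ‖∏ j, f j (k j)‖)
    have hkey : ∀ x : ℤ × (Fin n → ℤ),
        ∏ j, f j ((Fin.consEquiv (fun _ : Fin (n+1) => ℤ)) x j) = f 0 x.1 * g x.2 := by
      intro x
      rw [Fin.prod_univ_succ, hg]
      simp [Fin.consEquiv]
    constructor
    · rw [← he]
      rw [Fin.prod_univ_succ S]
      refine h3.congr_fun fun x => ?_
      exact hkey x
    · rw [← he2]
      refine hnorm.congr fun x => ?_
      simp only [Function.comp]
      rw [hkey x]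

/-- product of cosine kernels -/
noncomputable def thF (a : Fin n → ℝ) (t : ℝ) : ℝ := ∏ j, cosKernel ((a j : ℝ) : UnitAddCircle) t

/-- product of even kernels -/
noncomputable def thG (a : Fin n → ℝ) (t : ℝ) : ℝ := ∏ j, evenKernel ((a j : ℝ) : UnitAddCircle) t

lemma hasSum_thF (a : Fin n → ℝ) {t : ℝ} (ht : 0 < t) :
    HasSum (fun k : Fin n → ℤ => ex a k * (Real.exp (-Real.pi * zNorm k ^ 2 * t) : ℂ))
      ((thF a t : ℝ) : ℂ) := by
  have h := hasSum_prod_pi n
    (fun j m => Complex.exp (2 * Real.pi * Complex.I * (a j : ℂ) * m) * (Real.exp (-Real.pi * m ^ 2 * t) : ℂ))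
    (fun j => ((cosKernel ((a j : ℝ) : UnitAddCircle) t : ℝ) : ℂ))
    (fun j => hasSum_int_cosKernel (a j) ht)
    (fun j => (hasSum_int_cosKernel (a j) ht).summable.norm)
  have h1 := h.1
  have h2 : (∏ j, ((cosKernel ((a j : ℝ) : UnitAddCircle) t : ℝ) : ℂ)) = ((thF a t : ℝ) : ℂ) := by
    unfold thF
    push_cast
    rfl
  rw [h2] at h1
  refine h1.congr_fun fun k => ?_
  rw [Finset.prod_mul_distrib]
  congr 1
  · unfold ex
    rw [← Complex.exp_sum]
    congr 1
    rw [Finset.mul_sum]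
    apply Finset.sum_congr rfl
    intro i _
    ring
  · rw [← Complex.ofReal_prod, ← Real.exp_sum]
    congr 2
    rw [zNorm_sq]
    rw [Finset.mul_sum, Finset.sum_mul]

lemma zNorm_eq_zero_iff (k : Fin n → ℤ) : zNorm k = 0 ↔ k = 0 := by
  constructor
  · intro h
    by_contra hk
    exact (zNorm_pos hk).ne' h
  · rintro rfl; exact zNorm_zero

lemma hasSum_thF_sub_one (a : Fin n → ℝ) {t : ℝ} (ht : 0 < t) :
    HasSum (fun k : Fin n → ℤ => if zNorm k = 0 then 0 else
      ex a k * (Real.exp (-Real.pi * zNorm k ^ 2 * t) : ℂ)) ((thF a t : ℝ) - 1 : ℂ) := by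
  classical
  have h1 := hasSum_ite_sub_hasSum (hasSum_thF a ht) 0
  rw [ex_zero, zNorm_zero] at h1
  simp only [ne_eq, OfNat.ofNat_ne_zero, not_false_eq_true, zero_pow, mul_zero, zero_mul,
    Real.exp_zero, Complex.ofReal_one, mul_one] at h1
  refine h1.congr_fun fun k => ?_
  simp only [zNorm_eq_zero_iff]

/-- `|θ_a(t) - 1| ≤ θ_0(t) - 1` -/
lemma abs_thF_sub_one_le (a : Fin n → ℝ) {t : ℝ} (ht : 0 < t) :
    |thF a t - 1| ≤ thF (0 : Fin n → ℝ) t - 1 := by
  have h0 := hasSum_thF_sub_one (0 : Fin n → ℝ) ht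
  have ha := hasSum_thF_sub_one a ht
  have h0' : HasSum (fun k : Fin n → ℤ => if zNorm k = 0 then (0:ℝ) else
      Real.exp (-Real.pi * zNorm k ^ 2 * t)) (thF (0 : Fin n → ℝ) t - 1) := by
    rw [← Complex.hasSum_ofReal]
    push_cast
    refine h0.congr_fun fun k => ?_
    have : ex (0 : Fin n → ℝ) k = 1 := by simp [ex]
    rw [this]
    split_ifs <;> simp
  have h1 : ‖((thF a t : ℝ) - 1 : ℂ)‖ ≤ thF (0 : Fin n → ℝ) t - 1 := by
    rw [← ha.tsum_eq]
    apply tsum_of_norm_bounded h0'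
    intro k
    split_ifs
    · simp
    · rw [norm_mul, norm_ex, one_mul, Complex.norm_real, Real.norm_eq_abs, abs_of_pos (Real.exp_pos _)]
  have h2 : ((thF a t : ℝ) - 1 : ℂ) = ((thF a t - 1 : ℝ) : ℂ) := by push_cast; rfl
  rw [h2, Complex.norm_real, Real.norm_eq_abs] at h1
  exact h1

lemma cosKernel_inv (a : UnitAddCircle) {x : ℝ} (hx : 0 < x) :
    cosKernel a (1 / x) = x ^ (1/2 : ℝ) * evenKernel a x := by
  have h := evenKernel_functional_equation a x
  rw [h, ← mul_assoc]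
  have h2 : x ^ (1/2 : ℝ) ≠ 0 := (Real.rpow_pos_of_pos hx _).ne'
  rw [mul_one_div_cancel h2, one_mul]

lemma thF_inv (a : Fin n → ℝ) {x : ℝ} (hx : 0 < x) :
    thF a (1 / x) = x ^ ((n : ℝ) / 2) * thG a x := by
  unfold thF thG
  rw [Finset.prod_congr rfl (fun j _ => cosKernel_inv _ hx), Finset.prod_mul_distrib]
  congr 1
  rw [Finset.prod_const, Finset.card_univ, Fintype.card_fin, ← Real.rpow_natCast, ← Real.rpow_mul hx.le]
  congr 1
  ring

lemma evenKernel_ge (a : ℝ) (m : ℤ) {t : ℝ} (ht : 0 < t) :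
    Real.exp (-Real.pi * (m + a) ^ 2 * t) ≤ evenKernel (a : UnitAddCircle) t :=
  le_hasSum (hasSum_int_evenKernel a ht) m (fun _ _ => (Real.exp_pos _).le)

lemma thG_ge (a : Fin n → ℝ) (m : Fin n → ℤ) {t : ℝ} (ht : 0 < t) :
    Real.exp (-Real.pi * eNorm (fun i => a i - (m i : ℝ)) ^ 2 * t) ≤ thG a t := by
  rw [eNorm_sq, Finset.mul_sum, Finset.sum_mul, Real.exp_sum]
  unfold thG
  apply Finset.prod_le_prod
  · intro i _; exact (Real.exp_pos _).le
  · intro i _
    have := evenKernel_ge (a i) (-(m i)) ht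
    refine le_trans (le_of_eq ?_) this
    congr 3
    push_cast
    ring

lemma prod_isBigO {ι : Type*} (s : Finset ι) (f : ι → ℝ → ℝ) (c : ι → ℝ)
    (h : ∀ i, ∀ r : ℝ, (fun x => f i x - c i) =O[Filter.atTop] (fun x => x ^ r)) :
    ∀ r : ℝ, (fun x => ∏ i ∈ s, f i x - ∏ i ∈ s, c i) =O[Filter.atTop] (fun x => x ^ r) := by
  classical
  induction s using Finset.induction_on with
  | empty =>
    intro r
    simp only [Finset.prod_empty, sub_self]
    exact Asymptotics.isBigO_zero _ _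
  | @insert a s ha ih =>
    intro r
    have h1 : (fun x => ∏ i ∈ s, f i x) =O[Filter.atTop] (fun _ => (1:ℝ)) := by
      have h2 := ih 0
      simp only [Real.rpow_zero] at h2
      have h3 : (fun _ : ℝ => ∏ i ∈ s, c i) =O[Filter.atTop] (fun _ => (1:ℝ)) :=
        Asymptotics.isBigO_const_const _ one_ne_zero _
      have h4 := h2.add h3
      simpa using h4
    have h2 := (h a r).mul h1
    have h3 := (ih r).const_mul_left (c a)
    simp only [mul_one] at h2
    have h4 := h2.add h3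
    refine h4.congr_left ?_
    intro x
    rw [Finset.prod_insert ha, Finset.prod_insert ha]
    ring

end Pool.Agent.Lib_helper5.Lat
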